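import Mathlib
import Pool.Agent.MK.ValEx

/-! # Geometry of the Severi-Brauer variety of a cyclic algebra: definitions (project MS)

`L/F` is a cyclic extension of prime degree `p` with generator `s` of the Galois group, `b ∈ F*`.

* `S p L = L[x_0, …, x_{p-1}]`; `D.sig : S p L →+* S p L` is the semilinear automorphism
  `x_i ↦ x_{i+1}` (`i + 1 < p`), `x_{p-1} ↦ b x_0`.
* `D.Inv m f`: `f` is homogeneous of degree `p m` and `sig f = b^m f`.
* `Q p L` is the fraction field of `S p L`; `KL p L` its subfield of homogeneous elements of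
  degree `0`; `D.K` the subfield of `KL p L` of the elements fixed by `D.sigQ`; this is the
  function field of the Severi-Brauer variety of the cyclic algebra `(L/F, s, b)`.
* `HP p L`: the homogeneous prime ideals of height one of `S p L` (the points of codimension one of
  the projective space over `L`); `P.gen` a homogeneous irreducible generator; `kap P` the fraction
  field of `S p L / P`; `pl P` the place of `Q p L` at `P` (residues in `kap P`).
-/

set_option autoImplicit false

namespace Pool.Agent.MSX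

open MvPolynomial

universe u

/-- A cyclic extension `L/F` of prime degree `p` and an element `b ∈ F*`. -/
structure Dat (p : ℕ) (F L : Type u) [Field F] [Field L] [Algebra F L] where
  hp : p.Prime
  s : L ≃ₐ[F] L
  s_pow : ∀ x : L, (s ^ p) x = x
  s_ne : s ≠ 1
  fix : ∀ x : L, s x = x → ∃ c : F, algebraMap F L c = x
  b : F
  b_ne : b ≠ 0

/-- The polynomial ring `L[x_0, …, x_{p-1}]`. -/
abbrev S (p : ℕ) (L : Type u) [Field L] : Type u := MvPolynomial (Fin p) L

/-- The fraction field of `S p L`. -/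
abbrev Q (p : ℕ) (L : Type u) [Field L] : Type u := FractionRing (S p L)

section

variable {p : ℕ} {F L : Type u} [Field F] [Field L] [Algebra F L] (D : Dat p F L)

namespace Dat

/-- `b` as an element of `L`. -/
def bL : L := algebraMap F L D.b

theorem bL_ne : D.bL ≠ 0 := (map_ne_zero (algebraMap F L)).mpr D.b_ne

theorem s_bL : D.s D.bL = D.bL := D.s.commutes D.b

/-- The norm of `L/F` (as an element of `L`). -/
def N (z : L) : L := ∏ i ∈ Finset.range p, (D.s ^ i) z

/-- `b` is not a norm: the cyclic algebra is a division algebra. -/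
def Div : Prop := ∀ z : L, D.N z ≠ D.bL

/-- The images of the variables. -/
noncomputable def sigX (i : Fin p) : S p L :=
  if h : i.val + 1 < p then X ⟨i.val + 1, h⟩ else C D.bL * X ⟨0, D.hp.pos⟩

/-- The semilinear automorphism `x_i ↦ x_{i+1}`, `x_{p-1} ↦ b x_0`. -/
noncomputable def sig : S p L →+* S p L :=
  eval₂Hom ((C : L →+* S p L).comp (D.s : L →+* L)) D.sigX

theorem sig_C (c : L) : D.sig (C c) = C (D.s c) := by
  simp [sig]

theorem sig_X (i : Fin p) : D.sig (X i) = D.sigX i := by
  simp [sig]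

theorem sig_X_lt {i : Fin p} (h : i.val + 1 < p) : D.sig (X i) = X ⟨i.val + 1, h⟩ := by
  rw [sig_X, sigX, dif_pos h]

theorem sig_X_last {i : Fin p} (h : ¬ i.val + 1 < p) : D.sig (X i) = C D.bL * X ⟨0, D.hp.pos⟩ := by
  rw [sig_X, sigX, dif_neg h]

/-- The inverse of `sig`. -/
noncomputable def gis : S p L →+* S p L :=
  eval₂Hom ((C : L →+* S p L).comp (D.s.symm : L →+* L))
    (fun i => if i.val = 0 then C (D.bL)⁻¹ * X ⟨p - 1, by have := D.hp.pos; omega⟩
      else X ⟨i.val - 1, by omega⟩)

theorem gis_C (c : L) : D.gis (C c) = C (D.s.symm c) := by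
  simp [gis]

theorem symm_bL : D.s.symm D.bL = D.bL := by
  rw [AlgEquiv.symm_apply_eq, s_bL]

theorem sig_gis (f : S p L) : D.sig (D.gis f) = f := by
  have h : (D.sig.comp D.gis) = RingHom.id _ := by
    refine MvPolynomial.ringHom_ext ?_ ?_
    · intro c
      rw [RingHom.comp_apply, gis_C, sig_C, AlgEquiv.apply_symm_apply]
      rfl
    · intro i
      rw [RingHom.comp_apply, RingHom.id_apply]
      have hp := D.hp.pos
      by_cases h0 : i.val = 0
      · have e : D.gis (X i) = C (D.bL)⁻¹ * X ⟨p - 1, by omega⟩ := by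
          simp [gis, h0]
        rw [e, map_mul, sig_C, sig_X_last D (by simp; omega), map_inv₀, s_bL, ← mul_assoc, ← map_mul,
          inv_mul_cancel₀ D.bL_ne, map_one, one_mul]
        congr 1
        exact Fin.ext h0.symm
      · have e : D.gis (X i) = X ⟨i.val - 1, by omega⟩ := by
          simp [gis, h0]
        rw [e, sig_X_lt D (i := ⟨i.val - 1, by omega⟩) (by simp; omega)]
        congr 1
        exact Fin.ext (by simp; omega)
  exact congrArg (fun g : S p L →+* S p L => g f) h

theorem gis_sig (f : S p L) : D.gis (D.sig f) = f := by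
  have h : (D.gis.comp D.sig) = RingHom.id _ := by
    refine MvPolynomial.ringHom_ext ?_ ?_
    · intro c
      rw [RingHom.comp_apply, sig_C, gis_C, AlgEquiv.symm_apply_apply]
      rfl
    · intro i
      rw [RingHom.comp_apply, RingHom.id_apply]
      have hp := D.hp.pos
      by_cases h0 : i.val + 1 < p
      · rw [sig_X_lt D h0]
        have e : D.gis (X ⟨i.val + 1, h0⟩) = X i := by
          simp [gis]
        exact e
      · rw [sig_X_last D h0, map_mul, gis_C, symm_bL]
        have e : D.gis (X ⟨0, hp⟩) = C (D.bL)⁻¹ * X ⟨p - 1, by omega⟩ := by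
          simp [gis]
        rw [e, ← mul_assoc, ← map_mul, mul_inv_cancel₀ D.bL_ne, map_one, one_mul]
        congr 1
        exact Fin.ext (by simp; omega)
  exact congrArg (fun g : S p L →+* S p L => g f) h

/-- `sig` as a ring isomorphism. -/
noncomputable def sigE : S p L ≃+* S p L :=
  { D.sig with
    invFun := D.gis
    left_inv := D.gis_sig
    right_inv := D.sig_gis }

theorem sigE_apply (f : S p L) : D.sigE f = D.sig f := rfl

/-- `sig` on the fraction field. -/
noncomputable def sigQ : Q p L ≃+* Q p L := IsFractionRing.ringEquivOfRingEquiv D.sigE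

theorem sigQ_alg (f : S p L) : D.sigQ (algebraMap (S p L) (Q p L) f) =
    algebraMap (S p L) (Q p L) (D.sig f) :=
  IsFractionRing.ringEquivOfRingEquiv_algebraMap D.sigE f

/-- The invariants of degree `p m`. -/
def Inv (m : ℕ) (f : S p L) : Prop := f.IsHomogeneous (p * m) ∧ D.sig f = C (D.bL ^ m) * f

end Dat

variable (p L) in
/-- The subfield of the homogeneous elements of degree `0` of the fraction field. -/
def KL : Subfield (Q p L) where
  carrier := {q | ∃ (n : ℕ) (f g : S p L), f.IsHomogeneous n ∧ g.IsHomogeneous n ∧ g ≠ 0 ∧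
    q = algebraMap (S p L) (Q p L) f / algebraMap (S p L) (Q p L) g}
  mul_mem' := by
    rintro _ _ ⟨n, f, g, hf, hg, h0, rfl⟩ ⟨m, f', g', hf', hg', h0', rfl⟩
    exact ⟨n + m, f * f', g * g', hf.mul hf', hg.mul hg', mul_ne_zero h0 h0', by
      rw [map_mul, map_mul, div_mul_div_comm]⟩
  one_mem' := ⟨0, 1, 1, MvPolynomial.isHomogeneous_one _ _, MvPolynomial.isHomogeneous_one _ _,
    one_ne_zero, by simp⟩
  add_mem' := by
    rintro _ _ ⟨n, f, g, hf, hg, h0, rfl⟩ ⟨m, f', g', hf', hg', h0', rfl⟩
    have e : algebraMap (S p L) (Q p L) g ≠ 0 :=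
      (map_ne_zero_iff _ (IsFractionRing.injective (S p L) (Q p L))).mpr h0
    have e' : algebraMap (S p L) (Q p L) g' ≠ 0 :=
      (map_ne_zero_iff _ (IsFractionRing.injective (S p L) (Q p L))).mpr h0'
    exact ⟨n + m, f * g' + g * f', g * g', (hf.mul hg').add (hg.mul hf'), hg.mul hg',
      mul_ne_zero h0 h0', by rw [map_add, map_mul, map_mul, map_mul, div_add_div _ _ e e']⟩
  zero_mem' := ⟨0, 0, 1, MvPolynomial.isHomogeneous_zero _ _ _, MvPolynomial.isHomogeneous_one _ _,
    one_ne_zero, by simp⟩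
  neg_mem' := by
    rintro _ ⟨n, f, g, hf, hg, h0, rfl⟩
    exact ⟨n, -f, g, hf.neg, hg, h0, by rw [map_neg, neg_div]⟩
  inv_mem' := by
    rintro _ ⟨n, f, g, hf, hg, h0, rfl⟩
    by_cases hf0 : f = 0
    · exact ⟨0, 0, 1, MvPolynomial.isHomogeneous_zero _ _ _, MvPolynomial.isHomogeneous_one _ _,
        one_ne_zero, by simp [hf0]⟩
    · exact ⟨n, g, f, hg, hf, hf0, by rw [inv_div]⟩

/-- The function field of the Severi-Brauer variety: degree `0` and fixed by `sigQ`. -/
def Dat.K : Subfield (Q p L) where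
  carrier := {q | q ∈ KL p L ∧ D.sigQ q = q}
  mul_mem' := by
    rintro x y ⟨h1, h2⟩ ⟨h3, h4⟩
    exact ⟨mul_mem h1 h3, by rw [map_mul, h2, h4]⟩
  one_mem' := ⟨one_mem _, map_one _⟩
  add_mem' := by
    rintro x y ⟨h1, h2⟩ ⟨h3, h4⟩
    exact ⟨add_mem h1 h3, by rw [map_add, h2, h4]⟩
  zero_mem' := ⟨zero_mem _, map_zero _⟩
  neg_mem' := by
    rintro x ⟨h1, h2⟩
    exact ⟨neg_mem h1, by rw [map_neg, h2]⟩
  inv_mem' := by
    rintro x ⟨h1, h2⟩
    exact ⟨inv_mem h1, by rw [map_inv₀, h2]⟩

end

section primes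

variable (p : ℕ) (L : Type u) [Field L]

/-- The homogeneous prime ideals of height one of `L[x_0, …, x_{p-1}]`. -/
structure HP where
  /-- the ideal -/
  I : Ideal (S p L)
  ex : ∃ (f : S p L) (n : ℕ), Irreducible f ∧ f.IsHomogeneous n ∧ I = Ideal.span {f}

variable {p L}

namespace HP

theorem ext' {P P' : HP p L} (h : P.I = P'.I) : P = P' := by
  cases P
  cases P'
  cases h
  rfl

/-- A homogeneous irreducible generator. -/
noncomputable def gen (P : HP p L) : S p L := P.ex.choose

/-- The degree of the generator. -/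
noncomputable def deg (P : HP p L) : ℕ := P.ex.choose_spec.choose

variable (P : HP p L)

theorem gen_irr : Irreducible P.gen := P.ex.choose_spec.choose_spec.1

theorem gen_hom : P.gen.IsHomogeneous P.deg := P.ex.choose_spec.choose_spec.2.1

theorem I_eq : P.I = Ideal.span {P.gen} := P.ex.choose_spec.choose_spec.2.2

theorem gen_prime : Prime P.gen := P.gen_irr.prime

theorem mem_iff (f : S p L) : f ∈ P.I ↔ P.gen ∣ f := by
  rw [P.I_eq, Ideal.mem_span_singleton]

instance : P.I.IsPrime := by
  rw [P.I_eq]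
  exact (Ideal.span_singleton_prime P.gen_prime.ne_zero).mpr P.gen_prime

end HP

/-- The residue field of a point of codimension one (all degrees). -/
abbrev kap (P : HP p L) : Type u := FractionRing (S p L ⧸ P.I)

/-- The reduction `S → kap P`. -/
noncomputable def red (P : HP p L) : S p L →+* kap P :=
  (algebraMap (S p L ⧸ P.I) (kap P)).comp (Ideal.Quotient.mk P.I)

theorem red_eq_zero (P : HP p L) (f : S p L) : red P f = 0 ↔ P.gen ∣ f := by
  rw [red, RingHom.comp_apply, map_eq_zero_iff _ (IsFractionRing.injective (S p L ⧸ P.I) (kap P)),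
    Ideal.Quotient.eq_zero_iff_mem, P.mem_iff]

theorem Q_inj : Function.Injective (algebraMap (S p L) (Q p L)) :=
  IsFractionRing.injective (S p L) (Q p L)

theorem Q_frac (x : Q p L) : ∃ f g : S p L, g ≠ 0 ∧
    x = algebraMap (S p L) (Q p L) f / algebraMap (S p L) (Q p L) g := by
  obtain ⟨f, g, hg, h⟩ := IsFractionRing.div_surjective (A := S p L) x
  exact ⟨f, g, nonZeroDivisors.ne_zero hg, h.symm⟩

theorem exists_pl (P : HP p L) : ∃ w : MK.Val (Q p L) (kap P),
    w.v (algebraMap (S p L) (Q p L) P.gen) = 1 ∧ w.ac (algebraMap (S p L) (Q p L) P.gen) = 1 ∧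
    (∀ r, r ≠ 0 → 0 ≤ w.v (algebraMap (S p L) (Q p L) r)) ∧
    ∀ r, ¬ P.gen ∣ r → w.v (algebraMap (S p L) (Q p L) r) = 0 ∧
      w.ac (algebraMap (S p L) (Q p L) r) = red P r :=
  MK.exists_prime (algebraMap (S p L) (Q p L)) Q_inj Q_frac P.gen P.gen_prime (red P)
    (red_eq_zero P)

/-- The place of `Q p L` at a point of codimension one. -/
noncomputable def pl (P : HP p L) : MK.Val (Q p L) (kap P) := (exists_pl P).choose

theorem pl_gen (P : HP p L) : (pl P).v (algebraMap (S p L) (Q p L) P.gen) = 1 ∧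
    (pl P).ac (algebraMap (S p L) (Q p L) P.gen) = 1 :=
  ⟨(exists_pl P).choose_spec.1, (exists_pl P).choose_spec.2.1⟩

theorem pl_nonneg (P : HP p L) (r : S p L) (hr : r ≠ 0) :
    0 ≤ (pl P).v (algebraMap (S p L) (Q p L) r) :=
  (exists_pl P).choose_spec.2.2.1 r hr

theorem pl_unit (P : HP p L) (r : S p L) (hr : ¬ P.gen ∣ r) :
    (pl P).v (algebraMap (S p L) (Q p L) r) = 0 ∧
      (pl P).ac (algebraMap (S p L) (Q p L) r) = red P r :=
  (exists_pl P).choose_spec.2.2.2 r hr

/-- The tame symbol at `P`, as a homomorphism `K₂(Q) → κ(P)*` (additive notation). -/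
noncomputable def tm (P : HP p L) : MK.K2 (Q p L) →+ Additive (kap P)ˣ := (pl P).tame

end primes

end Pool.Agent.MSX
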