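import Pool.Agent.MSX.Fam

/-! # Families `(y; g / h)` with invariant entries

A `Trip` consists of invariants `y` (degree `p m`), `g`, `h` (degree `p n`), all nonzero, such that no point
of codimension one lies on `y` and `g` or on `y` and `h`.  Its family is `P ↦ v_P(y) • (g / h mod P)`.

PROOFS.  `fam_zero`: `pl_unit` gives `v y = 0`.  `fam_one`: `v y = 1` when `y = P.gen * y'` with `y'` not divisible
by `P.gen`, and the angular components of `g`, `h` are their reductions (`pl_unit`, `MK.Val.A_val`).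
`trip_good`: support in the finite set of the points on `y` (`finite_dvd`); degree zero: `red g / red h` to an
integral power; invariance: `v_{sg P}(y) = v_P(y)` because `sig y = C (b^m) * y` and `sg_v`; the reductions of
`sig g = C (b^n) g` and `sig h = C (b^n) h` at `sg P` are the images under `sgK P` of the reductions of `g`, `h`
(`sgK_red`), and the constants `b^n` cancel in the quotient.
-/

set_option autoImplicit false

namespace Pool.Agent.MSX

open MvPolynomial

universe u

variable {p : ℕ} {F L : Type u} [Field F] [Field L] [Algebra F L] (D : Dat p F L)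

namespace Dat

/-- Invariants `y; g, h` in good position. -/
structure Trip where
  m : ℕ
  n : ℕ
  y : S p L
  g : S p L
  h : S p L
  hy : D.Inv m y
  hg : D.Inv n g
  hh : D.Inv n h
  y0 : y ≠ 0
  g0 : g ≠ 0
  h0 : h ≠ 0
  cg : ∀ P : HP p L, P.gen ∣ y → ¬ P.gen ∣ g
  ch : ∀ P : HP p L, P.gen ∣ y → ¬ P.gen ∣ h

variable {D}

/-- The family `P ↦ v_P(y) • (g / h mod P)`. -/
noncomputable def Trip.fam (T : D.Trip) : Fam p L := fun P =>
  (pl P).v (algebraMap (S p L) (Q p L) T.y) •
    ((pl P).A (algebraMap (S p L) (Q p L) T.g) - (pl P).A (algebraMap (S p L) (Q p L) T.h))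

theorem Trip.fam_zero (T : D.Trip) (P : HP p L) (h : ¬ P.gen ∣ T.y) : T.fam P = 0 := by
  unfold Trip.fam
  rw [(pl_unit P T.y h).1, zero_smul]

private theorem alg_ne {f : S p L} (h : f ≠ 0) : algebraMap (S p L) (Q p L) f ≠ 0 :=
  (map_ne_zero_iff _ Q_inj).2 h

private theorem ne_of_nd {P : HP p L} {f : S p L} (h : ¬ P.gen ∣ f) : f ≠ 0 := by
  rintro rfl
  exact h (dvd_zero _)

private theorem sub_val (P : HP p L) {g h : S p L} (hg : ¬ P.gen ∣ g) (hh : ¬ P.gen ∣ h) :
    ((((pl P).A (algebraMap (S p L) (Q p L) g) - (pl P).A (algebraMap (S p L) (Q p L) h)).toMul :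
      (kap P)ˣ) : kap P) = red P g / red P h := by
  rw [toMul_sub, Units.val_div_eq_div_val, MK.Val.A_val _ (alg_ne (ne_of_nd hg)),
    MK.Val.A_val _ (alg_ne (ne_of_nd hh)), (pl_unit P g hg).2, (pl_unit P h hh).2]

private theorem C_nd (P : HP p L) {c : L} (hc : c ≠ 0) : ¬ P.gen ∣ (C c : S p L) := by
  intro h
  exact P.gen_irr.not_isUnit (isUnit_of_dvd_unit h ((IsUnit.mk0 c hc).map C))

private theorem v_inv {m : ℕ} {f : S p L} (hf : D.Inv m f) (f0 : f ≠ 0) (P : HP p L) :
    (pl (D.sg P)).v (algebraMap (S p L) (Q p L) f) = (pl P).v (algebraMap (S p L) (Q p L) f) := by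
  have h1 := D.sg_v P (algebraMap (S p L) (Q p L) f) (alg_ne f0)
  have hc : D.bL ^ m ≠ 0 := pow_ne_zero _ D.bL_ne
  rw [sigQ_alg, hf.2, map_mul, (pl (D.sg P)).v_mul _ _ (alg_ne (ne_of_nd (C_nd P hc))) (alg_ne f0),
    (pl_unit (D.sg P) _ (C_nd (D.sg P) hc)).1, zero_add] at h1
  exact h1

private theorem dvd_inv {m : ℕ} {f : S p L} (hf : D.Inv m f) (P : HP p L) :
    (D.sg P).gen ∣ f ↔ P.gen ∣ f := by
  rw [← D.sg_dvd P f, hf.2]
  have hc : D.bL ^ m ≠ 0 := pow_ne_zero _ D.bL_ne
  exact (((IsUnit.mk0 _ hc).map (C : L →+* S p L)).dvd_mul_left).symm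

private theorem deg0_zpow {P : HP p L} {x : kap P} (h : Deg0 P x) (n : ℤ) : Deg0 P (x ^ n) := by
  have hx := h.ne
  induction n using Int.induction_on with
  | zero => rw [zpow_zero]; exact deg0_one P
  | succ n ih => rw [zpow_add_one₀ hx]; exact ih.mul h
  | pred n ih => rw [zpow_sub_one₀ hx]; exact ih.mul h.inv

theorem Trip.fam_one (T : D.Trip) (P : HP p L) (y' : S p L) (h : T.y = P.gen * y') (h' : ¬ P.gen ∣ y') :
    ((T.fam P).toMul : kap P) = red P T.g / red P T.h := by
  have hd : P.gen ∣ T.y := ⟨y', h⟩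
  have hv : (pl P).v (algebraMap (S p L) (Q p L) T.y) = 1 := by
    rw [h, map_mul, (pl P).v_mul _ _ (alg_ne P.gen_irr.ne_zero) (alg_ne (ne_of_nd h')), (pl_gen P).1,
      (pl_unit P y' h').1, add_zero]
  unfold Trip.fam
  rw [hv, one_smul]
  exact sub_val P (T.cg P hd) (T.ch P hd)

theorem Trip.good (T : D.Trip) : D.Good T.fam where
  fin := by
    refine (finite_dvd T.y0).subset fun P hP => ?_
    by_contra h
    exact hP (T.fam_zero P h)
  deg := fun P => by
    by_cases hd : P.gen ∣ T.y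
    · unfold Trip.fam
      rw [toMul_zsmul, Units.val_zpow_eq_zpow_val, sub_val P (T.cg P hd) (T.ch P hd)]
      exact deg0_zpow ⟨p * T.n, T.g, T.h, T.hg.1, T.hh.1, T.cg P hd, T.ch P hd, rfl⟩ _
    · rw [T.fam_zero P hd]
      exact deg0_one P
  inv := fun P => by
    by_cases hd : P.gen ∣ T.y
    · have hd' : (D.sg P).gen ∣ T.y := (dvd_inv T.hy P).2 hd
      unfold Trip.fam
      rw [map_zsmul, v_inv T.hy T.y0 P]
      congr 1
      apply Additive.toMul.injective
      apply Units.ext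
      rw [sub_val (D.sg P) (T.cg _ hd') (T.ch _ hd')]
      have h1 : ∀ a : Additive (kap P)ˣ, (((D.sgU P a).toMul : (kap (D.sg P))ˣ) : kap (D.sg P)) =
          D.sgK P ((a.toMul : (kap P)ˣ) : kap P) := fun a => rfl
      rw [h1, sub_val P (T.cg P hd) (T.ch P hd), map_div₀, sgK_red, sgK_red, T.hg.2, T.hh.2, map_mul,
        map_mul, mul_div_mul_left]
      intro h0
      exact C_nd (D.sg P) (pow_ne_zero T.n D.bL_ne) ((red_eq_zero _ _).1 h0)
    · have hd' : ¬ (D.sg P).gen ∣ T.y := fun h => hd ((dvd_inv T.hy P).1 h)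
      rw [T.fam_zero _ hd', T.fam_zero P hd, map_zero]

end Dat

end Pool.Agent.MSX
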