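import Pool.Agent.MSX.Hom

/-! # The semilinear automorphism and its invariants

Notation: `D : Dat p F L`.

PROOFS.

* `sig_hom`: `sig` maps `C c` to `C (s c)` and `X i` to a homogeneous polynomial of degree one
  (`MvPolynomial.IsHomogeneous.eval₂`).  `gis_hom` is the same.

* `sig_iter`: both `f ↦ sig^[p] f` and `f ↦ (x_i ↦ b x_i)` are ring homomorphisms `S → S`
  (`(D.sigE ^ p)` and `eval₂Hom C (fun i => C b * X i)`); they agree on constants (`s ^ p = 1`) and
  on the `X i`: `sig^[k] (X i) = X (i + k)` for `i + k < p`, so `sig^[p-i] (X i) = C b * X 0`, and then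
  `sig^[i] (C b * X 0) = C b * X i`.  The second one multiplies a homogeneous polynomial of degree `n` by
  `C (b ^ n)`.

* `inv_y0`: `sig (∏ X i) = C b * ∏ X i` (reindex: `sig` permutes the variables cyclically up to the
  factor `b`).

* `inv_nm`: `nm f = ∏_{i<p} sig^[i] f`; `sig (nm f) = (∏_{1≤i<p} sig^[i] f) * sig^[p] f = nm f * b^n`,
  degree `p n`.

* `inv_tr`: `tr m f = ∑_{i<p} C (b^(-m i)) * sig^[i] f`; `sig (tr m f) = ∑ C (b^(-m i)) sig^[i+1] f =
  C (b^m) * ∑_{i<p} C (b^(-m (i+1))) sig^[i+1] f`, and the term `i + 1 = p` is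
  `C (b^(-m p)) sig^[p] f = f` for `f` homogeneous of degree `p m`.

* `K_rep`: let `q ∈ K`, `q = f / g`, `f, g` homogeneous of degree `n`, `g ≠ 0`.  Put `h = nm g ∈ Inv n`,
  `h ≠ 0`, `f' = f * ∏_{1≤i<p} sig^[i] g`, so `q = f' / h` and `sig f' = sigQ q * sig h = q b^n h = b^n f'`
  in the fraction field; `f'` is homogeneous of degree `p n`.

* `inv_zero`: `f = C c` by `hom_zero`, `C (s c) = C c`, so `c ∈ F` by `D.fix`.

* `sigQ_iter`: `q = f / g` with `f, g` homogeneous of degree `n`, use `sig_iter`.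
-/

set_option autoImplicit false

namespace Pool.Agent.MSX

open MvPolynomial

universe u

variable {p : ℕ} {F L : Type u} [Field F] [Field L] [Algebra F L] (D : Dat p F L)

theorem rg_prod {M : Type*} [CommMonoid M] {p m : ℕ} (hm : p = m + 1) (g : ℕ → M) :
    ∏ i ∈ Finset.range p, g (i + 1) = (∏ i ∈ Finset.range m, g (i + 1)) * g p ∧
      ∏ i ∈ Finset.range p, g i = (∏ i ∈ Finset.range m, g (i + 1)) * g 0 := by
  subst hm
  exact ⟨Finset.prod_range_succ _ _, Finset.prod_range_succ' _ _⟩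

theorem rg_sum {M : Type*} [AddCommMonoid M] {p m : ℕ} (hm : p = m + 1) (g : ℕ → M) :
    ∑ i ∈ Finset.range p, g i = (∑ i ∈ Finset.range m, g i) + g m ∧
      ∑ i ∈ Finset.range p, g i = (∑ i ∈ Finset.range m, g (i + 1)) + g 0 := by
  subst hm
  exact ⟨Finset.sum_range_succ _ _, Finset.sum_range_succ' _ _⟩

theorem rg_tel {K : Type*} [Field K] (g : ℕ → K) (hg : ∀ i, g i ≠ 0) (n : ℕ) :
    ∏ i ∈ Finset.range n, g (i + 1) / g i = g n / g 0 := by
  induction n with
  | zero => simp [hg 0]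
  | succ n ih =>
    rw [Finset.prod_range_succ, ih]
    have h1 := hg n
    have h2 := hg 0
    field_simp

namespace Dat

theorem sig_inj : Function.Injective D.sig := D.sigE.injective

theorem sigX_hom (i : Fin p) : (D.sigX i).IsHomogeneous 1 := by
  unfold sigX
  split_ifs
  · exact isHomogeneous_X _ _
  · exact isHomogeneous_C_mul_X _ _

theorem sig_hom {f : S p L} {n : ℕ} (h : f.IsHomogeneous n) : (D.sig f).IsHomogeneous n := by
  have h2 := h.eval₂ ((C : L →+* S p L).comp (D.s : L →+* L)) D.sigX (n := 1)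
    (fun r => isHomogeneous_C _ _) D.sigX_hom
  rwa [one_mul] at h2

theorem sig_iter_hom {f : S p L} {n : ℕ} (h : f.IsHomogeneous n) (k : ℕ) :
    (D.sig^[k] f).IsHomogeneous n := by
  induction k with
  | zero => exact h
  | succ k ih =>
    rw [Function.iterate_succ_apply']
    exact D.sig_hom ih

theorem sig_iter_C (k : ℕ) (c : L) : D.sig^[k] (C c) = C ((D.s ^ k) c) := by
  induction k with
  | zero => simp
  | succ k ih =>
    rw [Function.iterate_succ_apply', ih, sig_C, pow_succ']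
    rfl

theorem sig_iter_bL (k n : ℕ) : D.sig^[k] (C (D.bL ^ n)) = C (D.bL ^ n) := by
  induction k with
  | zero => rfl
  | succ k ih => rw [Function.iterate_succ_apply', ih, sig_C, map_pow, s_bL]

theorem gis_hom {f : S p L} {n : ℕ} (h : f.IsHomogeneous n) : (D.gis f).IsHomogeneous n := by
  have h2 := h.eval₂ ((C : L →+* S p L).comp (D.s.symm : L →+* L))
    (fun i : Fin p => if i.val = 0 then C (D.bL)⁻¹ * X ⟨p - 1, by have := D.hp.pos; omega⟩
      else X ⟨i.val - 1, by omega⟩) (n := 1)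
    (fun r => isHomogeneous_C _ _) (fun i => by
      split_ifs
      · exact isHomogeneous_C_mul_X _ _
      · exact isHomogeneous_X _ _)
  rwa [one_mul] at h2

theorem sig_X_iter (k : ℕ) (i : Fin p) (h : i.val + k < p) :
    D.sig^[k] (X i) = (X ⟨i.val + k, h⟩ : S p L) := by
  induction k with
  | zero => rfl
  | succ k ih =>
    rw [Function.iterate_succ_apply', ih (by omega), sig_X_lt D (by simp; omega)]
    rfl

theorem sig_X_p (i : Fin p) : D.sig^[p] (X i) = (C D.bL * X i : S p L) := by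
  have hi := i.isLt
  have e : D.sig^[p] (X i) = D.sig^[i.val] (D.sig (D.sig^[p - 1 - i.val] (X i))) := by
    rw [← Function.iterate_succ_apply' (D.sig) (p - 1 - i.val) (X i), ← Function.iterate_add_apply]
    congr 2
    omega
  rw [e, sig_X_iter D (p - 1 - i.val) i (by omega), sig_X_last D (by simp; omega),
    iterate_map_mul, sig_X_iter D i.val ⟨0, D.hp.pos⟩ (by simp)]
  have h2 := D.sig_iter_bL i.val 1
  rw [pow_one] at h2
  rw [h2]
  congr 2
  exact Fin.ext (by simp)

theorem sig_iter {f : S p L} {n : ℕ} (h : f.IsHomogeneous n) :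
    D.sig^[p] f = C (D.bL ^ n) * f := by
  have h1 : (D.sig ^ p : S p L →+* S p L) = eval₂Hom C (fun i => C D.bL * X i) := by
    refine MvPolynomial.ringHom_ext ?_ ?_
    · intro c
      rw [RingHom.coe_pow, sig_iter_C, D.s_pow]
      simp
    · intro i
      rw [RingHom.coe_pow, sig_X_p]
      simp
  have h2 : D.sig^[p] f = eval₂Hom C (fun i => C D.bL * X i) f := by
    rw [← h1, RingHom.coe_pow]
  have h3 : f = ∑ d ∈ f.support, C (coeff d f) * ∏ i, X i ^ d i := by
    conv_lhs => rw [← eval₂_eta f, eval₂_eq']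
  rw [h2, coe_eval₂Hom, eval₂_eq']
  conv_rhs => rw [h3]
  rw [Finset.mul_sum]
  refine Finset.sum_congr rfl fun d hd => ?_
  have h4 : ∑ i, d i = n := by
    have h5 := h.degree_eq_sum_deg_support hd
    rw [h5]
    refine (Finset.sum_subset (Finset.subset_univ _) fun i _ hi => ?_).symm
    exact Finsupp.notMem_support_iff.1 hi
  simp only [mul_pow, Finset.prod_mul_distrib, Finset.prod_pow_eq_pow_sum, h4]
  rw [map_pow]
  ring

/-- The product of the variables. -/
noncomputable def y0 : S p L := ∏ i : Fin p, X i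

theorem inv_y0 : D.Inv 1 (y0 (p := p) (L := L)) := by
  constructor
  · have h := IsHomogeneous.prod (Finset.univ : Finset (Fin p)) (fun i => (X i : S p L)) (fun _ => 1)
      (fun i _ => isHomogeneous_X _ _)
    rw [Finset.sum_const, Finset.card_univ, Fintype.card_fin, smul_eq_mul] at h
    exact h
  · have hp := D.hp.pos
    cases p with
    | zero => omega
    | succ m =>
      unfold y0
      rw [map_prod, Fin.prod_univ_castSucc, Fin.prod_univ_succ, pow_one,
        sig_X_last D (i := Fin.last m) (by simp)]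
      have e : ∏ i : Fin m, D.sig (X i.castSucc) = (∏ i : Fin m, X i.succ : S (m + 1) L) := by
        refine Finset.prod_congr rfl fun i _ => ?_
        rw [sig_X_lt D (i := i.castSucc) (by simp)]
        rfl
      rw [e]
      have e0 : (⟨0, D.hp.pos⟩ : Fin (m + 1)) = 0 := rfl
      rw [e0]
      ring

theorem y0_ne : (y0 (p := p) (L := L)) ≠ 0 := by
  unfold y0
  exact Finset.prod_ne_zero_iff.2 fun i _ => X_ne_zero i

theorem Inv.mul {m n : ℕ} {f g : S p L} (hf : D.Inv m f) (hg : D.Inv n g) : D.Inv (m + n) (f * g) := by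
  constructor
  · rw [mul_add]
    exact hf.1.mul hg.1
  · rw [map_mul, hf.2, hg.2, pow_add, map_mul]
    ring

theorem Inv.pow {m : ℕ} {f : S p L} (hf : D.Inv m f) (n : ℕ) : D.Inv (m * n) (f ^ n) := by
  constructor
  · rw [← mul_assoc]
    exact hf.1.pow n
  · rw [map_pow, hf.2, mul_pow, pow_mul, ← map_pow]

theorem Inv.add {m : ℕ} {f g : S p L} (hf : D.Inv m f) (hg : D.Inv m g) : D.Inv m (f + g) := by
  refine ⟨hf.1.add hg.1, ?_⟩
  rw [map_add, hf.2, hg.2, mul_add]

theorem Inv.smul {m : ℕ} {f : S p L} (hf : D.Inv m f) (c : F) :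
    D.Inv m (C (algebraMap F L c) * f) := by
  refine ⟨hf.1.C_mul _, ?_⟩
  rw [map_mul, hf.2, sig_C, AlgEquiv.commutes]
  ring

/-- The product of the conjugates. -/
noncomputable def nm (f : S p L) : S p L := ∏ i ∈ Finset.range p, D.sig^[i] f

theorem inv_nm {f : S p L} {n : ℕ} (h : f.IsHomogeneous n) : D.Inv n (D.nm f) := by
  constructor
  · have h2 := IsHomogeneous.prod (Finset.range p) (fun i => D.sig^[i] f) (fun _ => n)
      (fun i _ => D.sig_iter_hom h i)
    rw [Finset.sum_const, Finset.card_range, smul_eq_mul] at h2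
    exact h2
  · unfold nm
    rw [map_prod]
    simp only [← Function.iterate_succ_apply']
    obtain ⟨m, hm⟩ : ∃ m, p = m + 1 := ⟨p - 1, by have := D.hp.pos; omega⟩
    obtain ⟨e1, e2⟩ := rg_prod hm (fun i => D.sig^[i] f)
    refine e1.trans ?_
    rw [e2, D.sig_iter h, Function.iterate_zero_apply]
    ring

theorem sig_iter_ne {f : S p L} (h : f ≠ 0) (k : ℕ) : D.sig^[k] f ≠ 0 := by
  induction k with
  | zero => exact h
  | succ k ih =>
    rw [Function.iterate_succ_apply']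
    exact (map_ne_zero_iff D.sig D.sig_inj).2 ih

theorem nm_ne {f : S p L} (h : f ≠ 0) : D.nm f ≠ 0 :=
  Finset.prod_ne_zero_iff.2 fun i _ => D.sig_iter_ne h i

/-- The trace in degree `p m`. -/
noncomputable def tr (m : ℕ) (f : S p L) : S p L :=
  ∑ i ∈ Finset.range p, C ((D.bL ^ (m * i))⁻¹) * D.sig^[i] f

theorem inv_tr {f : S p L} {m : ℕ} (h : f.IsHomogeneous (p * m)) : D.Inv m (D.tr m f) := by
  constructor
  · exact IsHomogeneous.sum _ _ _ fun i _ => (D.sig_iter_hom h i).C_mul _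
  · unfold tr
    rw [map_sum]
    obtain ⟨k, hk⟩ : ∃ k, p = k + 1 := ⟨p - 1, by have := D.hp.pos; omega⟩
    have hb := D.bL_ne
    have e0 : ∀ i ∈ Finset.range p, D.sig (C ((D.bL ^ (m * i))⁻¹) * D.sig^[i] f) =
        C ((D.bL ^ (m * i))⁻¹) * D.sig^[i + 1] f := by
      intro i _
      rw [map_mul, sig_C, map_inv₀, map_pow, s_bL, Function.iterate_succ_apply']
    rw [Finset.sum_congr rfl e0]
    have e1 := (rg_sum hk (fun i => C ((D.bL ^ (m * i))⁻¹) * D.sig^[i + 1] f)).1
    have e2 := (rg_sum hk (fun i => C ((D.bL ^ (m * i))⁻¹) * D.sig^[i] f)).2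
    have e3 : D.sig^[k + 1] f = C (D.bL ^ (p * m)) * f := by
      rw [← D.sig_iter h]
      exact congrArg (fun j => D.sig^[j] f) hk.symm
    rw [e1, e2, e3, Function.iterate_zero_apply, mul_add, Finset.mul_sum]
    congr 1
    · refine Finset.sum_congr rfl fun i _ => ?_
      rw [← mul_assoc, ← map_mul]
      congr 2
      rw [mul_add, mul_one, pow_add]
      field_simp
    · rw [← mul_assoc, ← mul_assoc, ← map_mul, ← map_mul]
      congr 2
      have : p * m = m * k + m := by rw [hk]; ring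
      rw [this, pow_add, mul_zero, pow_zero]
      field_simp

theorem inv_zero {f : S p L} (h : D.Inv 0 f) : ∃ c : F, f = C (algebraMap F L c) := by
  have h1 := h.1
  rw [mul_zero] at h1
  obtain ⟨c, rfl⟩ := hom_zero h1
  have h2 := h.2
  rw [sig_C, pow_zero, map_one, one_mul] at h2
  obtain ⟨c', hc⟩ := D.fix c (C_injective _ _ h2)
  exact ⟨c', by rw [hc]⟩

theorem sigQ_div_iter (f g : S p L) (k : ℕ) :
    D.sigQ^[k] (algebraMap (S p L) (Q p L) f / algebraMap (S p L) (Q p L) g) =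
      algebraMap (S p L) (Q p L) (D.sig^[k] f) / algebraMap (S p L) (Q p L) (D.sig^[k] g) := by
  induction k with
  | zero => rfl
  | succ k ih =>
    rw [Function.iterate_succ_apply', ih, map_div₀, sigQ_alg, sigQ_alg,
      Function.iterate_succ_apply', Function.iterate_succ_apply']

theorem alg_C_ne {c : L} (h : c ≠ 0) : algebraMap (S p L) (Q p L) (C c) ≠ 0 :=
  (map_ne_zero_iff _ Q_inj).2 ((map_ne_zero_iff _ (C_injective _ _)).2 h)

theorem sigQ_KL {q : Q p L} (h : q ∈ KL p L) : D.sigQ q ∈ KL p L := by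
  obtain ⟨n, f, g, hf, hg, h0, rfl⟩ := h
  exact ⟨n, D.sig f, D.sig g, D.sig_hom hf, D.sig_hom hg, D.sig_iter_ne h0 1,
    D.sigQ_div_iter f g 1⟩

theorem sigQ_iter {q : Q p L} (h : q ∈ KL p L) : D.sigQ^[p] q = q := by
  obtain ⟨n, f, g, hf, hg, h0, rfl⟩ := h
  rw [sigQ_div_iter, D.sig_iter hf, D.sig_iter hg, map_mul, map_mul,
    mul_div_mul_left _ _ (alg_C_ne (pow_ne_zero n D.bL_ne))]

theorem K_rep {q : Q p L} (h : q ∈ D.K) : ∃ (m : ℕ) (f g : S p L), D.Inv m f ∧ D.Inv m g ∧ g ≠ 0 ∧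
    q = algebraMap (S p L) (Q p L) f / algebraMap (S p L) (Q p L) g := by
  obtain ⟨⟨n, f, g, hf, hg, h0, rfl⟩, hs⟩ := h
  obtain ⟨m, hm⟩ : ∃ m, p = m + 1 := ⟨p - 1, by have := D.hp.pos; omega⟩
  obtain ⟨g', hg'⟩ : ∃ g' : S p L, g' = ∏ i ∈ Finset.range m, D.sig^[i + 1] g := ⟨_, rfl⟩
  have hnm : D.nm g = g' * g := by
    rw [hg']
    exact (rg_prod hm (fun i => D.sig^[i] g)).2
  have hI := D.inv_nm hg
  have hn0 := D.nm_ne h0
  have hg0 : g' ≠ 0 := by
    intro h
    rw [hnm, h, zero_mul] at hn0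
    exact hn0 rfl
  have hgh : g'.IsHomogeneous (m * n) := by
    have h2 := IsHomogeneous.prod (Finset.range m) (fun i => D.sig^[i + 1] g) (fun _ => n)
      (fun i _ => D.sig_iter_hom hg (i + 1))
    rw [Finset.sum_const, Finset.card_range, smul_eq_mul] at h2
    rw [hg']
    exact h2
  have e : algebraMap (S p L) (Q p L) f / algebraMap (S p L) (Q p L) g =
      algebraMap (S p L) (Q p L) (g' * f) / algebraMap (S p L) (Q p L) (D.nm g) := by
    rw [hnm, map_mul, map_mul, mul_div_mul_left]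
    exact (map_ne_zero_iff _ Q_inj).2 hg0
  refine ⟨n, g' * f, D.nm g, ⟨?_, ?_⟩, hI, hn0, e⟩
  · have h3 := hgh.mul hf
    have : m * n + n = p * n := by rw [hm]; ring
    rwa [this] at h3
  · have h4 := hs
    rw [e, map_div₀, sigQ_alg, sigQ_alg, hI.2, map_mul (algebraMap (S p L) (Q p L))
      (C (D.bL ^ n)) (D.nm g)] at h4
    have hn1 : algebraMap (S p L) (Q p L) (D.nm g) ≠ 0 := (map_ne_zero_iff _ Q_inj).2 hn0
    have hb1 : algebraMap (S p L) (Q p L) (C (D.bL ^ n)) ≠ 0 :=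
      alg_C_ne (pow_ne_zero n D.bL_ne)
    rw [div_eq_div_iff (mul_ne_zero hb1 hn1) hn1] at h4
    apply Q_inj
    rw [map_mul (algebraMap (S p L) (Q p L)) (C (D.bL ^ n)) (g' * f)]
    refine mul_right_cancel₀ hn1 ?_
    rw [h4]
    ring

theorem K_of_inv {m : ℕ} {f g : S p L} (hf : D.Inv m f) (hg : D.Inv m g) (h0 : g ≠ 0) :
    algebraMap (S p L) (Q p L) f / algebraMap (S p L) (Q p L) g ∈ D.K := by
  refine ⟨⟨p * m, f, g, hf.1, hg.1, h0, rfl⟩, ?_⟩
  rw [map_div₀, sigQ_alg, sigQ_alg, hf.2, hg.2, map_mul, map_mul,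
    mul_div_mul_left _ _ (alg_C_ne (pow_ne_zero m D.bL_ne))]

/-- Constants of `F` lie in `K`. -/
theorem F_mem_K (c : F) : algebraMap (S p L) (Q p L) (C (algebraMap F L c)) ∈ D.K := by
  refine ⟨⟨0, C (algebraMap F L c), 1, isHomogeneous_C _ _, isHomogeneous_one _ _, one_ne_zero,
    by rw [map_one, div_one]⟩, ?_⟩
  rw [sigQ_alg, sig_C, AlgEquiv.commutes]

/-- `X 1 / X 0` has norm `b`. -/
theorem norm_xi (h1 : 1 < p) : ∏ i ∈ Finset.range p,
    D.sigQ^[i] (algebraMap (S p L) (Q p L) (X ⟨1, h1⟩) / algebraMap (S p L) (Q p L) (X ⟨0, D.hp.pos⟩))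
      = algebraMap (S p L) (Q p L) (C D.bL) := by
  have e1 : (X ⟨1, h1⟩ : S p L) = D.sig (X ⟨0, D.hp.pos⟩) := by
    rw [sig_X_lt D (i := ⟨0, D.hp.pos⟩) (by simpa using h1)]
  have e2 : ∀ i, D.sigQ^[i] (algebraMap (S p L) (Q p L) (X ⟨1, h1⟩) /
      algebraMap (S p L) (Q p L) (X ⟨0, D.hp.pos⟩)) =
      algebraMap (S p L) (Q p L) (D.sig^[i + 1] (X ⟨0, D.hp.pos⟩)) /
        algebraMap (S p L) (Q p L) (D.sig^[i] (X ⟨0, D.hp.pos⟩)) := by
    intro i
    rw [sigQ_div_iter, e1, ← Function.iterate_succ_apply]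
  have hX : (X ⟨0, D.hp.pos⟩ : S p L) ≠ 0 := X_ne_zero _
  have hne : ∀ i, algebraMap (S p L) (Q p L) (D.sig^[i] (X ⟨0, D.hp.pos⟩)) ≠ 0 :=
    fun i => (map_ne_zero_iff _ Q_inj).2 (D.sig_iter_ne hX i)
  rw [Finset.prod_congr rfl fun i _ => e2 i]
  rw [rg_tel (fun i => algebraMap (S p L) (Q p L) (D.sig^[i] (X ⟨0, D.hp.pos⟩))) hne p]
  rw [sig_X_p, Function.iterate_zero_apply, map_mul, mul_div_assoc,
    div_self ((map_ne_zero_iff _ Q_inj).2 hX), mul_one]

end Dat

end Pool.Agent.MSX
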