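import Pool.Agent.MSX.Trip

/-! # Conversion at a point with `p` conjugates

PROOF of `case_a`.  The points `P_i = D.sg^[i] P` (`i < p`) are distinct: if `D.sg^[i] P = P` with `0 < i < p`
then, `p` being prime and `D.sg^[p] P = P`, `D.sg P = P` (`sg_iter`; `Function.IsPeriodicPt`,
`Function.minimalPeriod`).  Write `z_P = red f / red g` with `f, g` homogeneous of degree `d`, not divisible by
`P.gen` (`Good.deg`).  Let `E = ∏_{0<i<p} D.sig^[i] P.gen` (homogeneous; not divisible by `P.gen` because each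
factor is associated to `P_i.gen`, `gen_dvd_gen`), `y = D.nm P.gen` (`inv_nm`), so `y = P.gen * E`.  There is a
variable not divisible by `P.gen` (if `P.gen` divides `X 0` and `X 1` it is associated to both, impossible as
`1 < p`); multiplying `f` and `g` by the same power of it we may assume that `f * E`, `g * E` are homogeneous of
degree `p n`.  Put `G = D.tr n (f * E)`, `H = D.tr n (g * E)` in `Inv n` (`inv_tr`).  `P.gen` divides
`D.sig^[i] E` for `0 < i < p` (the factor with index `p - i` becomes `D.sig^[p] P.gen = C _ * P.gen`, `sig_iter`),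
so `G ≡ f * E` and `H ≡ g * E` modulo `P.gen`.  So `P.gen` divides neither `G` nor `H`; by `sg_dvd` and the
invariance of `G`, `H` no `P_i.gen` divides them, and the only points on `y` are the `P_i`.  Hence
`T = (y, G, H)` is a `Trip`, and `Trip.fam_one` gives `T.fam P = z P` (`red G / red H = red f / red g`).
If `P'` is not one of the `P_i` then `P'.gen` does not divide `y` and `Trip.fam_zero` applies.
-/

set_option autoImplicit false

namespace Pool.Agent.MSX

open MvPolynomial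

universe u

variable {p : ℕ} {F L : Type u} [Field F] [Field L] [Algebra F L] (D : Dat p F L)

namespace Dat

theorem ca_gen_iter (P : HP p L) (k : ℕ) : Associated (D.sg^[k] P).gen (D.sig^[k] P.gen) := by
  induction k with
  | zero => exact Associated.refl _
  | succ k ih =>
    rw [Function.iterate_succ_apply', Function.iterate_succ_apply']
    exact (D.gen_sg _).trans (ih.map D.sig)

theorem ca_iter_ne {P : HP p L} (hP : D.sg P ≠ P) {k : ℕ} (h0 : 0 < k) (hk : k < p) :
    D.sg^[k] P ≠ P := by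
  intro h
  apply hP
  have h1 : Function.IsPeriodicPt D.sg k P := h
  have h2 : Function.IsPeriodicPt D.sg p P := D.sg_iter P
  have h3 := h1.gcd h2
  have h4 : Nat.gcd k p = 1 :=
    (Nat.coprime_of_lt_prime (by omega) hk D.hp).symm
  rw [h4] at h3
  exact h3

theorem ca_sig_iter_not {P : HP p L} (hP : D.sg P ≠ P) {k : ℕ} (h0 : 0 < k) (hk : k < p) :
    ¬ P.gen ∣ D.sig^[k] P.gen := by
  intro h
  have h1 : P.gen ∣ (D.sg^[k] P).gen := h.trans (D.ca_gen_iter P k).symm.dvd
  exact D.ca_iter_ne hP h0 hk (gen_dvd_gen h1).symm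

include D in
/-- A variable outside a point. -/
theorem ca_var (P : HP p L) : ∃ i : Fin p, ¬ P.gen ∣ X i := by
  by_contra h
  push Not at h
  have hp := D.hp.two_le
  have h0 := h ⟨0, by omega⟩
  have h1 := h ⟨1, by omega⟩
  have h2 : Associated P.gen (X ⟨0, by omega⟩) := P.gen_irr.associated_of_dvd
    (X_prime (R := L) (i := (⟨0, by omega⟩ : Fin p))).irreducible h0
  have h3 := h2.symm.dvd.trans h1
  rw [X_dvd_X] at h3
  have h4 := congrArg Fin.val h3
  simp at h4

/-- Divisibility of an invariant is the same at all conjugate points. -/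
theorem ca_inv_dvd {n : ℕ} {G : S p L} (hG : D.Inv n G) (P : HP p L) (i : ℕ)
    (h : (D.sg^[i] P).gen ∣ G) : P.gen ∣ G := by
  induction i with
  | zero => exact h
  | succ i ih =>
    apply ih
    rw [Function.iterate_succ_apply'] at h
    rw [← D.sg_dvd, hG.2]
    exact h.mul_left _

/-- The other conjugates. -/
noncomputable def caE (m : ℕ) (f : S p L) : S p L := ∏ i ∈ Finset.range m, D.sig^[i + 1] f

theorem ca_nm {m : ℕ} (hm : p = m + 1) (f : S p L) : D.nm f = f * D.caE m f := by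
  unfold nm caE
  rw [mul_comm]
  exact (rg_prod hm (fun i => D.sig^[i] f)).2

theorem ca_E_hom {f : S p L} {n : ℕ} (h : f.IsHomogeneous n) (m : ℕ) :
    (D.caE m f).IsHomogeneous (m * n) := by
  have h2 := IsHomogeneous.prod (Finset.range m) (fun i => D.sig^[i + 1] f) (fun _ => n)
    (fun i _ => D.sig_iter_hom h (i + 1))
  rw [Finset.sum_const, Finset.card_range, smul_eq_mul] at h2
  exact h2

theorem ca_E_not {P : HP p L} (hP : D.sg P ≠ P) {m : ℕ} (hm : p = m + 1) :
    ¬ P.gen ∣ D.caE m P.gen := by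
  intro h
  unfold caE at h
  rw [P.gen_prime.dvd_finsetProd_iff] at h
  obtain ⟨i, hi, h⟩ := h
  rw [Finset.mem_range] at hi
  exact D.ca_sig_iter_not hP (Nat.succ_pos i) (by omega) h

theorem ca_E_dvd (P : HP p L) {m : ℕ} (hm : p = m + 1) {i : ℕ} (hi : i < m) :
    P.gen ∣ D.sig^[i + 1] (D.caE m P.gen) := by
  have h1 : D.sig^[m - 1 - i + 1] P.gen ∣ D.caE m P.gen :=
    Finset.dvd_prod_of_mem (fun j => D.sig^[j + 1] P.gen) (Finset.mem_range.2 (by omega))
  have h2 : D.sig^[i + 1] (D.sig^[m - 1 - i + 1] P.gen) ∣ D.sig^[i + 1] (D.caE m P.gen) := by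
    obtain ⟨c, hc⟩ := h1
    rw [hc, iterate_map_mul]
    exact dvd_mul_right _ _
  refine dvd_trans ?_ h2
  rw [← Function.iterate_add_apply]
  have e : i + 1 + (m - 1 - i + 1) = p := by omega
  rw [e, D.sig_iter P.gen_hom]
  exact dvd_mul_left _ _

/-- The trace is congruent to its argument if the argument is divisible by `caE`. -/
theorem ca_tr (P : HP p L) {m : ℕ} (hm : p = m + 1) (n : ℕ) (f : S p L)
    (h : D.caE m P.gen ∣ f) : P.gen ∣ D.tr n f - f := by
  have e := (rg_sum hm (fun i => C ((D.bL ^ (n * i))⁻¹) * D.sig^[i] f)).2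
  have e1 : D.tr n f = (∑ i ∈ Finset.range m, C ((D.bL ^ (n * (i + 1)))⁻¹) * D.sig^[i + 1] f) + f := by
    unfold tr
    rw [e]
    congr 1
    rw [mul_zero, pow_zero, inv_one, map_one, one_mul, Function.iterate_zero_apply]
  rw [e1, add_sub_cancel_right]
  refine Finset.dvd_sum fun i hi => ?_
  obtain ⟨c, rfl⟩ := h
  rw [iterate_map_mul]
  exact ((D.ca_E_dvd P hm (Finset.mem_range.1 hi)).mul_right _).mul_left _

/-- The points on the norm of a generator are the conjugates. -/
theorem ca_nm_dvd {P P' : HP p L} (h : P'.gen ∣ D.nm P.gen) : ∃ i, D.sg^[i] P = P' := by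
  unfold nm at h
  rw [P'.gen_prime.dvd_finsetProd_iff] at h
  obtain ⟨i, -, h⟩ := h
  exact ⟨i, (gen_dvd_gen (h.trans (D.ca_gen_iter P i).symm.dvd)).symm⟩

theorem ca_red {P : HP p L} {f g : S p L} (h : P.gen ∣ g - f) : red P g = red P f := by
  rw [← sub_eq_zero, ← map_sub, red_eq_zero]
  exact h

theorem case_a (P : HP p L) (hP : D.sg P ≠ P) {z : Fam p L} (hz : D.Good z) :
    ∃ T : D.Trip, T.fam P = z P ∧ ∀ P' : HP p L, (∀ i : ℕ, D.sg^[i] P ≠ P') → T.fam P' = 0 := by
  obtain ⟨m, hm⟩ : ∃ m, p = m + 1 := ⟨p - 1, by have := D.hp.pos; omega⟩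
  obtain ⟨d, f, g, hf, hg, hfP, hgP, hzP⟩ := hz.deg P
  obtain ⟨v, hv⟩ := D.ca_var P
  have hE := D.ca_E_hom P.gen_hom m
  have hEP := D.ca_E_not hP hm
  obtain ⟨w, hw⟩ : ∃ w : S p L, w = X v ^ (m * (d + m * P.deg)) := ⟨_, rfl⟩
  have hwh : w.IsHomogeneous (m * (d + m * P.deg)) := by
    rw [hw]
    exact isHomogeneous_X_pow v _
  have hwP : ¬ P.gen ∣ w := by
    rw [hw]
    exact fun h => hv (P.gen_prime.dvd_of_dvd_pow h)
  have hdeg : d + m * P.deg + m * (d + m * P.deg) = p * (d + m * P.deg) := by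
    calc d + m * P.deg + m * (d + m * P.deg) = (m + 1) * (d + m * P.deg) := by ring
      _ = p * (d + m * P.deg) := by rw [← hm]
  have key : ∀ f : S p L, f.IsHomogeneous d → ¬ P.gen ∣ f →
      ∃ G : S p L, D.Inv (d + m * P.deg) G ∧ ¬ P.gen ∣ G ∧
        red P G = red P f * (red P (D.caE m P.gen) * red P w) := by
    intro f hf hfP
    have h1 : (f * D.caE m P.gen * w).IsHomogeneous (p * (d + m * P.deg)) := by
      rw [← hdeg]
      exact (hf.mul hE).mul hwh
    have h2 := D.ca_tr P hm (d + m * P.deg) (f * D.caE m P.gen * w)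
      ((dvd_mul_left _ _).mul_right _)
    have h3 := ca_red h2
    rw [map_mul (red P) (f * D.caE m P.gen) w, map_mul (red P) f,
      mul_assoc (red P f) (red P (D.caE m P.gen)) (red P w)] at h3
    refine ⟨D.tr (d + m * P.deg) (f * D.caE m P.gen * w), D.inv_tr h1, ?_, h3⟩
    rw [← red_eq_zero, h3]
    exact mul_ne_zero (mt (red_eq_zero P f).1 hfP)
      (mul_ne_zero (mt (red_eq_zero P _).1 hEP) (mt (red_eq_zero P _).1 hwP))
  obtain ⟨G, hG, hGP, hGr⟩ := key f hf hfP
  obtain ⟨H, hH, hHP, hHr⟩ := key g hg hgP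
  have hcop : ∀ G : S p L, D.Inv (d + m * P.deg) G → ¬ P.gen ∣ G →
      ∀ P' : HP p L, P'.gen ∣ D.nm P.gen → ¬ P'.gen ∣ G := by
    intro G hG hGP P' h1 h2
    obtain ⟨i, rfl⟩ := D.ca_nm_dvd h1
    exact hGP (D.ca_inv_dvd hG P i h2)
  have hne : ∀ G : S p L, ¬ P.gen ∣ G → G ≠ 0 := by
    rintro G h rfl
    exact h (dvd_zero _)
  obtain ⟨T, hTy, hTg, hTh⟩ : ∃ T : D.Trip, T.y = D.nm P.gen ∧ T.g = G ∧ T.h = H :=
    ⟨⟨P.deg, d + m * P.deg, D.nm P.gen, G, H, D.inv_nm P.gen_hom, hG, hH,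
      D.nm_ne P.gen_irr.ne_zero, hne G hGP, hne H hHP, hcop G hG hGP, hcop H hH hHP⟩, rfl, rfl, rfl⟩
  refine ⟨T, ?_, fun P' hP' => ?_⟩
  · apply Additive.toMul.injective
    rw [Units.ext_iff, hzP, T.fam_one P (D.caE m P.gen) (by rw [hTy, D.ca_nm hm]) hEP, hTg, hTh,
      hGr, hHr]
    exact mul_div_mul_right _ _ (mul_ne_zero (mt (red_eq_zero P _).1 hEP)
      (mt (red_eq_zero P _).1 hwP))
  · refine T.fam_zero P' ?_
    rw [hTy]
    intro h
    obtain ⟨i, hi⟩ := D.ca_nm_dvd h
    exact hP' i hi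

end Dat

end Pool.Agent.MSX
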