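import Mathlib

/-! # Hilbert's theorem 90 for a cyclic group of automorphisms

PROOF of `hil90`.  The maps `s^[i] : M → M` (`i < n`) are pairwise distinct ring homomorphisms, hence
linearly independent over `M` (`linearIndependent_monoidHom`, Dedekind).  So there is `c` with
`w := ∑_{i<n} (∏_{j<i} s^[j] z) * s^[i] c ≠ 0`.  Then `z * s w = ∑_{i<n} (∏_{j<i+1} s^[j] z) * s^[i+1] c = w`, because
the last term `i + 1 = n` is `1 * c`, the first term of `w` (`Finset.sum_range_succ'`,
`Finset.sum_range_succ`, `Finset.prod_range_succ'`).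

`inj_iter`: if `s^[i] = s^[j]` with `i < j < n` then `s^[j - i] = id`, excluded by `hd`.

`of_prime`: for `n = p` prime and `s ≠ 1`: if `s^[i] = id` with `0 < i < p` then, `i` being invertible
modulo `p`, `s = id` (the order of `s` in the group `M ≃+* M` divides `p` and `i`: `orderOf_dvd_of_pow_eq_one`).

`tr_one`: there is `c` with `∑_{i<n} s^[i] c = 1`: by Dedekind the sum of the `s^[i]` is not the zero map;
if `t = ∑ s^[i] c ≠ 0` then `s t = t` and `∑ s^[i] (c / t) = 1`.
-/

set_option autoImplicit false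

namespace Pool.Agent.MSX

universe u

variable {M : Type u} [Field M]

/-- The iterates of `s` as monoid homomorphisms. -/
def itm (s : M ≃+* M) (i : ℕ) : M →* M where
  toFun := s^[i]
  map_one' := by
    induction i with
    | zero => rfl
    | succ k ih => rw [Function.iterate_succ_apply', ih, map_one]
  map_mul' x y := by
    induction i with
    | zero => rfl
    | succ k ih => rw [Function.iterate_succ_apply', Function.iterate_succ_apply',
        Function.iterate_succ_apply', ih, map_mul]

theorem itm_apply (s : M ≃+* M) (i : ℕ) (x : M) : itm s i x = s^[i] x := rfl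

theorem itm_inj_aux (s : M ≃+* M) (n : ℕ)
    (hd : ∀ i, 0 < i → i < n → ∃ x, s^[i] x ≠ x) (i j : ℕ) (hij : i < j) (hj : j < n)
    (h : itm s i = itm s j) : False := by
  obtain ⟨x, hx⟩ := hd (j - i) (by omega) (by omega)
  apply hx
  have h1 : s^[i] x = s^[j] x := congrArg (fun f : M →* M => f x) h
  have h2 : s^[j] x = s^[i] (s^[j - i] x) := by
    rw [← Function.iterate_add_apply]
    congr 2
    omega
  rw [h2] at h1
  exact ((s.injective.iterate i) h1).symm

theorem ex_ne (s : M ≃+* M) (n : ℕ) (hn : 0 < n)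
    (hd : ∀ i, 0 < i → i < n → ∃ x, s^[i] x ≠ x) (a : ℕ → M) (ha : a 0 ≠ 0) :
    ∃ c : M, ∑ i ∈ Finset.range n, a i * s^[i] c ≠ 0 := by
  by_contra hcon
  push Not at hcon
  have hinj : Function.Injective (fun i : Fin n => itm s i.val) := by
    intro i j hij
    rcases lt_trichotomy i.val j.val with h | h | h
    · exact (itm_inj_aux s n hd i.val j.val h j.isLt hij).elim
    · exact Fin.ext h
    · exact (itm_inj_aux s n hd j.val i.val h i.isLt hij.symm).elim
  have hli := (linearIndependent_monoidHom M M).comp (fun i : Fin n => itm s i.val) hinj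
  rw [Fintype.linearIndependent_iff] at hli
  have h0 := hli (fun i => a i.val) (by
    funext c
    have := hcon c
    rw [← Fin.sum_univ_eq_sum_range (fun i => a i * s^[i] c) n] at this
    simpa [Finset.sum_apply, itm_apply] using this) ⟨0, hn⟩
  exact ha h0

theorem shift_sum (n : ℕ) (g : ℕ → M) (h : g n = g 0) :
    ∑ i ∈ Finset.range n, g (i + 1) = ∑ i ∈ Finset.range n, g i := by
  have h1 := Finset.sum_range_succ' g n
  have h2 := Finset.sum_range_succ g n
  rw [h1, h] at h2
  exact add_right_cancel h2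

theorem hil90 (s : M ≃+* M) (n : ℕ) (hn : 0 < n) (hs : ∀ x, s^[n] x = x)
    (hd : ∀ i, 0 < i → i < n → ∃ x, s^[i] x ≠ x) (z : M)
    (h : ∏ i ∈ Finset.range n, s^[i] z = 1) : ∃ w : M, w ≠ 0 ∧ z * s w = w := by
  obtain ⟨c, hc⟩ := ex_ne s n hn hd (fun i => ∏ j ∈ Finset.range i, s^[j] z) (by simp)
  refine ⟨_, hc, ?_⟩
  have key := shift_sum n (fun i => (∏ j ∈ Finset.range i, s^[j] z) * s^[i] c) (by
    simp only [h, hs, Finset.range_zero, Finset.prod_empty, one_mul, Function.iterate_zero, id])
  refine Eq.trans ?_ key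
  rw [map_sum, Finset.mul_sum]
  refine Finset.sum_congr rfl fun i _ => ?_
  rw [map_mul, map_prod, Finset.prod_range_succ', Function.iterate_zero, id,
    Function.iterate_succ_apply' (f := s) (n := i) (x := c)]
  have e : ∀ j, s (s^[j] z) = s^[j + 1] z := fun j => (Function.iterate_succ_apply' _ _ _).symm
  simp only [e]
  ring

theorem of_prime (s : M ≃+* M) (p : ℕ) (hp : p.Prime) (hs : ∀ x, s^[p] x = x) (hne : s ≠ RingEquiv.refl M) :
    ∀ i, 0 < i → i < p → ∃ x, s^[i] x ≠ x := by
  intro i hi hip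
  by_contra hcon
  push Not at hcon
  apply hne
  ext x
  have h1 : Function.IsPeriodicPt s p x := hs x
  have h2 : Function.IsPeriodicPt s i x := hcon x
  have h3 := h1.gcd h2
  have h4 : Nat.gcd p i = 1 := by
    rw [← Nat.coprime_iff_gcd_eq_one, Nat.Prime.coprime_iff_not_dvd hp]
    intro hdv
    exact absurd (Nat.le_of_dvd hi hdv) (by omega)
  rw [h4] at h3
  exact h3

theorem tr_one (s : M ≃+* M) (n : ℕ) (hn : 0 < n) (hs : ∀ x, s^[n] x = x)
    (hd : ∀ i, 0 < i → i < n → ∃ x, s^[i] x ≠ x) :
    ∃ c : M, ∑ i ∈ Finset.range n, s^[i] c = 1 := by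
  obtain ⟨c, hc⟩ := ex_ne s n hn hd (fun _ => 1) one_ne_zero
  simp only [one_mul] at hc
  obtain ⟨t, ht⟩ : ∃ t, t = ∑ i ∈ Finset.range n, s^[i] c := ⟨_, rfl⟩
  rw [← ht] at hc
  have hst : s t = t := by
    rw [ht, map_sum]
    have key := shift_sum n (fun i => s^[i] c) (by
      simp only [hs, Function.iterate_zero, id])
    refine Eq.trans ?_ key
    exact Finset.sum_congr rfl fun i _ => (Function.iterate_succ_apply' _ _ _).symm
  have hst' : s t⁻¹ = t⁻¹ := by rw [map_inv₀, hst]
  refine ⟨c * t⁻¹, ?_⟩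
  have e : ∀ i ∈ Finset.range n, s^[i] (c * t⁻¹) = s^[i] c * t⁻¹ := by
    intro i _
    have := map_mul (itm s i) c t⁻¹
    rw [itm_apply, itm_apply, itm_apply, Function.iterate_fixed hst'] at this
    exact this
  rw [Finset.sum_congr rfl e, ← Finset.sum_mul, ← ht, mul_inv_cancel₀ hc]

end Pool.Agent.MSX
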