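import Pool.Agent.MSX.Trip
import Pool.Agent.MSX.Hil

/-! # Conversion at a fixed point

PROOF of `inv_gen`.  `D.sig P.gen = C l * P.gen` for a constant `l ≠ 0` (`gen_sg`, a unit of `S` is a constant)
and `D.N l = b ^ P.deg` (iterate: `D.sig^[i] P.gen = C (∏_{j<i} s^j l) * P.gen`, and `sig_iter`).  If `p` does not
divide `P.deg`, choose integers `x, y` with `x * P.deg + y * p = 1`; then
`b = (b ^ P.deg) ^ x * (b ^ p) ^ y = N (l ^ x * b ^ y)` (`N` is multiplicative, `N b = b ^ p`), contradiction with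
`D.Div`.  So `P.deg = p m` and `N (l / b ^ m) = 1`; `hil90` (for `s`, distinctness of the powers by `of_prime`)
gives `w ≠ 0` with `(l / b ^ m) * s w = w`.  Then `sig (C w * P.gen) = C (s w * l) * P.gen = C (b ^ m) * (C w * P.gen)`,
so `C w * P.gen` is in `Inv m`.

PROOF of `case_b`.  Let `y = C w * P.gen`.  Write `z_P = red f / red g` with `f, g` homogeneous of degree `d`, not
divisible by `P.gen`.  Let `H = D.nm g` in `Inv d` and `f' = f * ∏_{0<i<p} D.sig^[i] g`, homogeneous of degree `p d`;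
so `red f' = z_P * red H`, and `P.gen` does not divide `H` (`sg_dvd` with `D.sg P = P`).  The invariance of `z` at `P`
gives (see below) `z_P = red (sig f') / red (sig H)`, so
`red (sig f') = z_P * b ^ d * red H = b ^ d * red f'`, i.e. `P.gen ∣ sig f' - C (b ^ d) * f'`.  By induction on `i`,
`P.gen ∣ sig^[i] f' - C (b ^ (d i)) * f'` (`sg_dvd` with `D.sg P = P`).  So `D.tr d f' ≡ p f'` modulo `P.gen`, and
`G = C (p⁻¹) * D.tr d f'` is in `Inv d`, `G ≡ f'`, not divisible by `P.gen`.  `T = (y, G, H)` is a `Trip`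
(the only point on `y` is `P`), `Trip.fam_one` gives `T.fam P = z P`, and `Trip.fam_zero` the rest.

Dependent types: from `hz.inv P` and `sgK_red`: the value of `z (D.sg P)` is
`red (D.sg P) (sig f) / red (D.sg P) (sig g)` whenever the value of `z P` is `red P f / red P g`; generalise
`D.sg P = P'` and substitute `P' = P`.
-/

set_option autoImplicit false

namespace Pool.Agent.MSX

open MvPolynomial

universe u

variable {p : ℕ} {F L : Type u} [Field F] [Field L] [Algebra F L] (D : Dat p F L)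

namespace Dat

theorem N_mul (x y : L) : D.N (x * y) = D.N x * D.N y := by
  unfold N
  rw [← Finset.prod_mul_distrib]
  exact Finset.prod_congr rfl fun i _ => map_mul _ _ _

theorem N_zpow (x : L) (k : ℤ) : D.N (x ^ k) = D.N x ^ k := by
  unfold N
  rw [← Finset.prod_zpow]
  exact Finset.prod_congr rfl fun i _ => map_zpow₀ _ _ _

theorem N_bL : D.N D.bL = D.bL ^ p := by
  unfold N
  have h : ∀ i ∈ Finset.range p, (D.s ^ i) D.bL = D.bL := fun i _ => (D.s ^ i).commutes D.b
  rw [Finset.prod_congr rfl h, Finset.prod_const, Finset.card_range]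

theorem s_iter (i : ℕ) (x : L) : (D.s.toRingEquiv)^[i] x = (D.s ^ i) x := by
  induction i with
  | zero => simp
  | succ i ih =>
    rw [Function.iterate_succ_apply', ih, pow_succ']
    rfl

theorem gen_dvd_sig (P : HP p L) (hP : D.sg P = P) (f : S p L) : P.gen ∣ D.sig f ↔ P.gen ∣ f := by
  have h := D.sg_dvd P f
  rwa [hP] at h

theorem gen_dvd_sig_iter (P : HP p L) (hP : D.sg P = P) (f : S p L) (i : ℕ) :
    P.gen ∣ D.sig^[i] f ↔ P.gen ∣ f := by
  induction i with
  | zero => exact Iff.rfl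
  | succ i ih => rw [Function.iterate_succ_apply', D.gen_dvd_sig P hP, ih]

theorem exists_l (P : HP p L) (hP : D.sg P = P) : ∃ l : L, l ≠ 0 ∧ D.sig P.gen = C l * P.gen := by
  have h := D.gen_sg P
  rw [hP] at h
  obtain ⟨u, hu⟩ := h
  have h0 := P.gen_irr.ne_zero
  have hs0 : D.sig P.gen ≠ 0 := D.sig_iter_ne h0 1
  have h1 := D.sig_hom P.gen_hom
  rw [← hu] at h1 hs0
  obtain ⟨i, j, hij, hi, hj⟩ := hom_of_mul h1 hs0
  have hiP : i = P.deg := hi.inj_right P.gen_hom h0
  have hj0 : j = 0 := by omega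
  rw [hj0] at hj
  obtain ⟨l, hl⟩ := hom_zero hj
  refine ⟨l, ?_, ?_⟩
  · rintro rfl
    rw [map_zero] at hl
    exact u.ne_zero hl
  · rw [← hu, hl, mul_comm]

theorem N_of_gen (P : HP p L) {l : L} (hl : D.sig P.gen = C l * P.gen) : D.N l = D.bL ^ P.deg := by
  have h1 : ∀ i : ℕ, D.sig^[i] P.gen = C (∏ j ∈ Finset.range i, (D.s ^ j) l) * P.gen := by
    intro i
    induction i with
    | zero => simp
    | succ i ih =>
      rw [Function.iterate_succ_apply', ih, map_mul, sig_C, hl, ← mul_assoc, ← map_mul,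
        Finset.prod_range_succ', map_prod, pow_zero]
      congr 2
      congr 1
      refine Finset.prod_congr rfl fun j _ => ?_
      rw [pow_succ']
      rfl
  have h2 := D.sig_iter P.gen_hom
  rw [h1 p] at h2
  exact C_injective _ _ (mul_right_cancel₀ P.gen_irr.ne_zero h2)

theorem inv_gen (hD : D.Div) (P : HP p L) (hP : D.sg P = P) :
    ∃ (m : ℕ) (w : L), w ≠ 0 ∧ D.Inv m (C w * P.gen) := by
  obtain ⟨l, hl0, hl⟩ := D.exists_l P hP
  have hN := D.N_of_gen P hl
  have hb := D.bL_ne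
  have hdvd : p ∣ P.deg := by
    by_contra hnd
    have hcop : Nat.Coprime P.deg p := ((Nat.Prime.coprime_iff_not_dvd D.hp).2 hnd).symm
    obtain ⟨x, y, hxy⟩ := Nat.isCoprime_iff_coprime.2 hcop
    refine hD (l ^ x * D.bL ^ y) ?_
    rw [N_mul, N_zpow, N_zpow, hN, N_bL, ← zpow_natCast, ← zpow_natCast, ← zpow_mul, ← zpow_mul,
      ← zpow_add₀ hb]
    have : (P.deg : ℤ) * x + (p : ℤ) * y = 1 := by linarith
    rw [this, zpow_one]
  obtain ⟨m, hm⟩ := hdvd
  have hNz : D.N (l * (D.bL ^ (m : ℤ))⁻¹) = 1 := by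
    rw [← zpow_neg, N_mul, N_zpow, hN, N_bL, hm, ← zpow_natCast, ← zpow_natCast, ← zpow_mul,
      ← zpow_add₀ hb]
    have : ((p * m : ℕ) : ℤ) + (p : ℤ) * -(m : ℤ) = 0 := by push_cast; ring
    rw [this, zpow_zero]
  have hs : ∀ x, (D.s.toRingEquiv)^[p] x = x := fun x => by rw [s_iter, D.s_pow]
  have hne : D.s.toRingEquiv ≠ RingEquiv.refl L := by
    intro h
    apply D.s_ne
    ext x
    exact congrArg (fun e : L ≃+* L => e x) h
  obtain ⟨w, hw, hwz⟩ := hil90 D.s.toRingEquiv p D.hp.pos hs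
    (of_prime D.s.toRingEquiv p D.hp hs hne) (l * (D.bL ^ (m : ℤ))⁻¹) (by
      rw [← hNz]
      unfold N
      exact Finset.prod_congr rfl fun i _ => D.s_iter i _)
  refine ⟨m, w, hw, ?_, ?_⟩
  · rw [← hm]
    exact P.gen_hom.C_mul w
  · have h1 : l * D.s w = D.bL ^ m * w := by
      have h2 : l * (D.bL ^ (m : ℤ))⁻¹ * D.s w = w := hwz
      rw [zpow_natCast] at h2
      have h3 : D.bL ^ m ≠ 0 := pow_ne_zero m hb
      calc l * D.s w = D.bL ^ m * (l * (D.bL ^ m)⁻¹ * D.s w) := by field_simp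
        _ = D.bL ^ m * w := by rw [h2]
    rw [map_mul, sig_C, hl, ← mul_assoc, ← mul_assoc, ← map_mul, ← map_mul, ← h1, mul_comm l]

/-- The value at an invariant point. -/
theorem red_sig_eq (P : HP p L) (hP : D.sg P = P) {z : Fam p L} (hz : D.Good z) {f g : S p L}
    (h : ((z P).toMul : kap P) = red P f / red P g) :
    ((z P).toMul : kap P) = red P (D.sig f) / red P (D.sig g) := by
  have key : ∀ P' : HP p L, D.sg P = P' →
      ((z P').toMul : kap P') = red P' (D.sig f) / red P' (D.sig g) := by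
    rintro _ rfl
    rw [hz.inv P]
    change D.sgK P ((z P).toMul : kap P) = _
    rw [h, map_div₀, sgK_red, sgK_red]
  exact key P hP

theorem case_b (hD : D.Div) (hpF : (p : F) ≠ 0) (P : HP p L) (hP : D.sg P = P) {z : Fam p L}
    (hz : D.Good z) : ∃ T : D.Trip, T.fam P = z P ∧ ∀ P' : HP p L, P ≠ P' → T.fam P' = 0 := by
  obtain ⟨m, w, hw, hy⟩ := D.inv_gen hD P hP
  obtain ⟨d, f, g, hf, hg, hfP, hgP, hzP⟩ := hz.deg P
  obtain ⟨k, hk⟩ : ∃ k, p = k + 1 := ⟨p - 1, by have := D.hp.pos; omega⟩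
  obtain ⟨g', hg'⟩ : ∃ g' : S p L, g' = ∏ i ∈ Finset.range k, D.sig^[i + 1] g := ⟨_, rfl⟩
  have hnm : D.nm g = g' * g := by
    rw [hg']
    exact (rg_prod hk (fun i => D.sig^[i] g)).2
  have hgne : g ≠ 0 := by
    rintro rfl
    exact hgP (dvd_zero _)
  have hI := D.inv_nm hg
  have hn0 := D.nm_ne hgne
  have hgh : g'.IsHomogeneous (k * d) := by
    have h2 := IsHomogeneous.prod (Finset.range k) (fun i => D.sig^[i + 1] g) (fun _ => d)
      (fun i _ => D.sig_iter_hom hg (i + 1))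
    rw [Finset.sum_const, Finset.card_range, smul_eq_mul] at h2
    rw [hg']
    exact h2
  have hg'P : ¬ P.gen ∣ g' := by
    rw [hg']
    intro h
    obtain ⟨i, -, hi⟩ := P.gen_prime.exists_mem_finset_dvd h
    exact hgP ((D.gen_dvd_sig_iter P hP g (i + 1)).1 hi)
  have hHP : ¬ P.gen ∣ D.nm g := by
    rw [hnm]
    intro h
    rcases P.gen_prime.dvd_or_dvd h with h | h
    · exact hg'P h
    · exact hgP h
  have hf'P : ¬ P.gen ∣ g' * f := by
    intro h
    rcases P.gen_prime.dvd_or_dvd h with h | h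
    · exact hg'P h
    · exact hfP h
  have hrH : red P (D.nm g) ≠ 0 := fun h => hHP ((red_eq_zero P _).1 h)
  have hf'h : (g' * f).IsHomogeneous (p * d) := by
    have h3 := hgh.mul hf
    have : k * d + d = p * d := by rw [hk]; ring
    rwa [this] at h3
  have hz1 : ((z P).toMul : kap P) = red P (g' * f) / red P (D.nm g) := by
    rw [hzP, hnm, map_mul, map_mul, mul_div_mul_left]
    exact fun h => hg'P ((red_eq_zero P _).1 h)
  have hz2 := D.red_sig_eq P hP hz hz1
  have hd1 : P.gen ∣ D.sig (g' * f) - C (D.bL ^ d) * (g' * f) := by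
    rw [← red_eq_zero P, map_sub, sub_eq_zero]
    rw [hz1, hI.2, map_mul (red P) (C (D.bL ^ d)) (D.nm g)] at hz2
    have hc : red P (C (D.bL ^ d)) ≠ 0 := by
      intro h
      rw [red_eq_zero] at h
      apply P.gen_irr.not_isUnit
      exact isUnit_of_dvd_unit h ((IsUnit.mk0 _ (pow_ne_zero d D.bL_ne)).map C)
    rw [div_eq_div_iff hrH (mul_ne_zero hc hrH)] at hz2
    rw [map_mul (red P) (C (D.bL ^ d)) (g' * f)]
    refine mul_right_cancel₀ hrH ?_
    rw [← hz2]
    ring
  have hdi : ∀ i : ℕ, P.gen ∣ D.sig^[i] (g' * f) - C (D.bL ^ (d * i)) * (g' * f) := by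
    intro i
    induction i with
    | zero =>
      rw [Function.iterate_zero_apply, mul_zero, pow_zero, map_one, one_mul, sub_self]
      exact dvd_zero _
    | succ i ih =>
      have h1 := (D.gen_dvd_sig P hP _).2 ih
      rw [map_sub, map_mul, sig_C, map_pow, s_bL] at h1
      have h2 : D.sig^[i + 1] (g' * f) - C (D.bL ^ (d * (i + 1))) * (g' * f) =
          (D.sig (D.sig^[i] (g' * f)) - C (D.bL ^ (d * i)) * D.sig (g' * f)) +
          C (D.bL ^ (d * i)) * (D.sig (g' * f) - C (D.bL ^ d) * (g' * f)) := by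
        rw [Function.iterate_succ_apply', mul_add, mul_one, pow_add, map_mul C]
        ring
      rw [h2]
      exact dvd_add h1 (hd1.mul_left _)
  have htr : P.gen ∣ D.tr d (g' * f) - C (algebraMap F L (p : F)) * (g' * f) := by
    have h1 : C (algebraMap F L (p : F)) * (g' * f) =
        ∑ _i ∈ Finset.range p, (g' * f) := by
      rw [Finset.sum_const, Finset.card_range, map_natCast, map_natCast, nsmul_eq_mul]
    rw [h1, tr, ← Finset.sum_sub_distrib]
    refine Finset.dvd_sum fun i _ => ?_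
    have h2 : C ((D.bL ^ (d * i))⁻¹) * D.sig^[i] (g' * f) - (g' * f) =
        C ((D.bL ^ (d * i))⁻¹) * (D.sig^[i] (g' * f) - C (D.bL ^ (d * i)) * (g' * f)) := by
      rw [mul_sub, ← mul_assoc (C ((D.bL ^ (d * i))⁻¹)) (C (D.bL ^ (d * i))) (g' * f), ← map_mul,
        inv_mul_cancel₀ (pow_ne_zero _ D.bL_ne), map_one, one_mul]
    rw [h2]
    exact (hdi i).mul_left _
  have hIG := Inv.smul D (D.inv_tr hf'h) ((p : F)⁻¹)
  obtain ⟨G, hG⟩ : ∃ G : S p L, G = C (algebraMap F L (p : F)⁻¹) * D.tr d (g' * f) := ⟨_, rfl⟩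
  rw [← hG] at hIG
  have hGd : P.gen ∣ G - g' * f := by
    have h2 : G - g' * f = C (algebraMap F L (p : F)⁻¹) *
        (D.tr d (g' * f) - C (algebraMap F L (p : F)) * (g' * f)) := by
      rw [hG, mul_sub, ← mul_assoc (C (algebraMap F L (p : F)⁻¹)) (C (algebraMap F L (p : F)))
        (g' * f), ← map_mul, ← map_mul, inv_mul_cancel₀ hpF, map_one, map_one, one_mul]
    rw [h2]
    exact htr.mul_left _
  have hGP : ¬ P.gen ∣ G := by
    intro h
    apply hf'P
    have := dvd_sub h hGd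
    rwa [sub_sub_cancel] at this
  have hunit : IsUnit (C w : S p L) := (IsUnit.mk0 w hw).map C
  have huniq : ∀ P' : HP p L, P'.gen ∣ C w * P.gen → P' = P := by
    intro P' h
    rcases P'.gen_prime.dvd_or_dvd h with h | h
    · exact absurd (isUnit_of_dvd_unit h hunit) P'.gen_irr.not_isUnit
    · exact gen_dvd_gen h
  obtain ⟨T, hTy, hTg, hTh⟩ : ∃ T : D.Trip, T.y = C w * P.gen ∧ T.g = G ∧ T.h = D.nm g := by
    refine ⟨⟨m, d, C w * P.gen, G, D.nm g, hy, hIG, hI, ?_, ?_, hn0, ?_, ?_⟩, rfl, rfl, rfl⟩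
    · exact mul_ne_zero ((map_ne_zero_iff _ (C_injective _ _)).2 hw) P.gen_irr.ne_zero
    · rintro rfl
      exact hGP (dvd_zero _)
    · intro P' h
      rw [huniq P' h]
      exact hGP
    · intro P' h
      rw [huniq P' h]
      exact hHP
  refine ⟨T, ?_, ?_⟩
  · apply Additive.toMul.injective
    apply Units.ext
    rw [Trip.fam_one T P (C w) (by rw [hTy, mul_comm])
      (fun h => P.gen_irr.not_isUnit (isUnit_of_dvd_unit h hunit)), hz1, hTg, hTh]
    congr 1
    rw [← sub_eq_zero, ← map_sub, red_eq_zero]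
    exact hGd
  · intro P' h
    refine Trip.fam_zero T P' fun h' => ?_
    rw [hTy] at h'
    exact h (huniq P' h').symm

end Dat

end Pool.Agent.MSX
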