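import Pool.Agent.MSX.SgP

/-! # Families of elements of the residue fields

`Fam p L` is the group of families `(z_P)` of elements `z_P` of `kap P` (additive notation) over all
points of codimension one.  `Deg0 P x`: `x` is a nonzero element of degree zero of `kap P`.
`D.Good z`: `z` has finite support, all `z_P` have degree zero, and `z` is invariant under the semilinear
automorphism.

PROOFS.

* `v_finite`: `x = f / g` (`Q_frac`); if neither `f` nor `g` is divisible by `P.gen` then `v x = 0`
  (`pl_unit`, `MK.Val.v_div`); `finite_dvd`.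

* `tm_finite`: `MK.K2_induction`; for a symbol `{x, y}` the tame symbol at `P` vanishes if
  `v x = v y = 0` (`MK.Val.tame_S_units`), use `v_finite`; sums: union of the supports.

* `deg_ac`: `x` in `KL`, `v x = 0`: `x = f / g`, `f, g` homogeneous of degree `n`; `f = P.gen ^ k * f'`,
  `g = P.gen ^ l * g'` with `f', g'` not divisible by `P.gen`; they are homogeneous (`hom_dvd`); `v x = k - l`
  so `k = l`, and `f', g'` have the same degree (compare the degrees of `P.gen ^ k * f'` and
  `P.gen ^ k * g'`: `MvPolynomial.IsHomogeneous.totalDegree`, `totalDegree_mul_of_isDomain`).  So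
  `ac x = red f' / red g'` has degree zero.

* `deg_tm`: `MK.K2_induction` and `MK.Val.tame_S_unit`: the tame symbol of `{x, y}` is the angular
  component of the element `± y ^ a / x ^ b` of valuation zero, which lies in the subfield `KL`.

* `good_tmK`: the three previous statements and `sg_tm` (for `w` in `K2 K`, the map `D.sigQ` composed with
  the inclusion of `K` is the inclusion of `K`, so `K2.map sigQ` fixes the image of `w`).

* `const_of_v`: `x = f / g` in `KL`; `factor` for `f` and for `g`; for every `P` the number of times `P`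
  occurs in the list of `f` and in the list of `g` is the same (it is `v f`, `v g`; or cancel common
  factors first: take a representation `f / g` with `f` of the least possible degree; if `P ∣ f` then
  `v x = 0` shows `P ∣ g`, and one can cancel `P.gen`), so `x` is a constant.  For `x` in `D.K` the constant is
  fixed by `s` (`sigQ_alg`, `sig_C`, `Q_inj`), so it lies in `F` (`D.fix`).
-/

set_option autoImplicit false

namespace Pool.Agent.MSX

open MvPolynomial

universe u

section

variable (p : ℕ) (L : Type u) [Field L]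

/-- Families of elements of the residue fields. -/
abbrev Fam : Type u := (P : HP p L) → Additive (kap P)ˣ

end

section

variable {p : ℕ} {L : Type u} [Field L]

/-- Elements of degree zero. -/
def Deg0 (P : HP p L) (x : kap P) : Prop := ∃ (n : ℕ) (f g : S p L), f.IsHomogeneous n ∧
  g.IsHomogeneous n ∧ ¬ P.gen ∣ f ∧ ¬ P.gen ∣ g ∧ x = red P f / red P g

private theorem fam_red_ne {P : HP p L} {f : S p L} (h : ¬ P.gen ∣ f) : red P f ≠ 0 :=
  fun h0 => h ((red_eq_zero P f).1 h0)

private theorem fam_ne {P : HP p L} {f : S p L} (h : ¬ P.gen ∣ f) : f ≠ 0 := by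
  rintro rfl
  exact h (dvd_zero _)

private theorem fam_alg_ne {f : S p L} (h : f ≠ 0) : algebraMap (S p L) (Q p L) f ≠ 0 :=
  (map_ne_zero_iff _ Q_inj).2 h

theorem Deg0.ne {P : HP p L} {x : kap P} (h : Deg0 P x) : x ≠ 0 := by
  obtain ⟨n, f, g, -, -, hf, hg, rfl⟩ := h
  exact div_ne_zero (fam_red_ne hf) (fam_red_ne hg)

theorem deg0_one (P : HP p L) : Deg0 P 1 :=
  ⟨0, 1, 1, isHomogeneous_one _ _, isHomogeneous_one _ _, P.gen_irr.not_dvd_one,
    P.gen_irr.not_dvd_one, by rw [map_one, div_one]⟩

theorem Deg0.mul {P : HP p L} {x y : kap P} (h : Deg0 P x) (h' : Deg0 P y) : Deg0 P (x * y) := by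
  obtain ⟨n, f, g, hf, hg, h1, h2, rfl⟩ := h
  obtain ⟨n', f', g', hf', hg', h1', h2', rfl⟩ := h'
  exact ⟨n + n', f * f', g * g', hf.mul hf', hg.mul hg', P.gen_prime.not_dvd_mul h1 h1',
    P.gen_prime.not_dvd_mul h2 h2', by rw [map_mul, map_mul, div_mul_div_comm]⟩

theorem Deg0.inv {P : HP p L} {x : kap P} (h : Deg0 P x) : Deg0 P x⁻¹ := by
  obtain ⟨n, f, g, hf, hg, h1, h2, rfl⟩ := h
  exact ⟨n, g, f, hg, hf, h2, h1, inv_div _ _⟩

theorem v_finite (x : Q p L) : {P : HP p L | (pl P).v x ≠ 0}.Finite := by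
  obtain ⟨f, g, hg, rfl⟩ := Q_frac x
  rcases eq_or_ne f 0 with hf | hf
  · refine Set.Finite.subset Set.finite_empty fun P hP => ?_
    exfalso
    apply hP
    rw [hf, map_zero, zero_div, (pl P).v_zero]
  · refine ((finite_dvd hf).union (finite_dvd hg)).subset fun P hP => ?_
    by_contra hn
    rw [Set.mem_union, not_or] at hn
    apply hP
    have h1 : ¬ P.gen ∣ f := hn.1
    have h2 : ¬ P.gen ∣ g := hn.2
    rw [(pl P).v_div (fam_alg_ne hf) (fam_alg_ne hg), (pl_unit P f h1).1, (pl_unit P g h2).1,
      sub_zero]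

theorem tm_finite (w : MK.K2 (Q p L)) : {P : HP p L | tm P w ≠ 0}.Finite := by
  induction w using MK.K2_induction with
  | hS a b ha hb =>
    refine ((v_finite a).union (v_finite b)).subset fun P hP => ?_
    by_contra hn
    rw [Set.mem_union, not_or] at hn
    have h1 : (pl P).v a = 0 := by
      by_contra h
      exact hn.1 h
    have h2 : (pl P).v b = 0 := by
      by_contra h
      exact hn.2 h
    exact hP ((pl P).tame_S_units h1 h2)
  | hz =>
    refine Set.Finite.subset Set.finite_empty fun P hP => ?_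
    exfalso
    exact hP (map_zero _)
  | hadd x y hx hy =>
    refine (hx.union hy).subset fun P hP => ?_
    by_contra hn
    rw [Set.mem_union, not_or] at hn
    have h1 : tm P x = 0 := by
      by_contra h
      exact hn.1 h
    have h2 : tm P y = 0 := by
      by_contra h
      exact hn.2 h
    exact hP (by rw [map_add, h1, h2, add_zero])

private theorem fam_vac (P : HP p L) {f : S p L} (hf : f ≠ 0) {n : ℕ} (h : f.IsHomogeneous n) :
    ∃ (k : ℕ) (f' : S p L) (i : ℕ), P.deg * k + i = n ∧ f'.IsHomogeneous i ∧ ¬ P.gen ∣ f' ∧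
      f = P.gen ^ k * f' ∧ (pl P).v (algebraMap (S p L) (Q p L) f) = k := by
  obtain ⟨k, f', h1, h2⟩ := WfDvdMonoid.max_power_factor hf P.gen_irr
  have h3 := h
  rw [h2] at h3
  obtain ⟨a, i, hai, hga, hfi⟩ := hom_of_mul h3 (by rw [← h2]; exact hf)
  have ha : a = P.deg * k := hga.inj_right (P.gen_hom.pow k) (pow_ne_zero _ P.gen_irr.ne_zero)
  refine ⟨k, f', i, by rw [← ha, hai], hfi, h1, h2, ?_⟩
  rw [h2, map_mul, map_pow, (pl P).v_mul _ _ (pow_ne_zero _ (fam_alg_ne P.gen_irr.ne_zero))
    (fam_alg_ne (fam_ne h1)), (pl P).v_pow, (pl_gen P).1, (pl_unit P f' h1).1]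
  ring

theorem deg_ac (P : HP p L) {x : Q p L} (h : x ∈ KL p L) (hx : x ≠ 0) (h0 : (pl P).v x = 0) :
    Deg0 P ((pl P).ac x) := by
  obtain ⟨n, f, g, hf, hg, hg0, rfl⟩ := h
  have hf0 : f ≠ 0 := by
    rintro rfl
    exact hx (by rw [map_zero, zero_div])
  obtain ⟨k, f', i, e1, hfi, h1, h2, h3⟩ := fam_vac P hf0 hf
  obtain ⟨l, g', j, e2, hgj, h1', h2', h3'⟩ := fam_vac P hg0 hg
  rw [(pl P).v_div (fam_alg_ne hf0) (fam_alg_ne hg0), h3, h3'] at h0
  have hkl : k = l := by omega
  subst hkl
  have hij : j = i := by omega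
  subst hij
  refine ⟨j, f', g', hfi, hgj, h1, h1', ?_⟩
  have e : algebraMap (S p L) (Q p L) f / algebraMap (S p L) (Q p L) g =
      algebraMap (S p L) (Q p L) f' / algebraMap (S p L) (Q p L) g' := by
    rw [h2, h2', map_mul, map_mul]
    exact mul_div_mul_left _ _ (fam_alg_ne (pow_ne_zero _ P.gen_irr.ne_zero))
  rw [e, (pl P).ac_div, (pl_unit P f' h1).2, (pl_unit P g' h1').2]

theorem deg_tm (w : MK.K2 (KL p L)) (P : HP p L) :
    Deg0 P ((tm P (MK.K2.map (KL p L).subtype w)).toMul : kap P) := by
  induction w using MK.K2_induction with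
  | hS a b ha hb =>
    rw [MK.K2.map_S]
    have ha' : (KL p L).subtype a ≠ 0 := (map_ne_zero _).2 ha
    have hb' : (KL p L).subtype b ≠ 0 := (map_ne_zero _).2 hb
    obtain ⟨h1, h2⟩ := (pl P).tame_S_unit ha' hb'
    have hne : (-1 : Q p L) ^ ((pl P).v ((KL p L).subtype a) * (pl P).v ((KL p L).subtype b)) *
        ((KL p L).subtype b) ^ ((pl P).v ((KL p L).subtype a)) /
        ((KL p L).subtype a) ^ ((pl P).v ((KL p L).subtype b)) ≠ 0 :=
      div_ne_zero (mul_ne_zero (zpow_ne_zero _ (neg_ne_zero.mpr one_ne_zero))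
        (zpow_ne_zero _ hb')) (zpow_ne_zero _ ha')
    have hmem : (-1 : Q p L) ^ ((pl P).v ((KL p L).subtype a) * (pl P).v ((KL p L).subtype b)) *
        ((KL p L).subtype b) ^ ((pl P).v ((KL p L).subtype a)) /
        ((KL p L).subtype a) ^ ((pl P).v ((KL p L).subtype b)) ∈ KL p L :=
      div_mem (mul_mem (zpow_mem (neg_mem (one_mem _)) _) (zpow_mem b.2 _)) (zpow_mem a.2 _)
    have h3 : tm P (MK.S ((KL p L).subtype a) ((KL p L).subtype b)) = _ := h1
    rw [h3, (pl P).A_val hne]
    exact deg_ac P hmem hne h2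
  | hz =>
    rw [map_zero, map_zero]
    exact deg0_one P
  | hadd x y hx hy =>
    rw [map_add, map_add, toMul_add, Units.val_mul]
    exact hx.mul hy

variable (p L) in
/-- All tame symbols. -/
noncomputable def tmA : MK.K2 (Q p L) →+ Fam p L := AddMonoidHom.pi (fun P => tm P)

end

variable {p : ℕ} {F L : Type u} [Field F] [Field L] [Algebra F L] (D : Dat p F L)

namespace Dat

/-- All tame symbols on `K2` of the function field of the Severi-Brauer variety. -/
noncomputable def tmK : MK.K2 D.K →+ Fam p L := (tmA p L).comp (MK.K2.map D.K.subtype)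

/-- Families with finite support, of degree zero, invariant. -/
structure Good (z : Fam p L) : Prop where
  fin : {P | z P ≠ 0}.Finite
  deg : ∀ P, Deg0 P ((z P).toMul : kap P)
  inv : ∀ P, z (D.sg P) = D.sgU P (z P)

variable {D} in
theorem Good.add {z z' : Fam p L} (h : D.Good z) (h' : D.Good z') : D.Good (z + z') := by
  refine ⟨?_, ?_, ?_⟩
  · refine (h.fin.union h'.fin).subset fun P hP => ?_
    by_contra hn
    rw [Set.mem_union, not_or] at hn
    have h1 : z P = 0 := by
      by_contra h2
      exact hn.1 h2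
    have h2 : z' P = 0 := by
      by_contra h2
      exact hn.2 h2
    exact hP (by rw [Pi.add_apply, h1, h2, add_zero])
  · intro P
    rw [Pi.add_apply, toMul_add, Units.val_mul]
    exact (h.deg P).mul (h'.deg P)
  · intro P
    rw [Pi.add_apply, Pi.add_apply, map_add, h.inv P, h'.inv P]

variable {D} in
theorem Good.neg {z : Fam p L} (h : D.Good z) : D.Good (-z) := by
  refine ⟨?_, ?_, ?_⟩
  · refine h.fin.subset fun P hP => ?_
    intro h0
    exact hP (by rw [Pi.neg_apply, h0, neg_zero])
  · intro P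
    rw [Pi.neg_apply, toMul_neg, Units.val_inv_eq_inv_val]
    exact (h.deg P).inv
  · intro P
    rw [Pi.neg_apply, Pi.neg_apply, map_neg, h.inv P]

theorem good_zero : D.Good 0 := by
  refine ⟨?_, ?_, ?_⟩
  · refine Set.Finite.subset Set.finite_empty fun P hP => ?_
    exfalso
    exact hP rfl
  · intro P
    exact deg0_one P
  · intro P
    exact (map_zero _).symm

theorem K_le_KL : D.K ≤ KL p L := fun _ h => h.1

theorem good_tmK (w : MK.K2 D.K) : D.Good (D.tmK w) := by
  refine ⟨?_, ?_, ?_⟩
  · exact tm_finite (MK.K2.map D.K.subtype w)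
  · intro P
    have h1 : MK.K2.map D.K.subtype w =
        MK.K2.map (KL p L).subtype (MK.K2.map (Subfield.inclusion D.K_le_KL) w) := by
      rw [MK.K2.map_map]
      rfl
    change Deg0 P ((tm P (MK.K2.map D.K.subtype w)).toMul : kap P)
    rw [h1]
    exact deg_tm _ P
  · intro P
    have h1 : MK.K2.map (D.sigQ : Q p L →+* Q p L) (MK.K2.map D.K.subtype w) =
        MK.K2.map D.K.subtype w := by
      rw [MK.K2.map_map]
      congr 1
      congr 1
      ext x
      exact x.2.2
    change tm (D.sg P) (MK.K2.map D.K.subtype w) = D.sgU P (tm P (MK.K2.map D.K.subtype w))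
    rw [← D.sg_tm, h1]

end Dat

/-- A nonzero element of degree zero without zeros and poles is constant. -/
theorem const_of_v {x : Q p L} (h : x ∈ KL p L) (hx : x ≠ 0) (h0 : ∀ P : HP p L, (pl P).v x = 0) :
    ∃ c : L, x = algebraMap (S p L) (Q p L) (C c) := by
  obtain ⟨n, f, g, hf, hg, hg0, e⟩ := h
  induction n using Nat.strong_induction_on generalizing f g with
  | _ n ih =>
    have hf0 : f ≠ 0 := by
      rintro rfl
      exact hx (by rw [e, map_zero, zero_div])
    rcases Nat.eq_zero_or_pos n with hn | hn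
    · rw [hn] at hf hg
      obtain ⟨a, rfl⟩ := hom_zero hf
      obtain ⟨b, rfl⟩ := hom_zero hg
      have hb : b ≠ 0 := by
        rintro rfl
        exact hg0 (map_zero _)
      refine ⟨a / b, ?_⟩
      rw [e, div_eq_iff (fam_alg_ne hg0), ← map_mul, ← map_mul, div_mul_cancel₀ _ hb]
    · obtain ⟨P, hP⟩ := exists_irr hf hf0 hn
      obtain ⟨k, f', i, e1, hfi, h1, h2, h3⟩ := fam_vac P hf0 hf
      obtain ⟨l, g', j, e2, hgj, h1', h2', h3'⟩ := fam_vac P hg0 hg
      have h4 := h0 P
      rw [e, (pl P).v_div (fam_alg_ne hf0) (fam_alg_ne hg0), h3, h3'] at h4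
      have hkl : k = l := by omega
      subst hkl
      have hij : j = i := by omega
      subst hij
      have hk : k ≠ 0 := by
        rintro rfl
        rw [pow_zero, one_mul] at h2
        rw [h2] at hP
        exact h1 hP
      have hpos : 0 < P.deg * k := Nat.mul_pos (gen_deg_pos P) (Nat.pos_of_ne_zero hk)
      refine ih j (by omega) f' g' hfi hgj (fam_ne h1') ?_
      rw [e, h2, h2', map_mul, map_mul]
      exact mul_div_mul_left _ _ (fam_alg_ne (pow_ne_zero _ P.gen_irr.ne_zero))

theorem const_of_v_K {x : Q p L} (h : x ∈ D.K) (hx : x ≠ 0) (h0 : ∀ P : HP p L, (pl P).v x = 0) :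
    ∃ c : F, x = algebraMap (S p L) (Q p L) (C (algebraMap F L c)) := by
  obtain ⟨c, hc⟩ := const_of_v h.1 hx h0
  have h1 : D.sigQ x = x := h.2
  rw [hc, D.sigQ_alg, D.sig_C] at h1
  have h2 : D.s c = c := C_injective _ _ (Q_inj h1)
  obtain ⟨d, hd⟩ := D.fix c h2
  exact ⟨d, by rw [hd]; exact hc⟩

end Pool.Agent.MSX
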