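import Pool.Agent.MSX.SgP

/-! # Constants which are norms from `KL` (Amitsur's theorem for cyclic algebras)

If `g ∈ KL p L` and `∏_{i<p} sigQ^i g = c` with `c ∈ F*` then `c = b^m * N e` with an integer `m` and `e ∈ L*`.

PROOF.  `nm_sig`: `nm (sig f) = C (b^n) * nm f` for `f` homogeneous of degree `n`.  `ami_pol`: if `A, B` are nonzero homogeneous
of degree `n` and `nm A = C c * nm B` then `c = b^m N(e)`, by induction on `n`: degree `0`: constants.  If `n > 0` a point `P`
divides `A`, so `P.gen` divides `sig^j B` for some `j < p`, so `G = sig^(p-j) P.gen` divides `sig^p B = C (b^n) B`, so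
`B`; `A = P.gen * A'`, `B = G * B'`, and `nm A' = C (c b^(deg P (p - j))) * nm B'`.
-/

set_option autoImplicit false

namespace Pool.Agent.MSX

open MvPolynomial

universe u

variable {p : ℕ} {F L : Type u} [Field F] [Field L] [Algebra F L] (D : Dat p F L)

namespace Dat

theorem nm_mul (f g : S p L) : D.nm (f * g) = D.nm f * D.nm g := by
  unfold nm
  rw [← Finset.prod_mul_distrib]
  refine Finset.prod_congr rfl fun i _ => ?_
  rw [iterate_map_mul]

theorem nm_C (c : L) : D.nm (C c) = C (D.N c) := by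
  unfold nm N
  rw [map_prod]
  exact Finset.prod_congr rfl fun i _ => D.sig_iter_C i c

theorem nm_sig {f : S p L} {n : ℕ} (h : f.IsHomogeneous n) :
    D.nm (D.sig f) = C (D.bL ^ n) * D.nm f := by
  unfold nm
  obtain ⟨m, hm⟩ : ∃ m, p = m + 1 := ⟨p - 1, by have := D.hp.pos; omega⟩
  obtain ⟨e1, e2⟩ := rg_prod hm (fun i => D.sig^[i] f)
  have e3 : ∏ i ∈ Finset.range p, D.sig^[i] (D.sig f) = ∏ i ∈ Finset.range p, D.sig^[i + 1] f :=
    Finset.prod_congr rfl fun i _ => (Function.iterate_succ_apply _ _ _).symm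
  rw [e3, e1, e2, D.sig_iter h, Function.iterate_zero_apply]
  ring

theorem nm_sig_iter {f : S p L} {n : ℕ} (h : f.IsHomogeneous n) (k : ℕ) :
    D.nm (D.sig^[k] f) = C (D.bL ^ (n * k)) * D.nm f := by
  induction k with
  | zero => rw [Function.iterate_zero_apply, mul_zero, pow_zero, map_one, one_mul]
  | succ k ih =>
    rw [Function.iterate_succ_apply', D.nm_sig (D.sig_iter_hom h k), ih, ← mul_assoc, ← map_mul,
      mul_add, mul_one, pow_add, mul_comm (D.bL ^ n)]

private theorem N_mul56 (x y : L) : D.N (x * y) = D.N x * D.N y := by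
  unfold N
  rw [← Finset.prod_mul_distrib]
  exact Finset.prod_congr rfl fun i _ => map_mul _ _ _

private theorem N_div56 (x y : L) : D.N (x / y) = D.N x / D.N y := by
  unfold N
  rw [← Finset.prod_div_distrib]
  exact Finset.prod_congr rfl fun i _ => map_div₀ _ _ _

private theorem N_ne56 {x : L} (h : x ≠ 0) : D.N x ≠ 0 :=
  Finset.prod_ne_zero_iff.2 fun _ _ => (map_ne_zero_iff _ (AlgEquiv.injective _)).2 h

theorem ami_pol (n : ℕ) : ∀ (A B : S p L) (c : L), A.IsHomogeneous n → B.IsHomogeneous n → A ≠ 0 →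
    B ≠ 0 → c ≠ 0 → D.nm A = C c * D.nm B → ∃ (m : ℤ) (e : L), e ≠ 0 ∧ c = D.bL ^ m * D.N e := by
  induction n using Nat.strong_induction_on with
  | _ n ih =>
    intro A B c hA hB hA0 hB0 hc h
    rcases Nat.eq_zero_or_pos n with hn | hn
    · rw [hn] at hA hB
      obtain ⟨a, rfl⟩ := hom_zero hA
      obtain ⟨b, rfl⟩ := hom_zero hB
      have ha : a ≠ 0 := by
        rintro rfl
        exact hA0 (map_zero _)
      have hb : b ≠ 0 := by
        rintro rfl
        exact hB0 (map_zero _)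
      rw [nm_C, nm_C, ← map_mul] at h
      have h1 : D.N a = c * D.N b := C_injective _ _ h
      refine ⟨0, a / b, div_ne_zero ha hb, ?_⟩
      rw [zpow_zero, one_mul, N_div56, h1, mul_div_cancel_right₀ _ (D.N_ne56 hb)]
    · obtain ⟨P, A', rfl⟩ := exists_irr hA hA0 hn
      have hA'0 : A' ≠ 0 := right_ne_zero_of_mul hA0
      obtain ⟨i, j, hij, hi, hj⟩ := hom_of_mul hA hA0
      have hi2 : i = P.deg := hi.inj_right P.gen_hom P.gen_irr.ne_zero
      have hpos := gen_deg_pos P
      -- `P` divides a conjugate of `B`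
      have h1 : P.gen ∣ C c * D.nm B := by
        rw [← h]
        refine Dvd.dvd.trans (Dvd.intro A' rfl) ?_
        have h2 := Finset.dvd_prod_of_mem (fun i => D.sig^[i] (P.gen * A'))
          (Finset.mem_range.2 D.hp.pos)
        exact h2
      have hCu : IsUnit (C c : S p L) := (IsUnit.mk0 c hc).map C
      have h2 : P.gen ∣ D.nm B := (hCu.dvd_mul_left).1 h1
      obtain ⟨k, hk, h3⟩ := (P.gen_prime.dvd_finsetProd_iff _).1 h2
      rw [Finset.mem_range] at hk
      have h4 : D.sig^[p - k] P.gen ∣ C (D.bL ^ n) * B := by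
        rw [← D.sig_iter hB]
        have e : D.sig^[p] B = D.sig^[p - k] (D.sig^[k] B) := by
          rw [← Function.iterate_add_apply]
          congr 2
          omega
        rw [e]
        obtain ⟨q, hq⟩ := h3
        refine ⟨D.sig^[p - k] q, ?_⟩
        have e2 : (fun i => D.sig^[i] B) k = D.sig^[k] B := rfl
        rw [hq, iterate_map_mul]
      have hbu : IsUnit (C (D.bL ^ n) : S p L) := (IsUnit.mk0 _ (pow_ne_zero n D.bL_ne)).map C
      obtain ⟨B', rfl⟩ := (hbu.dvd_mul_left).1 h4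
      have hB'0 : B' ≠ 0 := right_ne_zero_of_mul hB0
      have hG := D.sig_iter_hom P.gen_hom (p - k)
      have hG0 : D.sig^[p - k] P.gen ≠ 0 := D.sig_iter_ne P.gen_irr.ne_zero _
      obtain ⟨i', j', hij', hi', hj'⟩ := hom_of_mul hB hB0
      have hi2' : i' = P.deg := hi'.inj_right hG hG0
      have hjj : j' = j := by omega
      rw [hjj] at hj'
      rw [nm_mul, nm_mul, D.nm_sig_iter P.gen_hom (p - k)] at h
      have h5 : D.nm A' = C (c * D.bL ^ (P.deg * (p - k))) * D.nm B' := by
        have h6 := D.nm_ne P.gen_irr.ne_zero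
        apply mul_left_cancel₀ h6
        rw [h, map_mul]
        ring
      obtain ⟨m, e, he, h6⟩ := ih j (by omega) A' B' _ hj hj' hA'0 hB'0
        (mul_ne_zero hc (pow_ne_zero _ D.bL_ne)) h5
      refine ⟨m - ((P.deg * (p - k) : ℕ) : ℤ), e, he, ?_⟩
      rw [zpow_sub₀ D.bL_ne, zpow_natCast, div_mul_eq_mul_div, ← h6,
        mul_div_cancel_right₀ _ (pow_ne_zero _ D.bL_ne)]

/-- Amitsur's theorem for the cyclic algebra `(L/F, s, b)`. -/
theorem amitsur {c : F} (hc : c ≠ 0) {g : Q p L} (hg : g ∈ KL p L)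
    (h : ∏ i ∈ Finset.range p, D.sigQ^[i] g = algebraMap (S p L) (Q p L) (C (algebraMap F L c))) :
    ∃ (m : ℤ) (e : L), e ≠ 0 ∧ algebraMap F L c = D.bL ^ m * D.N e := by
  obtain ⟨n, A, B, hA, hB, hB0, rfl⟩ := hg
  have hc' : algebraMap F L c ≠ 0 := (map_ne_zero _).2 hc
  have hA0 : A ≠ 0 := by
    rintro rfl
    have h1 : ∏ i ∈ Finset.range p, D.sigQ^[i] (algebraMap (S p L) (Q p L) 0 /
        algebraMap (S p L) (Q p L) B) = 0 := by
      refine Finset.prod_eq_zero (Finset.mem_range.2 D.hp.pos) ?_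
      rw [Function.iterate_zero_apply, map_zero, zero_div]
    rw [h1] at h
    exact alg_C_ne hc' h.symm
  refine D.ami_pol n A B _ hA hB hA0 hB0 hc' ?_
  have hnB : algebraMap (S p L) (Q p L) (D.nm B) ≠ 0 := (map_ne_zero_iff _ Q_inj).2 (D.nm_ne hB0)
  rw [Finset.prod_congr rfl fun i _ => D.sigQ_div_iter A B i, Finset.prod_div_distrib,
    ← map_prod, ← map_prod] at h
  have h2 : algebraMap (S p L) (Q p L) (D.nm A) / algebraMap (S p L) (Q p L) (D.nm B) =
      algebraMap (S p L) (Q p L) (C (algebraMap F L c)) := h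
  rw [div_eq_iff hnB, ← map_mul] at h2
  exact Q_inj h2

end Dat

end Pool.Agent.MSX
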