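import Mathlib
import Pool.Agent.MK.ValLem

/-! # The place of the field of Laurent series

`lv k` is the place of `LaurentSeries k` with valuation the order and angular component the leading
coefficient (`0` for the zero series).

PROOFS.  `HahnSeries.order_mul`, `HahnSeries.leadingCoeff_mul` (or
`HahnSeries.coeff_mul_order_add_order`); for `x + y = 1` compare coefficients: if `order x > 0` then
`y = 1 - x` has coefficient `1` at `0` and no coefficient below `0`; if both orders are `0` then the
coefficients at `0` add up to `1`; if `order x < 0` then `y = 1 - x` has the coefficients of `-x` at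
all negative exponents.

`lv_coe`: a power series with nonzero constant coefficient has order `0` and leading coefficient its
constant coefficient (as a Laurent series; `LaurentSeries.coeff_coe_powerSeries`,
`HahnSeries.ofPowerSeries_apply_coeff`), `X` has order one and leading coefficient one.
`lv_nonneg`: power series have no negative coefficients.  `lv_iff` : a Laurent series of order `>= 0` is
a power series (`LaurentSeries.of_powerSeries_localization`, or build it by its coefficients). -/

set_option autoImplicit false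

namespace Pool.Agent.MSX

universe u

namespace LaurAux

variable {k : Type u} [Field k]

theorem ord_eq {x : LaurentSeries k} {n : ℤ} (h : x.coeff n ≠ 0) (h' : ∀ m < n, x.coeff m = 0) :
    HahnSeries.order x = n := by
  apply le_antisymm
  · exact HahnSeries.order_le_of_coeff_ne_zero h
  · by_contra hlt
    have h1 := h' _ (lt_of_not_ge hlt)
    have h0 : x = 0 := HahnSeries.coeff_order_eq_zero.1 h1
    exact h (by rw [h0]; rfl)

theorem lc_of {x : LaurentSeries k} {n : ℤ} (h : HahnSeries.order x = n) :
    HahnSeries.leadingCoeff x = x.coeff n := by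
  rw [HahnSeries.leadingCoeff_eq, h]

theorem coeff_sum {x y : LaurentSeries k} (h : x + y = 1) (m : ℤ) :
    x.coeff m + y.coeff m = if m = 0 then 1 else 0 := by
  have h1 : (x + y).coeff m = (1 : LaurentSeries k).coeff m := by rw [h]
  rw [HahnSeries.coeff_add, HahnSeries.coeff_one] at h1
  rw [h1]
  by_cases hm : m = 0
  · rw [if_pos hm, if_pos hm]
  · rw [if_neg hm, if_neg hm]

end LaurAux

variable (k : Type u) [Field k]

open Classical in
/-- The place of the field of Laurent series. -/
noncomputable def lv : MK.Val (LaurentSeries k) k where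
  v x := HahnSeries.order x
  ac x := HahnSeries.leadingCoeff x
  v_zero := HahnSeries.order_zero
  ac_zero := HahnSeries.leadingCoeff_zero
  v_mul := fun x y hx hy => HahnSeries.order_mul hx hy
  ac_mul := fun x y _ _ => HahnSeries.leadingCoeff_mul x y
  ac_ne := fun x hx => HahnSeries.leadingCoeff_ne_zero.2 hx
  ac_neg_one := by
    rw [HahnSeries.leadingCoeff_neg, HahnSeries.leadingCoeff_one]
  pos := by
    intro x y hx hy h hp
    have hx0 : ∀ m ≤ (0 : ℤ), x.coeff m = 0 := fun m hm =>
      HahnSeries.coeff_eq_zero_of_lt_order (lt_of_le_of_lt hm hp)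
    have hy0 : y.coeff 0 = 1 := by
      have h1 := LaurAux.coeff_sum h 0
      rw [hx0 0 le_rfl, zero_add, if_pos rfl] at h1
      exact h1
    have ho : HahnSeries.order y = 0 := by
      refine LaurAux.ord_eq (by rw [hy0]; exact one_ne_zero) fun m hm => ?_
      have h1 := LaurAux.coeff_sum h m
      rw [hx0 m hm.le, zero_add, if_neg hm.ne] at h1
      exact h1
    exact ⟨ho, by rw [LaurAux.lc_of ho, hy0]⟩
  zero := by
    intro x y hx hy h h1 h2
    rw [LaurAux.lc_of h1, LaurAux.lc_of h2, LaurAux.coeff_sum h 0, if_pos rfl]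
  neg := by
    intro x y hx hy h hn
    have hyx : ∀ m < (0 : ℤ), y.coeff m = - x.coeff m := by
      intro m hm
      have h1 := LaurAux.coeff_sum h m
      rw [if_neg hm.ne] at h1
      exact eq_neg_of_add_eq_zero_right h1
    have hc : x.coeff (HahnSeries.order x) ≠ 0 := fun h0 =>
      hx (HahnSeries.coeff_order_eq_zero.1 h0)
    have ho : HahnSeries.order y = HahnSeries.order x := by
      refine LaurAux.ord_eq ?_ fun m hm => ?_
      · rw [hyx _ hn]
        exact neg_ne_zero.2 hc
      · rw [hyx m (hm.trans hn), HahnSeries.coeff_eq_zero_of_lt_order hm, neg_zero]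
    exact ⟨ho, by rw [LaurAux.lc_of ho, hyx _ hn, HahnSeries.leadingCoeff_eq]⟩

variable {k}

theorem lv_v (x : LaurentSeries k) : (lv k).v x = HahnSeries.order x := rfl

theorem lv_ac (x : LaurentSeries k) : (lv k).ac x = HahnSeries.leadingCoeff x := rfl

/-- Power series as Laurent series. -/
noncomputable def cs : PowerSeries k →+* LaurentSeries k := HahnSeries.ofPowerSeries ℤ k

theorem cs_inj : Function.Injective (cs (k := k)) := HahnSeries.ofPowerSeries_injective

theorem cs_coeff (f : PowerSeries k) (n : ℕ) : (cs f).coeff (n : ℤ) = PowerSeries.coeff n f :=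
  HahnSeries.ofPowerSeries_apply_coeff f n

theorem cs_coeff_neg (f : PowerSeries k) {m : ℤ} (hm : m < 0) : (cs f).coeff m = 0 := by
  have h : cs f = HahnSeries.embDomain Nat.castOrderEmbedding (HahnSeries.toPowerSeries.symm f) := rfl
  rw [h]
  refine HahnSeries.embDomain_notin_image_support ?_
  rintro ⟨n, -, hn⟩
  have h1 : ((n : ℕ) : ℤ) = m := hn
  omega

theorem lv_unit (f : PowerSeries k) (h : PowerSeries.constantCoeff f ≠ 0) :
    (lv k).v (cs f) = 0 ∧ (lv k).ac (cs f) = PowerSeries.constantCoeff f := by
  have h0 : (cs f).coeff 0 = PowerSeries.constantCoeff f := by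
    have h1 := cs_coeff f 0
    rw [Nat.cast_zero] at h1
    rw [h1, PowerSeries.coeff_zero_eq_constantCoeff_apply]
  have ho : HahnSeries.order (cs f) = 0 :=
    LaurAux.ord_eq (by rw [h0]; exact h) fun m hm => cs_coeff_neg f hm
  exact ⟨ho, by rw [lv_ac, LaurAux.lc_of ho, h0]⟩

theorem lv_X : (lv k).v (cs (PowerSeries.X : PowerSeries k)) = 1 ∧
    (lv k).ac (cs (PowerSeries.X : PowerSeries k)) = 1 := by
  have h : cs (PowerSeries.X : PowerSeries k) = HahnSeries.single (1 : ℤ) 1 :=
    HahnSeries.ofPowerSeries_X
  rw [lv_v, lv_ac, h]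
  exact ⟨HahnSeries.order_single one_ne_zero, HahnSeries.leadingCoeff_of_single⟩

theorem lv_nonneg (f : PowerSeries k) (h : f ≠ 0) : 0 ≤ (lv k).v (cs f) := by
  rw [lv_v]
  by_contra hlt
  have h1 := cs_coeff_neg f (lt_of_not_ge hlt)
  have h2 : cs f = 0 := HahnSeries.coeff_order_eq_zero.1 h1
  exact h (cs_inj (h2.trans (map_zero cs).symm))

theorem lv_iff (x : LaurentSeries k) : (x = 0 ∨ 0 ≤ (lv k).v x) ↔ ∃ f : PowerSeries k, cs f = x := by
  constructor
  · intro h
    have hneg : ∀ m < (0 : ℤ), x.coeff m = 0 := by
      intro m hm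
      rcases h with rfl | h
      · rfl
      · exact HahnSeries.coeff_eq_zero_of_lt_order (lt_of_lt_of_le hm h)
    refine ⟨PowerSeries.mk fun n => x.coeff (n : ℤ), ?_⟩
    ext m
    rcases lt_or_ge m 0 with hm | hm
    · rw [cs_coeff_neg _ hm, hneg m hm]
    · obtain ⟨n, rfl⟩ := Int.eq_ofNat_of_zero_le hm
      rw [cs_coeff, PowerSeries.coeff_mk]
  · rintro ⟨f, rfl⟩
    by_cases hf : f = 0
    · exact Or.inl (by rw [hf, map_zero])
    · exact Or.inr (lv_nonneg f hf)

end Pool.Agent.MSX
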