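import Pool.Agent.MSX.TGood

/-! # Two constructions of Galois stable systems

(1) `D.tdL c`, `c ∈ L*`: the pairs `(s^i c, x_i)`, `i : Fin p`.

(2) `D.ofE E`: `M/L` a finite extension with an automorphism `s'` extending `s`, `z ∈ M` with
`∏_{i<p} s'^i z = b`, `u ∈ M*` with `s' u = u`; the pairs `(ε u, ε l)`, `ε : M →ₐ[L] Lbar`, where `l` is the linear form
with coefficients `cz j = ∏_{i<j} (s'^i z)⁻¹`, so that `sig l = z l`.

PROOFS.

* `tdL_semi`: `st` any extension of `s` to `Lbar` (exists: `IsAlgClosure.equiv`-type theorem; `Lbar` is an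
  algebraic closure of `L` for `algebraMap` and for `algebraMap ∘ s`), `π i = i + 1` (cyclically); `tw st (l_i) = l_{i+1}`
  for `i + 1 < p`, `tw st (l_{p-1}) = b * l_0`; `st (s^i c) = s^(i+1) c`.

* `ofE`: `gal` with `π ε = w ∘ ε`, scalar `1`.  `ofE_semi`: `π ε = st ∘ ε ∘ s'⁻¹` (it is `L`-linear), scalar
  `π ε (z)`: `s' (cz (k-1)) = z * cz k` for `1 ≤ k < p` and `b * s' (cz (p-1)) = z = z * cz 0`
  (from `∏_{i<p} s'^i z = b`).

* `tor`: `τ = fam (ofE E)`; `cc_fam` and `∏_ε ε u = norm u` (`Algebra.norm_eq_prod_embeddings`; `M/L` is separable).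
  `u^n = 1` implies `n • τ = 0`: by `fam_spec` for `Ω = AlgebraicClosure (kap P)` the value of `τ P` is a product of
  elements `a (ε u)`, whose `n`-th powers are `1`.
-/

set_option autoImplicit false

namespace Pool.Agent.MSX

open MvPolynomial

universe u v

variable {p : ℕ} {F L : Type u} [Field F] [Field L] [Algebra F L] (D : Dat p F L)

namespace Dat

theorem exists_st : ∃ st : AlgebraicClosure L ≃+* AlgebraicClosure L,
    ∀ c : L, st (algebraMap L (AlgebraicClosure L) c) = algebraMap L (AlgebraicClosure L) (D.s c) :=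
  ⟨IsAlgClosure.equivOfEquiv (AlgebraicClosure L) (AlgebraicClosure L) (D.s : L ≃+* L),
    fun c => IsAlgClosure.equivOfEquiv_algebraMap _ _ _ c⟩

private theorem tor_ext {K : Type u} [Field K] {Ω : Type u} [Field Ω] [IsAlgClosed Ω]
    (g : K →+* Ω) :
    ∃ a : AlgebraicClosure K →+* Ω, ∀ c : K, a (algebraMap K (AlgebraicClosure K) c) = g c := by
  let _ : Algebra K Ω := g.toAlgebra
  have a : AlgebraicClosure K →ₐ[K] Ω := IsAlgClosed.lift
  exact ⟨a, fun c => a.commutes c⟩

private theorem fam_tors {ι : Type v} [Fintype ι] [PerfectField L] (T : TD p L ι) (h1 : 1 < p)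
    (n : ℕ) (h : ∀ i, T.e i ^ n = 1) : n • T.fam h1 = 0 := by
  classical
  funext P
  obtain ⟨a, ha⟩ := tor_ext
    ((algebraMap (kap P) (AlgebraicClosure (kap P))).comp ((red P).comp C) :
      L →+* AlgebraicClosure (kap P))
  have h2 := T.fam_spec h1 P (algebraMap (kap P) (AlgebraicClosure (kap P))) a ha
  have h3 : (((T.fam h1 P).toMul : (kap P)ˣ) : kap P) ^ n = 1 := by
    apply (algebraMap (kap P) (AlgebraicClosure (kap P))).injective
    rw [map_pow, h2, map_one, ← Finset.prod_pow]
    refine Finset.prod_eq_one fun i _ => ?_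
    split_ifs
    · rw [← map_pow, h, map_one]
    · exact one_pow n
  apply Additive.toMul.injective
  apply Units.ext
  rw [Pi.smul_apply, toMul_nsmul, Units.val_pow_eq_pow_val, h3]
  rfl

/-- the cyclic permutation -/
private def cycP : Equiv.Perm (Fin p) where
  toFun i := if h : i.val + 1 < p then ⟨i.val + 1, h⟩ else ⟨0, by omega⟩
  invFun i := if h : i.val = 0 then ⟨p - 1, by omega⟩ else ⟨i.val - 1, by omega⟩
  left_inv i := by
    apply Fin.ext
    by_cases h : i.val + 1 < p
    · simp [h]
    · simp only [h, dite_false, dite_true]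
      omega
  right_inv i := by
    apply Fin.ext
    by_cases h : i.val = 0
    · have h2 : ¬ (p - 1) + 1 < p := by omega
      simp only [h, dite_true, h2, dite_false]
    · have h2 : (i.val - 1) + 1 < p := by omega
      simp only [h, dite_false, h2, dite_true]
      omega

private theorem cycP_lt {i : Fin p} (h : i.val + 1 < p) : cycP i = ⟨i.val + 1, h⟩ := by
  show (if h : i.val + 1 < p then (⟨i.val + 1, h⟩ : Fin p) else ⟨0, by omega⟩) = _
  rw [dif_pos h]

private theorem cycP_last {i : Fin p} (h : ¬ i.val + 1 < p) : (cycP i).val = 0 := by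
  show ((if h : i.val + 1 < p then (⟨i.val + 1, h⟩ : Fin p) else ⟨0, by omega⟩) : Fin p).val = _
  rw [dif_neg h]

/-- The pairs `(s^i c, x_i)`. -/
noncomputable def tdL (c : L) (hc : c ≠ 0) : TD p L (Fin p) where
  e i := algebraMap L (AlgebraicClosure L) ((D.s ^ i.val) c)
  l i j := if i = j then 1 else 0
  e_ne i := by
    rw [_root_.map_ne_zero, _root_.map_ne_zero]
    exact hc
  l_ne i := by
    intro h
    have h1 := congrFun h i
    rw [if_pos rfl] at h1
    exact one_ne_zero h1
  gal w := by
    refine ⟨Equiv.refl _, fun i => ⟨w.commutes _, 1, one_ne_zero, fun j => ?_⟩⟩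
    rw [one_mul]
    show w (if i = j then 1 else 0) = if i = j then 1 else 0
    split_ifs
    · exact map_one w
    · exact map_zero w

theorem tdL_semi (c : L) (hc : c ≠ 0) : (D.tdL c hc).Semi D := by
  obtain ⟨st, hst⟩ := D.exists_st
  refine ⟨st, hst, cycP, fun i => ?_⟩
  have hl : ∀ i j : Fin p, (D.tdL c hc).l i j = if i = j then 1 else 0 := fun i j => rfl
  have he : ∀ i : Fin p, (D.tdL c hc).e i = algebraMap L (AlgebraicClosure L) ((D.s ^ i.val) c) :=
    fun i => rfl
  have hs1 : D.s ((D.s ^ i.val) c) = (D.s ^ (i.val + 1)) c := by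
    rw [pow_succ', AlgEquiv.mul_apply]
  have hp := D.hp.pos
  by_cases h : i.val + 1 < p
  · refine ⟨?_, 1, one_ne_zero, fun k => ?_⟩
    · rw [he, he, hst, hs1, cycP_lt h]
    · rw [one_mul, cycP_lt h, hl, tw]
      by_cases hk : k.val = 0
      · have h1 : ¬ i = ⟨p - 1, by omega⟩ := fun e => by
          have := congrArg Fin.val e
          simp only at this
          omega
        have h2 : ¬ (⟨i.val + 1, h⟩ : Fin p) = k := fun e => by
          have := congrArg Fin.val e
          simp only at this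
          omega
        rw [if_pos hk, hl, if_neg h1, if_neg h2, map_zero, mul_zero]
      · rw [if_neg hk, hl]
        by_cases h3 : i = ⟨k.val - 1, by omega⟩
        · have h4 : (⟨i.val + 1, h⟩ : Fin p) = k := by
            apply Fin.ext
            have := congrArg Fin.val h3
            simp only at this ⊢
            omega
          rw [if_pos h3, if_pos h4, map_one]
        · have h4 : ¬ (⟨i.val + 1, h⟩ : Fin p) = k := fun e => h3 (by
            apply Fin.ext
            have := congrArg Fin.val e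
            simp only at this ⊢
            omega)
          rw [if_neg h3, if_neg h4, map_zero]
  · have hi : i.val = p - 1 := by omega
    refine ⟨?_, algebraMap L (AlgebraicClosure L) D.bL, ?_, fun k => ?_⟩
    · rw [he, he, hst, hs1, cycP_last h]
      have h5 : i.val + 1 = p := by omega
      rw [h5, D.s_pow, pow_zero]
      rfl
    · rw [_root_.map_ne_zero]
      exact D.bL_ne
    · rw [hl, tw]
      by_cases hk : k.val = 0
      · have h1 : i = ⟨p - 1, by omega⟩ := Fin.ext hi
        have h2 : cycP i = k := Fin.ext (by rw [cycP_last h, hk])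
        rw [if_pos hk, hl, if_pos h1, if_pos h2, map_one]
      · have h1 : ¬ i = ⟨k.val - 1, by omega⟩ := fun e => by
          have := congrArg Fin.val e
          simp only at this
          omega
        have h2 : ¬ cycP i = k := fun e => hk (by rw [← e, cycP_last h])
        rw [if_neg hk, hl, if_neg h1, if_neg h2, map_zero, mul_zero]

/-- Extensions `M/L` with a semilinear automorphism, an element of norm `b` and an invariant element. -/
structure Exn (M : Type u) [Field M] [Algebra L M] where
  s' : M ≃+* M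
  hs : ∀ c : L, s' (algebraMap L M c) = algebraMap L M (D.s c)
  z : M
  hz : ∏ i ∈ Finset.range p, s'^[i] z = algebraMap L M D.bL
  u : M
  hu : u ≠ 0
  su : s' u = u

variable {D}
variable {M : Type u} [Field M] [Algebra L M] (E : D.Exn M)

/-- The coefficients of the linear form. -/
noncomputable def Exn.cz (j : Fin p) : M := ∏ i ∈ Finset.range j.val, (E.s'^[i] E.z)⁻¹

/-- The coefficients for all natural numbers. -/
private noncomputable def Exn.cn (n : ℕ) : M := ∏ i ∈ Finset.range n, (E.s'^[i] E.z)⁻¹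

private theorem Exn.z_ne : E.z ≠ 0 := by
  have h1 : ∏ i ∈ Finset.range p, E.s'^[i] E.z ≠ 0 := by
    rw [E.hz, _root_.map_ne_zero]
    exact D.bL_ne
  have h2 := Finset.prod_ne_zero_iff.1 h1 0 (Finset.mem_range.2 D.hp.pos)
  exact h2

private theorem Exn.s'_cn (n : ℕ) : E.s' (E.cn n) = E.z * E.cn (n + 1) := by
  unfold Exn.cn
  rw [map_prod, Finset.prod_range_succ', Function.iterate_zero_apply, mul_comm, mul_assoc,
    inv_mul_cancel₀ E.z_ne, mul_one]
  refine Finset.prod_congr rfl fun i _ => ?_
  rw [map_inv₀, Function.iterate_succ_apply']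

private theorem Exn.cn_p : algebraMap L M D.bL * E.cn p = 1 := by
  unfold Exn.cn
  rw [Finset.prod_inv_distrib, E.hz]
  apply mul_inv_cancel₀
  rw [_root_.map_ne_zero]
  exact D.bL_ne

/-- The pairs `(ε u, ε l)`. -/
noncomputable def Exn.td : TD p L (M →ₐ[L] AlgebraicClosure L) where
  e ε := ε E.u
  l ε j := ε (E.cz j)
  e_ne ε := by
    rw [_root_.map_ne_zero]
    exact E.hu
  l_ne ε := by
    intro h
    have h1 := congrFun h ⟨0, D.hp.pos⟩
    have h2 : E.cz ⟨0, D.hp.pos⟩ = 1 := by
      unfold Exn.cz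
      rw [Finset.range_zero, Finset.prod_empty]
    simp only [h2, map_one] at h1
    exact one_ne_zero h1
  gal w := by
    refine ⟨⟨fun ε => (w : AlgebraicClosure L →ₐ[L] AlgebraicClosure L).comp ε,
      fun ε => (w.symm : AlgebraicClosure L →ₐ[L] AlgebraicClosure L).comp ε,
      fun ε => ?_, fun ε => ?_⟩, fun ε => ⟨rfl, 1, one_ne_zero, fun j => ?_⟩⟩
    · apply AlgHom.ext
      intro x
      exact w.symm_apply_apply (ε x)
    · apply AlgHom.ext
      intro x
      exact w.apply_symm_apply (ε x)
    · rw [one_mul]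
      rfl

private theorem Exn.s'_symm (c : L) :
    E.s'.symm (algebraMap L M c) = algebraMap L M (D.s.symm c) := by
  rw [RingEquiv.symm_apply_eq, E.hs, AlgEquiv.apply_symm_apply]

/-- the permutation of the embeddings -/
private noncomputable def Exn.prm (st : AlgebraicClosure L ≃+* AlgebraicClosure L)
    (hst : ∀ c : L, st (algebraMap L (AlgebraicClosure L) c) =
      algebraMap L (AlgebraicClosure L) (D.s c)) :
    Equiv.Perm (M →ₐ[L] AlgebraicClosure L) where
  toFun ε :=
    { ((st : AlgebraicClosure L →+* AlgebraicClosure L).comp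
        ((ε : M →+* AlgebraicClosure L).comp (E.s'.symm : M →+* M))) with
      commutes' := fun c => by
        show st (ε (E.s'.symm (algebraMap L M c))) = _
        rw [E.s'_symm, ε.commutes, hst, AlgEquiv.apply_symm_apply] }
  invFun ε :=
    { ((st.symm : AlgebraicClosure L →+* AlgebraicClosure L).comp
        ((ε : M →+* AlgebraicClosure L).comp (E.s' : M →+* M))) with
      commutes' := fun c => by
        show st.symm (ε (E.s' (algebraMap L M c))) = _
        rw [E.hs, ε.commutes, ← hst, RingEquiv.symm_apply_apply] }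
  left_inv ε := by
    apply AlgHom.ext
    intro x
    show st.symm (st (ε (E.s'.symm (E.s' x)))) = ε x
    rw [RingEquiv.symm_apply_apply, RingEquiv.symm_apply_apply]
  right_inv ε := by
    apply AlgHom.ext
    intro x
    show st (st.symm (ε (E.s' (E.s'.symm x)))) = ε x
    rw [RingEquiv.apply_symm_apply, RingEquiv.apply_symm_apply]

theorem Exn.td_semi [FiniteDimensional L M] : E.td.Semi D := by
  obtain ⟨st, hst⟩ := D.exists_st
  refine ⟨st, hst, E.prm st hst, fun ε => ?_⟩
  have hp := D.hp.pos
  have hg : ∀ x : M, st (ε x) = (E.prm st hst ε) (E.s' x) := by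
    intro x
    show _ = st (ε (E.s'.symm (E.s' x)))
    rw [RingEquiv.symm_apply_apply]
  have hl : ∀ (ε : M →ₐ[L] AlgebraicClosure L) (j : Fin p), E.td.l ε j = ε (E.cn j.val) :=
    fun ε j => rfl
  have he : ∀ (ε : M →ₐ[L] AlgebraicClosure L), E.td.e ε = ε E.u := fun ε => rfl
  refine ⟨?_, (E.prm st hst ε) E.z, ?_, fun k => ?_⟩
  · rw [he, he, hg, E.su]
  · rw [_root_.map_ne_zero]
    exact E.z_ne
  · rw [hl, tw]
    by_cases hk : k.val = 0
    · rw [if_pos hk, hl, hg, E.s'_cn, hk]
      have h1 : p - 1 + 1 = p := by omega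
      have h2 : ((⟨p - 1, by omega⟩ : Fin p) : ℕ) + 1 = p := h1
      rw [h2]
      have h3 := (E.prm st hst ε).commutes D.bL
      rw [← h3, ← map_mul, ← map_mul]
      congr 1
      have h4 := E.cn_p
      have h5 : E.cn 0 = 1 := by
        unfold Exn.cn
        rw [Finset.range_zero, Finset.prod_empty]
      rw [h5]
      linear_combination E.z * h4
    · rw [if_neg hk, hl, hg, E.s'_cn]
      have h2 : ((⟨k.val - 1, by omega⟩ : Fin p) : ℕ) + 1 = k.val := by
        show k.val - 1 + 1 = k.val
        omega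
      rw [h2, map_mul]

theorem Exn.prod_e [PerfectField L] [FiniteDimensional L M] :
    ∏ ε : M →ₐ[L] AlgebraicClosure L, E.td.e ε =
      algebraMap L (AlgebraicClosure L) (Algebra.norm L E.u) := by
  have : Algebra.IsSeparable L M := Algebra.IsAlgebraic.isSeparable_of_perfectField
  rw [Algebra.norm_eq_prod_embeddings]
  rfl

theorem Exn.tor [PerfectField L] [FiniteDimensional L M] : ∃ τ : Fam p L, D.Good τ ∧
    (∀ n : ℕ, E.u ^ n = 1 → n • τ = 0) ∧
    (((cc τ).toMul : (Mb p L)ˣ) : Mb p L) = cMb p L (Algebra.norm L E.u) := by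
  refine ⟨E.td.fam D.hp.one_lt, E.td.fam_good D E.td_semi, fun n hn => ?_, ?_⟩
  · refine fam_tors E.td D.hp.one_lt n fun ε => ?_
    show (ε E.u) ^ n = 1
    rw [← map_pow, hn, map_one]
  · obtain ⟨a, ha⟩ := tor_ext (cMb p L)
    rw [E.td.cc_fam D.hp.one_lt a ha, ← map_prod, E.prod_e, ha]

variable (D) in
theorem torL [PerfectField L] (c : L) (hc : c ≠ 0) : ∃ τ : Fam p L, D.Good τ ∧
    (∀ n : ℕ, c ^ n = 1 → n • τ = 0) ∧
    (((cc τ).toMul : (Mb p L)ˣ) : Mb p L) = cMb p L (D.N c) := by
  obtain ⟨a, ha⟩ := tor_ext (cMb p L)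
  have h1 : ∀ (n : ℕ) (i : Fin p), c ^ n = 1 → ((D.s ^ i.val) c) ^ n = 1 := by
    intro n i hn
    rw [← map_pow, hn, map_one]
  refine ⟨(D.tdL c hc).fam D.hp.one_lt, (D.tdL c hc).fam_good D (D.tdL_semi c hc),
    fun n hn => ?_, ?_⟩
  · refine fam_tors (D.tdL c hc) D.hp.one_lt n fun i => ?_
    show (algebraMap L (AlgebraicClosure L) ((D.s ^ i.val) c)) ^ n = 1
    rw [← map_pow, h1 n i hn, map_one]
  · rw [(D.tdL c hc).cc_fam D.hp.one_lt a ha, N, ← Fin.prod_univ_eq_prod_range, map_prod]
    refine Finset.prod_congr rfl fun i _ => ?_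
    rw [← ha]
    rfl

end Dat

end Pool.Agent.MSX
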