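import Pool.Agent.MSX.CnvA
import Pool.Agent.MSX.CnvB

/-! # Good families are sums of families `(y; g / h)`

PROOF of `exists_trips`, by induction on the number of points of the support of `z`.  If `z ≠ 0` choose `P` with
`z P ≠ 0` and `T` from `case_a` or `case_b`.  The family `z' = z - T.fam` is good (`Good.add`, `Good.neg`,
`Trip.good`), `z' P = 0`, so `z' (D.sg^[i] P) = 0` for all `i` (invariance), and `z' P' = z P'` for all other `P'`.
So the support of `z'` is strictly smaller.
-/

set_option autoImplicit false

namespace Pool.Agent.MSX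

open MvPolynomial

universe u

variable {p : ℕ} {F L : Type u} [Field F] [Field L] [Algebra F L] (D : Dat p F L)

namespace Dat

theorem exists_trips (hD : D.Div) (hpF : (p : F) ≠ 0) {z : Fam p L} (hz : D.Good z) :
    ∃ l : List D.Trip, z = (l.map Trip.fam).sum := by
  obtain ⟨n, hn⟩ : ∃ n : ℕ, hz.fin.toFinset.card = n := ⟨_, rfl⟩
  induction n using Nat.strong_induction_on generalizing z with
  | _ n ih =>
    by_cases h0 : ∃ P, z P ≠ 0
    · obtain ⟨P, hP⟩ := h0
      obtain ⟨T, hT, hT'⟩ : ∃ T : D.Trip, T.fam P = z P ∧
          ∀ P' : HP p L, (∀ i : ℕ, D.sg^[i] P ≠ P') → T.fam P' = 0 := by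
        by_cases hs : D.sg P = P
        · obtain ⟨T, hT, hT'⟩ := D.case_b hD hpF P hs hz
          exact ⟨T, hT, fun P' h => hT' P' (h 0)⟩
        · exact D.case_a P hs hz
      have hg : D.Good (z + -T.fam) := hz.add T.good.neg
      have horb : ∀ i : ℕ, (z + -T.fam) (D.sg^[i] P) = 0 := by
        intro i
        induction i with
        | zero =>
          show z P + -T.fam P = 0
          rw [hT, add_neg_cancel]
        | succ i ihi =>
          rw [Function.iterate_succ_apply', hg.inv, ihi, map_zero]
      have hsub : ∀ P', (z + -T.fam) P' ≠ 0 → z P' ≠ 0 ∧ P' ≠ P := by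
        intro P' hP'
        have h1 : ∀ i : ℕ, D.sg^[i] P ≠ P' := by
          rintro i rfl
          exact hP' (horb i)
        have h2 : (z + -T.fam) P' = z P' := by
          show z P' + -T.fam P' = z P'
          rw [hT' P' h1, neg_zero, add_zero]
        rw [h2] at hP'
        exact ⟨hP', fun h => h1 0 h.symm⟩
      have hlt : hg.fin.toFinset.card < n := by
        rw [← hn]
        refine Finset.card_lt_card (Finset.ssubset_iff_subset_ne.2 ⟨fun P' h => ?_, fun h => ?_⟩)
        · rw [Set.Finite.mem_toFinset] at h ⊢
          exact (hsub P' h).1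
        · have h1 : P ∈ hz.fin.toFinset := (Set.Finite.mem_toFinset _).2 hP
          rw [← h, Set.Finite.mem_toFinset] at h1
          exact (hsub P h1).2 rfl
      obtain ⟨l, hl⟩ := ih _ hlt hg rfl
      refine ⟨T :: l, ?_⟩
      rw [List.map_cons, List.sum_cons, ← hl, add_comm, neg_add_cancel_right]
    · refine ⟨[], ?_⟩
      funext P
      by_contra h
      exact h0 ⟨P, h⟩

end Dat

end Pool.Agent.MSX
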