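import Mathlib

/-! # Nonabelian Hilbert 90 (semilinear descent for a cyclic group)

`s` is an automorphism of the field `M` with `s^[n] = id` and `s^[i] ≠ id` for `0 < i < n`; `B` a square matrix
with `B * s(B) * ... * s^(n-1)(B) = 1`.  There is an invertible matrix `G` with `B * s(G) = G`.

PROOF.  Let `B_i = B * s(B) * ... * s^(i-1)(B)` (`itM s B i`, `B_0 = 1`, `B_{i+1} = B * s(B_i)`, `B_n = 1`) and for a vector
`v` in `M^ι` let `g(v) = ∑_{i<n} B_i * s^i(v)`.  Then `B * s(g(v)) = ∑_{i<n} B_{i+1} s^(i+1)(v) = g(v)` (the term `i + 1 = n` is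
`v`, the term with index `0`).  The vectors `g(v)` span `M^ι`: otherwise there is a linear form `f ≠ 0` with
`f (g (c v)) = ∑_{i<n} s^i(c) * f (B_i s^i(v)) = 0` for all `c` in `M`, `v`; by Dedekind's theorem
(`linearIndependent_monoidHom`; the maps `s^i`, `i < n`, are distinct) all coefficients vanish, in particular
`f (B_0 v) = f v = 0` for all `v`.  So there are `v_j` (`j` in `ι`) such that the `g(v_j)` form a basis of `M^ι`
(a spanning set contains a basis; its cardinality is `card ι`); let `G` be the matrix with columns `g(v_j)`.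
-/

set_option autoImplicit false

namespace Pool.Agent.MSX

universe u v

variable {M : Type u} [Field M] {ι : Type v} [Fintype ι] [DecidableEq ι]

/-- The iterated product `B * s(B) * ... * s^(k-1)(B)`. -/
def itM (s : M ≃+* M) (B : Matrix ι ι M) : ℕ → Matrix ι ι M
  | 0 => 1
  | k + 1 => B * (itM s B k).map s

/-- the iterates of `s` as ring homomorphisms -/
private def desIt (s : M ≃+* M) : ℕ → (M →+* M)
  | 0 => RingHom.id M
  | k + 1 => (s : M →+* M).comp (desIt s k)

private theorem desIt_apply (s : M ≃+* M) (k : ℕ) (x : M) : desIt s k x = s^[k] x := by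
  induction k with
  | zero => rfl
  | succ k ih =>
    rw [Function.iterate_succ_apply', ← ih]
    rfl

private theorem desIt_succ (s : M ≃+* M) (k : ℕ) (x : M) :
    s (desIt s k x) = desIt s (k + 1) x := rfl

/-- the trace vector -/
private def desG (s : M ≃+* M) (B : Matrix ι ι M) (n : ℕ) (v : ι → M) : ι → M :=
  ∑ i ∈ Finset.range n, (itM s B i).mulVec fun j => desIt s i (v j)

private theorem desG_fix (s : M ≃+* M) (n : ℕ) (hs : ∀ x, s^[n] x = x) (B : Matrix ι ι M)
    (hB : itM s B n = 1) (v : ι → M) :
    B.mulVec (fun j => s (desG s B n v j)) = desG s B n v := by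
  have h1 : (fun j => s (desG s B n v j)) =
      ∑ i ∈ Finset.range n, ((itM s B i).map s).mulVec fun j => desIt s (i + 1) (v j) := by
    funext j
    unfold desG
    rw [Finset.sum_apply, Finset.sum_apply, map_sum]
    refine Finset.sum_congr rfl fun i _ => ?_
    simp only [Matrix.mulVec, dotProduct, map_sum, map_mul, Matrix.map_apply, desIt_succ]
  have h2 : B.mulVec (∑ i ∈ Finset.range n,
      ((itM s B i).map s).mulVec fun j => desIt s (i + 1) (v j)) =
      ∑ i ∈ Finset.range n, (itM s B (i + 1)).mulVec fun j => desIt s (i + 1) (v j) := by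
    rw [Matrix.mulVec_sum]
    refine Finset.sum_congr rfl fun i _ => ?_
    rw [Matrix.mulVec_mulVec]
    rfl
  rw [h1, h2]
  have h3 := Finset.sum_range_succ (fun i => (itM s B i).mulVec fun j => desIt s i (v j)) n
  have h4 := Finset.sum_range_succ' (fun i => (itM s B i).mulVec fun j => desIt s i (v j)) n
  have h5 : (itM s B n).mulVec (fun j => desIt s n (v j)) = v := by
    rw [hB, Matrix.one_mulVec]
    funext j
    rw [desIt_apply, hs]
  have h6 : (itM s B 0).mulVec (fun j => desIt s 0 (v j)) = v := by
    show (1 : Matrix ι ι M).mulVec _ = v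
    rw [Matrix.one_mulVec]
    rfl
  rw [h5] at h3
  rw [h3] at h4
  simp only [h6] at h4
  exact (add_right_cancel h4).symm

private theorem desG_span (s : M ≃+* M) (n : ℕ) (hn : 0 < n)
    (hd : ∀ i, 0 < i → i < n → ∃ x, s^[i] x ≠ x) (B : Matrix ι ι M) :
    Submodule.span M (Set.range (desG s B n)) = ⊤ := by
  by_contra hne
  obtain ⟨f, hf0, hf⟩ := Submodule.exists_le_ker_of_lt_top _ (lt_top_iff_ne_top.2 hne)
  -- the iterates are different
  have hinj : Function.Injective fun i : Fin n => ((desIt s i : M →+* M) : M →* M) := by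
    have key : ∀ i j : ℕ, i < j → j < n → (∀ x, desIt s i x = desIt s j x) → False := by
      intro i j hij hj h
      obtain ⟨x, hx⟩ := hd (j - i) (by omega) (by omega)
      apply hx
      have h1 := h x
      rw [desIt_apply, desIt_apply] at h1
      have h2 : s^[j] x = s^[i] (s^[j - i] x) := by
        rw [← Function.iterate_add_apply]
        congr 1
        congr 1
        omega
      rw [h2] at h1
      exact (s.injective.iterate i h1).symm
    intro a b hab
    have hab' : ∀ x, desIt s a x = desIt s b x := fun x => DFunLike.congr_fun hab x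
    rcases lt_trichotomy (a : ℕ) (b : ℕ) with h | h | h
    · exact (key a b h b.2 hab').elim
    · exact Fin.ext h
    · exact (key b a h a.2 fun x => (hab' x).symm).elim
  have hli := (linearIndependent_monoidHom M M).comp _ hinj
  rw [Fintype.linearIndependent_iff] at hli
  apply hf0
  ext1
  ext1
  rename_i k
  have hall : ∀ v : ι → M, f v = 0 := by
    intro v
    have h1 := hli (fun i : Fin n => f ((itM s B i).mulVec fun j => desIt s i (v j))) (by
      funext c
      have h2 : f (desG s B n (c • v)) = 0 :=
        LinearMap.mem_ker.1 (hf (Submodule.subset_span ⟨c • v, rfl⟩))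
      unfold desG at h2
      rw [map_sum, ← Fin.sum_univ_eq_sum_range
        (fun i => f ((itM s B i).mulVec fun j => desIt s i ((c • v) j)))] at h2
      rw [Finset.sum_apply, Pi.zero_apply, ← h2]
      refine Finset.sum_congr rfl fun i _ => ?_
      have h3 : (fun j => desIt s i ((c • v) j)) =
          (desIt s i c) • fun j => desIt s i (v j) := by
        funext j
        simp only [Pi.smul_apply, smul_eq_mul, map_mul]
      rw [h3, Matrix.mulVec_smul, map_smul]
      simp only [Function.comp_apply, Pi.smul_apply, smul_eq_mul, MonoidHom.coe_coe]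
      exact mul_comm _ _) ⟨0, hn⟩
    have h4 : (itM s B 0).mulVec (fun j => desIt s 0 (v j)) = v := by
      show (1 : Matrix ι ι M).mulVec _ = v
      rw [Matrix.one_mulVec]
      rfl
    simp only [h4] at h1
    exact h1
  rw [LinearMap.comp_apply, hall]
  rfl

theorem descent (s : M ≃+* M) (n : ℕ) (hn : 0 < n) (hs : ∀ x, s^[n] x = x)
    (hd : ∀ i, 0 < i → i < n → ∃ x, s^[i] x ≠ x) (B : Matrix ι ι M) (hB : itM s B n = 1) :
    ∃ G : Matrix ι ι M, G.det ≠ 0 ∧ B * G.map s = G := by
  classical
  obtain ⟨b, hb, hspan, hli⟩ := exists_linearIndependent M (Set.range (desG s B n))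
  rw [desG_span s n hn hd B] at hspan
  let bas : Module.Basis b M (ι → M) := Module.Basis.mk hli (by
    rw [Subtype.range_coe, hspan])
  have hfin : Finite b := Module.Finite.finite_basis bas
  have : Fintype b := Fintype.ofFinite b
  have hcard : Fintype.card ι = Fintype.card b := by
    rw [← Module.finrank_eq_card_basis bas, Module.finrank_fintype_fun_eq_card]
  let e : ι ≃ b := Fintype.equivOfCardEq hcard
  let R : Matrix ι ι M := fun j => (e j : ι → M)
  have hR : IsUnit R := by
    rw [← Matrix.linearIndependent_rows_iff_isUnit]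
    exact hli.comp e e.injective
  refine ⟨R.transpose, ?_, ?_⟩
  · rw [Matrix.det_transpose]
    exact ((Matrix.isUnit_iff_isUnit_det R).1 hR).ne_zero
  · ext i j
    obtain ⟨v, hv⟩ := hb (e j).2
    have h1 := congrFun (desG_fix s n hs B hB v) i
    rw [hv] at h1
    rw [Matrix.mul_apply]
    exact h1

end Pool.Agent.MSX
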