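import Pool.Agent.MSX.Std
import Pool.Agent.MSX.Des

/-! # Semilinear operators and their commutants (algebras `A_n`)

For a square matrix `B` over `L` let `D.tau B` be the semilinear operator `v ↦ B s(v)` and `D.Cn B` the ring of the
matrices which commute with it: `X * B = B * s(X)`.  `D.An n = D.Cn (D.Bm n)` is the endomorphism ring of the
standard object of degree `n`.  `D.Bp n` is the `p × p` matrix with the entries of the case `p ∤ n` of `Bm n`; for
`p ∤ n` the two agree up to the identification `Fin (dm p n) = Fin p` (`rx`).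

PROOFS.

* `cn_mulVec`, `cn_of_mulVec`: `X (B s(v)) = B s(X) s(v) = B s(X v)` (`Matrix.mulVec_mulVec`; `s (X v) = s(X) s(v)` entrywise).
  Conversely apply the hypothesis to the standard basis vectors (`s 0 = 0`, `s 1 = 1`): the columns of `X * B` and
  `B * s(X)` agree.

* `cn_charpoly`: `X = B s(X) B⁻¹`, so `charpoly X = charpoly (s(X)) = s (charpoly X)` (`Matrix.charpoly_map`,
  invariance under conjugation: `Matrix.charpoly_units_conj`, or `Matrix.charpoly_mul_comm`), so all coefficients
  are fixed by `s`, so they lie in `F` (`D.fix`); a polynomial with all coefficients in the range of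
  `algebraMap F L` is the image of a polynomial of the same degree, monic if it is monic
  (`Polynomial.lifts_iff_coeff_lifts`, `Polynomial.lifts_and_natDegree_eq_and_monic`; `Matrix.charpoly_natDegree_eq_dim`,
  `Matrix.charpoly_monic`).

* `cn_det`: `det X * det B = det B * s (det X)`, so `s (det X) = det X`, `D.fix`.

* `cn_inv`: multiply `X * B = B * s(X)` by the inverses; `s(X⁻¹) = s(X)⁻¹` (from `s(X) * s(X⁻¹) = 1`).

* `cn_algebraMap`: the matrix is scalar with entry `algebraMap F L c`, fixed by `s`.  `cn_aeval`: induction on `f` or the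
  subring property with `cn_algebraMap`.

* `tau_iter`: induction on `k` (`D.s` is a ring homomorphism; `itM s B (k+1) = B * s(itM s B k)`).
-/

set_option autoImplicit false

namespace Pool.Agent.MSX

universe u v

variable {p : ℕ} {F L : Type u} [Field F] [Field L] [Algebra F L] (D : Dat p F L)

theorem dm_of {p : ℕ} {n : ℤ} (h : ¬ (p : ℤ) ∣ n) : dm p n = p := if_neg h

/-- Transport of matrices from `Fin (dm p n)` to `Fin p`. -/
def rx {R : Type u} {p : ℕ} {n : ℤ} (h : ¬ (p : ℤ) ∣ n) (X : Matrix (Fin (dm p n)) (Fin (dm p n)) R) :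
    Matrix (Fin p) (Fin p) R :=
  X.submatrix (Fin.cast (dm_of h).symm) (Fin.cast (dm_of h).symm)

theorem rx_mul {R : Type u} [CommRing R] {p : ℕ} {n : ℤ} (h : ¬ (p : ℤ) ∣ n)
    (X Y : Matrix (Fin (dm p n)) (Fin (dm p n)) R) : rx h (X * Y) = rx h X * rx h Y :=
  (Matrix.submatrix_mul_equiv X Y _ (finCongr (dm_of h).symm) _).symm

theorem rx_det {R : Type u} [CommRing R] {p : ℕ} {n : ℤ} (h : ¬ (p : ℤ) ∣ n)
    (X : Matrix (Fin (dm p n)) (Fin (dm p n)) R) : (rx h X).det = X.det :=
  Matrix.det_submatrix_equiv_self (finCongr (dm_of h).symm) X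

theorem rx_charpoly {R : Type u} [CommRing R] {p : ℕ} {n : ℤ} (h : ¬ (p : ℤ) ∣ n)
    (X : Matrix (Fin (dm p n)) (Fin (dm p n)) R) : (rx h X).charpoly = X.charpoly :=
  Matrix.charpoly_reindex (finCongr (dm_of h)) X

theorem rx_inj {R : Type u} {p : ℕ} {n : ℤ} (h : ¬ (p : ℤ) ∣ n) :
    Function.Injective (rx (R := R) h) := by
  intro X Y hXY
  ext i j
  exact congrFun (congrFun hXY (Fin.cast (dm_of h) i)) (Fin.cast (dm_of h) j)

theorem rx_surj {R : Type u} {p : ℕ} {n : ℤ} (h : ¬ (p : ℤ) ∣ n) :
    Function.Surjective (rx (R := R) h) := by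
  intro X
  refine ⟨X.submatrix (Fin.cast (dm_of h)) (Fin.cast (dm_of h)), ?_⟩
  ext i j
  rfl

namespace Dat

/-- The `p × p` matrix which maps `e_i` to `e_{i+1}` and `e_{p-1}` to `b^n e_0`. -/
noncomputable def Bp (n : ℤ) : Matrix (Fin p) (Fin p) L := fun i j =>
  if j.val + 1 = i.val then 1
  else if i.val = 0 ∧ j.val + 1 = p then D.bL ^ n
  else 0

theorem bm_rx {n : ℤ} (h : ¬ (p : ℤ) ∣ n) : rx h (D.Bm n) = D.Bp n := by
  ext i j
  simp [rx, Bm, Bp, h]

section general

variable {ι : Type v} [Fintype ι] [DecidableEq ι]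

/-- The semilinear operator `v ↦ B s(v)`. -/
def tau (B : Matrix ι ι L) : (ι → L) →+ (ι → L) where
  toFun v := B.mulVec (fun i => D.s (v i))
  map_zero' := by
    have : (fun i : ι => D.s ((0 : ι → L) i)) = 0 := by
      funext i
      simp
    rw [this, Matrix.mulVec_zero]
  map_add' v w := by
    rw [← Matrix.mulVec_add]
    congr 1
    funext i
    simp

theorem tau_apply (B : Matrix ι ι L) (v : ι → L) : D.tau B v = B.mulVec (fun i => D.s (v i)) := rfl

theorem tau_smul (B : Matrix ι ι L) (l : L) (v : ι → L) : D.tau B (l • v) = D.s l • D.tau B v := by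
  rw [tau_apply, tau_apply, ← Matrix.mulVec_smul]
  congr 1
  funext i
  simp

/-- The matrices which commute with the semilinear operator `D.tau B`. -/
def Cn (B : Matrix ι ι L) : Subring (Matrix ι ι L) where
  carrier := {X | X * B = B * X.map D.s}
  mul_mem' := by
    intro X Y hX hY
    show X * Y * B = B * (X * Y).map D.s
    rw [Matrix.map_mul, ← mul_assoc, ← (show X * B = B * X.map D.s from hX), mul_assoc, mul_assoc,
      (show Y * B = B * Y.map D.s from hY)]
  one_mem' := by
    show 1 * B = B * (1 : Matrix ι ι L).map D.s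
    rw [Matrix.map_one _ (map_zero _) (map_one _), one_mul, mul_one]
  add_mem' := by
    intro X Y hX hY
    show (X + Y) * B = B * (X + Y).map D.s
    rw [Matrix.map_add _ (map_add _), mul_add, add_mul, (show X * B = B * X.map D.s from hX),
      (show Y * B = B * Y.map D.s from hY)]
  zero_mem' := by
    show 0 * B = B * (0 : Matrix ι ι L).map D.s
    rw [Matrix.map_zero _ (map_zero _), zero_mul, mul_zero]
  neg_mem' := by
    intro X hX
    show -X * B = B * (-X).map D.s
    rw [show (-X).map D.s = -(X.map D.s) by ext i j; simp, neg_mul,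
      (show X * B = B * X.map D.s from hX), mul_neg]

theorem mem_cn {B X : Matrix ι ι L} : X ∈ D.Cn B ↔ X * B = B * X.map D.s := Iff.rfl

omit [DecidableEq ι] in
theorem an_map_mulVec (X : Matrix ι ι L) (v : ι → L) :
    (fun i => D.s ((X.mulVec v) i)) = (X.map D.s).mulVec (fun i => D.s (v i)) := by
  funext i
  rw [Matrix.mulVec, Matrix.mulVec, dotProduct, dotProduct, map_sum]
  refine Finset.sum_congr rfl fun j _ => ?_
  rw [map_mul, Matrix.map_apply]

theorem cn_mulVec {B X : Matrix ι ι L} (h : X ∈ D.Cn B) (v : ι → L) :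
    X.mulVec (D.tau B v) = D.tau B (X.mulVec v) := by
  rw [mem_cn] at h
  rw [tau_apply, tau_apply, an_map_mulVec, Matrix.mulVec_mulVec, Matrix.mulVec_mulVec, h]

theorem cn_of_mulVec {B X : Matrix ι ι L} (h : ∀ v : ι → L, X.mulVec (D.tau B v) = D.tau B (X.mulVec v)) :
    X ∈ D.Cn B := by
  rw [mem_cn]
  apply Matrix.ext_of_mulVec_single
  intro j
  have h1 := h (Pi.single j 1)
  rw [tau_apply, tau_apply, an_map_mulVec, Matrix.mulVec_mulVec, Matrix.mulVec_mulVec] at h1
  have h2 : (fun i => D.s ((Pi.single j (1 : L) : ι → L) i)) = Pi.single j 1 := by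
    funext i
    by_cases hi : i = j
    · subst hi
      rw [Pi.single_eq_same, map_one]
    · rw [Pi.single_eq_of_ne hi, map_zero]
  rw [h2] at h1
  exact h1

theorem an_fix_iff_range {B X : Matrix ι ι L} (hB : B.det ≠ 0) (h : X ∈ D.Cn B) :
    (X.map D.s).charpoly = X.charpoly := by
  rw [mem_cn] at h
  have hu : IsUnit B.det := isUnit_iff_ne_zero.2 hB
  have h1 : X = B * X.map D.s * B⁻¹ := by
    rw [← h, Matrix.mul_assoc, Matrix.mul_nonsing_inv B hu, Matrix.mul_one]
  conv_rhs => rw [h1]
  rw [Matrix.charpoly_mul_comm, ← Matrix.mul_assoc, Matrix.nonsing_inv_mul B hu, Matrix.one_mul]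

theorem cn_charpoly {B X : Matrix ι ι L} (hB : B.det ≠ 0) (h : X ∈ D.Cn B) :
    ∃ f : Polynomial F, f.Monic ∧ f.natDegree = Fintype.card ι ∧ f.map (algebraMap F L) = X.charpoly := by
  have h1 := D.an_fix_iff_range hB h
  have h2 : (X.map D.s).charpoly = X.charpoly.map ((D.s : L ≃+* L) : L →+* L) :=
    Matrix.charpoly_map X ((D.s : L ≃+* L) : L →+* L)
  have h3 : X.charpoly ∈ Polynomial.lifts (algebraMap F L) := by
    rw [Polynomial.lifts_iff_coeff_lifts]
    intro n
    apply D.fix
    have h4 := congrArg (fun q : Polynomial L => q.coeff n) (h2.symm.trans h1)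
    simp only [Polynomial.coeff_map] at h4
    exact h4
  obtain ⟨q, hq1, hq2, hq3⟩ := Polynomial.lifts_and_natDegree_eq_and_monic h3
    (Matrix.charpoly_monic X)
  exact ⟨q, hq3, hq2.trans (Matrix.charpoly_natDegree_eq_dim X), hq1⟩

theorem cn_det {B X : Matrix ι ι L} (hB : B.det ≠ 0) (h : X ∈ D.Cn B) :
    ∃ c : F, algebraMap F L c = X.det := by
  rw [mem_cn] at h
  apply D.fix
  have h1 := congrArg Matrix.det h
  rw [Matrix.det_mul, Matrix.det_mul, mul_comm] at h1
  have h2 := mul_left_cancel₀ hB h1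
  exact (RingHom.map_det ((D.s : L ≃+* L) : L →+* L) X).trans h2.symm

theorem cn_algebraMap (B : Matrix ι ι L) (c : F) : algebraMap F (Matrix ι ι L) c ∈ D.Cn B := by
  rw [mem_cn]
  have h1 : (algebraMap F (Matrix ι ι L) c).map D.s = algebraMap F (Matrix ι ι L) c := by
    refine Matrix.ext fun i j => ?_
    rw [Matrix.map_apply, Matrix.algebraMap_matrix_apply]
    by_cases hij : i = j
    · rw [if_pos hij, D.s.commutes]
    · rw [if_neg hij, map_zero]
  rw [h1, Algebra.commutes]

omit [Fintype ι] in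
theorem an_map_one : (1 : Matrix ι ι L).map D.s = 1 :=
  Matrix.map_one _ (map_zero _) (map_one _)

omit [DecidableEq ι] in
theorem an_map_mul (X Y : Matrix ι ι L) : (X * Y).map D.s = X.map D.s * Y.map D.s :=
  Matrix.map_mul

theorem cn_inv {B X : Matrix ι ι L} (h : X ∈ D.Cn B) (hX : X.det ≠ 0) : X⁻¹ ∈ D.Cn B := by
  rw [mem_cn] at h ⊢
  have hu : IsUnit X.det := isUnit_iff_ne_zero.2 hX
  have h1 : X.map D.s * X⁻¹.map D.s = 1 := by
    rw [← an_map_mul, Matrix.mul_nonsing_inv X hu, an_map_one]
  calc X⁻¹ * B = X⁻¹ * B * (X.map D.s * X⁻¹.map D.s) := by rw [h1, Matrix.mul_one]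
    _ = X⁻¹ * (B * X.map D.s) * X⁻¹.map D.s := by simp only [Matrix.mul_assoc]
    _ = X⁻¹ * X * B * X⁻¹.map D.s := by rw [← h]; simp only [Matrix.mul_assoc]
    _ = B * X⁻¹.map D.s := by rw [Matrix.nonsing_inv_mul X hu, Matrix.one_mul]

/-- A polynomial in `X` with coefficients in `F` commutes with the operator. -/
theorem cn_aeval {B X : Matrix ι ι L} (h : X ∈ D.Cn B) (f : Polynomial F) :
    Polynomial.aeval X f ∈ D.Cn B := by
  rw [Polynomial.aeval_eq_sum_range]
  refine Subring.sum_mem _ fun i _ => ?_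
  rw [Algebra.smul_def]
  exact Subring.mul_mem _ (D.cn_algebraMap B _) (Subring.pow_mem _ h i)

theorem tau_iter (B : Matrix ι ι L) (k : ℕ) (v : ι → L) :
    (D.tau B)^[k] v = (itM D.s.toRingEquiv B k).mulVec (fun i => (D.s ^ k) (v i)) := by
  induction k with
  | zero =>
    have h1 : itM D.s.toRingEquiv B 0 = 1 := rfl
    rw [Function.iterate_zero, id, h1, Matrix.one_mulVec]
    rfl
  | succ k ih =>
    have h1 : itM D.s.toRingEquiv B (k + 1) = B * (itM D.s.toRingEquiv B k).map D.s := rfl
    rw [Function.iterate_succ_apply', ih, tau_apply, an_map_mulVec, Matrix.mulVec_mulVec, h1]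
    congr 1
    funext i
    rw [pow_succ']
    rfl

end general

/-- The endomorphism ring of the standard object of degree `n`. -/
noncomputable def An (n : ℤ) : Subring (Matrix (Fin (dm p n)) (Fin (dm p n)) L) := D.Cn (D.Bm n)

end Dat

end Pool.Agent.MSX
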