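import Pool.Agent.MSX.Ctm
import Pool.Agent.MSX.An

/-! # CORE I*: the formal part

`Thet D` collects what the K-theoretic parts deliver; `core_of` deduces CORE I* from it. -/

set_option autoImplicit false

namespace Pool.Agent.MSX

universe u

variable {p : ℕ} {F L : Type u} [Field F] [Field L] [Algebra F L] (D : Dat p F L)

namespace Dat

/-- The output of the K-theoretic parts: up to tame symbols, a multiple of every family `z` with
`n • z` a tame symbol is the family `-f` of an element `γ` of `A_1`. -/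
structure Thet [PerfectField L] where
  N0 : ℕ
  hN0 : ¬ p ∣ N0
  R : Matrix (Fin (dm p 1)) (Fin (dm p 1)) L → Fam p L → Prop
  fin : ∀ γ f, R γ f → {P | f P ≠ 0}.Finite
  val : ∀ γ f, R γ f → (((cc f).toMul : (Mb p L)ˣ) : Mb p L) = cMb p L γ.det
  wang : ∀ γ f, γ ∈ D.An 1 → R γ f → γ.det ^ 2 = 1 → ∃ v : MK.K2 D.K, D.tmK v = 4 • f
  key : ∀ (w : MK.K2 D.K) (n : ℕ) (z : Fam p L), 0 < n → D.Good z → n • z = D.tmK w →
    ∃ γ f, γ ∈ D.An 1 ∧ γ.det ≠ 0 ∧ R γ f ∧ ∃ v : MK.K2 D.K, D.tmK v = 2 • (N0 • z + f)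

variable {D}

theorem cMb_inj : Function.Injective (cMb p L) := (cMb p L).injective

theorem core_of [PerfectField L] (T : D.Thet)
    (hinv : ∀ X : Matrix (Fin (dm p 1)) (Fin (dm p 1)) L, X ∈ D.An 1 → X.det ≠ 0 → X⁻¹ ∈ D.An 1)
    (w : MK.K2 D.K) (n : ℕ) (z : Fam p L) (hn : 0 < n) (hz : D.Good z) (h : n • z = D.tmK w) :
    (cc z = 0 → ∃ v : MK.K2 D.K, D.tmK v = (4 * T.N0) • z) ∧
    ∃ g : Matrix (Fin (dm p 1)) (Fin (dm p 1)) L, g ∈ D.An 1 ∧ g.det ≠ 0 ∧
      cMb p L g.det = ((((4 * T.N0) • cc z).toMul : (Mb p L)ˣ) : Mb p L) := by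
  obtain ⟨γ, f, hγ, hd, hR, v, hv⟩ := T.key w n z hn hz h
  have hf := T.fin γ f hR
  have hval := T.val γ f hR
  -- the relation between the values
  have hfz : {P | (T.N0 • z) P ≠ 0}.Finite := by
    refine hz.fin.subset ?_
    intro P hP h0
    apply hP
    show T.N0 • z P = 0
    rw [show z P = 0 from h0, smul_zero]
  have hs : {P | (T.N0 • z + f) P ≠ 0}.Finite := by
    refine (hfz.union hf).subset ?_
    intro P hP
    by_contra hcon
    have h1 : (T.N0 • z) P = 0 := by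
      by_contra h1
      exact hcon (Or.inl h1)
    have h2 : f P = 0 := by
      by_contra h2
      exact hcon (Or.inr h2)
    apply hP
    show (T.N0 • z) P + f P = 0
    rw [h1, h2, add_zero]
  have hcc : 2 • (T.N0 • cc z + cc f) = 0 := by
    have h1 := cc_tmK D v
    rw [hv, cc_nsmul hs, cc_add hfz hf, cc_nsmul hz.fin] at h1
    exact h1
  refine ⟨?_, ?_⟩
  · intro hc0
    rw [hc0, smul_zero, zero_add] at hcc
    have h1 : γ.det ^ 2 = 1 := by
      have h2 : (((2 • cc f).toMul : (Mb p L)ˣ) : Mb p L) = 1 := by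
        rw [hcc]
        rfl
      have h3 : (((2 • cc f).toMul : (Mb p L)ˣ) : Mb p L) =
          (((cc f).toMul : (Mb p L)ˣ) : Mb p L) ^ 2 := by
        rw [toMul_nsmul, Units.val_pow_eq_pow_val]
      rw [h3, hval, ← map_pow] at h2
      apply cMb_inj
      rw [h2, map_one]
    obtain ⟨v', hv'⟩ := T.wang γ f hγ hR h1
    refine ⟨2 • v - v', ?_⟩
    rw [map_sub, map_nsmul, hv, hv', ← mul_nsmul', show (2 : ℕ) * 2 = 4 from rfl, nsmul_add,
      ← mul_nsmul', add_sub_cancel_right]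
  · refine ⟨(γ ^ 4)⁻¹, ?_, ?_, ?_⟩
    · apply hinv
      · exact Subring.pow_mem _ hγ 4
      · rw [Matrix.det_pow]
        exact pow_ne_zero 4 hd
    · rw [Matrix.det_nonsing_inv, Matrix.det_pow, Ring.inverse_eq_inv']
      exact inv_ne_zero (pow_ne_zero 4 hd)
    · have h1 : (4 * T.N0) • cc z = -(4 • cc f) := by
        have h2 : 2 • (2 • (T.N0 • cc z + cc f)) = 0 := by rw [hcc, smul_zero]
        rw [← mul_nsmul', show (2 : ℕ) * 2 = 4 from rfl, nsmul_add, ← mul_nsmul'] at h2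
        exact eq_neg_of_add_eq_zero_left h2
      rw [h1, Matrix.det_nonsing_inv, Matrix.det_pow, Ring.inverse_eq_inv', map_inv₀, map_pow, ← hval]
      rw [toMul_neg, toMul_nsmul, Units.val_inv_eq_inv_val, Units.val_pow_eq_pow_val]

end Dat

end Pool.Agent.MSX
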