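import Pool.Agent.MSX.Ps

/-! # Fields with `PS p K`, `p` odd, are infinite -/

set_option autoImplicit false

namespace Pool.Agent.MSX

universe u

variable {p : ℕ} {K : Type u} [Field K]

theorem PS.infinite (h : PS p K) (hp : p.Prime) (h2 : 2 < p) : Infinite K := by
  haveI : NeZero p := ⟨hp.ne_zero⟩
  have hu : IsUnit ((2 : ℕ) : ZMod p) := by
    rw [ZMod.isUnit_iff_coprime]
    exact (Nat.coprime_primes Nat.prime_two hp).mpr (by omega)
  have hinf := Nat.infinite_setOf_prime_and_eq_mod hu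
  -- the primes which are not zero in `K`
  have hinf2 : {q : ℕ | q.Prime ∧ ((q : ℕ) : ZMod p) = ((2 : ℕ) : ZMod p) ∧ (q : K) ≠ 0}.Infinite := by
    have h3 : {q : ℕ | q.Prime ∧ (q : K) = 0}.Finite := by
      refine Set.Subsingleton.finite ?_
      intro q hq q' hq'
      have hd := (CharP.cast_eq_zero_iff K (ringChar K) q).mp hq.2
      have hd' := (CharP.cast_eq_zero_iff K (ringChar K) q').mp hq'.2
      have hne : ringChar K ≠ 1 := CharP.ringChar_ne_one
      have e1 : ringChar K = q := ((Nat.dvd_prime hq.1).mp hd).resolve_left hne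
      have e2 : ringChar K = q' := ((Nat.dvd_prime hq'.1).mp hd').resolve_left hne
      rw [← e1, e2]
    refine (hinf.diff h3).mono ?_
    intro q hq
    refine ⟨hq.1.1, hq.1.2, fun h0 => hq.2 ⟨hq.1.1, h0⟩⟩
  have hz : ∀ q : {q : ℕ | q.Prime ∧ ((q : ℕ) : ZMod p) = ((2 : ℕ) : ZMod p) ∧ (q : K) ≠ 0},
      ∃ z : K, IsPrimitiveRoot z q.1 := by
    intro q
    refine h.prim hp q.1 q.2.1 q.2.2.2 ?_
    intro hd
    have h4 := q.2.2.1
    have h5 : ((q.1 - 1 : ℕ) : ZMod p) = 0 := (ZMod.natCast_eq_zero_iff _ _).mpr hd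
    rw [Nat.cast_sub q.2.1.one_le, Nat.cast_one, h4] at h5
    have h6 : ((2 : ℕ) : ZMod p) - 1 = 1 := by push_cast; ring
    rw [h6] at h5
    haveI : Fact p.Prime := ⟨hp⟩
    exact one_ne_zero h5
  choose z hz using hz
  haveI : Infinite {q : ℕ | q.Prime ∧ ((q : ℕ) : ZMod p) = ((2 : ℕ) : ZMod p) ∧ (q : K) ≠ 0} :=
    hinf2.to_subtype
  refine Infinite.of_injective z ?_
  intro q q' hqq
  have h7 := hz q
  have h8 := hz q'
  rw [← hqq] at h8
  exact Subtype.ext (h7.unique h8)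

end Pool.Agent.MSX
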