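import Pool.Agent.MSX.Line
import Pool.Agent.MSX.Fam

/-! # The homomorphism `c`: product of the values at the points of the generic line

PROOFS.

* `cA_val`: the point chosen in the definition is `P` by `ev_uniq`; substitute.

* `cA_fin`: if `cA α z ≠ 0` then `α` is a root of `ln P.gen ≠ 0` (`ln_inj`) for some `P` in the finite support of `z`.

* `cc_add` etc.: `finsum_add_distrib` and `cA_fin`.
-/

set_option autoImplicit false

namespace Pool.Agent.MSX

open MvPolynomial

universe u

variable {p : ℕ} {L : Type u} [Field L]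

open Classical in
/-- The value of a family at the point with parameter `α` of the generic line. -/
noncomputable def cA (α : Mb p L) : Fam p L →+ Additive (Mb p L)ˣ :=
  if h : ∃ P : HP p L, ev α P.gen = 0 then
    (MonoidHom.toAdditive (Units.map (evK h.choose α h.choose_spec : kap h.choose →* Mb p L))).comp
      (Pi.evalAddMonoidHom (fun P : HP p L => Additive (kap P)ˣ) h.choose)
  else 0

theorem cA_val (P : HP p L) (α : Mb p L) (h : ev α P.gen = 0) (z : Fam p L) :
    ((cA α z).toMul : Mb p L) = evK P α h ((z P).toMul : kap P) := by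
  have hex : ∃ P : HP p L, ev α P.gen = 0 := ⟨P, h⟩
  have key : ∀ (P' : HP p L) (h' : ev α P'.gen = 0), P' = P →
      ((((MonoidHom.toAdditive (Units.map (evK P' α h' : kap P' →* Mb p L))).comp
        (Pi.evalAddMonoidHom (fun P : HP p L => Additive (kap P)ˣ) P')) z).toMul : Mb p L) =
      evK P α h ((z P).toMul : kap P) := by
    intro P' h' e
    subst e
    rfl
  unfold cA
  rw [dif_pos hex]
  exact key _ hex.choose_spec (ev_uniq hex.choose_spec h)

theorem cA_none (α : Mb p L) (h : ∀ P : HP p L, ev α P.gen ≠ 0) (z : Fam p L) : cA α z = 0 := by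
  have hex : ¬ ∃ P : HP p L, ev α P.gen = 0 := fun ⟨P, hP⟩ => h P hP
  unfold cA
  rw [dif_neg hex]
  rfl

theorem cA_fin {z : Fam p L} (hz : {P | z P ≠ 0}.Finite) : {α | cA α z ≠ 0}.Finite := by
  have hroots : ∀ P : HP p L, {α : Mb p L | ev α P.gen = 0}.Finite := by
    intro P
    have h0 : ln P.gen ≠ 0 := by
      intro h
      exact P.gen_irr.ne_zero (ln_inj (by rw [h, map_zero]))
    exact Polynomial.finite_setOf_isRoot h0
  refine (hz.biUnion fun P _ => hroots P).subset fun α hα => ?_
  by_cases h : ∃ P : HP p L, ev α P.gen = 0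
  · obtain ⟨P, hP⟩ := h
    refine Set.mem_biUnion (x := P) ?_ hP
    intro h0
    apply hα
    have h1 := cA_val P α hP z
    rw [h0, toMul_zero, Units.val_one, map_one] at h1
    have h2 : (cA α z).toMul = 1 := Units.ext h1
    exact Additive.toMul.injective h2
  · exact absurd (cA_none α (fun P hP => h ⟨P, hP⟩) z) hα

/-- The product of the values at all points of the generic line. -/
noncomputable def cc (z : Fam p L) : Additive (Mb p L)ˣ := ∑ᶠ α, cA α z

theorem cc_zero : cc (0 : Fam p L) = 0 := by
  unfold cc
  rw [finsum_congr fun α => map_zero (cA α), finsum_zero]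

theorem cc_add {z z' : Fam p L} (hz : {P | z P ≠ 0}.Finite) (hz' : {P | z' P ≠ 0}.Finite) :
    cc (z + z') = cc z + cc z' := by
  unfold cc
  rw [finsum_congr fun α => map_add (cA α) z z']
  exact finsum_add_distrib (cA_fin hz) (cA_fin hz')

theorem cc_neg {z : Fam p L} (hz : {P | z P ≠ 0}.Finite) : cc (-z) = - cc z := by
  have hz' : {P | (-z) P ≠ 0}.Finite := by
    refine hz.subset fun P hP h0 => hP ?_
    rw [Pi.neg_apply, h0, neg_zero]
  have h := cc_add hz hz'
  rw [add_neg_cancel, cc_zero] at h
  exact (neg_eq_of_add_eq_zero_right h.symm).symm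

theorem cc_nsmul {z : Fam p L} (hz : {P | z P ≠ 0}.Finite) (n : ℕ) : cc (n • z) = n • cc z := by
  induction n with
  | zero => rw [zero_smul, zero_smul, cc_zero]
  | succ n ih =>
    have hz' : {P | (n • z) P ≠ 0}.Finite := by
      refine hz.subset fun P hP h0 => hP ?_
      rw [Pi.smul_apply, h0, smul_zero]
    rw [succ_nsmul, succ_nsmul, cc_add hz' hz, ih]

end Pool.Agent.MSX
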