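import Pool.Agent.MSX.TDef
import Pool.Agent.MSX.Cmap

/-! # Families of Galois stable systems: finiteness, invariance, value of `c`

PROOFS.

* `fam_fin`: if `T.fam P ≠ 0` then some `l_i` vanishes at `P` (`fam_spec` with `Ω = AlgebraicClosure (kap P)`), so
  `red P T.nrm = 0` (`nrm_eval` with `f = algebraMap ∘ red P`), i.e. `P.gen ∣ T.nrm`; `finite_dvd`.

* `fam_good`: finiteness, degree zero (`fam_k0`, `mem_k0_iff`), and invariance: to prove
  `T.fam (sg P) = sgU P (T.fam P)` embed `kap (sg P)` in its algebraic closure `Ω` by `f`, and choose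
  `a : Lbar → Ω` extending `L → kap (sg P) → Ω` (`IsAlgClosed.lift`).  Then `f ∘ sgK P : kap P → Ω` and `a ∘ st`
  are compatible on `L`: `a (st c) = a (s c) = f (red (C (s c))) = f (sgK (red (C c)))` (`sgK_red`, `sig_C`).  By
  `fam_spec` for `P`, `f ∘ sgK P`, `a ∘ st`:
  `f (sgK t_P) = ∏ i, if ∑ j, a (st (l i j)) * f (red (sig (X j))) = 0 then a (st (e i)) else 1`, and
  `∑ j, a (st (l i j)) * f (red (sig (X j))) = ∑ k, a (tw st (l i) k) * f (red (X k))` (the variable `X j` goes to
  `X (j+1)`, the last one to `b X 0`; reindex), `= a c * ∑ k, a (l (π i) k) * f (red (X k))`.  So the product is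
  `∏ i, if (l (π i) vanishes) then a (e (π i)) else 1 = f t_{sg P}`.  `f` is injective.

* `cc_fam`: `T.nrm` is homogeneous and nonzero, so `ln T.nrm ≠ 0` has the nonzero leading coefficient
  `T.nrm(eta)` (`ln_lead`), so `l_i(eta) := ∑ j, a (l i j) * eta_j ≠ 0` for all `i` (`nrm_eval` with
  `f = rMb ∘ rename Sum.inr`).  For every `α`: `cA α (T.fam)` has value
  `∏ i, if l_i(xi) + α * l_i(eta) = 0 then a (e i) else 1`: if `ev α P.gen = 0` for some `P` this is `cA_val`,
  `fam_spec` with `f = evK P α h` (`evK_red`, `ev_X`); otherwise `cA_none`, and no `l_i(xi) + α l_i(eta)` vanishes,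
  because otherwise `ev α T.nrm = 0` (`nrm_eval`) and `ev_hom` gives a point (`T.nrm_hom`).  So
  `cc = ∑ᶠ α, ∑ i, (if α = - l_i(xi) / l_i(eta) then e i else 0) = ∑ i, e i` (additive notation;
  `finsum_eq_sum_of_support_subset`, `Finset.sum_comm`).
-/

set_option autoImplicit false

namespace Pool.Agent.MSX

open MvPolynomial

universe u v

private theorem exists_ext {K : Type u} [Field K] {Ω : Type u} [Field Ω] [IsAlgClosed Ω] (g : K →+* Ω) :
    ∃ a : AlgebraicClosure K →+* Ω, ∀ c : K, a (algebraMap K (AlgebraicClosure K) c) = g c := by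
  letI : Algebra K Ω := g.toAlgebra
  have a : AlgebraicClosure K →ₐ[K] Ω := IsAlgClosed.lift
  exact ⟨a, fun c => a.commutes c⟩

variable {p : ℕ} {L : Type u} [Field L] {ι : Type v} [Fintype ι] (T : TD p L ι)

namespace TD

theorem fam_fin [PerfectField L] (h1 : 1 < p) : {P | T.fam h1 P ≠ 0}.Finite := by
  classical
  refine (finite_dvd T.nrm_ne).subset fun P hP => ?_
  by_contra hn
  apply hP
  have hn' : ¬ P.gen ∣ T.nrm := hn
  obtain ⟨a, ha⟩ := exists_ext
    ((algebraMap (kap P) (AlgebraicClosure (kap P))).comp ((red P).comp C) :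
      L →+* AlgebraicClosure (kap P))
  have h2 := T.fam_spec h1 P (algebraMap (kap P) (AlgebraicClosure (kap P))) a ha
  have h3 := T.nrm_eval ((algebraMap (kap P) (AlgebraicClosure (kap P))).comp (red P)) a ha
  have h4 : ∀ i, ¬ ∑ j, a (T.l i j) *
      (algebraMap (kap P) (AlgebraicClosure (kap P))) (red P (X j)) = 0 := by
    intro i hi
    have h5 := h3.2 ⟨i, hi⟩
    rw [RingHom.comp_apply, map_eq_zero, red_eq_zero] at h5
    exact hn' h5
  rw [Finset.prod_eq_one (fun i _ => if_neg (h4 i))] at h2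
  have h6 : (((T.fam h1 P).toMul : (kap P)ˣ) : kap P) = 1 := by
    apply (algebraMap (kap P) (AlgebraicClosure (kap P))).injective
    rw [h2, map_one]
  have h7 : (T.fam h1 P).toMul = 1 := Units.ext h6
  exact h7

theorem cc_fam [PerfectField L] (h1 : 1 < p) (a : AlgebraicClosure L →+* Mb p L)
    (ha : ∀ c : L, a (algebraMap L (AlgebraicClosure L) c) = cMb p L c) :
    (((cc (T.fam h1)).toMul : (Mb p L)ˣ) : Mb p L) = ∏ i, a (T.e i) := by
  classical
  set lx : ι → Mb p L := fun i => ∑ j, a (T.l i j) * rMb p L (X (Sum.inl j)) with hlx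
  set le : ι → Mb p L := fun i => ∑ j, a (T.l i j) * rMb p L (X (Sum.inr j)) with hle
  -- the values at eta
  have hle0 : ∀ i, le i ≠ 0 := by
    have h2 := T.nrm_eval ((rMb p L).comp
      ((rename Sum.inr : S p L →ₐ[L] MvPolynomial (Fin p ⊕ Fin p) L) :
        S p L →+* MvPolynomial (Fin p ⊕ Fin p) L)) a (by
      intro c
      rw [ha, RingHom.comp_apply, RingHom.coe_coe, rename_C]
      rfl)
    intro i hi
    have h3 := h2.2 ⟨i, by
      rw [← hi, hle]
      refine Finset.sum_congr rfl fun j _ => ?_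
      rw [RingHom.comp_apply, RingHom.coe_coe, rename_X]⟩
    rw [RingHom.comp_apply, RingHom.coe_coe] at h3
    have h4 : (rename Sum.inr T.nrm : MvPolynomial (Fin p ⊕ Fin p) L) = 0 :=
      rMb_inj (by rw [h3, map_zero])
    have h5 : T.nrm = 0 := rename_injective _ Sum.inr_injective (by rw [h4, map_zero])
    exact T.nrm_ne h5
  have hsum : ∀ (α : Mb p L) (i : ι), ∑ j, a (T.l i j) * ev α (X j) = lx i + α * le i := by
    intro α i
    rw [hlx, hle]
    simp only
    rw [Finset.mul_sum, ← Finset.sum_add_distrib]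
    refine Finset.sum_congr rfl fun j _ => ?_
    rw [ev_X]
    ring
  -- the value at the point with parameter α
  have hval : ∀ α : Mb p L, (((cA α (T.fam h1)).toMul : (Mb p L)ˣ) : Mb p L) =
      ∏ i, if lx i + α * le i = 0 then a (T.e i) else 1 := by
    intro α
    by_cases hex : ∃ P : HP p L, ev α P.gen = 0
    · obtain ⟨P, hP⟩ := hex
      rw [cA_val P α hP]
      have h2 := T.fam_spec h1 P (evK P α hP) a (by
        intro c
        rw [ha, evK_red, ev_C])
      rw [h2]
      refine Finset.prod_congr rfl fun i _ => ?_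
      have h3 : ∑ j, a (T.l i j) * evK P α hP (red P (X j)) = lx i + α * le i := by
        rw [← hsum]
        refine Finset.sum_congr rfl fun j _ => ?_
        rw [evK_red]
      by_cases h4 : lx i + α * le i = 0
      · rw [if_pos h4, if_pos (h3.trans h4)]
      · rw [if_neg h4, if_neg (fun h => h4 (h3.symm.trans h))]
    · have hex' : ∀ P : HP p L, ev α P.gen ≠ 0 := fun P hP => hex ⟨P, hP⟩
      rw [cA_none α hex', toMul_zero, Units.val_one]
      symm
      refine Finset.prod_eq_one fun i _ => if_neg fun hi => ?_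
      have h2 := T.nrm_eval (ev α) a (by
        intro c
        rw [ha, ev_C])
      have h3 : ev α T.nrm = 0 := h2.2 ⟨i, by rw [hsum]; exact hi⟩
      obtain ⟨P, -, hP⟩ := ev_hom T.nrm_hom T.nrm_ne h3
      exact hex' P hP
  -- the factors
  have hae : ∀ i, a (T.e i) ≠ 0 := fun i => (map_ne_zero a).2 (T.e_ne i)
  have hroot : ∀ (α : Mb p L) (i : ι), lx i + α * le i = 0 ↔ α = -lx i / le i := by
    intro α i
    rw [eq_div_iff (hle0 i)]
    constructor
    · intro h
      linear_combination h
    · intro h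
      linear_combination h
  set u : ι → Additive (Mb p L)ˣ := fun i => Additive.ofMul (Units.mk0 (a (T.e i)) (hae i)) with hu
  have hcA : ∀ α : Mb p L, cA α (T.fam h1) = ∑ i, if α = -lx i / le i then u i else 0 := by
    intro α
    apply Additive.toMul.injective
    apply Units.ext
    rw [hval, toMul_sum, Units.coe_prod]
    refine Finset.prod_congr rfl fun i _ => ?_
    by_cases h : α = -lx i / le i
    · rw [if_pos h, if_pos ((hroot α i).2 h)]
      rfl
    · rw [if_neg h, if_neg (fun h' => h ((hroot α i).1 h'))]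
      rfl
  have hfin : cc (T.fam h1) = ∑ i, u i := by
    unfold cc
    rw [finsum_congr hcA, finsum_sum_comm]
    · refine Finset.sum_congr rfl fun i _ => ?_
      rw [finsum_eq_single _ (-lx i / le i) (fun x hx => if_neg hx), if_pos rfl]
    · intro i _
      refine (Set.finite_singleton (-lx i / le i)).subset fun x hx => ?_
      rw [Function.mem_support] at hx
      by_contra hne
      exact hx (if_neg hne)
  rw [hfin, toMul_sum, Units.coe_prod]
  rfl

end TD

section semi

variable {F : Type u} [Field F] [Algebra F L] (D : Dat p F L)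

/-- The semilinear action on the coefficients of linear forms (see `TGood`). -/
noncomputable def Dat.tw (st : AlgebraicClosure L ≃+* AlgebraicClosure L) (v : Fin p → AlgebraicClosure L) :
    Fin p → AlgebraicClosure L := fun k =>
  if k.val = 0 then algebraMap L (AlgebraicClosure L) D.bL * st (v ⟨p - 1, by have := D.hp.pos; omega⟩)
  else st (v ⟨k.val - 1, by omega⟩)

/-- The system is stable under an extension of the automorphism `s`. -/
def TD.Semi (T : TD p L ι) (D : Dat p F L) : Prop := ∃ st : AlgebraicClosure L ≃+* AlgebraicClosure L,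
  (∀ c : L, st (algebraMap L (AlgebraicClosure L) c) = algebraMap L (AlgebraicClosure L) (D.s c)) ∧
  ∃ π : Equiv.Perm ι, ∀ i, st (T.e i) = T.e (π i) ∧
    ∃ c : AlgebraicClosure L, c ≠ 0 ∧ ∀ k, D.tw st (T.l i) k = c * T.l (π i) k

private theorem sum_shift {q : ℕ} (hq : 0 < q) {M : Type*} [AddCommMonoid M] (g h : Fin q → M)
    (h1 : ∀ (j : Fin q) (hj : j.val + 1 < q), g j = h ⟨j.val + 1, hj⟩)
    (h2 : ∀ j : Fin q, ¬ j.val + 1 < q → g j = h ⟨0, hq⟩) : ∑ j, g j = ∑ j, h j := by
  obtain ⟨m, rfl⟩ : ∃ m, q = m + 1 := ⟨q - 1, by omega⟩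
  rw [Fin.sum_univ_castSucc, Fin.sum_univ_succ, add_comm]
  congr 1
  · exact h2 (Fin.last m) (by simp)
  · refine Finset.sum_congr rfl fun j _ => ?_
    exact h1 j.castSucc (by simp)

private theorem tw_sum (st : AlgebraicClosure L ≃+* AlgebraicClosure L) {Ω : Type u} [Field Ω]
    (a : AlgebraicClosure L →+* Ω) (f : S p L →+* Ω)
    (ha : ∀ c : L, a (algebraMap L (AlgebraicClosure L) c) = f (C c))
    (v : Fin p → AlgebraicClosure L) :
    ∑ j, a (st (v j)) * f (D.sig (X j)) = ∑ k, a (D.tw st v k) * f (X k) := by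
  refine sum_shift D.hp.pos _ _ ?_ ?_
  · intro j hj
    rw [D.sig_X_lt hj, Dat.tw, if_neg (by simp)]
    congr 3
  · intro j hj
    rw [D.sig_X_last hj, Dat.tw, if_pos rfl, map_mul, map_mul, ha]
    have h3 : v j = v ⟨p - 1, by have := D.hp.pos; omega⟩ := by
      congr 1
      exact Fin.ext (by simp; omega)
    rw [h3]
    ring

theorem TD.fam_good [PerfectField L] (hT : T.Semi D) : D.Good (T.fam D.hp.one_lt) := by
  classical
  refine ⟨T.fam_fin _, fun P => (mem_k0_iff P (Units.ne_zero _)).1 (T.fam_k0 _ P), fun P => ?_⟩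
  obtain ⟨st, hst, π, hπ⟩ := hT
  apply Additive.toMul.injective
  apply Units.ext
  change (((T.fam D.hp.one_lt (D.sg P)).toMul : (kap (D.sg P))ˣ) : kap (D.sg P)) =
    D.sgK P (((T.fam D.hp.one_lt P).toMul : (kap P)ˣ) : kap P)
  set f : kap (D.sg P) →+* AlgebraicClosure (kap (D.sg P)) :=
    algebraMap (kap (D.sg P)) (AlgebraicClosure (kap (D.sg P))) with hf
  apply f.injective
  obtain ⟨a, ha⟩ := exists_ext (f.comp ((red (D.sg P)).comp C) :
    L →+* AlgebraicClosure (kap (D.sg P)))
  have ha1 : ∀ c : L, a (algebraMap L (AlgebraicClosure L) c) = f (red (D.sg P) (C c)) := ha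
  have h1 := T.fam_spec D.hp.one_lt (D.sg P) f a ha1
  have h2 := T.fam_spec D.hp.one_lt P (f.comp (D.sgK P : kap P →+* kap (D.sg P)))
    (a.comp (st : AlgebraicClosure L →+* AlgebraicClosure L)) (by
      intro c
      rw [RingHom.comp_apply, RingHom.coe_coe, hst, ha1, RingHom.comp_apply, RingHom.coe_coe,
        D.sgK_red, D.sig_C])
  rw [RingHom.comp_apply, RingHom.coe_coe] at h2
  rw [h1, h2]
  rw [← Equiv.prod_comp π]
  refine Finset.prod_congr rfl fun i _ => ?_
  obtain ⟨he, c, hc, hl⟩ := hπ i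
  have h3 : ∑ j, (a.comp (st : AlgebraicClosure L →+* AlgebraicClosure L)) (T.l i j) *
      (f.comp (D.sgK P : kap P →+* kap (D.sg P))) (red P (X j)) =
      a c * ∑ k, a (T.l (π i) k) * f (red (D.sg P) (X k)) := by
    have h4 := tw_sum D st a (f.comp (red (D.sg P))) ha1 (T.l i)
    calc ∑ j, (a.comp (st : AlgebraicClosure L →+* AlgebraicClosure L)) (T.l i j) *
          (f.comp (D.sgK P : kap P →+* kap (D.sg P))) (red P (X j))
        = ∑ j, a (st (T.l i j)) * (f.comp (red (D.sg P))) (D.sig (X j)) := by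
          refine Finset.sum_congr rfl fun j _ => ?_
          rw [RingHom.comp_apply, RingHom.comp_apply, RingHom.comp_apply, RingHom.coe_coe,
            RingHom.coe_coe, D.sgK_red]
      _ = ∑ k, a (D.tw st (T.l i) k) * (f.comp (red (D.sg P))) (X k) := h4
      _ = _ := by
          rw [Finset.mul_sum]
          refine Finset.sum_congr rfl fun k _ => ?_
          rw [hl, map_mul, RingHom.comp_apply, mul_assoc]
  have hac : a c ≠ 0 := (map_ne_zero a).2 hc
  rw [h3]
  by_cases h5 : ∑ k, a (T.l (π i) k) * f (red (D.sg P) (X k)) = 0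
  · rw [if_pos h5, if_pos (by rw [h5, mul_zero]), RingHom.comp_apply, RingHom.coe_coe, he]
  · rw [if_neg h5, if_neg (mul_ne_zero hac h5)]

end semi

end Pool.Agent.MSX
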