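import Pool.Agent.MSX.PSp
import Pool.Agent.MSX.Hil

/-! # Elements of norm one in extensions of degree `p` (polynomial form)

PROOF of `exists_conj`.  `E = AdjoinRoot χ`, a field (`Fact (Irreducible χ)`), `θ` its root; `E / k` is finite of degree `p`, `k` is perfect
(`PS.perfect`), so `E / k` is separable.  Over `E`: `χ.map = (X - C θ) * ψ`, `natDegree ψ = p - 1 < p`, so `ψ` splits over `E`
(`PS.ext`, `PS.splits`), so `χ` splits over `E`, and `E` is generated by `θ`, so `E` is a splitting field of the separable polynomial `χ` and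
`E / k` is Galois (`IsGalois.of_separable_splitting_field`) with group of order `p` (`IsGalois.card_aut_eq_finrank`).  Choose `t ≠ 1` in the group;
`t ^ p = 1`, and `t ^ i ≠ 1` for `0 < i < p` (`orderOf`, `Nat.Prime`).  The elements `t^i θ`, `i < p`, are distinct (an automorphism which fixes
`θ` is the identity) roots of `χ`, so `χ.map = ∏_{i<p} (X - C (t^i θ))` (the product divides `χ.map`, both are monic of degree `p`);
constant coefficients: `(-1)^p * ∏_{i<p} t^i θ = χ.coeff 0 = (-1)^p`, so `∏_{i<p} t^i θ = 1`.  By `hil90` there is `w ≠ 0` in `E` with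
`θ * t w = w`.  Write `w = mk χ P`, `t θ = mk χ f` (`AdjoinRoot.mk_surjective`).  Then `χ (t θ) = t (χ θ) = 0` is `χ ∣ χ.comp f`; `t w = P (t θ) = mk χ (P.comp f)`,
so `χ ∣ X * P.comp f - P`; `w ≠ 0` is `¬ χ ∣ P` (`AdjoinRoot.mk_eq_zero`).
-/

set_option autoImplicit false

namespace Pool.Agent.MSX

open Polynomial

universe u

variable {p : ℕ} {k : Type u} [Field k]

private theorem cyc_galois (hp : p.Prime) (h : PS p k) (hk : (p : k) ≠ 0) {χ : k[X]}
    (hi : Irreducible χ) (hd : χ.natDegree = p) [Fact (Irreducible χ)] :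
    FiniteDimensional k (AdjoinRoot χ) ∧ Module.finrank k (AdjoinRoot χ) = p ∧
      IsGalois k (AdjoinRoot χ) := by
  have hfin : FiniteDimensional k (AdjoinRoot χ) := (AdjoinRoot.powerBasis hi.ne_zero).finite
  have hrank : Module.finrank k (AdjoinRoot χ) = p := by
    rw [(AdjoinRoot.powerBasis hi.ne_zero).finrank, AdjoinRoot.powerBasis_dim, hd]
  refine ⟨hfin, hrank, ?_⟩
  have := h.perfect hk
  have hsep : χ.Separable := PerfectField.separable_of_irreducible hi
  have hE : PS p (AdjoinRoot χ) := PS.ext hp h hk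
  have hroot : (χ.map (algebraMap k (AdjoinRoot χ))).IsRoot (AdjoinRoot.root χ) := by
    rw [AdjoinRoot.algebraMap_eq]
    exact AdjoinRoot.isRoot_root χ
  obtain ⟨ψ, hψ⟩ := dvd_iff_isRoot.mpr hroot
  have hχ0 : χ.map (algebraMap k (AdjoinRoot χ)) ≠ 0 := map_ne_zero hi.ne_zero
  have hψ0 : ψ ≠ 0 := by
    rintro rfl
    exact hχ0 (by rw [hψ, mul_zero])
  have hψd : ψ.natDegree < p := by
    have h1 := congrArg natDegree hψ
    rw [natDegree_map, hd, natDegree_mul (X_sub_C_ne_zero _) hψ0, natDegree_X_sub_C] at h1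
    omega
  have hψs : ψ.Splits := PS.splits hE hψ0 hψd
  have hχs : (χ.map (algebraMap k (AdjoinRoot χ))).Splits := by
    rw [hψ]
    exact (Splits.X_sub_C _).mul hψs
  have : IsSplittingField k (AdjoinRoot χ) χ := by
    refine ⟨hχs, ?_⟩
    rw [eq_top_iff, ← AdjoinRoot.adjoinRoot_eq_top]
    refine Algebra.adjoin_mono ?_
    rw [Set.singleton_subset_iff, mem_rootSet]
    refine ⟨hi.ne_zero, ?_⟩
    rw [AdjoinRoot.aeval_eq, AdjoinRoot.mk_self]
  exact IsGalois.of_separable_splitting_field hsep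

theorem exists_conj (hp : p.Prime) (h : PS p k) (hk : (p : k) ≠ 0) {χ : k[X]} (hm : χ.Monic)
    (hi : Irreducible χ) (hd : χ.natDegree = p) (h0 : χ.coeff 0 = (-1) ^ p) :
    ∃ f P : k[X], χ ∣ χ.comp f ∧ ¬ χ ∣ P ∧ χ ∣ X * P.comp f - P := by
  have hF : Fact (Irreducible χ) := ⟨hi⟩
  have hFp : Fact p.Prime := ⟨hp⟩
  obtain ⟨hfin, hrank, hgal⟩ := cyc_galois hp h hk hi hd
  have hcard : Nat.card Gal(AdjoinRoot χ/k) = p := by
    rw [IsGalois.card_aut_eq_finrank, hrank]
  have : Nontrivial Gal(AdjoinRoot χ/k) := by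
    rw [← Finite.one_lt_card_iff_nontrivial, hcard]
    exact hp.one_lt
  obtain ⟨t, ht⟩ := exists_ne (1 : Gal(AdjoinRoot χ/k))
  have htp : t ^ p = 1 := by
    rw [← hcard]
    exact pow_card_eq_one'
  have hord : orderOf t = p := orderOf_eq_prime htp ht
  -- the automorphism as a ring automorphism
  have hit : ∀ (i : ℕ) (x : AdjoinRoot χ), (t : AdjoinRoot χ ≃+* AdjoinRoot χ)^[i] x = (t ^ i) x := by
    intro i x
    induction i with
    | zero => rfl
    | succ i ih =>
      rw [Function.iterate_succ_apply', ih, pow_succ']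
      rfl
  have hs : ∀ x, (t : AdjoinRoot χ ≃+* AdjoinRoot χ)^[p] x = x := by
    intro x
    rw [hit, htp]
    rfl
  have hne : (t : AdjoinRoot χ ≃+* AdjoinRoot χ) ≠ RingEquiv.refl _ := by
    intro h1
    apply ht
    ext x
    have := congrArg (fun e : AdjoinRoot χ ≃+* AdjoinRoot χ => e x) h1
    exact this
  have hprod : ∏ i ∈ Finset.range p,
      (t : AdjoinRoot χ ≃+* AdjoinRoot χ)^[i] (AdjoinRoot.root χ) = 1 := by
    have h1 := Algebra.norm_eq_prod_automorphisms k (AdjoinRoot.root χ)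
    have h2 : Algebra.norm k (AdjoinRoot.root χ) = 1 := by
      have h3 := Algebra.PowerBasis.norm_gen_eq_coeff_zero_minpoly
        (AdjoinRoot.powerBasis hi.ne_zero)
      rw [AdjoinRoot.minpoly_powerBasis_gen_of_monic hm, AdjoinRoot.powerBasis_dim, hd, h0,
        AdjoinRoot.powerBasis_gen, ← mul_pow] at h3
      rw [h3]
      norm_num
    rw [h2, map_one] at h1
    classical
    have h4 : Finset.image (fun i => t ^ i) (Finset.range (orderOf t)) = Finset.univ :=
      IsCyclic.image_range_orderOf (fun x => mem_zpowers_of_prime_card hcard ht)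
    rw [← h4, hord, Finset.prod_image] at h1
    · rw [h1]
      exact Finset.prod_congr rfl fun i _ => hit i _
    · intro i hi' j hj' hij
      refine pow_injOn_Iio_orderOf ?_ ?_ hij
      · rw [hord]; exact Finset.mem_range.mp hi'
      · rw [hord]; exact Finset.mem_range.mp hj'
  obtain ⟨w, hw0, hw⟩ := hil90 (t : AdjoinRoot χ ≃+* AdjoinRoot χ) p hp.pos hs
    (of_prime _ p hp hs hne) (AdjoinRoot.root χ) hprod
  obtain ⟨P, hP⟩ := AdjoinRoot.mk_surjective w
  obtain ⟨f, hf⟩ := AdjoinRoot.mk_surjective (t (AdjoinRoot.root χ))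
  have key : ∀ g : k[X], AdjoinRoot.mk χ (g.comp f) = t (AdjoinRoot.mk χ g) := by
    intro g
    rw [← AdjoinRoot.aeval_eq, aeval_comp, AdjoinRoot.aeval_eq, hf, ← AdjoinRoot.aeval_eq (p := g)]
    exact aeval_algHom_apply (t : AdjoinRoot χ →ₐ[k] AdjoinRoot χ) _ g
  refine ⟨f, P, ?_, ?_, ?_⟩
  · rw [← AdjoinRoot.mk_eq_zero, key, AdjoinRoot.mk_self, map_zero]
  · rw [← AdjoinRoot.mk_eq_zero, hP]
    exact hw0
  · rw [← AdjoinRoot.mk_eq_zero, map_sub, map_mul, key, hP, AdjoinRoot.mk_X, sub_eq_zero]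
    exact hw

end Pool.Agent.MSX
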