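import Mathlib

/-! # Fields whose irreducible polynomials have degree a power of `p`

PROOFS.

* `PS.perfect`: let `f` be irreducible; `natDegree f = p^m ≥ 1`.  The coefficient of `derivative f` at `natDegree f - 1` is
  `natDegree f * leadingCoeff f = (p : k)^m * leadingCoeff f ≠ 0` (`Polynomial.coeff_derivative`), so `derivative f ≠ 0`, so `f` is separable
  (`Polynomial.separable_iff_derivative_ne_zero`).

* `PS.ext`: let `f` be irreducible over `E` and `K = AdjoinRoot f` (a field: `Fact (Irreducible f)`), finite over `E` of degree `natDegree f`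
  (`PowerBasis.finrank` for `AdjoinRoot.powerBasis`), so finite over `k` (`Module.Finite.trans`), of degree `[E:k] * natDegree f`
  (`Module.finrank_mul_finrank`).  `k` is perfect, so `K / k` is separable and `K = k(η)` (`Field.exists_primitive_element`), so
  `[K:k] = natDegree (minpoly k η)` is a power of `p` (`IntermediateField.adjoin.finrank`, `minpoly.irreducible`, `PS`).  So
  `natDegree f` divides a power of `p` (`Nat.dvd_prime_pow`).

* `PS.finrank`: the same argument for `E` itself.

* `PS.splits`: all irreducible factors of `f` have degree a power of `p` and `≤ natDegree f < p`, so degree one.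
  (`Polynomial.splits_iff_...`: every irreducible factor has degree `1`.)
-/

set_option autoImplicit false

namespace Pool.Agent.MSX

universe u

/-- Every irreducible polynomial has degree a power of `p`. -/
def PS (p : ℕ) (k : Type u) [Field k] : Prop :=
  ∀ f : Polynomial k, Irreducible f → ∃ m : ℕ, f.natDegree = p ^ m

variable {p : ℕ} {k : Type u} [Field k]

theorem PS.perfect (h : PS p k) (hk : (p : k) ≠ 0) : PerfectField k := by
  refine ⟨fun {f} hf => ?_⟩
  obtain ⟨m, hm⟩ := h f hf
  have hpos : 0 < f.natDegree := hf.natDegree_pos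
  rw [Polynomial.separable_iff_derivative_ne_zero hf]
  intro h0
  have h1 := congrArg (fun g => Polynomial.coeff g (f.natDegree - 1)) h0
  simp only [Polynomial.coeff_derivative, Polynomial.coeff_zero] at h1
  have h2 : f.natDegree - 1 + 1 = f.natDegree := by omega
  have h3 : (((f.natDegree - 1 : ℕ) : k) + 1) = (f.natDegree : k) := by
    rw [← Nat.cast_succ, Nat.succ_eq_add_one, h2]
  rw [h2, h3, hm, Nat.cast_pow] at h1
  rcases mul_eq_zero.1 h1 with h4 | h4
  · rw [← hm] at h4
    exact hf.ne_zero (Polynomial.leadingCoeff_eq_zero.1 h4)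
  · refine hk ((pow_eq_zero_iff ?_).1 h4)
    rintro rfl
    rw [pow_zero] at h4
    exact one_ne_zero h4

theorem PS.finrank (hp : p.Prime) (h : PS p k) (hk : (p : k) ≠ 0) {E : Type u} [Field E] [Algebra k E]
    [FiniteDimensional k E] : ∃ m : ℕ, Module.finrank k E = p ^ m := by
  have := h.perfect hk
  obtain ⟨η, hη⟩ := Field.exists_primitive_element k E
  have hi : IsIntegral k η := Algebra.IsIntegral.isIntegral η
  obtain ⟨m, hm⟩ := h (minpoly k η) (minpoly.irreducible hi)
  refine ⟨m, ?_⟩
  rw [← hm, ← IntermediateField.adjoin.finrank hi, hη, IntermediateField.finrank_top']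

theorem PS.ext (hp : p.Prime) (h : PS p k) (hk : (p : k) ≠ 0) {E : Type u} [Field E] [Algebra k E]
    [FiniteDimensional k E] : PS p E := by
  intro f hf
  have := Fact.mk hf
  have hpb : Module.finrank E (AdjoinRoot f) = f.natDegree := by
    rw [(AdjoinRoot.powerBasis hf.ne_zero).finrank, AdjoinRoot.powerBasis_dim]
  have hfin : FiniteDimensional E (AdjoinRoot f) :=
    (AdjoinRoot.powerBasis hf.ne_zero).finite
  have hfin2 : FiniteDimensional k (AdjoinRoot f) := Module.Finite.trans E (AdjoinRoot f)
  obtain ⟨m, hm⟩ := h.finrank hp hk (E := AdjoinRoot f)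
  have h1 := Module.finrank_mul_finrank k E (AdjoinRoot f)
  rw [hpb, hm] at h1
  obtain ⟨j, -, hj⟩ := (Nat.dvd_prime_pow hp).1 (Dvd.intro_left _ h1)
  exact ⟨j, hj⟩

theorem PS.splits (h : PS p k) {f : Polynomial k} (hf : f ≠ 0) (hd : f.natDegree < p) : f.Splits := by
  obtain ⟨u, hu⟩ := UniqueFactorizationMonoid.factors_prod hf
  suffices hall : ∀ g : Polynomial k, Irreducible g → g ∣ f → g.degree = 1 by
    rw [← hu]
    refine (Polynomial.Splits.multisetProd fun g hg => ?_).mul u.isUnit.splits
    exact Polynomial.Splits.of_degree_eq_one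
      (hall g (UniqueFactorizationMonoid.irreducible_of_factor g hg)
        (UniqueFactorizationMonoid.dvd_of_mem_factors hg))
  intro g hg hgf
  obtain ⟨m, hm⟩ := h g hg
  have h1 : g.natDegree < p := lt_of_le_of_lt (Polynomial.natDegree_le_of_dvd hgf hf) hd
  have h2 : m = 0 := by
    by_contra h3
    have h4 : p ≤ p ^ m := Nat.le_self_pow h3 p
    omega
  rw [h2, pow_zero] at hm
  exact (Polynomial.degree_eq_iff_natDegree_eq_of_pos one_pos).2 hm

end Pool.Agent.MSX
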