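import Pool.Agent.MSX.Orb
import Pool.Agent.MSX.PSp

/-! # The characteristic polynomial of a noncentral element is irreducible

PROOF.

* `irr_charpoly`.  `χ` from `cn_charpoly` (`bp_det`); `aeval γ χ = 0` by Cayley-Hamilton (`Matrix.aeval_self_charpoly`, `Polynomial.aeval_map_algebraMap`).  Let `f` be an
  irreducible factor of `χ` in `F[x]` with `f(γ) = 0`: it exists because `χ` is a product of irreducible polynomials `f_i` and the product of the
  elements `f_i(γ)` of `D.Cn (D.Bp n)` (`cn_aeval`) is `0`, while nonzero elements of `D.Cn (D.Bp n)` have nonzero determinant (`cn_unit`).  `natDegree f = p^m ≤ p` (`PS`); if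
  `m = 0` then `f = a X + c`, and `γ = - c / a` is in `F`, excluded; so `natDegree f = p = natDegree χ`, `χ = unit * f` is irreducible.
-/

set_option autoImplicit false

namespace Pool.Agent.MSX

universe u

variable {p : ℕ} {F L : Type u} [Field F] [Field L] [Algebra F L] (D : Dat p F L)

namespace Dat

private theorem irr_factor (hD : D.Div) {n : ℤ} (hn : ¬ (p : ℤ) ∣ n)
    {γ : Matrix (Fin p) (Fin p) L} (hγ : γ ∈ D.Cn (D.Bp n)) (f : Polynomial F) (hf : f ≠ 0)
    (h : Polynomial.aeval γ f = 0) :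
    ∃ g : Polynomial F, Irreducible g ∧ g ∣ f ∧ Polynomial.aeval γ g = 0 := by
  have hne : Nonempty (Fin p) := ⟨⟨0, D.hp.pos⟩⟩
  have hnt : Nontrivial (Matrix (Fin p) (Fin p) L) := inferInstance
  induction f using WfDvdMonoid.induction_on_irreducible with
  | zero => exact absurd rfl hf
  | unit u hu =>
    have h1 : IsUnit (Polynomial.aeval γ u) := hu.map (Polynomial.aeval γ)
    rw [h] at h1
    exact absurd h1 not_isUnit_zero
  | mul a i ha hi ih =>
    by_cases h0 : Polynomial.aeval γ i = 0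
    · exact ⟨i, hi, dvd_mul_right i a, h0⟩
    · have h1 : (Polynomial.aeval γ i).det ≠ 0 := D.cn_unit hD hn (D.cn_aeval hγ i) h0
      have h2 : Polynomial.aeval γ a = 0 := by
        rw [map_mul] at h
        have h3 := congrArg (fun Y => (Polynomial.aeval γ i)⁻¹ * Y) h
        simp only [mul_zero] at h3
        rwa [← mul_assoc, Matrix.nonsing_inv_mul _ (isUnit_iff_ne_zero.2 h1), one_mul] at h3
      obtain ⟨g, hg1, hg2, hg3⟩ := ih ha h2
      exact ⟨g, hg1, hg2.trans (dvd_mul_left a i), hg3⟩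

theorem irr_charpoly (hD : D.Div) {n : ℤ} (hn : ¬ (p : ℤ) ∣ n) (hF : PS p F)
    {γ : Matrix (Fin p) (Fin p) L} (hγ : γ ∈ D.Cn (D.Bp n))
    (h : ∀ c : F, γ ≠ algebraMap F (Matrix (Fin p) (Fin p) L) c) :
    ∃ χ : Polynomial F, χ.Monic ∧ Irreducible χ ∧ χ.natDegree = p ∧ Polynomial.aeval γ χ = 0 ∧
      γ.charpoly = χ.map (algebraMap F L) := by
  obtain ⟨χ, hχ1, hχ2, hχ3⟩ := D.cn_charpoly (D.bp_det n) hγ
  rw [Fintype.card_fin] at hχ2
  have hz : Polynomial.aeval γ χ = 0 := by
    rw [← Polynomial.aeval_map_algebraMap L, hχ3]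
    exact Matrix.aeval_self_charpoly γ
  obtain ⟨f, hf1, hf2, hf3⟩ := D.irr_factor hD hn hγ χ hχ1.ne_zero hz
  have hle : f.natDegree ≤ p := by
    rw [← hχ2]
    exact Polynomial.natDegree_le_of_dvd hf2 hχ1.ne_zero
  have hdeg : f.natDegree = p := by
    obtain ⟨m, hm⟩ := hF f hf1
    rcases Nat.eq_zero_or_pos m with h0 | h0
    · exfalso
      rw [h0, pow_zero] at hm
      obtain ⟨a, ha, b, hab⟩ := Polynomial.natDegree_eq_one.1 hm
      rw [← hab] at hf3
      simp only [map_add, map_mul, Polynomial.aeval_C, Polynomial.aeval_X] at hf3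
      apply h (-(a⁻¹ * b))
      have h1 := congrArg (fun Y => algebraMap F (Matrix (Fin p) (Fin p) L) a⁻¹ * Y) hf3
      simp only [mul_zero, mul_add] at h1
      rw [← mul_assoc, ← map_mul, inv_mul_cancel₀ ha, map_one, one_mul, ← map_mul] at h1
      rw [map_neg]
      exact eq_neg_of_add_eq_zero_left h1
    · refine le_antisymm hle ?_
      rw [hm]
      exact Nat.le_self_pow (by omega) p
  obtain ⟨g, hg⟩ := hf2
  have hg0 : g ≠ 0 := by
    rintro rfl
    exact hχ1.ne_zero (by rw [hg, mul_zero])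
  have hgd : g.natDegree = 0 := by
    have h1 := congrArg Polynomial.natDegree hg
    rw [Polynomial.natDegree_mul hf1.ne_zero hg0, hχ2, hdeg] at h1
    omega
  have hgu : IsUnit g := by
    rw [Polynomial.isUnit_iff]
    refine ⟨g.coeff 0, isUnit_iff_ne_zero.2 ?_, (Polynomial.eq_C_of_natDegree_eq_zero hgd).symm⟩
    intro h1
    apply hg0
    rw [Polynomial.eq_C_of_natDegree_eq_zero hgd, h1, map_zero]
  refine ⟨χ, hχ1, ?_, hχ2, hz, hχ3.symm⟩
  rw [hg]
  exact (irreducible_mul_isUnit hgu).2 hf1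

end Dat

end Pool.Agent.MSX
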