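import Pool.Agent.MSX.SkM
import Pool.Agent.MSX.Cyc
import Pool.Agent.MSX.Irr

/-! # Elements of reduced norm one are commutators (Wang, `p`-special fields)

PROOFS.

* `wang_scalar`.  `γ = c`, `c^p = det γ = 1`.  If `c = 1`: `g = w = 1`.  Otherwise `N c = ∏_{i<p} s^i(c) = c^p = 1`, so by `hil90` (`of_prime`, `D.s_ne`) there is `x ≠ 0` in `L` with
  `c * s x = x`, i.e. `s⁻¹ x = c * x` (apply `s⁻¹` to `x = c * s x`: `s⁻¹ x = c * x`).  Let `w = diag (s^i x)` (`diag_mem_cn`, determinant `∏ s^i x ≠ 0`) and `g = Bp 1` (`bp_mem_cn`, `bp_det`).  By `bp_diag`: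
  `g * w = diag (s^i (s⁻¹ x)) * g = diag (s^i (c x)) * g = c • (w * g)` (`s^i c = c`).  So `c = g w g⁻¹ w⁻¹`.

* `wang`.  If `γ` is in `F`: `wang_scalar`.  Otherwise let `χ` be as in `irr_charpoly` (`n = 1`).  `χ.coeff 0 = (-1)^p`: `det γ = (-1)^p * charpoly.coeff 0`
  (`Matrix.det_eq_sign_charpoly_coeff`) and `algebraMap` is injective.  `exists_conj` gives `f, P`.  Put `δ = aeval γ f` (in `D.Cn`, `cn_aeval`).  Then `aeval δ χ = aeval γ (χ.comp f) = 0`
  (`Polynomial.aeval_comp`), `w := aeval γ P ≠ 0` (if it were `0` then, `χ` being irreducible and `χ ∤ P`, `a χ + c P = 1` would give `1 = 0`), and with `w' := aeval δ P = aeval γ (P.comp f)`: `γ * w' = w`.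
  `skolem` gives `g` with `g γ = δ g`, so `g w = w' g` (polynomials in `γ`).  `w'` is invertible as well (`det γ = 1`), so
  `γ = w * w'⁻¹ = w * g * w⁻¹ * g⁻¹`.  (The statement holds with `w, g` in the roles of `g, w`.)

* `wang_an`: `mem_an_rx`, `rx_mul`, `rx_det`, `rx_inj`, `rx_surj` for `n = 1` (`¬ (p : ℤ) ∣ 1`), `rx (X⁻¹) = (rx X)⁻¹`.
-/

set_option autoImplicit false

namespace Pool.Agent.MSX

universe u

variable {p : ℕ} {F L : Type u} [Field F] [Field L] [Algebra F L] (D : Dat p F L)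

namespace Dat

private theorem wang_comm {ι : Type*} [Fintype ι] [DecidableEq ι] {γ g w : Matrix ι ι L}
    (hg : g.det ≠ 0) (hw : w.det ≠ 0) : γ * (w * g) = g * w ↔ γ = g * w * g⁻¹ * w⁻¹ := by
  have hg' : IsUnit g.det := isUnit_iff_ne_zero.2 hg
  have hw' : IsUnit w.det := isUnit_iff_ne_zero.2 hw
  constructor
  · intro h
    rw [← h, Matrix.mul_assoc γ, Matrix.mul_assoc w, Matrix.mul_nonsing_inv _ hg',
      Matrix.mul_one, Matrix.mul_assoc, Matrix.mul_nonsing_inv _ hw', Matrix.mul_one]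
  · intro h
    rw [h]
    calc g * w * g⁻¹ * w⁻¹ * (w * g) = g * w * g⁻¹ * (w⁻¹ * w) * g := by
          simp only [Matrix.mul_assoc]
      _ = g * w * (g⁻¹ * g) := by
          rw [Matrix.nonsing_inv_mul _ hw', Matrix.mul_one, Matrix.mul_assoc]
      _ = g * w := by rw [Matrix.nonsing_inv_mul _ hg', Matrix.mul_one]

include D in
private theorem wang_n1 : ¬ (p : ℤ) ∣ 1 := by
  intro h
  have h1 : p ∣ 1 := by exact_mod_cast h
  have := D.hp.one_lt
  have := Nat.le_of_dvd one_pos h1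
  omega

theorem wang_scalar {c : F} (h : (algebraMap F (Matrix (Fin p) (Fin p) L) c).det = 1) :
    ∃ g w : Matrix (Fin p) (Fin p) L, g ∈ D.Cn (D.Bp 1) ∧ w ∈ D.Cn (D.Bp 1) ∧ g.det ≠ 0 ∧ w.det ≠ 0 ∧
      algebraMap F (Matrix (Fin p) (Fin p) L) c = g * w * g⁻¹ * w⁻¹ := by
  obtain ⟨z, hz⟩ : ∃ z, z = algebraMap F L c := ⟨_, rfl⟩
  have hA : algebraMap F (Matrix (Fin p) (Fin p) L) c = Matrix.diagonal (fun _ => z) := by
    rw [Matrix.algebraMap_eq_diagonal, hz]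
    rfl
  have hzp : z ^ p = 1 := by
    rw [hA, Matrix.det_diagonal, Finset.prod_const, Finset.card_univ, Fintype.card_fin] at h
    exact h
  have hsz : D.s z = z := by rw [hz]; exact D.s.commutes c
  have hit : ∀ i : ℕ, (⇑D.s.toRingEquiv)^[i] z = z := fun i =>
    Function.iterate_fixed hsz i
  have hs : ∀ x, (⇑D.s.toRingEquiv)^[p] x = x := fun x => by
    have h1 := D.s_pow x
    rw [D.std_pow] at h1
    exact h1
  obtain ⟨x, hx0, hx⟩ := hil90 D.s.toRingEquiv p D.hp.pos hs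
    (of_prime D.s.toRingEquiv p D.hp hs (fun h1 => D.s_ne (by
      ext y
      exact congrArg (fun f : L ≃+* L => f y) h1))) z (by
        rw [Finset.prod_congr rfl (fun i _ => hit i), Finset.prod_const, Finset.card_range, hzp])
  have hx' : z * D.s x = x := hx
  have hsx : D.s.symm x = z * x := by
    apply D.s.injective
    rw [AlgEquiv.apply_symm_apply, map_mul, hsz, hx']
  have hpz : ∀ i : ℕ, (D.s ^ i) z = z := fun i => by
    rw [D.std_pow]
    exact hit i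
  have hW : (Matrix.diagonal (fun i : Fin p => (D.s ^ i.val) x)).det ≠ 0 := by
    rw [Matrix.det_diagonal, Finset.prod_ne_zero_iff]
    intro i _
    exact (map_ne_zero (D.s ^ i.val)).2 hx0
  refine ⟨D.Bp 1, Matrix.diagonal (fun i : Fin p => (D.s ^ i.val) x), D.bp_mem_cn 1,
    D.diag_mem_cn 1 x, D.bp_det 1, hW, (wang_comm (D.bp_det 1) hW).1 ?_⟩
  rw [D.bp_diag 1 x, hsx, hA, ← Matrix.mul_assoc, Matrix.diagonal_mul_diagonal]
  congr 2
  funext i
  rw [map_mul, hpz]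

private theorem wang_aeval {γ δ g : Matrix (Fin p) (Fin p) L} (h : g * γ = δ * g)
    (P : Polynomial F) : g * Polynomial.aeval γ P = Polynomial.aeval δ P * g := by
  rw [Polynomial.aeval_eq_sum_range, Polynomial.aeval_eq_sum_range, Finset.mul_sum,
    Finset.sum_mul]
  refine Finset.sum_congr rfl fun k _ => ?_
  have h1 : SemiconjBy g γ δ := h
  rw [mul_smul_comm, smul_mul_assoc, (h1.pow_right k).eq]

theorem wang (hD : D.Div) (hF : PS p F) (hpF : (p : F) ≠ 0) {γ : Matrix (Fin p) (Fin p) L}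
    (hγ : γ ∈ D.Cn (D.Bp 1)) (h : γ.det = 1) :
    ∃ g w : Matrix (Fin p) (Fin p) L, g ∈ D.Cn (D.Bp 1) ∧ w ∈ D.Cn (D.Bp 1) ∧ g.det ≠ 0 ∧ w.det ≠ 0 ∧
      γ = g * w * g⁻¹ * w⁻¹ := by
  by_cases hc : ∃ c : F, γ = algebraMap F (Matrix (Fin p) (Fin p) L) c
  · obtain ⟨c, rfl⟩ := hc
    exact D.wang_scalar h
  · push Not at hc
    have hn := D.wang_n1
    obtain ⟨χ, hm, hi, hd, h0, hcp⟩ := D.irr_charpoly hD hn hF hγ hc
    have hc0 : χ.coeff 0 = (-1) ^ p := by
      have h1 := Matrix.det_eq_sign_charpoly_coeff γ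
      rw [h, hcp, Polynomial.coeff_map, Fintype.card_fin] at h1
      apply (algebraMap F L).injective
      rw [map_pow, map_neg, map_one]
      have h2 : ((-1 : L) ^ p) * (-1) ^ p = 1 := by
        rw [← mul_pow, neg_mul_neg, one_mul, one_pow]
      calc algebraMap F L (χ.coeff 0) = ((-1) ^ p * (-1) ^ p) * algebraMap F L (χ.coeff 0) := by
            rw [h2, one_mul]
        _ = (-1) ^ p * ((-1) ^ p * algebraMap F L (χ.coeff 0)) := by ring
        _ = (-1) ^ p := by rw [← h1, mul_one]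
    obtain ⟨f, P, k1, k2, k3⟩ := exists_conj D.hp hF hpF hm hi hd hc0
    obtain ⟨δ, hδ⟩ : ∃ δ, δ = Polynomial.aeval γ f := ⟨_, rfl⟩
    have hδC : δ ∈ D.Cn (D.Bp 1) := by rw [hδ]; exact D.cn_aeval hγ f
    have hdvd : ∀ T : Polynomial F, χ ∣ T → Polynomial.aeval γ T = 0 := by
      rintro _ ⟨T, rfl⟩
      rw [map_mul, h0, zero_mul]
    have hδ0 : Polynomial.aeval δ χ = 0 := by
      rw [hδ, ← Polynomial.aeval_comp]
      exact hdvd _ k1
    obtain ⟨g, hgC, hgd, hg⟩ := D.skolem hD hn hγ hδC hm hi hd h0 hδ0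
    have hw0 : Polynomial.aeval γ P ≠ 0 := by
      intro hw
      have hcop : IsCoprime χ P := (hi.coprime_iff_not_dvd).2 k2
      obtain ⟨a, b, hab⟩ := hcop
      have h2 := congrArg (Polynomial.aeval γ) hab
      rw [map_add, map_mul, map_mul, h0, hw, mul_zero, mul_zero, add_zero, map_one] at h2
      have h3 : (1 : Matrix (Fin p) (Fin p) L).det = 0 := by
        rw [← h2]
        have : Nonempty (Fin p) := ⟨⟨0, D.hp.pos⟩⟩
        exact Matrix.det_zero
      rw [Matrix.det_one] at h3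
      exact one_ne_zero h3
    have hwd := D.cn_unit hD hn (D.cn_aeval hγ P) hw0
    refine ⟨Polynomial.aeval γ P, g, D.cn_aeval hγ P, hgC, hwd, hgd, (wang_comm hwd hgd).1 ?_⟩
    have h4 : γ * Polynomial.aeval δ P = Polynomial.aeval γ P := by
      have h5 := hdvd _ k3
      rw [map_sub, map_mul, Polynomial.aeval_X, Polynomial.aeval_comp, ← hδ, sub_eq_zero] at h5
      exact h5
    rw [wang_aeval hg P, ← Matrix.mul_assoc, h4]

theorem wang_an (hD : D.Div) (hF : PS p F) (hpF : (p : F) ≠ 0)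
    {γ : Matrix (Fin (dm p 1)) (Fin (dm p 1)) L} (hγ : γ ∈ D.An 1) (h : γ.det = 1) :
    ∃ g w : Matrix (Fin (dm p 1)) (Fin (dm p 1)) L, g ∈ D.An 1 ∧ w ∈ D.An 1 ∧ g.det ≠ 0 ∧ w.det ≠ 0 ∧
      γ = g * w * g⁻¹ * w⁻¹ := by
  have hn := D.wang_n1
  obtain ⟨g, w, hg, hw, hgd, hwd, e⟩ := D.wang hD hF hpF ((D.mem_an_rx hn).1 hγ)
    (by rw [rx_det]; exact h)
  obtain ⟨G, rfl⟩ := rx_surj hn g
  obtain ⟨W, rfl⟩ := rx_surj hn w
  have e1 := (wang_comm hgd hwd).2 e
  rw [rx_det] at hgd hwd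
  refine ⟨G, W, (D.mem_an_rx hn).2 hg, (D.mem_an_rx hn).2 hw, hgd, hwd,
    (wang_comm hgd hwd).1 (rx_inj hn ?_)⟩
  rw [rx_mul, rx_mul, rx_mul]
  exact e1

end Dat

end Pool.Agent.MSX
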