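import Pool.Agent.MSX.Cst

/-! # Elements algebraic over the constants are constant

PROOF.  Let `x ∈ Q p L` be a root of a nonzero polynomial `f` over `L`.  `x` is integral over the factorial ring `S p L`, so
`x = g ∈ S p L`, and over an algebraic closure `f(g) = lc ∏ (g - r) = 0`, so `g = r` for a root `r`.
-/

set_option autoImplicit false

namespace Pool.Agent.MSX

open MvPolynomial

universe u

/-- A polynomial algebraic over the constants is constant. -/
theorem alg_pol {p : ℕ} {L : Type u} [Field L] (g : S p L) (f : Polynomial L) (hf : f ≠ 0)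
    (h : Polynomial.eval₂ (C : L →+* S p L) g f = 0) : ∃ c : L, g = C c := by
  classical
  obtain ⟨i, hi⟩ : ∃ i : L →+* AlgebraicClosure L, i = algebraMap L (AlgebraicClosure L) := ⟨_, rfl⟩
  obtain ⟨g', hg'⟩ : ∃ g' : MvPolynomial (Fin p) (AlgebraicClosure L), g' = MvPolynomial.map i g :=
    ⟨_, rfl⟩
  have hf' : f.map i ≠ 0 := (Polynomial.map_ne_zero_iff i.injective).2 hf
  have h1 : Polynomial.eval₂ (C : AlgebraicClosure L →+* MvPolynomial (Fin p) (AlgebraicClosure L))
      g' (f.map i) = 0 := by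
    have h2 := congrArg (MvPolynomial.map i) h
    rw [Polynomial.hom_eval₂, map_zero] at h2
    rw [Polynomial.eval₂_map, hg', ← h2]
    congr 1
    refine RingHom.ext fun x => ?_
    rw [RingHom.comp_apply, RingHom.comp_apply, MvPolynomial.map_C]
  have hs : (f.map i).Splits := IsAlgClosed.splits _
  rw [hs.eq_prod_roots, Polynomial.eval₂_mul, Polynomial.eval₂_C, mul_eq_zero] at h1
  rcases h1 with h1 | h1
  · exfalso
    rw [map_eq_zero_iff _ (C_injective _ _), Polynomial.leadingCoeff_eq_zero] at h1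
    exact hf' h1
  · rw [Polynomial.eval₂_multiset_prod, Multiset.prod_eq_zero_iff] at h1
    rw [Multiset.mem_map] at h1
    obtain ⟨q, hq, hq2⟩ := h1
    obtain ⟨r, -, rfl⟩ := Multiset.mem_map.1 hq
    rw [Polynomial.eval₂_sub, Polynomial.eval₂_X, Polynomial.eval₂_C, sub_eq_zero] at hq2
    refine ⟨g.coeff 0, ?_⟩
    ext m
    rw [coeff_C]
    split_ifs with hm
    · rw [hm]
    · apply i.injective
      rw [← coeff_map, ← hg', hq2, coeff_C, if_neg hm, map_zero]

theorem alg_const {p : ℕ} {L : Type u} [Field L] (x : Q p L) (f : Polynomial L) (hf : f ≠ 0)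
    (h : Polynomial.eval₂ (cQ p L) x f = 0) : ∃ c : L, x = cQ p L c := by
  have hint : IsIntegral (S p L) x := by
    refine ⟨(f * Polynomial.C f.leadingCoeff⁻¹).map C,
      (Polynomial.monic_mul_leadingCoeff_inv hf).map _, ?_⟩
    rw [Polynomial.eval₂_map]
    change Polynomial.eval₂ (cQ p L) x _ = 0
    rw [Polynomial.eval₂_mul, h, zero_mul]
  obtain ⟨g, hg⟩ := IsIntegrallyClosed.isIntegral_iff.1 hint
  have h2 : Polynomial.eval₂ (C : L →+* S p L) g f = 0 := by
    apply Q_inj
    rw [Polynomial.hom_eval₂, hg, map_zero]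
    exact h
  obtain ⟨c, hc⟩ := alg_pol g f hf h2
  exact ⟨c, by rw [← hg, hc, cQ_apply]⟩

variable {p : ℕ} {F L : Type u} [Field F] [Field L] [Algebra F L] (D : Dat p F L)

/-- An element of the function field algebraic over `F` is a constant of `F`. -/
theorem Dat.alg_K (x : D.K) (f : Polynomial F) (hf : f ≠ 0) (h : Polynomial.eval₂ D.cK x f = 0) :
    ∃ c : F, x = D.cK c := by
  have h1 : Polynomial.eval₂ (cQ p L) (x : Q p L) (f.map (algebraMap F L)) = 0 := by
    have h2 := congrArg D.K.subtype h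
    rw [Polynomial.hom_eval₂, map_zero] at h2
    rw [Polynomial.eval₂_map]
    exact h2
  obtain ⟨c, hc⟩ := alg_const _ _ ((Polynomial.map_ne_zero_iff (algebraMap F L).injective).2 hf) h1
  have h3 := x.2.2
  rw [hc, D.sigQ_cQ] at h3
  have h4 : D.s c = c := (cQ p L).injective h3
  obtain ⟨d, rfl⟩ := D.fix c h4
  exact ⟨d, Subtype.ext hc⟩

end Pool.Agent.MSX
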