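import Pool.Agent.MSX.An

/-! # The operators of the standard objects

PROOFS.

* `bp_iter`: all entries of `Bp n` are fixed by `s` (`s_bL`, `map_zpow₀`), so `itM s (Bp n) k = (Bp n)^k`; by induction on
  `k ≤ p` its entry `(i, j)` is `1` if `i = j + k`, `b^n` if `i + p = j + k`, and `0` otherwise (`Bp n` maps `e_j` to
  `e_{j+1}` and `e_{p-1}` to `b^n e_0`); for `k = p` only `i + p = j + p` is possible.  (Or: compute
  `(D.tau (Bp n))^[k] e_j` with `tau_bp_single`, `tau_bp_last` and use `tau_iter`.)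

* `mem_an_rx`: `rx` is injective and multiplicative, `rx (X.map s) = (rx X).map s`, `bm_rx`.

* `bm_iter`: for `p ∣ n` the matrix is `1 × 1` with entry `b^(n/p)`, fixed by `s`, so the iterated product is
  `b^((n/p) p) = b^n`; for `p ∤ n` from `bp_iter` and `bm_rx` (`rx (itM s B k) = itM s (rx B) k` by induction, `rx_inj`).

* `bp_det`: `det (itM s B p) = ∏_{i<p} s^i (det B)`, so `det B = 0` contradicts `bp_iter` (the determinant of `b^n • 1` is
  not zero).

* `tau_bp_pow`, `tau_bm_pow`: `tau_iter`, `bp_iter`, `bm_iter` and `D.s_pow`.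

* `tau_bp_single`, `tau_bp_last`: the column `j` of `Bp n`.

* `diag_mem_cn`: entries: `(X * Bp) i j = s^i(l) Bp i j`, `(Bp * s(X)) i j = Bp i j * s^(j+1)(l)`; these agree if `i = j + 1`
  and if `i = 0`, `j + 1 = p` (`D.s_pow`), and `Bp i j = 0` in all other cases.  `bp_mem_cn`: `s` fixes `Bp n` entrywise.
  `bp_diag`: `Bp * diag (s^i l) = diag (s^i (s⁻¹ l)) * Bp` entrywise.
-/

set_option autoImplicit false

namespace Pool.Agent.MSX

universe u v

variable {p : ℕ} {F L : Type u} [Field F] [Field L] [Algebra F L] (D : Dat p F L)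

namespace Dat

theorem mem_an_rx {n : ℤ} (h : ¬ (p : ℤ) ∣ n) {X : Matrix (Fin (dm p n)) (Fin (dm p n)) L} :
    X ∈ D.An n ↔ rx h X ∈ D.Cn (D.Bp n) := by
  have e : rx h (X.map D.s) = (rx h X).map D.s := rfl
  constructor
  · intro hX
    have h1 : X * D.Bm n = D.Bm n * X.map D.s := hX
    show rx h X * D.Bp n = D.Bp n * (rx h X).map D.s
    rw [← D.bm_rx h, ← rx_mul, h1, rx_mul, e]
  · intro hX
    have h1 : rx h X * D.Bp n = D.Bp n * (rx h X).map D.s := hX
    show X * D.Bm n = D.Bm n * X.map D.s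
    apply rx_inj h
    rw [rx_mul, rx_mul, D.bm_rx h, h1, e]

private theorem anb_bp (n : ℤ) (i j : Fin p) : D.Bp n i j = if j.val + 1 = i.val then 1
  else if i.val = 0 ∧ j.val + 1 = p then D.bL ^ n else 0 := rfl

private theorem anb_bp1 (n : ℤ) {i j : Fin p} (h : j.val + 1 = i.val) : D.Bp n i j = 1 := by
  rw [anb_bp, if_pos h]

private theorem anb_bp2 (n : ℤ) {i j : Fin p} (hi : i.val = 0) (hj : j.val + 1 = p) :
    D.Bp n i j = D.bL ^ n := by
  rw [anb_bp, if_neg (by omega), if_pos ⟨hi, hj⟩]

private theorem anb_sb (n : ℤ) : D.s (D.bL ^ n) = D.bL ^ n := by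
  rw [map_zpow₀, D.s_bL]

private theorem anb_itM (n : ℤ) (k : ℕ) (hk : k ≤ p) (i j : Fin p) :
    itM D.s.toRingEquiv (D.Bp n) k i j = if i.val = j.val + k then 1
      else if i.val + p = j.val + k then D.bL ^ n else 0 := by
  induction k generalizing i j with
  | zero =>
    show (1 : Matrix (Fin p) (Fin p) L) i j = _
    by_cases hij : i = j
    · subst hij
      simp
    · have h1 : ¬ i.val = j.val + 0 := fun h => hij (Fin.ext (by omega))
      have h2 : ¬ i.val + p = j.val + 0 := by
        have := j.isLt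
        omega
      rw [if_neg h1, if_neg h2, Matrix.one_apply_ne hij]
  | succ k ih =>
    have hp := D.hp.two_le
    show (D.Bp n * (itM D.s.toRingEquiv (D.Bp n) k).map D.s.toRingEquiv) i j = _
    rw [Matrix.mul_apply]
    rcases Nat.eq_zero_or_pos i.val with hi | hi
    · have hlt : p - 1 < p := by omega
      rw [Finset.sum_eq_single (⟨p - 1, hlt⟩ : Fin p)]
      · rw [Matrix.map_apply, ih (by omega), D.anb_bp2 n hi (by
          show p - 1 + 1 = p
          omega)]
        have hj := j.isLt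
        show D.bL ^ n * D.s (if p - 1 = j.val + k then 1
          else if p - 1 + p = j.val + k then D.bL ^ n else 0) = _
        by_cases h3 : p - 1 = j.val + k
        · rw [if_pos h3, if_neg (by omega), if_pos (by omega), map_one, mul_one]
        · rw [if_neg h3, if_neg (by omega), if_neg (by omega), if_neg (by omega), map_zero,
            mul_zero]
      · intro l _ hl
        rw [anb_bp, if_neg (by omega), if_neg (by
          rintro ⟨-, h2⟩
          apply hl
          apply Fin.ext
          show l.val = p - 1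
          omega), zero_mul]
      · intro hn
        exact absurd (Finset.mem_univ _) hn
    · have hlt : i.val - 1 < p := by
        have := i.isLt
        omega
      rw [Finset.sum_eq_single (⟨i.val - 1, hlt⟩ : Fin p)]
      · rw [Matrix.map_apply, ih (by omega), D.anb_bp1 n (by
          show i.val - 1 + 1 = i.val
          omega)]
        show 1 * D.s (if i.val - 1 = j.val + k then 1
          else if i.val - 1 + p = j.val + k then D.bL ^ n else 0) = _
        by_cases h3 : i.val - 1 = j.val + k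
        · rw [if_pos h3, if_pos (by omega), map_one, mul_one]
        · rw [if_neg h3, if_neg (by omega : ¬ i.val = j.val + (k + 1))]
          by_cases h4 : i.val - 1 + p = j.val + k
          · rw [if_pos h4, if_pos (by omega), anb_sb, one_mul]
          · rw [if_neg h4, if_neg (by omega), map_zero, mul_zero]
      · intro l _ hl
        rw [anb_bp, if_neg (by
          intro h
          apply hl
          apply Fin.ext
          show l.val = i.val - 1
          omega), if_neg (by omega), zero_mul]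
      · intro hn
        exact absurd (Finset.mem_univ _) hn

theorem bp_iter (n : ℤ) : itM D.s.toRingEquiv (D.Bp n) p = (D.bL ^ n) • 1 := by
  ext i j
  rw [D.anb_itM n p le_rfl i j, Matrix.smul_apply, smul_eq_mul]
  have hi := i.isLt
  rw [if_neg (by omega)]
  by_cases hij : i = j
  · subst hij
    rw [if_pos rfl, Matrix.one_apply_eq, mul_one]
  · rw [if_neg (by
      intro h
      apply hij
      apply Fin.ext
      omega), Matrix.one_apply_ne hij, mul_zero]

private theorem anb_rx {n : ℤ} (h : ¬ (p : ℤ) ∣ n) (k : ℕ)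
    (B : Matrix (Fin (dm p n)) (Fin (dm p n)) L) :
    rx h (itM D.s.toRingEquiv B k) = itM D.s.toRingEquiv (rx h B) k := by
  induction k with
  | zero =>
    show rx h 1 = 1
    exact Matrix.submatrix_one _ (Fin.cast_injective _)
  | succ k ih =>
    show rx h (B * (itM D.s.toRingEquiv B k).map D.s.toRingEquiv) =
      rx h B * (itM D.s.toRingEquiv (rx h B) k).map D.s.toRingEquiv
    rw [rx_mul, ← ih]
    rfl

theorem bm_iter (n : ℤ) : itM D.s.toRingEquiv (D.Bm n) p = (D.bL ^ n) • 1 := by
  by_cases h : (p : ℤ) ∣ n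
  · have hsub : Subsingleton (Fin (dm p n)) := by
      rw [dm, if_pos h]
      infer_instance
    have key : ∀ (k : ℕ) (i j : Fin (dm p n)),
        itM D.s.toRingEquiv (D.Bm n) k i j = (D.bL ^ (n / p)) ^ k := by
      intro k
      induction k with
      | zero =>
        intro i j
        show (1 : Matrix (Fin (dm p n)) (Fin (dm p n)) L) i j = _
        rw [Subsingleton.elim i j, Matrix.one_apply_eq, pow_zero]
      | succ k ih =>
        intro i j
        show (D.Bm n * (itM D.s.toRingEquiv (D.Bm n) k).map D.s.toRingEquiv) i j = _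
        rw [Matrix.mul_apply, Fintype.sum_subsingleton _ i, Matrix.map_apply, ih]
        show D.Bm n i i * D.s _ = _
        rw [map_pow, D.anb_sb, Bm, if_pos h, pow_succ, mul_comm]
    ext i j
    rw [key, Matrix.smul_apply, Subsingleton.elim i j, Matrix.one_apply_eq, smul_eq_mul, mul_one,
      ← zpow_natCast, ← zpow_mul, Int.ediv_mul_cancel h]
  · apply rx_inj h
    rw [D.anb_rx h, D.bm_rx h, D.bp_iter]
    ext i j
    show _ = (D.bL ^ n) • ((1 : Matrix (Fin (dm p n)) (Fin (dm p n)) L)
      (Fin.cast (dm_of h).symm i) (Fin.cast (dm_of h).symm j))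
    rw [Matrix.smul_apply]
    congr 1
    exact congrFun (congrFun (Matrix.submatrix_one (α := L) (Fin.cast (dm_of h).symm)
      (Fin.cast_injective _)).symm i) j

theorem bp_det (n : ℤ) : (D.Bp n).det ≠ 0 := by
  intro h0
  have h1 := congrArg Matrix.det (D.bp_iter n)
  have hp : p = (p - 1) + 1 := (Nat.sub_add_cancel D.hp.one_le).symm
  have h2 : (itM D.s.toRingEquiv (D.Bp n) p).det = 0 := by
    have h3 : ∀ k, (itM D.s.toRingEquiv (D.Bp n) (k + 1)).det = 0 := by
      intro k
      show (D.Bp n * (itM D.s.toRingEquiv (D.Bp n) k).map D.s.toRingEquiv).det = 0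
      rw [Matrix.det_mul, h0, zero_mul]
    have h4 : ∀ m, m = (p - 1) + 1 → (itM D.s.toRingEquiv (D.Bp n) m).det = 0 := by
      rintro m rfl
      exact h3 _
    exact h4 p hp
  rw [h2, Matrix.det_smul, Matrix.det_one, mul_one] at h1
  exact pow_ne_zero _ (zpow_ne_zero _ D.bL_ne) h1.symm

private theorem anb_pow {ι : Type v} [Fintype ι] [DecidableEq ι] (B : Matrix ι ι L) (n : ℤ)
    (h : itM D.s.toRingEquiv B p = (D.bL ^ n) • 1) (v : ι → L) :
    (D.tau B)^[p] v = D.bL ^ n • v := by
  rw [D.tau_iter, h, Matrix.smul_mulVec, Matrix.one_mulVec]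
  congr 1
  funext i
  exact D.s_pow _

theorem tau_bp_pow (n : ℤ) (v : Fin p → L) : (D.tau (D.Bp n))^[p] v = D.bL ^ n • v :=
  D.anb_pow _ n (D.bp_iter n) v

theorem tau_bm_pow (n : ℤ) (v : Fin (dm p n) → L) : (D.tau (D.Bm n))^[p] v = D.bL ^ n • v :=
  D.anb_pow _ n (D.bm_iter n) v

private theorem anb_single (n : ℤ) (j i : Fin p) :
    D.tau (D.Bp n) (Pi.single j 1) i = D.Bp n i j := by
  rw [tau_apply]
  have e : (fun i : Fin p => D.s ((Pi.single j (1 : L) : Fin p → L) i)) = Pi.single j 1 := by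
    funext i
    by_cases h : i = j
    · subst h
      simp
    · simp [Pi.single_eq_of_ne h]
  rw [e, Matrix.mulVec_single_one]
  rfl

/-- The operator of `Bp n` on the standard basis. -/
theorem tau_bp_single {n : ℤ} (j : Fin p) (h : j.val + 1 < p) :
    D.tau (D.Bp n) (Pi.single j 1) = Pi.single ⟨j.val + 1, h⟩ 1 := by
  funext i
  rw [D.anb_single, anb_bp]
  by_cases hi : j.val + 1 = i.val
  · have e : i = ⟨j.val + 1, h⟩ := Fin.ext hi.symm
    rw [if_pos hi, e, Pi.single_eq_same]
  · have e : i ≠ ⟨j.val + 1, h⟩ := by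
      rintro rfl
      exact hi rfl
    rw [if_neg hi, if_neg (by omega), Pi.single_eq_of_ne e]

theorem tau_bp_last {n : ℤ} (j : Fin p) (h : j.val + 1 = p) :
    D.tau (D.Bp n) (Pi.single j 1) = D.bL ^ n • Pi.single ⟨0, D.hp.pos⟩ 1 := by
  funext i
  rw [D.anb_single, anb_bp, if_neg (by
    have := i.isLt
    omega), Pi.smul_apply, smul_eq_mul]
  by_cases hi : i.val = 0
  · have e : i = ⟨0, D.hp.pos⟩ := Fin.ext hi
    rw [if_pos ⟨hi, h⟩, e, Pi.single_eq_same, mul_one]
  · have e : i ≠ ⟨0, D.hp.pos⟩ := by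
      rintro rfl
      exact hi rfl
    rw [if_neg (fun h2 => hi h2.1), Pi.single_eq_of_ne e, mul_zero]

private theorem anb_diag (n : ℤ) (d e : Fin p → L)
    (h1 : ∀ i j : Fin p, j.val + 1 = i.val → d i = e j)
    (h2 : ∀ i j : Fin p, i.val = 0 → j.val + 1 = p → d i = e j) (i j : Fin p) :
    d i * D.Bp n i j = D.Bp n i j * e j := by
  rw [anb_bp]
  by_cases h3 : j.val + 1 = i.val
  · rw [if_pos h3, h1 i j h3, mul_comm]
  · rw [if_neg h3]
    by_cases h4 : i.val = 0 ∧ j.val + 1 = p
    · rw [if_pos h4, h2 i j h4.1 h4.2, mul_comm]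
    · rw [if_neg h4, mul_zero, zero_mul]

/-- Diagonal matrices of conjugates commute with the operator of `Bp n`. -/
theorem diag_mem_cn (n : ℤ) (l : L) :
    Matrix.diagonal (fun i : Fin p => (D.s ^ i.val) l) ∈ D.Cn (D.Bp n) := by
  rw [mem_cn, Matrix.diagonal_map (map_zero _)]
  ext i j
  rw [Matrix.diagonal_mul, Matrix.mul_diagonal]
  refine D.anb_diag n (fun i => (D.s ^ i.val) l) (fun j => D.s ((D.s ^ j.val) l)) ?_ ?_ i j
  · intro i j h
    show (D.s ^ i.val) l = _
    rw [← h, pow_succ', AlgEquiv.mul_apply]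
  · intro i j h1 h2
    show (D.s ^ i.val) l = _
    rw [h1, pow_zero, ← AlgEquiv.mul_apply, ← pow_succ', h2, D.s_pow]
    rfl

theorem bp_mem_cn (n : ℤ) : D.Bp n ∈ D.Cn (D.Bp n) := by
  rw [mem_cn]
  congr 1
  ext i j
  rw [Matrix.map_apply, anb_bp]
  by_cases h1 : j.val + 1 = i.val
  · rw [if_pos h1, map_one]
  · rw [if_neg h1]
    by_cases h2 : i.val = 0 ∧ j.val + 1 = p
    · rw [if_pos h2, anb_sb]
    · rw [if_neg h2, map_zero]

theorem bp_diag (n : ℤ) (l : L) :
    D.Bp n * Matrix.diagonal (fun i : Fin p => (D.s ^ i.val) l) =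
      Matrix.diagonal (fun i : Fin p => (D.s ^ i.val) (D.s.symm l)) * D.Bp n := by
  ext i j
  rw [Matrix.diagonal_mul, Matrix.mul_diagonal]
  refine (D.anb_diag n (fun i => (D.s ^ i.val) (D.s.symm l)) (fun j => (D.s ^ j.val) l)
    ?_ ?_ i j).symm
  · intro i j h
    show (D.s ^ i.val) (D.s.symm l) = (D.s ^ j.val) l
    rw [← h, pow_succ, AlgEquiv.mul_apply, AlgEquiv.apply_symm_apply]
  · intro i j h1 h2
    show (D.s ^ i.val) (D.s.symm l) = (D.s ^ j.val) l
    apply D.s.injective
    rw [← AlgEquiv.mul_apply D.s (D.s ^ j.val), ← pow_succ', h2, D.s_pow, h1, pow_zero,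
      AlgEquiv.one_apply, AlgEquiv.apply_symm_apply]

end Dat

end Pool.Agent.MSX
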