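import Pool.Agent.MSX.Cst

/-! # Base change

`Qmap`, `KLmap`: the homomorphisms induced by a homomorphism of fields of constants.  `BC D D'`: a base change from the data `D`
to the data `D'`; `B.Kmap : D.K →+* D'.K`.
-/

set_option autoImplicit false

namespace Pool.Agent.MSX

open MvPolynomial

universe u

section

variable (p : ℕ) {L L' : Type u} [Field L] [Field L'] (c : L →+* L')

/-- The homomorphism of fraction fields induced by a homomorphism of the fields of constants. -/
noncomputable def Qmap : Q p L →+* Q p L' :=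
  IsFractionRing.lift (g := (algebraMap (S p L') (Q p L')).comp (MvPolynomial.map c)) (by
    rw [RingHom.coe_comp]
    exact Q_inj.comp (MvPolynomial.map_injective c c.injective))

theorem Qmap_alg (f : S p L) : Qmap p c (algebraMap (S p L) (Q p L) f) =
    algebraMap (S p L') (Q p L') (MvPolynomial.map c f) := by
  rw [Qmap, IsFractionRing.lift_algebraMap]
  rfl

theorem Qmap_cQ (x : L) : Qmap p c (cQ p L x) = cQ p L' (c x) := by
  rw [cQ_apply, Qmap_alg, MvPolynomial.map_C, cQ_apply]

variable {p} in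
theorem Qmap_KL {q : Q p L} (h : q ∈ KL p L) : Qmap p c q ∈ KL p L' := by
  obtain ⟨n, f, g, hf, hg, h0, rfl⟩ := h
  refine ⟨n, MvPolynomial.map c f, MvPolynomial.map c g, hf.map c, hg.map c, ?_, ?_⟩
  · exact (map_ne_zero_iff _ (MvPolynomial.map_injective c c.injective)).2 h0
  · rw [map_div₀, Qmap_alg, Qmap_alg]

/-- The homomorphism of the fields `KL` induced by a homomorphism of the fields of constants. -/
noncomputable def KLmap : KL p L →+* KL p L' :=
  ((Qmap p c).comp (KL p L).subtype).codRestrict (KL p L') (fun x => Qmap_KL c x.2)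

theorem KLmap_coe (x : KL p L) : ((KLmap p c x : KL p L') : Q p L') = Qmap p c (x : Q p L) := rfl

theorem KLmap_cKL (x : L) : KLmap p c (cKL p L x) = cKL p L' (c x) := by
  apply Subtype.ext
  rw [KLmap_coe]
  exact Qmap_cQ p c x

end

variable {p : ℕ} {F L : Type u} [Field F] [Field L] [Algebra F L]
  {F' L' : Type u} [Field F'] [Field L'] [Algebra F' L']

/-- A base change. -/
structure BC (D : Dat p F L) (D' : Dat p F' L') where
  a : F →+* F'
  c : L →+* L'
  hc : ∀ x : F, c (algebraMap F L x) = algebraMap F' L' (a x)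
  hs : ∀ x : L, c (D.s x) = D'.s (c x)
  hb : a D.b = D'.b

namespace BC

variable {D : Dat p F L} {D' : Dat p F' L'} (B : BC D D')

theorem c_bL : B.c D.bL = D'.bL := by
  unfold Dat.bL
  rw [B.hc, B.hb]

theorem map_sig (f : S p L) :
    MvPolynomial.map B.c (D.sig f) = D'.sig (MvPolynomial.map B.c f) := by
  have h : (MvPolynomial.map B.c).comp D.sig = D'.sig.comp (MvPolynomial.map B.c) := by
    refine MvPolynomial.ringHom_ext ?_ ?_
    · intro x
      rw [RingHom.comp_apply, RingHom.comp_apply, D.sig_C, MvPolynomial.map_C, MvPolynomial.map_C,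
        D'.sig_C, B.hs]
    · intro i
      rw [RingHom.comp_apply, RingHom.comp_apply, MvPolynomial.map_X]
      by_cases h0 : i.val + 1 < p
      · rw [D.sig_X_lt h0, D'.sig_X_lt h0, MvPolynomial.map_X]
      · rw [D.sig_X_last h0, D'.sig_X_last h0, map_mul, MvPolynomial.map_X, MvPolynomial.map_C,
          B.c_bL]
  exact congrArg (fun g : S p L →+* S p L' => g f) h

theorem Qmap_sigQ (q : Q p L) : Qmap p B.c (D.sigQ q) = D'.sigQ (Qmap p B.c q) := by
  obtain ⟨f, g, -, rfl⟩ := Q_frac q
  rw [map_div₀, map_div₀, map_div₀, map_div₀, D.sigQ_alg, D.sigQ_alg, Qmap_alg, Qmap_alg, Qmap_alg,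
    Qmap_alg, D'.sigQ_alg, D'.sigQ_alg, B.map_sig, B.map_sig]

/-- The homomorphism of function fields. -/
noncomputable def Kmap : D.K →+* D'.K :=
  ((Qmap p B.c).comp D.K.subtype).codRestrict D'.K (fun x =>
    ⟨Qmap_KL B.c x.2.1, by
      rw [RingHom.comp_apply, ← B.Qmap_sigQ]
      exact congrArg (Qmap p B.c) x.2.2⟩)

theorem Kmap_coe (x : D.K) : ((B.Kmap x : D'.K) : Q p L') = Qmap p B.c (x : Q p L) := rfl

theorem KLmap_iK (x : D.K) : KLmap p B.c (D.iK x) = D'.iK (B.Kmap x) := rfl

theorem Kmap_cK (x : F) : B.Kmap (D.cK x) = D'.cK (B.a x) := by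
  apply Subtype.ext
  rw [Kmap_coe, D.cK_coe, D'.cK_coe, Qmap_alg, MvPolynomial.map_C, B.hc]

theorem KLmap_sigKL (x : KL p L) : KLmap p B.c (D.sigKL x) = D'.sigKL (KLmap p B.c x) := by
  apply Subtype.ext
  rw [KLmap_coe, D.sigKL_coe, D'.sigKL_coe, KLmap_coe]
  exact B.Qmap_sigQ _

theorem KLmap_hn (h1 : 1 < p) : KLmap p B.c (D.hn h1) = D'.hn h1 := by
  apply Subtype.ext
  rw [KLmap_coe]
  unfold Dat.hn
  rw [map_div₀, Qmap_alg, Qmap_alg, MvPolynomial.map_X, MvPolynomial.map_X]

end BC

end Pool.Agent.MSX
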