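import Pool.Agent.MK.P1

/-! # Weil reciprocity for the tame symbols on the projective line (algebraically closed field)

`va α` is the place of `RatFunc k` at `t = α` (residues in `k`), `MK.vInf k` the place at infinity.

PROOF of `weil`.  Both sides are additive in `w` (the sum is a finite sum: `tame_fin`, from the case of symbols,
where only the zeros and poles of `x` and `y` matter).  `k` being algebraically closed, `K2 (RatFunc k)` is
generated by the symbols with entries among the constants and the `t - α` (every polynomial is a constant times a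
product of such; `MK.K2_induction`, `MK.S_mul_left` etc.).  With `MK.Val.tame_S`
(`tame {x, y} = (v x v y) • (-1) + v x • A y - v y • A x`):
`{c, d}`: all tame symbols are trivial.
`{c, t - α}`: at `α` it is `- A c`; at infinity (`v (t - α) = -1`, `A = 1`) it is `+ A c`; trivial elsewhere.
`{t - α, t - β}`, `α ≠ β`: at `α`: `A (α - β)`; at `β`: `- A (β - α)`; at infinity: `A (-1)`; the sum is zero.
`{t - α, t - α}`: at `α`: `A (-1)`; at infinity: `A (-1)`; and `2 A (-1) = 0`.
(`{x, y} = -{y, x}` reduces the other cases to these.)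
-/

set_option autoImplicit false

namespace Pool.Agent.MSX

open Polynomial

universe u

variable {k : Type u} [Field k]

theorem exists_va (α : k) : ∃ w : MK.Val (RatFunc k) k,
    w.v (algebraMap k[X] (RatFunc k) (X - C α)) = 1 ∧
    w.ac (algebraMap k[X] (RatFunc k) (X - C α)) = 1 ∧
    (∀ r : k[X], r ≠ 0 → 0 ≤ w.v (algebraMap k[X] (RatFunc k) r)) ∧
    ∀ r : k[X], ¬ (X - C α) ∣ r → w.v (algebraMap k[X] (RatFunc k) r) = 0 ∧
      w.ac (algebraMap k[X] (RatFunc k) r) = eval α r :=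
  MK.exists_prime (algebraMap k[X] (RatFunc k)) (RatFunc.algebraMap_injective k) (MK.ratFunc_frac k) (X - C α)
    (prime_X_sub_C α) (evalRingHom α) (fun r => by
      rw [dvd_iff_isRoot]
      rfl)

/-- The place at `t = α`. -/
noncomputable def va (α : k) : MK.Val (RatFunc k) k := (exists_va α).choose

theorem va_X (α : k) : (va α).v (algebraMap k[X] (RatFunc k) (X - C α)) = 1 ∧
    (va α).ac (algebraMap k[X] (RatFunc k) (X - C α)) = 1 :=
  ⟨(exists_va α).choose_spec.1, (exists_va α).choose_spec.2.1⟩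

theorem va_nonneg (α : k) (r : k[X]) (hr : r ≠ 0) : 0 ≤ (va α).v (algebraMap k[X] (RatFunc k) r) :=
  (exists_va α).choose_spec.2.2.1 r hr

theorem va_unit (α : k) (r : k[X]) (hr : eval α r ≠ 0) :
    (va α).v (algebraMap k[X] (RatFunc k) r) = 0 ∧ (va α).ac (algebraMap k[X] (RatFunc k) r) = eval α r :=
  (exists_va α).choose_spec.2.2.2 r (fun h => hr (by
    rw [dvd_iff_isRoot] at h
    exact h))

theorem A_of_ac {K : Type u} [Field K] (w : MK.Val K k) {x : K} (hx : x ≠ 0) {u : kˣ}
    (h : w.ac x = u) : w.A x = Additive.ofMul u := by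
  apply Additive.toMul.injective
  rw [Units.ext_iff, w.A_val hx, h]
  rfl

theorem alg_ne {r : k[X]} (hr : r ≠ 0) : algebraMap k[X] (RatFunc k) r ≠ 0 :=
  (map_ne_zero_iff _ (MK.ratFunc_inj k)).2 hr

theorem tame_fin (w : MK.K2 (RatFunc k)) : {α : k | (va α).tame w ≠ 0}.Finite := by
  induction w using MK.K2_induction with
  | hS a b ha hb =>
    obtain ⟨f, g, hg, rfl⟩ := MK.ratFunc_frac k a
    obtain ⟨f', g', hg', rfl⟩ := MK.ratFunc_frac k b
    have hf : f ≠ 0 := by
      rintro rfl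
      exact ha (by rw [map_zero, zero_div])
    have hf' : f' ≠ 0 := by
      rintro rfl
      exact hb (by rw [map_zero, zero_div])
    have hP : f * g * (f' * g') ≠ 0 := mul_ne_zero (mul_ne_zero hf hg) (mul_ne_zero hf' hg')
    refine Set.Finite.subset ((f * g * (f' * g')).rootSet_finite k) ?_
    intro c hc
    rw [mem_rootSet]
    refine ⟨hP, ?_⟩
    by_contra hne
    rw [aeval_def, eval₂_eq_eval_map, Algebra.algebraMap_self, Polynomial.map_id, eval_mul,
      eval_mul, eval_mul] at hne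
    have h1 := left_ne_zero_of_mul hne
    have h2 := right_ne_zero_of_mul hne
    have e1 := (va_unit c f (left_ne_zero_of_mul h1)).1
    have e2 := (va_unit c g (right_ne_zero_of_mul h1)).1
    have e3 := (va_unit c f' (left_ne_zero_of_mul h2)).1
    have e4 := (va_unit c g' (right_ne_zero_of_mul h2)).1
    refine hc (MK.Val.tame_S_units _ ?_ ?_)
    · rw [(va c).v_div (alg_ne hf) (alg_ne hg), e1, e2, sub_self]
    · rw [(va c).v_div (alg_ne hf') (alg_ne hg'), e3, e4, sub_self]
  | hz => simp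
  | hadd x y hx hy =>
    refine (hx.union hy).subset ?_
    intro c hc
    by_contra hne
    rw [Set.mem_union, not_or] at hne
    have h1 : (va c).tame x = 0 := by
      by_contra h
      exact hne.1 h
    have h2 : (va c).tame y = 0 := by
      by_contra h
      exact hne.2 h
    exact hc (by rw [map_add, h1, h2, add_zero])

/-- The sum of the tame symbols. -/
noncomputable def wsum (w : MK.K2 (RatFunc k)) : Additive kˣ :=
  (∑ᶠ α : k, (va α).tame w) + (MK.vInf k).tame w

theorem wsum_add (w w' : MK.K2 (RatFunc k)) : wsum (w + w') = wsum w + wsum w' := by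
  unfold wsum
  have h : (∑ᶠ α : k, (va α).tame (w + w')) =
      (∑ᶠ α : k, (va α).tame w) + ∑ᶠ α : k, (va α).tame w' := by
    rw [← finsum_add_distrib (tame_fin w) (tame_fin w')]
    refine finsum_congr fun α => ?_
    rw [map_add]
  rw [h, map_add]
  abel

theorem wsum_zero : wsum (0 : MK.K2 (RatFunc k)) = 0 := by
  unfold wsum
  simp

theorem wsum_neg (w : MK.K2 (RatFunc k)) : wsum (-w) = - wsum w := by
  have h := wsum_add w (-w)
  rw [add_neg_cancel, wsum_zero] at h
  exact (neg_eq_of_add_eq_zero_right h.symm).symm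

theorem gen_ind [IsAlgClosed k] {p : RatFunc k → Prop}
    (hC : ∀ c : k, c ≠ 0 → p (algebraMap k[X] (RatFunc k) (C c)))
    (hX : ∀ α : k, p (algebraMap k[X] (RatFunc k) (X - C α)))
    (hm : ∀ x y : RatFunc k, x ≠ 0 → y ≠ 0 → p x → p y → p (x * y))
    (hi : ∀ x : RatFunc k, x ≠ 0 → p x → p x⁻¹) (x : RatFunc k) (hx : x ≠ 0) : p x := by
  have hpoly : ∀ (n : ℕ) (f : k[X]), f.natDegree = n → f ≠ 0 →
      p (algebraMap k[X] (RatFunc k) f) := by
    intro n
    induction n with
    | zero =>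
      intro f hf h0
      have h1 := eq_C_of_natDegree_eq_zero hf
      rw [h1]
      refine hC _ fun h => h0 ?_
      rw [h1, h, C_0]
    | succ n ih =>
      intro f hf h0
      have hd : f.degree ≠ 0 := by
        intro h
        rw [natDegree_eq_zero_iff_degree_le_zero.2 h.le] at hf
        omega
      obtain ⟨α, hα⟩ := IsAlgClosed.exists_root f hd
      obtain ⟨g, rfl⟩ := dvd_iff_isRoot.2 hα
      have hg : g ≠ 0 := right_ne_zero_of_mul h0
      have hdeg : g.natDegree = n := by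
        rw [natDegree_mul (X_sub_C_ne_zero α) hg, natDegree_X_sub_C] at hf
        omega
      rw [map_mul]
      exact hm _ _ (alg_ne (X_sub_C_ne_zero α)) (alg_ne hg) (hX α) (ih g hdeg hg)
  obtain ⟨f, g, hg, rfl⟩ := MK.ratFunc_frac k x
  have hf : f ≠ 0 := by
    rintro rfl
    exact hx (by rw [map_zero, zero_div])
  rw [div_eq_mul_inv]
  exact hm _ _ (alg_ne hf) (inv_ne_zero (alg_ne hg)) (hpoly _ f rfl hf)
    (hi _ (alg_ne hg) (hpoly _ g rfl hg))

theorem va_C (α c : k) (hc : c ≠ 0) : (va α).v (algebraMap k[X] (RatFunc k) (C c)) = 0 ∧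
    (va α).ac (algebraMap k[X] (RatFunc k) (C c)) = c := by
  have h := va_unit α (C c) (by rw [eval_C]; exact hc)
  rw [eval_C] at h
  exact h

theorem va_XC (α β : k) (h : α ≠ β) :
    (va α).v (algebraMap k[X] (RatFunc k) (X - C β)) = 0 ∧
    (va α).ac (algebraMap k[X] (RatFunc k) (X - C β)) = α - β := by
  have he : eval α (X - C β) = α - β := by rw [eval_sub, eval_X, eval_C]
  have h1 := va_unit α (X - C β) (by rw [he]; exact sub_ne_zero.2 h)
  rw [he] at h1
  exact h1

theorem vi_C (c : k) (hc : c ≠ 0) : (MK.vInf k).v (algebraMap k[X] (RatFunc k) (C c)) = 0 ∧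
    (MK.vInf k).ac (algebraMap k[X] (RatFunc k) (C c)) = c := by
  obtain ⟨h1, h2⟩ := MK.vInf_poly k (C_ne_zero.2 hc)
  rw [natDegree_C] at h1
  rw [leadingCoeff_C] at h2
  exact ⟨by rw [h1]; simp, h2⟩

theorem vi_X (α : k) : (MK.vInf k).v (algebraMap k[X] (RatFunc k) (X - C α)) = -1 ∧
    (MK.vInf k).ac (algebraMap k[X] (RatFunc k) (X - C α)) = 1 := by
  obtain ⟨h1, h2⟩ := MK.vInf_poly k (X_sub_C_ne_zero α)
  rw [natDegree_X_sub_C] at h1
  rw [leadingCoeff_X_sub_C] at h2
  exact ⟨by rw [h1]; simp, h2⟩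

theorem wsum_CC (c d : k) (hc : c ≠ 0) (hd : d ≠ 0) :
    wsum (MK.S (algebraMap k[X] (RatFunc k) (C c)) (algebraMap k[X] (RatFunc k) (C d))) = 0 := by
  unfold wsum
  rw [MK.Val.tame_S_units _ (vi_C c hc).1 (vi_C d hd).1]
  have h : ∀ α : k, (va α).tame (MK.S (algebraMap k[X] (RatFunc k) (C c))
      (algebraMap k[X] (RatFunc k) (C d))) = 0 := fun α =>
    MK.Val.tame_S_units _ (va_C α c hc).1 (va_C α d hd).1
  rw [finsum_congr h]
  simp

theorem wsum_CX (c α : k) (hc : c ≠ 0) :
    wsum (MK.S (algebraMap k[X] (RatFunc k) (C c)) (algebraMap k[X] (RatFunc k) (X - C α))) = 0 := by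
  have hc' : algebraMap k[X] (RatFunc k) (C c) ≠ 0 := alg_ne (C_ne_zero.2 hc)
  have hX' : algebraMap k[X] (RatFunc k) (X - C α) ≠ 0 := alg_ne (X_sub_C_ne_zero α)
  unfold wsum
  rw [finsum_eq_single _ α (fun β hβ => MK.Val.tame_S_units _ (va_C β c hc).1 (va_XC β α hβ).1),
    MK.Val.tame_S _ hc' hX', MK.Val.tame_S _ hc' hX', (va_C α c hc).1, (va_X α).1, (vi_C c hc).1,
    (vi_X α).1, A_of_ac (va α) hc' (u := Units.mk0 c hc) (va_C α c hc).2,
    A_of_ac (MK.vInf k) hc' (u := Units.mk0 c hc) (vi_C c hc).2]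
  simp

theorem m1_add_m1 : MK.Val.m1 k + MK.Val.m1 k = 0 := by
  have h := MK.Val.two_m1 (k := k)
  rwa [two_zsmul] at h

theorem wsum_XX (α β : k) :
    wsum (MK.S (algebraMap k[X] (RatFunc k) (X - C α)) (algebraMap k[X] (RatFunc k) (X - C β))) =
      0 := by
  have hα : algebraMap k[X] (RatFunc k) (X - C α) ≠ 0 := alg_ne (X_sub_C_ne_zero α)
  have hβ : algebraMap k[X] (RatFunc k) (X - C β) ≠ 0 := alg_ne (X_sub_C_ne_zero β)
  have hiA : ∀ γ : k, (MK.vInf k).A (algebraMap k[X] (RatFunc k) (X - C γ)) = 0 := fun γ => by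
    rw [A_of_ac (MK.vInf k) (alg_ne (X_sub_C_ne_zero γ)) (u := 1) (by rw [(vi_X γ).2]; rfl)]
    rfl
  have hvA : ∀ γ : k, (va γ).A (algebraMap k[X] (RatFunc k) (X - C γ)) = 0 := fun γ => by
    rw [A_of_ac (va γ) (alg_ne (X_sub_C_ne_zero γ)) (u := 1) (by rw [(va_X γ).2]; rfl)]
    rfl
  have hinf : (MK.vInf k).tame (MK.S (algebraMap k[X] (RatFunc k) (X - C α))
      (algebraMap k[X] (RatFunc k) (X - C β))) = MK.Val.m1 k := by
    rw [MK.Val.tame_S _ hα hβ, (vi_X α).1, (vi_X β).1, hiA, hiA]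
    simp
  unfold wsum
  rw [hinf]
  by_cases hαβ : α = β
  · subst hαβ
    rw [finsum_eq_single _ α (fun β hβ => MK.Val.tame_S_units _ (va_XC β α hβ).1
      (va_XC β α hβ).1), MK.Val.tame_S _ hα hα, (va_X α).1, hvA]
    simpa using m1_add_m1
  · have h0 : α - β ≠ 0 := sub_ne_zero.2 hαβ
    have h0' : β - α ≠ 0 := sub_ne_zero.2 (Ne.symm hαβ)
    have hsum : (∑ᶠ γ : k, (va γ).tame (MK.S (algebraMap k[X] (RatFunc k) (X - C α))
        (algebraMap k[X] (RatFunc k) (X - C β)))) =
        Additive.ofMul (Units.mk0 _ h0) - Additive.ofMul (Units.mk0 _ h0') := by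
      classical
      rw [finsum_eq_sum_of_support_subset (s := {α, β})]
      · rw [Finset.sum_pair hαβ, MK.Val.tame_S _ hα hβ, MK.Val.tame_S _ hα hβ, (va_X α).1,
          (va_X β).1, (va_XC α β hαβ).1, (va_XC β α (Ne.symm hαβ)).1,
          A_of_ac (va α) hβ (u := Units.mk0 _ h0) (va_XC α β hαβ).2,
          A_of_ac (va β) hα (u := Units.mk0 _ h0') (va_XC β α (Ne.symm hαβ)).2]
        simp [sub_eq_add_neg]
      · intro γ hγ
        by_contra hne
        have h1 : γ ≠ α := fun h => hne (by simp [h])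
        have h2 : γ ≠ β := fun h => hne (by simp [h])
        exact hγ (MK.Val.tame_S_units _ (va_XC γ α h1).1 (va_XC γ β h2).1)
    have hval : Additive.ofMul (Units.mk0 _ h0) - Additive.ofMul (Units.mk0 _ h0') =
        MK.Val.m1 k := by
      rw [sub_eq_iff_eq_add]
      apply Additive.toMul.injective
      rw [Units.ext_iff]
      show α - β = (-1 : k) * (β - α)
      ring
    rw [hsum, hval]
    exact m1_add_m1

theorem wsum_S [IsAlgClosed k] (x y : RatFunc k) (hx : x ≠ 0) (hy : y ≠ 0) :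
    wsum (MK.S x y) = 0 := by
  have key : ∀ x : RatFunc k, x ≠ 0 → (∀ c : k, c ≠ 0 →
      wsum (MK.S x (algebraMap k[X] (RatFunc k) (C c))) = 0) → (∀ α : k,
      wsum (MK.S x (algebraMap k[X] (RatFunc k) (X - C α))) = 0) →
      ∀ y : RatFunc k, y ≠ 0 → wsum (MK.S x y) = 0 := by
    intro x _ h1 h2 y hy
    refine gen_ind (p := fun y => wsum (MK.S x y) = 0) h1 h2 ?_ ?_ y hy
    · intro a b ha hb h3 h4
      show wsum (MK.S x (a * b)) = 0
      rw [MK.S_mul_right ha hb, wsum_add, h3, h4, add_zero]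
    · intro a _ h3
      show wsum (MK.S x a⁻¹) = 0
      rw [MK.S_inv_right, wsum_neg, h3, neg_zero]
  have hl : ∀ z : RatFunc k, z ≠ 0 → (∀ c : k, c ≠ 0 →
      wsum (MK.S (algebraMap k[X] (RatFunc k) (C c)) z) = 0) → (∀ α : k,
      wsum (MK.S (algebraMap k[X] (RatFunc k) (X - C α)) z) = 0) →
      ∀ x : RatFunc k, x ≠ 0 → wsum (MK.S x z) = 0 := by
    intro z _ h1 h2 x hx
    refine gen_ind (p := fun x => wsum (MK.S x z) = 0) h1 h2 ?_ ?_ x hx
    · intro a b ha hb h3 h4
      show wsum (MK.S (a * b) z) = 0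
      rw [MK.S_mul_left ha hb, wsum_add, h3, h4, add_zero]
    · intro a _ h3
      show wsum (MK.S a⁻¹ z) = 0
      rw [MK.S_inv_left, wsum_neg, h3, neg_zero]
  refine key x hx (fun c hc => ?_) (fun α => ?_) y hy
  · refine hl _ (alg_ne (C_ne_zero.2 hc)) (fun d hd => wsum_CC d c hd hc) (fun α => ?_) x hx
    rw [MK.S_comm, wsum_neg, wsum_CX c α hc, neg_zero]
  · exact hl _ (alg_ne (X_sub_C_ne_zero α)) (fun c hc => wsum_CX c α hc)
      (fun β => wsum_XX β α) x hx

theorem weil [IsAlgClosed k] (w : MK.K2 (RatFunc k)) :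
    (∑ᶠ α : k, (va α).tame w) + (MK.vInf k).tame w = 0 := by
  show wsum w = 0
  induction w using MK.K2_induction with
  | hS a b ha hb => exact wsum_S a b ha hb
  | hz => exact wsum_zero
  | hadd x y hx hy => rw [wsum_add, hx, hy, add_zero]

end Pool.Agent.MSX
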