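import Pool.Agent.MSX.Cmap
import Pool.Agent.MSX.Weil

/-! # `c` vanishes on tame symbols

PROOFS.  `lnQ : Q → Mb(t)` extends `ln`.

* `va_ln`: let `ev α P.gen = 0`.  For `x ≠ 0` in `Q`: `(va α).v (lnQ x) = (pl P).v x`, and
  `(va α).ac (lnQ x) = evK P α h ((pl P).ac x)` if `(pl P).v x = 0`.  Write `x = f / g`,
  `f = P.gen ^ n * f'`, `g = P.gen ^ m * g'` with `f', g'` not divisible by `P.gen`.  `ln P.gen` has a simple root at
  `α` (`ev_simple`), so it is `(t - α) * u` with `u(α) ≠ 0` and has valuation one at `α`; `ln f'`, `ln g'` do not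
  vanish at `α` (`ev_ker`), so they have valuation zero and angular component `ev α f' = evK (red f')`
  (`va_unit`).  Compare with `pl_gen`, `pl_unit`.

* `cA_tm`: if `ev α P.gen = 0` for some `P` use `MK.Val.tame_congr` with `va_ln` and `cA_val`.  Otherwise
  `ev α f ≠ 0` for all homogeneous `f ≠ 0` (`ev_hom`), so for `x ≠ 0` in `KL` the valuation of `lnQ x` at `α` is zero;
  by `MK.K2_induction` and `MK.Val.tame_S_units` the tame symbol vanishes, and `cA_none`.

* `inf_tm`: for `x = f / g` in `KL` (`f, g` homogeneous of degree `n`), `ln f` and `ln g` have the same degree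
  (`ln_lead`), so `lnQ x` has valuation zero at infinity (`MK.vInf_poly`); `MK.Val.tame_S_units`.

* `cc_tm`: `weil` for `K2.map lnQ w`, `cA_tm`, `inf_tm`.  `cc_tmK`: the inclusion of `D.K` in `Q` factors through
  `KL` (`MK.K2.map_map`).
-/

set_option autoImplicit false

namespace Pool.Agent.MSX

open MvPolynomial

universe u

variable {p : ℕ} {L : Type u} [Field L]

/-- Restriction of rational functions to the generic line. -/
noncomputable def lnQ : Q p L →+* RatFunc (Mb p L) :=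
  IsFractionRing.lift (A := S p L)
    (g := (algebraMap (Polynomial (Mb p L)) (RatFunc (Mb p L))).comp ln)
    ((RatFunc.algebraMap_injective (Mb p L)).comp ln_inj)

theorem lnQ_alg (f : S p L) : lnQ (algebraMap (S p L) (Q p L) f) =
    algebraMap (Polynomial (Mb p L)) (RatFunc (Mb p L)) (ln f) := by
  rw [lnQ, IsFractionRing.lift_algebraMap]
  rfl

private theorem ctm_alg_ne {f : S p L} (h : f ≠ 0) : algebraMap (S p L) (Q p L) f ≠ 0 :=
  (map_ne_zero_iff _ Q_inj).2 h

private theorem ctm_ln_ne {f : S p L} (h : f ≠ 0) :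
    algebraMap (Polynomial (Mb p L)) (RatFunc (Mb p L)) (ln f) ≠ 0 :=
  (map_ne_zero_iff _ (RatFunc.algebraMap_injective (Mb p L))).2 ((map_ne_zero_iff _ ln_inj).2 h)

private theorem ctm_v_gen [PerfectField L] (P : HP p L) (α : Mb p L) (h : ev α P.gen = 0) :
    (va α).v (algebraMap (Polynomial (Mb p L)) (RatFunc (Mb p L)) (ln P.gen)) = 1 := by
  have h1 : Polynomial.IsRoot (ln P.gen) α := h
  obtain ⟨u, hu⟩ := Polynomial.dvd_iff_isRoot.2 h1
  have h2 := ev_simple P α h
  rw [hu, Polynomial.derivative_mul, Polynomial.derivative_X_sub_C, one_mul, Polynomial.eval_add,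
    Polynomial.eval_mul, Polynomial.eval_sub, Polynomial.eval_X, Polynomial.eval_C, sub_self, zero_mul,
    add_zero] at h2
  have hu0 : u ≠ 0 := by
    rintro rfl
    exact h2 Polynomial.eval_zero
  rw [hu, map_mul, (va α).v_mul _ _
    ((map_ne_zero_iff _ (RatFunc.algebraMap_injective (Mb p L))).2 (Polynomial.X_sub_C_ne_zero α))
    ((map_ne_zero_iff _ (RatFunc.algebraMap_injective (Mb p L))).2 hu0), (va_X α).1,
    (va_unit α u h2).1, add_zero]

theorem va_ln [PerfectField L] (P : HP p L) (α : Mb p L) (h : ev α P.gen = 0) (x : Q p L) (hx : x ≠ 0) :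
    (va α).v (lnQ x) = (pl P).v x ∧
      ((pl P).v x = 0 → (va α).ac (lnQ x) = evK P α h ((pl P).ac x)) := by
  obtain ⟨f, g, hg, rfl⟩ := Q_frac x
  have hf : f ≠ 0 := by
    rintro rfl
    exact hx (by rw [map_zero, zero_div])
  obtain ⟨n, f', hf', rfl⟩ := WfDvdMonoid.max_power_factor hf P.gen_irr
  obtain ⟨m, g', hg', rfl⟩ := WfDvdMonoid.max_power_factor hg P.gen_irr
  have hf0 : f' ≠ 0 := by
    rintro rfl
    exact hf' (dvd_zero _)
  have hg0 : g' ≠ 0 := by
    rintro rfl
    exact hg' (dvd_zero _)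
  have hP0 := P.gen_irr.ne_zero
  have hef : Polynomial.eval α (ln f') ≠ 0 := fun h0 => hf' ((ev_ker P α h f').1 h0)
  have heg : Polynomial.eval α (ln g') ≠ 0 := fun h0 => hg' ((ev_ker P α h g').1 h0)
  have e1 : (pl P).v (algebraMap (S p L) (Q p L) (P.gen ^ n * f') /
      algebraMap (S p L) (Q p L) (P.gen ^ m * g')) = n - m := by
    rw [map_mul, map_mul, map_pow, map_pow, (pl P).v_div
      (mul_ne_zero (pow_ne_zero _ (ctm_alg_ne hP0)) (ctm_alg_ne hf0))
      (mul_ne_zero (pow_ne_zero _ (ctm_alg_ne hP0)) (ctm_alg_ne hg0)),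
      (pl P).v_mul _ _ (pow_ne_zero _ (ctm_alg_ne hP0)) (ctm_alg_ne hf0),
      (pl P).v_mul _ _ (pow_ne_zero _ (ctm_alg_ne hP0)) (ctm_alg_ne hg0), (pl P).v_pow, (pl P).v_pow,
      (pl_gen P).1, (pl_unit P f' hf').1, (pl_unit P g' hg').1]
    ring
  have e2 : (va α).v (lnQ (algebraMap (S p L) (Q p L) (P.gen ^ n * f') /
      algebraMap (S p L) (Q p L) (P.gen ^ m * g'))) = n - m := by
    rw [map_div₀, lnQ_alg, lnQ_alg, map_mul, map_mul, map_pow, map_pow, map_mul, map_mul, map_pow,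
      map_pow, (va α).v_div
      (mul_ne_zero (pow_ne_zero _ (ctm_ln_ne hP0)) (ctm_ln_ne hf0))
      (mul_ne_zero (pow_ne_zero _ (ctm_ln_ne hP0)) (ctm_ln_ne hg0)),
      (va α).v_mul _ _ (pow_ne_zero _ (ctm_ln_ne hP0)) (ctm_ln_ne hf0),
      (va α).v_mul _ _ (pow_ne_zero _ (ctm_ln_ne hP0)) (ctm_ln_ne hg0), (va α).v_pow, (va α).v_pow,
      ctm_v_gen P α h, (va_unit α _ hef).1, (va_unit α _ heg).1]
    ring
  refine ⟨by rw [e1, e2], fun h0 => ?_⟩
  rw [e1] at h0
  have hnm : n = m := by omega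
  subst hnm
  have e3 : algebraMap (S p L) (Q p L) (P.gen ^ n * f') /
      algebraMap (S p L) (Q p L) (P.gen ^ n * g') =
      algebraMap (S p L) (Q p L) f' / algebraMap (S p L) (Q p L) g' := by
    rw [map_mul, map_mul]
    exact mul_div_mul_left _ _ (ctm_alg_ne (pow_ne_zero _ hP0))
  rw [e3, map_div₀, lnQ_alg, lnQ_alg, (va α).ac_div, (va_unit α _ hef).2, (va_unit α _ heg).2,
    (pl P).ac_div, (pl_unit P f' hf').2, (pl_unit P g' hg').2, map_div₀, evK_red, evK_red]
  rfl

theorem cA_tm [PerfectField L] (α : Mb p L) (w : MK.K2 (KL p L)) :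
    (va α).tame (MK.K2.map (lnQ.comp (KL p L).subtype) w) =
      cA α (tmA p L (MK.K2.map (KL p L).subtype w)) := by
  by_cases h : ∃ P : HP p L, ev α P.gen = 0
  · obtain ⟨P, hP⟩ := h
    have h1 := (pl P).tame_congr (va α) lnQ (evK P α hP) (fun x hx => (va_ln P α hP x hx).1)
      (fun x hx h0 => (va_ln P α hP x hx).2 h0) (MK.K2.map (KL p L).subtype w)
    rw [MK.K2.map_map] at h1
    apply Additive.toMul.injective
    rw [Units.ext_iff, cA_val P α hP, h1]
    rfl
  · have h' : ∀ P : HP p L, ev α P.gen ≠ 0 := fun P hP => h ⟨P, hP⟩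
    rw [cA_none α h']
    have key : ∀ x : KL p L, x ≠ 0 → (va α).v ((lnQ.comp (KL p L).subtype) x) = 0 := by
      rintro ⟨x, n, f, g, hf, hg, hg0, rfl⟩ hx
      have hf0 : f ≠ 0 := by
        rintro rfl
        exact hx (Subtype.ext (by
          change algebraMap (S p L) (Q p L) 0 / algebraMap (S p L) (Q p L) g = 0
          rw [map_zero, zero_div]))
      have hef : Polynomial.eval α (ln f) ≠ 0 := fun h0 => by
        obtain ⟨P, -, hP⟩ := ev_hom hf hf0 (α := α) h0
        exact h' P hP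
      have heg : Polynomial.eval α (ln g) ≠ 0 := fun h0 => by
        obtain ⟨P, -, hP⟩ := ev_hom hg hg0 (α := α) h0
        exact h' P hP
      change (va α).v (lnQ (algebraMap (S p L) (Q p L) f / algebraMap (S p L) (Q p L) g)) = 0
      rw [map_div₀, lnQ_alg, lnQ_alg, (va α).v_div (ctm_ln_ne hf0) (ctm_ln_ne hg0),
        (va_unit α _ hef).1, (va_unit α _ heg).1, sub_zero]
    induction w using MK.K2_induction with
    | hS a b ha hb =>
      rw [MK.K2.map_S]
      exact (va α).tame_S_units (key a ha) (key b hb)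
    | hz => rw [map_zero, map_zero]
    | hadd x y hx hy => rw [map_add, map_add, hx, hy, add_zero]

theorem inf_tm (w : MK.K2 (KL p L)) :
    (MK.vInf (Mb p L)).tame (MK.K2.map (lnQ.comp (KL p L).subtype) w) = 0 := by
  have key : ∀ x : KL p L, x ≠ 0 → (MK.vInf (Mb p L)).v ((lnQ.comp (KL p L).subtype) x) = 0 := by
    rintro ⟨x, n, f, g, hf, hg, hg0, rfl⟩ hx
    have hf0 : f ≠ 0 := by
      rintro rfl
      exact hx (Subtype.ext (by
        change algebraMap (S p L) (Q p L) 0 / algebraMap (S p L) (Q p L) g = 0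
        rw [map_zero, zero_div]))
    change (MK.vInf (Mb p L)).v
      (lnQ (algebraMap (S p L) (Q p L) f / algebraMap (S p L) (Q p L) g)) = 0
    rw [map_div₀, lnQ_alg, lnQ_alg, (MK.vInf (Mb p L)).v_div (ctm_ln_ne hf0) (ctm_ln_ne hg0),
      (MK.vInf_poly (Mb p L) ((map_ne_zero_iff _ ln_inj).2 hf0)).1,
      (MK.vInf_poly (Mb p L) ((map_ne_zero_iff _ ln_inj).2 hg0)).1, (ln_lead hf hf0).1,
      (ln_lead hg hg0).1, sub_self]
  induction w using MK.K2_induction with
  | hS a b ha hb =>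
    rw [MK.K2.map_S]
    exact (MK.vInf (Mb p L)).tame_S_units (key a ha) (key b hb)
  | hz => rw [map_zero, map_zero]
  | hadd x y hx hy => rw [map_add, map_add, hx, hy, add_zero]

theorem cc_tm [PerfectField L] (w : MK.K2 (KL p L)) :
    cc (tmA p L (MK.K2.map (KL p L).subtype w)) = 0 := by
  have h1 := weil (MK.K2.map (lnQ.comp (KL p L).subtype) w)
  rw [inf_tm, add_zero] at h1
  rw [cc, ← h1]
  exact finsum_congr fun α => (cA_tm α w).symm

theorem cc_tmK [PerfectField L] {F : Type u} [Field F] [Algebra F L] (D : Dat p F L) (w : MK.K2 D.K) :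
    cc (D.tmK w) = 0 := by
  have h1 : MK.K2.map D.K.subtype w =
      MK.K2.map (KL p L).subtype (MK.K2.map (Subfield.inclusion D.K_le_KL) w) := by
    rw [MK.K2.map_map]
    rfl
  change cc (tmA p L (MK.K2.map D.K.subtype w)) = 0
  rw [h1]
  exact cc_tm _

end Pool.Agent.MSX
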