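import Pool.Agent.MSX.EmsB
import Pool.Agent.MSX.Alg

/-! # Embeddings of the function field with small coefficient fields

For a point `P` of codimension one let `D.ke P` be the subfield of `kE P` of the elements fixed by the semilinear map if
`D.sg P = P`.  The embedding `phiE P` restricted to the function field `D.K` has coefficients in `D.ke P`
(`phiE_ke`); `D.kx P` is algebraically closed in `D.ke P`.  `exists_emb` is the summary.
-/

set_option autoImplicit false

namespace Pool.Agent.MSX

open MvPolynomial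

universe u

variable {p : ℕ} {F L : Type u} [Field F] [Field L] [Algebra F L] (D : Dat p F L)

namespace Dat

/-- The coefficient field. -/
def ke (P : HP p L) : Subfield (kE P) where
  carrier := {x | ∀ h : D.sg P = P, castE h (D.sE P x) = x}
  mul_mem' := by
    rintro x y h1 h2 h
    rw [map_mul, map_mul, h1 h, h2 h]
  one_mem' := fun h => by rw [map_one, map_one]
  add_mem' := by
    rintro x y h1 h2 h
    rw [map_add, map_add, h1 h, h2 h]
  zero_mem' := fun h => by rw [map_zero, map_zero]
  neg_mem' := by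
    rintro x h1 h
    rw [map_neg, map_neg, h1 h]
  inv_mem' := by
    rintro x h1 h
    rw [map_inv₀, map_inv₀, h1 h]

theorem phiE_ke [PerfectField L] (P : HP p L) (x : D.K) (n : ℤ) :
    (phiE P (x : Q p L)).coeff n ∈ D.ke P := by
  intro h
  have h1 : (lsm (castE h : kE (D.sg P) →+* kE P) (lsm (D.sE P) (phiE P (x : Q p L)))).coeff n =
      castE h (D.sE P ((phiE P (x : Q p L)).coeff n)) := rfl
  have h2 : D.sigQ (x : Q p L) = x := x.2.2
  rw [← h1, D.sE_phiE, castE_phiE, h2]

theorem incE_ke (P : HP p L) (x : kap P) (hx : x ∈ D.kx P) : incE P x ∈ D.ke P := by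
  intro h
  rw [sE_incE, castE_incE, hx.2 h]

/-- The inclusion of `D.kx P` in the coefficient field. -/
noncomputable def jE (P : HP p L) : D.kx P →+* D.ke P :=
  ((incE P).comp (D.kx P).subtype).codRestrict (D.ke P) (fun x => D.incE_ke P x x.2)

theorem jE_coe (P : HP p L) (x : D.kx P) : ((D.jE P x : D.ke P) : kE P) = incE P (x : kap P) := rfl

/-- `D.kx P` is algebraically closed in `D.ke P`. -/
theorem jE_closed (P : HP p L) (u : D.ke P) (f : Polynomial (D.kx P)) (hf : f ≠ 0)
    (h : Polynomial.eval₂ (D.jE P) u f = 0) : ∃ x : D.kx P, D.jE P x = u := by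
  have h1 : Polynomial.eval₂ (cQ p (kap P)) (u : kE P) (f.map (D.kx P).subtype) = 0 := by
    have h2 := congrArg (D.ke P).subtype h
    rw [Polynomial.hom_eval₂, map_zero] at h2
    rw [Polynomial.eval₂_map]
    exact h2
  obtain ⟨u0, hu0⟩ := alg_const _ _
    ((Polynomial.map_ne_zero_iff (D.kx P).subtype.injective).2 hf) h1
  have hi : incE P u0 = (u : kE P) := hu0.symm
  obtain ⟨i, hic⟩ : ∃ i : D.kx P →+* k0 P, (k0 P).subtype.comp i = (D.kx P).subtype :=
    ⟨Subfield.inclusion (fun _ hx => hx.1), rfl⟩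
  have h3 : Polynomial.eval₂ (k0 P).subtype u0 (f.map i) = 0 := by
    apply (incE P).injective
    rw [Polynomial.hom_eval₂, map_zero, Polynomial.eval₂_map, hi, RingHom.comp_assoc, hic]
    have h2 := congrArg (D.ke P).subtype h
    rw [Polynomial.hom_eval₂, map_zero] at h2
    exact h2
  have h4 : u0 ∈ k0 P := k0_alg D.hp.one_lt P u0 _
    ((Polynomial.map_ne_zero_iff i.injective).2 hf) h3
  have h5 : u0 ∈ D.kx P := by
    refine ⟨h4, fun h => (incE P).injective ?_⟩
    have h6 := u.2 h
    rw [← hi, sE_incE, castE_incE] at h6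
    exact h6
  exact ⟨⟨u0, h5⟩, Subtype.ext hi⟩

/-- Embeddings of the function field with small coefficient fields. -/
theorem exists_emb [PerfectField L] (P : HP p L) : ∃ (k : Type u) (_ : Field k)
    (psi : D.K →+* LaurentSeries k) (j : D.kx P →+* k) (jF : F →+* k),
    (∀ c : F, psi (D.cK c) = HahnSeries.C (jF c)) ∧
    (∀ c : F, jF c = j ⟨red P (C (algebraMap F L c)), D.const_kx P c⟩) ∧
    (∀ (w : MK.K2 D.K) (x : D.kx P), (x : kap P) = ((D.tmK w P).toMul : kap P) →
      (((lv k).tame (MK.K2.map psi w)).toMul : k) = j x) ∧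
    (∀ (u : k) (f : Polynomial (D.kx P)), f ≠ 0 → Polynomial.eval₂ j u f = 0 →
      ∃ x : D.kx P, j x = u) := by
  obtain ⟨psi, hpsi⟩ := exists_lift (D.ke P).subtype ((phiE P).comp D.K.subtype)
    (fun x n => ⟨⟨_, D.phiE_ke P x n⟩, rfl⟩)
  refine ⟨D.ke P, inferInstance, psi, D.jE P,
    (D.jE P).comp (((red P).comp (C.comp (algebraMap F L))).codRestrict (D.kx P)
      (fun c => D.const_kx P c)), ?_, ?_, ?_, D.jE_closed P⟩
  · intro c
    apply lsm_inj (D.ke P).subtype
    rw [hpsi, lsm_C]
    change phiE P (algebraMap (S p L) (Q p L) (C (algebraMap F L c))) =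
      HahnSeries.C (incE P (red P (C (algebraMap F L c))))
    rw [phiE_alg, psiE_C]
    exact HahnSeries.ofPowerSeries_C _
  · intro c
    rfl
  · intro w x hx
    apply (D.ke P).subtype.injective
    have h1 := lsm_tame (D.ke P).subtype (MK.K2.map psi w)
    rw [MK.K2.map_map] at h1
    have h2 : (lsm (D.ke P).subtype).comp psi = (phiE P).comp D.K.subtype :=
      RingHom.ext fun y => hpsi y
    rw [h2, ← MK.K2.map_map, phiE_tame] at h1
    have h3 := congrArg (fun t : (kE P)ˣ => (t : kE P)) h1
    change incE P ((tm P (MK.K2.map D.K.subtype w)).toMul : kap P) =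
      (D.ke P).subtype (((lv (D.ke P)).tame (MK.K2.map psi w)).toMul : D.ke P) at h3
    rw [← h3]
    change _ = incE P (x : kap P)
    rw [hx]
    rfl

end Dat

end Pool.Agent.MSX
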