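import Pool.Agent.MSX.Kz

/-! # The residue fields of the function field: the subfield `D.kx P`

`castK h : kap P ≃+* kap P'` is the transport along an equality `h : P = P'` of points.  `D.kx P` is the subfield of the elements
of degree zero of `kap P`, fixed by the semilinear automorphism if `D.sg P = P`.  The values of a good family lie in `D.kx P`
(`good_kx`).
-/

set_option autoImplicit false

namespace Pool.Agent.MSX

open MvPolynomial

universe u

section

variable {p : ℕ} {L : Type u} [Field L]

/-- Transport of residue fields along an equality of points. -/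
noncomputable def castK {P P' : HP p L} (h : P = P') : kap P ≃+* kap P' := h ▸ RingEquiv.refl (kap P)

theorem castK_self (P : HP p L) (x : kap P) : castK (Eq.refl P) x = x := rfl

theorem castK_red {P P' : HP p L} (h : P = P') (f : S p L) : castK h (red P f) = red P' f := by
  subst h
  rfl

theorem castK_fam {P P' : HP p L} (h : P = P') (z : Fam p L) :
    castK h ((z P).toMul : kap P) = ((z P').toMul : kap P') := by
  subst h
  rfl

end

variable {p : ℕ} {F L : Type u} [Field F] [Field L] [Algebra F L] (D : Dat p F L)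

namespace Dat

/-- The elements of degree zero, fixed by the semilinear automorphism if `D.sg P = P`. -/
def kx (P : HP p L) : Subfield (kap P) where
  carrier := {x | x ∈ k0 P ∧ ∀ h : D.sg P = P, castK h (D.sgK P x) = x}
  mul_mem' := by
    rintro x y ⟨h1, h2⟩ ⟨h3, h4⟩
    exact ⟨mul_mem h1 h3, fun h => by rw [map_mul, map_mul, h2 h, h4 h]⟩
  one_mem' := ⟨one_mem _, fun h => by rw [map_one, map_one]⟩
  add_mem' := by
    rintro x y ⟨h1, h2⟩ ⟨h3, h4⟩
    exact ⟨add_mem h1 h3, fun h => by rw [map_add, map_add, h2 h, h4 h]⟩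
  zero_mem' := ⟨zero_mem _, fun h => by rw [map_zero, map_zero]⟩
  neg_mem' := by
    rintro x ⟨h1, h2⟩
    exact ⟨neg_mem h1, fun h => by rw [map_neg, map_neg, h2 h]⟩
  inv_mem' := by
    rintro x ⟨h1, h2⟩
    exact ⟨inv_mem h1, fun h => by rw [map_inv₀, map_inv₀, h2 h]⟩

theorem mem_kx (P : HP p L) (x : kap P) :
    x ∈ D.kx P ↔ x ∈ k0 P ∧ ∀ h : D.sg P = P, castK h (D.sgK P x) = x := Iff.rfl

theorem const_kx (P : HP p L) (c : F) : red P (C (algebraMap F L c)) ∈ D.kx P := by
  refine ⟨const_mem_k0 P _, fun h => ?_⟩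
  rw [sgK_red, castK_red, sig_C, AlgEquiv.commutes]

variable {D} in
/-- The values of a good family lie in `D.kx P`. -/
theorem Good.kx {z : Fam p L} (hz : D.Good z) (P : HP p L) : ((z P).toMul : kap P) ∈ D.kx P := by
  refine ⟨(mem_k0_iff P (Units.ne_zero _)).2 (hz.deg P), fun h => ?_⟩
  have h1 : ((z (D.sg P)).toMul : kap (D.sg P)) = D.sgK P ((z P).toMul : kap P) := by
    rw [hz.inv P]
    rfl
  rw [← h1, castK_fam h z]

theorem tmK_kx (w : MK.K2 D.K) (P : HP p L) : ((D.tmK w P).toMul : kap P) ∈ D.kx P :=
  (D.good_tmK w).kx P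

end Dat

end Pool.Agent.MSX
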