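import Pool.Agent.MSX.GlA
import Pool.Agent.MSX.Kx

/-! # Local choices give a good family

`glue`: let `y` be a good family, and suppose that for every point `P` there is `x ∈ D.kx P`, nonzero, with `k • y P = n • x`
(additive notation).  Then there is a good family `z` with `k • y = n • z`.

PROOF.  `eq_section` for `B = HP p L`, `Y` the pairs `(P, x)`, `T (P, x) = (D.sg P, D.sgU P x)`, and `X` the set of the pairs with `x` of
degree zero, `k • y P = n • x`, and `x = 1` if `y P = 1`.  `T^p` is the identity on the elements of degree zero, because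
`sig^p` multiplies the homogeneous polynomials of degree `n` by `b^n` (`sT_iter`).
-/

set_option autoImplicit false

namespace Pool.Agent.MSX

open MvPolynomial

universe u

section

variable {p : ℕ} {L : Type u} [Field L]

/-- The pairs of a point and a nonzero element of the residue field. -/
abbrev YY (p : ℕ) (L : Type u) [Field L] : Type u := Σ P : HP p L, Additive (kap P)ˣ

theorem yy_ext {P P' : HP p L} (h : P = P') (x : Additive (kap P)ˣ) (x' : Additive (kap P')ˣ)
    (hx : castK h ((x.toMul : (kap P)ˣ) : kap P) = ((x'.toMul : (kap P')ˣ) : kap P')) :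
    (⟨P, x⟩ : YY p L) = ⟨P', x'⟩ := by
  subst h
  congr 1
  exact Additive.toMul.injective (Units.ext hx)

end

variable {p : ℕ} {F L : Type u} [Field F] [Field L] [Algebra F L] (D : Dat p F L)

namespace Dat

/-- The semilinear automorphism on pairs. -/
noncomputable def sT (y : YY p L) : YY p L := ⟨D.sg y.1, D.sgU y.1 y.2⟩

theorem sT_rep (y : YY p L) (f g : S p L)
    (h : ((y.2.toMul : (kap y.1)ˣ) : kap y.1) = red y.1 f / red y.1 g) :
    (((D.sT y).2.toMul : (kap (D.sT y).1)ˣ) : kap (D.sT y).1) =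
      red (D.sT y).1 (D.sig f) / red (D.sT y).1 (D.sig g) := by
  change D.sgK y.1 ((y.2.toMul : (kap y.1)ˣ) : kap y.1) = _
  rw [h, map_div₀, sgK_red, sgK_red]
  rfl

theorem sT_iter_fst (y : YY p L) (k : ℕ) : (D.sT^[k] y).1 = D.sg^[k] y.1 := by
  induction k with
  | zero => rfl
  | succ k ih =>
    rw [Function.iterate_succ_apply', Function.iterate_succ_apply', ← ih]
    rfl

theorem sT_iter_rep (y : YY p L) (f g : S p L)
    (h : ((y.2.toMul : (kap y.1)ˣ) : kap y.1) = red y.1 f / red y.1 g) (k : ℕ) :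
    (((D.sT^[k] y).2.toMul : (kap (D.sT^[k] y).1)ˣ) : kap (D.sT^[k] y).1) =
      red (D.sT^[k] y).1 (D.sig^[k] f) / red (D.sT^[k] y).1 (D.sig^[k] g) := by
  induction k with
  | zero => exact h
  | succ k ih =>
    have h1 := D.sT_rep _ _ _ ih
    rw [← Function.iterate_succ_apply' D.sig, ← Function.iterate_succ_apply' D.sig] at h1
    have h2 : D.sT (D.sT^[k] y) = D.sT^[k + 1] y := (Function.iterate_succ_apply' D.sT k y).symm
    rw [h2] at h1
    exact h1

theorem sT_iter (y : YY p L) (hy : Deg0 y.1 ((y.2.toMul : (kap y.1)ˣ) : kap y.1)) :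
    D.sT^[p] y = y := by
  obtain ⟨n, f, g, hf, hg, h1, h2, h3⟩ := hy
  have h4 := D.sT_iter_rep y f g h3 p
  have h5 : (D.sT^[p] y).1 = y.1 := by rw [sT_iter_fst, sg_iter]
  obtain ⟨y', hy'⟩ : ∃ y', y' = D.sT^[p] y := ⟨_, rfl⟩
  rw [← hy'] at h4 h5 ⊢
  obtain ⟨P', x'⟩ := y'
  obtain ⟨P, x⟩ := y
  change P' = P at h5
  refine yy_ext h5 x' x ?_
  change ((x'.toMul : (kap P')ˣ) : kap P') = _ at h4
  rw [h4, D.sig_iter hf, D.sig_iter hg, map_div₀, castK_red, castK_red]
  change ((x.toMul : (kap P)ˣ) : kap P) = red P f / red P g at h3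
  rw [h3, map_mul, map_mul]
  exact mul_div_mul_left _ _ ((map_ne_zero_iff ((red P).comp C) ((red P).comp C).injective).2
    (pow_ne_zero n D.bL_ne))

theorem deg0_sgK {P : HP p L} {x : kap P} (h : Deg0 P x) : Deg0 (D.sg P) (D.sgK P x) := by
  obtain ⟨n, f, g, hf, hg, h1, h2, rfl⟩ := h
  exact ⟨n, D.sig f, D.sig g, D.sig_hom hf, D.sig_hom hg, by rwa [D.sg_dvd], by rwa [D.sg_dvd], by
    rw [map_div₀, sgK_red, sgK_red]⟩

theorem sgU_inj (P : HP p L) : Function.Injective (D.sgU P) := by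
  intro x y h
  apply Additive.toMul.injective
  apply Units.ext
  apply (D.sgK P).injective
  have h1 := congrArg (fun t : Additive (kap (D.sg P))ˣ => ((t.toMul : (kap (D.sg P))ˣ) :
    kap (D.sg P))) h
  exact h1

/-- Local choices give a good family. -/
theorem glue {y : Fam p L} (hy : D.Good y) (k n : ℕ) (h : ∀ P : HP p L, ∃ x : Additive (kap P)ˣ,
    ((x.toMul : (kap P)ˣ) : kap P) ∈ D.kx P ∧ k • y P = n • x) :
    ∃ z : Fam p L, D.Good z ∧ k • y = n • z := by
  obtain ⟨z, hz1, hz2⟩ := eq_section D.hp D.sg D.sT (fun y : YY p L => y.1)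
    {x : YY p L | Deg0 x.1 ((x.2.toMul : (kap x.1)ˣ) : kap x.1) ∧ k • y x.1 = n • x.2 ∧
      (y x.1 = 0 → x.2 = 0)} (fun _ => rfl) D.sg_iter (by
        rintro ⟨P, x⟩ ⟨h1, h2, h3⟩
        change Deg0 P ((x.toMul : (kap P)ˣ) : kap P) at h1
        change k • y P = n • x at h2
        change y P = 0 → x = 0 at h3
        refine ⟨D.deg0_sgK h1, ?_, ?_⟩
        · change k • y (D.sg P) = n • D.sgU P x
          rw [hy.inv, ← map_nsmul, ← map_nsmul, h2]
        · intro h4
          change y (D.sg P) = 0 at h4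
          change D.sgU P x = 0
          rw [hy.inv] at h4
          have h5 : y P = 0 := D.sgU_inj P (by rw [h4, map_zero])
          rw [h3 h5, map_zero]) (fun x hx => D.sT_iter x hx.1) (by
        intro P
        by_cases h0 : y P = 0
        · refine ⟨⟨P, 0⟩, ⟨deg0_one P, ?_, fun _ => rfl⟩, rfl, fun hP => ?_⟩
          · change k • y P = n • (0 : Additive (kap P)ˣ)
            rw [h0, smul_zero, smul_zero]
          · refine yy_ext hP _ _ ?_
            change castK hP ((D.sgU P 0).toMul : kap (D.sg P)) = 1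
            rw [map_zero, toMul_zero, Units.val_one, map_one]
        · obtain ⟨x, hx1, hx2⟩ := h P
          refine ⟨⟨P, x⟩, ⟨?_, hx2, fun h1 => absurd h1 h0⟩, rfl, fun hP => ?_⟩
          · exact (mem_k0_iff P (Units.ne_zero _)).1 hx1.1
          · refine yy_ext hP _ _ ?_
            exact hx1.2 hP)
  have hf : ∀ P, ∃ x : Additive (kap P)ˣ, z P = ⟨P, x⟩ := by
    intro P
    have h1 := (hz1 P).2
    obtain ⟨y', hy'⟩ : ∃ y', y' = z P := ⟨_, rfl⟩
    rw [← hy'] at h1 ⊢
    obtain ⟨P', x'⟩ := y'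
    change P' = P at h1
    subst h1
    exact ⟨x', rfl⟩
  choose f hf using hf
  have hX : ∀ P, Deg0 P (((f P).toMul : (kap P)ˣ) : kap P) ∧ k • y P = n • f P ∧
      (y P = 0 → f P = 0) := by
    intro P
    have h1 := (hz1 P).1
    rw [hf] at h1
    exact h1
  refine ⟨f, ⟨?_, fun P => (hX P).1, fun P => ?_⟩, ?_⟩
  · refine hy.fin.subset fun P hP h0 => hP ((hX P).2.2 h0)
  · have h1 := hz2 P
    rw [hf, hf] at h1
    have h2 : (⟨D.sg P, f (D.sg P)⟩ : YY p L) = ⟨D.sg P, D.sgU P (f P)⟩ := h1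
    exact eq_of_heq (Sigma.mk.inj h2).2
  · funext P
    exact (hX P).2.1

end Dat

end Pool.Agent.MSX
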