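import Pool.Agent.MSX.Fam

/-! # Constants, the semilinear automorphism of `KL`, the element of norm `b`

`cQ`, `cKL`, `D.cK`: constants as elements of `Q p L`, `KL p L`, `D.K`.  `D.sigKL`: the automorphism of `KL p L` induced by
`D.sigQ`; `D.K` consists of the elements fixed by it.  `D.hn h1`: the element `X 1 / X 0` of `KL p L`, of norm `b`.
-/

set_option autoImplicit false

namespace Pool.Agent.MSX

open MvPolynomial

universe u

section

variable (p : ℕ) (L : Type u) [Field L]

/-- Constants as elements of `Q p L`. -/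
noncomputable def cQ : L →+* Q p L := (algebraMap (S p L) (Q p L)).comp C

theorem cQ_apply (c : L) : cQ p L c = algebraMap (S p L) (Q p L) (C c) := rfl

theorem cQ_mem (c : L) : cQ p L c ∈ KL p L :=
  ⟨0, C c, 1, isHomogeneous_C _ _, isHomogeneous_one _ _, one_ne_zero, by
    rw [map_one, div_one]
    rfl⟩

/-- Constants as elements of `KL p L`. -/
noncomputable def cKL : L →+* KL p L := (cQ p L).codRestrict (KL p L) (cQ_mem p L)

theorem cKL_coe (c : L) : ((cKL p L c : KL p L) : Q p L) = algebraMap (S p L) (Q p L) (C c) := rfl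

end

variable {p : ℕ} {F L : Type u} [Field F] [Field L] [Algebra F L] (D : Dat p F L)

namespace Dat

/-- Constants of `F` as elements of the function field. -/
noncomputable def cK : F →+* D.K := ((cQ p L).comp (algebraMap F L)).codRestrict D.K D.F_mem_K

theorem cK_coe (c : F) :
    ((D.cK c : D.K) : Q p L) = algebraMap (S p L) (Q p L) (C (algebraMap F L c)) := rfl

theorem sigQ_cQ (c : L) : D.sigQ (cQ p L c) = cQ p L (D.s c) := by
  rw [cQ_apply, sigQ_alg, sig_C, cQ_apply]

/-- The automorphism of `KL p L` (as a homomorphism; it is surjective by `sigKL_iter`). -/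
noncomputable def sigKL : KL p L →+* KL p L :=
  ((D.sigQ : Q p L →+* Q p L).comp (KL p L).subtype).codRestrict (KL p L)
    (fun x => D.sigQ_KL x.2)

theorem sigKL_coe (x : KL p L) : ((D.sigKL x : KL p L) : Q p L) = D.sigQ (x : Q p L) := rfl

theorem sigKL_iter_coe (x : KL p L) (k : ℕ) :
    ((D.sigKL^[k] x : KL p L) : Q p L) = D.sigQ^[k] (x : Q p L) := by
  induction k with
  | zero => rfl
  | succ k ih => rw [Function.iterate_succ_apply', Function.iterate_succ_apply', sigKL_coe, ih]

theorem sigKL_iter (x : KL p L) : D.sigKL^[p] x = x := by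
  apply Subtype.ext
  rw [sigKL_iter_coe, D.sigQ_iter x.2]

theorem sigKL_cKL (c : L) : D.sigKL (cKL p L c) = cKL p L (D.s c) := by
  apply Subtype.ext
  rw [sigKL_coe]
  exact D.sigQ_cQ c

theorem mem_K_iff (x : Q p L) : x ∈ D.K ↔ x ∈ KL p L ∧ D.sigQ x = x := Iff.rfl

/-- The inclusion of the function field in `KL p L`. -/
noncomputable def iK : D.K →+* KL p L := Subfield.inclusion D.K_le_KL

theorem iK_coe (x : D.K) : ((D.iK x : KL p L) : Q p L) = (x : Q p L) := rfl

theorem iK_inj : Function.Injective D.iK := D.iK.injective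

theorem sigKL_iK (x : D.K) : D.sigKL (D.iK x) = D.iK x := by
  apply Subtype.ext
  rw [sigKL_coe, iK_coe]
  exact x.2.2

theorem exists_iK {x : KL p L} (h : D.sigKL x = x) : ∃ y : D.K, D.iK y = x :=
  ⟨⟨(x : Q p L), x.2, congrArg Subtype.val h⟩, rfl⟩

theorem iK_cK (c : F) : D.iK (D.cK c) = cKL p L (algebraMap F L c) := rfl

/-- The element `X 1 / X 0`. -/
noncomputable def hn (h1 : 1 < p) : KL p L :=
  ⟨algebraMap (S p L) (Q p L) (X ⟨1, h1⟩) / algebraMap (S p L) (Q p L) (X ⟨0, D.hp.pos⟩),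
    1, X ⟨1, h1⟩, X ⟨0, D.hp.pos⟩, isHomogeneous_X _ _, isHomogeneous_X _ _, X_ne_zero _, rfl⟩

theorem hn_ne (h1 : 1 < p) : D.hn h1 ≠ 0 := by
  intro h
  have h2 : algebraMap (S p L) (Q p L) (X ⟨1, h1⟩) /
      algebraMap (S p L) (Q p L) (X ⟨0, D.hp.pos⟩) = 0 := congrArg Subtype.val h
  exact div_ne_zero ((map_ne_zero_iff _ Q_inj).2 (X_ne_zero _))
    ((map_ne_zero_iff _ Q_inj).2 (X_ne_zero _)) h2

theorem hn_norm (h1 : 1 < p) :
    ∏ i ∈ Finset.range p, D.sigKL^[i] (D.hn h1) = cKL p L D.bL := by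
  apply Subtype.ext
  have h := D.norm_xi h1
  have e : ((∏ i ∈ Finset.range p, D.sigKL^[i] (D.hn h1) : KL p L) : Q p L) =
      ∏ i ∈ Finset.range p, ((D.sigKL^[i] (D.hn h1) : KL p L) : Q p L) :=
    map_prod (KL p L).subtype _ _
  rw [e, Finset.prod_congr rfl fun i _ => D.sigKL_iter_coe (D.hn h1) i]
  exact h

end Dat

end Pool.Agent.MSX
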