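import Pool.Agent.MSX.Defs

/-! # Homogeneous factors of homogeneous polynomials

PROOFS.

* `hom_of_mul`.  Let `f, g ≠ 0` over a domain.  Let `i` be the smallest and `i'` the largest degree
  with nonzero homogeneous component of `f` (`MvPolynomial.homogeneousComponent`), `j ≤ j'` the same
  for `g`.  The component of degree `i + j` of `f * g` is the product `f_i g_j ≠ 0`, the component of
  degree `i' + j'` is `f_{i'} g_{j'} ≠ 0`.  As `f * g` is homogeneous of degree `n`, `i + j = n = i' + j'`,
  so `i = i'`, `j = j'`.  (A short way: `MvPolynomial.totalDegree_mul` for the top degree in a domain and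
  for the lowest degree; or map `f` to the polynomial in one more variable `T` with `X i ↦ T * X i`,
  `Polynomial (MvPolynomial σ R)`: a product of two polynomials over a domain is a monomial `T^n * c` only
  if both factors are monomials, and `f` is homogeneous of degree `i` iff its image is `T^i * f`.)

* `exists_irr`: if `f` is homogeneous of degree `n > 0` and nonzero, it is not a unit (units are
  constants of degree 0: `MvPolynomial.isUnit_iff_totalDegree_of_isReduced` or
  `MvPolynomial.totalDegree_mul`); so it has an irreducible factor (`WfDvdMonoid.exists_irreducible_factor`),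
  homogeneous by `hom_of_mul`.

* `ofIrr`: take `P = ⟨span {f}, f, n, ..⟩`; `Ideal.span_singleton_eq_span_singleton` gives the associate.

* `factor`: induction on `n` (strong): `n = 0`: `f = C c` (`MvPolynomial.totalDegree_eq_zero_iff_eq_C` or
  `homogeneousSubmodule_zero`).  `n > 0`: take `P` with `f = P.gen * g`, `g` homogeneous of smaller
  degree (`P.gen` has positive degree since it is not a unit: `gen_deg_pos`).

* `gen_deg_pos`: a homogeneous polynomial of degree `0` is a constant, so zero or a unit.
-/

set_option autoImplicit false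

namespace Pool.Agent.MSX

open MvPolynomial

universe u v w

/-- the polynomial in one more variable whose coefficients are the homogeneous components -/
noncomputable def grT {σ : Type v} {R : Type w} [CommRing R] :
    MvPolynomial σ R →+* Polynomial (MvPolynomial σ R) :=
  eval₂Hom ((Polynomial.C : MvPolynomial σ R →+* Polynomial (MvPolynomial σ R)).comp C)
    (fun i => Polynomial.C (X i) * Polynomial.X)

theorem grT_monomial {σ : Type v} {R : Type w} [CommRing R] (d : σ →₀ ℕ) (r : R) :
    grT (monomial d r) = Polynomial.C (monomial d r) * Polynomial.X ^ d.degree := by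
  unfold grT
  rw [coe_eval₂Hom, eval₂_monomial, monomial_eq, map_mul, RingHom.comp_apply, mul_assoc]
  congr 1
  rw [Finsupp.prod, Finsupp.prod, map_prod, Finsupp.degree_apply, ← Finset.prod_pow_eq_pow_sum,
    ← Finset.prod_mul_distrib]
  refine Finset.prod_congr rfl fun i _ => ?_
  rw [mul_pow, map_pow]

theorem grT_coeff {σ : Type v} {R : Type w} [CommRing R] (f : MvPolynomial σ R) (n : ℕ) :
    (grT f).coeff n = homogeneousComponent n f := by
  induction f using MvPolynomial.induction_on' with
  | monomial d r =>
    rw [grT_monomial, Polynomial.coeff_C_mul_X_pow,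
      homogeneousComponent_of_mem (n := d.degree) (isHomogeneous_monomial r rfl)]
  | add f g hf hg =>
    rw [map_add, Polynomial.coeff_add, hf, hg, map_add]

theorem grT_ne_zero {σ : Type v} {R : Type w} [CommRing R] {f : MvPolynomial σ R} (h : f ≠ 0) :
    grT f ≠ 0 := by
  intro h0
  apply h
  rw [← sum_homogeneousComponent f]
  refine Finset.sum_eq_zero fun i _ => ?_
  rw [← grT_coeff, h0, Polynomial.coeff_zero]

theorem hom_of_grT {σ : Type v} {R : Type w} [CommRing R] {f : MvPolynomial σ R} {i : ℕ}
    (h : ∀ j, j ≠ i → (grT f).coeff j = 0) : f.IsHomogeneous i := by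
  have h1 : homogeneousComponent i f = f := by
    conv_rhs => rw [← sum_homogeneousComponent f]
    symm
    by_cases hi : i ∈ Finset.range (f.totalDegree + 1)
    · refine Finset.sum_eq_single i (fun j _ hj => ?_) (fun hn => absurd hi hn)
      rw [← grT_coeff, h j hj]
    · rw [homogeneousComponent_eq_zero i f (by
        rw [Finset.mem_range, not_lt] at hi
        omega)]
      refine Finset.sum_eq_zero fun j hj => ?_
      rw [← grT_coeff, h j]
      rintro rfl
      exact hi hj
  rw [← h1]
  exact homogeneousComponent_isHomogeneous i f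

theorem hom_of_mul {σ : Type v} {R : Type w} [CommRing R] [IsDomain R] {f g : MvPolynomial σ R} {n : ℕ}
    (h : (f * g).IsHomogeneous n) (h0 : f * g ≠ 0) :
    ∃ i j : ℕ, i + j = n ∧ f.IsHomogeneous i ∧ g.IsHomogeneous j := by
  have hf0 : f ≠ 0 := left_ne_zero_of_mul h0
  have hg0 : g ≠ 0 := right_ne_zero_of_mul h0
  have hF := grT_ne_zero hf0
  have hG := grT_ne_zero hg0
  have hfg : grT (f * g) = Polynomial.C (f * g) * Polynomial.X ^ n := by
    ext1 m
    rw [grT_coeff, Polynomial.coeff_C_mul_X_pow, homogeneousComponent_of_mem h]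
  have hmul : grT f * grT g = Polynomial.C (f * g) * Polynomial.X ^ n := by
    rw [← map_mul, hfg]
  have hdeg : (grT f).natDegree + (grT g).natDegree = n := by
    rw [← Polynomial.natDegree_mul hF hG, hmul, Polynomial.natDegree_C_mul_X_pow n _ h0]
  have htr : (grT f).natTrailingDegree + (grT g).natTrailingDegree = n := by
    rw [← Polynomial.natTrailingDegree_mul hF hG, hmul, Polynomial.C_mul_X_pow_eq_monomial,
      Polynomial.natTrailingDegree_monomial h0]
  have hf1 := Polynomial.natTrailingDegree_le_natDegree (grT f)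
  have hg1 := Polynomial.natTrailingDegree_le_natDegree (grT g)
  refine ⟨(grT f).natDegree, (grT g).natDegree, hdeg, hom_of_grT fun j hj => ?_,
    hom_of_grT fun j hj => ?_⟩
  · rcases lt_or_gt_of_ne hj with h1 | h1
    · exact Polynomial.coeff_eq_zero_of_lt_natTrailingDegree (by omega)
    · exact Polynomial.coeff_eq_zero_of_natDegree_lt h1
  · rcases lt_or_gt_of_ne hj with h1 | h1
    · exact Polynomial.coeff_eq_zero_of_lt_natTrailingDegree (by omega)
    · exact Polynomial.coeff_eq_zero_of_natDegree_lt h1

variable {p : ℕ} {L : Type u} [Field L]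

/-- A homogeneous polynomial of degree `0` is a constant. -/
theorem hom_zero {f : S p L} (h : f.IsHomogeneous 0) : ∃ c : L, f = C c := by
  refine ⟨f.coeff 0, ?_⟩
  rw [← totalDegree_eq_zero_iff_eq_C]
  exact (totalDegree_zero_iff_isHomogeneous _).2 h

theorem gen_deg_pos (P : HP p L) : 0 < P.deg := by
  rw [Nat.pos_iff_ne_zero]
  intro h
  have h1 := P.gen_hom
  rw [h] at h1
  obtain ⟨c, hc⟩ := hom_zero h1
  have hc0 : c ≠ 0 := by
    rintro rfl
    rw [map_zero] at hc
    exact P.gen_irr.ne_zero hc
  apply P.gen_irr.not_isUnit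
  rw [hc]
  exact (IsUnit.mk0 c hc0).map C

theorem ofIrr {f : S p L} {n : ℕ} (hf : Irreducible f) (h : f.IsHomogeneous n) :
    ∃ P : HP p L, Associated P.gen f ∧ P.I = Ideal.span {f} := by
  refine ⟨⟨Ideal.span {f}, f, n, hf, h, rfl⟩, ?_, rfl⟩
  rw [← Ideal.span_singleton_eq_span_singleton, ← HP.I_eq]

theorem exists_irr {f : S p L} {n : ℕ} (h : f.IsHomogeneous n) (h0 : f ≠ 0) (hn : 0 < n) :
    ∃ P : HP p L, P.gen ∣ f := by
  have hu : ¬ IsUnit f := by
    intro hu
    rw [isUnit_iff_totalDegree_of_isReduced] at hu
    have h1 := h.totalDegree h0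
    omega
  obtain ⟨q, hq, g, hg⟩ := WfDvdMonoid.exists_irreducible_factor hu h0
  rw [hg] at h h0
  obtain ⟨i, j, -, hi, -⟩ := hom_of_mul h h0
  obtain ⟨P, hP, -⟩ := ofIrr hq hi
  refine ⟨P, ?_⟩
  rw [hg]
  exact (hP.dvd).mul_right g

/-- A divisor of a nonzero homogeneous polynomial is homogeneous. -/
theorem hom_dvd {f g : S p L} {n : ℕ} (h : f.IsHomogeneous n) (h0 : f ≠ 0) (hg : g ∣ f) :
    ∃ i : ℕ, g.IsHomogeneous i := by
  obtain ⟨k, rfl⟩ := hg
  obtain ⟨i, j, -, hi, -⟩ := hom_of_mul h h0
  exact ⟨i, hi⟩

/-- Distinct points have non-associated generators. -/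
theorem gen_dvd_gen {P P' : HP p L} (h : P.gen ∣ P'.gen) : P = P' := by
  apply HP.ext'
  rw [P.I_eq, P'.I_eq, Ideal.span_singleton_eq_span_singleton]
  exact P.gen_irr.associated_of_dvd P'.gen_irr h

/-- Factorization of homogeneous polynomials. -/
theorem factor {f : S p L} {n : ℕ} (h : f.IsHomogeneous n) (h0 : f ≠ 0) :
    ∃ (c : L) (l : List (HP p L)), c ≠ 0 ∧ f = C c * (l.map HP.gen).prod := by
  induction n using Nat.strong_induction_on generalizing f with
  | _ n ih =>
    rcases Nat.eq_zero_or_pos n with hn | hn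
    · rw [hn] at h
      obtain ⟨c, rfl⟩ := hom_zero h
      refine ⟨c, [], ?_, by simp⟩
      rintro rfl
      exact h0 (map_zero _)
    · obtain ⟨P, g, rfl⟩ := exists_irr h h0 hn
      obtain ⟨i, j, hij, hi, hj⟩ := hom_of_mul h h0
      have hiP : i = P.deg := hi.inj_right P.gen_hom P.gen_irr.ne_zero
      have hpos := gen_deg_pos P
      obtain ⟨c, l, hc, hl⟩ := ih j (by omega) hj (right_ne_zero_of_mul h0)
      refine ⟨c, P :: l, hc, ?_⟩
      rw [List.map_cons, List.prod_cons, hl]
      ring

/-- Only finitely many points divide a nonzero polynomial. -/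
theorem finite_dvd {f : S p L} (h0 : f ≠ 0) : {P : HP p L | P.gen ∣ f}.Finite := by
  classical
  refine Set.Finite.of_finite_image (f := HP.I) ?_ (fun P _ P' _ h => HP.ext' h)
  refine ((UniqueFactorizationMonoid.factors f).toFinset.image
    (fun q => Ideal.span {q})).finite_toSet.subset ?_
  rintro _ ⟨P, hP, rfl⟩
  obtain ⟨q, hq, hPq⟩ := UniqueFactorizationMonoid.exists_mem_factors_of_dvd h0 P.gen_irr hP
  rw [Finset.coe_image]
  refine ⟨q, ?_, ?_⟩
  · exact Finset.mem_coe.2 (Multiset.mem_toFinset.2 hq)
  · change Ideal.span {q} = P.I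
    rw [P.I_eq, Ideal.span_singleton_eq_span_singleton]
    exact hPq.symm

end Pool.Agent.MSX
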