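import Pool.Agent.MSX.Uaff
import Pool.Agent.MSX.Cst
import Pool.Agent.MSX.Hom

/-! # Unramified elements of `K₂` of the field `KL p L` are constant

* `unr_trAt`: an element of `K₂(KL)` without tame symbols at the points `P : HP p L` has, in
  `K₂(Q p L)`, no tame symbols at the primes of `S p L`.
* `vH`: the place of `Q p L` of the degree (lowest homogeneous component), with residues in `KL`.
* `unr_h0`: the result.
-/

set_option autoImplicit false

namespace Pool.Agent.MSX

open MvPolynomial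

universe u v

variable {p : ℕ} {L : Type u} [Field L]

/-- `pl P` is a place at the generator of `P` and at its associates. -/
theorem placeAt_pl (P : HP p L) {q : S p L} (hq : Associated P.gen q) :
    MK.PlaceAt (algebraMap (S p L) (Q p L)) q (pl P) := by
  have hiff : ∀ r : S p L, q ∣ r ↔ P.gen ∣ r := fun r => (hq.dvd_iff_dvd_left).symm
  obtain ⟨u, hu⟩ := hq
  have hnu : ¬ P.gen ∣ (u : S p L) := fun h =>
    P.gen_prime.not_isUnit (isUnit_of_dvd_unit h u.isUnit)
  refine ⟨?_, ?_, ?_⟩
  · rw [← hu, map_mul, (pl P).v_mul _ _ ((map_ne_zero_iff _ Q_inj).2 P.gen_prime.ne_zero)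
      ((map_ne_zero_iff _ Q_inj).2 u.ne_zero), (pl_gen P).1, (pl_unit P _ hnu).1]
    norm_num
  · intro r hr
    exact (pl_unit P r fun h => hr ((hiff r).2 h)).1
  · intro f g hf hg h
    rw [(pl_unit P f fun h => hf ((hiff f).2 h)).2,
      (pl_unit P g fun h => hg ((hiff g).2 h)).2] at h
    rw [hiff, ← red_eq_zero, map_sub, h, sub_self]

theorem unr_trAt (w : MK.K2 (KL p L))
    (h : ∀ P : HP p L, tm P (MK.K2.map (KL p L).subtype w) = 0) (q : S p L) (hq : Prime q) :
    TrAt (algebraMap (S p L) (Q p L)) (MK.K2.map (KL p L).subtype w) q := by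
  by_cases hh : ∃ n : ℕ, q.IsHomogeneous n
  · obtain ⟨n, hn⟩ := hh
    obtain ⟨P, hP, -⟩ := ofIrr hq.irreducible hn
    exact trAt_of Q_inj Q_frac hq _ (pl P) (placeAt_pl P hP) (h P)
  · intro k _ W hW
    have hv : ∀ x : KL p L, x ≠ 0 → W.v ((KL p L).subtype x) = 0 := by
      rintro ⟨x, n, f, g, hf, hg, hg0, hx⟩ hx0
      have hx1 : x ≠ 0 := fun h0 => hx0 (Subtype.ext h0)
      have hf0 : f ≠ 0 := by
        rintro rfl
        exact hx1 (by rw [hx, map_zero, zero_div])
      have e1 : ¬ q ∣ f := fun hd => hh (hom_dvd hf hf0 hd)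
      have e2 : ¬ q ∣ g := fun hd => hh (hom_dvd hg hg0 hd)
      change W.v x = 0
      rw [hx, W.v_div ((map_ne_zero_iff _ Q_inj).2 hf0) ((map_ne_zero_iff _ Q_inj).2 hg0),
        hW.v0 f e1, hW.v0 g e2, sub_self]
    clear h
    induction w using MK.K2_induction with
    | hS a b ha hb =>
      rw [MK.K2.map_S]
      exact W.tame_S_units (hv a ha) (hv b hb)
    | hz => rw [map_zero, map_zero]
    | hadd x y hx hy => rw [map_add, map_add, hx, hy, add_zero]

section place

/-- The lowest homogeneous component. -/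
noncomputable def lowC (f : S p L) : S p L := (grT f).trailingCoeff

/-- Its degree. -/
noncomputable def lowD (f : S p L) : ℕ := (grT f).natTrailingDegree

theorem lowD_mul {f g : S p L} (hf : f ≠ 0) (hg : g ≠ 0) : lowD (f * g) = lowD f + lowD g := by
  unfold lowD
  rw [map_mul, Polynomial.natTrailingDegree_mul (grT_ne_zero hf) (grT_ne_zero hg)]

theorem lowC_mul (f g : S p L) : lowC (f * g) = lowC f * lowC g := by
  unfold lowC
  rw [map_mul, Polynomial.trailingCoeff_mul]

theorem lowC_ne {f : S p L} (hf : f ≠ 0) : lowC f ≠ 0 := by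
  unfold lowC
  rw [Ne, Polynomial.trailingCoeff_eq_zero]
  exact grT_ne_zero hf

theorem lowC_hom (f : S p L) : (lowC f).IsHomogeneous (lowD f) := by
  unfold lowC lowD
  rw [Polynomial.trailingCoeff, grT_coeff]
  exact homogeneousComponent_isHomogeneous _ _

theorem low_of_hom {f : S p L} {n : ℕ} (hf : f.IsHomogeneous n) (h0 : f ≠ 0) :
    lowD f = n ∧ lowC f = f := by
  have h1 : grT f = Polynomial.monomial n f := by
    ext1 m
    rw [grT_coeff, Polynomial.coeff_monomial, homogeneousComponent_of_mem hf]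
    by_cases hmn : m = n
    · rw [if_pos hmn, if_pos hmn.symm]
    · rw [if_neg hmn, if_neg (Ne.symm hmn)]
  have h2 : lowD f = n := by
    unfold lowD
    rw [h1, Polynomial.natTrailingDegree_monomial h0]
  refine ⟨h2, ?_⟩
  have h3 : lowC f = (grT f).coeff (lowD f) := rfl
  rw [h3, h2, h1, Polynomial.coeff_monomial, if_pos rfl]

/-- characterization of the lowest component -/
theorem low_eq {f : S p L} {n : ℕ} {c : S p L} (hc : c ≠ 0) (h1 : (grT f).coeff n = c)
    (h2 : ∀ m, m < n → (grT f).coeff m = 0) : lowD f = n ∧ lowC f = c := by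
  have h3 : lowD f = n := by
    unfold lowD
    apply le_antisymm
    · exact Polynomial.natTrailingDegree_le_of_ne_zero (by rw [h1]; exact hc)
    · apply Polynomial.le_natTrailingDegree
      · intro h0
        rw [h0, Polynomial.coeff_zero] at h1
        exact hc h1.symm
      · exact h2
  refine ⟨h3, ?_⟩
  have h4 : lowC f = (grT f).coeff (lowD f) := rfl
  rw [h4, h3, h1]

theorem low_coeff (f : S p L) : (grT f).coeff (lowD f) = lowC f := rfl

theorem low_lt {f : S p L} {m : ℕ} (h : m < lowD f) : (grT f).coeff m = 0 :=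
  Polynomial.coeff_eq_zero_of_lt_natTrailingDegree h

variable (hp : 0 < p)

theorem X0_pow_hom (n : ℕ) : ((X ⟨0, hp⟩ : S p L) ^ n).IsHomogeneous n := by
  have h := (isHomogeneous_X L (⟨0, hp⟩ : Fin p)).pow n
  rwa [one_mul] at h

theorem lowK_mem (f : S p L) : algebraMap (S p L) (Q p L) (lowC f) /
    algebraMap (S p L) (Q p L) ((X ⟨0, hp⟩ : S p L) ^ lowD f) ∈ KL p L :=
  ⟨lowD f, lowC f, (X ⟨0, hp⟩ : S p L) ^ lowD f, lowC_hom f, X0_pow_hom hp _,
    pow_ne_zero _ (X_ne_zero _), rfl⟩

/-- The lowest component divided by a power of `X 0`. -/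
noncomputable def lowK (f : S p L) : KL p L :=
  ⟨algebraMap (S p L) (Q p L) (lowC f) /
    algebraMap (S p L) (Q p L) ((X ⟨0, hp⟩ : S p L) ^ lowD f), lowK_mem hp f⟩

theorem lowK_coe (f : S p L) : ((lowK hp f : KL p L) : Q p L) =
    algebraMap (S p L) (Q p L) (lowC f) /
      algebraMap (S p L) (Q p L) ((X ⟨0, hp⟩ : S p L) ^ lowD f) := rfl

theorem X0_ne : algebraMap (S p L) (Q p L) (X ⟨0, hp⟩) ≠ 0 :=
  (map_ne_zero_iff _ Q_inj).2 (X_ne_zero _)

theorem lowK_eq {f : S p L} {n : ℕ} {c : S p L} (h1 : lowD f = n) (h2 : lowC f = c) :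
    ((lowK hp f : KL p L) : Q p L) =
      algebraMap (S p L) (Q p L) c / algebraMap (S p L) (Q p L) (X ⟨0, hp⟩) ^ n := by
  rw [lowK_coe, h1, h2, map_pow]

theorem exists_vH : ∃ W : MK.Val (Q p L) (KL p L), ∀ f : S p L, f ≠ 0 →
    W.v (algebraMap (S p L) (Q p L) f) = lowD f ∧
    W.ac (algebraMap (S p L) (Q p L) f) = lowK hp f := by
  refine MK.exists_ofRing (algebraMap (S p L) (Q p L)) Q_inj Q_frac (fun f => (lowD f : ℤ))
    (lowK hp) ?_ ?_ ?_ ?_ ?_ ?_ ?_
  · intro x y hx hy
    simp only [lowD_mul hx hy]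
    push_cast
    ring
  · intro x y hx hy
    apply Subtype.ext
    rw [MulMemClass.coe_mul, lowK_eq hp (lowD_mul hx hy) (lowC_mul x y), lowK_eq hp rfl rfl,
      lowK_eq hp rfl rfl, map_mul, pow_add, mul_div_mul_comm]
  · intro x hx h0
    have h1 : ((lowK hp x : KL p L) : Q p L) = 0 := by rw [h0]; rfl
    rw [lowK_eq hp rfl rfl, div_eq_zero_iff] at h1
    rcases h1 with h1 | h1
    · exact lowC_ne hx ((map_eq_zero_iff _ Q_inj).1 h1)
    · exact pow_ne_zero _ (X0_ne hp) h1
  · apply Subtype.ext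
    have h1 : (-1 : S p L).IsHomogeneous 0 := (isHomogeneous_one (Fin p) L).neg
    obtain ⟨h2, h3⟩ := low_of_hom h1 (neg_ne_zero.2 one_ne_zero)
    rw [lowK_eq hp h2 h3, pow_zero, div_one, map_neg, map_one]
    rfl
  · intro x y z hx hy hz hxyz hlt
    simp only [Nat.cast_lt] at hlt
    obtain ⟨h2, h3⟩ := low_eq (f := y) (n := lowD z) (c := lowC z) (lowC_ne hz) (by
        have e : y = z - x := by rw [← hxyz]; ring
        rw [e, map_sub, Polynomial.coeff_sub, low_coeff, low_lt hlt, sub_zero]) (by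
        intro m hm
        have e : y = z - x := by rw [← hxyz]; ring
        rw [e, map_sub, Polynomial.coeff_sub, low_lt hm, low_lt (hm.trans hlt), sub_zero])
    refine ⟨by simp only [h2], ?_⟩
    apply Subtype.ext
    rw [lowK_eq hp h2 h3, lowK_eq hp rfl rfl]
  · intro x y z hx hy hz hxyz h0x h0y
    simp only [Nat.cast_inj] at h0x h0y
    have h1 : lowC x + lowC y = lowC z := by
      rw [← low_coeff, ← low_coeff, ← low_coeff, h0x, h0y, ← Polynomial.coeff_add, ← map_add, hxyz]
    apply Subtype.ext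
    rw [AddMemClass.coe_add, lowK_eq hp h0x rfl, lowK_eq hp h0y rfl, lowK_eq hp rfl rfl,
      ← add_div, ← map_add, h1]
  · intro x y z hx hy hz hxyz hlt
    simp only [Nat.cast_lt] at hlt
    obtain ⟨h2, h3⟩ := low_eq (f := y) (n := lowD x) (c := - lowC x)
      (neg_ne_zero.2 (lowC_ne hx)) (by
        have e : y = z - x := by rw [← hxyz]; ring
        rw [e, map_sub, Polynomial.coeff_sub, low_coeff, low_lt hlt, zero_sub]) (by
        intro m hm
        have e : y = z - x := by rw [← hxyz]; ring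
        rw [e, map_sub, Polynomial.coeff_sub, low_lt hm, low_lt (hm.trans hlt), sub_zero])
    refine ⟨by simp only [h2], ?_⟩
    apply Subtype.ext
    rw [NegMemClass.coe_neg, lowK_eq hp h2 h3, lowK_eq hp rfl rfl, map_neg, neg_div]

end place

/-- The map `K₂(KL) → K₂(Q)` is injective. -/
theorem map_KL_inj (hp : 0 < p) :
    Function.Injective (MK.K2.map (KL p L).subtype) := by
  obtain ⟨W, hW⟩ := exists_vH (L := L) hp
  have hac : ∀ x : KL p L, W.ac ((KL p L).subtype x) = x := by
    rintro ⟨x, n, f, g, hf, hg, hg0, hx⟩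
    by_cases hf0 : f = 0
    · have hx0 : x = 0 := by rw [hx, hf0, map_zero, zero_div]
      subst hx0
      change W.ac 0 = _
      rw [W.ac_zero]
      rfl
    · apply Subtype.ext
      change ((W.ac x : KL p L) : Q p L) = x
      obtain ⟨h1, h2⟩ := low_of_hom hf hf0
      obtain ⟨h3, h4⟩ := low_of_hom hg hg0
      have h5 := pow_ne_zero n (X0_ne (L := L) hp)
      rw [hx, W.ac_div, (hW f hf0).2, (hW g hg0).2]
      have h6 : ((lowK hp f / lowK hp g : KL p L) : Q p L) =
        ((lowK hp f : KL p L) : Q p L) / ((lowK hp g : KL p L) : Q p L) := rfl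
      rw [h6, lowK_eq hp h1 h2, lowK_eq hp h3 h4, div_div_div_cancel_right₀ h5]
  have h : ∀ x : MK.K2 (KL p L), W.spec (MK.K2.map (KL p L).subtype x) = x := by
    intro x
    induction x using MK.K2_induction with
    | hS a b ha hb => rw [MK.K2.map_S, MK.Val.spec_S, hac, hac]
    | hz => rw [map_zero, map_zero]
    | hadd x y hx hy => rw [map_add, map_add, hx, hy]
  intro x y hxy
  rw [← h x, ← h y, hxy]

/-- Unramified elements of `K₂` of the function field of projective space are constant. -/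
theorem unr_h0 (hp : 0 < p) (w : MK.K2 (KL p L))
    (h : ∀ P : HP p L, tm P (MK.K2.map (KL p L).subtype w) = 0) :
    ∃ w0 : MK.K2 L, MK.K2.map (cKL p L) w0 = w := by
  obtain ⟨w0, hw0⟩ := uaff L p (MK.K2.map (KL p L).subtype w) (unr_trAt w h)
  refine ⟨w0, map_KL_inj hp ?_⟩
  rw [← hw0, MK.K2.map_map]
  rfl

end Pool.Agent.MSX
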