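import Pool.Agent.MSX.Ems
import Pool.Agent.MSX.Glue

/-! # From local information on the tame symbols to a good family

Let `w ∈ K2 D.K` be such that for every embedding `φ : D.K → k((t))` over `F` the tame symbol of `φ w` is `ε v^(p^M)` with `ε` a root of unity of
`p`-power order.  Then `p^s • tmK w = (p^M p^s) • z` with a good family `z`.

PROOF.  For a point `P` take the embedding of `exists_emb`: `j t = ε v^(p^M)` with `t = tm P w` in `D.kx P`, so
`v^(p^M p^l) = j (t^(p^l))` and `v` is algebraic over `D.kx P`; so `v = j v'` and `t^(p^l) = v'^(p^M p^l)`.  Let `s` be the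
maximum of the `l` over the finite support and use `glue`.
-/

set_option autoImplicit false

namespace Pool.Agent.MSX

open MvPolynomial

universe u

variable {p : ℕ} {F L : Type u} [Field F] [Field L] [Algebra F L] (D : Dat p F L)

namespace Dat

theorem res_loc [PerfectField L] (w : MK.K2 D.K) (M : ℕ)
    (H : ∀ (k : Type u) [Field k] (b : F →+* k) (φ : D.K →+* LaurentSeries k),
      (∀ x, φ (D.cK x) = HahnSeries.C (b x)) → ∃ (ε v : kˣ) (l : ℕ), ε ^ p ^ l = 1 ∧
        (lv k).tame (MK.K2.map φ w) = Additive.ofMul (ε * v ^ p ^ M)) (P : HP p L) :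
    ∃ (l : ℕ) (x : Additive (kap P)ˣ), ((x.toMul : (kap P)ˣ) : kap P) ∈ D.kx P ∧
      p ^ l • D.tmK w P = (p ^ M * p ^ l) • x := by
  obtain ⟨k, ik, psi, j, jF, h1, -, h3, h4⟩ := D.exists_emb P
  obtain ⟨ε, v, l, hε, hv⟩ := H k jF psi h1
  obtain ⟨t, ht⟩ : ∃ t : D.kx P, (t : kap P) = ((D.tmK w P).toMul : kap P) :=
    ⟨⟨_, D.tmK_kx w P⟩, rfl⟩
  have h5 := h3 w t ht
  rw [hv] at h5
  have h6 : (ε : k) * (v : k) ^ p ^ M = j t := by
    rw [← h5]
    simp
  have h7 : (v : k) ^ (p ^ M * p ^ l) = j (t ^ p ^ l) := by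
    rw [map_pow, ← h6, mul_pow, ← pow_mul]
    have h8 : (ε : k) ^ p ^ l = 1 := by
      rw [← Units.val_pow_eq_pow_val, hε, Units.val_one]
    rw [h8, one_mul]
  have hN : p ^ M * p ^ l ≠ 0 := by
    have := D.hp.pos
    positivity
  obtain ⟨v', hv'⟩ := h4 (v : k) (Polynomial.X ^ (p ^ M * p ^ l) - Polynomial.C (t ^ p ^ l))
    (Polynomial.X_pow_sub_C_ne_zero (Nat.pos_of_ne_zero hN) _) (by
      rw [Polynomial.eval₂_sub, Polynomial.eval₂_pow, Polynomial.eval₂_X, Polynomial.eval₂_C, h7,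
        sub_self])
  have h8 : v' ^ (p ^ M * p ^ l) = t ^ p ^ l := by
    apply j.injective
    rw [map_pow, hv', h7]
  have hv0 : v' ≠ 0 := by
    rintro rfl
    rw [map_zero] at hv'
    exact v.ne_zero hv'.symm
  have hv1 : (v' : kap P) ≠ 0 := fun h => hv0 (Subtype.ext h)
  refine ⟨l, Additive.ofMul (Units.mk0 (v' : kap P) hv1), ?_, ?_⟩
  · exact v'.2
  · apply Additive.toMul.injective
    apply Units.ext
    rw [toMul_nsmul, toMul_nsmul, Units.val_pow_eq_pow_val, Units.val_pow_eq_pow_val, ← ht]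
    change (t : kap P) ^ p ^ l = (v' : kap P) ^ (p ^ M * p ^ l)
    have h9 := congrArg (fun z : D.kx P => (z : kap P)) h8
    exact h9.symm

theorem res_glue [PerfectField L] (w : MK.K2 D.K) (M : ℕ)
    (H : ∀ (k : Type u) [Field k] (b : F →+* k) (φ : D.K →+* LaurentSeries k),
      (∀ x, φ (D.cK x) = HahnSeries.C (b x)) → ∃ (ε v : kˣ) (l : ℕ), ε ^ p ^ l = 1 ∧
        (lv k).tame (MK.K2.map φ w) = Additive.ofMul (ε * v ^ p ^ M)) :
    ∃ (s : ℕ) (z : Fam p L), D.Good z ∧ p ^ s • D.tmK w = (p ^ M * p ^ s) • z := by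
  choose l x hx1 hx2 using D.res_loc w M H
  have hfin := (D.good_tmK w).fin
  obtain ⟨s, hs⟩ : ∃ s : ℕ, ∀ P, D.tmK w P ≠ 0 → l P ≤ s := by
    refine ⟨hfin.toFinset.sup l, fun P hP => ?_⟩
    exact Finset.le_sup (f := l) (hfin.mem_toFinset.2 hP)
  refine ⟨s, D.glue (D.good_tmK w) (p ^ s) (p ^ M * p ^ s) fun P => ?_⟩
  by_cases h0 : D.tmK w P = 0
  · refine ⟨0, ?_, ?_⟩
    · rw [toMul_zero, Units.val_one]
      exact one_mem _
    · rw [h0, smul_zero, smul_zero]
  · refine ⟨x P, hx1 P, ?_⟩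
    obtain ⟨d, hd⟩ := Nat.exists_eq_add_of_le (hs P h0)
    have e1 : p ^ s = p ^ d * p ^ l P := by
      rw [hd, pow_add, mul_comm]
    have e2 : p ^ M * p ^ s = p ^ d * (p ^ M * p ^ l P) := by
      rw [e1]
      ring
    rw [e2, e1, mul_smul, mul_smul, hx2 P]

end Dat

end Pool.Agent.MSX
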