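import Pool.Agent.MSX.PSp

/-! # Fields whose finite extensions have degree a power of `p`

`PS p K`: every irreducible polynomial over `K` has degree a power of `p`.

PROOFS.

* `PS.root`: a polynomial `f ≠ 0` of degree `< p` and positive degree has a root in `K`: an irreducible factor has degree
  `p ^ m ≤ f.natDegree < p`, so it has degree one (`Irreducible.natDegree_pos`).

* `PS.irr`: a polynomial of degree `p` without root is irreducible: otherwise it is a product of two
  factors of positive degree `< p`, and each has a root by `PS.root`.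

* `PS.prim`: let `q` be a prime, `(q : K) ≠ 0`, `p` not dividing `q - 1`.  Then `K` contains a primitive `q`-th root of
  unity.  The cyclotomic polynomial `Φ_q` over `K` has degree `q - 1 > 0` (if `q = 2` take `-1`); let `g` be an
  irreducible factor and `z` a root of `g` in the field `M = AdjoinRoot g`; `z` is a primitive `q`-th root of unity
  (`Polynomial.isRoot_cyclotomic_iff`, `NeZero (q : K)`).  `M = K(z)` is Galois over `K` and its Galois group
  embeds in `(ZMod q)ˣ` (`IsPrimitiveRoot.autToPow`, `IsPrimitiveRoot.autToPow_injective`,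
  `IsCyclotomicExtension`), so `[M : K] = g.natDegree` divides `q - 1`.  It is a power of `p` and `p` does not
  divide `q - 1`, so it is `1` and `z` lies in `K`.

* `exists_k`: for `p` an odd prime and `K` a field there is a prime `q` which is a primitive root modulo `p` (its class
  generates `(ZMod p)ˣ`) with `(q : K) ≠ 0`: Dirichlet's theorem (`Nat.setOf_prime_and_eq_mod_infinite` or
  `Nat.infinite_setOf_prime_and_eq_mod`), infinitely many such `q`, at most one of them is the characteristic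
  of `K`.  For such `q`: `p` does not divide `q - 1` (else `(ZMod p)ˣ` is trivial, but it has `p - 1 ≥ 2` elements), and
  `p` does not divide `q ^ 2 - q ^ j = q ^ 2 (1 - q ^ (j - 2))` for `3 ≤ j ≤ p - 1`, since `0 < j - 2 < p - 1 = ord (q)`.
-/

set_option autoImplicit false

namespace Pool.Agent.MSX

universe u

variable {p : ℕ} {K : Type u} [Field K]

theorem PS.root (h : PS p K) (hp : p.Prime) (f : Polynomial K) (h0 : 0 < f.natDegree)
    (h1 : f.natDegree < p) : ∃ x : K, f.IsRoot x := by
  have hf0 : f ≠ 0 := by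
    rintro rfl
    simp at h0
  obtain ⟨g, hg, hgf⟩ := Polynomial.exists_irreducible_of_natDegree_pos h0
  obtain ⟨m, hm⟩ := h g hg
  have h2 : g.natDegree ≤ f.natDegree := Polynomial.natDegree_le_of_dvd hgf hf0
  have h3 : m = 0 := by
    by_contra hm0
    have h4 : p ≤ p ^ m := Nat.le_self_pow hm0 p
    omega
  rw [h3, pow_zero] at hm
  obtain ⟨x, hx⟩ := Polynomial.exists_root_of_degree_eq_one
    ((Polynomial.degree_eq_iff_natDegree_eq_of_pos one_pos).2 hm)
  exact ⟨x, hx.dvd hgf⟩

theorem PS.irr (h : PS p K) (hp : p.Prime) (f : Polynomial K) (h1 : f.natDegree = p)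
    (h2 : ∀ x : K, ¬ f.IsRoot x) : Irreducible f := by
  have hf0 : f ≠ 0 := by
    rintro rfl
    exact h2 0 (by simp)
  refine irreducible_iff.2 ⟨fun hu => ?_, fun a b hab => ?_⟩
  · have h3 := Polynomial.natDegree_eq_zero_of_isUnit hu
    have := hp.pos
    omega
  · by_contra hcon
    rw [not_or] at hcon
    have ha0 : a ≠ 0 := by
      rintro rfl
      exact hf0 (by rw [hab, zero_mul])
    have hb0 : b ≠ 0 := by
      rintro rfl
      exact hf0 (by rw [hab, mul_zero])
    have h3 : a.natDegree + b.natDegree = p := by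
      rw [← Polynomial.natDegree_mul ha0 hb0, ← hab, h1]
    have h4 : ∀ c : Polynomial K, c ≠ 0 → ¬ IsUnit c → 0 < c.natDegree := by
      intro c hc hu
      rw [Nat.pos_iff_ne_zero]
      intro h5
      apply hu
      rw [Polynomial.isUnit_iff_degree_eq_zero, Polynomial.degree_eq_natDegree hc, h5]
      rfl
    have h5 := h4 a ha0 hcon.1
    have h6 := h4 b hb0 hcon.2
    obtain ⟨x, hx⟩ := h.root hp a h5 (by omega)
    exact h2 x (hx.dvd ⟨b, hab⟩)

theorem PS.prim (h : PS p K) (hp : p.Prime) (q : ℕ) (hq : q.Prime) (hqK : (q : K) ≠ 0)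
    (hqp : ¬ p ∣ q - 1) : ∃ z : K, IsPrimitiveRoot z q := by
  classical
  have hne : NeZero q := ⟨hq.ne_zero⟩
  have hneK : NeZero (q : K) := ⟨hqK⟩
  have hq2 := hq.two_le
  have hd : (Polynomial.cyclotomic q K).natDegree = q - 1 := by
    rw [Polynomial.natDegree_cyclotomic, Nat.totient_prime hq]
  obtain ⟨g, hg, hgf⟩ := Polynomial.exists_irreducible_of_natDegree_pos
    (f := Polynomial.cyclotomic q K) (by omega)
  obtain ⟨m, hm⟩ := h g hg
  have hF : Fact (Irreducible g) := ⟨hg⟩
  have hneM : NeZero (q : AdjoinRoot g) := NeZero.nat_of_injective (algebraMap K (AdjoinRoot g)).injective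
  have hz : IsPrimitiveRoot (AdjoinRoot.root g) q := by
    rw [← Polynomial.isRoot_cyclotomic_iff, ← Polynomial.map_cyclotomic q (AdjoinRoot.of g)]
    exact (AdjoinRoot.isRoot_root g).dvd (Polynomial.map_dvd _ hgf)
  have hC : IsCyclotomicExtension {q} K (AdjoinRoot g) := by
    rw [IsCyclotomicExtension.iff_singleton]
    refine ⟨⟨_, hz⟩, fun x => ?_⟩
    have h1 : x ∈ Algebra.adjoin K ({AdjoinRoot.root g} : Set (AdjoinRoot g)) := by
      rw [AdjoinRoot.adjoinRoot_eq_top]
      exact Algebra.mem_top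
    refine Algebra.adjoin_mono ?_ h1
    rintro y rfl
    exact hz.pow_eq_one
  have hG : IsGalois K (AdjoinRoot g) := IsCyclotomicExtension.isGalois {q} K (AdjoinRoot g)
  have hfd : FiniteDimensional K (AdjoinRoot g) :=
    IsCyclotomicExtension.finiteDimensional {q} K (AdjoinRoot g)
  have h2 : Module.finrank K (AdjoinRoot g) = g.natDegree := by
    rw [(AdjoinRoot.powerBasis hg.ne_zero).finrank, AdjoinRoot.powerBasis_dim]
  have h3 : Nat.card (AdjoinRoot g ≃ₐ[K] AdjoinRoot g) ∣ Nat.card (ZMod q)ˣ :=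
    Subgroup.card_dvd_of_injective _ (hz.autToPow_injective K)
  rw [IsGalois.card_aut_eq_finrank, h2, hm, Nat.card_eq_fintype_card, ZMod.card_units_eq_totient,
    Nat.totient_prime hq] at h3
  have hm0 : m = 0 := by
    by_contra hm0
    exact hqp ((dvd_pow_self p hm0).trans h3)
  rw [hm0, pow_zero] at hm
  obtain ⟨x, hx⟩ := Polynomial.exists_root_of_degree_eq_one
    ((Polynomial.degree_eq_iff_natDegree_eq_of_pos one_pos).2 hm)
  exact ⟨x, Polynomial.isRoot_cyclotomic_iff.1 (hx.dvd hgf)⟩

theorem exists_k (hp : p.Prime) (h2 : 2 < p) : ∃ q : ℕ, q.Prime ∧ (q : K) ≠ 0 ∧ ¬ p ∣ q - 1 ∧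
    ∀ j : ℕ, 3 ≤ j → j < p → ¬ (p : ℤ) ∣ (q : ℤ) ^ 2 - (q : ℤ) ^ j := by
  have hF : Fact p.Prime := ⟨hp⟩
  have hne : NeZero p := ⟨hp.ne_zero⟩
  obtain ⟨u, hu⟩ := IsCyclic.exists_generator (α := (ZMod p)ˣ)
  have hord : orderOf u = p - 1 := by
    rw [orderOf_eq_card_of_forall_mem_zpowers hu, Nat.card_eq_fintype_card, ZMod.card_units]
  have hinf := Nat.infinite_setOfPred_prime_and_eq_mod (q := p) (a := (u : ZMod p)) u.isUnit
  have hfin : {q : ℕ | q.Prime ∧ (q : K) = 0}.Finite := by
    refine Set.Subsingleton.finite ?_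
    rintro a ⟨ha, ha'⟩ b ⟨hb, hb'⟩
    by_contra hab
    have hc : IsCoprime (a : ℤ) (b : ℤ) := Nat.isCoprime_iff_coprime.2 ((Nat.coprime_primes ha hb).2 hab)
    obtain ⟨x, y, hxy⟩ := hc
    have h1 := congrArg (Int.cast : ℤ → K) hxy
    push_cast at h1
    rw [ha', hb', mul_zero, mul_zero, add_zero] at h1
    exact zero_ne_one h1
  obtain ⟨q, ⟨hq, hqu⟩, hq'⟩ := hinf.exists_notMem_finite hfin
  refine ⟨q, hq, fun h => hq' ⟨hq, h⟩, ?_, ?_⟩
  · intro hd
    have h3 : (q : ZMod p) = 1 := by
      have h4 : ((q - 1 : ℕ) : ZMod p) = 0 := (ZMod.natCast_eq_zero_iff _ _).2 hd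
      rw [Nat.cast_sub hq.one_le, Nat.cast_one, sub_eq_zero] at h4
      exact h4
    rw [hqu] at h3
    have h5 : u = 1 := Units.ext h3
    rw [h5, orderOf_one] at hord
    omega
  · intro j hj hjp hd
    have h3 : (q : ZMod p) ^ 2 = (q : ZMod p) ^ j := by
      have h4 := (ZMod.intCast_zmod_eq_zero_iff_dvd _ _).2 hd
      push_cast at h4
      exact sub_eq_zero.1 h4
    rw [hqu] at h3
    have h5 : u ^ 2 = u ^ j := Units.ext (by push_cast; exact h3)
    have h6 : u ^ (j - 2) = 1 := by
      have h7 : u ^ 2 * u ^ (j - 2) = u ^ 2 := by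
        rw [← pow_add, Nat.add_sub_cancel' (by omega), h5]
      exact mul_eq_left.1 h7
    have h8 := orderOf_dvd_of_pow_eq_one h6
    rw [hord] at h8
    have h9 := Nat.le_of_dvd (by omega) h8
    omega

end Pool.Agent.MSX
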