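import Pool.Agent.MSX.AnB
import Pool.Agent.MSX.Hil

/-! # Semilinear operators with `τ^p = b^n`, `p ∤ n`: the division property

`D.IsTau n τ`: `τ : V → V` additive, `τ (l v) = s(l) τ v`, `τ^p = b^n`.

PROOFS.

* `exists_mat`: `B i j = e.repr (τ (e j)) i`.  Then `e.equivFun (τ v) = B s(e.equivFun v)` (additive and semilinear in `v`; write
  `v = ∑ j, c_j e_j`).  By `tau_iter`, `itM s B p` maps every vector (all vectors are of the form `s^p (w) = w`) to
  `b^n` times itself (`pw`), so it is `b^n • 1` (apply to the standard basis: `Matrix.mulVec_single_one` or `Matrix.ext_of_mulVec_single`).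

* `norm_det`: `det (itM s B k) = ∏_{i<k} s^i (det B)` by induction (`RingHom.map_det`, `Finset.prod_range_succ'`); for
  `k = p` the left side is `det (b^n • 1) = b^(n * card)`.

* `dvd_of_norm`: if `p ∤ m` then `x m + y p = 1` (`Int.isCoprime_iff_gcd_eq_one` / `Nat.Prime`), and
  `N (z^x * b^y) = b^(m x) * b^(p y) = b`, contradiction to `D.Div`.  (See `inv_gen` in CnvB for the same computation.)

* `dvd_finrank`: choose a basis indexed by `Fin (finrank L V)`; `norm_det` and `dvd_of_norm` give `p ∣ n * finrank`, and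
  `p` is prime, `p ∤ n`.
-/

set_option autoImplicit false

namespace Pool.Agent.MSX

universe u v w

variable {p : ℕ} {F L : Type u} [Field F] [Field L] [Algebra F L] (D : Dat p F L)

/-- A semilinear operator with `p`-th power `b^n`. -/
structure Dat.IsTau (n : ℤ) {V : Type v} [AddCommGroup V] [Module L V] (τ : V →+ V) : Prop where
  sl : ∀ (l : L) (v : V), τ (l • v) = D.s l • τ v
  pw : ∀ v : V, τ^[p] v = D.bL ^ n • v

/-- The restriction of an additive map to a stable submodule. -/
def resT {V : Type v} [AddCommGroup V] [Module L V] (τ : V →+ V) (U : Submodule L V)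
    (hU : ∀ v ∈ U, τ v ∈ U) : U →+ U where
  toFun v := ⟨τ (v : V), hU v v.2⟩
  map_zero' := Subtype.ext (map_zero τ)
  map_add' v w := Subtype.ext (map_add τ (v : V) (w : V))

theorem resT_coe {V : Type v} [AddCommGroup V] [Module L V] (τ : V →+ V) (U : Submodule L V)
    (hU : ∀ v ∈ U, τ v ∈ U) (v : U) : (resT τ U hU v : V) = τ (v : V) := rfl

namespace Dat

variable {n : ℤ} {V : Type v} [AddCommGroup V] [Module L V] {τ : V →+ V}

theorem tau_bm_isTau (n : ℤ) : D.IsTau n (D.tau (D.Bm n)) :=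
  ⟨D.tau_smul _, D.tau_bm_pow n⟩

theorem tau_bp_isTau (n : ℤ) : D.IsTau n (D.tau (D.Bp n)) :=
  ⟨D.tau_smul _, D.tau_bp_pow n⟩

theorem IsTau.sub {D : Dat p F L} (h : D.IsTau n τ) (U : Submodule L V) (hU : ∀ v ∈ U, τ v ∈ U) :
    D.IsTau n (resT τ U hU) := by
  have key : ∀ (k : ℕ) (v : U), (((resT τ U hU)^[k] v : U) : V) = τ^[k] (v : V) := by
    intro k
    induction k with
    | zero => exact fun v => rfl
    | succ k ih =>
      intro v
      rw [Function.iterate_succ_apply, Function.iterate_succ_apply, ih, resT_coe]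
  refine ⟨fun l v => Subtype.ext ?_, fun v => Subtype.ext ?_⟩
  · rw [resT_coe, Submodule.coe_smul, h.sl, Submodule.coe_smul, resT_coe]
  · rw [key, h.pw, Submodule.coe_smul]

theorem exists_mat (h : D.IsTau n τ) {ι : Type w} [Fintype ι] [DecidableEq ι] (e : Module.Basis ι L V) :
    ∃ B : Matrix ι ι L, (∀ v, e.equivFun (τ v) = D.tau B (e.equivFun v)) ∧
      itM D.s.toRingEquiv B p = (D.bL ^ n) • 1 := by
  obtain ⟨B, hB⟩ : ∃ B : Matrix ι ι L, B = Matrix.of fun i j => e.equivFun (τ (e j)) i := ⟨_, rfl⟩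
  have key : ∀ v, e.equivFun (τ v) = D.tau B (e.equivFun v) := by
    intro v
    funext i
    have h1 : τ v = ∑ j, D.s (e.equivFun v j) • τ (e j) := by
      conv_lhs => rw [← e.sum_equivFun v]
      rw [map_sum]
      exact Finset.sum_congr rfl fun j _ => h.sl _ _
    rw [h1, map_sum, Finset.sum_apply, D.tau_apply, Matrix.mulVec, dotProduct]
    refine Finset.sum_congr rfl fun j _ => ?_
    rw [map_smul, Pi.smul_apply, smul_eq_mul, mul_comm, hB]
    rfl
  refine ⟨B, key, ?_⟩
  have hs : Function.Semiconj e.equivFun τ (D.tau B) := key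
  have h2 : ∀ w : ι → L, (itM D.s.toRingEquiv B p).mulVec w = D.bL ^ n • w := by
    intro w
    have h3 := hs.iterate_right p (e.equivFun.symm w)
    rw [h.pw, map_smul, LinearEquiv.apply_symm_apply, D.tau_iter] at h3
    have h4 : (fun i => (D.s ^ p) (w i)) = w := funext fun i => D.s_pow (w i)
    rw [h4] at h3
    exact h3.symm
  refine Matrix.ext_of_mulVec_single fun i => ?_
  rw [h2, Matrix.smul_mulVec, Matrix.one_mulVec]

private theorem N_mul42 (x y : L) : D.N (x * y) = D.N x * D.N y := by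
  unfold N
  rw [← Finset.prod_mul_distrib]
  exact Finset.prod_congr rfl fun i _ => map_mul _ _ _

private theorem N_zpow42 (x : L) (k : ℤ) : D.N (x ^ k) = D.N x ^ k := by
  unfold N
  rw [← Finset.prod_zpow]
  exact Finset.prod_congr rfl fun i _ => map_zpow₀ _ _ _

private theorem N_bL42 : D.N D.bL = D.bL ^ p := by
  unfold N
  have h : ∀ i ∈ Finset.range p, (D.s ^ i) D.bL = D.bL := fun i _ => (D.s ^ i).commutes D.b
  rw [Finset.prod_congr rfl h, Finset.prod_const, Finset.card_range]

private theorem det_itM42 {ι : Type w} [Fintype ι] [DecidableEq ι] (B : Matrix ι ι L) (k : ℕ) :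
    (itM D.s.toRingEquiv B k).det = ∏ i ∈ Finset.range k, (D.s ^ i) B.det := by
  induction k with
  | zero =>
    rw [Finset.range_zero, Finset.prod_empty]
    exact Matrix.det_one
  | succ k ih =>
    have h1 : itM D.s.toRingEquiv B (k + 1) = B * (itM D.s.toRingEquiv B k).map D.s.toRingEquiv := rfl
    have h2 : ((itM D.s.toRingEquiv B k).map D.s.toRingEquiv).det =
        D.s.toRingEquiv (itM D.s.toRingEquiv B k).det :=
      (RingEquiv.map_det D.s.toRingEquiv _).symm
    have h3 : ∀ i : ℕ, D.s.toRingEquiv ((D.s ^ i) B.det) = (D.s ^ (i + 1)) B.det := by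
      intro i
      rw [pow_succ']
      rfl
    have h4 : (D.s ^ 0) B.det = B.det := by
      rw [pow_zero]
      rfl
    rw [h1, Matrix.det_mul, h2, ih, Finset.prod_range_succ', mul_comm, map_prod, h4,
      Finset.prod_congr rfl fun i _ => h3 i]

theorem norm_det {ι : Type w} [Fintype ι] [DecidableEq ι] (B : Matrix ι ι L)
    (h : itM D.s.toRingEquiv B p = (D.bL ^ n) • 1) : D.N B.det = D.bL ^ (n * Fintype.card ι) := by
  have h1 := det_itM42 D B p
  rw [h, Matrix.det_smul, Matrix.det_one, mul_one] at h1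
  unfold N
  rw [← h1, zpow_mul, zpow_natCast]

theorem dvd_of_norm (hD : D.Div) {z : L} {m : ℤ} (h : D.N z = D.bL ^ m) : (p : ℤ) ∣ m := by
  by_contra hm
  obtain ⟨u, v, huv⟩ := ((Nat.prime_iff_prime_int.1 D.hp).irreducible.coprime_iff_not_dvd).2 hm
  apply hD (z ^ v * D.bL ^ u)
  rw [N_mul42, N_zpow42, N_zpow42, h, N_bL42, ← zpow_natCast, ← zpow_mul, ← zpow_mul,
    ← zpow_add₀ D.bL_ne]
  have h2 : m * v + (p : ℤ) * u = 1 := by
    rw [← huv]
    ring
  rw [h2, zpow_one]

theorem dvd_finrank (hD : D.Div) (hn : ¬ (p : ℤ) ∣ n) [Module.Finite L V] (h : D.IsTau n τ) :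
    p ∣ Module.finrank L V := by
  obtain ⟨B, -, hB⟩ := D.exists_mat h (Module.finBasis L V)
  have h1 := D.norm_det B hB
  rw [Fintype.card_fin] at h1
  rcases (Nat.prime_iff_prime_int.1 D.hp).dvd_or_dvd (D.dvd_of_norm hD h1) with h2 | h2
  · exact absurd h2 hn
  · exact Int.natCast_dvd_natCast.1 h2

end Dat

end Pool.Agent.MSX
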