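import Pool.Agent.MSX.Hom
import Pool.Agent.MSX.Laur

/-! # The embeddings of the function field into fields of Laurent series

For a point `P` of codimension one let `kb P` be an algebraic closure of `kap P` and
`kP P = kb P (eta_0, .., eta_{p-1})` (rational functions).  The ring homomorphism
`psi P : S → kP P [[t]]`, `x_i ↦ (residue of x_i) + t * eta_i`, has constant coefficient the reduction
modulo `P`, and `P.gen ↦ t * unit` when `L` is perfect.

PROOFS.

* `psi_const`: both sides are ring homomorphisms `S → kP P`, compare on `C c` and `X i`.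

* `psi_coeff1`: the coefficient of `t` of `psi f` is `∑ i, (residue of ∂f/∂x_i) * eta_i`: both sides are
  additive and satisfy the product rule (over the residue homomorphism); check on `C c` and `X i`
  (`MvPolynomial.induction_on`: constants, sums, products with `X i`; `PowerSeries.coeff_mul` for
  the coefficient `1`, or `PowerSeries.trunc`).

* `exists_pd` (`L` perfect): `P.gen` has a partial derivative not divisible by `P.gen`.  If
  `P.gen ∣ ∂_i P.gen` then `∂_i P.gen = 0`, because `∂_i P.gen` is homogeneous of degree `P.deg - 1`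
  (or compare `MvPolynomial.totalDegree`).  Suppose all `∂_i P.gen = 0`.  In characteristic `0` the
  polynomial is constant, contradiction with `gen_deg_pos`.  In characteristic `q` every exponent of
  every monomial of `P.gen` is divisible by `q`, so `P.gen = ∑_m c_m X^(q m) = (∑_m d_m X^m)^q` with
  `d_m ^ q = c_m` (`L` perfect: `frobeniusEquiv`), which is not irreducible.

* `psi_gen`: the coefficient of `t` of `psi P.gen` is `∑ i, inc (r_i) eta_i` with `r_i = red P (∂_i P.gen)`
  not all zero, and the `eta_i` are the variables of a polynomial ring over `kb P ⊇ kap P`.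

* `psi_unit`: the constant coefficient is `inc P (red P f) ≠ 0` (`red_eq_zero`, `inc` injective).

* `psi_fac`: `f = P.gen ^ n * g` with `g` prime to `P.gen` (`WfDvdMonoid.max_power_factor`), so
  `psi f = (t u)^n * unit`.

* `psi_inj`: from `psi_fac`.

* `phi_v`, `phi_ac`: for `x = f / g`; write `f = P.gen ^ n * f'`, `g = P.gen ^ m * g'`; then `pl P` has
  `v x = n - m`, `ac x = red f' / red g'` (`pl_gen`, `pl_unit`, the multiplicativity lemmas of
  `MK.Val`), and `(lv _)` of `phi x` is computed with `lv_unit`, `lv_X`.  For `v x = 0`: `n = m`.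

* `phi_tame`: `MK.Val.tame_congr` (the residue homomorphism is `inc P`).
-/

set_option autoImplicit false

namespace Pool.Agent.MSX

open MvPolynomial

universe u

variable {p : ℕ} {L : Type u} [Field L]

/-- An algebraic closure of the residue field. -/
abbrev kb (P : HP p L) : Type u := AlgebraicClosure (kap P)

/-- The field of coefficients: rational functions in `p` variables over `kb P`. -/
abbrev kP (P : HP p L) : Type u := FractionRing (MvPolynomial (Fin p) (kb P))

/-- The inclusion of `kb P` in `kP P`. -/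
noncomputable def incb (P : HP p L) : kb P →+* kP P :=
  (algebraMap (MvPolynomial (Fin p) (kb P)) (kP P)).comp C

/-- The inclusion of `kap P` in `kP P`. -/
noncomputable def inc (P : HP p L) : kap P →+* kP P := (incb P).comp (algebraMap (kap P) (kb P))

/-- The independent variables of `kP P`. -/
noncomputable def eta (P : HP p L) (i : Fin p) : kP P :=
  algebraMap (MvPolynomial (Fin p) (kb P)) (kP P) (X i)

/-- The homomorphism `x_i ↦ (residue of x_i) + t * eta_i`. -/
noncomputable def psi (P : HP p L) : S p L →+* PowerSeries (kP P) :=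
  eval₂Hom ((PowerSeries.C (R := kP P)).comp ((inc P).comp ((red P).comp C)))
    (fun i => PowerSeries.C (inc P (red P (X i))) + PowerSeries.X * PowerSeries.C (eta P i))

variable (P : HP p L)

theorem psi_C (c : L) : psi P (C c) = PowerSeries.C (inc P (red P (C c))) := by
  simp [psi]

theorem psi_X (i : Fin p) : psi P (X i) =
    PowerSeries.C (inc P (red P (X i))) + PowerSeries.X * PowerSeries.C (eta P i) := by
  simp [psi]

theorem psi_const (f : S p L) : PowerSeries.constantCoeff (psi P f) = inc P (red P f) := by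
  have h : (PowerSeries.constantCoeff (R := kP P)).comp (psi P) = (inc P).comp (red P) := by
    refine MvPolynomial.ringHom_ext ?_ ?_
    · intro c
      rw [RingHom.comp_apply, RingHom.comp_apply, psi_C, PowerSeries.constantCoeff_C]
    · intro i
      rw [RingHom.comp_apply, RingHom.comp_apply, psi_X, map_add, map_mul,
        PowerSeries.constantCoeff_C, PowerSeries.constantCoeff_X, zero_mul, add_zero]
  exact congrArg (fun g : S p L →+* kP P => g f) h

theorem psi_coeff1 (f : S p L) : PowerSeries.coeff 1 (psi P f) =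
    ∑ i : Fin p, inc P (red P (pderiv i f)) * eta P i := by
  induction f using MvPolynomial.induction_on with
  | C c =>
    rw [psi_C, PowerSeries.coeff_C, if_neg one_ne_zero]
    symm
    refine Finset.sum_eq_zero fun i _ => ?_
    rw [pderiv_C, map_zero, map_zero, zero_mul]
  | add f g hf hg =>
    rw [map_add, map_add, hf, hg, ← Finset.sum_add_distrib]
    refine Finset.sum_congr rfl fun i _ => ?_
    rw [map_add, map_add, map_add, add_mul]
  | mul_X f j hf =>
    have h1 : PowerSeries.coeff 1 (psi P (X j)) = eta P j := by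
      rw [psi_X, map_add, PowerSeries.coeff_C, if_neg one_ne_zero, zero_add,
        PowerSeries.coeff_one_mul]
      simp
    have h2 : ∀ i : Fin p, inc P (red P (pderiv i (f * X j))) * eta P i =
        inc P (red P (pderiv i f)) * eta P i * inc P (red P (X j)) +
          (if i = j then eta P j * inc P (red P f) else 0) := by
      intro i
      by_cases hij : i = j
      · subst hij
        rw [if_pos rfl, pderiv_mul, pderiv_X_self, mul_one, map_add, map_add, map_mul, map_mul]
        ring
      · rw [if_neg hij, pderiv_mul, pderiv_X_of_ne (Ne.symm hij), mul_zero, add_zero, map_mul,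
          map_mul]
        ring
    rw [map_mul, PowerSeries.coeff_one_mul, hf, h1, psi_const, psi_const,
      Finset.sum_congr rfl fun i _ => h2 i, Finset.sum_add_distrib, Finset.sum_mul,
      Finset.sum_ite_eq' Finset.univ j, if_pos (Finset.mem_univ j)]

/-- a polynomial with vanishing partial derivatives -/
private theorem pd_zero [PerfectField L] (f : S p L) (h : ∀ i : Fin p, pderiv i f = 0) :
    (∃ c : L, f = C c) ∨ ∃ (q : ℕ) (g : S p L), q ≠ 1 ∧ f = g ^ q := by
  have key : ∀ d ∈ f.support, ∀ i : Fin p, ((d i : ℕ) : L) = 0 := by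
    intro d hd i
    by_cases h0 : d i = 0
    · rw [h0, Nat.cast_zero]
    obtain ⟨e, he⟩ : ∃ e : Fin p →₀ ℕ, e + Finsupp.single i 1 = d := by
      refine ⟨d - Finsupp.single i 1, tsub_add_cancel_of_le ?_⟩
      rw [Finsupp.single_le_iff]
      omega
    have h1 := coeff_pderiv (i := i) f e
    have h4 : ((e i : ℕ) : L) + 1 = ((d i : ℕ) : L) := by
      rw [← he, Finsupp.add_apply, Finsupp.single_eq_same]
      push_cast
      ring
    rw [h i, he, coeff_zero, h4] at h1
    exact (mul_eq_zero.1 h1.symm).resolve_left (mem_support_iff.1 hd)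
  obtain ⟨q, hq⟩ := CharP.exists L
  rcases CharP.char_is_prime_or_zero L q with hp | hp
  · right
    have : Fact q.Prime := ⟨hp⟩
    have : ExpChar L q := ExpChar.prime hp
    have : ExpChar (S p L) q := ExpChar.prime hp
    have hs : ∀ c : L, ∃ a : L, a ^ q = c := by
      intro c
      obtain ⟨a, ha⟩ := surjective_frobenius L q c
      exact ⟨a, by rw [← ha, frobenius_def]⟩
    choose r hr using hs
    refine ⟨q, ∑ d ∈ f.support,
      monomial (d.mapRange (fun t => t / q) (Nat.zero_div q)) (r (coeff d f)), hp.ne_one, ?_⟩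
    rw [sum_pow_char]
    conv_lhs => rw [f.as_sum]
    refine Finset.sum_congr rfl fun d hd => ?_
    have hqd : q • d.mapRange (fun t => t / q) (Nat.zero_div q) = d := by
      ext i
      rw [Finsupp.smul_apply, Finsupp.mapRange_apply, smul_eq_mul]
      exact Nat.mul_div_cancel' ((CharP.cast_eq_zero_iff L q (d i)).1 (key d hd i))
    rw [monomial_pow, hr, hqd]
  · left
    subst hp
    have : CharZero L := CharP.charP_to_charZero L
    refine ⟨coeff 0 f, ?_⟩
    ext d
    rw [coeff_C]
    split_ifs with hd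
    · rw [hd]
    · by_contra hc
      apply hd
      symm
      ext i
      have := key d (mem_support_iff.2 hc) i
      rw [Nat.cast_eq_zero] at this
      rw [this]
      rfl

theorem exists_pd [PerfectField L] : ∃ i : Fin p, ¬ P.gen ∣ pderiv i P.gen := by
  by_contra hcon
  push Not at hcon
  have hdeg := gen_deg_pos P
  have h0 : ∀ i : Fin p, pderiv i P.gen = 0 := by
    intro i
    by_contra hne
    obtain ⟨k, hk⟩ := hcon i
    have h1 : (pderiv i P.gen).IsHomogeneous (P.deg - 1) := P.gen_hom.pderiv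
    have h2 := h1.totalDegree hne
    have hk0 : k ≠ 0 := by
      rintro rfl
      rw [mul_zero] at hk
      exact hne hk
    rw [hk, totalDegree_mul_of_isDomain P.gen_irr.ne_zero hk0,
      P.gen_hom.totalDegree P.gen_irr.ne_zero] at h2
    omega
  rcases pd_zero P.gen h0 with ⟨c, hc⟩ | ⟨q, g, hq, hg⟩
  · have h1 := P.gen_hom.totalDegree P.gen_irr.ne_zero
    rw [hc, totalDegree_C] at h1
    omega
  · have h1 := P.gen_irr
    rw [hg] at h1
    exact not_irreducible_pow hq h1

theorem eta_lin (c : Fin p → kb P) (h : ∑ i : Fin p, incb P (c i) * eta P i = 0) : c = 0 := by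
  have h1 : algebraMap (MvPolynomial (Fin p) (kb P)) (kP P) (∑ i : Fin p, C (c i) * X i) = 0 := by
    rw [map_sum, ← h]
    refine Finset.sum_congr rfl fun i _ => ?_
    rw [map_mul]
    rfl
  rw [map_eq_zero_iff _ (IsFractionRing.injective (MvPolynomial (Fin p) (kb P)) (kP P))] at h1
  funext j
  have h2 := congrArg (coeff (Finsupp.single j 1)) h1
  rw [coeff_sum, coeff_zero] at h2
  have h4 : ∑ i : Fin p, coeff (Finsupp.single j 1) (C (c i) * X i) = c j := by
    rw [Finset.sum_eq_single j]
    · rw [coeff_C_mul, coeff_X, if_pos rfl, mul_one]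
    · intro i _ hij
      rw [coeff_C_mul, coeff_X, if_neg, mul_zero]
      intro h3
      exact hij (Finsupp.single_left_injective one_ne_zero h3)
    · intro hn
      exact absurd (Finset.mem_univ j) hn
  rw [h4] at h2
  exact h2

theorem psi_gen [PerfectField L] : ∃ u : PowerSeries (kP P), IsUnit u ∧
    psi P P.gen = PowerSeries.X * u := by
  have h0 : PowerSeries.constantCoeff (psi P P.gen) = 0 := by
    rw [psi_const, (red_eq_zero P P.gen).2 dvd_rfl, map_zero]
  obtain ⟨u, hu⟩ := PowerSeries.X_dvd_iff.2 h0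
  refine ⟨u, ?_, hu⟩
  rw [PowerSeries.isUnit_iff_constantCoeff, isUnit_iff_ne_zero]
  intro hc
  have h1 := psi_coeff1 P P.gen
  rw [hu, PowerSeries.coeff_one_mul, hc, mul_zero, PowerSeries.constantCoeff_X, mul_zero,
    add_zero] at h1
  have h2 := eta_lin P (fun i => algebraMap (kap P) (kb P) (red P (pderiv i P.gen))) h1.symm
  obtain ⟨i, hi⟩ := exists_pd P
  apply hi
  rw [← red_eq_zero]
  have h3 := congrFun h2 i
  exact (map_eq_zero (algebraMap (kap P) (kb P))).1 h3

theorem psi_unit (f : S p L) (h : ¬ P.gen ∣ f) : IsUnit (psi P f) := by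
  rw [PowerSeries.isUnit_iff_constantCoeff, isUnit_iff_ne_zero, psi_const]
  intro h0
  apply h
  rw [← red_eq_zero]
  exact (map_eq_zero (inc P)).1 h0

theorem psi_fac [PerfectField L] (f : S p L) (h : f ≠ 0) : ∃ (n : ℕ) (u : PowerSeries (kP P)),
    IsUnit u ∧ psi P f = PowerSeries.X ^ n * u ∧ P.gen ^ n ∣ f ∧ ¬ P.gen ^ (n + 1) ∣ f := by
  obtain ⟨n, a, ha, rfl⟩ := WfDvdMonoid.max_power_factor h P.gen_irr
  obtain ⟨u, hu, hu2⟩ := psi_gen P
  refine ⟨n, u ^ n * psi P a, (hu.pow n).mul (psi_unit P a ha), ?_, dvd_mul_right _ _, ?_⟩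
  · rw [map_mul, map_pow, hu2, mul_pow, mul_assoc]
  · rintro ⟨k, hk⟩
    apply ha
    refine ⟨k, ?_⟩
    have h1 : P.gen ^ n ≠ 0 := pow_ne_zero n P.gen_irr.ne_zero
    apply mul_left_cancel₀ h1
    rw [hk, pow_succ, mul_assoc]

theorem psi_inj [PerfectField L] : Function.Injective (psi P) := by
  rw [injective_iff_map_eq_zero]
  intro f hf
  by_contra h
  obtain ⟨n, u, hu, h1, -⟩ := psi_fac P f h
  rw [hf] at h1
  exact mul_ne_zero (pow_ne_zero n PowerSeries.X_ne_zero) hu.ne_zero h1.symm

/-- The embedding of `Q p L` in the field of Laurent series. -/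
noncomputable def phi [PerfectField L] : Q p L →+* LaurentSeries (kP P) :=
  IsFractionRing.lift (g := cs.comp (psi P)) (by
    rw [RingHom.coe_comp]
    exact cs_inj.comp (psi_inj P))

theorem phi_alg [PerfectField L] (f : S p L) :
    phi P (algebraMap (S p L) (Q p L) f) = cs (psi P f) := by
  rw [phi, IsFractionRing.lift_algebraMap]
  rfl

/-- valuation and angular component of `phi x` -/
private theorem phi_all [PerfectField L] : ∃ γ : kP P, γ ≠ 0 ∧ ∀ x : Q p L, x ≠ 0 →
    (lv (kP P)).v (phi P x) = (pl P).v x ∧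
      (lv (kP P)).ac (phi P x) = γ ^ (pl P).v x * inc P ((pl P).ac x) := by
  obtain ⟨u, hu, hu2⟩ := psi_gen P
  have hu0 : PowerSeries.constantCoeff u ≠ 0 :=
    (PowerSeries.isUnit_iff_constantCoeff.1 hu).ne_zero
  have hcX : (cs (PowerSeries.X : PowerSeries (kP P))) ≠ 0 :=
    (map_ne_zero_iff cs cs_inj).2 PowerSeries.X_ne_zero
  have hcu : cs u ≠ 0 := (map_ne_zero_iff cs cs_inj).2 hu.ne_zero
  refine ⟨PowerSeries.constantCoeff u, hu0, ?_⟩
  have hS : ∀ f : S p L, f ≠ 0 →
      (lv (kP P)).v (cs (psi P f)) = (pl P).v (algebraMap (S p L) (Q p L) f) ∧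
      (lv (kP P)).ac (cs (psi P f)) = PowerSeries.constantCoeff u ^
        (pl P).v (algebraMap (S p L) (Q p L) f) *
          inc P ((pl P).ac (algebraMap (S p L) (Q p L) f)) := by
    intro f hf
    obtain ⟨n, a, ha, rfl⟩ := WfDvdMonoid.max_power_factor hf P.gen_irr
    obtain ⟨g1, g2⟩ := pl_gen P
    obtain ⟨a1, a2⟩ := pl_unit P a ha
    have hgen : algebraMap (S p L) (Q p L) P.gen ≠ 0 :=
      (map_ne_zero_iff _ Q_inj).2 P.gen_irr.ne_zero
    have ha0 : a ≠ 0 := by
      rintro rfl
      exact ha (dvd_zero _)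
    have haQ : algebraMap (S p L) (Q p L) a ≠ 0 := (map_ne_zero_iff _ Q_inj).2 ha0
    have hgn : algebraMap (S p L) (Q p L) P.gen ^ n ≠ 0 := pow_ne_zero n hgen
    have e1 : (pl P).v (algebraMap (S p L) (Q p L) (P.gen ^ n * a)) = n := by
      rw [map_mul, map_pow, (pl P).v_mul _ _ hgn haQ, (pl P).v_pow, g1, a1]
      ring
    have e2 : (pl P).ac (algebraMap (S p L) (Q p L) (P.gen ^ n * a)) = red P a := by
      have h3 := (pl P).ac_zpow (algebraMap (S p L) (Q p L) P.gen) n hgen
      rw [zpow_natCast, g2, one_zpow] at h3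
      rw [map_mul, map_pow, (pl P).ac_mul _ _ hgn haQ, h3, a2, one_mul]
    have hau := psi_unit P a ha
    have hpa0 : PowerSeries.constantCoeff (psi P a) ≠ 0 :=
      (PowerSeries.isUnit_iff_constantCoeff.1 hau).ne_zero
    have hcpa : cs (psi P a) ≠ 0 := (map_ne_zero_iff cs cs_inj).2 hau.ne_zero
    obtain ⟨x1, x2⟩ := lv_X (k := kP P)
    obtain ⟨u1, u2⟩ := lv_unit u hu0
    obtain ⟨b1, b2⟩ := lv_unit (psi P a) hpa0
    have hXn : cs (PowerSeries.X : PowerSeries (kP P)) ^ n ≠ 0 := pow_ne_zero n hcX
    have hun : cs u ^ n ≠ 0 := pow_ne_zero n hcu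
    have e3 : cs (psi P (P.gen ^ n * a)) =
        cs (PowerSeries.X : PowerSeries (kP P)) ^ n * (cs u ^ n * cs (psi P a)) := by
      rw [map_mul, map_pow, hu2, map_mul, map_pow, map_mul, mul_pow, mul_assoc]
    have y1 := (lv (kP P)).ac_zpow (cs (PowerSeries.X : PowerSeries (kP P))) n hcX
    rw [zpow_natCast, x2, one_zpow] at y1
    have y2 := (lv (kP P)).ac_zpow (cs u) n hcu
    rw [zpow_natCast, u2] at y2
    constructor
    · rw [e1, e3, (lv (kP P)).v_mul _ _ hXn (mul_ne_zero hun hcpa),
        (lv (kP P)).v_mul _ _ hun hcpa, (lv (kP P)).v_pow, (lv (kP P)).v_pow, x1, u1, b1]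
      ring
    · rw [e1, e2, e3, (lv (kP P)).ac_mul _ _ hXn (mul_ne_zero hun hcpa),
        (lv (kP P)).ac_mul _ _ hun hcpa, y1, y2, b2, psi_const, one_mul]
  intro x hx
  obtain ⟨f, g, hg, rfl⟩ := Q_frac x
  have hf : f ≠ 0 := by
    rintro rfl
    rw [map_zero, zero_div] at hx
    exact hx rfl
  have hfQ : algebraMap (S p L) (Q p L) f ≠ 0 := (map_ne_zero_iff _ Q_inj).2 hf
  have hgQ : algebraMap (S p L) (Q p L) g ≠ 0 := (map_ne_zero_iff _ Q_inj).2 hg
  have hfc : cs (psi P f) ≠ 0 := by
    rw [← phi_alg]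
    exact (map_ne_zero (phi P)).2 hfQ
  have hgc : cs (psi P g) ≠ 0 := by
    rw [← phi_alg]
    exact (map_ne_zero (phi P)).2 hgQ
  obtain ⟨f1, f2⟩ := hS f hf
  obtain ⟨g1, g2⟩ := hS g hg
  rw [map_div₀, phi_alg, phi_alg]
  constructor
  · rw [(lv (kP P)).v_div hfc hgc, (pl P).v_div hfQ hgQ, f1, g1]
  · rw [(lv (kP P)).ac_div, (pl P).ac_div, (pl P).v_div hfQ hgQ, f2, g2, map_div₀,
      zpow_sub₀ hu0, mul_div_mul_comm]

theorem phi_v [PerfectField L] (x : Q p L) (hx : x ≠ 0) : (lv (kP P)).v (phi P x) = (pl P).v x := by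
  obtain ⟨γ, -, h⟩ := phi_all P
  exact (h x hx).1

theorem phi_ac [PerfectField L] (x : Q p L) (hx : x ≠ 0) (h : (pl P).v x = 0) :
    (lv (kP P)).ac (phi P x) = inc P ((pl P).ac x) := by
  obtain ⟨γ, -, h1⟩ := phi_all P
  rw [(h1 x hx).2, h, zpow_zero, one_mul]

theorem phi_tame [PerfectField L] (w : MK.K2 (Q p L)) :
    ((lv (kP P)).tame (MK.K2.map (phi P) w)).toMul = Units.map (inc P : kap P →* kP P) (tm P w).toMul :=
  (pl P).tame_congr (lv (kP P)) (phi P) (inc P) (phi_v P) (phi_ac P) w

end Pool.Agent.MSX
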