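import Pool.Agent.MSX.Sig

/-! # The action of the semilinear automorphism on the points of codimension one

PROOFS.

* `sig_irr`: `D.sigE` is a ring isomorphism (`MulEquiv.irreducible_iff`).

* `gen_sg`: `(D.sg P).gen` and `D.sig P.gen` generate the same ideal (`HP.I_eq`, definition of `sg`;
  `Ideal.span_singleton_eq_span_singleton`).

* `sg_dvd`: from `gen_sg`; `D.sig f = D.sig P.gen * h` iff `f = P.gen * gis h`.

* `sg_iter`: by induction on `k`, `(D.sg^[k] P).gen` is associated to `D.sig^[k] P.gen`; for `k = p`,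
  `D.sig^[p] P.gen = C (b ^ deg) * P.gen` (`sig_iter`) is associated to `P.gen`; `gen_dvd_gen`.

* `sgK`: `IsFractionRing.ringEquivOfRingEquiv` of `Ideal.quotientEquiv`.

* `sg_v`, `sg_ac`: for `x = f / g` (`Q_frac`) reduce to `x = f` in `S`, `f = P.gen ^ n * f'` with `f'` not
  divisible by `P.gen` (`WfDvdMonoid.max_power_factor`).  Let `D.sig P.gen = (D.sg P).gen * e`, `e` a unit
  (so a constant).  Then `(pl (sg P)).v (sig f) = n` and, for the angular components, the powers of `red e`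
  cancel if the total valuation is zero: `x = f / g` with `f = P.gen ^ n f'`, `g = P.gen ^ n g'`, so
  `x = f' / g'`, `sigQ x = sig f' / sig g'`, and `pl_unit`, `sgK_red`.

* `sg_tm`: `MK.Val.tame_congr`.
-/

set_option autoImplicit false

namespace Pool.Agent.MSX

open MvPolynomial

universe u

variable {p : ℕ} {F L : Type u} [Field F] [Field L] [Algebra F L] (D : Dat p F L)

namespace Dat

theorem sig_irr {f : S p L} (h : Irreducible f) : Irreducible (D.sig f) :=
  (MulEquiv.irreducible_iff D.sigE).2 h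

/-- The image of a point of codimension one. -/
noncomputable def sg (P : HP p L) : HP p L :=
  ⟨Ideal.span {D.sig P.gen}, D.sig P.gen, P.deg, D.sig_irr P.gen_irr, D.sig_hom P.gen_hom, rfl⟩

theorem gen_sg (P : HP p L) : Associated (D.sg P).gen (D.sig P.gen) := by
  rw [← Ideal.span_singleton_eq_span_singleton, ← HP.I_eq]
  rfl

theorem sg_dvd (P : HP p L) (f : S p L) : (D.sg P).gen ∣ D.sig f ↔ P.gen ∣ f := by
  rw [(D.gen_sg P).dvd_iff_dvd_left]
  constructor
  · rintro ⟨h, hh⟩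
    refine ⟨D.gis h, ?_⟩
    apply D.sig_inj
    rw [map_mul, sig_gis, hh]
  · rintro ⟨h, rfl⟩
    exact ⟨D.sig h, by rw [map_mul]⟩

theorem sg_map (P : HP p L) : (D.sg P).I = P.I.map (D.sigE : S p L →+* S p L) := by
  rw [P.I_eq, Ideal.map_span, Set.image_singleton]
  rfl

theorem sg_inj : Function.Injective D.sg := by
  intro P P' h
  have h1 : (D.sg P).gen ∣ D.sig P'.gen := by
    rw [h]
    exact (D.gen_sg P').dvd
  exact gen_dvd_gen ((D.sg_dvd P _).1 h1)

theorem gen_iter (P : HP p L) (k : ℕ) : Associated (D.sg^[k] P).gen (D.sig^[k] P.gen) := by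
  induction k with
  | zero => exact Associated.refl _
  | succ k ih =>
    rw [Function.iterate_succ_apply', Function.iterate_succ_apply']
    exact (D.gen_sg _).trans (ih.map D.sig)

theorem sg_iter (P : HP p L) : D.sg^[p] P = P := by
  symm
  apply gen_dvd_gen
  refine Dvd.dvd.trans ?_ (D.gen_iter P p).symm.dvd
  rw [D.sig_iter P.gen_hom]
  exact Dvd.intro_left _ rfl

theorem deg_le_of_dvd {f g : S p L} {n m : ℕ} (hf : f.IsHomogeneous n) (hg : g.IsHomogeneous m)
    (h0 : g ≠ 0) (h : f ∣ g) : n ≤ m := by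
  obtain ⟨k, rfl⟩ := h
  obtain ⟨i, j, hij, hi, -⟩ := hom_of_mul hg h0
  have h1 : n = i := hf.inj_right hi (left_ne_zero_of_mul h0)
  omega

theorem sg_deg (P : HP p L) : (D.sg P).deg = P.deg := by
  have h1 : (D.sig P.gen).IsHomogeneous P.deg := D.sig_hom P.gen_hom
  have h0 : D.sig P.gen ≠ 0 := (D.sig_irr P.gen_irr).ne_zero
  have hA := D.gen_sg P
  exact le_antisymm (deg_le_of_dvd (D.sg P).gen_hom h1 h0 hA.dvd)
    (deg_le_of_dvd h1 (D.sg P).gen_hom (D.sg P).gen_irr.ne_zero hA.symm.dvd)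

/-- The isomorphism of residue fields. -/
noncomputable def sgK (P : HP p L) : kap P ≃+* kap (D.sg P) :=
  IsFractionRing.ringEquivOfRingEquiv (Ideal.quotientEquiv P.I (D.sg P).I D.sigE (D.sg_map P))

theorem sgK_red (P : HP p L) (f : S p L) : D.sgK P (red P f) = red (D.sg P) (D.sig f) := by
  unfold sgK red
  rw [RingHom.comp_apply, RingHom.comp_apply]
  exact IsFractionRing.ringEquivOfRingEquiv_algebraMap _ _

/-- Representation of a nonzero element of the fraction field at a point of codimension one. -/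
theorem rep_Q (P : HP p L) (x : Q p L) (hx : x ≠ 0) : ∃ (n : ℤ) (f g : S p L),
    ¬ P.gen ∣ f ∧ ¬ P.gen ∣ g ∧ x = algebraMap (S p L) (Q p L) P.gen ^ n *
      (algebraMap (S p L) (Q p L) f / algebraMap (S p L) (Q p L) g) := by
  obtain ⟨f, g, hg, rfl⟩ := Q_frac x
  have hf : f ≠ 0 := by
    rintro rfl
    rw [map_zero, zero_div] at hx
    exact hx rfl
  obtain ⟨n, f', hf', rfl⟩ := WfDvdMonoid.max_power_factor hf P.gen_irr
  obtain ⟨m, g', hg', rfl⟩ := WfDvdMonoid.max_power_factor hg P.gen_irr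
  refine ⟨(n : ℤ) - m, f', g', hf', hg', ?_⟩
  have h0 : algebraMap (S p L) (Q p L) P.gen ≠ 0 :=
    (map_ne_zero_iff _ Q_inj).2 P.gen_irr.ne_zero
  rw [map_mul, map_mul, map_pow, map_pow, zpow_sub₀ h0, zpow_natCast, zpow_natCast,
    mul_div_mul_comm]

theorem alg_ne_of_ndvd {P : HP p L} {f : S p L} (h : ¬ P.gen ∣ f) :
    algebraMap (S p L) (Q p L) f ≠ 0 := by
  refine (map_ne_zero_iff _ Q_inj).2 ?_
  rintro rfl
  exact h (dvd_zero _)

theorem pl_rep (P : HP p L) (n : ℤ) {f g : S p L} (hf : ¬ P.gen ∣ f) (hg : ¬ P.gen ∣ g)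
    (u : Q p L) (hu : u ≠ 0) (h1 : (pl P).v u = 1) :
    (pl P).v (u ^ n * (algebraMap (S p L) (Q p L) f / algebraMap (S p L) (Q p L) g)) = n := by
  have hf0 := alg_ne_of_ndvd hf
  have hg0 := alg_ne_of_ndvd hg
  rw [(pl P).v_mul _ _ (zpow_ne_zero _ hu) (div_ne_zero hf0 hg0), (pl P).v_zpow _ _ hu, h1,
    (pl P).v_div hf0 hg0, (pl_unit P f hf).1, (pl_unit P g hg).1]
  ring

theorem pl_sig_gen (P : HP p L) :
    (pl (D.sg P)).v (algebraMap (S p L) (Q p L) (D.sig P.gen)) = 1 := by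
  obtain ⟨e, he⟩ := D.gen_sg P
  have hu : ¬ (D.sg P).gen ∣ (e : S p L) := by
    intro h
    exact (D.sg P).gen_irr.not_isUnit (isUnit_of_dvd_unit h e.isUnit)
  rw [← he, map_mul, (pl (D.sg P)).v_mul _ _ ((map_ne_zero_iff _ Q_inj).2 (D.sg P).gen_irr.ne_zero)
    (alg_ne_of_ndvd hu), (pl_gen (D.sg P)).1, (pl_unit (D.sg P) _ hu).1, add_zero]

theorem sg_v (P : HP p L) (x : Q p L) (hx : x ≠ 0) : (pl (D.sg P)).v (D.sigQ x) = (pl P).v x := by
  obtain ⟨n, f, g, hf, hg, rfl⟩ := rep_Q P x hx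
  have h0 : algebraMap (S p L) (Q p L) P.gen ≠ 0 :=
    (map_ne_zero_iff _ Q_inj).2 P.gen_irr.ne_zero
  have h0' : algebraMap (S p L) (Q p L) (D.sig P.gen) ≠ 0 :=
    (map_ne_zero_iff _ Q_inj).2 (D.sig_irr P.gen_irr).ne_zero
  rw [pl_rep P n hf hg _ h0 (pl_gen P).1, map_mul, map_zpow₀, map_div₀, sigQ_alg, sigQ_alg,
    sigQ_alg, pl_rep (D.sg P) n (by rwa [sg_dvd]) (by rwa [sg_dvd]) _ h0' (D.pl_sig_gen P)]

theorem sg_ac (P : HP p L) (x : Q p L) (hx : x ≠ 0) (h : (pl P).v x = 0) :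
    (pl (D.sg P)).ac (D.sigQ x) = D.sgK P ((pl P).ac x) := by
  obtain ⟨n, f, g, hf, hg, rfl⟩ := rep_Q P x hx
  have h0 : algebraMap (S p L) (Q p L) P.gen ≠ 0 :=
    (map_ne_zero_iff _ Q_inj).2 P.gen_irr.ne_zero
  rw [pl_rep P n hf hg _ h0 (pl_gen P).1] at h
  rw [h, zpow_zero, one_mul, map_div₀, sigQ_alg, sigQ_alg, (pl (D.sg P)).ac_div, (pl P).ac_div,
    (pl_unit P f hf).2, (pl_unit P g hg).2, map_div₀, sgK_red, sgK_red,
    (pl_unit (D.sg P) (D.sig f) (by rwa [sg_dvd])).2,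
    (pl_unit (D.sg P) (D.sig g) (by rwa [sg_dvd])).2]

/-- The isomorphism of residue fields on units (additive notation). -/
noncomputable def sgU (P : HP p L) : Additive (kap P)ˣ →+ Additive (kap (D.sg P))ˣ :=
  MonoidHom.toAdditive (Units.map (D.sgK P : kap P →* kap (D.sg P)))

theorem sg_tm (P : HP p L) (w : MK.K2 (Q p L)) :
    tm (D.sg P) (MK.K2.map (D.sigQ : Q p L →+* Q p L) w) = D.sgU P (tm P w) := by
  have h := (pl P).tame_congr (pl (D.sg P)) (D.sigQ : Q p L →+* Q p L)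
    (D.sgK P : kap P →+* kap (D.sg P)) (fun x hx => D.sg_v P x hx)
    (fun x hx h0 => D.sg_ac P x hx h0) w
  exact Additive.toMul.injective h

end Dat

end Pool.Agent.MSX
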