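import Pool.Agent.MSX.Fam
import Pool.Agent.MSX.Hil

/-! # Standard objects

For `n : ℤ` the standard object of degree `n` has index type `Fin (dm p n)` (`dm p n = 1` if `p ∣ n`, `= p`
otherwise), the matrix `D.Bm n` over `L` of its semilinear operator and the matrix `D.Gm n` over `Q` of
invariant vectors (a basis over `D.K`).  If `p` does not divide `n` then `Bm n` maps `e_i` to `e_{i+1}` and
`e_{p-1}` to `b^n e_0`, and `Gm n = diag (x_i^{-n}) * (s^i (bas j))`; if `p ∣ n` then `Bm n = b^(n/p)`,
`Gm n = y0^(-n/p)`.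

PROOFS.

* `exists_bas`: the ring homomorphisms `s^i`, `i < p`, are distinct, hence linearly independent over `L`
  (`linearIndependent_monoidHom`), so the vectors `(s^i (x))_i`, `x` in `L`, span `L^p` (otherwise a nonzero linear form
  vanishes on all of them), hence some `p` of them form a basis and the determinant is not zero
  (`exists_linearIndependent`, `Matrix.isUnit_iff..`, or choose a basis of the span out of the spanning set).

* `bm_gm`: for `p ∣ n`: `b^(n/p) * sigQ (y0^(-n/p)) = y0^(-n/p)` (`inv_y0`: `sig y0 = b y0`).  Otherwise compute the entry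
  `(i, j)`: `(Bm n * M) (i+1, j) = M (i, j)`, `(Bm n * M) (0, j) = b^n * M (p-1, j)`; with
  `sigQ (x_i^(-n) * s^i (bas j)) = x_{i+1}^(-n) * s^(i+1) (bas j)` for `i + 1 < p` and
  `= b^(-n) x_0^(-n) * s^p (bas j) = b^(-n) x_0^(-n) bas j` for `i = p - 1` (`s_pow`).

* `gm_det`: product of the powers of the variables and the determinant of `exists_bas`.

* `gm_deg`: every entry of `Gm n` is, for every `i : Fin p`, the product of `(X i)^(-n)` with an element of `KL`.
-/

set_option autoImplicit false

namespace Pool.Agent.MSX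

open MvPolynomial

universe u

/-- The size of the standard object of degree `n`. -/
def dm (p : ℕ) (n : ℤ) : ℕ := if (p : ℤ) ∣ n then 1 else p

theorem exists_det_ne {M : Type u} [Field M] (s : M ≃+* M) (p : ℕ)
    (hd : ∀ i, 0 < i → i < p → ∃ x, s^[i] x ≠ x) (k : ℕ) (hk : k ≤ p) :
    ∃ l : Fin k → M, (Matrix.of (fun i j : Fin k => s^[i.val] (l j))).det ≠ 0 := by
  induction k with
  | zero => exact ⟨Fin.elim0, by simp⟩
  | succ k ih =>
    obtain ⟨l, hl⟩ := ih (by omega)
    set a : ℕ → M := fun i => if h : i < k + 1 then (-1) ^ i *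
      (Matrix.of (fun (i' j' : Fin k) => s^[((⟨i, h⟩ : Fin (k + 1)).succAbove i').val] (l j'))).det
      else 0 with ha
    have ha0 : a 0 ≠ 0 := by
      rw [ha]
      simp only [Nat.succ_pos, dif_pos, pow_zero, one_mul]
      have e : (Matrix.of (fun (i' j' : Fin k) =>
          s^[((⟨0, Nat.succ_pos k⟩ : Fin (k + 1)).succAbove i').val] (l j'))) =
          (s : M →+* M).mapMatrix (Matrix.of (fun i j : Fin k => s^[i.val] (l j))) := by
        ext i' j'
        rw [RingHom.mapMatrix_apply, Matrix.map_apply, Matrix.of_apply, Matrix.of_apply]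
        have e1 : ((⟨0, Nat.succ_pos k⟩ : Fin (k + 1)).succAbove i').val = i'.val + 1 := by
          have e2 : (⟨0, Nat.succ_pos k⟩ : Fin (k + 1)).succAbove i' = i'.succ :=
            Fin.succAbove_zero_apply i'
          rw [e2, Fin.val_succ]
        rw [e1, Function.iterate_succ_apply']
        rfl
      rw [e, ← RingHom.map_det]
      exact (map_ne_zero_iff _ s.injective).2 hl
    obtain ⟨c, hc⟩ := ex_ne s (k + 1) (Nat.succ_pos k)
      (fun i h1 h2 => hd i h1 (by omega)) a ha0
    refine ⟨Fin.cons c l, ?_⟩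
    have e : (Matrix.of (fun i j : Fin (k + 1) =>
        s^[i.val] ((Fin.cons c l : Fin (k + 1) → M) j))).det =
        ∑ i ∈ Finset.range (k + 1), a i * s^[i] c := by
      rw [Matrix.det_succ_column_zero, ← Fin.sum_univ_eq_sum_range (fun i => a i * s^[i] c)]
      refine Finset.sum_congr rfl fun i _ => ?_
      have e1 : a i.val = (-1) ^ i.val *
          (Matrix.of (fun (i' j' : Fin k) => s^[(i.succAbove i').val] (l j'))).det := by
        rw [ha]
        simp only [i.isLt, dif_pos]
      rw [e1, Matrix.of_apply, Fin.cons_zero]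
      have e2 : (Matrix.of (fun i j : Fin (k + 1) =>
          s^[i.val] ((Fin.cons c l : Fin (k + 1) → M) j))).submatrix i.succAbove Fin.succ =
          Matrix.of (fun (i' j' : Fin k) => s^[(i.succAbove i').val] (l j')) := by
        ext i' j'
        rw [Matrix.submatrix_apply, Matrix.of_apply, Matrix.of_apply, Fin.cons_succ]
      rw [e2]
      ring
    rw [e]
    exact hc

variable {p : ℕ} {F L : Type u} [Field F] [Field L] [Algebra F L] (D : Dat p F L)

namespace Dat

theorem std_pow (i : ℕ) (x : L) : (D.s ^ i) x = (⇑D.s)^[i] x := by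
  induction i with
  | zero => rfl
  | succ k ih => rw [pow_succ', AlgEquiv.mul_apply, ih, Function.iterate_succ_apply']

theorem exists_bas : ∃ l : Fin p → L, (Matrix.of (fun i j : Fin p => (D.s ^ i.val) (l j))).det ≠ 0 := by
  obtain ⟨l, hl⟩ := exists_det_ne D.s.toRingEquiv p (of_prime D.s.toRingEquiv p D.hp
    (fun x => by
      have h := D.s_pow x
      rw [D.std_pow] at h
      exact h)
    (fun h => D.s_ne (by
      ext x
      exact congrArg (fun f : L ≃+* L => f x) h))) p le_rfl
  refine ⟨l, ?_⟩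
  have e : (Matrix.of (fun i j : Fin p => (D.s ^ i.val) (l j))) =
      Matrix.of (fun i j : Fin p => (⇑D.s.toRingEquiv)^[i.val] (l j)) := by
    ext i j
    rw [Matrix.of_apply, Matrix.of_apply, D.std_pow]
    rfl
  rw [e]
  exact hl

/-- Elements of `L` with nonzero determinant (a basis of `L/F`). -/
noncomputable def bas : Fin p → L := D.exists_bas.choose

theorem bas_det : (Matrix.of (fun i j : Fin p => (D.s ^ i.val) (D.bas j))).det ≠ 0 :=
  D.exists_bas.choose_spec

/-- The matrix of the semilinear operator of the standard object. -/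
noncomputable def Bm (n : ℤ) : Matrix (Fin (dm p n)) (Fin (dm p n)) L := fun i j =>
  if (p : ℤ) ∣ n then D.bL ^ (n / p)
  else if j.val + 1 = i.val then 1
  else if i.val = 0 ∧ j.val + 1 = p then D.bL ^ n
  else 0

/-- The index `i` of the standard object as an index of a variable. -/
def ix (n : ℤ) (i : Fin (dm p n)) : Fin p := ⟨i.val % p, Nat.mod_lt _ D.hp.pos⟩

/-- The invariant vectors of the standard object. -/
noncomputable def Gm (n : ℤ) : Matrix (Fin (dm p n)) (Fin (dm p n)) (Q p L) := fun i j =>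
  if (p : ℤ) ∣ n then (algebraMap (S p L) (Q p L) y0) ^ (-(n / p))
  else (algebraMap (S p L) (Q p L) (X (D.ix n i))) ^ (-n) *
    algebraMap (S p L) (Q p L) (C ((D.s ^ i.val) (D.bas (D.ix n j))))

/-- The constants in `Q`. -/
noncomputable def cQ : L →+* Q p L := (algebraMap (S p L) (Q p L)).comp C

omit [Field F] [Algebra F L] in
theorem cQ_inj : Function.Injective (cQ (p := p) (L := L)) :=
  fun _ _ h => C_injective _ _ (Q_inj h)

theorem gm_neg {n : ℤ} (h : ¬ (p : ℤ) ∣ n) (i j : Fin (dm p n)) :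
    D.Gm n i j = (algebraMap (S p L) (Q p L) (X (D.ix n i))) ^ (-n) *
    algebraMap (S p L) (Q p L) (C ((D.s ^ i.val) (D.bas (D.ix n j)))) := by
  rw [Gm, if_neg h]

theorem bm_one {n : ℤ} (h : ¬ (p : ℤ) ∣ n) {i j : Fin (dm p n)} (h1 : j.val + 1 = i.val) :
    D.Bm n i j = 1 := by
  rw [Bm, if_neg h, if_pos h1]

theorem bm_last {n : ℤ} (h : ¬ (p : ℤ) ∣ n) {i j : Fin (dm p n)} (h1 : i.val = 0)
    (h2 : j.val + 1 = p) : D.Bm n i j = D.bL ^ n := by
  rw [Bm, if_neg h, if_neg (by omega), if_pos ⟨h1, h2⟩]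

theorem bm_zero {n : ℤ} (h : ¬ (p : ℤ) ∣ n) {i j : Fin (dm p n)} (h1 : ¬ j.val + 1 = i.val)
    (h2 : ¬ (i.val = 0 ∧ j.val + 1 = p)) : D.Bm n i j = 0 := by
  rw [Bm, if_neg h, if_neg h1, if_neg h2]

theorem bm_gm (n : ℤ) : (D.Bm n).map cQ * (D.Gm n).map D.sigQ = D.Gm n := by
  ext i j
  rw [Matrix.mul_apply]
  by_cases h : (p : ℤ) ∣ n
  · have hsub : Subsingleton (Fin (dm p n)) := by
      rw [dm, if_pos h]
      infer_instance
    rw [Fintype.sum_subsingleton _ i, Subsingleton.elim j i, Matrix.map_apply, Matrix.map_apply]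
    simp only [Bm, Gm, if_pos h]
    have h1 := D.inv_y0.2
    rw [pow_one] at h1
    have hy : algebraMap (S p L) (Q p L) (y0 (p := p) (L := L)) ≠ 0 :=
      (map_ne_zero_iff _ Q_inj).2 y0_ne
    have hb : cQ (p := p) D.bL ≠ 0 := (map_ne_zero_iff _ cQ_inj).2 D.bL_ne
    have h2 : D.sigQ (algebraMap (S p L) (Q p L) y0) =
        cQ D.bL * algebraMap (S p L) (Q p L) y0 := by
      rw [D.sigQ_alg, h1, map_mul]
      rfl
    rw [map_zpow₀, map_zpow₀, h2, mul_zpow, ← mul_assoc, zpow_neg (cQ D.bL),
      mul_inv_cancel₀ (zpow_ne_zero _ hb), one_mul]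
  · have hd : dm p n = p := by rw [dm, if_neg h]
    have hip : i.val < p := lt_of_lt_of_eq i.isLt hd
    have hb : cQ (p := p) D.bL ≠ 0 := (map_ne_zero_iff _ cQ_inj).2 D.bL_ne
    rcases Nat.eq_zero_or_pos i.val with hi | hi
    · have hp1 : p - 1 < dm p n := by
        rw [hd]
        exact Nat.sub_lt D.hp.pos one_pos
      rw [Finset.sum_eq_single (⟨p - 1, hp1⟩ : Fin (dm p n))]
      · rw [Matrix.map_apply, Matrix.map_apply, D.gm_neg h, D.gm_neg h, D.bm_last h hi (by
          have := D.hp.pos
          simp only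
          omega)]
        rw [map_mul, map_zpow₀, map_zpow₀, D.sigQ_alg, D.sigQ_alg, D.sig_C,
          D.sig_X_last (by
            have := D.hp.pos
            simp only [ix]
            rw [Nat.mod_eq_of_lt (Nat.sub_lt D.hp.pos one_pos)]
            omega)]
        have e1 : D.s ((D.s ^ (p - 1)) (D.bas (D.ix n j))) = (D.s ^ i.val) (D.bas (D.ix n j)) := by
          rw [← AlgEquiv.mul_apply, ← pow_succ', Nat.sub_add_cancel D.hp.one_le, hi, pow_zero,
            D.s_pow]
          rfl
        have e2 : (⟨0, D.hp.pos⟩ : Fin p) = D.ix n i := by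
          apply Fin.ext
          show 0 = i.val % p
          rw [hi, Nat.zero_mod]
        rw [e1, e2, map_mul]
        change cQ D.bL ^ n * ((cQ D.bL * _) ^ (-n) * _) = _
        rw [mul_zpow, ← mul_assoc, ← mul_assoc, zpow_neg (cQ D.bL),
          mul_inv_cancel₀ (zpow_ne_zero _ hb), one_mul]
      · intro k _ hk
        rw [Matrix.map_apply, D.bm_zero h (by omega) (by
          rintro ⟨-, h2⟩
          apply hk
          apply Fin.ext
          show k.val = p - 1
          omega), map_zero, zero_mul]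
      · intro hn
        exact absurd (Finset.mem_univ _) hn
    · have hi1 : i.val - 1 < dm p n := by omega
      rw [Finset.sum_eq_single (⟨i.val - 1, hi1⟩ : Fin (dm p n))]
      · rw [Matrix.map_apply, Matrix.map_apply, D.gm_neg h, D.gm_neg h, D.bm_one h (by
          simp only
          omega)]
        have e0 : (i.val - 1) % p = i.val - 1 := Nat.mod_eq_of_lt (by omega)
        have e3 : (D.ix n ⟨i.val - 1, hi1⟩).val + 1 < p := by
          simp only [ix, e0]
          omega
        rw [map_mul, map_zpow₀, D.sigQ_alg, D.sigQ_alg, D.sig_C, D.sig_X_lt e3]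
        have e1 : D.s ((D.s ^ (i.val - 1)) (D.bas (D.ix n j))) = (D.s ^ i.val) (D.bas (D.ix n j)) := by
          rw [← AlgEquiv.mul_apply, ← pow_succ', Nat.sub_add_cancel hi]
        have e2 : (⟨(D.ix n ⟨i.val - 1, hi1⟩).val + 1, e3⟩ : Fin p) = D.ix n i := by
          apply Fin.ext
          simp only [ix, e0, Nat.mod_eq_of_lt hip]
          omega
        rw [e1, e2, map_one, one_mul]
      · intro k _ hk
        rw [Matrix.map_apply, D.bm_zero h (by
          intro h2
          apply hk
          apply Fin.ext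
          show k.val = i.val - 1
          omega) (by
          rintro ⟨h2, -⟩
          omega), map_zero, zero_mul]
      · intro hn
        exact absurd (Finset.mem_univ _) hn

theorem gm_det (n : ℤ) : (D.Gm n).det ≠ 0 := by
  by_cases h : (p : ℤ) ∣ n
  · have hd : dm p n = 1 := by rw [dm, if_pos h]
    have hsub : Subsingleton (Fin (dm p n)) := by
      rw [hd]
      infer_instance
    rw [Matrix.det_eq_elem_of_subsingleton _ (⟨0, by rw [hd]; exact one_pos⟩ : Fin (dm p n))]
    simp only [Gm, if_pos h]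
    exact zpow_ne_zero _ ((map_ne_zero_iff _ Q_inj).2 y0_ne)
  · have hd : dm p n = p := by rw [dm, if_neg h]
    have e1 : D.Gm n = Matrix.of fun i j : Fin (dm p n) =>
        ((algebraMap (S p L) (Q p L) (X (D.ix n i))) ^ (-n)) *
        ((((Matrix.of (fun i j : Fin p => (D.s ^ i.val) (D.bas j))).submatrix (finCongr hd)
          (finCongr hd)).map (cQ (p := p) (L := L))) i j) := by
      ext i j
      rw [D.gm_neg h, Matrix.of_apply, Matrix.map_apply, Matrix.submatrix_apply, Matrix.of_apply]
      have e2 : finCongr hd j = D.ix n j := by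
        apply Fin.ext
        show j.val = j.val % p
        rw [Nat.mod_eq_of_lt (lt_of_lt_of_eq j.isLt hd)]
      rw [e2]
      rfl
    rw [e1, Matrix.det_mul_column]
    refine mul_ne_zero (Finset.prod_ne_zero_iff.2 fun i _ => zpow_ne_zero _
      ((map_ne_zero_iff _ Q_inj).2 (X_ne_zero _))) ?_
    rw [← RingHom.mapMatrix_apply, ← RingHom.map_det, Matrix.det_submatrix_equiv_self]
    exact (map_ne_zero_iff _ cQ_inj).2 D.bas_det

theorem gm_deg (n : ℤ) (i j : Fin (dm p n)) (k : Fin p) :
    D.Gm n i j * (algebraMap (S p L) (Q p L) (X k)) ^ n ∈ KL p L := by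
  have hX : ∀ i : Fin p, algebraMap (S p L) (Q p L) (X i) ≠ 0 := fun i =>
    (map_ne_zero_iff _ Q_inj).2 (X_ne_zero _)
  by_cases h : (p : ℤ) ∣ n
  · obtain ⟨m, rfl⟩ := h
    have hp0 : (p : ℤ) ≠ 0 := by
      exact_mod_cast D.hp.ne_zero
    simp only [Gm, if_pos (Dvd.intro m rfl : (p : ℤ) ∣ p * m)]
    rw [Int.mul_ediv_cancel_left _ hp0, zpow_neg, ← inv_zpow, zpow_mul, ← mul_zpow]
    refine zpow_mem ?_ m
    rw [mul_comm, ← div_eq_mul_inv, zpow_natCast, ← map_pow]
    refine ⟨p, X k ^ p, y0, ?_, ?_, y0_ne, rfl⟩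
    · simpa using (isHomogeneous_X L k).pow p
    · simpa using D.inv_y0.1
  · rw [D.gm_neg h, mul_right_comm, zpow_neg, ← inv_zpow, ← mul_zpow]
    refine mul_mem (zpow_mem ?_ n) ?_
    · rw [mul_comm, ← div_eq_mul_inv]
      exact ⟨1, X k, X _, isHomogeneous_X _ _, isHomogeneous_X _ _, X_ne_zero _, rfl⟩
    · refine ⟨0, C ((D.s ^ i.val) (D.bas (D.ix n j))), 1, isHomogeneous_C _ _,
        isHomogeneous_one _ _, one_ne_zero, ?_⟩
      rw [map_one (algebraMap (S p L) (Q p L)), div_one]

theorem bm_det (n : ℤ) : (D.Bm n).det ≠ 0 := by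
  intro h
  have h1 := congrArg Matrix.det (D.bm_gm n)
  rw [Matrix.det_mul, ← RingHom.mapMatrix_apply, ← RingHom.map_det, h, map_zero, zero_mul] at h1
  exact D.gm_det n h1.symm

end Dat

end Pool.Agent.MSX
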