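import Pool.Agent.MSX.Dec

/-! # Decomposition into standard blocks: extension of a standard basis

PROOFS.

* `extend_std`.  Work with families `e : I × Fin (dm p n) → V` which are linearly independent, satisfy the equation of `IsStd` and whose span is
  `U`.  Induction on `finrank V - finrank U`: if `U = ⊤` take `r = 0`.  Otherwise add the family `w` of `exists_block`: the family
  on `(I ⊕ Fin 1) × Fin (dm p n)` is linearly independent (independence modulo `U`), its span `U' = U ⊔ span (range w)` is stable and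
  larger; apply the induction hypothesis and the bijection `(I ⊕ Fin 1) ⊕ Fin r ≃ I ⊕ Fin (1 + r)`.  At the end `Module.Basis.mk`.

* `exists_std`: `extend_std` for `U = ⊥`, `I = Empty` (basis of `⊥` indexed by an empty type: `Module.Basis.empty`), and the bijection
  `Empty ⊕ Fin r ≃ Fin r`.
-/

set_option autoImplicit false

namespace Pool.Agent.MSX

universe u v w

variable {p : ℕ} {F L : Type u} [Field F] [Field L] [Algebra F L] (D : Dat p F L)

namespace Dat

variable {n : ℤ} {V : Type v} [AddCommGroup V] [Module L V] {τ : V →+ V}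

omit [Algebra F L] in
private theorem decb_reidx {V' : Type v} [AddCommGroup V'] [Module L V'] {I : Type w} {m : ℕ} (U : Submodule L V')
    (e : I × Fin m → V') (he : LinearIndependent L e) (hU : U = Submodule.span L (Set.range e))
    (w : Fin m → V') (hw : LinearIndependent L (fun j => U.mkQ (w j))) :
    LinearIndependent L (fun x : (I ⊕ Fin 1) × Fin m =>
      Sum.elim (fun i => e (i, x.2)) (fun _ => w x.2) x.1) := by
  have hmem : ∀ x, e x ∈ U := fun x => by rw [hU]; exact Submodule.subset_span ⟨x, rfl⟩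
  have h1 : LinearIndependent L (fun x : I × Fin m => (⟨e x, hmem x⟩ : U)) := by
    refine LinearIndependent.of_comp U.subtype ?_
    exact he
  have h2 := LinearIndependent.sumElim_of_quotient h1 w hw
  let φ : (I ⊕ Fin 1) × Fin m → (I × Fin m) ⊕ Fin m := fun x =>
    Sum.elim (fun i => Sum.inl (i, x.2)) (fun _ => Sum.inr x.2) x.1
  have hφ : Function.Injective φ := by
    rintro ⟨a | a, i⟩ ⟨b | b, j⟩ hab
    · simp only [φ, Sum.elim_inl, Sum.inl.injEq, Prod.mk.injEq] at hab
      rw [hab.1, hab.2]
    · simp [φ] at hab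
    · simp [φ] at hab
    · simp only [φ, Sum.elim_inr, Sum.inr.injEq] at hab
      rw [hab, Subsingleton.elim a b]
  have h3 := h2.comp φ hφ
  have e1 : (fun x : (I ⊕ Fin 1) × Fin m => Sum.elim (fun i => e (i, x.2)) (fun _ => w x.2) x.1) =
      Sum.elim (fun x : I × Fin m => ((⟨e x, hmem x⟩ : U) : V')) w ∘ φ := by
    funext x
    obtain ⟨a | a, i⟩ := x <;> rfl
  rw [e1]
  exact h3

private theorem decb_stable (h : D.IsTau n τ) {I : Type w} (e : I × Fin (dm p n) → V)
    (hs : ∀ i j, τ (e (i, j)) = ∑ k, D.Bm n k j • e (i, k)) :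
    ∀ v ∈ Submodule.span L (Set.range e), τ v ∈ Submodule.span L (Set.range e) := by
  intro v hv
  induction hv using Submodule.span_induction with
  | mem x hx =>
    obtain ⟨⟨i, j⟩, rfl⟩ := hx
    rw [hs]
    exact Submodule.sum_mem _ fun k _ => Submodule.smul_mem _ _ (Submodule.subset_span ⟨(i, k), rfl⟩)
  | zero => rw [map_zero]; exact Submodule.zero_mem _
  | add x y _ _ hx hy => rw [map_add]; exact Submodule.add_mem _ hx hy
  | smul a x _ hx => rw [h.sl]; exact Submodule.smul_mem _ _ hx

private theorem decb_core (hD : D.Div) [Module.Finite L V] (h : D.IsTau n τ) :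
    ∀ (d : ℕ) {I : Type w} [Finite I] (e : I × Fin (dm p n) → V), LinearIndependent L e →
      (∀ i j, τ (e (i, j)) = ∑ k, D.Bm n k j • e (i, k)) →
      Module.finrank L V ≤ d + Nat.card I →
      ∃ (r : ℕ) (e' : (I ⊕ Fin r) × Fin (dm p n) → V), LinearIndependent L e' ∧
        ⊤ ≤ Submodule.span L (Set.range e') ∧
        (∀ i j, τ (e' (i, j)) = ∑ k, D.Bm n k j • e' (i, k)) ∧
        ∀ i j, e' (Sum.inl i, j) = e (i, j) := by
  have hdm : 0 < dm p n := by
    unfold dm
    split_ifs
    · exact one_pos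
    · exact D.hp.pos
  -- the final situation
  have hfin : ∀ {I : Type w} [Finite I] (e : I × Fin (dm p n) → V), LinearIndependent L e →
      (∀ i j, τ (e (i, j)) = ∑ k, D.Bm n k j • e (i, k)) →
      Submodule.span L (Set.range e) = ⊤ →
      ∃ (r : ℕ) (e' : (I ⊕ Fin r) × Fin (dm p n) → V), LinearIndependent L e' ∧
        ⊤ ≤ Submodule.span L (Set.range e') ∧
        (∀ i j, τ (e' (i, j)) = ∑ k, D.Bm n k j • e' (i, k)) ∧
        ∀ i j, e' (Sum.inl i, j) = e (i, j) := by
    intro I _ e he hs htop
    let φ : (I ⊕ Fin 0) × Fin (dm p n) → I × Fin (dm p n) := fun x =>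
      (Sum.elim id (fun a => Fin.elim0 a) x.1, x.2)
    have hφ : Function.Injective φ := by
      rintro ⟨a | a, i⟩ ⟨b | b, j⟩ hab
      · simp only [φ, Sum.elim_inl, Prod.mk.injEq, id] at hab
        rw [hab.1, hab.2]
      · exact Fin.elim0 b
      · exact Fin.elim0 a
      · exact Fin.elim0 a
    refine ⟨0, e ∘ φ, he.comp φ hφ, ?_, ?_, ?_⟩
    · rw [← htop]
      refine Submodule.span_mono ?_
      rintro _ ⟨⟨i, j⟩, rfl⟩
      exact ⟨(Sum.inl i, j), rfl⟩
    · rintro (i | i) j
      · exact hs i j
      · exact Fin.elim0 i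
    · intro i j
      rfl
  intro d
  induction d with
  | zero =>
    intro I _ e he hs hd
    haveI : Fintype I := Fintype.ofFinite I
    refine hfin e he hs ?_
    have h1 : Module.finrank L (Submodule.span L (Set.range e)) = Fintype.card (I × Fin (dm p n)) :=
      finrank_span_eq_card he
    refine Submodule.eq_top_of_finrank_eq (le_antisymm (Submodule.finrank_le _) ?_)
    rw [h1, Fintype.card_prod, Fintype.card_fin]
    rw [Nat.card_eq_fintype_card] at hd
    nlinarith
  | succ d ih =>
    intro I _ e he hs hd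
    by_cases htop : Submodule.span L (Set.range e) = ⊤
    · exact hfin e he hs htop
    obtain ⟨w, hw1, hw2⟩ := D.exists_block hD h (Submodule.span L (Set.range e))
      (decb_stable D h e hs) htop
    have hli := decb_reidx (Submodule.span L (Set.range e)) e he rfl w hw2
    obtain ⟨r, e', he1, he2, he3, he4⟩ := ih (I := I ⊕ Fin 1)
      (fun x => Sum.elim (fun i => e (i, x.2)) (fun _ => w x.2) x.1) hli
      (by
        rintro (i | i) j
        · exact hs i j
        · exact hw1 j)
      (by
        haveI : Fintype I := Fintype.ofFinite I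
        rw [Nat.card_eq_fintype_card] at hd ⊢
        rw [Fintype.card_sum, Fintype.card_fin]
        omega)
    -- reindexing
    let ψ : I ⊕ Fin (1 + r) ≃ (I ⊕ Fin 1) ⊕ Fin r :=
      (Equiv.sumCongr (Equiv.refl I) finSumFinEquiv.symm).trans (Equiv.sumAssoc I (Fin 1) (Fin r)).symm
    have hψ : ∀ i : I, ψ (Sum.inl i) = Sum.inl (Sum.inl i) := fun i => rfl
    refine ⟨1 + r, fun x => e' (ψ x.1, x.2), ?_, ?_, ?_, ?_⟩
    · exact he1.comp (fun x : (I ⊕ Fin (1 + r)) × Fin (dm p n) => (ψ x.1, x.2)) (by
        rintro ⟨a, i⟩ ⟨b, j⟩ hab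
        simp only [Prod.mk.injEq] at hab
        rw [ψ.injective hab.1, hab.2])
    · refine he2.trans (Submodule.span_mono ?_)
      rintro _ ⟨⟨i, j⟩, rfl⟩
      refine ⟨(ψ.symm i, j), ?_⟩
      show e' (ψ (ψ.symm i), j) = e' (i, j)
      rw [Equiv.apply_symm_apply]
    · intro i j
      exact he3 (ψ i) j
    · intro i j
      show e' (ψ (Sum.inl i), j) = e (i, j)
      rw [hψ, he4]
      rfl

theorem extend_std (hD : D.Div) [Module.Finite L V] (h : D.IsTau n τ) (U : Submodule L V)
    (hU : ∀ v ∈ U, τ v ∈ U) {I : Type w} [Finite I] (eU : Module.Basis (I × Fin (dm p n)) L U)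
    (hs : D.IsStd n (resT τ U hU) eU) :
    ∃ (r : ℕ) (e : Module.Basis ((I ⊕ Fin r) × Fin (dm p n)) L V), D.IsStd n τ e ∧
      ∀ i j, e (Sum.inl i, j) = (eU (i, j) : V) := by
  have he : LinearIndependent L (fun x => (eU x : V)) :=
    eU.linearIndependent.map' U.subtype (Submodule.ker_subtype U)
  obtain ⟨r, e', h1, h2, h3, h4⟩ := decb_core D hD h (Module.finrank L V) (fun x => (eU x : V)) he
    (by
      intro i j
      have e1 := congrArg (fun v : U => (v : V)) (hs i j)
      simp only [resT_coe] at e1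
      rw [e1]
      push_cast
      rfl)
    (Nat.le_add_right _ _)
  refine ⟨r, Module.Basis.mk h1 h2, ?_, ?_⟩
  · intro i j
    simp only [Module.Basis.mk_apply]
    exact h3 i j
  · intro i j
    rw [Module.Basis.mk_apply]
    exact h4 i j

theorem exists_std (hD : D.Div) [Module.Finite L V] (h : D.IsTau n τ) :
    ∃ (r : ℕ) (e : Module.Basis (Fin r × Fin (dm p n)) L V), D.IsStd n τ e := by
  obtain ⟨r, e', h1, h2, h3, -⟩ := decb_core D hD h (Module.finrank L V) (I := PEmpty.{1})
    (fun x => x.1.elim) (linearIndependent_empty_type) (fun i => i.elim) (Nat.le_add_right _ _)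
  let ψ : Fin r ≃ PEmpty.{1} ⊕ Fin r := (Equiv.emptySum PEmpty.{1} (Fin r)).symm
  refine ⟨r, (Module.Basis.mk h1 h2).reindex (Equiv.prodCongr ψ.symm (Equiv.refl _)), ?_⟩
  intro i j
  simp only [Module.Basis.reindex_apply, Module.Basis.mk_apply]
  exact h3 (ψ i) j

end Dat

end Pool.Agent.MSX
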