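import Pool.Agent.MSX.Std
import Pool.Agent.MSX.Emb
import Pool.Agent.MSK.Gst

/-! # The standard objects as objects with lattices (interface with MSK)

`D.em P : D.K →+* kP P ((t))` the embeddings; `D.ob G hG` the object with lattices `(phi P (G))⁻¹`, `D.Os n` the standard
object of degree `n`.

PROOFS.

* `reg`: let `x ≠ 0` and choose `k`; `x * (X k)^(-d) = f / g` with `f, g` homogeneous of the same degree, `g ≠ 0`.  So
  `x = f * (X k)^a / (g * (X k)^c)` with `a - c = d` (naturals `a, c`), i.e. `x = A / B` with homogeneous `A, B ≠ 0`,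
  `deg A - deg B = d`.  Choose such a representation with `deg B` minimal.  If `deg B > 0` there is `P` with
  `P.gen ∣ B` (`exists_irr`); `0 ≤ v_P (x) = v_P (A) - v_P (B)` shows `P.gen ∣ A` (`pl_unit`), and one can cancel `P.gen`
  (`hom_of_mul` for the degrees), contradiction.  So `B` is a nonzero constant (`hom_zero`).

* `hm_mat`: let `Ψ = Gm m * f * (Gm n)⁻¹` over `Q`.  `Hm` says that for every `P` there is `M₀` over `k[[t]]` with
  `f.map = b' * M₀ * b⁻¹`, `b' = phi (Gm m)⁻¹`, `b = phi (Gm n)⁻¹`, so `phi P (Ψ) = M₀` is integral, so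
  `v_P (Ψ i j) ≥ 0` (`phi_v`, `lv_iff`).  Degrees: by `gm_deg`, `Gm m i l * (X k)^m ∈ KL` and, by Cramer's rule or from
  `(Gm n) * (Gm n)⁻¹ = 1`, `(X k)^(-n) * (Gm n)⁻¹ l j ∈ KL` (the matrix `G' = (X k)^n • Gm n` has entries in the field
  `KL`, so its inverse, too), so `Ψ i j * (X k)^(m-n) ∈ KL`, and `reg` applies with `d = n - m`.  The relation with `Bm`:
  `Bm m * sigQ (Gm m) = Gm m`, `sigQ f = f`, so `Bm m * sigQ (Ψ) = Gm m * f * sigQ (Gm n)⁻¹ = Ψ * Bm n`
  (as `sigQ (Gm n)⁻¹ = (Gm n)⁻¹ * Bm n`); `Q_inj`.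

* `hm_zero`: `n - m < 0` leaves only `Φ = 0`, so `f = 0`.

* `hm_const`: for `n = m` the entries are constants (`hom_zero`).
-/

set_option autoImplicit false

namespace Pool.Agent.MSX

open MvPolynomial

universe u

variable {p : ℕ} {F L : Type u} [Field F] [Field L] [Algebra F L] (D : Dat p F L)

private theorem obs_reg (x : Q p L) (hv : ∀ P : HP p L, 0 ≤ (pl P).v x) (hx : x ≠ 0) (d : ℤ)
    (b : ℕ) : ∀ (a : ℕ) (A B : S p L), A.IsHomogeneous a → B.IsHomogeneous b → B ≠ 0 →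
      (a : ℤ) - b = d → x = algebraMap (S p L) (Q p L) A / algebraMap (S p L) (Q p L) B →
      ∃ (n : ℕ) (f : S p L), (n : ℤ) = d ∧ f.IsHomogeneous n ∧ x = algebraMap (S p L) (Q p L) f := by
  induction b using Nat.strong_induction_on with
  | _ b ih =>
    intro a A B hA hB hB0 hd he
    have hA0 : A ≠ 0 := by
      rintro rfl
      rw [map_zero, zero_div] at he
      exact hx he
    rcases Nat.eq_zero_or_pos b with hb | hb
    · subst hb
      obtain ⟨c, rfl⟩ := hom_zero hB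
      have hc : c ≠ 0 := by
        rintro rfl
        exact hB0 (map_zero C)
      refine ⟨a, A * C c⁻¹, ?_, ?_, ?_⟩
      · rw [← hd]
        simp
      · simpa using hA.mul (isHomogeneous_C (Fin p) c⁻¹)
      · rw [he, map_mul, div_eq_mul_inv]
        congr 1
        have h1 : algebraMap (S p L) (Q p L) (C c) * algebraMap (S p L) (Q p L) (C c⁻¹) = 1 := by
          rw [← map_mul, ← C_mul, mul_inv_cancel₀ hc, C_1, map_one]
        exact inv_eq_of_mul_eq_one_right h1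
    · obtain ⟨P, hP⟩ := exists_irr hB hB0 hb
      obtain ⟨B', rfl⟩ := hP
      have hB'0 : B' ≠ 0 := right_ne_zero_of_mul hB0
      have hg0 : P.gen ≠ 0 := P.gen_irr.ne_zero
      have hgQ : algebraMap (S p L) (Q p L) P.gen ≠ 0 := (map_ne_zero_iff _ Q_inj).2 hg0
      have hAQ : algebraMap (S p L) (Q p L) A ≠ 0 := (map_ne_zero_iff _ Q_inj).2 hA0
      have hB'Q : algebraMap (S p L) (Q p L) B' ≠ 0 := (map_ne_zero_iff _ Q_inj).2 hB'0
      have hdv : P.gen ∣ A := by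
        by_contra hnd
        have h1 := (pl_unit P A hnd).1
        have h2 := (pl_gen P).1
        have h3 := pl_nonneg P B' hB'0
        have h4 := hv P
        rw [he, map_mul, (pl P).v_div hAQ (mul_ne_zero hgQ hB'Q), (pl P).v_mul _ _ hgQ hB'Q, h1,
          h2] at h4
        omega
      obtain ⟨A', rfl⟩ := hdv
      obtain ⟨i, j, hij, hi, hj⟩ := hom_of_mul hA hA0
      obtain ⟨i', j', hij', hi', hj'⟩ := hom_of_mul hB hB0
      have e1 : i = P.deg := hi.inj_right P.gen_hom hg0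
      have e2 : i' = P.deg := hi'.inj_right P.gen_hom hg0
      have e3 := gen_deg_pos P
      refine ih j' (by omega) j A' B' hj hj' hB'0 (by omega) ?_
      rw [he, map_mul, map_mul, mul_div_mul_left _ _ hgQ]

theorem reg {x : Q p L} {d : ℤ} (h : ∀ k : Fin p, x * (algebraMap (S p L) (Q p L) (X k)) ^ (-d) ∈ KL p L)
    (hp : 0 < p) (hv : ∀ P : HP p L, 0 ≤ (pl P).v x) (hx : x ≠ 0) :
    ∃ (n : ℕ) (f : S p L), (n : ℤ) = d ∧ f.IsHomogeneous n ∧ x = algebraMap (S p L) (Q p L) f := by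
  obtain ⟨n, f, g, hf, hg, hg0, he⟩ := h ⟨0, hp⟩
  have hX : algebraMap (S p L) (Q p L) (X ⟨0, hp⟩) ≠ 0 :=
    (map_ne_zero_iff _ Q_inj).2 (X_ne_zero _)
  have he' : x = algebraMap (S p L) (Q p L) f / algebraMap (S p L) (Q p L) g *
      (algebraMap (S p L) (Q p L) (X ⟨0, hp⟩)) ^ d := by
    rw [← he, mul_assoc, ← zpow_add₀ hX, neg_add_cancel, zpow_zero, mul_one]
  rcases le_or_gt 0 d with hd | hd
  · obtain ⟨e, rfl⟩ := Int.eq_ofNat_of_zero_le hd
    refine obs_reg x hv hx _ n (n + e) (f * X ⟨0, hp⟩ ^ e) g ?_ hg hg0 (by push_cast; ring) ?_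
    · have h1 := (isHomogeneous_X L (⟨0, hp⟩ : Fin p)).pow e
      rw [one_mul] at h1
      exact hf.mul h1
    · rw [he', zpow_natCast, map_mul, map_pow]
      ring
  · obtain ⟨e, he2⟩ := Int.eq_ofNat_of_zero_le (neg_nonneg.2 hd.le)
    obtain rfl : d = -(e : ℤ) := by omega
    refine obs_reg x hv hx _ (n + e) n f (g * X ⟨0, hp⟩ ^ e) hf ?_
      (mul_ne_zero hg0 (pow_ne_zero _ (X_ne_zero _))) (by push_cast; ring) ?_
    · have h1 := (isHomogeneous_X L (⟨0, hp⟩ : Fin p)).pow e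
      rw [one_mul] at h1
      exact hg.mul h1
    · rw [he', zpow_neg, zpow_natCast, map_mul, map_pow, div_mul_eq_div_div, div_eq_mul_inv (_ / _)]

private theorem obs_cancel {K : Type*} [Field K] {m n : Type*} [Fintype n] [DecidableEq n]
    {A B : Matrix m n K} {G : Matrix n n K} (hG : G.det ≠ 0) (h : A * G = B * G) : A = B := by
  rw [← Matrix.mul_nonsing_inv_cancel_right G A (isUnit_iff_ne_zero.2 hG), h,
    Matrix.mul_nonsing_inv_cancel_right G B (isUnit_iff_ne_zero.2 hG)]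

private theorem obs_cancel_left {K : Type*} [Field K] {m n : Type*} [Fintype n] [DecidableEq n]
    {A B : Matrix n m K} {G : Matrix n n K} (hG : G.det ≠ 0) (h : G * A = G * B) : A = B := by
  rw [← Matrix.nonsing_inv_mul_cancel_left G A (isUnit_iff_ne_zero.2 hG), h,
    Matrix.nonsing_inv_mul_cancel_left G B (isUnit_iff_ne_zero.2 hG)]

private theorem obs_det_map {K K' : Type*} [Field K] [Field K'] {n : Type*} [Fintype n]
    [DecidableEq n] (f : K →+* K') {G : Matrix n n K} (hG : G.det ≠ 0) : (G.map f).det ≠ 0 := by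
  have h := RingHom.map_det f G
  rw [RingHom.mapMatrix_apply] at h
  rw [← h]
  exact (map_ne_zero f).2 hG

/-- the matrix identity behind a homomorphism -/
private theorem obs_li {K K' : Type*} [Field K] [Field K'] {m n : Type*} [Fintype m] [Fintype n]
    [DecidableEq m] [DecidableEq n] (φ : K →+* K') {G : Matrix n n K} (hG : G.det ≠ 0)
    {G' : Matrix m m K} (hG' : G'.det ≠ 0) (f Ψ : Matrix m n K) (hΨ : Ψ * G = G' * f)
    (M : Matrix m n K') :
    f.map φ = (((Matrix.GeneralLinearGroup.map φ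
        (Matrix.GeneralLinearGroup.mkOfDetNeZero G' hG'))⁻¹ : GL m K') : Matrix m m K') * M *
      ((((Matrix.GeneralLinearGroup.map φ
        (Matrix.GeneralLinearGroup.mkOfDetNeZero G hG))⁻¹)⁻¹ : GL n K') : Matrix n n K') ↔
    Ψ.map φ = M := by
  obtain ⟨g, hg⟩ : ∃ g : GL n K', g = Matrix.GeneralLinearGroup.map φ
    (Matrix.GeneralLinearGroup.mkOfDetNeZero G hG) := ⟨_, rfl⟩
  obtain ⟨g', hg'⟩ : ∃ g' : GL m K', g' = Matrix.GeneralLinearGroup.map φ
    (Matrix.GeneralLinearGroup.mkOfDetNeZero G' hG') := ⟨_, rfl⟩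
  have h1 : (g : Matrix n n K') = G.map φ := by
    rw [hg]
    rfl
  have h2 : (g' : Matrix m m K') = G'.map φ := by
    rw [hg']
    rfl
  rw [← hg, ← hg', inv_inv]
  have h3 : ((g'⁻¹ : GL m K') : Matrix m m K') * (g' : Matrix m m K') = 1 := Units.inv_mul _
  have h3' : (g' : Matrix m m K') * ((g'⁻¹ : GL m K') : Matrix m m K') = 1 := Units.mul_inv _
  have h4 : Ψ.map φ * (g : Matrix n n K') = (g' : Matrix m m K') * f.map φ := by
    rw [h1, h2, ← Matrix.map_mul, hΨ, Matrix.map_mul]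
  constructor
  · intro h
    apply obs_cancel (G := (g : Matrix n n K'))
    · rw [h1]
      exact obs_det_map φ hG
    · rw [h4, h, ← Matrix.mul_assoc, ← Matrix.mul_assoc, h3', Matrix.one_mul]
  · intro h
    rw [← h, Matrix.mul_assoc, h4, ← Matrix.mul_assoc, h3, Matrix.one_mul]

namespace Dat

/-- The embeddings of the function field. -/
noncomputable def em [PerfectField L] (P : HP p L) : D.K →+* LaurentSeries (kP P) :=
  (phi P).comp D.K.subtype

/-- The object with lattices `(phi P (G))⁻¹`. -/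
noncomputable def ob [PerfectField L] {ι : Type} [Fintype ι] [DecidableEq ι] (G : Matrix ι ι (Q p L))
    (hG : G.det ≠ 0) : MSK.Ob (fun P : HP p L => kP P) :=
  ⟨ι, fun P => (Matrix.GeneralLinearGroup.map (phi P)
    (Matrix.GeneralLinearGroup.mkOfDetNeZero G hG))⁻¹⟩

/-- The standard object. -/
noncomputable def Os [PerfectField L] (n : ℤ) : MSK.Ob (fun P : HP p L => kP P) :=
  ob (D.Gm n) (D.gm_det n)

/-- the standard matrix multiplied by a power of a variable has entries in `KL` -/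
private theorem obs_H (n : ℤ) (k : Fin p) : ∃ H : Matrix (Fin (dm p n)) (Fin (dm p n)) (KL p L),
    H.map (KL p L).subtype = (algebraMap (S p L) (Q p L) (X k)) ^ n • D.Gm n ∧ H.det ≠ 0 := by
  have h1 : (Matrix.of fun i j => (⟨_, D.gm_deg n i j k⟩ : KL p L)).map (KL p L).subtype =
      (algebraMap (S p L) (Q p L) (X k)) ^ n • D.Gm n := by
    ext1 i j
    exact mul_comm _ _
  refine ⟨_, h1, ?_⟩
  intro h0
  have h2 := RingHom.map_det (KL p L).subtype (Matrix.of fun i j => (⟨_, D.gm_deg n i j k⟩ : KL p L))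
  rw [h0, map_zero, RingHom.mapMatrix_apply, h1, Matrix.det_smul] at h2
  refine mul_ne_zero (pow_ne_zero _ (zpow_ne_zero _ ?_)) (D.gm_det n) h2.symm
  exact (map_ne_zero_iff _ Q_inj).2 (X_ne_zero _)

/-- the degrees of the entries -/
private theorem obs_deg (n m : ℤ) (f : Matrix (Fin (dm p m)) (Fin (dm p n)) D.K)
    (Ψ : Matrix (Fin (dm p m)) (Fin (dm p n)) (Q p L))
    (hΨ : Ψ * D.Gm n = D.Gm m * f.map D.K.subtype) (i : Fin (dm p m)) (j : Fin (dm p n)) (k : Fin p) :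
    Ψ i j * (algebraMap (S p L) (Q p L) (X k)) ^ (-(n - m)) ∈ KL p L := by
  obtain ⟨H, hH, hH0⟩ := D.obs_H n k
  obtain ⟨H', hH', hH'0⟩ := D.obs_H m k
  have hX : algebraMap (S p L) (Q p L) (X k) ≠ 0 := (map_ne_zero_iff _ Q_inj).2 (X_ne_zero _)
  obtain ⟨x, hx⟩ : ∃ x, x = algebraMap (S p L) (Q p L) (X k) := ⟨_, rfl⟩
  rw [← hx] at hX hH hH' ⊢
  let f₁ : Matrix (Fin (dm p m)) (Fin (dm p n)) (KL p L) := fun i j => ⟨f i j, (f i j).2.1⟩
  have hf₁ : f₁.map (KL p L).subtype = f.map D.K.subtype := rfl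
  let Z : Matrix (Fin (dm p m)) (Fin (dm p n)) (KL p L) := H' * f₁ * H⁻¹
  have hZ : Z * H = H' * f₁ := Matrix.nonsing_inv_mul_cancel_right H _ (isUnit_iff_ne_zero.2 hH0)
  have h1 : Z.map (KL p L).subtype * (x ^ n • D.Gm n) = x ^ m • (D.Gm m * f.map D.K.subtype) := by
    rw [← hH, ← Matrix.map_mul, hZ, Matrix.map_mul, hf₁, hH', Matrix.smul_mul]
  have h2 : Z.map (KL p L).subtype = x ^ (m - n) • Ψ := by
    apply obs_cancel (D.gm_det n)
    rw [Matrix.smul_mul, hΨ]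
    rw [Matrix.mul_smul] at h1
    have h3 := congrArg (fun Y => x ^ (-n) • Y) h1
    simp only [smul_smul, ← zpow_add₀ hX, neg_add_cancel, zpow_zero, one_smul] at h3
    rw [h3]
    congr 2
    ring
  have h3 : Ψ i j * x ^ (-(n - m)) = Z.map (KL p L).subtype i j := by
    rw [h2, Matrix.smul_apply, smul_eq_mul, mul_comm, neg_sub]
  rw [h3]
  exact (Z i j).2

/-- commutation with the semilinear operators -/
private theorem obs_com (n m : ℤ) (f : Matrix (Fin (dm p m)) (Fin (dm p n)) D.K)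
    (Ψ : Matrix (Fin (dm p m)) (Fin (dm p n)) (Q p L))
    (hΨ : Ψ * D.Gm n = D.Gm m * f.map D.K.subtype) :
    Ψ * (D.Bm n).map (cQ (p := p)) = (D.Bm m).map (cQ (p := p)) * Ψ.map D.sigQ := by
  have h0 : ((D.Gm n).map D.sigQ).det ≠ 0 := obs_det_map (D.sigQ : Q p L →+* Q p L) (D.gm_det n)
  have hm : ∀ {a b c : Type} [Fintype b] (A : Matrix a b (Q p L)) (B : Matrix b c (Q p L)),
      (A * B).map D.sigQ = A.map D.sigQ * B.map D.sigQ := fun A B =>
    Matrix.map_mul (f := (D.sigQ : Q p L →+* Q p L))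
  have hf : (f.map D.K.subtype).map D.sigQ = f.map D.K.subtype := by
    ext i j
    exact (f i j).2.2
  apply obs_cancel h0
  rw [Matrix.mul_assoc, D.bm_gm n, hΨ, Matrix.mul_assoc, ← hm, hΨ, hm, hf, ← Matrix.mul_assoc,
    D.bm_gm m]

theorem hm_mat [PerfectField L] (n m : ℤ) (f : Matrix (Fin (dm p m)) (Fin (dm p n)) D.K)
    (hf : MSK.Hm D.em (D.Os n) (D.Os m) f) :
    ∃ Φ : Matrix (Fin (dm p m)) (Fin (dm p n)) (S p L),
      Φ.map (algebraMap (S p L) (Q p L)) * D.Gm n = D.Gm m * f.map D.K.subtype ∧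
      (∀ i j, Φ i j ≠ 0 → ∃ d : ℕ, (d : ℤ) = n - m ∧ (Φ i j).IsHomogeneous d) ∧
      Φ * (D.Bm n).map (C : L →+* S p L) = (D.Bm m).map (C : L →+* S p L) * Φ.map D.sig := by
  obtain ⟨Ψ, hΨ⟩ : ∃ Ψ : Matrix (Fin (dm p m)) (Fin (dm p n)) (Q p L),
      Ψ * D.Gm n = D.Gm m * f.map D.K.subtype :=
    ⟨D.Gm m * f.map D.K.subtype * (D.Gm n)⁻¹,
      Matrix.nonsing_inv_mul_cancel_right _ _ (isUnit_iff_ne_zero.2 (D.gm_det n))⟩
  have hv : ∀ (P : HP p L) i j, Ψ i j ≠ 0 → 0 ≤ (pl P).v (Ψ i j) := by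
    intro P i j hne
    obtain ⟨M₀, hM⟩ := hf P
    have h1 : Ψ.map (phi P) = M₀.map (MSK.iO (kP P)) :=
      (obs_li (phi P) (D.gm_det n) (D.gm_det m) (f.map D.K.subtype) Ψ hΨ _).1 hM
    have h2 : phi P (Ψ i j) = cs (M₀ i j) := congrFun (congrFun h1 i) j
    rw [← phi_v P _ hne]
    rcases (lv_iff (phi P (Ψ i j))).2 ⟨_, h2.symm⟩ with h3 | h3
    · exact absurd h3 ((map_ne_zero (phi P)).2 hne)
    · exact h3
  have hex : ∀ i j, ∃ φ : S p L, algebraMap (S p L) (Q p L) φ = Ψ i j ∧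
      (φ ≠ 0 → ∃ d : ℕ, (d : ℤ) = n - m ∧ φ.IsHomogeneous d) := by
    intro i j
    by_cases hne : Ψ i j = 0
    · exact ⟨0, by rw [hne, map_zero], fun h => absurd rfl h⟩
    · obtain ⟨d, φ, h1, h2, h3⟩ := reg (D.obs_deg n m f Ψ hΨ i j) D.hp.pos
        (fun P => hv P i j hne) hne
      exact ⟨φ, h3.symm, fun _ => ⟨d, h1, h2⟩⟩
  choose Φ hΦ hΦ' using hex
  have h1 : (Matrix.of Φ).map (algebraMap (S p L) (Q p L)) = Ψ := by
    ext i j
    exact hΦ i j
  refine ⟨Matrix.of Φ, by rw [h1, hΨ], hΦ', ?_⟩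
  have h2 : Function.Injective (fun A : Matrix (Fin (dm p m)) (Fin (dm p n)) (S p L) =>
      A.map (algebraMap (S p L) (Q p L))) := Matrix.map_injective Q_inj
  apply h2
  show (Matrix.of Φ * (D.Bm n).map (C : L →+* S p L)).map (algebraMap (S p L) (Q p L)) =
    ((D.Bm m).map (C : L →+* S p L) * (Matrix.of Φ).map D.sig).map (algebraMap (S p L) (Q p L))
  rw [Matrix.map_mul, Matrix.map_mul, h1]
  have h3 := D.obs_com n m f Ψ hΨ
  have h4 : ((Matrix.of Φ).map D.sig).map (algebraMap (S p L) (Q p L)) = Ψ.map D.sigQ := by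
    rw [← h1]
    ext i j
    exact (D.sigQ_alg (Φ i j)).symm
  rw [h4]
  exact h3

theorem hm_zero [PerfectField L] (n m : ℤ) (f : Matrix (Fin (dm p m)) (Fin (dm p n)) D.K) (hnm : n < m)
    (hf : MSK.Hm D.em (D.Os n) (D.Os m) f) : f = 0 := by
  obtain ⟨Φ, h1, h2, -⟩ := D.hm_mat n m f hf
  have h3 : Φ = 0 := by
    ext1 i j
    by_contra h
    obtain ⟨d, hd, -⟩ := h2 i j h
    omega
  rw [h3, Matrix.map_zero _ (map_zero _), Matrix.zero_mul] at h1
  have h4 : f.map D.K.subtype = 0 := by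
    apply obs_cancel_left (D.gm_det m)
    rw [← h1, Matrix.mul_zero]
  ext i j
  exact congrFun (congrFun h4 i) j

theorem hm_const [PerfectField L] (n : ℤ) (f : Matrix (Fin (dm p n)) (Fin (dm p n)) D.K)
    (hf : MSK.Hm D.em (D.Os n) (D.Os n) f) :
    ∃ Φ : Matrix (Fin (dm p n)) (Fin (dm p n)) L,
      Φ.map cQ * D.Gm n = D.Gm n * f.map D.K.subtype ∧ Φ * D.Bm n = D.Bm n * Φ.map D.s := by
  obtain ⟨Φ, h1, h2, h3⟩ := D.hm_mat n n f hf
  have h4 : ∀ i j, ∃ c : L, Φ i j = C c := by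
    intro i j
    by_cases h : Φ i j = 0
    · exact ⟨0, by rw [h, map_zero]⟩
    · obtain ⟨d, hd, hd'⟩ := h2 i j h
      have hd0 : d = 0 := by omega
      rw [hd0] at hd'
      exact hom_zero hd'
  choose c hc using h4
  have h5 : Φ = (Matrix.of c).map C := by
    ext1 i j
    exact hc i j
  refine ⟨Matrix.of c, ?_, ?_⟩
  · rw [← h1, h5]
    rfl
  · have h6 : Function.Injective (fun A : Matrix (Fin (dm p n)) (Fin (dm p n)) L =>
        A.map (C : L →+* S p L)) := Matrix.map_injective (C_injective _ _)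
    apply h6
    show (Matrix.of c * D.Bm n).map (C : L →+* S p L) =
      (D.Bm n * (Matrix.of c).map D.s).map (C : L →+* S p L)
    rw [Matrix.map_mul, Matrix.map_mul]
    have h7 : ((Matrix.of c).map D.s).map (C : L →+* S p L) = Φ.map D.sig := by
      rw [h5]
      ext1 i j
      exact (D.sig_C _).symm
    rw [h7, ← h5]
    exact h3

/-- Conversely, a matrix over `L` commuting with the semilinear operator gives an endomorphism. -/
theorem const_hm [PerfectField L] (n : ℤ) (Φ : Matrix (Fin (dm p n)) (Fin (dm p n)) L)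
    (hΦ : Φ * D.Bm n = D.Bm n * Φ.map D.s) :
    ∃ f : Matrix (Fin (dm p n)) (Fin (dm p n)) D.K, Φ.map cQ * D.Gm n = D.Gm n * f.map D.K.subtype ∧
      MSK.Hm D.em (D.Os n) (D.Os n) f := by
  obtain ⟨g, hg⟩ : ∃ g : Matrix (Fin (dm p n)) (Fin (dm p n)) (Q p L),
      D.Gm n * g = Φ.map cQ * D.Gm n :=
    ⟨(D.Gm n)⁻¹ * (Φ.map cQ * D.Gm n),
      Matrix.mul_nonsing_inv_cancel_left _ _ (isUnit_iff_ne_zero.2 (D.gm_det n))⟩
  have hm : ∀ (A B : Matrix (Fin (dm p n)) (Fin (dm p n)) (Q p L)),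
      (A * B).map D.sigQ = A.map D.sigQ * B.map D.sigQ := fun A B =>
    Matrix.map_mul (f := (D.sigQ : Q p L →+* Q p L))
  -- fixed by the automorphism
  have hfix : g.map D.sigQ = g := by
    apply obs_cancel_left (D.gm_det n)
    have e1 : (Φ.map cQ).map D.sigQ = (Φ.map D.s).map cQ := by
      ext1 i j
      show D.sigQ (algebraMap (S p L) (Q p L) (C (Φ i j))) = _
      rw [D.sigQ_alg, D.sig_C]
      rfl
    calc D.Gm n * g.map D.sigQ = (D.Bm n).map cQ * (D.Gm n).map D.sigQ * g.map D.sigQ := by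
          rw [D.bm_gm n]
      _ = (D.Bm n).map cQ * (D.Gm n * g).map D.sigQ := by rw [hm, Matrix.mul_assoc]
      _ = (D.Bm n * Φ.map D.s).map cQ * (D.Gm n).map D.sigQ := by
          rw [hg, hm, e1, Matrix.map_mul, Matrix.mul_assoc]
      _ = D.Gm n * g := by
          rw [← hΦ, Matrix.map_mul, Matrix.mul_assoc, D.bm_gm n, hg]
  -- degree zero
  have hdeg : ∀ i j, g i j ∈ KL p L := by
    obtain ⟨H, hH, hH0⟩ := D.obs_H n ⟨0, D.hp.pos⟩
    have hX : algebraMap (S p L) (Q p L) (X ⟨0, D.hp.pos⟩) ≠ 0 :=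
      (map_ne_zero_iff _ Q_inj).2 (X_ne_zero _)
    obtain ⟨x, hx⟩ : ∃ x, x = algebraMap (S p L) (Q p L) (X ⟨0, D.hp.pos⟩) := ⟨_, rfl⟩
    rw [← hx] at hX hH
    let Φ₁ : Matrix (Fin (dm p n)) (Fin (dm p n)) (KL p L) := fun i j => ⟨cQ (Φ i j),
      0, C (Φ i j), 1, isHomogeneous_C _ _, isHomogeneous_one _ _, one_ne_zero, by
        rw [map_one (algebraMap (S p L) (Q p L)), div_one]; rfl⟩
    have hΦ₁ : Φ₁.map (KL p L).subtype = Φ.map cQ := rfl
    let Z : Matrix (Fin (dm p n)) (Fin (dm p n)) (KL p L) := H⁻¹ * (Φ₁ * H)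
    have hZ : H * Z = Φ₁ * H := Matrix.mul_nonsing_inv_cancel_left H _ (isUnit_iff_ne_zero.2 hH0)
    have h1 : (x ^ n • D.Gm n) * Z.map (KL p L).subtype = Φ.map cQ * (x ^ n • D.Gm n) := by
      rw [← hH, ← Matrix.map_mul, hZ, Matrix.map_mul, hΦ₁]
    have h2 : Z.map (KL p L).subtype = g := by
      apply obs_cancel_left (D.gm_det n)
      rw [hg]
      rw [Matrix.mul_smul, Matrix.smul_mul] at h1
      have h3 := congrArg (fun Y => x ^ (-n) • Y) h1
      simp only [smul_smul, ← zpow_add₀ hX, neg_add_cancel, zpow_zero, one_smul] at h3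
      exact h3
    intro i j
    rw [← h2]
    exact (Z i j).2
  refine ⟨fun i j => ⟨g i j, hdeg i j, congrFun (congrFun hfix i) j⟩, ?_, ?_⟩
  · exact hg.symm
  · intro P
    refine ⟨Φ.map fun c => psi P (C c), ?_⟩
    refine (obs_li (phi P) (D.gm_det n) (D.gm_det n) g (Φ.map cQ) hg.symm _).2 ?_
    ext1 i j
    exact phi_alg P (C (Φ i j))

end Dat

end Pool.Agent.MSX
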