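import Pool.Agent.MSX.SplD

/-! # The element of norm `b` and the coordinates

PROOF of `exists_dat`.  Let `τ = D.tau (D.Bp n)`, `v0 = Pi.single 0 1` (any nonzero vector; `p > 0`), `Φ0 x = (ψ x).mulVec v0`.  `Φ0` is `L`-linear and injective (`x ≠ 0` gives `ψ x⁻¹ * ψ x = 1`), so it is an isomorphism
(`LinearEquiv.ofInjectiveOfFinrankEq` or `LinearMap.linearEquivOfInjective`; `hrk`, `Module.finrank_fin_fun`; `M` is finite over `L` by `Module.finite_of_finrank_pos`).  `Φ0 (y * x) = (ψ y).mulVec (Φ0 x)`.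
Let `zn = Φ0.symm (τ (Φ0 1))`.  By `hψ`, `τ (Φ0 x) = τ ((ψ x).mulVec (Φ0 1)) = (ψ (s' x)).mulVec (τ (Φ0 1)) = (ψ (s' x)).mulVec (Φ0 zn) = Φ0 (zn * s' x)`  (1).
Iterating (1) (`k` times, induction): `τ^[k] (Φ0 x) = Φ0 ((∏_{i<k} s'^[i] zn) * s'^[k] x)`; for `k = p`, `x = 1`: `∏_{i<p} s'^[i] zn = algebraMap (b^n)` (`tau_bp_pow`), in particular `zn ≠ 0`.
Since `p` is prime and does not divide `n` there are integers `u, k` with `n * u = 1 + k * p`.  Let `z = zn^u * (algebraMap b)^(-k)`.  Its norm is `(b^n)^u * (b^p)^(-k) = b^(n u - p k) = b` (`s'` fixes `algebraMap b`: `h1`, `s_bL`;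
the norm `∏_{i<p} s'^[i]` is multiplicative and commutes with integral powers).  The element `q = zn * (z^n)⁻¹` has norm `b^n * (b^n)⁻¹ = 1`, so by `hil90` (`s'` has order `p`: `of_prime`, `s'` is not the identity since `s` is not: `D.s_ne`,
`h1`) there is `w ≠ 0` with `q * s' w = w`.  Let `Φ x = Φ0 (x * w)` (an isomorphism since `w ≠ 0`).  Then by (1)
`τ (Φ x) = Φ0 (zn * s' x * s' w) = Φ0 (z^n * s' x * (q * s' w)) = Φ0 (z^n * s' x * w) = Φ (z^n * s' x)`, and `Φ (y * x) = Φ0 (y * (x * w)) = (ψ y).mulVec (Φ x)`.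
-/

set_option autoImplicit false

namespace Pool.Agent.MSX

universe u

section aux

variable {M : Type u} [Field M] (s' : M ≃+* M)

private theorem bxb_it (i : ℕ) (x : M) : s'^[i] x = ((s' : M →+* M) ^ i : M →+* M) x := by
  rw [RingHom.coe_pow]
  rfl

private theorem bxb_it_mul (i : ℕ) (x y : M) : s'^[i] (x * y) = s'^[i] x * s'^[i] y := by
  rw [bxb_it, bxb_it, bxb_it, map_mul]

private theorem bxb_it_inv (i : ℕ) (x : M) : s'^[i] x⁻¹ = (s'^[i] x)⁻¹ := by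
  rw [bxb_it, bxb_it, map_inv₀]

private theorem bxb_it_zpow (i : ℕ) (x : M) (k : ℤ) : s'^[i] (x ^ k) = (s'^[i] x) ^ k := by
  rw [bxb_it, bxb_it, map_zpow₀]

private theorem bxb_nm_mul (p : ℕ) (x y : M) : ∏ i ∈ Finset.range p, s'^[i] (x * y) =
    (∏ i ∈ Finset.range p, s'^[i] x) * ∏ i ∈ Finset.range p, s'^[i] y := by
  rw [← Finset.prod_mul_distrib]
  exact Finset.prod_congr rfl fun i _ => bxb_it_mul s' i x y

private theorem bxb_nm_inv (p : ℕ) (x : M) : ∏ i ∈ Finset.range p, s'^[i] x⁻¹ =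
    (∏ i ∈ Finset.range p, s'^[i] x)⁻¹ := by
  rw [← Finset.prod_inv_distrib]
  exact Finset.prod_congr rfl fun i _ => bxb_it_inv s' i x

private theorem bxb_nm_zpow (p : ℕ) (x : M) (k : ℤ) : ∏ i ∈ Finset.range p, s'^[i] (x ^ k) =
    (∏ i ∈ Finset.range p, s'^[i] x) ^ k := by
  rw [← Finset.prod_zpow]
  exact Finset.prod_congr rfl fun i _ => bxb_it_zpow s' i x k

end aux

variable {p : ℕ} {F L : Type u} [Field F] [Field L] [Algebra F L] (D : Dat p F L)

namespace Dat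

theorem exists_dat {M : Type u} [Field M] [Algebra L M] (s' : M ≃+* M)
    (h1 : ∀ l : L, s' (algebraMap L M l) = algebraMap L M (D.s l)) (h2 : ∀ x, s'^[p] x = x)
    (hrk : Module.finrank L M = p) {n : ℤ} (hn : ¬ (p : ℤ) ∣ n)
    (ψ : M →ₐ[L] Matrix (Fin p) (Fin p) L)
    (hψ : ∀ (x : M) (v : Fin p → L),
      D.tau (D.Bp n) ((ψ x).mulVec v) = (ψ (s' x)).mulVec (D.tau (D.Bp n) v)) :
    ∃ (z : M) (Φ : M ≃ₗ[L] (Fin p → L)),
      (∏ i ∈ Finset.range p, s'^[i] z = algebraMap L M D.bL) ∧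
      (∀ x, Φ (z ^ n * s' x) = D.tau (D.Bp n) (Φ x)) ∧
      ∀ y x : M, Φ (y * x) = (ψ y).mulVec (Φ x) := by
  have hp := D.hp
  have hfd : Module.Finite L M := Module.finite_of_finrank_pos (by rw [hrk]; exact hp.pos)
  obtain ⟨v0, hv0⟩ : ∃ v : Fin p → L, v ≠ 0 := by
    refine ⟨Pi.single ⟨0, hp.pos⟩ 1, fun h => ?_⟩
    have h3 := congrFun h ⟨0, hp.pos⟩
    rw [Pi.single_eq_same] at h3
    exact one_ne_zero h3
  let f0 : M →ₗ[L] (Fin p → L) :=
    { toFun := fun x => (ψ x).mulVec v0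
      map_add' := fun x y => by rw [map_add, Matrix.add_mulVec]
      map_smul' := fun c x => by rw [map_smul, Matrix.smul_mulVec, RingHom.id_apply] }
  have hf0 : ∀ x, f0 x = (ψ x).mulVec v0 := fun _ => rfl
  have hinj : Function.Injective f0 := by
    rw [injective_iff_map_eq_zero]
    intro x hx
    by_contra hx0
    apply hv0
    have h3 : (ψ (x⁻¹ * x)).mulVec v0 = 0 := by
      rw [map_mul, ← Matrix.mulVec_mulVec, ← hf0 x, hx, Matrix.mulVec_zero]
    rwa [inv_mul_cancel₀ hx0, map_one, Matrix.one_mulVec] at h3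
  obtain ⟨Φ0, hΦ0⟩ : ∃ Φ0 : M ≃ₗ[L] (Fin p → L), ∀ x, Φ0 x = (ψ x).mulVec v0 :=
    ⟨LinearMap.linearEquivOfInjective f0 hinj (by rw [hrk, Module.finrank_fin_fun]),
      fun x => rfl⟩
  have hΦmul : ∀ y x, Φ0 (y * x) = (ψ y).mulVec (Φ0 x) := by
    intro y x
    rw [hΦ0, hΦ0, map_mul, Matrix.mulVec_mulVec]
  obtain ⟨zn, hzn⟩ : ∃ zn, Φ0 zn = D.tau (D.Bp n) (Φ0 1) := ⟨Φ0.symm _, Φ0.apply_symm_apply _⟩
  have h3 : ∀ x, D.tau (D.Bp n) (Φ0 x) = Φ0 (zn * s' x) := by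
    intro x
    have h4 : Φ0 x = (ψ x).mulVec (Φ0 1) := by rw [← hΦmul, mul_one]
    rw [h4, hψ, ← hzn, ← hΦmul, mul_comm]
  have h5 : ∀ (k : ℕ) (x : M), (D.tau (D.Bp n))^[k] (Φ0 x) =
      Φ0 ((∏ i ∈ Finset.range k, s'^[i] zn) * s'^[k] x) := by
    intro k
    induction k with
    | zero => intro x; simp
    | succ k ih =>
      intro x
      rw [Function.iterate_succ_apply', ih, h3, Finset.prod_range_succ', map_mul s', map_prod,
        Function.iterate_zero, id, Function.iterate_succ_apply' (f := s') (n := k) (x := x)]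
      have e : ∀ j, s' (s'^[j] zn) = s'^[j + 1] zn := fun j =>
        (Function.iterate_succ_apply' _ _ _).symm
      simp only [e]
      congr 1
      ring
  have hB0 : algebraMap L M D.bL ≠ 0 := (map_ne_zero _).2 D.bL_ne
  have hnzn : ∏ i ∈ Finset.range p, s'^[i] zn = algebraMap L M D.bL ^ n := by
    have h6 := h5 p 1
    rw [D.tau_bp_pow, h2, mul_one, ← map_smul] at h6
    rw [← Φ0.injective h6, Algebra.smul_def, mul_one, map_zpow₀]
  have hzn0 : zn ≠ 0 := by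
    rintro rfl
    have h6 : ∏ i ∈ Finset.range p, s'^[i] (0 : M) = 0 :=
      Finset.prod_eq_zero (Finset.mem_range.2 hp.pos) (by simp)
    rw [h6] at hnzn
    exact zpow_ne_zero n hB0 hnzn.symm
  have hsB : ∀ i : ℕ, s'^[i] (algebraMap L M D.bL) = algebraMap L M D.bL := fun i =>
    Function.iterate_fixed (by rw [h1, D.s_bL]) i
  have hnB : ∏ i ∈ Finset.range p, s'^[i] (algebraMap L M D.bL) = algebraMap L M D.bL ^ p := by
    rw [Finset.prod_congr rfl fun i _ => hsB i, Finset.prod_const, Finset.card_range]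
  obtain ⟨a, u, hau⟩ := (Nat.prime_iff_prime_int.1 hp).coprime_iff_not_dvd.2 hn
  obtain ⟨z, hz⟩ : ∃ z : M, z = zn ^ u * algebraMap L M D.bL ^ a := ⟨_, rfl⟩
  have hz0 : z ≠ 0 := by
    rw [hz]
    exact mul_ne_zero (zpow_ne_zero _ hzn0) (zpow_ne_zero _ hB0)
  have hnz : ∏ i ∈ Finset.range p, s'^[i] z = algebraMap L M D.bL := by
    rw [hz, bxb_nm_mul, bxb_nm_zpow, bxb_nm_zpow, hnzn, hnB, ← zpow_mul, ← zpow_natCast,
      ← zpow_mul, ← zpow_add₀ hB0]
    have h6 : n * u + (p : ℤ) * a = 1 := by linarith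
    rw [h6, zpow_one]
  have hne : s' ≠ RingEquiv.refl M := by
    intro h
    apply D.s_ne
    ext x
    apply (algebraMap L M).injective
    rw [← h1, h]
    rfl
  obtain ⟨w, hw0, hw⟩ := hil90 s' p hp.pos h2 (of_prime s' p hp h2 hne) (zn * (z ^ n)⁻¹) (by
    rw [bxb_nm_mul, bxb_nm_inv, bxb_nm_zpow, hnzn, hnz, mul_inv_cancel₀ (zpow_ne_zero n hB0)])
  let e1 : M ≃ₗ[L] M :=
    { toFun := fun x => x * w
      map_add' := fun x y => add_mul x y w
      map_smul' := fun c x => smul_mul_assoc c x w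
      invFun := fun x => x * w⁻¹
      left_inv := fun x => by
        show x * w * w⁻¹ = x
        rw [mul_assoc, mul_inv_cancel₀ hw0, mul_one]
      right_inv := fun x => by
        show x * w⁻¹ * w = x
        rw [mul_assoc, inv_mul_cancel₀ hw0, mul_one] }
  refine ⟨z, e1.trans Φ0, hnz, fun x => ?_, fun y x => ?_⟩
  · show Φ0 ((z ^ n * s' x) * w) = D.tau (D.Bp n) (Φ0 (x * w))
    rw [h3, map_mul s']
    congr 1
    have hzn' : z ^ n ≠ 0 := zpow_ne_zero n hz0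
    calc z ^ n * s' x * w = z ^ n * s' x * (zn * (z ^ n)⁻¹ * s' w) := by rw [hw]
      _ = (z ^ n * (z ^ n)⁻¹) * (zn * (s' x * s' w)) := by ring
      _ = zn * (s' x * s' w) := by rw [mul_inv_cancel₀ hzn', one_mul]
  · show Φ0 ((y * x) * w) = (ψ y).mulVec (Φ0 (x * w))
    rw [mul_assoc, hΦmul]

end Dat

end Pool.Agent.MSX
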