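import Pool.Agent.MSX.Simp

/-! # Stable subspaces and orbit bases

PROOFS.

* `eq_top_of_stable`: `p ∣ finrank U` (`IsTau.sub`, `dvd_finrank`), `0 < finrank U ≤ p`, so `finrank U = p = finrank V`
  (`Submodule.eq_top_of_finrank_eq`).

* `orbit_basis`: the span `U` of the `τ^i v`, `i < p`, is stable: `τ (∑ c_i τ^i v) = ∑ s(c_i) τ^(i+1) v` and
  `τ^p v = b^n v` is in `U`; nonzero; so `U = ⊤`, and `p` vectors spanning a space of dimension `p` are a basis
  (`basisOfTopLeSpanOfCardEqFinrank`).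

* `cn_unit`: the kernel of `X` (`v` with `X.mulVec v = 0`) is a submodule of `Fin p → L`, stable under `D.tau (Bp n)`
  (`cn_mulVec`); it is not `⊤` because `X ≠ 0`; so it is `⊥` by `eq_top_of_stable`; so `det X ≠ 0`
  (`Matrix.exists_mulVec_eq_zero_iff`).

* `an_unit`: for `p ∤ n` by `mem_an_rx`, `rx_det`, `cn_unit`; for `p ∣ n` the matrices are `1 × 1`
  (`dm p n = 1`: the index type is a subsingleton, `Matrix.det_eq_elem_of_subsingleton`).
-/

set_option autoImplicit false

namespace Pool.Agent.MSX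

universe u v

variable {p : ℕ} {F L : Type u} [Field F] [Field L] [Algebra F L] (D : Dat p F L)

namespace Dat

variable {n : ℤ} {V : Type v} [AddCommGroup V] [Module L V] {τ : V →+ V}

theorem eq_top_of_stable (hD : D.Div) (hn : ¬ (p : ℤ) ∣ n) (hV : Module.finrank L V = p)
    (h : D.IsTau n τ) (U : Submodule L V) (hU : ∀ v ∈ U, τ v ∈ U) (h0 : U ≠ ⊥) : U = ⊤ := by
  have hfin : Module.Finite L V := Module.finite_of_finrank_pos (by rw [hV]; exact D.hp.pos)
  have h1 : p ∣ Module.finrank L U := D.dvd_finrank hD hn (h.sub U hU)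
  have h2 : 0 < Module.finrank L U :=
    Module.finrank_pos_iff.2 ((Submodule.nontrivial_iff_ne_bot).2 h0)
  apply Submodule.eq_top_of_finrank_eq
  refine le_antisymm (Submodule.finrank_le U) ?_
  rw [hV]
  exact Nat.le_of_dvd h2 h1

theorem orbit_basis (hD : D.Div) (hn : ¬ (p : ℤ) ∣ n) (hV : Module.finrank L V = p)
    (h : D.IsTau n τ) {v : V} (hv : v ≠ 0) : ∃ e : Module.Basis (Fin p) L V, ∀ i, e i = τ^[i.val] v := by
  set w : Fin p → V := fun i => τ^[i.val] v with hw
  set U : Submodule L V := Submodule.span L (Set.range w) with hU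
  have hv0 : v ∈ U := Submodule.subset_span ⟨⟨0, D.hp.pos⟩, rfl⟩
  have hst : ∀ x ∈ U, τ x ∈ U := by
    intro x hx
    induction hx using Submodule.span_induction with
    | mem x hx =>
      obtain ⟨i, rfl⟩ := hx
      have e1 : τ (w i) = τ^[i.val + 1] v := (Function.iterate_succ_apply' τ i.val v).symm
      rw [e1]
      by_cases hi : i.val + 1 < p
      · exact Submodule.subset_span ⟨⟨i.val + 1, hi⟩, rfl⟩
      · have e2 : i.val + 1 = p := by omega
        rw [e2, h.pw]
        exact U.smul_mem _ hv0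
    | zero =>
      rw [map_zero]
      exact U.zero_mem
    | add x y _ _ hx hy =>
      rw [map_add]
      exact U.add_mem hx hy
    | smul a x _ hx =>
      rw [h.sl]
      exact U.smul_mem _ hx
  have htop : U = ⊤ := D.eq_top_of_stable hD hn hV h U hst (by
    intro h0
    rw [h0] at hv0
    exact hv ((Submodule.mem_bot L).1 hv0))
  refine ⟨basisOfTopLeSpanOfCardEqFinrank w (by rw [← hU, htop]) (by
    rw [Fintype.card_fin, hV]), fun i => ?_⟩
  rw [coe_basisOfTopLeSpanOfCardEqFinrank]

theorem cn_unit (hD : D.Div) (hn : ¬ (p : ℤ) ∣ n) {X : Matrix (Fin p) (Fin p) L}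
    (hX : X ∈ D.Cn (D.Bp n)) (h0 : X ≠ 0) : X.det ≠ 0 := by
  intro hdet
  obtain ⟨v, hv, hXv⟩ := Matrix.exists_mulVec_eq_zero_iff.2 hdet
  have htop : LinearMap.ker (Matrix.mulVecLin X) = ⊤ := by
    refine D.eq_top_of_stable hD hn (by rw [Module.finrank_fintype_fun_eq_card, Fintype.card_fin])
      (D.tau_bp_isTau n) _ ?_ ?_
    · intro x hx
      rw [LinearMap.mem_ker, Matrix.mulVecLin_apply] at hx ⊢
      rw [D.cn_mulVec hX, hx, map_zero]
    · intro hbot
      apply hv
      have h1 : v ∈ LinearMap.ker (Matrix.mulVecLin X) := by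
        rw [LinearMap.mem_ker, Matrix.mulVecLin_apply]
        exact hXv
      rw [hbot] at h1
      exact (Submodule.mem_bot L).1 h1
  apply h0
  ext i j
  have h1 : Pi.single j (1 : L) ∈ LinearMap.ker (Matrix.mulVecLin X) := by
    rw [htop]
    exact Submodule.mem_top
  rw [LinearMap.mem_ker, Matrix.mulVecLin_apply, Matrix.mulVec_single_one] at h1
  exact congrFun h1 i

theorem an_unit (hD : D.Div) (n : ℤ) {X : Matrix (Fin (dm p n)) (Fin (dm p n)) L}
    (hX : X ∈ D.An n) (h0 : X ≠ 0) : X.det ≠ 0 := by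
  by_cases h : (p : ℤ) ∣ n
  · have hd : dm p n = 1 := by rw [dm, if_pos h]
    have hsub : Subsingleton (Fin (dm p n)) := by
      rw [hd]
      infer_instance
    rw [Matrix.det_eq_elem_of_subsingleton X (⟨0, by rw [hd]; exact one_pos⟩ : Fin (dm p n))]
    intro h1
    apply h0
    ext i j
    rw [Subsingleton.elim i ⟨0, by rw [hd]; exact one_pos⟩,
      Subsingleton.elim j ⟨0, by rw [hd]; exact one_pos⟩]
    exact h1
  · rw [← rx_det h]
    refine D.cn_unit hD h ((D.mem_an_rx h).1 hX) fun h1 => h0 (rx_inj h ?_)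
    rw [h1]
    rfl

end Dat

end Pool.Agent.MSX
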