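import Pool.Agent.MSX.SplG
import Pool.Agent.MSX.Orb

/-! # Coordinates of a cyclic datum in which its operator is the standard one

PROOFS.

* `tz_isTau`: `τ' x = z^n * s' x` (`m.tz n`) is semilinear (`s_alg`, `Algebra.smul_def`), and its `p`-th iterate is `(∏_{i<p} s'^[i] z)^n * s'^[p] x = b^n x` (`z_norm`, `s_iter`; by induction
  `(τ')^[k] x = (∏_{i<k} s'^[i] z)^n * s'^[k] x`).

* `exists_phi`: `orbit_basis` for `V = M` (`m.rk`), `τ' = m.tz n` and `v = 1` gives a basis `e` with `e i = τ'^[i] 1`; take `Φ = e.equivFun`.  `Φ (τ' x) = D.tau (Bp n) (Φ x)`: both sides are additive and semilinear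
  in `x`, so it suffices to take `x = e i` (write `x = ∑ i, Φ x i • e i`): `τ' (e i) = e (i+1)` for `i + 1 < p`, and `τ' (e (p-1)) = τ'^[p] 1 = b^n • e 0`; use `tau_bp_single`, `tau_bp_last` (file `AnB`).

* `exists_g1`: `g1 = ml Φ m.g` for `Φ` of `exists_phi`; `ml_bp` and `s_g` give `g1 * Bp n = Bp n * g1.map s`, i.e. `g1 ∈ Cn (Bp n)`; `split`.
-/

set_option autoImplicit false

namespace Pool.Agent.MSX

open MvPolynomial

universe u

variable {p : ℕ} {F L : Type u} [Field F] [Field L] [Algebra F L]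

namespace MD

variable {D : Dat p F L} {M : Type u} [Field M] [Algebra L M] (m : MD D M)

/-- The semilinear operator `x ↦ z^n s'(x)`. -/
noncomputable def tz (n : ℤ) : M →+ M where
  toFun x := m.z ^ n * m.s' x
  map_zero' := by rw [map_zero, mul_zero]
  map_add' x y := by rw [map_add, mul_add]

theorem tz_apply (n : ℤ) (x : M) : m.tz n x = m.z ^ n * m.s' x := rfl

private theorem phi_iter (n : ℤ) (k : ℕ) (x : M) :
    (m.tz n)^[k] x = (∏ i ∈ Finset.range k, m.s'^[i] m.z) ^ n * m.s'^[k] x := by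
  induction k with
  | zero => simp
  | succ k ih =>
    rw [Function.iterate_succ_apply', ih, tz_apply, map_mul, map_zpow₀, map_prod,
      ← Function.iterate_succ_apply' m.s', ← mul_assoc, ← mul_zpow, Finset.prod_range_succ',
      Function.iterate_zero, id, mul_comm m.z]
    congr 3
    refine Finset.prod_congr rfl fun i _ => ?_
    rw [← Function.iterate_succ_apply' m.s']

theorem tz_isTau (n : ℤ) : D.IsTau n (m.tz n) := by
  refine ⟨fun l v => ?_, fun v => ?_⟩
  · rw [tz_apply, tz_apply, Algebra.smul_def, map_mul, m.s_alg, Algebra.smul_def, mul_left_comm]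
  · rw [m.phi_iter, m.z_norm, m.s_iter, Algebra.smul_def, map_zpow₀]

theorem exists_phi (hD : D.Div) {n : ℤ} (hn : ¬ (p : ℤ) ∣ n) :
    ∃ Φ : M ≃ₗ[L] (Fin p → L), ∀ x, Φ (m.z ^ n * m.s' x) = D.tau (D.Bp n) (Φ x) := by
  obtain ⟨e, he⟩ := D.orbit_basis hD hn m.rk (m.tz_isTau n) (one_ne_zero : (1 : M) ≠ 0)
  obtain ⟨B, hB, _⟩ := D.exists_mat (m.tz_isTau n) e
  have hself : ∀ k, e.equivFun (e k) = Pi.single k 1 := by
    intro k
    funext i
    rw [Module.Basis.equivFun_self]
    by_cases h : k = i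
    · subst h
      simp
    · rw [if_neg h, Pi.single_eq_of_ne (Ne.symm h)]
  have hs : ∀ j : Fin p, (fun i : Fin p => D.s ((Pi.single j (1 : L) : Fin p → L) i)) =
      Pi.single j 1 := by
    intro j
    funext i
    by_cases h : i = j
    · subst h
      simp
    · simp [Pi.single_eq_of_ne h]
  have hBB : B = D.Bp n := by
    refine Matrix.ext_of_mulVec_single fun j => ?_
    have h1 : D.tau B (Pi.single j 1) = D.tau (D.Bp n) (Pi.single j 1) := by
      rw [← hself j, ← hB (e j), hself j]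
      have h2 : m.tz n (e j) = (m.tz n)^[j.val + 1] 1 := by
        rw [he, Function.iterate_succ_apply']
      by_cases h : j.val + 1 < p
      · rw [Dat.tau_bp_single D j h, h2, ← hself, he]
      · have h3 : j.val + 1 = p := by omega
        rw [Dat.tau_bp_last D j h3, h2, h3, (m.tz_isTau n).pw, map_smul, ← hself, he]
        rfl
    rw [Dat.tau_apply, Dat.tau_apply, hs] at h1
    exact h1
  refine ⟨e.equivFun, fun x => ?_⟩
  rw [← hBB]
  exact hB x

theorem exists_g1 [PerfectField L] (hD : D.Div) {n : ℤ} (hn : ¬ (p : ℤ) ∣ n) :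
    ∃ g1 ∈ D.Cn (D.Bp n), D.Split n g1 m.T := by
  obtain ⟨Φ, hΦ⟩ := m.exists_phi hD hn
  refine ⟨ml Φ m.g, ?_, m.split Φ hΦ fun x => (ml_mulVec Φ m.g x).symm⟩
  rw [Dat.mem_cn, m.ml_bp Φ hΦ, m.s_g]

end MD

end Pool.Agent.MSX
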