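import Pool.Agent.MSX.SplD
import Pool.Agent.MSX.Orb

/-! # Split data, case of an eigenvalue in `L`

PROOFS.

* `TA`: the linear forms are the variables, the elements the conjugates of `c`; both are fixed by the Galois group of `L` (`π = 1`, scalar `1`).

* `ta_semi`: `st` from `exists_stS`, `π i = i + 1` (cyclically; `finRotate` or an explicit permutation of `Fin p`).  `st (s^i c) = s^(i+1) c`, and `s^p c = c` (`D.s_pow`).
  `D.tw st (e_i)` (`e_i` the standard basis vector, `st 0 = 0`, `st 1 = 1`) is `e_{i+1}` for `i + 1 < p` and `b e_0` for `i = p - 1` (scalar `c = b ≠ 0`).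

* `split_a`.  `v_i = τ^i v` (`τ = D.tau (D.Bp n)`), `i < p`, is a basis of `Fin p → L` (`orbit_basis`, `tau_bp_isTau`), `g v_i = s^i(c) v_i` (`cn_mulVec`, `tau_smul`, induction).  Let `V0` be the matrix over `L` with
  columns `v_i` (`V0 k i = v_i k`), `det V0 ≠ 0`, `V = V0` over the algebraic closure, `g V0 = V0 diag (s^i c)`.  `Bp n * s(V0) = V0 * Bp n`: the column `i` of the left side is `τ v_i = v_{i+1}`, or `b^n v_0` for `i = p - 1`
  (`tau_bp_pow`), and so is the column `i` of the right side.  `C0 i j = s^i (bas j)` (`bas_det`), `C = C0` over the algebraic closure.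
  `g' = C0⁻¹ diag (s^i c) C0` has entries in `F`: `s(C0) = Q C0`, `s(diag (s^i c)) = Q diag (s^i c) Q⁻¹` with the cyclic permutation matrix `Q`; so `s(g') = g'`, `D.fix`.
  `G = cQ(V0) * Gp n`: `inv`: `Bp * sigQ (cQ V0) * sigQ (Gp) = cQ (Bp * s(V0)) * sigQ (Gp) = cQ (V0) * cQ (Bp) * sigQ (Gp) = cQ (V0) * Gp` (`bp_gp`; `sigQ (cQ x) = cQ (s x)`).
  `deg`: `gp_deg`, constants are in `KL`, `KL` is a subfield.  `G_det`: `gp_det`.  `spec`: `Gp n = diag (X i ^ (-n)) * cQ (C0)`, `f (cQ x) = a x`, and `∑ j, a (l i j) * f (X j) = f (X i)`.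
-/

set_option autoImplicit false

namespace Pool.Agent.MSX

open MvPolynomial

universe u

variable {p : ℕ} {F L : Type u} [Field F] [Field L] [Algebra F L] (D : Dat p F L)

namespace Dat

/-- The system of the conjugates of an element of `L` and of the variables. -/
noncomputable def TA (c : L) (hc : c ≠ 0) : TD p L (Fin p) where
  e i := algebraMap L (AlgebraicClosure L) ((D.s ^ i.val) c)
  l i := Pi.single i 1
  e_ne i := by
    rw [ne_eq, map_eq_zero, map_eq_zero]
    exact hc
  l_ne i := by
    intro h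
    have h1 := congrFun h i
    rw [Pi.single_eq_same, Pi.zero_apply] at h1
    exact one_ne_zero h1
  gal w := ⟨1, fun i => ⟨w.commutes _, 1, one_ne_zero, fun j => by
    rw [one_mul, Equiv.Perm.one_apply]
    by_cases h : j = i
    · subst h
      rw [Pi.single_eq_same, map_one]
    · rw [Pi.single_eq_of_ne h, map_zero]⟩⟩

/-- the cyclic permutation -/
private theorem sa_rot_lt {q : ℕ} (i : Fin q) (h : i.val + 1 < q) :
    finRotate q i = ⟨i.val + 1, h⟩ := by
  obtain ⟨m, rfl⟩ : ∃ m, q = m + 1 := ⟨q - 1, by omega⟩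
  exact finRotate_of_lt (by omega)

private theorem sa_rot_last {q : ℕ} (i : Fin q) (h : ¬ i.val + 1 < q) :
    (finRotate q i).val = 0 := by
  obtain ⟨m, rfl⟩ : ∃ m, q = m + 1 := ⟨q - 1, by omega⟩
  have e : i = Fin.last m := Fin.ext (by simp; omega)
  rw [e, finRotate_last]
  rfl

private theorem sa_s_rot (i : Fin p) (x : L) :
    D.s ((D.s ^ i.val) x) = (D.s ^ (finRotate p i).val) x := by
  have h0 : D.s ((D.s ^ i.val) x) = (D.s ^ (i.val + 1)) x := by
    rw [pow_succ', AlgEquiv.mul_apply]
  by_cases h : i.val + 1 < p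
  · rw [sa_rot_lt i h, h0]
  · rw [sa_rot_last i h, h0, pow_zero]
    have e : i.val + 1 = p := by omega
    rw [e, D.s_pow]
    rfl

theorem ta_semi (c : L) (hc : c ≠ 0) : (D.TA c hc).Semi D := by
  obtain ⟨st, hst⟩ := D.exists_stS
  refine ⟨st, hst, finRotate p, fun i => ⟨?_, ?_⟩⟩
  · change st (algebraMap L (AlgebraicClosure L) ((D.s ^ i.val) c)) =
      algebraMap L (AlgebraicClosure L) ((D.s ^ (finRotate p i).val) c)
    rw [hst, D.sa_s_rot]
  · have hp := D.hp.pos
    by_cases h : i.val + 1 < p
    · refine ⟨1, one_ne_zero, fun k => ?_⟩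
      change D.tw st (Pi.single i 1) k = 1 * (Pi.single (finRotate p i) 1 : Fin p → _) k
      rw [sa_rot_lt i h, one_mul, tw]
      by_cases hk : k.val = 0
      · rw [if_pos hk, Pi.single_eq_of_ne (by
          intro e
          have := congrArg Fin.val e
          simp only at this
          omega), map_zero, mul_zero, Pi.single_eq_of_ne (by
          intro e
          have := congrArg Fin.val e
          simp only at this
          omega)]
      · rw [if_neg hk]
        by_cases hk2 : k.val = i.val + 1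
        · have e1 : (⟨k.val - 1, by omega⟩ : Fin p) = i := Fin.ext (by simp only; omega)
          have e2 : k = ⟨i.val + 1, h⟩ := Fin.ext hk2
          rw [e1, Pi.single_eq_same, map_one, e2, Pi.single_eq_same]
        · rw [Pi.single_eq_of_ne (by
            intro e
            have := congrArg Fin.val e
            simp only at this
            omega), map_zero, Pi.single_eq_of_ne (by
            intro e
            have := congrArg Fin.val e
            simp only at this
            omega)]
    · refine ⟨algebraMap L (AlgebraicClosure L) D.bL, (map_ne_zero _).2 D.bL_ne, fun k => ?_⟩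
      change D.tw st (Pi.single i 1) k = algebraMap L (AlgebraicClosure L) D.bL *
        (Pi.single (finRotate p i) 1 : Fin p → _) k
      have h3 := sa_rot_last i h
      rw [tw]
      by_cases hk : k.val = 0
      · have e1 : (⟨p - 1, by omega⟩ : Fin p) = i := Fin.ext (by simp only; omega)
        have e2 : k = finRotate p i := Fin.ext (by omega)
        rw [if_pos hk, e1, Pi.single_eq_same, map_one, e2, Pi.single_eq_same]
      · rw [if_neg hk, Pi.single_eq_of_ne (by
          intro e
          have := congrArg Fin.val e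
          simp only at this
          omega), map_zero, Pi.single_eq_of_ne (by
          intro e
          have := congrArg Fin.val e
          omega), mul_zero]

/-- the matrix of the orbit of `v` -/
private noncomputable def saV (n : ℤ) (v : Fin p → L) : Matrix (Fin p) (Fin p) L :=
  fun k i => ((D.tau (D.Bp n))^[i.val] v) k

private theorem saV_det (hD : D.Div) {n : ℤ} (hn : ¬ (p : ℤ) ∣ n) {v : Fin p → L}
    (hv : v ≠ 0) : (D.saV n v).det ≠ 0 := by
  obtain ⟨e, he⟩ := D.orbit_basis hD hn
    (by rw [Module.finrank_fintype_fun_eq_card, Fintype.card_fin]) (D.tau_bp_isTau n) hv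
  have h1 : LinearIndependent L (fun i => (D.saV n v).transpose i) := by
    have h2 : (fun i => (D.saV n v).transpose i) = e := by
      funext i
      rw [he]
      rfl
    rw [h2]
    exact e.linearIndependent
  have h3 : IsUnit (D.saV n v) := Matrix.linearIndependent_cols_iff_isUnit.1 h1
  exact ((Matrix.isUnit_iff_isUnit_det _).1 h3).ne_zero

private theorem sa_eig {n : ℤ} {g : Matrix (Fin p) (Fin p) L} (hg : g ∈ D.Cn (D.Bp n)) {c : L}
    {v : Fin p → L} (h : g.mulVec v = c • v) (i : ℕ) :
    g.mulVec ((D.tau (D.Bp n))^[i] v) = ((D.s ^ i) c) • (D.tau (D.Bp n))^[i] v := by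
  induction i with
  | zero => exact h
  | succ i ih =>
    rw [Function.iterate_succ_apply', D.cn_mulVec hg, ih, D.tau_smul, pow_succ',
      AlgEquiv.mul_apply]

private theorem sa_gV {n : ℤ} {g : Matrix (Fin p) (Fin p) L} (hg : g ∈ D.Cn (D.Bp n)) {c : L}
    {v : Fin p → L} (h : g.mulVec v = c • v) :
    g * D.saV n v = D.saV n v * Matrix.diagonal (fun i : Fin p => (D.s ^ i.val) c) := by
  ext k i
  rw [Matrix.mul_diagonal]
  have h1 := congrFun (D.sa_eig hg h i.val) k
  have h2 : (g * D.saV n v) k i = (g.mulVec ((D.tau (D.Bp n))^[i.val] v)) k := rfl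
  rw [h2, h1, Pi.smul_apply, smul_eq_mul, mul_comm]
  rfl

private theorem sa_BV (n : ℤ) (v : Fin p → L) :
    D.Bp n * (D.saV n v).map D.s = D.saV n v * D.Bp n := by
  have hp := D.hp.pos
  ext k i
  have h1 : (D.Bp n * (D.saV n v).map D.s) k i = ((D.tau (D.Bp n))^[i.val + 1] v) k := by
    rw [Function.iterate_succ_apply']
    rfl
  rw [h1, Matrix.mul_apply]
  by_cases h : i.val + 1 < p
  · rw [Finset.sum_eq_single (⟨i.val + 1, h⟩ : Fin p)]
    · rw [Bp, if_pos rfl, mul_one]
      rfl
    · intro j _ hj
      rw [Bp, if_neg (fun e => hj (Fin.ext e.symm)), if_neg (fun e => by omega), mul_zero]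
    · intro h2
      exact absurd (Finset.mem_univ _) h2
  · have e : i.val + 1 = p := by omega
    rw [e, D.tau_bp_pow, Finset.sum_eq_single (⟨0, hp⟩ : Fin p)]
    · rw [Bp, if_neg (by simp), if_pos ⟨rfl, e⟩, Pi.smul_apply, smul_eq_mul, mul_comm]
      rfl
    · intro j _ hj
      rw [Bp, if_neg (fun e' => by omega), if_neg (fun e' => hj (Fin.ext e'.1)), mul_zero]
    · intro h2
      exact absurd (Finset.mem_univ _) h2

/-- the matrix of the conjugates of the basis -/
private noncomputable def saC : Matrix (Fin p) (Fin p) L :=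
  Matrix.of (fun i j : Fin p => (D.s ^ i.val) (D.bas j))

private theorem sa_Cg (c : L) : ∃ g' : Matrix (Fin p) (Fin p) F,
    D.saC * g'.map (algebraMap F L) =
      Matrix.diagonal (fun i : Fin p => (D.s ^ i.val) c) * D.saC := by
  have hdet : IsUnit D.saC.det := (D.bas_det).isUnit
  set d : Fin p → L := fun i => (D.s ^ i.val) c with hd
  set X : Matrix (Fin p) (Fin p) L := D.saC⁻¹ * (Matrix.diagonal d * D.saC) with hX
  have h1 : D.saC * X = Matrix.diagonal d * D.saC := by
    rw [hX, Matrix.mul_nonsing_inv_cancel_left _ _ hdet]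
  have h2 : D.saC * X.map D.s = Matrix.diagonal d * D.saC := by
    ext i j
    obtain ⟨i', rfl⟩ := (finRotate p).surjective i
    have h3 := congrArg D.s (congrFun (congrFun h1 i') j)
    rw [Matrix.mul_apply, map_sum, Matrix.diagonal_mul, map_mul] at h3
    rw [Matrix.mul_apply, Matrix.diagonal_mul]
    have e1 : ∀ k, D.s (D.saC i' k) = D.saC (finRotate p i') k := fun k => D.sa_s_rot i' _
    have e2 : D.s (d i') = d (finRotate p i') := D.sa_s_rot i' c
    rw [← e1, ← e2, ← h3]
    refine Finset.sum_congr rfl fun k _ => ?_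
    rw [map_mul, ← e1]
    rfl
  have h4 : X.map D.s = X := by
    rw [← Matrix.nonsing_inv_mul_cancel_left _ (X.map D.s) hdet, h2]
  have h5 : ∀ i j, ∃ y : F, algebraMap F L y = X i j := fun i j =>
    D.fix _ (congrFun (congrFun h4 i) j)
  choose g' hg' using h5
  have h6 : (Matrix.of g').map (algebraMap F L) = X := by
    ext i j
    exact hg' i j
  refine ⟨Matrix.of g', ?_⟩
  rw [h6, h1]

private theorem sa_sigQ_cQ (x : L) : D.sigQ (cQ x) = cQ (D.s x) := by
  change D.sigQ (algebraMap (S p L) (Q p L) (C x)) = _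
  rw [D.sigQ_alg, D.sig_C]
  rfl

private theorem sa_cQ_mem (x : L) : (cQ x : Q p L) ∈ KL p L :=
  ⟨0, C x, 1, isHomogeneous_C _ _, isHomogeneous_one _ _, one_ne_zero, by
    rw [map_one (algebraMap (S p L) (Q p L)), div_one]
    rfl⟩

theorem split_a (hD : D.Div) {n : ℤ} (hn : ¬ (p : ℤ) ∣ n) {g : Matrix (Fin p) (Fin p) L}
    (hg : g ∈ D.Cn (D.Bp n)) {c : L} (hc : c ≠ 0) {v : Fin p → L} (hv : v ≠ 0)
    (h : g.mulVec v = c • v) : D.Split n g (D.TA c hc) := by
  obtain ⟨g', hg'⟩ := D.sa_Cg c
  have hV0 := D.saV_det hD hn hv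
  have hgV := D.sa_gV hg h
  have hBV := D.sa_BV n v
  refine ⟨⟨(D.saV n v).map (algebraMap L (AlgebraicClosure L)),
    D.saC.map (algebraMap L (AlgebraicClosure L)), g',
    (D.saV n v).map cQ * D.Gp n, ?_, ?_, ?_, ?_, ?_, ?_, ?_, ?_⟩⟩
  · rw [← RingHom.mapMatrix_apply, ← RingHom.map_det]
    exact (map_ne_zero _).2 hV0
  · rw [← RingHom.mapMatrix_apply, ← RingHom.map_det]
    exact (map_ne_zero _).2 D.bas_det
  · rw [Matrix.det_mul, ← RingHom.mapMatrix_apply, ← RingHom.map_det]
    exact mul_ne_zero ((map_ne_zero_iff _ cQ_inj).2 hV0) (D.gp_det hn)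
  · rw [← Matrix.map_mul, hgV, Matrix.map_mul, Matrix.diagonal_map (map_zero _)]
    rfl
  · have e1 : g'.map (algebraMap F (AlgebraicClosure L)) =
        (g'.map (algebraMap F L)).map (algebraMap L (AlgebraicClosure L)) := by
      ext i j
      exact IsScalarTower.algebraMap_apply F L (AlgebraicClosure L) (g' i j)
    rw [e1, ← Matrix.map_mul, hg', Matrix.map_mul, Matrix.diagonal_map (map_zero _)]
    rfl
  · have e1 : ((D.saV n v).map cQ * D.Gp n).map D.sigQ =
        ((D.saV n v).map D.s).map cQ * (D.Gp n).map D.sigQ := by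
      rw [Matrix.map_mul]
      congr 1
      ext i j
      exact D.sa_sigQ_cQ _
    rw [e1, ← mul_assoc, ← Matrix.map_mul, hBV, Matrix.map_mul, mul_assoc, D.bp_gp hn]
  · intro i j k
    rw [Matrix.mul_apply, Finset.sum_mul]
    refine sum_mem fun m _ => ?_
    rw [mul_assoc]
    exact mul_mem (sa_cQ_mem _) (D.gp_deg hn m j k)
  · intro Ω _ a f ha
    have e1 : ((D.saV n v).map (algebraMap L (AlgebraicClosure L))).map a =
        ((D.saV n v).map cQ).map f := by
      ext i j
      exact ha _
    have e2 : (D.Gp n).map f = Matrix.diagonal (fun i =>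
        (∑ j, a ((D.TA c hc).l i j) * f (algebraMap (S p L) (Q p L) (X j))) ^ (-n)) *
        (D.saC.map (algebraMap L (AlgebraicClosure L))).map a := by
      ext i j
      rw [Matrix.diagonal_mul, Matrix.map_apply, Matrix.map_apply, Matrix.map_apply, ha]
      have e3 : ∑ j, a ((D.TA c hc).l i j) * f (algebraMap (S p L) (Q p L) (X j)) =
          f (algebraMap (S p L) (Q p L) (X i)) := by
        rw [Finset.sum_eq_single i]
        · change a ((Pi.single i 1 : Fin p → _) i) * _ = _
          rw [Pi.single_eq_same, map_one, one_mul]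
        · intro j _ hj
          change a ((Pi.single i 1 : Fin p → _) j) * _ = _
          rw [Pi.single_eq_of_ne hj, map_zero, zero_mul]
        · intro h2
          exact absurd (Finset.mem_univ _) h2
      rw [e3, Gp, map_mul, map_zpow₀]
      rfl
    rw [Matrix.map_mul, e1, e2, mul_assoc]

end Dat

end Pool.Agent.MSX
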