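import Pool.Agent.MSX.BxA
import Pool.Agent.MSX.BxB
import Pool.Agent.MSX.Phi
import Pool.Agent.MSX.SplA
import Pool.Agent.MSX.Irr

/-! # Existence of split data

PROOFS.

* `exists_md`.  `exists_field` gives `M, s', r`; `aeval g (χ.map) = aeval g χ = 0` (`Polynomial.aeval_map_algebraMap`), so there is `ψ : M →ₐ[L] Matrix` with `ψ r = g`.
  The property `∀ v, D.tau (Bp n) ((ψ x).mulVec v) = (ψ (s' x)).mulVec (D.tau (Bp n) v)` of `x : M` holds for `r` (`cn_mulVec`, `s' r = r`), for `algebraMap l` (`ψ (algebraMap l)` is the scalar `l`, `tau_smul`),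
  is closed under sums and products, and every element of `M` is an `L`-combination of the powers of `r` (the linearly independent powers span since `finrank = p`: `LinearIndependent.span_eq_top_of_card_eq_finrank'`).
  `exists_dat` gives `z`, `Φ`; `r ≠ 0` because `ψ r = g ≠ 0`.

* `split_or`: (`g ≠ 0`).  `det g ≠ 0` (`cn_unit`).  If `g = algebraMap c`, `c` in `F`: left case with `c` and `v = Pi.single 0 1`.  Otherwise take `χ` of `irr_charpoly`.  If `χ.map` has a root `c` in `L`, then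
  `det (c • 1 - g) = 0` (`Matrix.eval_charpoly` or the definition of the characteristic polynomial), so there is `v ≠ 0` with `g v = c v` (`Matrix.exists_mulVec_eq_zero_iff`), `c ≠ 0` since `det g ≠ 0`.  If it has no root: let `q` be a monic
  irreducible factor of `f = χ.map`; by `PS p L` its degree is a power of `p`, it is `≤ p`, and it is not `1` (no root), so it is `p` and `f = q` is irreducible (both monic of the same degree).

* `exists_split`: from `split_or`: in the first case `T = D.TA c`, `ta_semi`, `split_a` for `n` and for `1` (with `g1 = Matrix.diagonal (fun i => (s^i) c)`, `diag_mem_cn`, `v = Pi.single 0 1`, `(s^0) c = c`).  In the second case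
  `exists_md`, `T = m.T`, `T_semi`, `split`, `exists_g1` for `1`.

* `exists_split_an`: transport by `mem_an_rx`, `rx_inj` (`rx h 0 = 0`), `rx_surj`; `g1 ≠ 0` because of `SplitD.det` (`T.e_ne`, `p > 0`).
-/

set_option autoImplicit false

namespace Pool.Agent.MSX

universe u

variable {p : ℕ} {F L : Type u} [Field F] [Field L] [Algebra F L] (D : Dat p F L)

namespace Dat

include D in
theorem not_dvd_one : ¬ (p : ℤ) ∣ 1 := by
  intro h
  have h1 := D.hp.two_le
  have h2 := Int.le_of_dvd one_pos h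
  omega

private theorem spl_comm_h75 {M : Type u} [Field M] [Algebra L M] (s' : M ≃+* M) (r : M)
    (h1 : ∀ l : L, s' (algebraMap L M l) = algebraMap L M (D.s l)) (h3 : s' r = r)
    (hrk : Module.finrank L M = p) (hli : LinearIndependent L (fun j : Fin p => r ^ j.val))
    {B g : Matrix (Fin p) (Fin p) L} (hg : g ∈ D.Cn B) (ψ : M →ₐ[L] Matrix (Fin p) (Fin p) L)
    (hψr : ψ r = g) (x : M) (v : Fin p → L) :
    D.tau B ((ψ x).mulVec v) = (ψ (s' x)).mulVec (D.tau B v) := by
  have hfin : Module.Finite L M := Module.finite_of_finrank_pos (by rw [hrk]; exact D.hp.pos)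
  have hspan : Submodule.span L (Set.range fun j : Fin p => r ^ j.val) = ⊤ :=
    hli.span_eq_top_of_card_eq_finrank' (by rw [Fintype.card_fin, hrk])
  have hx : x ∈ Submodule.span L (Set.range fun j : Fin p => r ^ j.val) := by
    rw [hspan]
    exact Submodule.mem_top
  induction hx using Submodule.span_induction with
  | mem x hx =>
    obtain ⟨j, rfl⟩ := hx
    have key : ∀ k : ℕ, D.tau B ((ψ (r ^ k)).mulVec v) = (ψ (s' (r ^ k))).mulVec (D.tau B v) := by
      intro k
      induction k with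
      | zero => rw [pow_zero, map_one, map_one, map_one, Matrix.one_mulVec, Matrix.one_mulVec]
      | succ k ih =>
        rw [pow_succ', map_mul, map_mul, map_mul, h3, hψr, ← Matrix.mulVec_mulVec, ← Matrix.mulVec_mulVec,
          ← D.cn_mulVec hg, ih]
    exact key j.val
  | zero => rw [map_zero, map_zero, map_zero, Matrix.zero_mulVec, Matrix.zero_mulVec, map_zero]
  | add x y _ _ hx hy =>
    rw [map_add, map_add, map_add, Matrix.add_mulVec, Matrix.add_mulVec, map_add, hx, hy]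
  | smul l x _ hx =>
    have e1 : s' (l • x) = D.s l • s' x := by
      rw [Algebra.smul_def, map_mul, h1, ← Algebra.smul_def]
    rw [e1, map_smul, map_smul, Matrix.smul_mulVec, Matrix.smul_mulVec, D.tau_smul, hx]

theorem exists_md {n : ℤ} (hn : ¬ (p : ℤ) ∣ n) {g : Matrix (Fin p) (Fin p) L}
    (hg : g ∈ D.Cn (D.Bp n)) (h0 : g ≠ 0) {χ : Polynomial F} (hm : χ.Monic) (hd : χ.natDegree = p)
    (hi : Irreducible (χ.map (algebraMap F L))) (ha : Polynomial.aeval g χ = 0) :
    ∃ (M : Type u) (_ : Field M) (_ : Algebra L M) (m : MD D M) (Φ : M ≃ₗ[L] (Fin p → L)),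
      (∀ x, Φ (m.z ^ n * m.s' x) = D.tau (D.Bp n) (Φ x)) ∧ ∀ x, Φ (m.g * x) = g.mulVec (Φ x) := by
  obtain ⟨M, iM, iA, s', r, h1, h2, h3, hrk, hli, hψ⟩ := D.exists_field hm hd hi
  obtain ⟨ψ, hψr⟩ := hψ (Matrix (Fin p) (Fin p) L) g (by
    rw [Polynomial.aeval_map_algebraMap]
    exact ha)
  obtain ⟨z, Φ, hz, hΦ, hmul⟩ := D.exists_dat s' h1 h2 hrk hn ψ
    (D.spl_comm_h75 s' r h1 h3 hrk hli hg ψ hψr)
  have hr : r ≠ 0 := by
    rintro rfl
    exact h0 (by rw [← hψr, map_zero])
  refine ⟨M, iM, iA, ⟨s', h1, h2, r, hr, h3, z, hz, hrk, hli⟩, Φ, hΦ, fun x => ?_⟩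
  rw [← hψr]
  exact hmul r x

theorem split_or (hD : D.Div) (hF : PS p F) (hL : PS p L) {n : ℤ} (hn : ¬ (p : ℤ) ∣ n)
    {g : Matrix (Fin p) (Fin p) L} (hg : g ∈ D.Cn (D.Bp n)) (h0 : g ≠ 0) :
    (∃ (c : L) (v : Fin p → L), c ≠ 0 ∧ v ≠ 0 ∧ g.mulVec v = c • v) ∨
    ∃ χ : Polynomial F, χ.Monic ∧ χ.natDegree = p ∧ Irreducible (χ.map (algebraMap F L)) ∧
      Polynomial.aeval g χ = 0 := by
  have hne : Nonempty (Fin p) := ⟨⟨0, D.hp.pos⟩⟩
  have hdet : g.det ≠ 0 := D.cn_unit hD hn hg h0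
  by_cases hc : ∃ c : F, g = algebraMap F (Matrix (Fin p) (Fin p) L) c
  · obtain ⟨c, rfl⟩ := hc
    refine Or.inl ⟨algebraMap F L c, Pi.single ⟨0, D.hp.pos⟩ 1, ?_, ?_, ?_⟩
    · intro h
      rw [map_eq_zero] at h
      exact h0 (by rw [h, map_zero])
    · intro h
      have h1 := congrFun h ⟨0, D.hp.pos⟩
      rw [Pi.single_eq_same] at h1
      exact one_ne_zero h1
    · rw [Algebra.algebraMap_eq_smul_one, Matrix.smul_mulVec, Matrix.one_mulVec, algebraMap_smul]
  · push Not at hc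
    obtain ⟨χ, hm, hirr, hd, ha, hch⟩ := D.irr_charpoly hD hn hF hg hc
    by_cases hroot : ∃ c : L, (χ.map (algebraMap F L)).IsRoot c
    · obtain ⟨c, hc⟩ := hroot
      rw [← hch, Polynomial.IsRoot.def, Matrix.eval_charpoly] at hc
      obtain ⟨v, hv, hv0⟩ := Matrix.exists_mulVec_eq_zero_iff.2 hc
      have hgv : g.mulVec v = c • v := by
        rw [Matrix.sub_mulVec, sub_eq_zero, Matrix.scalar_apply, ← Matrix.smul_one_eq_diagonal,
          Matrix.smul_mulVec, Matrix.one_mulVec] at hv0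
        exact hv0.symm
      refine Or.inl ⟨c, v, ?_, hv, hgv⟩
      rintro rfl
      rw [zero_smul] at hgv
      exact hdet (Matrix.exists_mulVec_eq_zero_iff.1 ⟨v, hv, hgv⟩)
    · refine Or.inr ⟨χ, hm, hd, ?_, ha⟩
      have hfm : (χ.map (algebraMap F L)).Monic := hm.map _
      have hfd : (χ.map (algebraMap F L)).natDegree = p := by rw [Polynomial.natDegree_map, hd]
      have hnu : ¬ IsUnit (χ.map (algebraMap F L)) := by
        intro h
        have h1 := Polynomial.natDegree_eq_zero_of_isUnit h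
        have := D.hp.pos
        omega
      obtain ⟨q, hqm, hqi, hqd⟩ := Polynomial.exists_monic_irreducible_factor _ hnu
      have hle : q.natDegree ≤ p := by
        rw [← hfd]
        exact Polynomial.natDegree_le_of_dvd hqd hfm.ne_zero
      obtain ⟨k, hk⟩ := hL q hqi
      have hge : p ≤ q.natDegree := by
        rw [hk]
        rcases Nat.eq_zero_or_pos k with h | h
        · exfalso
          rw [h, pow_zero] at hk
          obtain ⟨c, hc⟩ := Polynomial.exists_root_of_degree_eq_one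
            ((Polynomial.degree_eq_iff_natDegree_eq_of_pos one_pos).2 hk)
          exact hroot ⟨c, hc.dvd hqd⟩
        · exact Nat.le_self_pow (by omega) p
      have e : q = χ.map (algebraMap F L) := by
        obtain ⟨c, hc⟩ := hqd
        have hcm : c.Monic := hqm.of_mul_monic_left (by rw [← hc]; exact hfm)
        have h1 : (χ.map (algebraMap F L)).natDegree = q.natDegree + c.natDegree := by
          rw [hc, hqm.natDegree_mul hcm]
        have h2 : c.natDegree = 0 := by omega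
        rw [hc, hcm.natDegree_eq_zero.1 h2, mul_one]
      rw [← e]
      exact hqi

theorem exists_split [PerfectField L] (hD : D.Div) (hF : PS p F) (hL : PS p L) {n : ℤ}
    (hn : ¬ (p : ℤ) ∣ n) {g : Matrix (Fin p) (Fin p) L} (hg : g ∈ D.Cn (D.Bp n)) (h0 : g ≠ 0) :
    ∃ T : TD p L (Fin p), T.Semi D ∧ D.Split n g T ∧ ∃ g1 ∈ D.Cn (D.Bp 1), D.Split 1 g1 T := by
  rcases D.split_or hD hF hL hn hg h0 with ⟨c, v, hc, hv, h⟩ | ⟨χ, hm, hd, hi, ha⟩
  · refine ⟨D.TA c hc, D.ta_semi c hc, D.split_a hD hn hg hc hv h, _, D.diag_mem_cn 1 c,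
      D.split_a hD D.not_dvd_one (D.diag_mem_cn 1 c) hc (v := Pi.single ⟨0, D.hp.pos⟩ 1) ?_ ?_⟩
    · intro h
      have h1 := congrFun h ⟨0, D.hp.pos⟩
      rw [Pi.single_eq_same] at h1
      exact one_ne_zero h1
    · funext i
      rw [Matrix.mulVec_diagonal, Pi.smul_apply, smul_eq_mul]
      by_cases hi : i = ⟨0, D.hp.pos⟩
      · subst hi
        rw [Pi.single_eq_same]
        show (D.s ^ 0) c * 1 = c * 1
        rw [pow_zero]
        rfl
      · rw [Pi.single_eq_of_ne hi, mul_zero, mul_zero]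
  · obtain ⟨M, iM, iA, m, Φ, hΦ, hgΦ⟩ := D.exists_md hn hg h0 hm hd hi ha
    exact ⟨m.T, m.T_semi, m.split Φ hΦ hgΦ, m.exists_g1 hD D.not_dvd_one⟩

theorem exists_split_an [PerfectField L] (hD : D.Div) (hF : PS p F) (hL : PS p L) {n : ℤ}
    (hn : ¬ (p : ℤ) ∣ n) {g : Matrix (Fin (dm p n)) (Fin (dm p n)) L} (hg : g ∈ D.An n) (h0 : g ≠ 0) :
    ∃ T : TD p L (Fin p), T.Semi D ∧ D.Split n (rx hn g) T ∧
      ∃ g1 ∈ D.An 1, g1 ≠ 0 ∧ D.Split 1 (rx D.not_dvd_one g1) T := by
  obtain ⟨T, hT, hS, g1, hg1, hS1⟩ := D.exists_split hD hF hL hn ((D.mem_an_rx hn).1 hg)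
    (fun h => h0 (rx_inj hn h))
  obtain ⟨g1', rfl⟩ := rx_surj D.not_dvd_one g1
  refine ⟨T, hT, hS, g1', (D.mem_an_rx D.not_dvd_one).2 hg1, ?_, hS1⟩
  rintro rfl
  obtain ⟨S1⟩ := hS1
  have h1 := S1.det
  have hne : Nonempty (Fin p) := ⟨⟨0, D.hp.pos⟩⟩
  have h2 : (rx D.not_dvd_one (0 : Matrix (Fin (dm p 1)) (Fin (dm p 1)) L)).det = 0 := by
    rw [rx_det]
    have hne' : Nonempty (Fin (dm p 1)) := ⟨Fin.cast (dm_of D.not_dvd_one).symm ⟨0, D.hp.pos⟩⟩
    exact Matrix.det_zero
  rw [h2, map_zero] at h1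
  exact (Finset.prod_ne_zero_iff.2 fun i _ => T.e_ne i) h1.symm

end Dat

end Pool.Agent.MSX
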