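import Pool.Agent.MSX.ThA

/-! # Signs and tame symbols

The square of an element of `MSK.SgT D.em` is a family of tame symbols of an element of `K2 D.K`. -/

set_option autoImplicit false

namespace Pool.Agent.MSX

open MvPolynomial

universe u

theorem lv_tt {k : Type u} [Field k] (n : ℤ) (w : (PowerSeries k)ˣ) (x : LaurentSeries k)
    (hx : x = ((MSK.tt k ^ n * MSK.uO w : (LaurentSeries k)ˣ) : LaurentSeries k)) :
    (lv k).v x = n ∧ (lv k).A x = Additive.ofMul (MSK.c0 w) := by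
  have hx0 : x ≠ 0 := by
    rw [hx]
    exact Units.ne_zero _
  have h1 : ((MSK.tt k : (LaurentSeries k)ˣ) : LaurentSeries k) = cs (PowerSeries.X : PowerSeries k) :=
    HahnSeries.ofPowerSeries_X.symm
  have ht0 : ((MSK.tt k : (LaurentSeries k)ˣ) : LaurentSeries k) ≠ 0 := Units.ne_zero _
  have h2 : ((MSK.uO w : (LaurentSeries k)ˣ) : LaurentSeries k) = cs (w : PowerSeries k) := rfl
  have hw0 : PowerSeries.constantCoeff (w : PowerSeries k) ≠ 0 := (MSK.c0 w).ne_zero
  have hcw0 : cs (w : PowerSeries k) ≠ 0 := by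
    rw [← h2]
    exact Units.ne_zero _
  obtain ⟨x1, x2⟩ := lv_X (k := k)
  obtain ⟨y1, y2⟩ := lv_unit (w : PowerSeries k) hw0
  have h3 : x = (cs (PowerSeries.X : PowerSeries k)) ^ n * cs (w : PowerSeries k) := by
    rw [hx, Units.val_mul, Units.val_zpow_eq_zpow_val, h1, h2]
  rw [h1] at ht0
  have hz : (cs (PowerSeries.X : PowerSeries k)) ^ n ≠ 0 := zpow_ne_zero n ht0
  constructor
  · rw [h3, (lv k).v_mul _ _ hz hcw0, (lv k).v_zpow _ _ ht0, x1, y1]
    ring
  · apply Additive.toMul.injective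
    ext1
    rw [MK.Val.A_val _ hx0, h3, (lv k).ac_mul _ _ hz hcw0, (lv k).ac_zpow _ _ ht0, x2, y2, one_zpow,
      one_mul]
    rfl

variable {p : ℕ} {F L : Type u} [Field F] [Field L] [Algebra F L] (D : Dat p F L)

namespace Dat

/-- squares of the elements of `SgT` are tame symbols -/
theorem sgT_tame [PerfectField L] (a : ∀ P : HP p L, (kP P)ˣ) (h : a ∈ MSK.SgT D.em) :
    ∃ w : MK.K2 D.K, ∀ P, Additive.ofMul (a P) + Additive.ofMul (a P) =
      (lv (kP P)).tame (MK.K2.map (D.em P) w) := by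
  refine Subgroup.closure_induction (p := fun a _ => ∃ w : MK.K2 D.K, ∀ P,
    Additive.ofMul (a P) + Additive.ofMul (a P) = (lv (kP P)).tame (MK.K2.map (D.em P) w))
    ?_ ?_ ?_ ?_ h
  · rintro z (hz | ⟨f, g, n, m, u, v, hu, hv, rfl⟩)
    · refine ⟨0, fun P => ?_⟩
      rw [map_zero, map_zero, ← ofMul_mul]
      rcases hz P with h1 | h1
      · rw [h1, one_mul]
        rfl
      · rw [h1, neg_mul_neg, one_mul]
        rfl
    · refine ⟨-(MK.S (f : D.K) (g : D.K) + MK.S (f : D.K) (g : D.K)), fun P => ?_⟩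
      have hf0 : D.em P (f : D.K) ≠ 0 := (map_ne_zero _).2 f.ne_zero
      have hg0 : D.em P (g : D.K) ≠ 0 := (map_ne_zero _).2 g.ne_zero
      obtain ⟨f1, f2⟩ := lv_tt (n P) (u P) (D.em P (f : D.K)) (congrArg Units.val (hu P))
      obtain ⟨g1, g2⟩ := lv_tt (m P) (v P) (D.em P (g : D.K)) (congrArg Units.val (hv P))
      have h2 : ((n P * m P) • MK.Val.m1 (kP P)) + ((n P * m P) • MK.Val.m1 (kP P)) = 0 := by
        rw [← zsmul_add]
        have h3 : MK.Val.m1 (kP P) + MK.Val.m1 (kP P) = 0 := by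
          unfold MK.Val.m1
          rw [← ofMul_mul, neg_mul_neg, one_mul]
          rfl
        rw [h3, zsmul_zero]
      rw [map_neg, map_add, MK.K2.map_S, map_neg, map_add, MK.Val.tame_S _ hf0 hg0, f1, f2, g1, g2]
      show Additive.ofMul (MSK.c0 (u P) ^ m P * (MSK.c0 (v P) ^ n P)⁻¹) +
        Additive.ofMul (MSK.c0 (u P) ^ m P * (MSK.c0 (v P) ^ n P)⁻¹) = _
      rw [ofMul_mul, ofMul_inv, ofMul_zpow, ofMul_zpow]
      have h4 : ∀ x y c : Additive (kP P)ˣ, c + c = 0 →
          x + -y + (x + -y) = -(c + y - x + (c + y - x)) := by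
        intro x y c hc
        have h5 : c = -c := eq_neg_of_add_eq_zero_left hc
        have h6 : -(c + y - x + (c + y - x)) = x + -y + (x + -y) - (c + c) := by abel
        rw [h6, hc, sub_zero]
      exact h4 _ _ _ h2
  · exact ⟨0, fun P => by
      rw [map_zero, map_zero]
      exact add_zero _⟩
  · rintro x y - - ⟨w, hw⟩ ⟨w', hw'⟩
    refine ⟨w + w', fun P => ?_⟩
    rw [map_add, map_add, ← hw P, ← hw' P, Pi.mul_apply, ofMul_mul]
    abel
  · rintro x - ⟨w, hw⟩
    refine ⟨-w, fun P => ?_⟩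
    rw [map_neg, map_neg, ← hw P, Pi.inv_apply, ofMul_inv, neg_add]

end Dat

end Pool.Agent.MSX
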