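import Pool.Agent.MSX.ThF
import Pool.Agent.MSX.ThS
import Pool.Agent.MSX.Spl

/-! # Reduction to the standard object of degree one; commutators -/

set_option autoImplicit false
set_option maxHeartbeats 400000

namespace Pool.Agent.MSX

open MvPolynomial

universe u

variable {p : ℕ} {F L : Type u} [Field F] [Field L] [Algebra F L] (D : Dat p F L)

namespace Dat

/-- the values of the automorphisms of the standard object of degree one -/
def Th1 [PerfectField L] : Subgroup (∀ P : HP p L, (kP P)ˣ) where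
  carrier := {a | ∃ γ ∈ D.An 1, γ.det ≠ 0 ∧ MSK.IsTh D.em (D.Os 1) (D.km 1 γ) a}
  mul_mem' := by
    rintro a a' ⟨γ, h1, h2, h3⟩ ⟨γ', h1', h2', h3'⟩
    refine ⟨γ * γ', Subring.mul_mem _ h1 h1', ?_, ?_⟩
    · rw [Matrix.det_mul]
      exact mul_ne_zero h2 h2'
    · rw [km_mul h1 h1']
      exact MSK.IsTh_mul h3 h3'
  one_mem' := by
    refine ⟨1, Subring.one_mem _, ?_, ?_⟩
    · rw [Matrix.det_one]
      exact one_ne_zero
    · rw [km_one]
      exact MSK.IsTh_one _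
  inv_mem' := by
    rintro a ⟨γ, h1, h2, h3⟩
    refine ⟨γ⁻¹, an_inv h1 h2, ?_, ?_⟩
    · rw [Matrix.det_nonsing_inv, Ring.inverse_eq_inv']
      exact inv_ne_zero h2
    · exact MSK.IsTh_inv h3 (km_iso h1 h2)

variable {D}

theorem mem_Th1 [PerfectField L] {a : ∀ P : HP p L, (kP P)ˣ} :
    a ∈ D.Th1 ↔ ∃ γ ∈ D.An 1, γ.det ≠ 0 ∧ MSK.IsTh D.em (D.Os 1) (D.km 1 γ) a := Iff.rfl

/-- the power of a family in `Th1` -/
theorem fam_pow_mem [PerfectField L] (hD : D.Div) {T : TD p L (Fin p)}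
    {g : Matrix (Fin (dm p 1)) (Fin (dm p 1)) L} (hg : g ∈ D.An 1) (h0 : g ≠ 0)
    (hS : D.Split 1 (rx D.not_dvd_one g) T) (k : ℤ) :
    (fun P => Units.map (inc P : kap P →* kP P) (T.fam D.hp.one_lt P).toMul ^ k) ∈ D.Th1 := by
  have h1 : (fun P => Units.map (inc P : kap P →* kP P) (T.fam D.hp.one_lt P).toMul ^ (-1 : ℤ)) ∈
      D.Th1 := ⟨g, hg, D.an_unit hD 1 hg h0, th_split D.not_dvd_one hg hS⟩
  have h2 := Subgroup.zpow_mem _ h1 (-k)
  convert h2 using 1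
  funext P
  rw [Pi.pow_apply, ← zpow_mul]
  congr 1
  ring

/-- reduction to degree one -/
theorem thO_le [PerfectField L] [Infinite D.K] (hD : D.Div) (hF : PS p F) (hL : PS p L) :
    MSK.ThO D.em D.Os ≤ MSK.SgT D.em ⊔ D.Th1 := by
  unfold MSK.ThO
  rw [Subgroup.closure_le]
  rintro a ⟨n, g, ha⟩
  obtain ⟨g', -, i, -, -⟩ := id ha
  have hpos : 0 < dm p n := by
    unfold dm
    split_ifs
    · exact one_pos
    · exact D.hp.pos
  have hg0 : g ≠ 0 := by
    intro h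
    have h1 := i.hh'
    rw [h, Matrix.zero_mul] at h1
    have h2 := congrFun (congrFun h1 (⟨0, hpos⟩ : Fin (dm p n))) (⟨0, hpos⟩ : Fin (dm p n))
    have h3 : (1 : Matrix (Fin (dm p n)) (Fin (dm p n)) D.K) ⟨0, hpos⟩ ⟨0, hpos⟩ = 1 :=
      Matrix.one_apply_eq _
    exact one_ne_zero (h3.symm.trans h2.symm)
  obtain ⟨Φ, hΦ, hd, hgΦ, -⟩ := km_div hD (n := n) (f := g) i.loc hg0
  have hΦ0 : Φ ≠ 0 := by
    rintro rfl
    exact hg0 (hgΦ.trans km_zero)
  have key : ∀ b : ∀ P : HP p L, (kP P)ˣ, MSK.IsTh D.em (D.Os n) (D.km n Φ) b → b ∈ D.Th1 →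
      a ∈ MSK.SgT D.em ⊔ D.Th1 := by
    intro b hb hb1
    have ha' : MSK.IsTh D.em (D.Os n) (D.km n Φ) a := hgΦ ▸ ha
    have h1 := MSK.IsTh_unique ha' hb
    have h2 : a = a * b⁻¹ * b := by rw [inv_mul_cancel_right]
    rw [h2]
    exact Subgroup.mul_mem_sup h1 hb1
  by_cases hn : (p : ℤ) ∣ n
  · obtain ⟨c, hc⟩ := an_scalar hn hΦ
    have hc0 : algebraMap F L c ≠ 0 := by
      intro h
      exact hΦ0 (Matrix.ext fun i j => (hc i j).trans h)
    refine key _ (th_scalar hn hΦ hc0 hc) ?_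
    have hg1 : algebraMap F (Matrix (Fin (dm p 1)) (Fin (dm p 1)) L) c ∈ D.An 1 :=
      D.cn_algebraMap _ c
    have hrx : rx D.not_dvd_one (algebraMap F (Matrix (Fin (dm p 1)) (Fin (dm p 1)) L) c) =
        algebraMap F (Matrix (Fin p) (Fin p) L) c := by
      refine Matrix.ext fun i j => ?_
      rw [rx, Matrix.submatrix_apply, Matrix.algebraMap_matrix_apply, Matrix.algebraMap_matrix_apply]
      by_cases h : i = j
      · rw [if_pos (congrArg _ h), if_pos h]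
      · rw [if_neg h, if_neg]
        intro h'
        apply h
        exact Fin.cast_injective _ h'
    refine fam_pow_mem hD hg1 ?_ ?_ _
    · intro h
      have hpos1 : 0 < dm p 1 := by
        rw [dm_of D.not_dvd_one]
        exact D.hp.pos
      have h2 := congrFun (congrFun h (⟨0, hpos1⟩ : Fin (dm p 1))) (⟨0, hpos1⟩ : Fin (dm p 1))
      rw [Matrix.algebraMap_matrix_apply, if_pos rfl] at h2
      exact hc0 h2
    · rw [hrx]
      refine D.split_a hD D.not_dvd_one (D.cn_algebraMap _ c) hc0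
        (v := Pi.single ⟨0, D.hp.pos⟩ 1) ?_ ?_
      · intro h
        have h1 := congrFun h ⟨0, D.hp.pos⟩
        rw [Pi.single_eq_same] at h1
        exact one_ne_zero h1
      · rw [Algebra.algebraMap_eq_smul_one, Matrix.smul_mulVec, Matrix.one_mulVec, algebraMap_smul]
  · obtain ⟨T, -, hS, g1, hg1, h0, hS1⟩ := D.exists_split_an hD hF hL hn hΦ hΦ0
    exact key _ (th_split hn hΦ hS) (fam_pow_mem hD hg1 h0 hS1 _)

/-- the value of a commutator -/
theorem th_comm [PerfectField L] [Infinite D.K] {γ g w : Matrix (Fin (dm p 1)) (Fin (dm p 1)) L}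
    (hg : g ∈ D.An 1) (hw : w ∈ D.An 1) (hg0 : g.det ≠ 0) (hw0 : w.det ≠ 0)
    (h : γ = g * w * g⁻¹ * w⁻¹) {a : ∀ P : HP p L, (kP P)ˣ}
    (ha : MSK.IsTh D.em (D.Os 1) (D.km 1 γ) a) : a ∈ MSK.SgT D.em := by
  obtain ⟨b, hb⟩ := MSK.IsTh_exists (km_iso hg hg0)
  obtain ⟨c, hc⟩ := MSK.IsTh_exists (km_iso hw hw0)
  have h1 := MSK.IsTh_mul (MSK.IsTh_mul (MSK.IsTh_mul hb hc) (MSK.IsTh_inv hb (km_iso hg hg0)))
    (MSK.IsTh_inv hc (km_iso hw hw0))
  have hgi := an_inv hg hg0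
  have hwi := an_inv hw hw0
  have e1 : D.km 1 γ = D.km 1 g * D.km 1 w * D.km 1 g⁻¹ * D.km 1 w⁻¹ := by
    rw [h, km_mul (Subring.mul_mem _ (Subring.mul_mem _ hg hw) hgi) hwi,
      km_mul (Subring.mul_mem _ hg hw) hgi, km_mul hg hw]
  have h2 : MSK.IsTh D.em (D.Os 1) (D.km 1 γ) (b * c * b⁻¹ * c⁻¹) := by
    rw [e1]
    exact h1
  have h3 := MSK.IsTh_unique ha h2
  have h4 : b * c * b⁻¹ * c⁻¹ = 1 := by
    rw [mul_comm b c, mul_inv_cancel_right, mul_inv_cancel]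
  rwa [h4, inv_one, mul_one] at h3

end Dat

end Pool.Agent.MSX
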