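import Pool.Agent.MSX.Obs
import Pool.Agent.MSX.Trip
import Pool.Agent.MSK.Gkz

/-! # The value of a pair of Koszul complexes

For invariants `y`, `g`, `h` in good position let `Y = y / y0^m`, `G = g / y0^n`, `H = h / y0^n` in `D.K`. The value of the
pair of Koszul complexes of `(Y, G)` and `(Y, H)` (lattices given by the powers of `y0`) is the family of `Trip.fam`.

-/

set_option autoImplicit false

namespace Pool.Agent.MSX

open MvPolynomial

universe u

variable {p : ℕ} {F L : Type u} [Field F] [Field L] [Algebra F L] (D : Dat p F L)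

namespace Dat

/-- an invariant of degree `p m` divided by the power `y0 ^ m` -/
theorem inv_div_mem {m : ℕ} {f : S p L} (hf : D.Inv m f) :
    algebraMap (S p L) (Q p L) f / algebraMap (S p L) (Q p L) y0 ^ m ∈ D.K := by
  have h0 : D.Inv m (y0 (p := p) (L := L) ^ m) := by
    have h := Inv.pow D D.inv_y0 m
    rwa [one_mul] at h
  refine ⟨⟨p * m, f, y0 ^ m, hf.1, h0.1, pow_ne_zero m y0_ne, by rw [map_pow]⟩, ?_⟩
  have hb : algebraMap (S p L) (Q p L) (C (D.bL ^ m)) ≠ 0 :=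
    (map_ne_zero_iff _ Q_inj).2 ((map_ne_zero_iff _ (C_injective _ _)).2 (pow_ne_zero m D.bL_ne))
  rw [← map_pow, map_div₀, D.sigQ_alg, D.sigQ_alg, hf.2, h0.2, map_mul, map_mul,
    mul_div_mul_left _ _ hb]

/-- an invariant of degree `p m` divided by the power `y0 ^ m`, as an element of the function field -/
noncomputable def ivK {m : ℕ} {f : S p L} (hf : D.Inv m f) : D.K :=
  ⟨algebraMap (S p L) (Q p L) f / algebraMap (S p L) (Q p L) y0 ^ m, D.inv_div_mem hf⟩

theorem ivK_ne {m : ℕ} {f : S p L} (hf : D.Inv m f) (f0 : f ≠ 0) : D.ivK hf ≠ 0 := by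
  intro h
  have h1 := congrArg Subtype.val h
  have h2 : algebraMap (S p L) (Q p L) f ≠ 0 := (map_ne_zero_iff _ Q_inj).2 f0
  have h3 : algebraMap (S p L) (Q p L) (y0 (p := p) (L := L)) ^ m ≠ 0 :=
    pow_ne_zero m ((map_ne_zero_iff _ Q_inj).2 y0_ne)
  exact div_ne_zero h2 h3 h1

/-- the image of `y0` in the Laurent series -/
noncomputable def yP [PerfectField L] (P : HP p L) : (LaurentSeries (kP P))ˣ :=
  Units.mk0 (phi P (algebraMap (S p L) (Q p L) y0))
    ((map_ne_zero (phi P)).2 ((map_ne_zero_iff _ Q_inj).2 y0_ne))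

theorem em_ivK [PerfectField L] (P : HP p L) {m : ℕ} {f : S p L} (hf : D.Inv m f) :
    D.em P (D.ivK hf) * ((yP P ^ m : (LaurentSeries (kP P))ˣ) : LaurentSeries (kP P)) =
      MSK.iO (kP P) (psi P f) := by
  have h1 : D.em P (D.ivK hf) =
      phi P (algebraMap (S p L) (Q p L) f / algebraMap (S p L) (Q p L) y0 ^ m) := rfl
  have h2 : ((yP P ^ m : (LaurentSeries (kP P))ˣ) : LaurentSeries (kP P)) =
      phi P (algebraMap (S p L) (Q p L) y0 ^ m) := by
    rw [Units.val_pow_eq_pow_val, map_pow]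
    rfl
  have h3 : algebraMap (S p L) (Q p L) (y0 (p := p) (L := L)) ^ m ≠ 0 :=
    pow_ne_zero m ((map_ne_zero_iff _ Q_inj).2 y0_ne)
  rw [h1, h2, ← map_mul, div_mul_cancel₀ _ h3, phi_alg]
  rfl

theorem psi_ne_unit (P : HP p L) {f : S p L} (h : ¬ P.gen ∣ f) :
    ∃ u : (PowerSeries (kP P))ˣ, (u : PowerSeries (kP P)) = psi P f ∧
      ((MSK.c0 u : (kP P)ˣ) : kP P) = inc P (red P f) := by
  obtain ⟨u, hu⟩ := psi_unit P f h
  refine ⟨u, hu, ?_⟩
  rw [← psi_const, ← hu]
  rfl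

private theorem nd_ne {P : HP p L} {f : S p L} (h : ¬ P.gen ∣ f) : f ≠ 0 := by
  rintro rfl
  exact h (dvd_zero _)

/-- The value of the pair of Koszul complexes. -/
theorem Trip.isPsi [PerfectField L] {D : Dat p F L} (T : D.Trip)
    (c c' : MSK.CX D.em (MSK.kO0 (fun P => yP P ^ T.m) (fun P => yP P ^ T.n))
      (MSK.kO1 (fun P => yP P ^ T.m) (fun P => yP P ^ T.n)))
    (hc0 : c.D0 = MSK.kD0 (D.ivK T.hy) (D.ivK T.hg))
    (hc1 : c.D1 = MSK.kD1 (D.ivK T.hy) (D.ivK T.hg))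
    (hc0' : c'.D0 = MSK.kD0 (D.ivK T.hy) (D.ivK T.hh))
    (hc1' : c'.D1 = MSK.kD1 (D.ivK T.hy) (D.ivK T.hh)) :
    MSK.IsPsi (c.sum c'.sh)
      (fun P => Units.map (inc P : kap P →* kP P) (T.fam P).toMul) := by
  refine MSK.IsPsi_koszul (fun P => yP P ^ T.m) (fun P => yP P ^ T.n)
    (Units.mk0 (D.ivK T.hy) (D.ivK_ne T.hy T.y0)) (Units.mk0 (D.ivK T.hg) (D.ivK_ne T.hg T.g0))
    (Units.mk0 (D.ivK T.hh) (D.ivK_ne T.hh T.h0)) c c' hc0 hc1 hc0' hc1' _ (fun P => ?_)
  by_cases hd : P.gen ∣ T.y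
  · right
    obtain ⟨n, y', hy', hyy⟩ := WfDvdMonoid.max_power_factor T.y0 P.gen_irr
    obtain ⟨w, hw, hw2⟩ := psi_gen P
    obtain ⟨w', rfl⟩ := hw
    obtain ⟨u, hu, -⟩ := psi_ne_unit P hy'
    obtain ⟨ug, hug, hug2⟩ := psi_ne_unit P (T.cg P hd)
    obtain ⟨uh, huh, huh2⟩ := psi_ne_unit P (T.ch P hd)
    refine ⟨n, w' ^ n * u, ug, uh, Int.natCast_nonneg n, ?_, ?_, ?_, ?_⟩
    · ext1
      rw [Units.val_mul, Units.val_mul, zpow_natCast]
      refine (D.em_ivK P T.hy).trans ?_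
      have h1 : ((MSK.tt (kP P) ^ n : (LaurentSeries (kP P))ˣ) : LaurentSeries (kP P)) =
          MSK.iO (kP P) (PowerSeries.X ^ n) := by
        rw [Units.val_pow_eq_pow_val, map_pow]
        congr 1
        exact HahnSeries.ofPowerSeries_X.symm
      have h2 : ((MSK.uO (w' ^ n * u) : (LaurentSeries (kP P))ˣ) : LaurentSeries (kP P)) =
          MSK.iO (kP P) (((w' ^ n * u : (PowerSeries (kP P))ˣ)) : PowerSeries (kP P)) := rfl
      rw [h1, h2, ← map_mul, hyy, map_mul, map_pow, hw2, Units.val_mul, Units.val_pow_eq_pow_val,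
        hu, mul_pow, mul_assoc]
    · ext1
      rw [Units.val_mul]
      refine (D.em_ivK P T.hg).trans ?_
      rw [← hug]
      rfl
    · ext1
      rw [Units.val_mul]
      refine (D.em_ivK P T.hh).trans ?_
      rw [← huh]
      rfl
    · have hgen : algebraMap (S p L) (Q p L) P.gen ≠ 0 :=
        (map_ne_zero_iff _ Q_inj).2 P.gen_irr.ne_zero
      have hv : (pl P).v (algebraMap (S p L) (Q p L) T.y) = n := by
        rw [hyy, map_mul, map_pow, (pl P).v_mul _ _ (pow_ne_zero n hgen)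
          ((map_ne_zero_iff _ Q_inj).2 (nd_ne hy')), (pl P).v_pow, (pl_gen P).1,
          (pl_unit P y' hy').1]
        ring
      have hA : ∀ {f : S p L} (hf : ¬ P.gen ∣ f),
          (((pl P).A (algebraMap (S p L) (Q p L) f)).toMul : kap P) = red P f := by
        intro f hf
        rw [MK.Val.A_val _ ((map_ne_zero_iff _ Q_inj).2 (nd_ne hf)), (pl_unit P f hf).2]
      have hfam : (T.fam P).toMul =
          (((pl P).A (algebraMap (S p L) (Q p L) T.g)).toMul *
            (((pl P).A (algebraMap (S p L) (Q p L) T.h)).toMul)⁻¹) ^ (n : ℤ) := by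
        unfold Trip.fam
        rw [hv, toMul_zsmul, toMul_sub, div_eq_mul_inv]
      rw [hfam, map_zpow, map_mul, map_inv]
      congr 2
      · ext1
        rw [hug2]
        show inc P _ = _
        rw [hA (T.cg P hd)]
      · congr 1
        ext1
        rw [huh2]
        show inc P _ = _
        rw [hA (T.ch P hd)]
  · left
    obtain ⟨u, hu, -⟩ := psi_ne_unit P hd
    refine ⟨?_, ⟨u, ?_⟩, ⟨psi P T.g, ?_⟩, ⟨psi P T.h, ?_⟩⟩
    · rw [T.fam_zero P hd]
      exact map_one _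
    · ext1
      rw [Units.val_mul]
      refine (D.em_ivK P T.hy).trans ?_
      rw [← hu]
      rfl
    · exact D.em_ivK P T.hg
    · exact D.em_ivK P T.hh

end Dat

end Pool.Agent.MSX
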