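import Pool.Agent.MSX.MDt

/-! # The field of a cyclic datum

PROOF of `exists_field`.  Let `f = χ.map (algebraMap F L)`, monic irreducible of degree `p`, `M = AdjoinRoot f` (a field: `AdjoinRoot.instField` with `Fact (Irreducible f)`), `r = AdjoinRoot.root f`.
The powers `1, r, ..., r^(p-1)` are a basis (`AdjoinRoot.powerBasis'` for monic `f`; `PowerBasis.finrank`, `PowerBasis.basis`, `natDegree f = p`).
`s'` is the homomorphism which is `s` on `L` (`AdjoinRoot.of f ∘ D.s`) and fixes `r`: `AdjoinRoot.lift` (the value `eval₂ (of ∘ s) r f` is `eval₂ of r (f.map s) = eval₂ of r f = 0` because `f.map s = f`: the coefficients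
come from `F` and `s` is `F`-linear).  Its `p`-th iterate is the identity on `L` (`D.s_pow`; `std_pow` in `Std`) and on `r`, so it is the identity (two homomorphisms out of `AdjoinRoot`: `AdjoinRoot.ringHom_ext`);
so `s'` is bijective.  `ψ`: the algebra homomorphism `Polynomial.aeval y : L[X] →ₐ[L] R` vanishes on the ideal generated by `f` (every element is `f * q`), so it factors through the quotient
(`Ideal.Quotient.liftₐ`; `AdjoinRoot f` is the quotient by `Ideal.span {f}`).
-/

set_option autoImplicit false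

namespace Pool.Agent.MSX

universe u

variable {p : ℕ} {F L : Type u} [Field F] [Field L] [Algebra F L] (D : Dat p F L)

namespace Dat

theorem exists_field {χ : Polynomial F} (hm : χ.Monic) (hd : χ.natDegree = p)
    (hi : Irreducible (χ.map (algebraMap F L))) :
    ∃ (M : Type u) (_ : Field M) (_ : Algebra L M) (s' : M ≃+* M) (r : M),
      (∀ l : L, s' (algebraMap L M l) = algebraMap L M (D.s l)) ∧ (∀ x, s'^[p] x = x) ∧ s' r = r ∧
      Module.finrank L M = p ∧ LinearIndependent L (fun j : Fin p => r ^ j.val) ∧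
      ∀ (R : Type u) [Ring R] [Algebra L R] (y : R),
        Polynomial.aeval y (χ.map (algebraMap F L)) = 0 → ∃ ψ : M →ₐ[L] R, ψ r = y := by
  set f : Polynomial L := χ.map (algebraMap F L) with hf
  have hfm : f.Monic := hm.map _
  have hfd : f.natDegree = p := by
    rw [hf, hm.natDegree_map]
    exact hd
  have : Fact (Irreducible f) := ⟨hi⟩
  have hfs : f.map ((D.s.toRingEquiv : L ≃+* L) : L →+* L) = f := by
    rw [hf, Polynomial.map_map]
    congr 1
    ext x
    exact D.s.commutes x
  have hdvd : f ∣ f.map ((D.s.toRingEquiv : L ≃+* L) : L →+* L) := by rw [hfs]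
  let s' : AdjoinRoot f ≃+* AdjoinRoot f :=
    AdjoinRoot.mapRingEquiv D.s.toRingEquiv f f (by rw [hfs])
  have h1 : ∀ l : L, s' (AdjoinRoot.of f l) = AdjoinRoot.of f (D.s l) := by
    intro l
    exact AdjoinRoot.map_of _ f f hdvd l
  have h2 : s' (AdjoinRoot.root f) = AdjoinRoot.root f := by
    exact AdjoinRoot.map_root _ f f hdvd
  have h3 : ∀ k : ℕ, ∀ l : L, s'^[k] (AdjoinRoot.of f l) = AdjoinRoot.of f ((⇑D.s)^[k] l) := by
    intro k l
    induction k with
    | zero => rfl
    | succ k ih => rw [Function.iterate_succ_apply', ih, h1, Function.iterate_succ_apply']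
  have h4 : ∀ k : ℕ, s'^[k] (AdjoinRoot.root f) = AdjoinRoot.root f := by
    intro k
    induction k with
    | zero => rfl
    | succ k ih => rw [Function.iterate_succ_apply', ih, h2]
  have h5 : ∀ k : ℕ, ∀ l : L, (D.s ^ k) l = (⇑D.s)^[k] l := by
    intro k l
    induction k with
    | zero => rfl
    | succ k ih => rw [pow_succ', AlgEquiv.mul_apply, ih, Function.iterate_succ_apply']
  have h6 : ((s' : AdjoinRoot f →+* AdjoinRoot f) ^ p) = RingHom.id _ := by
    refine AdjoinRoot.ringHom_ext ?_ ?_
    · ext l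
      show ((s' : AdjoinRoot f →+* AdjoinRoot f) ^ p) (AdjoinRoot.of f l) = AdjoinRoot.of f l
      rw [RingHom.coe_pow]
      refine (h3 p l).trans ?_
      rw [← h5, D.s_pow]
    · rw [RingHom.coe_pow]
      exact h4 p
  refine ⟨AdjoinRoot f, inferInstance, inferInstance, s', AdjoinRoot.root f, h1, ?_, h2, ?_, ?_, ?_⟩
  · intro x
    have h7 := congrArg (fun g : AdjoinRoot f →+* AdjoinRoot f => g x) h6
    have h8 : ((s' : AdjoinRoot f →+* AdjoinRoot f) ^ p) x = x := h7
    rw [RingHom.coe_pow] at h8
    exact h8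
  · rw [(AdjoinRoot.powerBasis' hfm).finrank]
    exact hfd
  · have h7 := (AdjoinRoot.powerBasis' hfm).basis.linearIndependent.comp (Fin.cast hfd.symm)
      (Fin.cast_injective _)
    have h8 : (fun j : Fin p => AdjoinRoot.root f ^ j.val) =
        (⇑(AdjoinRoot.powerBasis' hfm).basis) ∘ Fin.cast hfd.symm := by
      funext j
      rw [Function.comp_apply, PowerBasis.basis_eq_pow]
      rfl
    rw [h8]
    exact h7
  · intro R _ _ y hy
    have h7 : ∀ g : Polynomial L, g ∈ Ideal.span {f} → (Polynomial.aeval y : Polynomial L →ₐ[L] R) g = 0 := by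
      intro g hg
      obtain ⟨q, hq⟩ := Ideal.mem_span_singleton.1 hg
      rw [hq, map_mul, hy, zero_mul]
    refine ⟨(Ideal.Quotient.liftₐ (Ideal.span {f}) (Polynomial.aeval y) h7 :
      (Polynomial L ⧸ Ideal.span {f}) →ₐ[L] R), ?_⟩
    exact (Ideal.Quotient.lift_mk _ _ _).trans (Polynomial.aeval_X y)

end Dat

end Pool.Agent.MSX
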