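import Pool.Agent.MSX.Orb

/-! # Decomposition of a semilinear operator into standard blocks

`τ` is a semilinear operator with `τ^p = b^n` on the finite dimensional space `V`; `D.IsStd n τ e`: in the basis `e`, indexed by
`I × Fin (dm p n)`, the operator is the direct sum of copies of the standard object (matrix `Bm n`).

PROOFS.

* `exists_block`.  Case `p ∤ n` (`dm p n = p`).  Choose `v ∉ U`, put `w j = τ^[j] v`, `W = span (w j)`.  `W` is stable
  (`τ (∑ c_j w_j) = ∑ s(c_j) τ w_j`, `τ w_j = w_{j+1}`, `τ w_{p-1} = τ^p v = b^n v = b^n w_0`: this is the equation with `Bm n`).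
  `W ⊓ U` is stable; `finrank W ≤ p`; `p ∣ finrank (W ⊓ U)` (`IsTau.sub`, `dvd_finrank`) and `finrank (W ⊓ U) < finrank W` because `v ∈ W`, `v ∉ U`;
  so `finrank (W ⊓ U) = 0`, `W ⊓ U = ⊥`.  `p ∣ finrank W`, `finrank W > 0`, so `finrank W = p`, and the `p` vectors `w j`, which span
  `W`, are linearly independent (`linearIndependent_of_top_le_span_of_card_eq_finrank`, in the subspace `W`).  A relation
  `∑ c_j mkQ (w j) = 0` gives `∑ c_j w_j ∈ W ⊓ U = ⊥`, so all `c_j = 0`.
  Case `p ∣ n` (`dm p n = 1`, `Bm n` is the `1 × 1` matrix `b^m`, `m = n / p`).  Put `τ' v = b^(-m) • τ v`; it is semilinear and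
  `τ'^p = 1`.  Choose `u ∉ U` and a linear form `φ` on `V` which vanishes on `U` with `φ u ≠ 0`
  (`Submodule.exists_le_ker_of_notMem`).  By `ex_ne` (Hil) with `a i = φ (τ'^[i] u)`, `a 0 ≠ 0`, there is `c` in `L` with
  `∑ i, φ (τ'^[i] u) * s^[i] c ≠ 0`.  Then `w := ∑ i, s^[i] c • τ'^[i] u = ∑ i, τ'^[i] (c u)` is fixed by `τ'` (shift of the summation index,
  `shift_sum` is an example), so `τ w = b^m w`, and `φ w ≠ 0`, so `w ∉ U`.
-/

set_option autoImplicit false

namespace Pool.Agent.MSX

universe u v w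

variable {p : ℕ} {F L : Type u} [Field F] [Field L] [Algebra F L] (D : Dat p F L)

namespace Dat

variable {V : Type v} [AddCommGroup V] [Module L V]

/-- A basis in which the operator is a direct sum of standard objects. -/
def IsStd (n : ℤ) (τ : V →+ V) {I : Type w} (e : Module.Basis (I × Fin (dm p n)) L V) : Prop :=
  ∀ (i : I) (j : Fin (dm p n)), τ (e (i, j)) = ∑ k, D.Bm n k j • e (i, k)

variable {n : ℤ} {τ : V →+ V}

private theorem dec_iter {D : Dat p F L} (h : D.IsTau n τ) {β : L} (hβ : D.s β = β) {T : V →+ V}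
    (hT : ∀ v, T v = β • τ v) (k : ℕ) (v : V) : T^[k] v = β ^ k • τ^[k] v := by
  induction k with
  | zero => simp
  | succ k ih =>
    rw [Function.iterate_succ_apply', ih, hT, h.sl, map_pow, hβ, smul_smul, ← pow_succ',
      Function.iterate_succ_apply']

private theorem dec_fix {D : Dat p F L} (h : D.IsTau n τ) (m : ℤ) (hm : n = p * m)
    (U : Submodule L V) {u : V} (hu : u ∉ U) : ∃ w : V, τ w = D.bL ^ m • w ∧ w ∉ U := by
  obtain ⟨φ, hφ, hφU⟩ := Submodule.exists_le_ker_of_notMem hu
  obtain ⟨β, hβ⟩ : ∃ β : L, β = (D.bL ^ m)⁻¹ := ⟨_, rfl⟩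
  have hb : D.bL ^ m ≠ 0 := zpow_ne_zero _ D.bL_ne
  have hsb : D.s (D.bL ^ m) = D.bL ^ m := by rw [map_zpow₀, D.s_bL]
  have hsβ : D.s β = β := by rw [hβ, map_inv₀, hsb]
  obtain ⟨T, hT⟩ : ∃ T : V →+ V, ∀ v, T v = β • τ v :=
    ⟨{ toFun := fun v => β • τ v
       map_zero' := by rw [map_zero, smul_zero]
       map_add' := fun a b => by rw [map_add, smul_add] }, fun v => rfl⟩
  have hTs : ∀ (l : L) (v : V), T (l • v) = D.s l • T v := fun l v => by
    rw [hT, hT, h.sl, smul_comm]
  have hTp : ∀ v : V, T^[p] v = v := fun v => by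
    rw [dec_iter h hsβ hT, h.pw, smul_smul, hm, hβ, inv_pow, ← zpow_natCast, ← zpow_mul,
      mul_comm m, inv_mul_cancel₀ (zpow_ne_zero _ D.bL_ne), one_smul]
  have hsp : ∀ x, (⇑D.s.toRingEquiv)^[p] x = x := fun x => by
    have h1 := D.s_pow x
    rw [D.std_pow] at h1
    exact h1
  obtain ⟨c, hc⟩ := ex_ne D.s.toRingEquiv p D.hp.pos (of_prime D.s.toRingEquiv p D.hp hsp
    (fun h => D.s_ne (by
      ext x
      exact congrArg (fun f : L ≃+* L => f x) h))) (fun i => φ (T^[i] u)) hφ
  obtain ⟨w, hw⟩ : ∃ w : V, w = ∑ i ∈ Finset.range p, (⇑D.s.toRingEquiv)^[i] c • T^[i] u :=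
    ⟨_, rfl⟩
  have hTw : T w = w := by
    have h1 : T w = ∑ i ∈ Finset.range p, (⇑D.s.toRingEquiv)^[i + 1] c • T^[i + 1] u := by
      rw [hw, map_sum]
      refine Finset.sum_congr rfl fun i _ => ?_
      rw [hTs, Function.iterate_succ_apply', Function.iterate_succ_apply']
      rfl
    have h2 := Finset.sum_range_succ' (fun i => (⇑D.s.toRingEquiv)^[i] c • T^[i] u) p
    have h3 := Finset.sum_range_succ (fun i => (⇑D.s.toRingEquiv)^[i] c • T^[i] u) p
    rw [h2, ← h1, ← hw, hsp, hTp] at h3
    simp only [Function.iterate_zero, id] at h3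
    exact add_right_cancel h3
  refine ⟨w, ?_, ?_⟩
  · rw [hT, hβ] at hTw
    calc τ w = D.bL ^ m • ((D.bL ^ m)⁻¹ • τ w) := by
          rw [smul_smul, mul_inv_cancel₀ hb, one_smul]
      _ = D.bL ^ m • w := by rw [hTw]
  · intro hwU
    have h1 : φ w = 0 := hφU hwU
    apply hc
    rw [← h1, hw, map_sum]
    refine Finset.sum_congr rfl fun i _ => ?_
    rw [map_smul, smul_eq_mul, mul_comm]

theorem exists_block (hD : D.Div) [Module.Finite L V] (h : D.IsTau n τ) (U : Submodule L V)
    (hU : ∀ v ∈ U, τ v ∈ U) (h0 : U ≠ ⊤) :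
    ∃ w : Fin (dm p n) → V, (∀ j, τ (w j) = ∑ k, D.Bm n k j • w k) ∧
      LinearIndependent L (fun j => U.mkQ (w j)) := by
  obtain ⟨v, hv⟩ : ∃ v : V, v ∉ U := by
    by_contra hcon
    push Not at hcon
    exact h0 (top_le_iff.1 fun v _ => hcon v)
  by_cases hn : (p : ℤ) ∣ n
  · have hd : dm p n = 1 := by rw [dm, if_pos hn]
    have hsub : Subsingleton (Fin (dm p n)) := by
      rw [hd]
      infer_instance
    obtain ⟨m, hm⟩ := hn
    have hp0 : (p : ℤ) ≠ 0 := by exact_mod_cast D.hp.ne_zero
    obtain ⟨w, hw, hwU⟩ := dec_fix h m hm U hv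
    refine ⟨fun _ => w, fun j => ?_, ?_⟩
    · rw [Fintype.sum_subsingleton _ j, hw]
      simp only [Bm, if_pos (Dvd.intro m hm.symm : (p : ℤ) ∣ n)]
      rw [hm, Int.mul_ediv_cancel_left _ hp0]
    · rw [Fintype.linearIndependent_iff]
      intro g hg i
      rw [Fintype.sum_subsingleton _ i] at hg
      refine (smul_eq_zero.1 hg).resolve_right fun h1 => hwU ?_
      rwa [Submodule.mkQ_apply, Submodule.Quotient.mk_eq_zero] at h1
  · have hd : dm p n = p := by rw [dm, if_neg hn]
    obtain ⟨w, hw⟩ : ∃ w : Fin (dm p n) → V, w = fun j => τ^[j.val] v := ⟨_, rfl⟩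
    have hτ : ∀ j, τ (w j) = ∑ k, D.Bm n k j • w k := by
      intro j
      have hj : j.val < p := lt_of_lt_of_eq j.isLt hd
      rcases Nat.lt_or_ge (j.val + 1) p with h1 | h1
      · rw [Finset.sum_eq_single (⟨j.val + 1, by omega⟩ : Fin (dm p n))]
        · rw [D.bm_one hn rfl, one_smul, hw]
          exact (Function.iterate_succ_apply' _ _ _).symm
        · intro k _ hk
          rw [D.bm_zero hn (fun h2 => hk (Fin.ext h2.symm)) (by omega), zero_smul]
        · intro hne
          exact absurd (Finset.mem_univ _) hne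
      · rw [Finset.sum_eq_single (⟨0, by omega⟩ : Fin (dm p n))]
        · rw [D.bm_last hn rfl (by omega), hw]
          have h2 : τ (τ^[j.val] v) = τ^[p] v := by
            rw [← Function.iterate_succ_apply' (f := τ)]
            congr 2
            omega
          change τ (τ^[j.val] v) = D.bL ^ n • v
          rw [h2, h.pw]
        · intro k _ hk
          rw [D.bm_zero hn (by
            intro h2
            have := k.isLt
            omega) (by
            rintro ⟨h2, -⟩
            exact hk (Fin.ext h2)), zero_smul]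
        · intro hne
          exact absurd (Finset.mem_univ _) hne
    refine ⟨w, hτ, ?_⟩
    obtain ⟨W, hW⟩ : ∃ W : Submodule L V, W = Submodule.span L (Set.range w) := ⟨_, rfl⟩
    have hWs : ∀ x ∈ W, τ x ∈ W := by
      intro x hx
      rw [hW] at hx ⊢
      induction hx using Submodule.span_induction with
      | mem x hx =>
        obtain ⟨j, rfl⟩ := hx
        rw [hτ]
        exact Submodule.sum_mem _ fun k _ => Submodule.smul_mem _ _
          (Submodule.subset_span ⟨k, rfl⟩)
      | zero =>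
        rw [map_zero]
        exact Submodule.zero_mem _
      | add x y _ _ hx hy =>
        rw [map_add]
        exact Submodule.add_mem _ hx hy
      | smul a x _ hx =>
        rw [h.sl]
        exact Submodule.smul_mem _ _ hx
    have hvW : v ∈ W := by
      rw [hW]
      refine Submodule.subset_span ⟨⟨0, by rw [hd]; exact D.hp.pos⟩, ?_⟩
      rw [hw]
      rfl
    have hUWs : ∀ x ∈ U ⊓ W, τ x ∈ U ⊓ W := fun x hx =>
      ⟨hU x hx.1, hWs x hx.2⟩
    have d1 := D.dvd_finrank hD hn (h.sub W hWs)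
    have d2 := D.dvd_finrank hD hn (h.sub (U ⊓ W) hUWs)
    have hlt : Module.finrank L (U ⊓ W : Submodule L V) < Module.finrank L W := by
      apply Submodule.finrank_lt_finrank_of_lt
      refine lt_of_le_of_ne inf_le_right fun he => hv ?_
      have h1 : v ∈ U ⊓ W := by
        rw [he]
        exact hvW
      exact h1.1
    have hle : Module.finrank L W ≤ p := by
      have h1 := finrank_range_le_card (R := L) w
      rw [Fintype.card_fin] at h1
      rw [hW]
      exact h1.trans hd.le
    have h3 : Module.finrank L W = p :=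
      le_antisymm hle (Nat.le_of_dvd (by omega) d1)
    have h4 : Module.finrank L (U ⊓ W : Submodule L V) = 0 :=
      Nat.eq_zero_of_dvd_of_lt d2 (by omega)
    have h5 : U ⊓ W = ⊥ := Submodule.finrank_eq_zero.1 h4
    have h6 : LinearIndependent L w := by
      rw [linearIndependent_iff_card_eq_finrank_span, Fintype.card_fin]
      refine hd.trans (h3.symm.trans ?_)
      rw [hW]
      rfl
    have h7 := h6.map (f := U.mkQ) (by
      rw [Submodule.ker_mkQ, ← hW, disjoint_iff, inf_comm]
      exact h5)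
    exact h7

end Dat

end Pool.Agent.MSX
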