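import Pool.Agent.MSX.Emb

/-! # The embeddings of the function field into fields of Laurent series, small coefficient fields

The same as `Emb.lean` with the residue field `kap P` instead of its algebraic closure:
`kE P = kap P (eta_0, .., eta_{p-1})`; `phiE P : Q p L → kE P ((t))`, `x_i ↦ (residue of x_i) + t * eta_i`.
-/

set_option autoImplicit false

namespace Pool.Agent.MSX

open MvPolynomial

universe u

variable {p : ℕ} {L : Type u} [Field L]

/-- The field of coefficients: rational functions in `p` variables over `kap P`. -/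
abbrev kE (P : HP p L) : Type u := FractionRing (MvPolynomial (Fin p) (kap P))

/-- The inclusion of `kap P` in `kE P`. -/
noncomputable def incE (P : HP p L) : kap P →+* kE P :=
  (algebraMap (MvPolynomial (Fin p) (kap P)) (kE P)).comp C

/-- The independent variables of `kE P`. -/
noncomputable def etaE (P : HP p L) (i : Fin p) : kE P :=
  algebraMap (MvPolynomial (Fin p) (kap P)) (kE P) (X i)

/-- The homomorphism `x_i ↦ (residue of x_i) + t * eta_i`. -/
noncomputable def psiE (P : HP p L) : S p L →+* PowerSeries (kE P) :=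
  eval₂Hom ((PowerSeries.C (R := kE P)).comp ((incE P).comp ((red P).comp C)))
    (fun i => PowerSeries.C (incE P (red P (X i))) + PowerSeries.X * PowerSeries.C (etaE P i))

variable (P : HP p L)

theorem psiE_C (c : L) : psiE P (C c) = PowerSeries.C (incE P (red P (C c))) := by
  simp [psiE]

theorem psiE_X (i : Fin p) : psiE P (X i) =
    PowerSeries.C (incE P (red P (X i))) + PowerSeries.X * PowerSeries.C (etaE P i) := by
  simp [psiE]

theorem psiE_const (f : S p L) : PowerSeries.constantCoeff (psiE P f) = incE P (red P f) := by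
  have h : (PowerSeries.constantCoeff (R := kE P)).comp (psiE P) = (incE P).comp (red P) := by
    refine MvPolynomial.ringHom_ext ?_ ?_
    · intro c
      rw [RingHom.comp_apply, RingHom.comp_apply, psiE_C, PowerSeries.constantCoeff_C]
    · intro i
      rw [RingHom.comp_apply, RingHom.comp_apply, psiE_X, map_add, map_mul,
        PowerSeries.constantCoeff_C, PowerSeries.constantCoeff_X, zero_mul, add_zero]
  exact congrArg (fun g : S p L →+* kE P => g f) h

theorem psiE_coeff1 (f : S p L) : PowerSeries.coeff 1 (psiE P f) =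
    ∑ i : Fin p, incE P (red P (pderiv i f)) * etaE P i := by
  induction f using MvPolynomial.induction_on with
  | C c =>
    rw [psiE_C, PowerSeries.coeff_C, if_neg one_ne_zero]
    symm
    refine Finset.sum_eq_zero fun i _ => ?_
    rw [pderiv_C, map_zero, map_zero, zero_mul]
  | add f g hf hg =>
    rw [map_add, map_add, hf, hg, ← Finset.sum_add_distrib]
    refine Finset.sum_congr rfl fun i _ => ?_
    rw [map_add, map_add, map_add, add_mul]
  | mul_X f j hf =>
    have h1 : PowerSeries.coeff 1 (psiE P (X j)) = etaE P j := by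
      rw [psiE_X, map_add, PowerSeries.coeff_C, if_neg one_ne_zero, zero_add,
        PowerSeries.coeff_one_mul]
      simp
    have h2 : ∀ i : Fin p, incE P (red P (pderiv i (f * X j))) * etaE P i =
        incE P (red P (pderiv i f)) * etaE P i * incE P (red P (X j)) +
          (if i = j then etaE P j * incE P (red P f) else 0) := by
      intro i
      by_cases hij : i = j
      · subst hij
        rw [if_pos rfl, pderiv_mul, pderiv_X_self, mul_one, map_add, map_add, map_mul, map_mul]
        ring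
      · rw [if_neg hij, pderiv_mul, pderiv_X_of_ne (Ne.symm hij), mul_zero, add_zero, map_mul,
          map_mul]
        ring
    rw [map_mul, PowerSeries.coeff_one_mul, hf, h1, psiE_const, psiE_const,
      Finset.sum_congr rfl fun i _ => h2 i, Finset.sum_add_distrib, Finset.sum_mul,
      Finset.sum_ite_eq' Finset.univ j, if_pos (Finset.mem_univ j)]

theorem etaE_lin (c : Fin p → kap P) (h : ∑ i : Fin p, incE P (c i) * etaE P i = 0) : c = 0 := by
  have h1 : algebraMap (MvPolynomial (Fin p) (kap P)) (kE P) (∑ i : Fin p, C (c i) * X i) = 0 := by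
    rw [map_sum, ← h]
    refine Finset.sum_congr rfl fun i _ => ?_
    rw [map_mul]
    rfl
  rw [map_eq_zero_iff _ (IsFractionRing.injective (MvPolynomial (Fin p) (kap P)) (kE P))] at h1
  funext j
  have h2 := congrArg (coeff (Finsupp.single j 1)) h1
  rw [coeff_sum, coeff_zero] at h2
  have h4 : ∑ i : Fin p, coeff (Finsupp.single j 1) (C (c i) * X i) = c j := by
    rw [Finset.sum_eq_single j]
    · rw [coeff_C_mul, coeff_X, if_pos rfl, mul_one]
    · intro i _ hij
      rw [coeff_C_mul, coeff_X, if_neg, mul_zero]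
      intro h3
      exact hij (Finsupp.single_left_injective one_ne_zero h3)
    · intro hn
      exact absurd (Finset.mem_univ j) hn
  rw [h4] at h2
  exact h2

theorem psiE_gen [PerfectField L] : ∃ u : PowerSeries (kE P), IsUnit u ∧
    psiE P P.gen = PowerSeries.X * u := by
  have h0 : PowerSeries.constantCoeff (psiE P P.gen) = 0 := by
    rw [psiE_const, (red_eq_zero P P.gen).2 dvd_rfl, map_zero]
  obtain ⟨u, hu⟩ := PowerSeries.X_dvd_iff.2 h0
  refine ⟨u, ?_, hu⟩
  rw [PowerSeries.isUnit_iff_constantCoeff, isUnit_iff_ne_zero]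
  intro hc
  have h1 := psiE_coeff1 P P.gen
  rw [hu, PowerSeries.coeff_one_mul, hc, mul_zero, PowerSeries.constantCoeff_X, mul_zero,
    add_zero] at h1
  have h2 := etaE_lin P (fun i => red P (pderiv i P.gen)) h1.symm
  obtain ⟨i, hi⟩ := exists_pd P
  apply hi
  rw [← red_eq_zero]
  have h3 := congrFun h2 i
  exact h3

theorem psiE_unit (f : S p L) (h : ¬ P.gen ∣ f) : IsUnit (psiE P f) := by
  rw [PowerSeries.isUnit_iff_constantCoeff, isUnit_iff_ne_zero, psiE_const]
  intro h0
  apply h
  rw [← red_eq_zero]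
  exact (map_eq_zero (incE P)).1 h0

theorem psiE_fac [PerfectField L] (f : S p L) (h : f ≠ 0) : ∃ (n : ℕ) (u : PowerSeries (kE P)),
    IsUnit u ∧ psiE P f = PowerSeries.X ^ n * u ∧ P.gen ^ n ∣ f ∧ ¬ P.gen ^ (n + 1) ∣ f := by
  obtain ⟨n, a, ha, rfl⟩ := WfDvdMonoid.max_power_factor h P.gen_irr
  obtain ⟨u, hu, hu2⟩ := psiE_gen P
  refine ⟨n, u ^ n * psiE P a, (hu.pow n).mul (psiE_unit P a ha), ?_, dvd_mul_right _ _, ?_⟩
  · rw [map_mul, map_pow, hu2, mul_pow, mul_assoc]
  · rintro ⟨k, hk⟩
    apply ha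
    refine ⟨k, ?_⟩
    have h1 : P.gen ^ n ≠ 0 := pow_ne_zero n P.gen_irr.ne_zero
    apply mul_left_cancel₀ h1
    rw [hk, pow_succ, mul_assoc]

theorem psiE_inj [PerfectField L] : Function.Injective (psiE P) := by
  rw [injective_iff_map_eq_zero]
  intro f hf
  by_contra h
  obtain ⟨n, u, hu, h1, -⟩ := psiE_fac P f h
  rw [hf] at h1
  exact mul_ne_zero (pow_ne_zero n PowerSeries.X_ne_zero) hu.ne_zero h1.symm

/-- The embedding of `Q p L` in the field of Laurent series. -/
noncomputable def phiE [PerfectField L] : Q p L →+* LaurentSeries (kE P) :=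
  IsFractionRing.lift (g := cs.comp (psiE P)) (by
    rw [RingHom.coe_comp]
    exact cs_inj.comp (psiE_inj P))

theorem phiE_alg [PerfectField L] (f : S p L) :
    phiE P (algebraMap (S p L) (Q p L) f) = cs (psiE P f) := by
  rw [phiE, IsFractionRing.lift_algebraMap]
  rfl

/-- valuation and angular component of `phiE x` -/
private theorem phiE_all [PerfectField L] : ∃ γ : kE P, γ ≠ 0 ∧ ∀ x : Q p L, x ≠ 0 →
    (lv (kE P)).v (phiE P x) = (pl P).v x ∧
      (lv (kE P)).ac (phiE P x) = γ ^ (pl P).v x * incE P ((pl P).ac x) := by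
  obtain ⟨u, hu, hu2⟩ := psiE_gen P
  have hu0 : PowerSeries.constantCoeff u ≠ 0 :=
    (PowerSeries.isUnit_iff_constantCoeff.1 hu).ne_zero
  have hcX : (cs (PowerSeries.X : PowerSeries (kE P))) ≠ 0 :=
    (map_ne_zero_iff cs cs_inj).2 PowerSeries.X_ne_zero
  have hcu : cs u ≠ 0 := (map_ne_zero_iff cs cs_inj).2 hu.ne_zero
  refine ⟨PowerSeries.constantCoeff u, hu0, ?_⟩
  have hS : ∀ f : S p L, f ≠ 0 →
      (lv (kE P)).v (cs (psiE P f)) = (pl P).v (algebraMap (S p L) (Q p L) f) ∧
      (lv (kE P)).ac (cs (psiE P f)) = PowerSeries.constantCoeff u ^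
        (pl P).v (algebraMap (S p L) (Q p L) f) *
          incE P ((pl P).ac (algebraMap (S p L) (Q p L) f)) := by
    intro f hf
    obtain ⟨n, a, ha, rfl⟩ := WfDvdMonoid.max_power_factor hf P.gen_irr
    obtain ⟨g1, g2⟩ := pl_gen P
    obtain ⟨a1, a2⟩ := pl_unit P a ha
    have hgen : algebraMap (S p L) (Q p L) P.gen ≠ 0 :=
      (map_ne_zero_iff _ Q_inj).2 P.gen_irr.ne_zero
    have ha0 : a ≠ 0 := by
      rintro rfl
      exact ha (dvd_zero _)
    have haQ : algebraMap (S p L) (Q p L) a ≠ 0 := (map_ne_zero_iff _ Q_inj).2 ha0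
    have hgn : algebraMap (S p L) (Q p L) P.gen ^ n ≠ 0 := pow_ne_zero n hgen
    have e1 : (pl P).v (algebraMap (S p L) (Q p L) (P.gen ^ n * a)) = n := by
      rw [map_mul, map_pow, (pl P).v_mul _ _ hgn haQ, (pl P).v_pow, g1, a1]
      ring
    have e2 : (pl P).ac (algebraMap (S p L) (Q p L) (P.gen ^ n * a)) = red P a := by
      have h3 := (pl P).ac_zpow (algebraMap (S p L) (Q p L) P.gen) n hgen
      rw [zpow_natCast, g2, one_zpow] at h3
      rw [map_mul, map_pow, (pl P).ac_mul _ _ hgn haQ, h3, a2, one_mul]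
    have hau := psiE_unit P a ha
    have hpa0 : PowerSeries.constantCoeff (psiE P a) ≠ 0 :=
      (PowerSeries.isUnit_iff_constantCoeff.1 hau).ne_zero
    have hcpa : cs (psiE P a) ≠ 0 := (map_ne_zero_iff cs cs_inj).2 hau.ne_zero
    obtain ⟨x1, x2⟩ := lv_X (k := kE P)
    obtain ⟨u1, u2⟩ := lv_unit u hu0
    obtain ⟨b1, b2⟩ := lv_unit (psiE P a) hpa0
    have hXn : cs (PowerSeries.X : PowerSeries (kE P)) ^ n ≠ 0 := pow_ne_zero n hcX
    have hun : cs u ^ n ≠ 0 := pow_ne_zero n hcu
    have e3 : cs (psiE P (P.gen ^ n * a)) =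
        cs (PowerSeries.X : PowerSeries (kE P)) ^ n * (cs u ^ n * cs (psiE P a)) := by
      rw [map_mul, map_pow, hu2, map_mul, map_pow, map_mul, mul_pow, mul_assoc]
    have y1 := (lv (kE P)).ac_zpow (cs (PowerSeries.X : PowerSeries (kE P))) n hcX
    rw [zpow_natCast, x2, one_zpow] at y1
    have y2 := (lv (kE P)).ac_zpow (cs u) n hcu
    rw [zpow_natCast, u2] at y2
    constructor
    · rw [e1, e3, (lv (kE P)).v_mul _ _ hXn (mul_ne_zero hun hcpa),
        (lv (kE P)).v_mul _ _ hun hcpa, (lv (kE P)).v_pow, (lv (kE P)).v_pow, x1, u1, b1]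
      ring
    · rw [e1, e2, e3, (lv (kE P)).ac_mul _ _ hXn (mul_ne_zero hun hcpa),
        (lv (kE P)).ac_mul _ _ hun hcpa, y1, y2, b2, psiE_const, one_mul]
  intro x hx
  obtain ⟨f, g, hg, rfl⟩ := Q_frac x
  have hf : f ≠ 0 := by
    rintro rfl
    rw [map_zero, zero_div] at hx
    exact hx rfl
  have hfQ : algebraMap (S p L) (Q p L) f ≠ 0 := (map_ne_zero_iff _ Q_inj).2 hf
  have hgQ : algebraMap (S p L) (Q p L) g ≠ 0 := (map_ne_zero_iff _ Q_inj).2 hg
  have hfc : cs (psiE P f) ≠ 0 := by
    rw [← phiE_alg]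
    exact (map_ne_zero (phiE P)).2 hfQ
  have hgc : cs (psiE P g) ≠ 0 := by
    rw [← phiE_alg]
    exact (map_ne_zero (phiE P)).2 hgQ
  obtain ⟨f1, f2⟩ := hS f hf
  obtain ⟨g1, g2⟩ := hS g hg
  rw [map_div₀, phiE_alg, phiE_alg]
  constructor
  · rw [(lv (kE P)).v_div hfc hgc, (pl P).v_div hfQ hgQ, f1, g1]
  · rw [(lv (kE P)).ac_div, (pl P).ac_div, (pl P).v_div hfQ hgQ, f2, g2, map_div₀,
      zpow_sub₀ hu0, mul_div_mul_comm]

theorem phiE_v [PerfectField L] (x : Q p L) (hx : x ≠ 0) : (lv (kE P)).v (phiE P x) = (pl P).v x := by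
  obtain ⟨γ, -, h⟩ := phiE_all P
  exact (h x hx).1

theorem phiE_ac [PerfectField L] (x : Q p L) (hx : x ≠ 0) (h : (pl P).v x = 0) :
    (lv (kE P)).ac (phiE P x) = incE P ((pl P).ac x) := by
  obtain ⟨γ, -, h1⟩ := phiE_all P
  rw [(h1 x hx).2, h, zpow_zero, one_mul]

theorem phiE_tame [PerfectField L] (w : MK.K2 (Q p L)) :
    ((lv (kE P)).tame (MK.K2.map (phiE P) w)).toMul = Units.map (incE P : kap P →* kE P) (tm P w).toMul :=
  (pl P).tame_congr (lv (kE P)) (phiE P) (incE P) (phiE_v P) (phiE_ac P) w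

end Pool.Agent.MSX
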