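import Pool.Agent.MSX.Laur

/-! # Coefficientwise maps of Laurent series

`lsm j : LaurentSeries k →+* LaurentSeries k'` for a homomorphism of fields `j : k →+* k'`; a homomorphism to
`LaurentSeries k'` whose values have all their coefficients in the image of `j` factors through `lsm j` (`exists_lift`).
-/

set_option autoImplicit false

namespace Pool.Agent.MSX

universe u

variable {k k' K : Type u} [Field k] [Field k'] [Field K] (j : k →+* k')

/-- Coefficientwise map of Laurent series. -/
noncomputable def lsm : LaurentSeries k →+* LaurentSeries k' where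
  toFun x := HahnSeries.map x j
  map_one' := HahnSeries.map_one j.toMonoidWithZeroHom
  map_mul' _ _ := HahnSeries.map_mul (j : k →ₙ+* k')
  map_zero' := by
    ext n
    exact map_zero j
  map_add' _ _ := HahnSeries.map_add (j : k →+ k')

theorem lsm_coeff (x : LaurentSeries k) (n : ℤ) : (lsm j x).coeff n = j (x.coeff n) := rfl

theorem lsm_inj : Function.Injective (lsm j) := (lsm j).injective

theorem lsm_C (c : k) : lsm j (HahnSeries.C c) = HahnSeries.C (j c) := by
  ext n
  rw [lsm_coeff, HahnSeries.C_apply, HahnSeries.C_apply, HahnSeries.coeff_single,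
    HahnSeries.coeff_single]
  split_ifs
  · rfl
  · exact map_zero j

theorem lsm_cs (f : PowerSeries k) : lsm j (cs f) = cs (PowerSeries.map j f) := by
  ext m
  rw [lsm_coeff]
  rcases lt_or_ge m 0 with hm | hm
  · rw [cs_coeff_neg _ hm, cs_coeff_neg _ hm, map_zero]
  · obtain ⟨n, rfl⟩ := Int.eq_ofNat_of_zero_le hm
    rw [cs_coeff, cs_coeff, PowerSeries.coeff_map]

theorem lsm_v (x : LaurentSeries k) : (lv k').v (lsm j x) = (lv k).v x := by
  by_cases hx : x = 0
  · rw [hx, map_zero, (lv k').v_zero, (lv k).v_zero]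
  · rw [lv_v, lv_v]
    refine LaurAux.ord_eq ?_ fun m hm => ?_
    · rw [lsm_coeff, map_ne_zero]
      exact fun h0 => hx (HahnSeries.coeff_order_eq_zero.1 h0)
    · rw [lsm_coeff, HahnSeries.coeff_eq_zero_of_lt_order hm, map_zero]

theorem lsm_ac (x : LaurentSeries k) : (lv k').ac (lsm j x) = j ((lv k).ac x) := by
  have h := lsm_v j x
  rw [lv_v, lv_v] at h
  rw [lv_ac, lv_ac, LaurAux.lc_of h, lsm_coeff, HahnSeries.leadingCoeff_eq]

theorem exists_lsm (x : LaurentSeries k') (h : ∀ n, ∃ c : k, j c = x.coeff n) :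
    ∃ y : LaurentSeries k, lsm j y = x := by
  choose c hc using h
  refine ⟨⟨c, x.isPWO_support.mono fun n hn => ?_⟩, ?_⟩
  · rw [HahnSeries.mem_support, ← hc n, map_ne_zero]
    exact hn
  · ext n
    rw [lsm_coeff]
    exact hc n

theorem exists_lift (f : K →+* LaurentSeries k') (h : ∀ x n, ∃ c : k, j c = (f x).coeff n) :
    ∃ g : K →+* LaurentSeries k, ∀ x, lsm j (g x) = f x := by
  have h1 : ∀ x, ∃ y : LaurentSeries k, lsm j y = f x := fun x => exists_lsm j (f x) (h x)
  choose g hg using h1
  refine ⟨{ toFun := g, map_one' := ?_, map_mul' := ?_, map_zero' := ?_, map_add' := ?_ }, hg⟩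
  · apply lsm_inj j
    rw [hg, map_one, map_one]
  · intro x y
    apply lsm_inj j
    rw [hg, map_mul, map_mul, hg, hg]
  · apply lsm_inj j
    rw [hg, map_zero, map_zero]
  · intro x y
    apply lsm_inj j
    rw [hg, map_add, map_add, hg, hg]

theorem lsm_tame (w : MK.K2 (LaurentSeries k)) :
    ((lv k').tame (MK.K2.map (lsm j) w)).toMul = Units.map (j : k →* k') ((lv k).tame w).toMul :=
  (lv k).tame_congr (lv k') (lsm j) j (fun x _ => lsm_v j x) (fun x _ _ => lsm_ac j x) w

end Pool.Agent.MSX
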