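import Pool.Agent.MSX.EmsA
import Pool.Agent.MSX.Lsm
import Pool.Agent.MSX.Kx

/-! # The semilinear automorphism on the small coefficient fields

`D.sE P : kE P →+* kE (D.sg P)` is `D.sgK P` on `kap P` and `eta_i ↦ eta_{i+1}`, `eta_{p-1} ↦ b eta_0`.  The embedding `phiE` is
equivariant (`sE_phiE`).

PROOFS.  `sE0` is the composite of the injective maps `MvPolynomial.map (D.sgK P)`, `lin` (a linear substitution with an
inverse, see `gis` in `Defs.lean`) and `algebraMap`.  `sE_phiE`: both sides are ring homomorphisms `Q p L → LaurentSeries`,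
by `Q_frac` it is enough to compare them on `S p L` (`phiE_alg`), so (`MvPolynomial.ringHom_ext`) on `C c` and `X i`:
`lsm_cs`, `psiE_C`, `psiE_X`, `PowerSeries.map_C`, `sE_incE`, `sgK_red`, `sig_C`, `sig_X_lt`, `sig_X_last`.
`castE_phiE`: `subst`.
-/

set_option autoImplicit false

namespace Pool.Agent.MSX

open MvPolynomial

universe u

section

variable {p : ℕ} {L : Type u} [Field L]

/-- Transport of coefficient fields along an equality of points. -/
noncomputable def castE {P P' : HP p L} (h : P = P') : kE P ≃+* kE P' := h ▸ RingEquiv.refl (kE P)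

theorem castE_self (P : HP p L) (x : kE P) : castE (Eq.refl P) x = x := rfl

theorem castE_incE {P P' : HP p L} (h : P = P') (x : kap P) :
    castE h (incE P x) = incE P' (castK h x) := by
  subst h
  rfl

theorem castE_phiE [PerfectField L] {P P' : HP p L} (h : P = P') (x : Q p L) :
    lsm (castE h : kE P →+* kE P') (phiE P x) = phiE P' x := by
  subst h
  ext n
  rfl

/-- The linear substitution `x_i ↦ x_{i+1}`, `x_{p-1} ↦ b x_0`. -/
noncomputable def lin {κ : Type u} [Field κ] (hp : 0 < p) (b : κ) :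
    MvPolynomial (Fin p) κ →+* MvPolynomial (Fin p) κ :=
  eval₂Hom C (fun i => if h : i.val + 1 < p then X ⟨i.val + 1, h⟩ else C b * X ⟨0, hp⟩)

theorem lin_inj {κ : Type u} [Field κ] (hp : 0 < p) {b : κ} (hb : b ≠ 0) :
    Function.Injective (lin hp b) := by
  obtain ⟨φ, hφ⟩ : ∃ φ : Fin p → MvPolynomial (Fin p) κ, φ = fun i => if i.val = 0 then
      C b⁻¹ * X ⟨p - 1, by omega⟩ else X ⟨i.val - 1, by omega⟩ := ⟨_, rfl⟩
  obtain ⟨g, hg⟩ : ∃ g : MvPolynomial (Fin p) κ →+* MvPolynomial (Fin p) κ,
      g = eval₂Hom C φ := ⟨_, rfl⟩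
  have hgC : ∀ c, g (C c) = C c := fun c => by rw [hg, eval₂Hom_C]
  have hgX : ∀ i, g (X i) = φ i := fun i => by rw [hg, eval₂Hom_X']
  have h : g.comp (lin hp b) = RingHom.id _ := by
    refine MvPolynomial.ringHom_ext ?_ ?_
    · intro c
      rw [RingHom.comp_apply, RingHom.id_apply, lin, eval₂Hom_C, hgC]
    · intro i
      rw [RingHom.comp_apply, RingHom.id_apply, lin, eval₂Hom_X']
      by_cases h0 : i.val + 1 < p
      · rw [dif_pos h0, hgX, hφ]
        simp
      · rw [dif_neg h0, map_mul, hgC, hgX, hφ]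
        simp only [if_true]
        rw [← mul_assoc, ← map_mul, mul_inv_cancel₀ hb, map_one, one_mul]
        congr 1
        exact Fin.ext (by simp; omega)
  intro x y hxy
  have h1 : g (lin hp b x) = g (lin hp b y) := by rw [hxy]
  have h2 : ∀ z, g (lin hp b z) = z := fun z => congrArg (fun f : _ →+* _ => f z) h
  rwa [h2, h2] at h1

end

variable {p : ℕ} {F L : Type u} [Field F] [Field L] [Algebra F L] (D : Dat p F L)

namespace Dat

/-- The semilinear map of the polynomial rings. -/
noncomputable def sE0 (P : HP p L) : MvPolynomial (Fin p) (kap P) →+* kE (D.sg P) :=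
  (algebraMap (MvPolynomial (Fin p) (kap (D.sg P))) (kE (D.sg P))).comp
    ((lin D.hp.pos (red (D.sg P) (C D.bL))).comp
      (MvPolynomial.map (D.sgK P : kap P →+* kap (D.sg P))))

theorem red_C_ne (P : HP p L) {c : L} (hc : c ≠ 0) : red P (C c) ≠ 0 :=
  (map_ne_zero_iff ((red P).comp C) ((red P).comp C).injective).2 hc

theorem sE0_inj (P : HP p L) : Function.Injective (D.sE0 P) := by
  unfold sE0
  rw [RingHom.coe_comp, RingHom.coe_comp]
  exact (IsFractionRing.injective (MvPolynomial (Fin p) (kap (D.sg P))) (kE (D.sg P))).comp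
    ((lin_inj D.hp.pos (red_C_ne _ D.bL_ne)).comp
      (MvPolynomial.map_injective _ (D.sgK P).injective))

/-- The semilinear map of the coefficient fields. -/
noncomputable def sE (P : HP p L) : kE P →+* kE (D.sg P) :=
  IsFractionRing.lift (D.sE0_inj P)

theorem sE_alg (P : HP p L) (f : MvPolynomial (Fin p) (kap P)) :
    D.sE P (algebraMap (MvPolynomial (Fin p) (kap P)) (kE P) f) = D.sE0 P f :=
  IsFractionRing.lift_algebraMap _ _

theorem sE_incE (P : HP p L) (x : kap P) : D.sE P (incE P x) = incE (D.sg P) (D.sgK P x) := by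
  unfold incE
  rw [RingHom.comp_apply, sE_alg, sE0, RingHom.comp_apply, RingHom.comp_apply, MvPolynomial.map_C,
    RingHom.comp_apply]
  simp [lin]

theorem sE_etaE_lt (P : HP p L) {i : Fin p} (h : i.val + 1 < p) :
    D.sE P (etaE P i) = etaE (D.sg P) ⟨i.val + 1, h⟩ := by
  unfold etaE
  rw [sE_alg, sE0, RingHom.comp_apply, RingHom.comp_apply, MvPolynomial.map_X]
  simp [lin, h]

theorem sE_etaE_last (P : HP p L) {i : Fin p} (h : ¬ i.val + 1 < p) :
    D.sE P (etaE P i) = incE (D.sg P) (red (D.sg P) (C D.bL)) * etaE (D.sg P) ⟨0, D.hp.pos⟩ := by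
  unfold etaE incE
  rw [sE_alg, sE0, RingHom.comp_apply, RingHom.comp_apply, MvPolynomial.map_X,
    RingHom.comp_apply]
  simp [lin, h]

theorem sE_psiE (P : HP p L) (f : S p L) :
    PowerSeries.map (D.sE P) (psiE P f) = psiE (D.sg P) (D.sig f) := by
  have h : (PowerSeries.map (D.sE P)).comp (psiE P) = (psiE (D.sg P)).comp D.sig := by
    refine MvPolynomial.ringHom_ext ?_ ?_
    · intro c
      rw [RingHom.comp_apply, RingHom.comp_apply, psiE_C, D.sig_C, psiE_C, PowerSeries.map_C,
        sE_incE, sgK_red, sig_C]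
    · intro i
      rw [RingHom.comp_apply, RingHom.comp_apply, psiE_X, map_add, map_mul, PowerSeries.map_C,
        PowerSeries.map_C, PowerSeries.map_X, sE_incE, sgK_red]
      by_cases h0 : i.val + 1 < p
      · rw [D.sig_X_lt h0, psiE_X, D.sE_etaE_lt P h0]
      · rw [D.sig_X_last h0, map_mul (psiE (D.sg P)), psiE_C, psiE_X, D.sE_etaE_last P h0, map_mul,
          map_mul, map_mul, map_mul]
        ring
  exact congrArg (fun g : S p L →+* PowerSeries (kE (D.sg P)) => g f) h

theorem sE_phiE [PerfectField L] (P : HP p L) (x : Q p L) :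
    lsm (D.sE P) (phiE P x) = phiE (D.sg P) (D.sigQ x) := by
  obtain ⟨f, g, -, rfl⟩ := Q_frac x
  rw [map_div₀, map_div₀, map_div₀, map_div₀, D.sigQ_alg, D.sigQ_alg, phiE_alg, phiE_alg, phiE_alg,
    phiE_alg, lsm_cs, lsm_cs, sE_psiE, sE_psiE]

end Dat

end Pool.Agent.MSX
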