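import Mathlib

/-! # Equivariant sections over a set with an action of a cyclic group of prime order

PROOF.  Choose a representative `r` in every orbit of `t` and a point `x r` over `r`, and put `z (t^i r) = T^i (x r)`; this does not
depend on `i`: if `t r = r` then `T (x r) = x r`, otherwise the period of `r` is `p`.
-/

set_option autoImplicit false

namespace Pool.Agent.MSX

universe u v

theorem iter_indep {B : Type u} {Y : Type v} {p : ℕ} (hp : p.Prime) (t : B → B) (T : Y → Y)
    (ht : ∀ b, t^[p] b = b) (r : B) (x : Y) (hx : T^[p] x = x) (hr : t r = r → T x = x) (i j : ℕ)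
    (hij : i ≤ j) (h : t^[i] r = t^[j] r) : T^[i] x = T^[j] x := by
  obtain ⟨k, rfl⟩ := Nat.exists_eq_add_of_le hij
  have hinj : Function.Injective t := by
    intro a b hab
    obtain ⟨m, hm⟩ : ∃ m, m + 1 = p := ⟨p - 1, by have := hp.pos; omega⟩
    have h1 : t^[m + 1] a = t^[m + 1] b := by
      rw [Function.iterate_succ_apply, Function.iterate_succ_apply, hab]
    rw [hm, ht, ht] at h1
    exact h1
  have h1 : t^[k] r = r := by
    rw [Function.iterate_add_apply] at h
    exact ((hinj.iterate i) h).symm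
  have h2 : T^[k] x = x := by
    by_cases h3 : t r = r
    · exact Function.iterate_fixed (hr h3) k
    · have h4 : Function.minimalPeriod t r ∣ p := Function.IsPeriodicPt.minimalPeriod_dvd (ht r)
      have h5 : Function.minimalPeriod t r = p := by
        rcases (Nat.dvd_prime hp).1 h4 with h6 | h6
        · exact absurd (Function.minimalPeriod_eq_one_iff_isFixedPt.1 h6) h3
        · exact h6
      have h6 : p ∣ k := by
        rw [← h5]
        exact Function.IsPeriodicPt.minimalPeriod_dvd h1
      obtain ⟨q, rfl⟩ := h6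
      rw [Function.iterate_mul]
      exact Function.iterate_fixed hx q
  rw [Function.iterate_add_apply, h2]

theorem eq_section {B : Type u} {Y : Type v} {p : ℕ} (hp : p.Prime) (t : B → B) (T : Y → Y)
    (π : Y → B) (X : Set Y) (hπ : ∀ y, π (T y) = t (π y)) (ht : ∀ b, t^[p] b = b)
    (hTX : ∀ y ∈ X, T y ∈ X) (hT : ∀ y ∈ X, T^[p] y = y)
    (hex : ∀ b, ∃ y ∈ X, π y = b ∧ (t b = b → T y = y)) :
    ∃ z : B → Y, (∀ b, z b ∈ X ∧ π (z b) = b) ∧ ∀ b, z (t b) = T (z b) := by
  classical
  choose x hxX hxπ hxT using hex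
  -- the orbit relation
  obtain ⟨R, hR⟩ : ∃ R : Setoid B, ∀ a b, R a b ↔ ∃ i : ℕ, t^[i] a = b := by
    refine ⟨⟨fun a b => ∃ i : ℕ, t^[i] a = b, ⟨fun a => ⟨0, rfl⟩, ?_, ?_⟩⟩, fun a b => Iff.rfl⟩
    · rintro a b ⟨i, rfl⟩
      refine ⟨(p - 1) * i, ?_⟩
      have hpos := hp.pos
      rw [← Function.iterate_add_apply]
      have e : (p - 1) * i + i = p * i := by
        obtain ⟨m, rfl⟩ : ∃ m, p = m + 1 := ⟨p - 1, by omega⟩
        rw [Nat.add_sub_cancel]
        ring
      rw [e, Function.iterate_mul]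
      exact Function.iterate_fixed (ht a) i
    · rintro a b c ⟨i, rfl⟩ ⟨j, rfl⟩
      exact ⟨j + i, Function.iterate_add_apply _ _ _ _⟩
  obtain ⟨rep, hrep1, hrep2⟩ : ∃ rep : B → B, (∀ b, ∃ i : ℕ, t^[i] (rep b) = b) ∧
      ∀ b, rep (t b) = rep b := by
    refine ⟨fun b => (Quotient.mk R b).out, fun b => ?_, fun b => ?_⟩
    · rw [← hR]
      exact Quotient.exact (Quotient.out_eq (Quotient.mk R b))
    · have h1 : Quotient.mk R b = Quotient.mk R (t b) := Quotient.sound ((hR b (t b)).2 ⟨1, rfl⟩)
      simp only [h1]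
  choose e he using hrep1
  have hind : ∀ (r : B) (i j : ℕ), t^[i] r = t^[j] r → T^[i] (x r) = T^[j] (x r) := by
    intro r i j h
    rcases le_total i j with hij | hij
    · exact iter_indep hp t T ht r (x r) (hT _ (hxX r)) (hxT r) i j hij h
    · exact (iter_indep hp t T ht r (x r) (hT _ (hxX r)) (hxT r) j i hij h.symm).symm
  have hiX : ∀ (y : Y) (i : ℕ), y ∈ X → T^[i] y ∈ X := by
    intro y i hy
    induction i with
    | zero => exact hy
    | succ i ih =>
      rw [Function.iterate_succ_apply']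
      exact hTX _ ih
  have hiπ : ∀ (y : Y) (i : ℕ), π (T^[i] y) = t^[i] (π y) := by
    intro y i
    induction i with
    | zero => rfl
    | succ i ih => rw [Function.iterate_succ_apply', Function.iterate_succ_apply', hπ, ih]
  refine ⟨fun b => T^[e b] (x (rep b)), fun b => ⟨hiX _ _ (hxX _), ?_⟩, fun b => ?_⟩
  · rw [hiπ, hxπ, he]
  · change T^[e (t b)] (x (rep (t b))) = T (T^[e b] (x (rep b)))
    rw [← Function.iterate_succ_apply' T, hrep2]
    apply hind
    rw [Function.iterate_succ_apply', he, ← hrep2 b, he]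

end Pool.Agent.MSX
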