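import Pool.Agent.MSX.Fam

/-! # The subfield of elements of degree zero of the residue field

PROOFS.  `k0 P` consists of the `red f / red g` with `f, g` homogeneous of the same degree, `P.gen` not dividing `g`.
The field axioms are proved as for `KL` in `Defs.lean` (products and sums of fractions with homogeneous entries;
the product of two elements not divisible by `P.gen` is not divisible by `P.gen`; if `red f = 0` then the
fraction is `0 = red 0 / red 1`).  `mem_k0_iff`: for a nonzero element `P.gen` does not divide `f`.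

`exists_var`: some variable is not divisible by `P.gen` (`1 < p`: if `P.gen` divides `X 0` and `X 1` it is
associated to both, since the variables are irreducible).

`k0_alg`: an element `u` of `kap P` which is algebraic over `k0 P` lies in `k0 P`.  Choose a variable `X i` not divisible by
`P.gen` and let `y = red (X i) ≠ 0`.  (1) The powers of `y` are linearly independent over `k0 P`: a relation
`∑ c_j y^j = 0` with `c_j` in `k0 P` gives after clearing denominators (a common homogeneous denominator `g`)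
`P.gen ∣ ∑ a_j X_i^j` with `a_j` homogeneous of the same degree, so `P.gen` divides every homogeneous component
`a_j X_i^j`, so every `a_j`, so `c_j = 0`.  (2) `kap P = (k0 P)(y)`: the residue of a homogeneous polynomial of degree `n`
is `(f / X_i^n) y^n`.  (3) `k0 P` is algebraically closed in the field of rational functions `(k0 P)(y)`
(`RatFunc`: an algebraic element is constant; Mathlib has results of this kind for `RatFunc` or
`IntermediateField` with a transcendental element; elementary: write `u = a(y) / b(y)` coprime, `b` monic; an equation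
`u^n + c_1 u^(n-1) + .. = 0` shows `b ∣ a^n`, so `b = 1`; the same for `u⁻¹` shows that `a` is constant).
-/

set_option autoImplicit false

namespace Pool.Agent.MSX

open MvPolynomial

universe u

variable {p : ℕ} {L : Type u} [Field L]

private theorem red_ne42 {P : HP p L} {f : S p L} (h : ¬ P.gen ∣ f) : red P f ≠ 0 :=
  fun h0 => h ((red_eq_zero P f).1 h0)

/-- The subfield of elements of degree zero. -/
def k0 (P : HP p L) : Subfield (kap P) where
  carrier := {x | ∃ (n : ℕ) (f g : S p L), f.IsHomogeneous n ∧ g.IsHomogeneous n ∧ ¬ P.gen ∣ g ∧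
    x = red P f / red P g}
  mul_mem' := by
    rintro _ _ ⟨n, f, g, hf, hg, h, rfl⟩ ⟨n', f', g', hf', hg', h', rfl⟩
    exact ⟨n + n', f * f', g * g', hf.mul hf', hg.mul hg', P.gen_prime.not_dvd_mul h h',
      by rw [map_mul, map_mul, div_mul_div_comm]⟩
  one_mem' := ⟨0, 1, 1, isHomogeneous_one _ _, isHomogeneous_one _ _, P.gen_irr.not_dvd_one,
    by rw [map_one, div_one]⟩
  add_mem' := by
    rintro _ _ ⟨n, f, g, hf, hg, h, rfl⟩ ⟨n', f', g', hf', hg', h', rfl⟩
    exact ⟨n + n', f * g' + g * f', g * g', (hf.mul hg').add (hg.mul hf'), hg.mul hg',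
      P.gen_prime.not_dvd_mul h h', by
        rw [map_add, map_mul, map_mul, map_mul, div_add_div _ _ (red_ne42 h) (red_ne42 h')]⟩
  zero_mem' := ⟨0, 0, 1, isHomogeneous_zero _ _ _, isHomogeneous_one _ _, P.gen_irr.not_dvd_one,
    by rw [map_zero, zero_div]⟩
  neg_mem' := by
    rintro _ ⟨n, f, g, hf, hg, h, rfl⟩
    exact ⟨n, -f, g, hf.neg, hg, h, by rw [map_neg, neg_div]⟩
  inv_mem' := by
    rintro _ ⟨n, f, g, hf, hg, h, rfl⟩
    by_cases hf0 : P.gen ∣ f
    · refine ⟨0, 0, 1, isHomogeneous_zero _ _ _, isHomogeneous_one _ _, P.gen_irr.not_dvd_one, ?_⟩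
      rw [(red_eq_zero P f).2 hf0, zero_div, inv_zero, map_zero, zero_div]
    · exact ⟨n, g, f, hg, hf, hf0, by rw [inv_div]⟩

theorem mem_k0_iff (P : HP p L) {x : kap P} (hx : x ≠ 0) : x ∈ k0 P ↔ Deg0 P x := by
  constructor
  · rintro ⟨n, f, g, hf, hg, h, rfl⟩
    refine ⟨n, f, g, hf, hg, fun hd => hx ?_, h, rfl⟩
    rw [(red_eq_zero P f).2 hd, zero_div]
  · rintro ⟨n, f, g, hf, hg, _, h, rfl⟩
    exact ⟨n, f, g, hf, hg, h, rfl⟩

theorem const_mem_k0 (P : HP p L) (c : L) : red P (C c) ∈ k0 P :=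
  ⟨0, C c, 1, isHomogeneous_C _ _, isHomogeneous_one _ _, P.gen_irr.not_dvd_one,
    by rw [map_one, div_one]⟩

theorem exists_var (h1 : 1 < p) (P : HP p L) : ∃ i : Fin p, ¬ P.gen ∣ X i := by
  by_contra hc
  push Not at hc
  have h2 := P.gen_irr.associated_of_dvd (X_prime (R := L) (i := (⟨0, by omega⟩ : Fin p))).irreducible
    (hc ⟨0, by omega⟩)
  have h3 : (X (⟨0, by omega⟩ : Fin p) : S p L) ∣ X (⟨1, h1⟩ : Fin p) :=
    h2.symm.dvd.trans (hc ⟨1, h1⟩)
  rw [X_dvd_X] at h3
  exact absurd (congrArg Fin.val h3) (by simp)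

theorem ratio_mem_k0 (P : HP p L) (i j : Fin p) (h : ¬ P.gen ∣ X i) :
    red P (X j) / red P (X i) ∈ k0 P :=
  ⟨1, X j, X i, isHomogeneous_X _ _, isHomogeneous_X _ _, h, rfl⟩

private theorem dvd_comp42 (P : HP p L) {f : S p L} (h : P.gen ∣ f) (n : ℕ) :
    P.gen ∣ homogeneousComponent n f := by
  have h1 : grT P.gen = Polynomial.C P.gen * Polynomial.X ^ P.deg := by
    ext1 m
    rw [grT_coeff, Polynomial.coeff_C_mul_X_pow, homogeneousComponent_of_mem
      ((mem_homogeneousSubmodule _ _).2 P.gen_hom)]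
  have h2 : Polynomial.C P.gen ∣ grT f := (Dvd.intro _ h1.symm).trans (map_dvd grT h)
  rw [Polynomial.C_dvd_iff_dvd_coeff] at h2
  have h3 := h2 n
  rwa [grT_coeff] at h3

private theorem common42 (P : HP p L) (c : ℕ → kap P) (hc : ∀ j, c j ∈ k0 P) (s : Finset ℕ) :
    ∃ (n : ℕ) (b : S p L), b.IsHomogeneous n ∧ ¬ P.gen ∣ b ∧ ∀ j ∈ s, ∃ a : S p L,
      a.IsHomogeneous n ∧ c j = red P a / red P b := by
  induction s using Finset.induction_on with
  | empty =>
    exact ⟨0, 1, isHomogeneous_one _ _, P.gen_irr.not_dvd_one, fun j hj => absurd hj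
      (Finset.notMem_empty j)⟩
  | insert k s hk ih =>
    obtain ⟨n, b, hb, hb', h⟩ := ih
    obtain ⟨m, f, g, hf, hg, hg', e⟩ := hc k
    refine ⟨n + m, b * g, hb.mul hg, P.gen_prime.not_dvd_mul hb' hg', fun j hj => ?_⟩
    rcases Finset.mem_insert.1 hj with rfl | hj'
    · refine ⟨b * f, hb.mul hf, ?_⟩
      rw [e, map_mul, map_mul, mul_div_mul_left _ _ (red_ne42 hb')]
    · obtain ⟨a, ha, e'⟩ := h j hj'
      refine ⟨a * g, ha.mul hg, ?_⟩
      rw [e', map_mul, map_mul, mul_div_mul_right _ _ (red_ne42 hg')]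

private theorem indep42 (P : HP p L) (i : Fin p) (hi : ¬ P.gen ∣ X i) (c : ℕ → kap P)
    (hc : ∀ j, c j ∈ k0 P) (s : Finset ℕ) (h0 : ∑ j ∈ s, c j * red P (X i) ^ j = 0) :
    ∀ j ∈ s, c j = 0 := by
  obtain ⟨n, b, hb, hb', h⟩ := common42 P c hc s
  choose! a ha using h
  have h1 : red P (∑ j ∈ s, a j * X i ^ j) = 0 := by
    have h2 : red P b * ∑ j ∈ s, c j * red P (X i) ^ j = 0 := by rw [h0, mul_zero]
    rw [Finset.mul_sum] at h2
    rw [map_sum, ← h2]
    refine Finset.sum_congr rfl fun j hj => ?_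
    rw [(ha j hj).2, map_mul, map_pow, ← mul_assoc, mul_div_cancel₀ _ (red_ne42 hb')]
  rw [red_eq_zero] at h1
  intro m hm
  have h3 := dvd_comp42 P h1 (n + m)
  have h4 : homogeneousComponent (n + m) (∑ j ∈ s, a j * X i ^ j) = a m * X i ^ m := by
    rw [map_sum, Finset.sum_eq_single_of_mem m hm]
    · rw [homogeneousComponent_of_mem ((mem_homogeneousSubmodule _ _).2
        ((ha m hm).1.mul (isHomogeneous_X_pow i m))), if_pos rfl]
    · intro j hj hne
      rw [homogeneousComponent_of_mem ((mem_homogeneousSubmodule _ _).2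
        ((ha j hj).1.mul (isHomogeneous_X_pow i j))), if_neg (by omega)]
  rw [h4] at h3
  have h5 : P.gen ∣ a m := by
    rcases P.gen_prime.dvd_or_dvd h3 with h | h
    · exact h
    · exact absurd (P.gen_prime.dvd_of_dvd_pow h) hi
  rw [(ha m hm).2, (red_eq_zero P _).2 h5, zero_div]

/-- the map from the polynomials over `k0 P` -/
private noncomputable def phi42 (P : HP p L) (i : Fin p) : Polynomial (k0 P) →+* kap P :=
  Polynomial.eval₂RingHom (k0 P).subtype (red P (X i))

private theorem phi42_inj (P : HP p L) (i : Fin p) (hi : ¬ P.gen ∣ X i) :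
    Function.Injective (phi42 P i) := by
  rw [injective_iff_map_eq_zero]
  intro g hg
  rw [phi42, Polynomial.coe_eval₂RingHom, Polynomial.eval₂_eq_sum, Polynomial.sum_def] at hg
  have h := indep42 P i hi (fun j => (g.coeff j : kap P)) (fun j => (g.coeff j).2) g.support hg
  ext1 j
  rw [Polynomial.coeff_zero]
  by_cases hj : j ∈ g.support
  · exact Subtype.ext (h j hj)
  · rwa [Polynomial.mem_support_iff, not_not] at hj

private theorem phi42_red (P : HP p L) (i : Fin p) (hi : ¬ P.gen ∣ X i) (f : S p L) :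
    ∃ g : Polynomial (k0 P), red P f = phi42 P i g := by
  have h : ∀ n : ℕ, red P (homogeneousComponent n f) / red P (X i ^ n) ∈ k0 P := fun n =>
    ⟨n, _, _, homogeneousComponent_isHomogeneous n f, isHomogeneous_X_pow i n,
      fun h => hi (P.gen_prime.dvd_of_dvd_pow h), rfl⟩
  refine ⟨∑ n ∈ Finset.range (f.totalDegree + 1), Polynomial.C ⟨_, h n⟩ * Polynomial.X ^ n, ?_⟩
  conv_lhs => rw [← sum_homogeneousComponent f]
  rw [map_sum, map_sum]
  refine Finset.sum_congr rfl fun n _ => ?_
  rw [phi42, Polynomial.coe_eval₂RingHom, Polynomial.eval₂_mul, Polynomial.eval₂_C,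
    Polynomial.eval₂_pow, Polynomial.eval₂_X, ← map_pow]
  exact (div_mul_cancel₀ _ (red_ne42 (fun h => hi (P.gen_prime.dvd_of_dvd_pow h)))).symm

theorem k0_alg (h1 : 1 < p) (P : HP p L) (u : kap P) (f : Polynomial (k0 P)) (hf : f ≠ 0)
    (hu : Polynomial.eval₂ (k0 P).subtype u f = 0) : u ∈ k0 P := by
  obtain ⟨i, hi⟩ := exists_var h1 P
  letI : Algebra (Polynomial (k0 P)) (kap P) := (phi42 P i).toAlgebra
  have hal : ∀ g : Polynomial (k0 P), algebraMap (Polynomial (k0 P)) (kap P) g = phi42 P i g :=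
    fun g => rfl
  haveI : FaithfulSMul (Polynomial (k0 P)) (kap P) :=
    (faithfulSMul_iff_algebraMap_injective _ _).2 (phi42_inj P i hi)
  haveI : IsFractionRing (Polynomial (k0 P)) (kap P) := by
    refine IsFractionRing.of_field (Polynomial (k0 P)) (kap P) fun z => ?_
    obtain ⟨a, b, hb, e⟩ := IsFractionRing.div_surjective (A := S p L ⧸ P.I) z
    obtain ⟨a', rfl⟩ := Ideal.Quotient.mk_surjective a
    obtain ⟨b', rfl⟩ := Ideal.Quotient.mk_surjective b
    obtain ⟨g, hg⟩ := phi42_red P i hi a'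
    obtain ⟨g', hg'⟩ := phi42_red P i hi b'
    refine ⟨g, g', ?_⟩
    rw [hal, hal, ← hg, ← hg', ← e]
    rfl
  have hint : IsIntegral (Polynomial (k0 P)) u := by
    refine ⟨(f * Polynomial.C f.leadingCoeff⁻¹).map Polynomial.C,
      (Polynomial.monic_mul_leadingCoeff_inv hf).map _, ?_⟩
    rw [Polynomial.eval₂_map]
    have e : (algebraMap (Polynomial (k0 P)) (kap P)).comp Polynomial.C = (k0 P).subtype := by
      refine RingHom.ext fun x => ?_
      rw [RingHom.comp_apply, hal, phi42, Polynomial.coe_eval₂RingHom, Polynomial.eval₂_C]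
    rw [e, Polynomial.eval₂_mul, hu, zero_mul]
  obtain ⟨g, hg⟩ := IsIntegrallyClosed.isIntegral_iff.1 hint
  rw [hal] at hg
  have h2 : phi42 P i (f.comp g) = 0 := by
    rw [← hu, ← hg, Polynomial.comp, Polynomial.hom_eval₂]
    congr 1
    refine RingHom.ext fun x => ?_
    rw [RingHom.comp_apply, phi42, Polynomial.coe_eval₂RingHom, Polynomial.eval₂_C]
  have h3 : f.comp g = 0 := phi42_inj P i hi (by rw [h2, map_zero])
  rcases Polynomial.comp_eq_zero_iff.1 h3 with h4 | ⟨_, h4⟩
  · exact absurd h4 hf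
  · rw [← hg, h4, phi42, Polynomial.coe_eval₂RingHom, Polynomial.eval₂_C]
    exact (g.coeff 0).2

end Pool.Agent.MSX
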