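import Pool.Agent.MSX.Ml

/-! # The linear form of a cyclic datum as a matrix

`m.lf Φ = ∑ j, X_j • ml (c_j)` over the fraction field `Q p L`.

PROOFS.

* `lf_comm`: `ml_comm`.

* `lf_sig`.  `(lf).map sigQ = ∑ j, sigQ (X_j) • ((ml (c j)).map s).map cQ` (`sigQ (cQ l) = cQ (s l)`: `sigQ_alg`, `sig_C`), and `Bp n * (ml (c j)).map s = ml (s' (c j)) * Bp n` (`ml_bp`).
  For `j + 1 < p`: `sigQ X_j = X_{j+1}` and `s' (c j) = z * c (j+1)` (`c_succ`); for `j = p - 1`: `sigQ X_j = cQ b * X_0` and `b * s' (c j) = z * c 0` (`c_last`; `ml` is `L`-linear, so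
  `b • ml y = ml (algebraMap b * y)`).  So the left side is `∑ k, X_k • (ml (z * c k)).map cQ * (Bp n).map cQ` (sum over the shifted index), which is the right side.

* `lf_spec`: `((ml y).map cQ).map f = ((ml y).map (algebraMap L (AlgebraicClosure L))).map a` by the compatibility, so by `xm_ml` (mapped by `a`) each term gives
  `f (X_j) • diagonal (a (eps i (c j))) * xm.map a`; sum over `j`; `m.T.l i j = m.eps i (m.c j)`.

* `lf_det`: let `Ω = AlgebraicClosure (Q p L)`, `f = algebraMap`, `a` an extension to `AlgebraicClosure L` of `f ∘ cQ` (`IsAlgClosed.lift` for the algebra structure given by `f ∘ cQ`).  `lf_spec` and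
  determinants: `det (xm.map a) * f (det lf) = (∏ i, ∑ j, a (l i j) * f (X j)) * det (xm.map a)`, `det (xm.map a) = a (det xm) ≠ 0` (`xm_det`), and all factors are nonzero by `TD.nrm_eval`
  (for `f ∘ algebraMap (S p L) (Q p L)`, which is injective) and `TD.nrm_ne`.

* `lf_kl`: `X_j / X_k` is in `KL`, constants are in `KL` (degree `0`), `KL` is a subfield.
-/

set_option autoImplicit false

namespace Pool.Agent.MSX

open MvPolynomial

universe u

private theorem lf_shift {q : ℕ} (hq : 0 < q) {M : Type*} [AddCommMonoid M] (g h : Fin q → M)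
    (h1 : ∀ (j : Fin q) (hj : j.val + 1 < q), g j = h ⟨j.val + 1, hj⟩)
    (h2 : ∀ j : Fin q, ¬ j.val + 1 < q → g j = h ⟨0, hq⟩) : ∑ j, g j = ∑ j, h j := by
  obtain ⟨m, rfl⟩ : ∃ m, q = m + 1 := ⟨q - 1, by omega⟩
  rw [Fin.sum_univ_castSucc, Fin.sum_univ_succ, add_comm]
  congr 1
  · exact h2 (Fin.last m) (by simp)
  · refine Finset.sum_congr rfl fun j _ => ?_
    exact h1 j.castSucc (by simp)

private theorem lf_ext {K : Type u} [Field K] {Ω : Type u} [Field Ω] [IsAlgClosed Ω] (g : K →+* Ω) :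
    ∃ a : AlgebraicClosure K →+* Ω, ∀ c : K, a (algebraMap K (AlgebraicClosure K) c) = g c := by
  letI : Algebra K Ω := g.toAlgebra
  have a : AlgebraicClosure K →ₐ[K] Ω := IsAlgClosed.lift
  exact ⟨a, fun c => a.commutes c⟩

variable {p : ℕ} {F L : Type u} [Field F] [Field L] [Algebra F L]

private theorem lf_sigc (D : Dat p F L) (l : L) : D.sigQ (Dat.cQ l) = Dat.cQ (D.s l) := by
  show D.sigQ (algebraMap (S p L) (Q p L) (C l)) = algebraMap (S p L) (Q p L) (C (D.s l))
  rw [D.sigQ_alg, D.sig_C]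

private theorem lf_cm (A : Matrix (Fin p) (Fin p) L) (b : L) :
    (b • A).map (Dat.cQ (p := p) (L := L)) = Dat.cQ (p := p) b • A.map (Dat.cQ (p := p) (L := L)) := by
  ext i j
  rw [Matrix.map_apply, Matrix.smul_apply, Matrix.smul_apply, Matrix.map_apply, smul_eq_mul,
    smul_eq_mul, map_mul]

namespace MD

variable {D : Dat p F L} {M : Type u} [Field M] [Algebra L M] (m : MD D M) (Φ : M ≃ₗ[L] (Fin p → L))

/-- The matrix of the multiplication by the linear form `∑ j, c_j X_j`. -/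
noncomputable def lf : Matrix (Fin p) (Fin p) (Q p L) :=
  ∑ j : Fin p, algebraMap (S p L) (Q p L) (X j) • (ml Φ (m.c j)).map (Dat.cQ (p := p) (L := L))

theorem lf_comm (y : M) : (ml Φ y).map Dat.cQ * m.lf Φ = m.lf Φ * (ml Φ y).map Dat.cQ := by
  unfold lf
  rw [Finset.mul_sum, Finset.sum_mul]
  refine Finset.sum_congr rfl fun j _ => ?_
  rw [Matrix.mul_smul, Matrix.smul_mul, ← Matrix.map_mul, ← Matrix.map_mul, ml_comm]

theorem lf_sig {n : ℤ} (hΦ : ∀ x, Φ (m.z ^ n * m.s' x) = D.tau (D.Bp n) (Φ x)) :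
    (D.Bp n).map Dat.cQ * (m.lf Φ).map D.sigQ =
      (ml Φ m.z).map Dat.cQ * m.lf Φ * (D.Bp n).map Dat.cQ := by
  have h1 : (m.lf Φ).map D.sigQ = ∑ j : Fin p, algebraMap (S p L) (Q p L) (D.sig (X j)) •
      ((ml Φ (m.c j)).map D.s).map (Dat.cQ (p := p) (L := L)) := by
    ext i k
    unfold lf
    rw [Matrix.map_apply, Matrix.sum_apply, Matrix.sum_apply, map_sum]
    refine Finset.sum_congr rfl fun j _ => ?_
    rw [Matrix.smul_apply, Matrix.smul_apply, smul_eq_mul, smul_eq_mul, map_mul, D.sigQ_alg,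
      Matrix.map_apply, Matrix.map_apply, Matrix.map_apply, lf_sigc]
  have h2 : (D.Bp n).map (Dat.cQ (p := p) (L := L)) * (m.lf Φ).map D.sigQ =
      (∑ j : Fin p, algebraMap (S p L) (Q p L) (D.sig (X j)) •
        (ml Φ (m.s' (m.c j))).map (Dat.cQ (p := p) (L := L))) *
        (D.Bp n).map (Dat.cQ (p := p) (L := L)) := by
    rw [h1, Finset.mul_sum, Finset.sum_mul]
    refine Finset.sum_congr rfl fun j _ => ?_
    rw [Matrix.mul_smul, Matrix.smul_mul, ← Matrix.map_mul, ← Matrix.map_mul, m.ml_bp Φ hΦ]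
  have h3 : ∑ j : Fin p, algebraMap (S p L) (Q p L) (D.sig (X j)) •
      (ml Φ (m.s' (m.c j))).map (Dat.cQ (p := p) (L := L)) =
      ∑ k : Fin p, algebraMap (S p L) (Q p L) (X k) •
        (ml Φ (m.z * m.c k)).map (Dat.cQ (p := p) (L := L)) := by
    refine lf_shift D.hp.pos _ _ ?_ ?_
    · intro j hj
      rw [D.sig_X_lt hj, m.c_succ j hj]
    · intro j hj
      have hj' : j.val + 1 = p := by
        have := j.isLt
        omega
      rw [D.sig_X_last hj, m.c_last j hj', ← Algebra.smul_def, map_smul, lf_cm, map_mul, smul_smul,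
        mul_comm (algebraMap (S p L) (Q p L) (C D.bL))]
      rfl
  have h4 : ∑ k : Fin p, algebraMap (S p L) (Q p L) (X k) •
        (ml Φ (m.z * m.c k)).map (Dat.cQ (p := p) (L := L)) =
      (ml Φ m.z).map (Dat.cQ (p := p) (L := L)) * m.lf Φ := by
    unfold lf
    rw [Finset.mul_sum]
    refine Finset.sum_congr rfl fun k _ => ?_
    rw [Matrix.mul_smul, ← Matrix.map_mul, map_mul]
  rw [h2, h3, h4]

theorem lf_spec [PerfectField L] (Ω : Type u) [Field Ω] (a : AlgebraicClosure L →+* Ω) (f : Q p L →+* Ω)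
    (ha : ∀ c : L, a (algebraMap L (AlgebraicClosure L) c) = f (Dat.cQ c)) :
    (m.xm Φ).map a * (m.lf Φ).map f = Matrix.diagonal (fun i =>
      ∑ j, a (m.T.l i j) * f (algebraMap (S p L) (Q p L) (X j))) * (m.xm Φ).map a := by
  ext i k
  rw [Matrix.diagonal_mul, Matrix.mul_apply, Finset.sum_mul]
  have h1 : ∀ l : Fin p, (m.xm Φ).map a i l * (m.lf Φ).map f l k =
      ∑ j : Fin p, f (algebraMap (S p L) (Q p L) (X j)) *
        a (m.xm Φ i l * (ml Φ (m.c j)).map (algebraMap L (AlgebraicClosure L)) l k) := by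
    intro l
    rw [Matrix.map_apply, Matrix.map_apply]
    unfold lf
    rw [Matrix.sum_apply, map_sum, Finset.mul_sum]
    refine Finset.sum_congr rfl fun j _ => ?_
    rw [Matrix.smul_apply, smul_eq_mul, Matrix.map_apply, Matrix.map_apply, map_mul, map_mul, ha]
    ring
  rw [Finset.sum_congr rfl fun l _ => h1 l, Finset.sum_comm]
  refine Finset.sum_congr rfl fun j _ => ?_
  have h2 := congrFun (congrFun (m.xm_ml Φ (m.c j)) i) k
  rw [Matrix.mul_apply, Matrix.diagonal_mul] at h2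
  rw [← Finset.mul_sum, ← map_sum, h2, map_mul]
  show f (algebraMap (S p L) (Q p L) (X j)) * (a (m.eps i (m.c j)) * a (m.xm Φ i k)) =
    a (m.eps i (m.c j)) * f (algebraMap (S p L) (Q p L) (X j)) * a (m.xm Φ i k)
  ring

theorem lf_det [PerfectField L] : (m.lf Φ).det ≠ 0 := by
  intro h0
  obtain ⟨a, ha⟩ := lf_ext ((algebraMap (Q p L) (AlgebraicClosure (Q p L))).comp
    (Dat.cQ (p := p) (L := L)))
  have ha' : ∀ c : L, a (algebraMap L (AlgebraicClosure L) c) =
      algebraMap (Q p L) (AlgebraicClosure (Q p L)) (Dat.cQ c) := ha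
  have h1 := congrArg Matrix.det (m.lf_spec Φ (AlgebraicClosure (Q p L)) a
    (algebraMap (Q p L) (AlgebraicClosure (Q p L))) ha')
  rw [Matrix.det_mul, Matrix.det_mul, Matrix.det_diagonal] at h1
  have h2 : ((m.lf Φ).map (algebraMap (Q p L) (AlgebraicClosure (Q p L)))).det = 0 := by
    have := (algebraMap (Q p L) (AlgebraicClosure (Q p L))).map_det (m.lf Φ)
    rw [h0, map_zero] at this
    exact this.symm
  have h3 : ((m.xm Φ).map a).det ≠ 0 := by
    have := a.map_det (m.xm Φ)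
    intro h
    have h' : a (m.xm Φ).det = 0 := by
      rw [this]
      exact h
    exact m.xm_det Φ ((map_eq_zero a).1 h')
  rw [h2, mul_zero] at h1
  have h4 := (mul_eq_zero.1 h1.symm).resolve_right h3
  obtain ⟨i, -, hi⟩ := Finset.prod_eq_zero_iff.1 h4
  have h5 := m.T.nrm_eval ((algebraMap (Q p L) (AlgebraicClosure (Q p L))).comp
    (algebraMap (S p L) (Q p L))) a (by
      intro c
      rw [ha']
      rfl)
  have h6 := h5.2 ⟨i, hi⟩
  rw [RingHom.comp_apply, map_eq_zero] at h6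
  exact m.T.nrm_ne (Q_inj (by rw [h6, map_zero]))

theorem lf_kl (i j k : Fin p) : (algebraMap (S p L) (Q p L) (X k))⁻¹ * m.lf Φ i j ∈ KL p L := by
  unfold lf
  rw [Matrix.sum_apply, Finset.mul_sum]
  refine sum_mem fun l _ => ?_
  rw [Matrix.smul_apply, smul_eq_mul, Matrix.map_apply, ← mul_assoc]
  refine mul_mem ?_ ?_
  · refine ⟨1, X l, X k, isHomogeneous_X L l, isHomogeneous_X L k, X_ne_zero k, ?_⟩
    rw [div_eq_mul_inv, mul_comm]
  · refine ⟨0, C (ml Φ (m.c l) i j), 1, isHomogeneous_C _ _, isHomogeneous_one _ _, one_ne_zero, ?_⟩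
    rw [map_one, div_one]
    rfl

end MD

end Pool.Agent.MSX
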