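import Pool.Agent.MSX.Emb

/-! # Restriction to the generic line

`Ml = L(xi_0, .., xi_{p-1}, eta_0, .., eta_{p-1})`, `Mb` an algebraic closure; `ln : S → Mb[t]`,
`x_i ↦ xi_i + t * eta_i`, `ev α : S → Mb`, `x_i ↦ xi_i + α * eta_i`.

PROOFS.  Let `R = L[xi, eta]` (`MvPolynomial (Fin p ⊕ Fin p) L`) and `lnR : S → R[t]`, `x_i ↦ xi_i + t * eta_i`.

* `lnR_prime`: for `P` in `HP`, `lnR P.gen` is prime in `R[t]`: the `R`-algebra ... the ring automorphism of
  `R[t]` with `xi_i ↦ xi_i + t eta_i`, `eta_i ↦ eta_i`, `t ↦ t` (inverse `xi_i ↦ xi_i - t eta_i`) maps the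
  image of `P.gen` under `x_i ↦ xi_i` to `lnR P.gen`, and the image of a prime element of `S` in
  `R = S[eta]` (`MvPolynomial.sumRingEquiv`, `MvPolynomial.prime_C_iff` ) and in `R[t]` (`Polynomial.prime_C_iff`) is
  prime.  (`MvPolynomial.prime_rename_iff` gives directly that `rename Sum.inl P.gen` is prime.)

* `ln_lead`: for `f ≠ 0` homogeneous of degree `n`, `lnR f` has degree `n` in `t` and leading coefficient
  `f(eta)` (check for monomials: the coefficient of `t^n` of `∏ (xi_i + t eta_i)^{m_i}` is `∏ eta_i^{m_i}`, and the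
  degree is at most `n`).

* `ev_ker`: Suppose `ev α P.gen = 0` and `ev α f = 0`.  `lnR P.gen` is prime in `R[t]` of positive degree
  (`ln_lead`, `gen_deg_pos`), so it is primitive and irreducible over `Frac R = Ml` (Gauss:
  `Polynomial.IsPrimitive.irreducible_iff_irreducible_map_fraction_map`; an irreducible polynomial of positive degree
  is primitive).  `α` is a common root of the images of `lnR P.gen` and `lnR f`, so the first divides the
  second over `Ml` (`minpoly.dvd`), hence over `R` (`Polynomial.IsPrimitive.dvd_iff_fraction_map_dvd_fraction_map`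
  or clear denominators: `c * lnR f = lnR P.gen * h` with `c ∈ R` nonzero, and the prime element
  `lnR P.gen` does not divide the constant `c` by degrees).  Put `t = 0`, `eta = 0`: `P.gen ∣ f`.

* `ev_simple` (`L` perfect): the polynomial `lnR P.gen` is irreducible over `Ml` and its derivative with
  respect to `t` is not zero, its constant coefficient being `∑ i, eta_i * (∂_i P.gen)(xi) ≠ 0`
  (`exists_pd`; this is linear in the `eta_i` with coefficients in `L[xi]`).  So it is separable
  (`Irreducible.separable`, `Polynomial.separable_iff_derivative_ne_zero`) and its roots are simple.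

* `ev_hom`: for `f ≠ 0` homogeneous with `ev α f = 0` there is `P` with `ev α P.gen = 0` (`factor`).
-/

set_option autoImplicit false

namespace Pool.Agent.MSX

open MvPolynomial

universe u

section

variable (p : ℕ) (L : Type u) [Field L]

/-- The field of rational functions in `2 p` variables `xi_i`, `eta_i`. -/
abbrev Ml : Type u := FractionRing (MvPolynomial (Fin p ⊕ Fin p) L)

/-- An algebraic closure of `Ml`. -/
abbrev Mb : Type u := AlgebraicClosure (Ml p L)

/-- `L[xi, eta] → Mb`. -/
noncomputable def rMb : MvPolynomial (Fin p ⊕ Fin p) L →+* Mb p L :=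
  (algebraMap (Ml p L) (Mb p L)).comp (algebraMap (MvPolynomial (Fin p ⊕ Fin p) L) (Ml p L))

/-- The constants. -/
noncomputable def cMb : L →+* Mb p L := (rMb p L).comp C

end

variable {p : ℕ} {L : Type u} [Field L]

/-- `x_i ↦ xi_i + t * eta_i` over `L[xi, eta]`. -/
noncomputable def lnR : S p L →+* Polynomial (MvPolynomial (Fin p ⊕ Fin p) L) :=
  eval₂Hom ((Polynomial.C (R := MvPolynomial (Fin p ⊕ Fin p) L)).comp C)
    (fun i => Polynomial.C (X (Sum.inl i)) + Polynomial.X * Polynomial.C (X (Sum.inr i)))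

/-- Restriction to the generic line. -/
noncomputable def ln : S p L →+* Polynomial (Mb p L) := (Polynomial.mapRingHom (rMb p L)).comp lnR

/-- Evaluation at the point with parameter `α` of the generic line. -/
noncomputable def ev (α : Mb p L) : S p L →+* Mb p L := (Polynomial.evalRingHom α).comp ln

theorem ev_X (α : Mb p L) (i : Fin p) : ev α (X i) =
    rMb p L (X (Sum.inl i)) + α * rMb p L (X (Sum.inr i)) := by
  simp [ev, ln, lnR]
  ring

theorem ev_C (α : Mb p L) (c : L) : ev α (C c) = cMb p L c := by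
  simp [ev, ln, lnR, cMb]

theorem rMb_inj : Function.Injective (rMb p L) := by
  rw [rMb, RingHom.coe_comp]
  exact (algebraMap (Ml p L) (Mb p L)).injective.comp (IsFractionRing.injective _ _)

theorem lnR_X (i : Fin p) : lnR (p := p) (L := L) (X i) =
    Polynomial.C (X (Sum.inl i)) + Polynomial.X * Polynomial.C (X (Sum.inr i)) := by
  simp [lnR]

theorem lnR_C (c : L) : lnR (p := p) (L := L) (C c) = Polynomial.C (C c) := by
  simp [lnR]

/-- The shift `xi ↦ xi + e t eta`. -/
noncomputable def shf (p : ℕ) (L : Type u) [Field L] (e : L) :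
    Polynomial (MvPolynomial (Fin p ⊕ Fin p) L) →+* Polynomial (MvPolynomial (Fin p ⊕ Fin p) L) :=
  Polynomial.eval₂RingHom
    (eval₂Hom ((Polynomial.C (R := MvPolynomial (Fin p ⊕ Fin p) L)).comp C)
      (Sum.elim (fun i => Polynomial.C (X (Sum.inl i)) +
          Polynomial.C (C e) * (Polynomial.X * Polynomial.C (X (Sum.inr i))))
        (fun i => Polynomial.C (X (Sum.inr i))))) Polynomial.X

theorem shf_X (e : L) : shf p L e Polynomial.X = Polynomial.X := by
  simp [shf]

theorem shf_C (e : L) (c : L) : shf p L e (Polynomial.C (C c)) = Polynomial.C (C c) := by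
  simp [shf]

theorem shf_inl (e : L) (i : Fin p) : shf p L e (Polynomial.C (X (Sum.inl i))) =
    Polynomial.C (X (Sum.inl i)) +
      Polynomial.C (C e) * (Polynomial.X * Polynomial.C (X (Sum.inr i))) := by
  simp [shf]

theorem shf_inr (e : L) (i : Fin p) : shf p L e (Polynomial.C (X (Sum.inr i))) =
    Polynomial.C (X (Sum.inr i)) := by
  simp [shf]

theorem shf_shf (e e' : L) (h : e + e' = 0)
    (f : Polynomial (MvPolynomial (Fin p ⊕ Fin p) L)) : shf p L e (shf p L e' f) = f := by
  have h1 : (shf p L e).comp (shf p L e') = RingHom.id _ := by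
    refine Polynomial.ringHom_ext' ?_ ?_
    · refine MvPolynomial.ringHom_ext ?_ ?_
      · intro c
        change shf p L e (shf p L e' (Polynomial.C (C c))) = Polynomial.C (C c)
        rw [shf_C, shf_C]
      · rintro (i | i)
        · change shf p L e (shf p L e' (Polynomial.C (X (Sum.inl i)))) =
            Polynomial.C (X (Sum.inl i))
          rw [shf_inl, map_add, map_mul, map_mul, shf_inl, shf_C, shf_X, shf_inr, add_assoc,
            ← add_mul, ← Polynomial.C_add, ← C_add, h, C_0, Polynomial.C_0, zero_mul, add_zero]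
        · change shf p L e (shf p L e' (Polynomial.C (X (Sum.inr i)))) =
            Polynomial.C (X (Sum.inr i))
          rw [shf_inr, shf_inr]
    · rw [RingHom.comp_apply, shf_X, shf_X]
      rfl
  exact congrArg (fun g : Polynomial (MvPolynomial (Fin p ⊕ Fin p) L) →+*
    Polynomial (MvPolynomial (Fin p ⊕ Fin p) L) => g f) h1

/-- The shift as a ring isomorphism. -/
noncomputable def shfE (p : ℕ) (L : Type u) [Field L] :
    Polynomial (MvPolynomial (Fin p ⊕ Fin p) L) ≃+* Polynomial (MvPolynomial (Fin p ⊕ Fin p) L) :=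
  { shf p L 1 with
    invFun := shf p L (-1)
    left_inv := shf_shf (-1) 1 (by ring)
    right_inv := shf_shf 1 (-1) (by ring) }

theorem lnR_eq_shf (f : S p L) : lnR f = shfE p L (Polynomial.C (rename Sum.inl f)) := by
  change lnR f = shf p L 1 (Polynomial.C (rename Sum.inl f))
  induction f using MvPolynomial.induction_on with
  | C c => rw [lnR_C, rename_C, shf_C]
  | add f g hf hg => rw [map_add, map_add, Polynomial.C_add, map_add, hf, hg]
  | mul_X f i hf =>
    rw [map_mul, map_mul, Polynomial.C_mul, map_mul, hf, rename_X, shf_inl, lnR_X, C_1,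
      Polynomial.C_1, one_mul]

/-- `L[xi, eta] = L[xi][eta]`. -/
noncomputable def itE (p : ℕ) (L : Type u) [Field L] :
    MvPolynomial (Fin p ⊕ Fin p) L ≃ₐ[L] MvPolynomial (Fin p) (MvPolynomial (Fin p) L) :=
  (renameEquiv L (Equiv.sumComm (Fin p) (Fin p))).trans (sumAlgEquiv L (Fin p) (Fin p))

theorem itE_inl (f : S p L) : itE p L (rename Sum.inl f) = C f := by
  induction f using MvPolynomial.induction_on with
  | C c =>
    rw [rename_C, ← algebraMap_eq, AlgEquiv.commutes]
    rfl
  | add f g hf hg => rw [map_add, map_add, hf, hg, C_add]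
  | mul_X f i hf =>
    rw [map_mul, map_mul, hf, C_mul, rename_X]
    congr 1
    change sumAlgEquiv L (Fin p) (Fin p) (rename (Equiv.sumComm (Fin p) (Fin p)) (X (Sum.inl i))) = _
    rw [rename_X]
    exact sumAlgEquiv_X_inr _ _ _ i

theorem prime_inl {f : S p L} (h : Prime f) :
    Prime (rename Sum.inl f : MvPolynomial (Fin p ⊕ Fin p) L) := by
  rw [← MulEquiv.prime_iff (itE p L).toMulEquiv]
  change Prime (itE p L (rename Sum.inl f))
  rw [itE_inl]
  exact (prime_C_iff (Fin p)).2 h

theorem lnR_prime (P : HP p L) : Prime (lnR P.gen) := by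
  rw [lnR_eq_shf]
  exact (MulEquiv.prime_iff (shfE p L).toMulEquiv).2
    (Polynomial.prime_C_iff.2 (prime_inl P.gen_prime))

theorem lnR_mon (d : Fin p →₀ ℕ) : (lnR (monomial d (1 : L))).natDegree ≤ d.degree ∧
    (lnR (monomial d (1 : L))).coeff d.degree = rename Sum.inr (monomial d 1) := by
  induction d using Finsupp.induction_linear with
  | zero =>
    have h : (monomial (0 : Fin p →₀ ℕ) (1 : L)) = 1 := rfl
    rw [h, map_one, map_one, Polynomial.natDegree_one, map_zero, Polynomial.coeff_one_zero]
    exact ⟨le_rfl, rfl⟩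
  | add d d' h h' =>
    have h1 : monomial (d + d') (1 : L) = monomial d 1 * monomial d' 1 := by
      rw [monomial_mul, one_mul]
    rw [h1, map_mul, map_mul, map_add]
    refine ⟨Polynomial.natDegree_mul_le_of_le h.1 h'.1, ?_⟩
    rw [Polynomial.coeff_mul_add_eq_of_natDegree_le h.1 h'.1, h.2, h'.2]
  | single i k =>
    have h0 : (Polynomial.C (X (Sum.inl i)) + Polynomial.X * Polynomial.C (X (Sum.inr i)) :
        Polynomial (MvPolynomial (Fin p ⊕ Fin p) L)).natDegree ≤ 1 := by
      refine Polynomial.natDegree_add_le_of_degree_le ?_ ?_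
      · rw [Polynomial.natDegree_C]
        exact zero_le_one
      · rw [mul_comm]
        exact (Polynomial.natDegree_C_mul_le _ _).trans Polynomial.natDegree_X_le
    rw [← X_pow_eq_monomial, map_pow, map_pow, Finsupp.degree_single, lnR_X, rename_X]
    constructor
    · have h1 := Polynomial.natDegree_pow_le_of_le k h0
      rwa [mul_one] at h1
    · have h1 := Polynomial.coeff_pow_of_natDegree_le h0 (m := k)
      rw [mul_one] at h1
      rw [h1]
      congr 1
      rw [Polynomial.coeff_add, Polynomial.coeff_C, if_neg one_ne_zero, zero_add,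
        Polynomial.mul_coeff_one]
      simp

theorem lnR_coeff {f : S p L} {n : ℕ} (h : f.IsHomogeneous n) :
    (lnR f).natDegree ≤ n ∧ (lnR f).coeff n = rename Sum.inr f := by
  have h1 : ∀ d ∈ f.support, d.degree = n := by
    intro d hd
    rw [Finsupp.degree_apply]
    exact (h.degree_eq_sum_deg_support hd).symm
  have h2 : f = ∑ d ∈ f.support, C (coeff d f) * monomial d 1 := by
    conv_lhs => rw [f.as_sum]
    refine Finset.sum_congr rfl fun d _ => ?_
    rw [C_mul_monomial, mul_one]
  have h3 : lnR f = ∑ d ∈ f.support, Polynomial.C (C (coeff d f)) * lnR (monomial d 1) := by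
    conv_lhs => rw [h2]
    rw [map_sum]
    refine Finset.sum_congr rfl fun d _ => ?_
    rw [map_mul, lnR_C]
  rw [h3]
  constructor
  · refine Polynomial.natDegree_sum_le_of_forall_le _ _ fun d hd => ?_
    refine (Polynomial.natDegree_C_mul_le _ _).trans ?_
    rw [← h1 d hd]
    exact (lnR_mon d).1
  · rw [Polynomial.finsetSum_coeff]
    conv_rhs => rw [h2]
    rw [map_sum]
    refine Finset.sum_congr rfl fun d hd => ?_
    rw [Polynomial.coeff_C_mul, map_mul, rename_C]
    congr 1
    rw [← h1 d hd]
    exact (lnR_mon d).2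

theorem lnR_lead {f : S p L} {n : ℕ} (h : f.IsHomogeneous n) (h0 : f ≠ 0) :
    (lnR f).natDegree = n ∧ (lnR f).leadingCoeff = rename Sum.inr f := by
  obtain ⟨h1, h2⟩ := lnR_coeff h
  have h3 : (rename Sum.inr f : MvPolynomial (Fin p ⊕ Fin p) L) ≠ 0 := by
    rw [Ne, map_eq_zero_iff _ (rename_injective _ Sum.inr_injective)]
    exact h0
  have h4 : (lnR f).natDegree = n :=
    Polynomial.natDegree_eq_of_le_of_coeff_ne_zero h1 (by rwa [h2])
  exact ⟨h4, by rw [Polynomial.leadingCoeff, h4, h2]⟩

theorem ln_lead {f : S p L} {n : ℕ} (h : f.IsHomogeneous n) (h0 : f ≠ 0) :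
    (ln f).natDegree = n ∧ (ln f).leadingCoeff = rMb p L (rename Sum.inr f) := by
  obtain ⟨h1, h2⟩ := lnR_lead h h0
  have h3 : ln f = (lnR f).map (rMb p L) := rfl
  rw [h3, Polynomial.natDegree_map_eq_of_injective rMb_inj,
    Polynomial.leadingCoeff_map_of_injective rMb_inj, h1, h2]
  exact ⟨rfl, rfl⟩

theorem lnR_inj : Function.Injective (lnR (p := p) (L := L)) := by
  intro f g h
  rw [lnR_eq_shf, lnR_eq_shf] at h
  exact rename_injective _ Sum.inl_injective (Polynomial.C_injective ((shfE p L).injective h))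

/-- `t, eta ↦ 0`. -/
noncomputable def rtr (p : ℕ) (L : Type u) [Field L] :
    Polynomial (MvPolynomial (Fin p ⊕ Fin p) L) →+* S p L :=
  Polynomial.eval₂RingHom (eval₂Hom C (Sum.elim X (fun _ => 0))) 0

theorem rtr_lnR (f : S p L) : rtr p L (lnR f) = f := by
  induction f using MvPolynomial.induction_on with
  | C c =>
    rw [lnR_C]
    simp [rtr]
  | add f g hf hg => rw [map_add, map_add, hf, hg]
  | mul_X f i hf =>
    rw [map_mul, map_mul, hf, lnR_X]
    congr 1
    simp [rtr]

theorem ln_inj : Function.Injective (ln (p := p) (L := L)) := by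
  rw [ln, RingHom.coe_comp]
  exact (Polynomial.map_injective _ rMb_inj).comp lnR_inj

/-- The equation over `Ml`. -/
noncomputable def lnM (f : S p L) : Polynomial (Ml p L) :=
  (lnR f).map (algebraMap (MvPolynomial (Fin p ⊕ Fin p) L) (Ml p L))

theorem ln_eq_lnM (f : S p L) : ln f = (lnM f).map (algebraMap (Ml p L) (Mb p L)) := by
  rw [lnM, Polynomial.map_map]
  rfl

theorem ev_eq_aeval (α : Mb p L) (f : S p L) : ev α f = Polynomial.aeval α (lnM f) := by
  rw [Polynomial.aeval_def, ← Polynomial.eval_map, ← ln_eq_lnM]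
  rfl

theorem lnR_prim (P : HP p L) : (lnR P.gen).IsPrimitive := by
  refine (lnR_prime P).irreducible.isPrimitive ?_
  rw [(lnR_lead P.gen_hom P.gen_irr.ne_zero).1]
  exact (gen_deg_pos P).ne'

theorem lnM_irr (P : HP p L) : Irreducible (lnM P.gen) :=
  (lnR_prim P).irreducible_iff_irreducible_map_fraction_map.1 (lnR_prime P).irreducible

theorem lnM_dvd (P : HP p L) (α : Mb p L) (h : ev α P.gen = 0) (g : Polynomial (Ml p L))
    (hg : Polynomial.aeval α g = 0) : lnM P.gen ∣ g := by
  rw [ev_eq_aeval] at h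
  have h1 : minpoly (Ml p L) α ∣ lnM P.gen := minpoly.dvd _ _ h
  have h2 : minpoly (Ml p L) α ∣ g := minpoly.dvd _ _ hg
  have hint : IsIntegral (Ml p L) α := Algebra.IsIntegral.isIntegral α
  exact ((minpoly.irreducible hint).associated_of_dvd (lnM_irr P) h1).symm.dvd.trans h2

theorem ev_ker (P : HP p L) (α : Mb p L) (h : ev α P.gen = 0) (f : S p L) :
    ev α f = 0 ↔ P.gen ∣ f := by
  constructor
  · intro hf
    rw [ev_eq_aeval] at hf
    have h1 : lnM P.gen ∣ lnM f := lnM_dvd P α h _ hf
    have h2 : lnR P.gen ∣ lnR f := (lnR_prim P).dvd_of_fraction_map_dvd_fraction_map h1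
    have h3 := map_dvd (rtr p L) h2
    rwa [rtr_lnR, rtr_lnR] at h3
  · rintro ⟨g, rfl⟩
    rw [map_mul, h, zero_mul]

theorem ev_uniq {P P' : HP p L} {α : Mb p L} (h : ev α P.gen = 0) (h' : ev α P'.gen = 0) : P = P' := by
  exact gen_dvd_gen ((ev_ker P α h P'.gen).1 h')

theorem lnR_coeff0 (f : S p L) : (lnR f).coeff 0 = rename Sum.inl f := by
  induction f using MvPolynomial.induction_on with
  | C c => rw [lnR_C, rename_C, Polynomial.coeff_C_zero]
  | add f g hf hg => rw [map_add, map_add, Polynomial.coeff_add, hf, hg]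
  | mul_X f j hf =>
    rw [map_mul, map_mul, Polynomial.mul_coeff_zero, hf, lnR_X, rename_X]
    simp

theorem lnR_coeff1 (f : S p L) : (lnR f).coeff 1 =
    ∑ i : Fin p, rename Sum.inl (pderiv i f) * X (Sum.inr i) := by
  induction f using MvPolynomial.induction_on with
  | C c =>
    rw [lnR_C, Polynomial.coeff_C, if_neg one_ne_zero]
    symm
    refine Finset.sum_eq_zero fun i _ => ?_
    rw [pderiv_C, map_zero, zero_mul]
  | add f g hf hg =>
    rw [map_add, Polynomial.coeff_add, hf, hg, ← Finset.sum_add_distrib]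
    refine Finset.sum_congr rfl fun i _ => ?_
    rw [map_add, map_add, add_mul]
  | mul_X f j hf =>
    have h1 : (lnR (p := p) (L := L) (X j)).coeff 1 = X (Sum.inr j) := by
      rw [lnR_X, Polynomial.coeff_add, Polynomial.coeff_C, if_neg one_ne_zero, zero_add,
        Polynomial.mul_coeff_one]
      simp
    have h2 : ∀ i : Fin p, (rename Sum.inl (pderiv i (f * X j)) * X (Sum.inr i) :
        MvPolynomial (Fin p ⊕ Fin p) L) =
        rename Sum.inl (pderiv i f) * X (Sum.inr i) * rename Sum.inl (X j) +
          (if i = j then X (Sum.inr j) * rename Sum.inl f else 0) := by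
      intro i
      by_cases hij : i = j
      · subst hij
        rw [if_pos rfl, pderiv_mul, pderiv_X_self, mul_one, map_add, map_mul]
        ring
      · rw [if_neg hij, pderiv_mul, pderiv_X_of_ne (Ne.symm hij), mul_zero, add_zero, map_mul]
        ring
    have h3 : (lnR f * lnR (X j)).coeff 1 =
        (lnR f).coeff 0 * (lnR (p := p) (L := L) (X j)).coeff 1 +
          (lnR f).coeff 1 * (lnR (p := p) (L := L) (X j)).coeff 0 := by
      exact Polynomial.mul_coeff_one _ _
    rw [map_mul, h3, hf, h1, lnR_coeff0, lnR_coeff0,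
      Finset.sum_congr rfl fun i _ => h2 i, Finset.sum_add_distrib, Finset.sum_mul,
      Finset.sum_ite_eq' Finset.univ j, if_pos (Finset.mem_univ j)]
    ring

theorem lnM_sep [PerfectField L] (P : HP p L) : (lnM P.gen).Separable := by
  rw [Polynomial.separable_iff_derivative_ne_zero (lnM_irr P)]
  intro h0
  have h1 : Polynomial.derivative (lnR P.gen) = 0 := by
    rw [lnM, Polynomial.derivative_map] at h0
    exact (Polynomial.map_eq_zero_iff (IsFractionRing.injective _ _)).1 h0
  have h2 : (lnR P.gen).coeff 1 = 0 := by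
    have h3 := congrArg (fun g => Polynomial.coeff g 0) h1
    simp only [Polynomial.coeff_derivative, Polynomial.coeff_zero] at h3
    simpa using h3
  rw [lnR_coeff1] at h2
  obtain ⟨j, hj⟩ := exists_pd P
  have h4 := congrArg (eval₂Hom (C : L →+* S p L)
    (Sum.elim X (fun i => if i = j then 1 else 0))) h2
  rw [map_sum, map_zero, Finset.sum_eq_single j] at h4
  · rw [map_mul, coe_eval₂Hom, eval₂_rename, eval₂_X] at h4
    simp only [Sum.elim_inr, if_true, mul_one] at h4
    have h5 : eval₂ (C : L →+* S p L) ((Sum.elim X (fun i => if i = j then 1 else 0)) ∘ Sum.inl)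
        (pderiv j P.gen) = pderiv j P.gen := by
      have h6 : ((Sum.elim X (fun i => if i = j then 1 else 0)) ∘ Sum.inl : Fin p → S p L) = X := by
        funext i
        rfl
      rw [h6, eval₂_eta]
    rw [h5] at h4
    apply hj
    rw [h4]
    exact dvd_zero _
  · intro i _ hij
    rw [map_mul, coe_eval₂Hom, eval₂_X]
    simp [hij]
  · intro hn
    exact absurd (Finset.mem_univ j) hn

theorem ev_simple [PerfectField L] (P : HP p L) (α : Mb p L) (h : ev α P.gen = 0) :
    Polynomial.eval α (Polynomial.derivative (ln P.gen)) ≠ 0 := by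
  rw [ev_eq_aeval] at h
  have h1 := (lnM_sep P).aeval_derivative_ne_zero h
  rwa [Polynomial.aeval_def, ← Polynomial.eval_map, ← Polynomial.derivative_map, ← ln_eq_lnM] at h1

theorem ev_hom {f : S p L} {n : ℕ} (h : f.IsHomogeneous n) (h0 : f ≠ 0) {α : Mb p L} (hα : ev α f = 0) :
    ∃ P : HP p L, P.gen ∣ f ∧ ev α P.gen = 0 := by
  obtain ⟨c, l, hc, hl⟩ := factor h h0
  have h1 : cMb p L c ≠ 0 := (map_ne_zero (cMb p L)).2 hc
  rw [hl, map_mul, ev_C, mul_eq_zero, map_list_prod, List.map_map, List.prod_eq_zero_iff,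
    List.mem_map] at hα
  obtain ⟨P, hP, hP0⟩ := hα.resolve_left h1
  refine ⟨P, ?_, hP0⟩
  rw [hl]
  exact (List.dvd_prod (List.mem_map.2 ⟨P, hP, rfl⟩)).mul_left _

/-- Evaluation of elements of the residue field. -/
noncomputable def evK (P : HP p L) (α : Mb p L) (h : ev α P.gen = 0) : kap P →+* Mb p L :=
  IsFractionRing.lift (A := S p L ⧸ P.I)
    (g := Ideal.Quotient.lift P.I (ev α) (fun a ha => (ev_ker P α h a).mpr ((P.mem_iff a).mp ha)))
    (by
      rw [injective_iff_map_eq_zero]
      intro a ha
      obtain ⟨f, rfl⟩ := Ideal.Quotient.mk_surjective a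
      rw [Ideal.Quotient.lift_mk] at ha
      rw [Ideal.Quotient.eq_zero_iff_mem, P.mem_iff]
      exact (ev_ker P α h f).1 ha)

theorem evK_red (P : HP p L) (α : Mb p L) (h : ev α P.gen = 0) (f : S p L) :
    evK P α h (red P f) = ev α f := by
  rw [evK, red, RingHom.comp_apply, IsFractionRing.lift_algebraMap, Ideal.Quotient.lift_mk]

end Pool.Agent.MSX
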