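import Pool.Agent.MSX.SplD
import Pool.Agent.MSX.PSp

/-! # Cyclic data of degree `p` over `L` and their systems

`m : MD D M`: `M = L(g)` is a field of degree `p` over `L` with an automorphism `s'` of order `p` extending `s` and fixing `g`, and an element `z` of norm `b`.

PROOFS.

* `c_succ`, `c_last`: `s' (c i) = ∏_{j<i} (s'^(j+1) z)⁻¹`, so `z * c (i+1) = s' (c i)`; for `i = p - 1`: `z_norm`.

* `exists_eps`: `M / L` is separable (`L` perfect) of degree `p` (finite: `Module.finite_of_finrank_pos`), so there are `p` embeddings into the algebraic closure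
  (`AlgHom.card`, `Nat.card`, `Finite.equivFinOfCardEq`).

* `eps_mat_det` (Dedekind): for an `L`-basis `x` of `M` the matrix `(eps i (x j))` has nonzero determinant: otherwise there is `c ≠ 0` with `∑ i, c_i eps i (x j) = 0` for all `j`
  (`Matrix.exists_vecMul_eq_zero_iff`), so `∑ c_i eps i = 0` on `M`, contradicting `linearIndependent_monoidHom` (the `eps i` are distinct).

* `T`: for `w` in the Galois group, `w ∘ eps i` is again an embedding, `= eps (π i)`, `π` a permutation; scalar `1`.

* `T_semi`: `st` from `exists_stS`; `st ∘ eps i ∘ s'⁻¹` is an `L`-algebra homomorphism `M → AlgebraicClosure L` (`s'⁻¹ (algebraMap l) = algebraMap (s⁻¹ l)`), `= eps (π i)`, and `π` is a permutation (injective on a finite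
  set).  `st (eps i x) = eps (π i) (s' x)`.  So `st (T.e i) = eps (π i) (s' g) = T.e (π i)`, and `D.tw st (T.l i) k` is, for `k = 0`, `b * eps (π i) (s' (c (p-1))) = eps (π i) (z * c 0)` (`c_last`), and for `k > 0`
  `eps (π i) (s' (c (k-1))) = eps (π i) (z * c k)` (`c_succ`): the scalar is `eps (π i) z ≠ 0`.
-/

set_option autoImplicit false

namespace Pool.Agent.MSX

open MvPolynomial

universe u

variable {p : ℕ} {F L : Type u} [Field F] [Field L] [Algebra F L]

/-- A field of degree `p` over `L` with an extension of `s` and an element of norm `b`. -/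
structure MD (D : Dat p F L) (M : Type u) [Field M] [Algebra L M] where
  s' : M ≃+* M
  s_alg : ∀ l : L, s' (algebraMap L M l) = algebraMap L M (D.s l)
  s_iter : ∀ x : M, s'^[p] x = x
  g : M
  g_ne : g ≠ 0
  s_g : s' g = g
  z : M
  z_norm : ∏ i ∈ Finset.range p, s'^[i] z = algebraMap L M D.bL
  rk : Module.finrank L M = p
  gli : LinearIndependent L (fun j : Fin p => g ^ j.val)

namespace MD

variable {D : Dat p F L} {M : Type u} [Field M] [Algebra L M] (m : MD D M)

theorem z_ne : m.z ≠ 0 := by
  intro h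
  have h1 := m.z_norm
  rw [Finset.prod_eq_zero (Finset.mem_range.2 D.hp.pos)
    (show m.s'^[0] m.z = 0 by rw [Function.iterate_zero, id, h])] at h1
  exact D.bL_ne ((map_eq_zero (algebraMap L M)).1 h1.symm)

/-- The coefficients of the linear form `l` with `sig l = z l`. -/
noncomputable def c (i : Fin p) : M := ∏ j ∈ Finset.range i.val, (m.s'^[j] m.z)⁻¹

theorem c_zero : m.c ⟨0, D.hp.pos⟩ = 1 := by
  simp [c]

theorem mdt_sc (i : Fin p) : m.s' (m.c i) =
    m.z * ∏ j ∈ Finset.range (i.val + 1), (m.s'^[j] m.z)⁻¹ := by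
  have h1 : m.s' (m.c i) = ∏ j ∈ Finset.range i.val, (m.s'^[j + 1] m.z)⁻¹ := by
    unfold c
    rw [map_prod]
    refine Finset.prod_congr rfl fun j _ => ?_
    rw [map_inv₀, Function.iterate_succ_apply']
  rw [h1, Finset.prod_range_succ', Function.iterate_zero, id, mul_left_comm,
    mul_inv_cancel₀ m.z_ne, mul_one]

theorem c_succ (i : Fin p) (h : i.val + 1 < p) : m.z * m.c ⟨i.val + 1, h⟩ = m.s' (m.c i) := by
  rw [m.mdt_sc]
  rfl

theorem c_last (i : Fin p) (h : i.val + 1 = p) :
    m.z * m.c ⟨0, D.hp.pos⟩ = algebraMap L M D.bL * m.s' (m.c i) := by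
  rw [m.c_zero, mul_one, m.mdt_sc, h, Finset.prod_inv_distrib, m.z_norm, mul_left_comm,
    mul_inv_cancel₀ ((map_ne_zero (algebraMap L M)).2 D.bL_ne), mul_one]

include m in
theorem exists_eps [PerfectField L] : Nonempty (Fin p ≃ (M →ₐ[L] AlgebraicClosure L)) := by
  have hfin : Module.Finite L M := Module.finite_of_finrank_pos (by rw [m.rk]; exact D.hp.pos)
  have hsep : Algebra.IsSeparable L M := Algebra.IsAlgebraic.isSeparable_of_perfectField
  exact ⟨(Fintype.equivFinOfCardEq ((AlgHom.card L M (AlgebraicClosure L)).trans m.rk)).symm⟩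

/-- The embeddings of `M` over `L`. -/
noncomputable def eps [PerfectField L] : Fin p ≃ (M →ₐ[L] AlgebraicClosure L) :=
  Classical.choice m.exists_eps

theorem eps_mat_det [PerfectField L] (x : Module.Basis (Fin p) L M) :
    (Matrix.of fun i j : Fin p => m.eps i (x j)).det ≠ 0 := by
  intro h0
  obtain ⟨v, hv, hv0⟩ := Matrix.exists_vecMul_eq_zero_iff.2 h0
  apply hv
  have h1 : ∑ i, v i • (m.eps i).toLinearMap = 0 := by
    refine x.ext fun j => ?_
    rw [LinearMap.sum_apply, LinearMap.zero_apply]
    exact congrFun hv0 j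
  have hli : LinearIndependent (AlgebraicClosure L)
      (fun i : Fin p => ((m.eps i : M →* AlgebraicClosure L) : M → AlgebraicClosure L)) := by
    refine (linearIndependent_monoidHom M (AlgebraicClosure L)).comp
      (fun i : Fin p => (m.eps i : M →* AlgebraicClosure L)) ?_
    intro i j hij
    apply m.eps.injective
    ext y
    exact DFunLike.congr_fun hij y
  rw [Fintype.linearIndependent_iff] at hli
  funext i
  refine hli v ?_ i
  funext y
  have h2 := congrArg (fun t : M →ₗ[L] AlgebraicClosure L => t y) h1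
  rw [Finset.sum_apply]
  simpa [LinearMap.sum_apply] using h2

theorem exists_gal [PerfectField L] (w : AlgebraicClosure L ≃ₐ[L] AlgebraicClosure L) :
    ∃ π : Equiv.Perm (Fin p), ∀ (i : Fin p) (x : M), w (m.eps i x) = m.eps (π i) x := by
  refine ⟨m.eps.trans ((AlgEquiv.arrowCongr AlgEquiv.refl w).trans m.eps.symm), fun i x => ?_⟩
  simp [AlgEquiv.arrowCongr]

/-- The system of a cyclic datum. -/
noncomputable def T [PerfectField L] : TD p L (Fin p) where
  e i := m.eps i m.g
  l i j := m.eps i (m.c j)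
  e_ne i := (map_ne_zero (m.eps i)).mpr m.g_ne
  l_ne i := by
    intro h
    have h1 := congrFun h ⟨0, D.hp.pos⟩
    rw [m.c_zero, map_one, Pi.zero_apply] at h1
    exact one_ne_zero h1
  gal w := by
    obtain ⟨π, h⟩ := m.exists_gal w
    exact ⟨π, fun i => ⟨h i _, 1, one_ne_zero, fun j => by rw [one_mul, h i]⟩⟩

theorem mdt_st [PerfectField L] (st : AlgebraicClosure L ≃+* AlgebraicClosure L)
    (hst : ∀ c : L, st (algebraMap L (AlgebraicClosure L) c) =
      algebraMap L (AlgebraicClosure L) (D.s c)) :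
    ∃ π : Equiv.Perm (Fin p), ∀ (i : Fin p) (x : M), m.eps (π i) (m.s' x) = st (m.eps i x) := by
  have hsym : ∀ l : L, m.s'.symm (algebraMap L M l) = algebraMap L M (D.s.symm l) := by
    intro l
    rw [RingEquiv.symm_apply_eq, m.s_alg, AlgEquiv.apply_symm_apply]
  let ψ : Fin p → (M →ₐ[L] AlgebraicClosure L) := fun i =>
    { (st : AlgebraicClosure L →+* AlgebraicClosure L).comp
        ((m.eps i : M →+* AlgebraicClosure L).comp (m.s'.symm : M →+* M)) with
      commutes' := fun l => by
        show st (m.eps i (m.s'.symm (algebraMap L M l))) = _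
        rw [hsym, AlgHom.commutes, hst, AlgEquiv.apply_symm_apply] }
  have hψ : ∀ i x, ψ i (m.s' x) = st (m.eps i x) := by
    intro i x
    show st (m.eps i (m.s'.symm (m.s' x))) = _
    rw [RingEquiv.symm_apply_apply]
  have hinj : Function.Injective (fun i => m.eps.symm (ψ i)) := by
    intro i j hij
    have h1 : ψ i = ψ j := m.eps.symm.injective hij
    apply m.eps.injective
    ext y
    apply st.injective
    rw [← hψ, ← hψ, h1]
  refine ⟨Equiv.ofBijective _ (Finite.injective_iff_bijective.1 hinj), fun i x => ?_⟩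
  rw [Equiv.ofBijective_apply, Equiv.apply_symm_apply, hψ]

theorem T_semi [PerfectField L] : m.T.Semi D := by
  obtain ⟨st, hst⟩ := D.exists_stS
  obtain ⟨π, hπ⟩ := m.mdt_st st hst
  refine ⟨st, hst, π, fun i => ⟨?_, m.eps (π i) m.z, (map_ne_zero (m.eps (π i))).2 m.z_ne,
    fun k => ?_⟩⟩
  · show st (m.eps i m.g) = m.eps (π i) m.g
    rw [← hπ, m.s_g]
  · show D.tw st (fun j => m.eps i (m.c j)) k = m.eps (π i) m.z * m.eps (π i) (m.c k)
    rw [← map_mul]
    unfold Dat.tw
    by_cases hk : k.val = 0
    · have hk' : k = ⟨0, D.hp.pos⟩ := Fin.ext hk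
      rw [if_pos hk, ← hπ, hk', m.c_last ⟨p - 1, by have := D.hp.pos; omega⟩
        (by have := D.hp.pos; simp only; omega), map_mul, AlgHom.commutes]
    · rw [if_neg hk, ← hπ, ← m.c_succ ⟨k.val - 1, by omega⟩ (by simp only; omega)]
      congr 3
      apply Fin.ext
      simp only
      omega

end MD

end Pool.Agent.MSX
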