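import Pool.Agent.MSX.MDt

/-! # Matrices attached to a cyclic datum

`Φ : M ≃ₗ[L] (Fin p → L)` are coordinates of the field `M`; `ml Φ y` is the matrix of the multiplication by `y`; the basic hypothesis on the coordinates is
`hΦ : ∀ x, Φ (z ^ n * s' x) = D.tau (D.Bp n) (Φ x)`.

PROOFS.

* `ml_mulVec`: `Algebra.leftMulMatrix_mulVec_repr` (the coordinates of `Module.Basis.ofEquivFun Φ` are `Φ`).

* `ml_eq`: apply both matrices to `Φ x`, and all vectors are of this form (`Matrix.mulVec_injective` or `Matrix.ext_of_mulVec_single`).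

* `ml_bp`: both sides applied to the vector `fun i => D.s (Φ x i)` (all vectors are of this form) are equal: with `τ = D.tau (D.Bp n)` the left side is
  `(Bp n).mulVec (s ∘ ((ml y).mulVec (Φ x))) = τ (Φ (y * x)) = Φ (z^n * s' (y * x)) = Φ (s' y * (z^n * s' x)) = (ml (s' y)).mulVec (τ (Φ x))`, which is the right side (`an_map_mulVec` in `An`).

* `xm_mulVec`: `x = ∑ j, (Φ x j) • Φ.symm (Pi.single j 1)`, apply `m.eps i`.

* `xm_det`: `eps_mat_det` for the basis `Module.Basis.ofEquivFun Φ` (its vectors are `Φ.symm (Pi.single j 1)`).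

* `xm_ml`: the entry `(i, j)` of the left side is, by `xm_mulVec` for `y * Φ.symm (Pi.single j 1)` (the column `j` of `ml Φ y` is `Φ (y * Φ.symm (Pi.single j 1))` by `ml_mulVec`),
  `eps i (y * Φ.symm (Pi.single j 1)) = eps i y * xm i j`.

* `cm_det`: `eps_mat_det` for the basis `g ^ j` (`basisOfLinearIndependentOfCardEqFinrank` with `m.gli`, `m.rk`).

* `exists_gF`: let `e` be the basis `g ^ j` and `c j k` the coordinates of `g * g ^ j`: `g * g ^ j = ∑ k, c j k • g ^ k`.  Apply `s'`: `s'` fixes `g`, so `∑ k, c j k • g^k = ∑ k, s (c j k) • g^k`, and `s (c j k) = c j k`,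
  so `c j k = algebraMap F L (g' k j)` (`D.fix`).  Now apply `eps i`: `∑ k, cm i k * (g' k j) = eps i g * eps i (g ^ j)`.
-/

set_option autoImplicit false

namespace Pool.Agent.MSX

open MvPolynomial

universe u

section ml

variable {p : ℕ} {L M : Type u} [Field L] [Field M] [Algebra L M] (Φ : M ≃ₗ[L] (Fin p → L))

/-- The matrix of the multiplication by an element. -/
noncomputable def ml : M →ₐ[L] Matrix (Fin p) (Fin p) L :=
  Algebra.leftMulMatrix (Module.Basis.ofEquivFun Φ)

theorem ml_mulVec (y x : M) : (ml Φ y).mulVec (Φ x) = Φ (y * x) := by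
  have h := Algebra.leftMulMatrix_mulVec_repr (Module.Basis.ofEquivFun Φ) y x
  exact h

theorem ml_eq {y : M} {g : Matrix (Fin p) (Fin p) L} (h : ∀ x, Φ (y * x) = g.mulVec (Φ x)) :
    ml Φ y = g := by
  refine Matrix.ext_of_mulVec_single fun i => ?_
  have h1 := h (Φ.symm (Pi.single i 1))
  have h2 := ml_mulVec Φ y (Φ.symm (Pi.single i 1))
  rw [LinearEquiv.apply_symm_apply] at h1 h2
  rw [← h1, ← h2]

theorem ml_comm (y z : M) : ml Φ y * ml Φ z = ml Φ z * ml Φ y := by
  rw [← map_mul, mul_comm, map_mul]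

end ml

variable {p : ℕ} {F L : Type u} [Field F] [Field L] [Algebra F L]

namespace MD

variable {D : Dat p F L} {M : Type u} [Field M] [Algebra L M] (m : MD D M) (Φ : M ≃ₗ[L] (Fin p → L))

theorem ml_bp {n : ℤ} (hΦ : ∀ x, Φ (m.z ^ n * m.s' x) = D.tau (D.Bp n) (Φ x)) (y : M) :
    D.Bp n * (ml Φ y).map D.s = ml Φ (m.s' y) * D.Bp n := by
  have key : ∀ x : M, (D.Bp n * (ml Φ y).map D.s).mulVec (fun i => D.s (Φ x i)) =
      (ml Φ (m.s' y) * D.Bp n).mulVec (fun i => D.s (Φ x i)) := by
    intro x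
    have h1 : (D.Bp n * (ml Φ y).map D.s).mulVec (fun i => D.s (Φ x i)) =
        Φ (m.z ^ n * m.s' (y * x)) := by
      rw [hΦ, Dat.tau_apply, ← Matrix.mulVec_mulVec, ← ml_mulVec Φ y x]
      congr 1
      exact (Dat.an_map_mulVec D (ml Φ y) (Φ x)).symm
    have h2 : (ml Φ (m.s' y) * D.Bp n).mulVec (fun i => D.s (Φ x i)) =
        Φ (m.s' y * (m.z ^ n * m.s' x)) := by
      rw [← Matrix.mulVec_mulVec, ← Dat.tau_apply, ← hΦ, ml_mulVec]
    rw [h1, h2, map_mul m.s', mul_left_comm]
  refine Matrix.ext_of_mulVec_single fun i => ?_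
  have h1 := key (Φ.symm (Pi.single i 1))
  rw [LinearEquiv.apply_symm_apply] at h1
  have h2 : (fun k => D.s ((Pi.single i 1 : Fin p → L) k)) = Pi.single i 1 := by
    funext k
    by_cases hk : k = i
    · subst hk
      rw [Pi.single_eq_same, map_one]
    · rw [Pi.single_eq_of_ne hk, map_zero]
  rw [h2] at h1
  exact h1

/-- The matrix of the embeddings in the coordinates `Φ`. -/
noncomputable def xm [PerfectField L] : Matrix (Fin p) (Fin p) (AlgebraicClosure L) :=
  Matrix.of fun i j => m.eps i (Φ.symm (Pi.single j 1))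

theorem xm_mulVec [PerfectField L] (x : M) (i : Fin p) :
    ∑ j, m.xm Φ i j * algebraMap L (AlgebraicClosure L) (Φ x j) = m.eps i x := by
  have h1 : ∑ j, (Φ x j) • Φ.symm (Pi.single j 1) = x := by
    have h2 := (Module.Basis.ofEquivFun Φ).sum_repr x
    rw [Module.Basis.coe_ofEquivFun] at h2
    exact h2
  conv_rhs => rw [← h1]
  rw [map_sum]
  refine Finset.sum_congr rfl fun j _ => ?_
  rw [map_smul, Algebra.smul_def, mul_comm]
  rfl

theorem xm_det [PerfectField L] : (m.xm Φ).det ≠ 0 := by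
  have h := m.eps_mat_det (Module.Basis.ofEquivFun Φ)
  rw [Module.Basis.coe_ofEquivFun] at h
  exact h

theorem xm_ml [PerfectField L] (y : M) :
    m.xm Φ * (ml Φ y).map (algebraMap L (AlgebraicClosure L)) =
      Matrix.diagonal (fun i => m.eps i y) * m.xm Φ := by
  ext i j
  have h1 : ∀ k, ml Φ y k j = Φ (y * Φ.symm (Pi.single j 1)) k := by
    intro k
    rw [← ml_mulVec, LinearEquiv.apply_symm_apply, Matrix.mulVec_single_one]
    rfl
  rw [Matrix.mul_apply, Matrix.diagonal_mul]
  have h2 : ∀ k, (ml Φ y).map (algebraMap L (AlgebraicClosure L)) k j =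
      algebraMap L (AlgebraicClosure L) (Φ (y * Φ.symm (Pi.single j 1)) k) := by
    intro k
    rw [Matrix.map_apply, h1]
  simp only [h2]
  rw [m.xm_mulVec Φ (y * Φ.symm (Pi.single j 1)) i, map_mul]
  rfl

/-- The matrix of the embeddings in the basis of the powers of `g`. -/
noncomputable def cm [PerfectField L] : Matrix (Fin p) (Fin p) (AlgebraicClosure L) :=
  Matrix.of fun i j => m.eps i (m.g ^ j.val)

/-- The basis of the powers of `g`. -/
private noncomputable def ml_bas : Module.Basis (Fin p) L M :=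
  haveI : Nonempty (Fin p) := ⟨⟨0, D.hp.pos⟩⟩
  basisOfLinearIndependentOfCardEqFinrank m.gli (by rw [m.rk, Fintype.card_fin])

private theorem ml_bas_apply (j : Fin p) : m.ml_bas j = m.g ^ j.val := by
  have : Nonempty (Fin p) := ⟨⟨0, D.hp.pos⟩⟩
  exact congrFun (coe_basisOfLinearIndependentOfCardEqFinrank m.gli
    (by rw [m.rk, Fintype.card_fin])) j

theorem cm_det [PerfectField L] : m.cm.det ≠ 0 := by
  have h := m.eps_mat_det m.ml_bas
  simp only [ml_bas_apply] at h
  exact h

theorem exists_gF [PerfectField L] : ∃ g' : Matrix (Fin p) (Fin p) F,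
    m.cm * g'.map (algebraMap F (AlgebraicClosure L)) = Matrix.diagonal m.T.e * m.cm := by
  have h1 : ∀ j : Fin p, ∑ k, m.ml_bas.repr (m.g * m.g ^ j.val) k • m.ml_bas k =
      m.g * m.g ^ j.val := fun j => m.ml_bas.sum_repr _
  have h2 : ∀ (j k : Fin p), D.s (m.ml_bas.repr (m.g * m.g ^ j.val) k) =
      m.ml_bas.repr (m.g * m.g ^ j.val) k := by
    intro j k
    have h3 : ∑ k, D.s (m.ml_bas.repr (m.g * m.g ^ j.val) k) • m.ml_bas k =
        m.g * m.g ^ j.val := by
      have h4 := congrArg m.s' (h1 j)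
      rw [map_sum, map_mul m.s', map_pow m.s', m.s_g] at h4
      refine Eq.trans (Finset.sum_congr rfl fun k _ => ?_) h4
      rw [Algebra.smul_def, Algebra.smul_def, map_mul m.s', m.s_alg, ml_bas_apply, map_pow m.s', m.s_g]
    have h5 := m.ml_bas.repr_sum_self (fun k => D.s (m.ml_bas.repr (m.g * m.g ^ j.val) k))
    rw [h3] at h5
    exact (congrFun h5 k).symm
  have h3 : ∀ j k : Fin p, ∃ c : F, algebraMap F L c = m.ml_bas.repr (m.g * m.g ^ j.val) k :=
    fun j k => D.fix _ (h2 j k)
  choose g' hg' using h3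
  refine ⟨Matrix.of fun k j => g' j k, ?_⟩
  ext i j
  rw [Matrix.mul_apply, Matrix.diagonal_mul]
  have h4 : m.T.e i * m.cm i j = m.eps i (m.g * m.g ^ j.val) := by
    rw [map_mul]
    rfl
  rw [h4, ← h1 j, map_sum]
  refine Finset.sum_congr rfl fun k _ => ?_
  rw [map_smul, Algebra.smul_def, ml_bas_apply, Matrix.map_apply, Matrix.of_apply,
    IsScalarTower.algebraMap_apply F L (AlgebraicClosure L), hg', mul_comm]
  rfl

end MD

end Pool.Agent.MSX
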