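import Pool.Agent.MSX.SkN

/-! # Skolem-Noether for elements with the same irreducible polynomial

PROOF.

* `skolem`.  Let `χ = ∑ a_k X^k`, `a_p = 1`.  For a matrix `Y` put `P_j = ∑_{k > j} a_k δ^(k-1-j)` (so `P_{p-1} = 1`) and `Z(Y) = ∑_{j<p} P_j Y γ^j`.  Then
  `δ Z(Y) - Z(Y) γ = ∑_k a_k (δ^k Y - Y γ^k) = χ(δ) Y - Y χ(γ) = 0`.  There is `Y` with `Z(Y) ≠ 0`: otherwise, for `Y` the elementary matrix `(a, c)`,
  `∑_j (P_j) i a * (γ^j) c d = 0` for all `i, a, c, d`, so `∑_j (P_j) i a • γ^j = 0` for all `i, a`, so all `P_j = 0` by `pow_indep`, but `P_{p-1} = 1`.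
  So `Z := Z(Y) ≠ 0` and `Z γ = δ Z`.  Let `Θ(Z) = B s(Z) B⁻¹` (`B = Bp n`); `Θ` is additive, `Θ(l Z) = s(l) Θ(Z)`, `Θ(Z) γ = δ Θ(Z)` (because `B s(γ) B⁻¹ = γ`, `B s(δ) B⁻¹ = δ`), and
  `Θ^p(Z) = b^n Z b^(-n) = Z` (`itM s B p = b^n`, `bp_iter`: `Θ^k(Z) = (itM s B k) s^k(Z) (itM s B k)⁻¹`).  Choose an entry `(i, j)` with `Z i j ≠ 0`; by `ex_ne` (Hil) with the coefficients
  `(Θ^k(Z)) i j`, `k < p`, there is `c` in `L` with `∑_{k<p} s^k(c) (Θ^k(Z)) i j ≠ 0`, so `g := ∑_{k<p} Θ^k(c Z) ≠ 0`; `Θ(g) = g`, i.e. `g * B = B * s(g)`, `g γ = δ g`.  `cn_unit`.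
-/

set_option autoImplicit false

namespace Pool.Agent.MSX

universe u

variable {p : ℕ} {F L : Type u} [Field F] [Field L] [Algebra F L] (D : Dat p F L)

namespace Dat

/-- `∑_{j<k} δ^(k-1-j) Y γ^j` -/
private def skmT (δ Y γ : Matrix (Fin p) (Fin p) L) : ℕ → Matrix (Fin p) (Fin p) L
  | 0 => 0
  | k + 1 => δ * skmT δ Y γ k + Y * γ ^ k

private theorem skmT_eq (δ Y γ : Matrix (Fin p) (Fin p) L) (k : ℕ) :
    δ * skmT δ Y γ k - skmT δ Y γ k * γ = δ ^ k * Y - Y * γ ^ k := by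
  induction k with
  | zero =>
    show δ * 0 - 0 * γ = _
    rw [mul_zero, zero_mul, pow_zero, pow_zero, one_mul, mul_one, sub_self, sub_self]
  | succ k ih =>
    show δ * (δ * skmT δ Y γ k + Y * γ ^ k) - (δ * skmT δ Y γ k + Y * γ ^ k) * γ = _
    have h1 : δ * (δ * skmT δ Y γ k + Y * γ ^ k) - (δ * skmT δ Y γ k + Y * γ ^ k) * γ =
        δ * (δ * skmT δ Y γ k - skmT δ Y γ k * γ) + δ * (Y * γ ^ k) - Y * (γ ^ k * γ) := by
      noncomm_ring
    rw [h1, ih, pow_succ' δ, pow_succ γ]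
    noncomm_ring

private theorem skmT_sum (δ Y γ : Matrix (Fin p) (Fin p) L) (k : ℕ) :
    skmT δ Y γ k = ∑ j ∈ Finset.range k, δ ^ (k - 1 - j) * Y * γ ^ j := by
  induction k with
  | zero => rfl
  | succ k ih =>
    show δ * skmT δ Y γ k + Y * γ ^ k = _
    rw [Finset.sum_range_succ, ih, Finset.mul_sum]
    congr 1
    · refine Finset.sum_congr rfl fun j hj => ?_
      rw [Finset.mem_range] at hj
      rw [← mul_assoc, ← mul_assoc, ← pow_succ']
      congr 3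
      omega
    · rw [Nat.add_sub_cancel, Nat.sub_self, pow_zero, one_mul]

/-- the intertwiner made of `Y` -/
private noncomputable def skmZ (χ : Polynomial F) (δ Y γ : Matrix (Fin p) (Fin p) L) :
    Matrix (Fin p) (Fin p) L :=
  ∑ k ∈ Finset.range (χ.natDegree + 1), χ.coeff k • skmT δ Y γ k

private theorem skmZ_comm (χ : Polynomial F) (δ Y γ : Matrix (Fin p) (Fin p) L)
    (h0 : Polynomial.aeval γ χ = 0) (h1 : Polynomial.aeval δ χ = 0) :
    skmZ χ δ Y γ * γ = δ * skmZ χ δ Y γ := by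
  have h2 : δ * skmZ χ δ Y γ - skmZ χ δ Y γ * γ =
      Polynomial.aeval δ χ * Y - Y * Polynomial.aeval γ χ := by
    rw [skmZ, Finset.mul_sum, Finset.sum_mul, ← Finset.sum_sub_distrib,
      Polynomial.aeval_eq_sum_range, Polynomial.aeval_eq_sum_range, Finset.sum_mul,
      Finset.mul_sum, ← Finset.sum_sub_distrib]
    refine Finset.sum_congr rfl fun k _ => ?_
    rw [mul_smul_comm, smul_mul_assoc, ← smul_sub, skmT_eq, smul_sub, smul_mul_assoc,
      mul_smul_comm]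
  rw [h0, h1, zero_mul, mul_zero, sub_self] at h2
  exact (sub_eq_zero.1 h2).symm

/-- coefficients -/
private noncomputable def skmP (χ : Polynomial F) (δ : Matrix (Fin p) (Fin p) L) (j : ℕ) :
    Matrix (Fin p) (Fin p) L :=
  ∑ k ∈ Finset.Ico (j + 1) (χ.natDegree + 1), χ.coeff k • δ ^ (k - 1 - j)

private theorem skmZ_eq (χ : Polynomial F) (δ Y γ : Matrix (Fin p) (Fin p) L) :
    skmZ χ δ Y γ = ∑ j ∈ Finset.range χ.natDegree, skmP χ δ j * Y * γ ^ j := by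
  have h1 : skmZ χ δ Y γ = ∑ k ∈ Finset.range (χ.natDegree + 1), ∑ j ∈ Finset.range k,
      χ.coeff k • (δ ^ (k - 1 - j) * Y * γ ^ j) := by
    unfold skmZ
    refine Finset.sum_congr rfl fun k _ => ?_
    rw [skmT_sum, Finset.smul_sum]
  rw [h1, Finset.sum_comm' (t' := Finset.range χ.natDegree)
    (s' := fun j => Finset.Ico (j + 1) (χ.natDegree + 1)) (fun k j => by
      rw [Finset.mem_range, Finset.mem_range, Finset.mem_Ico, Finset.mem_range]
      omega)]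
  refine Finset.sum_congr rfl fun j _ => ?_
  rw [skmP, Finset.sum_mul, Finset.sum_mul]
  refine Finset.sum_congr rfl fun k _ => ?_
  rw [smul_mul_assoc, smul_mul_assoc]

private theorem skm_ex (n : ℤ) {γ δ : Matrix (Fin p) (Fin p) L} (hγ : γ ∈ D.Cn (D.Bp n))
    {χ : Polynomial F} (hm : χ.Monic) (hi : Irreducible χ) (hd : χ.natDegree = p)
    (h0 : Polynomial.aeval γ χ = 0) : ∃ Y, skmZ χ δ Y γ ≠ 0 := by
  by_contra hcon
  push Not at hcon
  have hp := D.hp.pos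
  have hli := D.pow_indep n hγ hm hi hd h0
  rw [Fintype.linearIndependent_iff] at hli
  obtain ⟨i0⟩ : Nonempty (Fin p) := ⟨⟨0, hp⟩⟩
  have h2 : ∑ j : Fin p, (skmP χ δ j.val i0 i0) • γ ^ j.val = 0 := by
    ext c d
    obtain ⟨Y, hY⟩ : ∃ Y : Matrix (Fin p) (Fin p) L,
      Y = Matrix.vecMulVec (Pi.single i0 1) (Pi.single c 1) := ⟨_, rfl⟩
    have h3 := congrArg (fun M : Matrix (Fin p) (Fin p) L => M i0 d) (hcon Y)
    simp only [skmZ_eq, hd, Matrix.sum_apply, Matrix.zero_apply] at h3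
    rw [Matrix.sum_apply, Matrix.zero_apply]
    rw [← Fin.sum_univ_eq_sum_range (fun j => ((skmP χ δ j * Y * γ ^ j :
      Matrix (Fin p) (Fin p) L)) i0 d)] at h3
    refine Eq.trans (Finset.sum_congr rfl fun j _ => ?_) h3
    rw [hY, Matrix.mul_vecMulVec, Matrix.vecMulVec_mul, Matrix.vecMulVec_apply,
      Matrix.mulVec_single_one, Matrix.single_one_vecMul, Matrix.smul_apply, smul_eq_mul]
    rfl
  have h4 := hli _ h2 ⟨p - 1, by omega⟩
  have h5 : skmP χ δ (p - 1) = 1 := by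
    unfold skmP
    have e1 : p - 1 + 1 = p := by omega
    rw [hd, e1, Nat.Ico_succ_singleton, Finset.sum_singleton, Nat.sub_self, pow_zero]
    have h6 : χ.coeff p = 1 := by
      have := hm.coeff_natDegree
      rwa [hd] at this
    rw [h6, one_smul]
  rw [h5, Matrix.one_apply_eq] at h4
  exact one_ne_zero h4

/-- the semilinear operator on matrices -/
private noncomputable def skmO (B : Matrix (Fin p) (Fin p) L) (Z : Matrix (Fin p) (Fin p) L) :
    Matrix (Fin p) (Fin p) L := B * Z.map D.s * B⁻¹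

private theorem skmO_smul (B : Matrix (Fin p) (Fin p) L) (c : L) (Z : Matrix (Fin p) (Fin p) L) :
    D.skmO B (c • Z) = D.s c • D.skmO B Z := by
  unfold skmO
  have h1 : (c • Z).map D.s = D.s c • Z.map D.s := by
    ext i j
    simp
  rw [h1, mul_smul_comm, smul_mul_assoc]

private theorem skmO_sum (B : Matrix (Fin p) (Fin p) L) (t : Finset ℕ)
    (Z : ℕ → Matrix (Fin p) (Fin p) L) :
    D.skmO B (∑ k ∈ t, Z k) = ∑ k ∈ t, D.skmO B (Z k) := by
  unfold skmO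
  have h1 : (∑ k ∈ t, Z k).map D.s = ∑ k ∈ t, (Z k).map D.s := by
    ext i j
    rw [Matrix.map_apply, Matrix.sum_apply, Matrix.sum_apply, map_sum]
    rfl
  rw [h1, Finset.mul_sum, Finset.sum_mul]

private theorem skmO_iter_smul (B : Matrix (Fin p) (Fin p) L) (k : ℕ) (c : L)
    (Z : Matrix (Fin p) (Fin p) L) :
    (D.skmO B)^[k] (c • Z) = (⇑D.s.toRingEquiv)^[k] c • (D.skmO B)^[k] Z := by
  induction k with
  | zero => rfl
  | succ k ih =>
    rw [Function.iterate_succ_apply', ih, skmO_smul, Function.iterate_succ_apply' (D.skmO B),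
      Function.iterate_succ_apply' (⇑D.s.toRingEquiv)]
    rfl

private theorem skmO_comm {B γ δ Z : Matrix (Fin p) (Fin p) L} (hB : B.det ≠ 0)
    (hγ : γ ∈ D.Cn B) (hδ : δ ∈ D.Cn B) (h : Z * γ = δ * Z) :
    D.skmO B Z * γ = δ * D.skmO B Z := by
  have hu : IsUnit B.det := isUnit_iff_ne_zero.2 hB
  have g1 : γ * B = B * γ.map D.s := hγ
  have d1 : δ * B = B * δ.map D.s := hδ
  have g2 : B⁻¹ * γ = γ.map D.s * B⁻¹ := by
    calc B⁻¹ * γ = B⁻¹ * (γ * B) * B⁻¹ := by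
          rw [Matrix.mul_assoc, Matrix.mul_assoc γ, Matrix.mul_nonsing_inv B hu, Matrix.mul_one]
      _ = γ.map D.s * B⁻¹ := by
          rw [g1, ← Matrix.mul_assoc, Matrix.nonsing_inv_mul B hu, Matrix.one_mul]
  have h2 : Z.map D.s * γ.map D.s = δ.map D.s * Z.map D.s := by
    rw [← D.an_map_mul, ← D.an_map_mul, h]
  unfold skmO
  calc B * Z.map D.s * B⁻¹ * γ = B * (Z.map D.s * γ.map D.s) * B⁻¹ := by
        rw [Matrix.mul_assoc, g2]
        simp only [Matrix.mul_assoc]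
    _ = (δ * B) * Z.map D.s * B⁻¹ := by
        rw [h2, d1]
        simp only [Matrix.mul_assoc]
    _ = δ * (B * Z.map D.s * B⁻¹) := by simp only [Matrix.mul_assoc]

private theorem skmO_iter_comm {B γ δ Z : Matrix (Fin p) (Fin p) L} (hB : B.det ≠ 0)
    (hγ : γ ∈ D.Cn B) (hδ : δ ∈ D.Cn B) (h : Z * γ = δ * Z) (k : ℕ) :
    (D.skmO B)^[k] Z * γ = δ * (D.skmO B)^[k] Z := by
  induction k with
  | zero => exact h
  | succ k ih =>
    rw [Function.iterate_succ_apply']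
    exact D.skmO_comm hB hγ hδ ih

private theorem skm_map_iter (Z : Matrix (Fin p) (Fin p) L) (k : ℕ) :
    (Z.map (⇑(D.s ^ k))).map D.s = Z.map (⇑(D.s ^ (k + 1))) := by
  ext i j
  rw [Matrix.map_apply, Matrix.map_apply, Matrix.map_apply, pow_succ']
  rfl

private theorem skmO_itM {B : Matrix (Fin p) (Fin p) L} (hB : B.det ≠ 0)
    (Z : Matrix (Fin p) (Fin p) L) (k : ℕ) :
    (D.skmO B)^[k] Z * itM D.s.toRingEquiv B k =
      itM D.s.toRingEquiv B k * Z.map (⇑(D.s ^ k)) := by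
  have hu : IsUnit B.det := isUnit_iff_ne_zero.2 hB
  induction k with
  | zero =>
    show Z * 1 = 1 * Z.map _
    rw [Matrix.mul_one, Matrix.one_mul]
    ext i j
    rfl
  | succ k ih =>
    rw [Function.iterate_succ_apply']
    show B * ((D.skmO B)^[k] Z).map D.s * B⁻¹ * (B * (itM D.s.toRingEquiv B k).map D.s) =
      B * (itM D.s.toRingEquiv B k).map D.s * Z.map (⇑(D.s ^ (k + 1)))
    calc B * ((D.skmO B)^[k] Z).map D.s * B⁻¹ * (B * (itM D.s.toRingEquiv B k).map D.s)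
        = B * ((D.skmO B)^[k] Z).map D.s * (B⁻¹ * B) * (itM D.s.toRingEquiv B k).map D.s := by
          simp only [Matrix.mul_assoc]
      _ = B * (((D.skmO B)^[k] Z).map D.s * (itM D.s.toRingEquiv B k).map D.s) := by
          rw [Matrix.nonsing_inv_mul B hu, Matrix.mul_one, Matrix.mul_assoc]
      _ = _ := by
          rw [← D.an_map_mul, ih, D.an_map_mul, D.skm_map_iter, Matrix.mul_assoc]

private theorem skmO_p (n : ℤ) (Z : Matrix (Fin p) (Fin p) L) :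
    (D.skmO (D.Bp n))^[p] Z = Z := by
  have h1 := D.skmO_itM (D.bp_det n) Z p
  have h2 : Z.map (⇑(D.s ^ p)) = Z := by
    ext i j
    exact D.s_pow _
  rw [h2, D.bp_iter, mul_smul_comm, smul_mul_assoc, mul_one, one_mul] at h1
  have h3 : D.bL ^ n ≠ 0 := zpow_ne_zero _ D.bL_ne
  ext i j
  have h4 := congrFun (congrFun h1 i) j
  rw [Matrix.smul_apply, Matrix.smul_apply, smul_eq_mul, smul_eq_mul] at h4
  exact mul_left_cancel₀ h3 h4

theorem skolem (hD : D.Div) {n : ℤ} (hn : ¬ (p : ℤ) ∣ n) {γ δ : Matrix (Fin p) (Fin p) L}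
    (hγ : γ ∈ D.Cn (D.Bp n)) (hδ : δ ∈ D.Cn (D.Bp n)) {χ : Polynomial F} (hm : χ.Monic)
    (hi : Irreducible χ) (hd : χ.natDegree = p) (h0 : Polynomial.aeval γ χ = 0)
    (h1 : Polynomial.aeval δ χ = 0) :
    ∃ g : Matrix (Fin p) (Fin p) L, g ∈ D.Cn (D.Bp n) ∧ g.det ≠ 0 ∧ g * γ = δ * g := by
  have hB := D.bp_det n
  have hu : IsUnit (D.Bp n).det := isUnit_iff_ne_zero.2 hB
  obtain ⟨Y, hY⟩ := D.skm_ex (δ := δ) n hγ hm hi hd h0
  have hZ := skmZ_comm χ δ Y γ h0 h1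
  obtain ⟨Z, hZe⟩ : ∃ Z, Z = skmZ χ δ Y γ := ⟨_, rfl⟩
  rw [← hZe] at hY hZ
  obtain ⟨i, j, hij⟩ : ∃ i j, Z i j ≠ 0 := by
    by_contra hcon
    push Not at hcon
    exact hY (Matrix.ext hcon)
  obtain ⟨c, hc⟩ := ex_ne D.s.toRingEquiv p D.hp.pos (of_prime D.s.toRingEquiv p D.hp
    (fun x => by
      have h := D.s_pow x
      rw [D.std_pow] at h
      exact h)
    (fun h => D.s_ne (by
      ext x
      exact congrArg (fun f : L ≃+* L => f x) h)))
    (fun k => ((D.skmO (D.Bp n))^[k] Z) i j) hij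
  obtain ⟨g, hg⟩ : ∃ g, g = ∑ k ∈ Finset.range p, (D.skmO (D.Bp n))^[k] (c • Z) := ⟨_, rfl⟩
  have hg0 : g ≠ 0 := by
    intro h2
    apply hc
    have h3 := congrFun (congrFun (hg.symm.trans h2) i) j
    rw [Matrix.sum_apply, Matrix.zero_apply] at h3
    refine Eq.trans (Finset.sum_congr rfl fun k _ => ?_) h3
    rw [D.skmO_iter_smul, Matrix.smul_apply, smul_eq_mul, mul_comm]
  have hgO : D.skmO (D.Bp n) g = g := by
    rw [hg, D.skmO_sum]
    ext a d
    rw [Matrix.sum_apply, Matrix.sum_apply]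
    have h4 := shift_sum p (fun k => ((D.skmO (D.Bp n))^[k] (c • Z)) a d)
      (by rw [D.skmO_p n]; rfl)
    refine Eq.trans (Finset.sum_congr rfl fun k _ => ?_) h4
    rw [Function.iterate_succ_apply']
  have hgc : g ∈ D.Cn (D.Bp n) := by
    show g * D.Bp n = D.Bp n * g.map D.s
    conv_lhs => rw [← hgO]
    show D.Bp n * g.map D.s * (D.Bp n)⁻¹ * D.Bp n = _
    rw [Matrix.mul_assoc, Matrix.nonsing_inv_mul _ hu, Matrix.mul_one]
  refine ⟨g, hgc, D.cn_unit hD hn hgc hg0, ?_⟩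
  rw [hg, Finset.sum_mul, Finset.mul_sum]
  refine Finset.sum_congr rfl fun k _ => ?_
  refine D.skmO_iter_comm hB hγ hδ ?_ k
  rw [smul_mul_assoc, hZ, mul_smul_comm]

end Dat

end Pool.Agent.MSX
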