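import Pool.Agent.MSX.Orb

/-! # Powers are independent over `L`

PROOFS.

* `cn_minpoly`.  Let `μ = minpoly L X`.  `s(μ)` (coefficients mapped by `s`) annihilates `s(X)` (apply the ring homomorphism `s` entrywise,
  `D.s.toRingEquiv.mapMatrix` or `RingHom.mapMatrix`, to `μ(X) = 0`), and `X = B s(X) B⁻¹`, so `s(μ)(X) = 0`; it is monic of the same degree, so `s(μ) = μ`
  (`minpoly.unique'` / `μ ∣ s(μ)`).  So all coefficients of `μ` lie in `F` (`D.fix`): `μ = μ0.map (algebraMap F L)` and `aeval X μ0 = 0`.  `χ` is irreducible: if `χ ∤ μ0` then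
  `a χ + c μ0 = 1`, and `1 = 0` in the ring of `p × p` matrices, a contradiction (`p > 0`).  So `χ ∣ μ0`; and `μ ∣ χ.map` because `χ(X) = 0`.  Both are monic, so `μ = χ.map`.

* `pow_indep`: `linearIndependent_pow L X` with `cn_minpoly` (`natDegree (χ.map) = natDegree χ = p`).

* `cn_charpoly_eq`: `minpoly L X ∣ X.charpoly` (`Matrix.minpoly_dvd_charpoly`), both are monic of degree `p`.
-/

set_option autoImplicit false

namespace Pool.Agent.MSX

universe u

variable {p : ℕ} {F L : Type u} [Field F] [Field L] [Algebra F L] (D : Dat p F L)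

private theorem skn_conj {A : Type u} [Ring A] [Algebra L A] {B X Y : A} (h : X * B = B * Y)
    (q : Polynomial L) : Polynomial.aeval X q * B = B * Polynomial.aeval Y q := by
  have hp : ∀ k : ℕ, X ^ k * B = B * Y ^ k := by
    intro k
    induction k with
    | zero => rw [pow_zero, pow_zero, one_mul, mul_one]
    | succ k ih => rw [pow_succ, pow_succ, mul_assoc, h, ← mul_assoc, ih, mul_assoc]
  induction q using Polynomial.induction_on' with
  | add a b ha hb => rw [map_add, map_add, add_mul, mul_add, ha, hb]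
  | monomial k a =>
    rw [Polynomial.aeval_monomial, Polynomial.aeval_monomial, mul_assoc, hp, ← mul_assoc,
      Algebra.commutes a B, mul_assoc]

private theorem skn_eq {K : Type u} [Field K] {f g : Polynomial K} (hf : f.Monic) (hg : g.Monic)
    (h : f ∣ g) (hd : g.natDegree ≤ f.natDegree) : f = g := by
  obtain ⟨c, rfl⟩ := h
  have hc : c.Monic := hf.of_mul_monic_left hg
  rw [hf.natDegree_mul hc] at hd
  have h0 : c.natDegree = 0 := by omega
  rw [hc.natDegree_eq_zero.1 h0, mul_one]

namespace Dat

private theorem skn_lift (n : ℤ) {X : Matrix (Fin p) (Fin p) L} (hX : X ∈ D.Cn (D.Bp n)) :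
    ∃ μ0 : Polynomial F, μ0.map (algebraMap F L) = minpoly L X := by
  have hint : IsIntegral L X := IsIntegral.of_finite L X
  have hB := D.bp_det n
  rw [mem_cn] at hX
  have hu : IsUnit (D.Bp n).det := isUnit_iff_ne_zero.2 hB
  have e1 : Polynomial.aeval (X.map D.s) ((minpoly L X).map ((D.s : L ≃+* L) : L →+* L)) = 0 := by
    have h1 := Polynomial.map_aeval_eq_aeval_map (φ := ((D.s : L ≃+* L) : L →+* L))
      (ψ := ((D.s : L ≃+* L) : L →+* L).mapMatrix (m := Fin p)) (by
        refine RingHom.ext fun c => ?_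
        refine Matrix.ext fun i j => ?_
        rw [RingHom.comp_apply, RingHom.comp_apply, RingHom.mapMatrix_apply, Matrix.map_apply,
          Matrix.algebraMap_matrix_apply, Matrix.algebraMap_matrix_apply]
        by_cases hij : i = j
        · rw [if_pos hij, if_pos hij]
          rfl
        · rw [if_neg hij, if_neg hij, map_zero]) (minpoly L X) X
    rw [minpoly.aeval, map_zero] at h1
    exact h1.symm
  have e2 := skn_conj (L := L) hX ((minpoly L X).map ((D.s : L ≃+* L) : L →+* L))
  rw [e1, mul_zero] at e2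
  have e3 : Polynomial.aeval X ((minpoly L X).map ((D.s : L ≃+* L) : L →+* L)) = 0 := by
    have h2 := congrArg (fun Z => Z * (D.Bp n)⁻¹) e2
    simp only [zero_mul] at h2
    rwa [mul_assoc, Matrix.mul_nonsing_inv _ hu, mul_one] at h2
  have e4 : minpoly L X = (minpoly L X).map ((D.s : L ≃+* L) : L →+* L) :=
    skn_eq (minpoly.monic hint) ((minpoly.monic hint).map _) (minpoly.dvd L X e3)
      (Polynomial.natDegree_map_le)
  have h3 : minpoly L X ∈ Polynomial.lifts (algebraMap F L) := by
    rw [Polynomial.lifts_iff_coeff_lifts]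
    intro n
    apply D.fix
    have h4 := congrArg (fun q : Polynomial L => q.coeff n) e4
    simp only [Polynomial.coeff_map] at h4
    exact h4.symm
  exact (Polynomial.mem_lifts _).1 h3

theorem cn_minpoly (n : ℤ) {X : Matrix (Fin p) (Fin p) L} (hX : X ∈ D.Cn (D.Bp n)) {χ : Polynomial F}
    (hm : χ.Monic) (hi : Irreducible χ) (h0 : Polynomial.aeval X χ = 0) :
    minpoly L X = χ.map (algebraMap F L) := by
  have := NeZero.of_pos D.hp.pos
  have hint : IsIntegral L X := IsIntegral.of_finite L X
  obtain ⟨μ0, hμ⟩ := D.skn_lift n hX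
  have h1 : Polynomial.aeval X μ0 = 0 := by
    rw [← Polynomial.aeval_map_algebraMap L, hμ, minpoly.aeval]
  have h2 : χ ∣ μ0 := by
    by_contra h
    obtain ⟨a, c, hac⟩ := (hi.coprime_iff_not_dvd).2 h
    have h3 := congrArg (Polynomial.aeval X) hac
    rw [map_add, map_mul, map_mul, h0, h1, mul_zero, mul_zero, add_zero, map_one] at h3
    exact zero_ne_one h3
  have h4 : χ.map (algebraMap F L) ∣ minpoly L X := by
    rw [← hμ]
    exact Polynomial.map_dvd _ h2
  have h5 : minpoly L X ∣ χ.map (algebraMap F L) := by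
    apply minpoly.dvd
    rw [Polynomial.aeval_map_algebraMap, h0]
  exact Polynomial.eq_of_monic_of_associated (minpoly.monic hint) (hm.map _) (associated_of_dvd_dvd h5 h4)

theorem pow_indep (n : ℤ) {X : Matrix (Fin p) (Fin p) L} (hX : X ∈ D.Cn (D.Bp n)) {χ : Polynomial F}
    (hm : χ.Monic) (hi : Irreducible χ) (hd : χ.natDegree = p) (h0 : Polynomial.aeval X χ = 0) :
    LinearIndependent L (fun j : Fin p => X ^ j.val) := by
  have h1 := linearIndependent_pow (K := L) X
  have h2 : (minpoly L X).natDegree = p := by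
    rw [D.cn_minpoly n hX hm hi h0, Polynomial.natDegree_map, hd]
  rw [h2] at h1
  exact h1

theorem cn_charpoly_eq (n : ℤ) {X : Matrix (Fin p) (Fin p) L} (hX : X ∈ D.Cn (D.Bp n)) {χ : Polynomial F}
    (hm : χ.Monic) (hi : Irreducible χ) (hd : χ.natDegree = p) (h0 : Polynomial.aeval X χ = 0) :
    X.charpoly = χ.map (algebraMap F L) := by
  rw [← D.cn_minpoly n hX hm hi h0]
  have hint : IsIntegral L X := IsIntegral.of_finite L X
  refine (skn_eq (minpoly.monic hint) (Matrix.charpoly_monic X) (Matrix.minpoly_dvd_charpoly X) ?_).symm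
  rw [Matrix.charpoly_natDegree_eq_dim, Fintype.card_fin, D.cn_minpoly n hX hm hi h0,
    Polynomial.natDegree_map, hd]

end Dat

end Pool.Agent.MSX
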