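import Pool.Agent.MSX.TGood
import Pool.Agent.MSX.AnB

/-! # Split data of an automorphism of the standard object (`p ∤ n`)

`D.Split n g T` (`g` a matrix commuting with the operator of `Bp n`, `T` a system of pairs (element, linear form)): the matrix `g` is diagonalised
over the algebraic closure of `L` by `V`, with eigenvalues `T.e`; `g'` is a matrix over `F` with the same eigenvalues, diagonalised by `C`; and
`G = V diag (l_i^(-n)) C` (formally: after every specialisation `a, f`) is a matrix of invariant vectors of degree `n` over `Q`.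

PROOFS.

* `exists_stS`: `IsAlgClosure.equivOfEquiv (AlgebraicClosure L) (AlgebraicClosure L) D.s.toRingEquiv` and its compatibility lemma.

* `gp_rx`, `bp_gp`, `gp_det`, `gp_deg`: from `bm_gm`, `gm_det`, `gm_deg` by transport along `Fin (dm p n) = Fin p`: `rx h (D.Gm n) = D.Gp n` entrywise
  (`D.ix n i` has the value `i.val % p = i.val`); `rx_mul`, `rx_det`, `bm_rx`, `(rx h X).map f = rx h (X.map f)`.

* `SplitD.det`: determinants in `gV`: `det g * det V = det V * ∏ e_i`, `det V ≠ 0` (`RingHom.map_det`).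

* `SplitD.gG`: choose `Ω = AlgebraicClosure (Q p L)`, `f = algebraMap`, `a : AlgebraicClosure L → Ω` an extension of `f ∘ cQ` (`IsAlgClosed.lift` with the algebra structure
  `(f ∘ cQ).toAlgebra`).  By `spec`: `f(g G) = a(g) a(V) diag(l^(-n)) a(C) = a(V) diag(e) diag(l^(-n)) a(C) = a(V) diag(l^(-n)) diag(e) a(C) = a(V) diag(l^(-n)) a(C) g' = f(G g')`
  (`gV`, `Cg`; diagonal matrices commute); `f` is injective.
-/

set_option autoImplicit false

namespace Pool.Agent.MSX

open MvPolynomial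

universe u

variable {p : ℕ} {F L : Type u} [Field F] [Field L] [Algebra F L] (D : Dat p F L)

/-- Split data (see the header). -/
structure SplitD (D : Dat p F L) (n : ℤ) (g : Matrix (Fin p) (Fin p) L) (T : TD p L (Fin p)) where
  V : Matrix (Fin p) (Fin p) (AlgebraicClosure L)
  C : Matrix (Fin p) (Fin p) (AlgebraicClosure L)
  g' : Matrix (Fin p) (Fin p) F
  G : Matrix (Fin p) (Fin p) (Q p L)
  V_det : V.det ≠ 0
  C_det : C.det ≠ 0
  G_det : G.det ≠ 0
  gV : g.map (algebraMap L (AlgebraicClosure L)) * V = V * Matrix.diagonal T.e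
  Cg : C * g'.map (algebraMap F (AlgebraicClosure L)) = Matrix.diagonal T.e * C
  inv : (D.Bp n).map Dat.cQ * G.map D.sigQ = G
  deg : ∀ i j k, G i j * (algebraMap (S p L) (Q p L) (X k)) ^ n ∈ KL p L
  spec : ∀ (Ω : Type u) [Field Ω] (a : AlgebraicClosure L →+* Ω) (f : Q p L →+* Ω),
    (∀ c : L, a (algebraMap L (AlgebraicClosure L) c) = f (Dat.cQ c)) →
    G.map f = V.map a * Matrix.diagonal (fun i =>
      (∑ j, a (T.l i j) * f (algebraMap (S p L) (Q p L) (X j))) ^ (-n)) * C.map a

namespace Dat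

/-- Existence of split data. -/
def Split (n : ℤ) (g : Matrix (Fin p) (Fin p) L) (T : TD p L (Fin p)) : Prop :=
  Nonempty (SplitD D n g T)

theorem exists_stS : ∃ st : AlgebraicClosure L ≃+* AlgebraicClosure L,
    ∀ c : L, st (algebraMap L (AlgebraicClosure L) c) = algebraMap L (AlgebraicClosure L) (D.s c) :=
  ⟨IsAlgClosure.equivOfEquiv (AlgebraicClosure L) (AlgebraicClosure L) D.s.toRingEquiv, fun c =>
    IsAlgClosure.equivOfEquiv_algebraMap (AlgebraicClosure L) (AlgebraicClosure L) D.s.toRingEquiv c⟩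

/-- The invariant vectors of the standard object of degree `n`, indexed by `Fin p`. -/
noncomputable def Gp (n : ℤ) : Matrix (Fin p) (Fin p) (Q p L) := fun i j =>
  (algebraMap (S p L) (Q p L) (X i)) ^ (-n) *
    algebraMap (S p L) (Q p L) (C ((D.s ^ i.val) (D.bas j)))

theorem gp_rx {n : ℤ} (h : ¬ (p : ℤ) ∣ n) : rx h (D.Gm n) = D.Gp n := by
  ext i j
  have h1 : ∀ k : Fin p, D.ix n (Fin.cast (dm_of h).symm k) = k := fun k =>
    Fin.ext (Nat.mod_eq_of_lt k.isLt)
  show D.Gm n (Fin.cast (dm_of h).symm i) (Fin.cast (dm_of h).symm j) = D.Gp n i j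
  rw [D.gm_neg h, h1, h1]
  rfl

theorem bp_gp {n : ℤ} (h : ¬ (p : ℤ) ∣ n) : (D.Bp n).map cQ * (D.Gp n).map D.sigQ = D.Gp n := by
  rw [← D.bm_rx h, ← D.gp_rx h]
  have h1 : (rx h (D.Bm n)).map (cQ (p := p)) = rx h ((D.Bm n).map (cQ (p := p))) := rfl
  have h2 : (rx h (D.Gm n)).map D.sigQ = rx h ((D.Gm n).map D.sigQ) := rfl
  rw [h1, h2, ← rx_mul, D.bm_gm]

theorem gp_det {n : ℤ} (h : ¬ (p : ℤ) ∣ n) : (D.Gp n).det ≠ 0 := by
  rw [← D.gp_rx h, rx_det]
  exact D.gm_det n

theorem gp_deg {n : ℤ} (h : ¬ (p : ℤ) ∣ n) (i j k : Fin p) :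
    D.Gp n i j * (algebraMap (S p L) (Q p L) (X k)) ^ n ∈ KL p L := by
  rw [← D.gp_rx h]
  exact D.gm_deg n (Fin.cast (dm_of h).symm i) (Fin.cast (dm_of h).symm j) k

end Dat

private theorem spld_ext {K : Type u} [Field K] {Ω : Type u} [Field Ω] [IsAlgClosed Ω] (g : K →+* Ω) :
    ∃ a : AlgebraicClosure K →+* Ω, ∀ c : K, a (algebraMap K (AlgebraicClosure K) c) = g c := by
  let _ : Algebra K Ω := g.toAlgebra
  have a : AlgebraicClosure K →ₐ[K] Ω := IsAlgClosed.lift
  exact ⟨a, fun c => a.commutes c⟩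

namespace SplitD

variable {D} {n : ℤ} {g : Matrix (Fin p) (Fin p) L} {T : TD p L (Fin p)}

theorem det (h : SplitD D n g T) : algebraMap L (AlgebraicClosure L) g.det = ∏ i, T.e i := by
  have h1 := congrArg Matrix.det h.gV
  rw [Matrix.det_mul, Matrix.det_mul, Matrix.det_diagonal, mul_comm] at h1
  have h2 := mul_left_cancel₀ h.V_det h1
  rw [← h2]
  exact RingHom.map_det (algebraMap L (AlgebraicClosure L)) g

theorem gG (h : SplitD D n g T) : g.map Dat.cQ * h.G = h.G * (h.g'.map (algebraMap F L)).map Dat.cQ := by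
  let f : Q p L →+* AlgebraicClosure (Q p L) := algebraMap (Q p L) (AlgebraicClosure (Q p L))
  obtain ⟨a, ha⟩ := spld_ext (f.comp Dat.cQ)
  have ha' : ∀ c : L, a (algebraMap L (AlgebraicClosure L) c) = f (Dat.cQ c) := ha
  apply Matrix.map_injective f.injective
  show (g.map Dat.cQ * h.G).map f = (h.G * (h.g'.map (algebraMap F L)).map Dat.cQ).map f
  rw [Matrix.map_mul, Matrix.map_mul, h.spec _ a f ha']
  have e1 : (g.map Dat.cQ).map f = (g.map (algebraMap L (AlgebraicClosure L))).map a := by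
    ext i j
    exact (ha' (g i j)).symm
  have e2 : ((h.g'.map (algebraMap F L)).map Dat.cQ).map f =
      (h.g'.map (algebraMap F (AlgebraicClosure L))).map a := by
    ext i j
    show f (Dat.cQ (algebraMap F L (h.g' i j))) = a (algebraMap F (AlgebraicClosure L) (h.g' i j))
    rw [IsScalarTower.algebraMap_apply F L (AlgebraicClosure L), ha']
  have e3 : (g.map (algebraMap L (AlgebraicClosure L))).map a * h.V.map a =
      h.V.map a * (Matrix.diagonal T.e).map a := by
    rw [← Matrix.map_mul, h.gV, Matrix.map_mul]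
  have e4 : h.C.map a * (h.g'.map (algebraMap F (AlgebraicClosure L))).map a =
      (Matrix.diagonal T.e).map a * h.C.map a := by
    rw [← Matrix.map_mul, h.Cg, Matrix.map_mul]
  have e5 : (Matrix.diagonal T.e).map a = Matrix.diagonal (fun i => a (T.e i)) :=
    Matrix.diagonal_map (map_zero a)
  rw [e1, e2, ← Matrix.mul_assoc, ← Matrix.mul_assoc, e3, Matrix.mul_assoc _ (h.C.map a), e4, e5,
    Matrix.mul_assoc (h.V.map a) (Matrix.diagonal _) (Matrix.diagonal _), Matrix.diagonal_mul_diagonal,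
    ← Matrix.mul_assoc _ _ (h.C.map a), Matrix.mul_assoc (h.V.map a) (Matrix.diagonal _) (Matrix.diagonal _),
    Matrix.diagonal_mul_diagonal]
  congr 3
  funext i
  exact mul_comm _ _

end SplitD

end Pool.Agent.MSX
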