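import Pool.Agent.MSX.Lf

/-! # Split data of a cyclic datum

`m.wm Φ` is the matrix of the coordinates of the powers of `g`, `m.gm Φ n = lf^(-n) * wm` (an integral power of an invertible matrix) is the matrix of invariant vectors.  Notation: `B = (Bp n).map cQ`,
`Z = (ml z).map cQ`, `lf = m.lf Φ`, `W = m.wm Φ`; a ring homomorphism applied to an integral power of an invertible matrix is the integral power of the image (`f A * f A⁻¹ = 1`, `Matrix.inv_eq_right_inv`).

PROOFS.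

* `wm_det`: the vectors `Φ (g^j)` form a basis of `Fin p → L` (`m.gli`, `m.rk`, `Φ` an isomorphism), so the determinant of their matrix is not zero (`Matrix.linearIndependent_cols_iff_isUnit` or
  `is_basis_iff_det`); `cQ` is injective.

* `gm_det`: `lf_det`, `wm_det`.

* `gm_inv`: by `lf_sig` `B * lf.map sigQ = Z * lf * B`, and `B` is invertible (`bp_det`), so `B * (lf.map sigQ)^(-n) = (Z * lf)^(-n) * B = Z^(-n) * lf^(-n) * B` (`lf_comm`, `Matrix` integral powers of commuting matrices).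
  The column `j` of `B * W.map sigQ` is `cQ` of `D.tau (Bp n) (Φ (g^j)) = Φ (z^n * s' (g^j)) = Φ (z^n * g^j) = (ml z)^n (Φ (g^j))` (`hΦ`, `s_g`, `ml_mulVec`, `ml` is a ring homomorphism, `map_zpow₀`-like: `ml (z^n) = (ml z)^n`
  since `ml z * ml z⁻¹ = 1`).  So `B * W.map sigQ = Z^n * W` and `B * (gm).map sigQ = Z^(-n) * lf^(-n) * Z^n * W = lf^(-n) * W`.

* `gm_deg`: `(X k)⁻¹ • lf` has entries in `KL` (`lf_kl`) and nonzero determinant, so all its integral powers have entries in the subfield `KL` (it is the image of an invertible matrix over the field `KL`), and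
  `(X k)^n • lf^(-n) = ((X k)⁻¹ • lf)^(-n)`; the entries of `W` are constants, in `KL`.

* `gm_spec`: with `Y = (xm).map a`, `d = diagonal (∑ j, a (l i j) * f (X j))`: `Y * lf.map f = d * Y` (`lf_spec`), `Y` invertible (`xm_det`), so `Y * (lf^(-n)).map f = d^(-n) * Y` (`d` is invertible since `lf` is), and
  `Y * W.map f = (cm).map a` (`xm_mulVec` for `x = g^j`; `f (cQ x) = a x`).  So `Y * (gm).map f = d^(-n) * (cm).map a`, and `d^(-n)` is the diagonal matrix of the powers (`Matrix.diagonal` integral powers of nonzero entries).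

* `split`: assembled below with `V = (xm)⁻¹`; `split_gV`: `ml_eq` gives `ml Φ m.g = g`, then `xm_ml`.
-/

set_option autoImplicit false

namespace Pool.Agent.MSX

open MvPolynomial

universe u

variable {p : ℕ} {F L : Type u} [Field F] [Field L] [Algebra F L]

/-! general facts on integral powers of matrices -/

private theorem splg_unit {R : Type*} [Field R] {A : Matrix (Fin p) (Fin p) R} (hA : A.det ≠ 0) :
    IsUnit A.det := isUnit_iff_ne_zero.2 hA

private theorem splg_map_det {R S : Type*} [Field R] [Field S] (f : R →+* S)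
    {A : Matrix (Fin p) (Fin p) R} (hA : A.det ≠ 0) : (A.map f).det ≠ 0 := by
  have h1 := RingHom.map_det f A
  rw [RingHom.mapMatrix_apply] at h1
  rw [← h1]
  exact (map_ne_zero f).2 hA

private theorem splg_map_inv {R S : Type*} [Field R] [Field S] (f : R →+* S)
    {A : Matrix (Fin p) (Fin p) R} (hA : A.det ≠ 0) : (A⁻¹).map f = (A.map f)⁻¹ := by
  symm
  refine Matrix.inv_eq_right_inv ?_
  rw [← Matrix.map_mul, Matrix.mul_nonsing_inv _ (splg_unit hA)]
  exact map_one f.mapMatrix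

private theorem splg_map_zpow {R S : Type*} [Field R] [Field S] (f : R →+* S)
    {A : Matrix (Fin p) (Fin p) R} (hA : A.det ≠ 0) (n : ℤ) : (A ^ n).map f = (A.map f) ^ n := by
  cases n with
  | ofNat k =>
    rw [Int.ofNat_eq_natCast, zpow_natCast, zpow_natCast]
    exact map_pow f.mapMatrix A k
  | negSucc k =>
    rw [zpow_negSucc, zpow_negSucc, splg_map_inv f (by rw [Matrix.det_pow]; exact pow_ne_zero _ hA)]
    congr 1
    exact map_pow f.mapMatrix A (k + 1)

private theorem splg_hom_unit {K R : Type*} [Field K] [Field R] (φ : K →+* Matrix (Fin p) (Fin p) R)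
    {z : K} (hz : z ≠ 0) : IsUnit (φ z).det := by
  refine Matrix.isUnit_det_of_right_inverse (B := φ z⁻¹) ?_
  rw [← map_mul, mul_inv_cancel₀ hz, map_one]

private theorem splg_hom_zpow {K R : Type*} [Field K] [Field R] (φ : K →+* Matrix (Fin p) (Fin p) R)
    {z : K} (hz : z ≠ 0) (n : ℤ) : φ (z ^ n) = (φ z) ^ n := by
  cases n with
  | ofNat k =>
    rw [Int.ofNat_eq_natCast, zpow_natCast, zpow_natCast, map_pow]
  | negSucc k =>
    rw [zpow_negSucc, zpow_negSucc, ← map_pow]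
    symm
    refine Matrix.inv_eq_right_inv ?_
    rw [← map_mul, mul_inv_cancel₀ (pow_ne_zero _ hz), map_one]

private theorem splg_diag_zpow {R : Type*} [Field R] {v : Fin p → R} (hv : ∀ i, v i ≠ 0) (n : ℤ) :
    (Matrix.diagonal v) ^ n = Matrix.diagonal (fun i => v i ^ n) := by
  cases n with
  | ofNat k =>
    rw [Int.ofNat_eq_natCast, zpow_natCast, Matrix.diagonal_pow]
    congr 1
    funext i
    rw [Pi.pow_apply, zpow_natCast]
  | negSucc k =>
    rw [zpow_negSucc, Matrix.diagonal_pow]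
    refine Matrix.inv_eq_right_inv ?_
    rw [Matrix.diagonal_mul_diagonal, ← Matrix.diagonal_one]
    congr 1
    funext i
    rw [Pi.pow_apply, zpow_negSucc, mul_inv_cancel₀ (pow_ne_zero _ (hv i))]

namespace MD

variable {D : Dat p F L} {M : Type u} [Field M] [Algebra L M] (m : MD D M) (Φ : M ≃ₗ[L] (Fin p → L))

/-- The coordinates of the powers of `g`. -/
noncomputable def wm : Matrix (Fin p) (Fin p) (Q p L) :=
  Matrix.of fun i j => Dat.cQ (Φ (m.g ^ j.val) i)

/-- The invariant vectors. -/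
noncomputable def gm (n : ℤ) : Matrix (Fin p) (Fin p) (Q p L) := (m.lf Φ) ^ (-n) * m.wm Φ

private theorem splg_wm : m.wm Φ =
    (Matrix.of fun i j : Fin p => Φ (m.g ^ j.val) i).map (Dat.cQ (p := p) (L := L)) := rfl

theorem wm_det : (m.wm Φ).det ≠ 0 := by
  rw [splg_wm]
  refine splg_map_det _ ?_
  have h1 : LinearIndependent L (fun j : Fin p => Φ (m.g ^ j.val)) :=
    m.gli.map' Φ.toLinearMap Φ.ker
  have h2 : IsUnit (Matrix.of fun i j : Fin p => Φ (m.g ^ j.val) i) :=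
    Matrix.linearIndependent_cols_iff_isUnit.1 h1
  exact ((Matrix.isUnit_iff_isUnit_det _).1 h2).ne_zero

theorem gm_det [PerfectField L] (n : ℤ) : (m.gm Φ n).det ≠ 0 := by
  unfold gm
  rw [Matrix.det_mul]
  exact mul_ne_zero (IsUnit.det_zpow (splg_unit (m.lf_det Φ)) (-n)).ne_zero (m.wm_det Φ)

/-- `ml` and the constants -/
private noncomputable def splg_phi (Φ : M ≃ₗ[L] (Fin p → L)) : M →+* Matrix (Fin p) (Fin p) (Q p L) :=
  (Dat.cQ (p := p) (L := L)).mapMatrix.comp (ml Φ).toRingHom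

omit [Field F] [Algebra F L] in
private theorem splg_phi_apply (Φ : M ≃ₗ[L] (Fin p → L)) (x : M) :
    splg_phi Φ x = (ml Φ x).map (Dat.cQ (p := p) (L := L)) := rfl

private theorem splg_sig (c : L) : D.sigQ (Dat.cQ c) = Dat.cQ (D.s c) := by
  show D.sigQ (algebraMap (S p L) (Q p L) (C c)) = algebraMap (S p L) (Q p L) (C (D.s c))
  rw [D.sigQ_alg, D.sig_C]

private theorem splg_gm_w {n : ℤ} (hΦ : ∀ x, Φ (m.z ^ n * m.s' x) = D.tau (D.Bp n) (Φ x)) :
    (D.Bp n).map Dat.cQ * (m.wm Φ).map D.sigQ = (splg_phi Φ m.z) ^ n * m.wm Φ := by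
  rw [← splg_hom_zpow _ m.z_ne, splg_phi_apply]
  ext i j
  rw [Matrix.mul_apply, Matrix.mul_apply]
  have h1 : m.s' (m.g ^ j.val) = m.g ^ j.val := by rw [map_pow, m.s_g]
  have h2 := congrFun (hΦ (m.g ^ j.val)) i
  rw [h1, ← ml_mulVec] at h2
  have h3 := congrArg (Dat.cQ (p := p) (L := L)) h2
  have h4 : ∀ v : Fin p → L, D.tau (D.Bp n) v = (D.Bp n).mulVec (fun i => D.s (v i)) := fun v => rfl
  rw [h4, Matrix.mulVec, Matrix.mulVec, dotProduct, dotProduct, map_sum, map_sum] at h3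
  refine Eq.trans (Finset.sum_congr rfl fun k _ => ?_) (h3.symm.trans (Finset.sum_congr rfl fun k _ => ?_))
  · rw [map_mul, Matrix.map_apply, Matrix.map_apply]
    show _ * D.sigQ (Dat.cQ (Φ (m.g ^ j.val) k)) = _
    rw [splg_sig]
  · rw [map_mul, Matrix.map_apply]
    rfl

theorem gm_inv [PerfectField L] {n : ℤ} (hΦ : ∀ x, Φ (m.z ^ n * m.s' x) = D.tau (D.Bp n) (Φ x)) :
    (D.Bp n).map Dat.cQ * (m.gm Φ n).map D.sigQ = m.gm Φ n := by
  have hlf := m.lf_det Φ
  have hZ : IsUnit (splg_phi Φ m.z).det := splg_hom_unit _ m.z_ne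
  have hcm : Commute (splg_phi Φ m.z) (m.lf Φ) := m.lf_comm Φ m.z
  have hmap : (m.gm Φ n).map D.sigQ = ((m.lf Φ).map D.sigQ) ^ (-n) * (m.wm Φ).map D.sigQ := by
    unfold gm
    have h1 := splg_map_zpow (D.sigQ : Q p L →+* Q p L) hlf (-n)
    have h2 := Matrix.map_mul (L := m.lf Φ ^ (-n)) (M := m.wm Φ) (f := (D.sigQ : Q p L →+* Q p L))
    exact h2.trans (congrArg (fun A => A * (m.wm Φ).map D.sigQ) h1)
  have hsc : SemiconjBy ((D.Bp n).map Dat.cQ) ((m.lf Φ).map D.sigQ) (splg_phi Φ m.z * m.lf Φ) :=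
    m.lf_sig Φ hΦ
  have h3 : SemiconjBy ((D.Bp n).map Dat.cQ) (((m.lf Φ).map D.sigQ) ^ (-n))
      ((splg_phi Φ m.z * m.lf Φ) ^ (-n)) :=
    Matrix.SemiconjBy.zpow_right (splg_unit (splg_map_det (D.sigQ : Q p L →+* Q p L) hlf))
      (by rw [Matrix.det_mul]; exact hZ.mul (splg_unit hlf)) hsc (-n)
  rw [hmap, ← mul_assoc, h3.eq, mul_assoc, m.splg_gm_w Φ hΦ, ← mul_assoc,
    (hcm.eq : splg_phi Φ m.z * m.lf Φ = m.lf Φ * splg_phi Φ m.z),
    Matrix.Commute.mul_zpow hcm.symm, mul_assoc (m.lf Φ ^ (-n)), Matrix.zpow_neg_mul_zpow_self n hZ,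
    mul_one]
  rfl

theorem gm_deg [PerfectField L] (n : ℤ) (i j k : Fin p) :
    m.gm Φ n i j * (algebraMap (S p L) (Q p L) (X k)) ^ n ∈ KL p L := by
  have hlf := m.lf_det Φ
  obtain ⟨c, hc⟩ : ∃ c, c = algebraMap (S p L) (Q p L) (X k) := ⟨_, rfl⟩
  have hc0 : c ≠ 0 := by
    rw [hc]
    exact (map_ne_zero_iff _ (IsFractionRing.injective (S p L) (Q p L))).2 (X_ne_zero k)
  rw [← hc]
  -- the matrix over `KL`
  obtain ⟨A', hA'⟩ : ∃ A' : Matrix (Fin p) (Fin p) (KL p L),
      A'.map (KL p L).subtype = Matrix.scalar (Fin p) c⁻¹ * m.lf Φ := by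
    refine ⟨Matrix.of fun i j => ⟨c⁻¹ * m.lf Φ i j, by rw [hc]; exact m.lf_kl Φ i j k⟩, ?_⟩
    ext i j
    rw [Matrix.scalar_apply, Matrix.diagonal_mul]
    rfl
  have hsu : IsUnit (Matrix.scalar (Fin p) c⁻¹).det :=
    splg_hom_unit (Matrix.scalar (Fin p)) (inv_ne_zero hc0)
  have hA0 : A'.det ≠ 0 := by
    intro h0
    have h1 := RingHom.map_det (KL p L).subtype A'
    rw [RingHom.mapMatrix_apply, hA', h0, map_zero, Matrix.det_mul] at h1
    exact mul_ne_zero hsu.ne_zero hlf h1.symm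
  have hcomm : Commute (Matrix.scalar (Fin p) c⁻¹) (m.lf Φ) :=
    Matrix.scalar_commute _ (fun r => Commute.all _ _) _
  have hzp : Matrix.scalar (Fin p) (c ^ n) * (m.lf Φ) ^ (-n) = (A' ^ (-n)).map (KL p L).subtype := by
    rw [splg_map_zpow _ hA0, hA', Matrix.Commute.mul_zpow hcomm,
      ← splg_hom_zpow (Matrix.scalar (Fin p)) (inv_ne_zero hc0), inv_zpow', neg_neg]
  have h1 : m.gm Φ n i j * c ^ n = ∑ l, ((A' ^ (-n)) i l : Q p L) * m.wm Φ l j := by
    unfold gm
    rw [Matrix.mul_apply, Finset.sum_mul]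
    refine Finset.sum_congr rfl fun l _ => ?_
    have h2 := congrFun (congrFun hzp i) l
    rw [Matrix.scalar_apply, Matrix.diagonal_mul, Matrix.map_apply] at h2
    have h3 : ((A' ^ (-n)) i l : Q p L) = c ^ n * (m.lf Φ ^ (-n)) i l := h2.symm
    rw [h3]
    ring
  rw [h1]
  refine sum_mem fun l _ => mul_mem (SetLike.coe_mem _) ?_
  exact ⟨0, C (Φ (m.g ^ j.val) l), 1, isHomogeneous_C _ _, isHomogeneous_one _ _, one_ne_zero, by
    rw [map_one, div_one]
    rfl⟩

theorem gm_spec [PerfectField L] (n : ℤ) (Ω : Type u) [Field Ω] (a : AlgebraicClosure L →+* Ω)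
    (f : Q p L →+* Ω) (ha : ∀ c : L, a (algebraMap L (AlgebraicClosure L) c) = f (Dat.cQ c)) :
    (m.gm Φ n).map f = ((m.xm Φ)⁻¹).map a * Matrix.diagonal (fun i =>
      (∑ j, a (m.T.l i j) * f (algebraMap (S p L) (Q p L) (X j))) ^ (-n)) * m.cm.map a := by
  have hlf := m.lf_det Φ
  have hY := splg_map_det a (m.xm_det Φ)
  have hspec := m.lf_spec Φ Ω a f ha
  obtain ⟨v, hv⟩ : ∃ v : Fin p → Ω, v = fun i =>
      ∑ j, a (m.T.l i j) * f (algebraMap (S p L) (Q p L) (X j)) := ⟨_, rfl⟩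
  rw [← hv] at hspec
  have hg : (Matrix.diagonal fun i =>
      (∑ j, a (m.T.l i j) * f (algebraMap (S p L) (Q p L) (X j))) ^ (-n)) =
      Matrix.diagonal (fun i => v i ^ (-n)) := by
    rw [hv]
  rw [hg]
  have hlf' := splg_map_det f hlf
  have hd : (Matrix.diagonal v).det ≠ 0 := by
    intro h0
    have h1 := congrArg Matrix.det hspec
    rw [Matrix.det_mul, Matrix.det_mul, h0, zero_mul] at h1
    exact mul_ne_zero hY hlf' h1
  have hv0 : ∀ i, v i ≠ 0 := by
    intro i h0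
    apply hd
    rw [Matrix.det_diagonal]
    exact Finset.prod_eq_zero (Finset.mem_univ i) h0
  have hsc : SemiconjBy ((m.xm Φ).map a) ((m.lf Φ).map f) (Matrix.diagonal v) := hspec
  have h3 := Matrix.SemiconjBy.zpow_right (splg_unit hlf') (splg_unit hd) hsc (-n)
  have hw : (m.xm Φ).map a * (m.wm Φ).map f = m.cm.map a := by
    ext i j
    rw [Matrix.mul_apply, Matrix.map_apply]
    have h4 := congrArg a (m.xm_mulVec Φ (m.g ^ j.val) i)
    rw [map_sum] at h4
    refine Eq.trans (Finset.sum_congr rfl fun k _ => ?_) h4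
    rw [map_mul, ha, Matrix.map_apply, Matrix.map_apply]
    rfl
  have hmap : (m.gm Φ n).map f = ((m.lf Φ).map f) ^ (-n) * (m.wm Φ).map f := by
    unfold gm
    rw [Matrix.map_mul, splg_map_zpow f hlf]
  have h5 : (m.xm Φ).map a * (m.gm Φ n).map f = Matrix.diagonal (fun i => v i ^ (-n)) * m.cm.map a := by
    rw [hmap, ← mul_assoc, h3.eq, mul_assoc, hw, splg_diag_zpow hv0]
  rw [splg_map_inv a (m.xm_det Φ), mul_assoc, ← h5, ← mul_assoc, Matrix.nonsing_inv_mul _ (splg_unit hY),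
    one_mul]

theorem split_gV [PerfectField L] {g : Matrix (Fin p) (Fin p) L} (hg : ∀ x, Φ (m.g * x) = g.mulVec (Φ x)) :
    g.map (algebraMap L (AlgebraicClosure L)) * (m.xm Φ)⁻¹ = (m.xm Φ)⁻¹ * Matrix.diagonal m.T.e := by
  have hX := splg_unit (m.xm_det Φ)
  have h1 := m.xm_ml Φ m.g
  rw [ml_eq Φ hg] at h1
  have h2 : g.map (algebraMap L (AlgebraicClosure L)) =
      (m.xm Φ)⁻¹ * (Matrix.diagonal (fun i => m.eps i m.g) * m.xm Φ) := by
    rw [← h1, ← mul_assoc, Matrix.nonsing_inv_mul _ hX, one_mul]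
  rw [h2, mul_assoc, mul_assoc, Matrix.mul_nonsing_inv _ hX, mul_one]
  rfl

theorem split [PerfectField L] {n : ℤ} (hΦ : ∀ x, Φ (m.z ^ n * m.s' x) = D.tau (D.Bp n) (Φ x))
    {g : Matrix (Fin p) (Fin p) L} (hg : ∀ x, Φ (m.g * x) = g.mulVec (Φ x)) : D.Split n g m.T := by
  obtain ⟨g', h'⟩ := m.exists_gF
  exact ⟨{
    V := (m.xm Φ)⁻¹
    C := m.cm
    g' := g'
    G := m.gm Φ n
    V_det := by
      rw [Matrix.det_nonsing_inv, Ring.inverse_eq_inv']
      exact inv_ne_zero (m.xm_det Φ)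
    C_det := m.cm_det
    G_det := m.gm_det Φ n
    gV := m.split_gV Φ hg
    Cg := h'
    inv := m.gm_inv Φ hΦ
    deg := m.gm_deg Φ n
    spec := fun Ω _ a f ha => m.gm_spec Φ n Ω a f ha }⟩

end MD

end Pool.Agent.MSX
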