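import Pool.Agent.MSX.Kz

/-! # Families attached to Galois stable systems of linear forms

A `TD` is a finite family of pairs `(e_i, l_i)`: `e_i` a nonzero element of `Lbar` (the algebraic closure of
`L`), `l_i` a nonzero linear form with coefficients in `Lbar`, permuted (the linear forms up to scalars) by
the Galois group of `L`.  Its family is `P ↦ ∏ e_i` over the `i` such that `l_i` vanishes at `P`; this is an
element of degree zero of `kap P` (`exists_fam`).

PROOFS.

* `exists_nrm`.  `N0 = ∏ i, l_i(x)` in `Lbar[x]` is not zero; divide it by one of its nonzero coefficients; the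
  result `N1` satisfies `w N1 = c N1` for every `w` in the Galois group, and `c = 1` because one coefficient
  of `N1` is `1`.  So all coefficients of `N1` are fixed by the Galois group, so they lie in `L` (`L` perfect;
  `AlgebraicClosure L` is Galois over `L`: `InfiniteGalois.mem_bot_iff_fixed` or
  `IsGalois.mem_bot_iff_fixed`), and `N1` comes from `N` in `S p L`, homogeneous of degree `card ι`.

* `nrm_eval`: apply `eval₂` to `exists_nrm`.

* `exists_fam`.  Let `Ω0 = AlgebraicClosure (k0 P)`, `a0 : Lbar → Ω0` an extension of `L → k0 P` (`const_mem_k0`,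
  `IsAlgClosed.lift`; use it to make `Ω0` an algebra over `Lbar`), `i0` a variable with `P.gen` not dividing `X i0`
  (`exists_var`), `r_j = red (X j) / red (X i0)` in `k0 P`.  Put
  `t0 = ∏ i, if ∑ j, a0 (l i j) * r_j = 0 then a0 (e i) else 1` in `Ω0`.  For `g` in `Ω0 ≃ₐ[k0 P] Ω0` there is `w` in
  `Lbar ≃ₐ[L] Lbar` with `g ∘ a0 = a0 ∘ w` (`AlgEquiv.restrictNormal`, `restrictNormal_commutes`), and
  `gal` for `w` with permutation `π` gives `g t0 = ∏ i, if ∑ j, a0 (l (π i) j) * r_j = 0 then a0 (e (π i)) else 1 = t0`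
  (`g` fixes `r_j`; `Equiv.prod_comp`).  `t0` is separable over `k0 P` (each `e i` is separable over the perfect
  field `L`), so `t0` is in `k0 P` (`notMem_iff_exists_ne_and_isConjRoot`, `isConjRoot_iff_exists_algEquiv`).  Let `t`
  be this element.  Let `Ω, f, a` be given; replace `Ω` by its algebraic closure.  Extend `f` restricted to `k0 P` to
  `f' : Ω0 → Ωbar` (`IsAlgClosed.lift`).  `f' ∘ a0` and `a` are two extensions of `L → Ωbar` to `Lbar`, so
  `a = f' ∘ a0 ∘ w` for some `w` in the Galois group (both have as image the set of elements algebraic over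
  `L`; or `AlgHom.restrictNormal`).  Then with `gal` for `w`:
  `∏ i, if ∑ j, a (l i j) * f (x_j) = 0 then a (e i) else 1 = f' (t0) = f t` (divide the linear relation by `f (x_{i0})`).
-/

set_option autoImplicit false

namespace Pool.Agent.MSX

open MvPolynomial

universe u v

/-- Galois stable systems of pairs (element, linear form). -/
structure TD (p : ℕ) (L : Type u) [Field L] (ι : Type v) where
  e : ι → AlgebraicClosure L
  l : ι → Fin p → AlgebraicClosure L
  e_ne : ∀ i, e i ≠ 0
  l_ne : ∀ i, l i ≠ 0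
  gal : ∀ w : AlgebraicClosure L ≃ₐ[L] AlgebraicClosure L, ∃ π : Equiv.Perm ι, ∀ i,
    w (e i) = e (π i) ∧ ∃ c : AlgebraicClosure L, c ≠ 0 ∧ ∀ j, w (l i j) = c * l (π i) j

section aux

private theorem isGal (L : Type u) [Field L] [PerfectField L] : IsGalois L (AlgebraicClosure L) :=
  { to_isSeparable := Algebra.IsAlgebraic.isSeparable_of_perfectField
    to_normal := inferInstance }

/-- Two extensions of a field homomorphism to the algebraic closure differ by an element of the Galois group. -/
private theorem ext_gal {L : Type u} [Field L] {Ω : Type u} [Field Ω]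
    (a a' : AlgebraicClosure L →+* Ω)
    (h : ∀ c : L, a' (algebraMap L (AlgebraicClosure L) c) =
      a (algebraMap L (AlgebraicClosure L) c)) :
    ∃ w : AlgebraicClosure L ≃ₐ[L] AlgebraicClosure L, ∀ x, a' x = a (w x) := by
  let _ : Algebra (AlgebraicClosure L) Ω := a.toAlgebra
  let _ : Algebra L Ω := (a.comp (algebraMap L (AlgebraicClosure L))).toAlgebra
  have _ : IsScalarTower L (AlgebraicClosure L) Ω := IsScalarTower.of_algebraMap_eq (fun _ => rfl)
  let b : AlgebraicClosure L →ₐ[L] Ω := { a' with commutes' := fun c => h c }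
  refine ⟨Normal.algHomEquivAut L Ω (AlgebraicClosure L) b, fun x => ?_⟩
  have h1 := congrArg (fun g : AlgebraicClosure L →ₐ[L] Ω => g x)
    ((Normal.algHomEquivAut L Ω (AlgebraicClosure L)).symm_apply_apply b)
  exact h1.symm

variable {p : ℕ} {L : Type u} [Field L] {ι : Type v} [Fintype ι] (T : TD p L ι)

open Classical in
/-- The product of a Galois stable system at a point. -/
private noncomputable def prd {Ω : Type u} [Field Ω] (a : AlgebraicClosure L →+* Ω)
    (x : Fin p → Ω) : Ω :=
  ∏ i, if ∑ j, a (T.l i j) * x j = 0 then a (T.e i) else 1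

private theorem prd_map {Ω Ω' : Type u} [Field Ω] [Field Ω'] (a : AlgebraicClosure L →+* Ω)
    (x : Fin p → Ω) (φ : Ω →+* Ω') :
    φ (prd T a x) = prd T (φ.comp a) (fun j => φ (x j)) := by
  classical
  unfold prd
  rw [map_prod]
  refine Finset.prod_congr rfl fun i _ => ?_
  have h : ∑ j, (φ.comp a) (T.l i j) * φ (x j) = φ (∑ j, a (T.l i j) * x j) := by
    rw [map_sum]
    refine Finset.sum_congr rfl fun j _ => ?_
    rw [map_mul]
    rfl
  rw [h]
  by_cases h0 : ∑ j, a (T.l i j) * x j = 0
  · rw [if_pos h0, if_pos (by rw [h0, map_zero])]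
    rfl
  · rw [if_neg h0, if_neg (by rw [map_eq_zero]; exact h0), map_one]

private theorem prd_gal {Ω : Type u} [Field Ω] (a : AlgebraicClosure L →+* Ω) (x : Fin p → Ω)
    (w : AlgebraicClosure L ≃ₐ[L] AlgebraicClosure L) (a' : AlgebraicClosure L →+* Ω)
    (ha : ∀ y, a' y = a (w y)) : prd T a' x = prd T a x := by
  classical
  obtain ⟨π, hπ⟩ := T.gal w
  unfold prd
  rw [← Equiv.prod_comp π (fun i => if ∑ j, a (T.l i j) * x j = 0 then a (T.e i) else 1)]
  refine Finset.prod_congr rfl fun i _ => ?_
  obtain ⟨h1, c, hc, h2⟩ := hπ i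
  have h : ∑ j, a' (T.l i j) * x j = a c * ∑ j, a (T.l (π i) j) * x j := by
    rw [Finset.mul_sum]
    refine Finset.sum_congr rfl fun j _ => ?_
    rw [ha, h2, map_mul, mul_assoc]
  have hac : a c ≠ 0 := (map_ne_zero a).mpr hc
  rw [h, ha, h1]
  by_cases h0 : ∑ j, a (T.l (π i) j) * x j = 0
  · rw [if_pos (by rw [h0, mul_zero]), if_pos h0]
  · rw [if_neg (mul_ne_zero hac h0), if_neg h0]

private theorem prd_ne {Ω : Type u} [Field Ω] (a : AlgebraicClosure L →+* Ω) (x : Fin p → Ω) :
    prd T a x ≠ 0 := by
  classical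
  unfold prd
  rw [Finset.prod_ne_zero_iff]
  intro i _
  split_ifs
  · exact (map_ne_zero a).mpr (T.e_ne i)
  · exact one_ne_zero

/-- Descent of the product to a field containing `L` and the coordinates of the point. -/
private theorem exists_desc [PerfectField L] {K : Type u} [Field K] (jj : L →+* K)
    (r : Fin p → K) : ∃ t : K, t ≠ 0 ∧ ∀ (Ω : Type u) [Field Ω] (g : K →+* Ω)
      (a : AlgebraicClosure L →+* Ω),
      (∀ c : L, a (algebraMap L (AlgebraicClosure L) c) = g (jj c)) →
      g t = prd T a (fun j => g (r j)) := by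
  classical
  let _ : Algebra L K := jj.toAlgebra
  have hjj : ∀ c : L, algebraMap L K c = jj c := fun _ => rfl
  let a0 : AlgebraicClosure L →ₐ[L] AlgebraicClosure K := IsAlgClosed.lift
  have ha0 : ∀ c : L, a0 (algebraMap L (AlgebraicClosure L) c) =
      algebraMap K (AlgebraicClosure K) (jj c) := by
    intro c
    rw [a0.commutes, IsScalarTower.algebraMap_apply L K (AlgebraicClosure K), hjj]
  let t0 : AlgebraicClosure K := prd T (a0 : AlgebraicClosure L →+* AlgebraicClosure K)
    (fun j => algebraMap K (AlgebraicClosure K) (r j))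
  have ht0 : t0 = prd T (a0 : AlgebraicClosure L →+* AlgebraicClosure K)
    (fun j => algebraMap K (AlgebraicClosure K) (r j)) := rfl
  have hfix : ∀ g : AlgebraicClosure K ≃ₐ[K] AlgebraicClosure K, g t0 = t0 := by
    intro g
    have h1 := prd_map T (a0 : AlgebraicClosure L →+* AlgebraicClosure K)
      (fun j => algebraMap K (AlgebraicClosure K) (r j))
      (g : AlgebraicClosure K →+* AlgebraicClosure K)
    have h2 : (fun j => (g : AlgebraicClosure K →+* AlgebraicClosure K)
        (algebraMap K (AlgebraicClosure K) (r j))) =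
        fun j => algebraMap K (AlgebraicClosure K) (r j) := by
      funext j
      exact g.commutes (r j)
    rw [h2, ← ht0] at h1
    obtain ⟨w, hw⟩ := ext_gal (a0 : AlgebraicClosure L →+* AlgebraicClosure K)
      ((g : AlgebraicClosure K →+* AlgebraicClosure K).comp
        (a0 : AlgebraicClosure L →+* AlgebraicClosure K)) (by
        intro c
        have e : (a0 : AlgebraicClosure L →+* AlgebraicClosure K)
          (algebraMap L (AlgebraicClosure L) c) = algebraMap K (AlgebraicClosure K) (jj c) := ha0 c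
        rw [RingHom.comp_apply, e]
        exact g.commutes (jj c))
    rw [prd_gal T _ _ w _ hw, ← ht0] at h1
    exact h1
  have hsep : IsSeparable K t0 := by
    rw [← mem_separableClosure_iff, ht0]
    unfold prd
    refine prod_mem fun i _ => ?_
    split_ifs
    · rw [mem_separableClosure_iff]
      have h1 : IsSeparable L (T.e i) := (isGal L).to_isSeparable.isSeparable' _
      have h2 : ((minpoly L (T.e i)).map (algebraMap L K)).Separable := by
        have : (minpoly L (T.e i)).Separable := h1
        exact this.map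
      refine h2.of_dvd (minpoly.dvd _ _ ?_)
      rw [Polynomial.aeval_map_algebraMap]
      have h3 := Polynomial.aeval_algHom_apply a0 (T.e i) (minpoly L (T.e i))
      rw [minpoly.aeval, map_zero] at h3
      exact h3
    · exact one_mem _
  have hbot : t0 ∈ (⊥ : Subalgebra K (AlgebraicClosure K)) := by
    by_contra hcon
    rw [notMem_iff_exists_ne_and_isConjRoot hsep (IsAlgClosed.splits _)] at hcon
    obtain ⟨y, hy, hc⟩ := hcon
    rw [isConjRoot_iff_exists_algEquiv] at hc
    obtain ⟨σ, hσ⟩ := hc
    apply hy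
    have h1 := hfix σ.symm
    rw [← hσ, AlgEquiv.symm_apply_apply] at h1
    rw [← hσ, ← h1]
  rw [Algebra.mem_bot] at hbot
  obtain ⟨t, ht⟩ := hbot
  refine ⟨t, ?_, ?_⟩
  · rintro rfl
    rw [map_zero] at ht
    exact prd_ne T _ _ (ht0 ▸ ht.symm)
  · intro Ω _ g a ha
    let _ : Algebra K (AlgebraicClosure Ω) :=
      ((algebraMap Ω (AlgebraicClosure Ω)).comp g).toAlgebra
    have hal : ∀ y : K, algebraMap K (AlgebraicClosure Ω) y =
      algebraMap Ω (AlgebraicClosure Ω) (g y) := fun _ => rfl
    let g' : AlgebraicClosure K →ₐ[K] AlgebraicClosure Ω := IsAlgClosed.lift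
    obtain ⟨w, hw⟩ := ext_gal ((g' : AlgebraicClosure K →+* AlgebraicClosure Ω).comp
      (a0 : AlgebraicClosure L →+* AlgebraicClosure K))
      ((algebraMap Ω (AlgebraicClosure Ω)).comp a) (by
        intro c
        rw [RingHom.comp_apply, RingHom.comp_apply, ha]
        have e : (a0 : AlgebraicClosure L →+* AlgebraicClosure K)
          (algebraMap L (AlgebraicClosure L) c) = algebraMap K (AlgebraicClosure K) (jj c) := ha0 c
        rw [e]
        have e2 : (g' : AlgebraicClosure K →+* AlgebraicClosure Ω)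
          (algebraMap K (AlgebraicClosure K) (jj c)) =
            algebraMap K (AlgebraicClosure Ω) (jj c) := g'.commutes (jj c)
        rw [e2, hal])
    apply (algebraMap Ω (AlgebraicClosure Ω)).injective
    rw [prd_map T a (fun j => g (r j)) (algebraMap Ω (AlgebraicClosure Ω)), prd_gal T _ _ w _ hw,
      ← hal, ← g'.commutes, ht, ht0]
    have h1 := prd_map T (a0 : AlgebraicClosure L →+* AlgebraicClosure K)
      (fun j => algebraMap K (AlgebraicClosure K) (r j))
      (g' : AlgebraicClosure K →+* AlgebraicClosure Ω)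
    have h2 : (fun j => (g' : AlgebraicClosure K →+* AlgebraicClosure Ω)
        (algebraMap K (AlgebraicClosure K) (r j))) =
        fun j => algebraMap Ω (AlgebraicClosure Ω) (g (r j)) := by
      funext j
      exact g'.commutes (r j)
    rw [h2] at h1
    exact h1

end aux

variable {p : ℕ} {L : Type u} [Field L] {ι : Type v} [Fintype ι] (T : TD p L ι)

namespace TD

theorem exists_nrm [PerfectField L] : ∃ (N : S p L) (c : AlgebraicClosure L), N ≠ 0 ∧ c ≠ 0 ∧
    N.IsHomogeneous (Fintype.card ι) ∧
    MvPolynomial.map (algebraMap L (AlgebraicClosure L)) N = C c * ∏ i, ∑ j, C (T.l i j) * X j := by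
  classical
  set N0 : MvPolynomial (Fin p) (AlgebraicClosure L) := ∏ i, ∑ j, C (T.l i j) * X j with hN0
  have hhom : N0.IsHomogeneous (Fintype.card ι) := by
    have h1 := IsHomogeneous.prod Finset.univ
      (fun i => ∑ j, C (T.l i j) * X j : ι → MvPolynomial (Fin p) (AlgebraicClosure L))
      (fun _ => 1) (fun i _ => by
        refine IsHomogeneous.sum _ _ _ fun j _ => ?_
        have h2 := (isHomogeneous_C (Fin p) (T.l i j)).mul (isHomogeneous_X (AlgebraicClosure L) j)
        rw [zero_add] at h2
        exact h2)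
    rw [Finset.sum_const, Finset.card_univ, smul_eq_mul, mul_one] at h1
    exact h1
  have hne : N0 ≠ 0 := by
    rw [hN0, Finset.prod_ne_zero_iff]
    intro i _ h0
    apply T.l_ne i
    funext j
    have h1 := congrArg (coeff (Finsupp.single j 1)) h0
    rw [coeff_sum, coeff_zero, Finset.sum_eq_single j] at h1
    · rw [coeff_C_mul, coeff_X, if_pos rfl, mul_one] at h1
      exact h1
    · intro k _ hk
      rw [coeff_C_mul, coeff_X, if_neg, mul_zero]
      intro h
      exact hk ((Finsupp.single_left_inj one_ne_zero).mp h)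
    · intro h
      exact absurd (Finset.mem_univ j) h
  obtain ⟨m, hm⟩ := MvPolynomial.ne_zero_iff.mp hne
  have hmap : ∀ w : AlgebraicClosure L ≃ₐ[L] AlgebraicClosure L, ∃ d : AlgebraicClosure L,
      MvPolynomial.map (w : AlgebraicClosure L →+* AlgebraicClosure L) N0 = C d * N0 := by
    intro w
    obtain ⟨π, hπ⟩ := T.gal w
    choose h1 c hc h2 using hπ
    refine ⟨∏ i, c i, ?_⟩
    have h3 : MvPolynomial.map (w : AlgebraicClosure L →+* AlgebraicClosure L) N0 =
        ∏ i, (C (c i) * ∑ j, C (T.l (π i) j) * X j) := by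
      rw [hN0, map_prod]
      refine Finset.prod_congr rfl fun i _ => ?_
      rw [map_sum, Finset.mul_sum]
      refine Finset.sum_congr rfl fun j _ => ?_
      have h4 : (w : AlgebraicClosure L →+* AlgebraicClosure L) (T.l i j) = c i * T.l (π i) j :=
        h2 i j
      rw [map_mul, map_C, map_X, h4, C_mul, mul_assoc]
    rw [h3, Finset.prod_mul_distrib, ← map_prod,
      Equiv.prod_comp π (fun i => ∑ j, C (T.l i j) * X j :
        ι → MvPolynomial (Fin p) (AlgebraicClosure L))]
  have hN1 : ∀ (w : AlgebraicClosure L ≃ₐ[L] AlgebraicClosure L) (k : Fin p →₀ ℕ),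
      w (coeff k (C (coeff m N0)⁻¹ * N0)) = coeff k (C (coeff m N0)⁻¹ * N0) := by
    intro w k
    obtain ⟨d, hd⟩ := hmap w
    have h1 : ∀ k, w (coeff k N0) = d * coeff k N0 := by
      intro k
      have h2 := congrArg (coeff k) hd
      rw [coeff_map, coeff_C_mul] at h2
      exact h2
    rw [coeff_C_mul, map_mul, map_inv₀, h1, h1]
    have hd0 : d ≠ 0 := by
      rintro rfl
      have h3 := h1 m
      rw [zero_mul] at h3
      exact hm ((map_eq_zero w).mp h3)
    field_simp
  have hrange : C (coeff m N0)⁻¹ * N0 ∈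
      Set.range (MvPolynomial.map (σ := Fin p) (algebraMap L (AlgebraicClosure L))) := by
    rw [mem_range_map_iff_coeffs_subset]
    intro y hy
    have hy' : y ∈ (C (coeff m N0)⁻¹ * N0).coeffs := hy
    rw [mem_coeffs_iff] at hy'
    obtain ⟨k, -, rfl⟩ := hy'
    have := isGal L
    have h1 := (InfiniteGalois.mem_bot_iff_fixed (k := L)
      (coeff k (C (coeff m N0)⁻¹ * N0))).mpr (fun w => hN1 w k)
    rw [IntermediateField.mem_bot] at h1
    exact h1
  obtain ⟨N, hN⟩ := hrange
  refine ⟨N, (coeff m N0)⁻¹, ?_, inv_ne_zero hm, ?_, hN⟩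
  · rintro rfl
    rw [map_zero] at hN
    have h1 := congrArg (coeff m) hN
    rw [coeff_zero, coeff_C_mul, inv_mul_cancel₀ hm] at h1
    exact zero_ne_one h1
  · intro k hk
    have h1 : coeff k N0 ≠ 0 := by
      intro h0
      have h2 := congrArg (coeff k) hN
      rw [coeff_map, coeff_C_mul, h0, mul_zero, map_eq_zero] at h2
      exact hk h2
    exact hhom h1

/-- The norm form: the product of the linear forms, up to a scalar. -/
noncomputable def nrm [PerfectField L] : S p L := T.exists_nrm.choose

theorem nrm_ne [PerfectField L] : T.nrm ≠ 0 := T.exists_nrm.choose_spec.choose_spec.1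

theorem nrm_hom [PerfectField L] : T.nrm.IsHomogeneous (Fintype.card ι) :=
  T.exists_nrm.choose_spec.choose_spec.2.2.1

theorem nrm_eval [PerfectField L] {Ω : Type u} [Field Ω] (f : S p L →+* Ω) (a : AlgebraicClosure L →+* Ω)
    (ha : ∀ c : L, a (algebraMap L (AlgebraicClosure L) c) = f (C c)) :
    f T.nrm = 0 ↔ ∃ i, ∑ j, a (T.l i j) * f (X j) = 0 := by
  have h1 : MvPolynomial.map (algebraMap L (AlgebraicClosure L)) T.nrm =
    C T.exists_nrm.choose_spec.choose * ∏ i, ∑ j, C (T.l i j) * X j :=
      T.exists_nrm.choose_spec.choose_spec.2.2.2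
  have hc : T.exists_nrm.choose_spec.choose ≠ 0 := T.exists_nrm.choose_spec.choose_spec.2.1
  have h2 := congrArg (eval₂Hom a (fun j => f (X j))) h1
  have h3 : eval₂Hom a (fun j => f (X j))
      (MvPolynomial.map (algebraMap L (AlgebraicClosure L)) T.nrm) = f T.nrm := by
    have h4 : (eval₂Hom a (fun j => f (X j))).comp
        (MvPolynomial.map (algebraMap L (AlgebraicClosure L))) = f := by
      refine MvPolynomial.ringHom_ext ?_ ?_
      · intro c
        rw [RingHom.comp_apply, map_C, coe_eval₂Hom, eval₂_C, ha]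
      · intro j
        rw [RingHom.comp_apply, map_X, coe_eval₂Hom, eval₂_X]
    exact congrArg (fun g : S p L →+* Ω => g T.nrm) h4
  rw [h3, map_mul, map_prod] at h2
  rw [h2, mul_eq_zero]
  have h5 : eval₂Hom a (fun j => f (X j)) (C T.exists_nrm.choose_spec.choose) ≠ 0 := by
    rw [coe_eval₂Hom, eval₂_C]
    exact (map_ne_zero a).mpr hc
  rw [or_iff_right h5, Finset.prod_eq_zero_iff]
  constructor
  · rintro ⟨i, -, hi⟩
    refine ⟨i, ?_⟩
    rw [map_sum] at hi
    rw [← hi]
    refine Finset.sum_congr rfl fun j _ => ?_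
    rw [map_mul, coe_eval₂Hom, eval₂_C, eval₂_X]
  · rintro ⟨i, hi⟩
    refine ⟨i, Finset.mem_univ i, ?_⟩
    rw [map_sum, ← hi]
    refine Finset.sum_congr rfl fun j _ => ?_
    rw [map_mul, coe_eval₂Hom, eval₂_C, eval₂_X]

open Classical in
theorem exists_fam [PerfectField L] (h1 : 1 < p) (P : HP p L) : ∃ t : kap P, t ≠ 0 ∧ t ∈ k0 P ∧
    ∀ (Ω : Type u) [Field Ω] (f : kap P →+* Ω) (a : AlgebraicClosure L →+* Ω),
      (∀ c : L, a (algebraMap L (AlgebraicClosure L) c) = f (red P (C c))) →
      f t = ∏ i, if ∑ j, a (T.l i j) * f (red P (X j)) = 0 then a (T.e i) else 1 := by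
  obtain ⟨i0, hi0⟩ := exists_var h1 P
  have hx0 : red P (X i0) ≠ 0 := fun h => hi0 ((red_eq_zero P _).mp h)
  let jj : L →+* k0 P := ((red P).comp (C : L →+* S p L)).codRestrict (k0 P)
    (fun c => const_mem_k0 P c)
  obtain ⟨t, ht, h⟩ := exists_desc T jj
    (fun j => (⟨red P (X j) / red P (X i0), ratio_mem_k0 P i0 j hi0⟩ : k0 P))
  refine ⟨t, fun h0 => ht (Subtype.ext h0), t.2, ?_⟩
  intro Ω _ f a ha
  have h2 := h Ω (f.comp (k0 P).subtype) a (fun c => ha c)
  have h3 : f (t : kap P) = (f.comp (k0 P).subtype) t := rfl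
  rw [h3, h2]
  unfold prd
  refine Finset.prod_congr rfl fun i _ => ?_
  have hf0 : f (red P (X i0)) ≠ 0 := (map_ne_zero f).mpr hx0
  have h4 : ∑ j, a (T.l i j) * f (red P (X j)) = f (red P (X i0)) *
      ∑ j, a (T.l i j) * (f.comp (k0 P).subtype)
        (⟨red P (X j) / red P (X i0), ratio_mem_k0 P i0 j hi0⟩ : k0 P) := by
    rw [Finset.mul_sum]
    refine Finset.sum_congr rfl fun j _ => ?_
    have h5 : (f.comp (k0 P).subtype)
        (⟨red P (X j) / red P (X i0), ratio_mem_k0 P i0 j hi0⟩ : k0 P) =
        f (red P (X j)) / f (red P (X i0)) :=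
      map_div₀ f (red P (X j)) (red P (X i0))
    rw [h5]
    field_simp
  rw [h4]
  by_cases h6 : ∑ j, a (T.l i j) * (f.comp (k0 P).subtype)
        (⟨red P (X j) / red P (X i0), ratio_mem_k0 P i0 j hi0⟩ : k0 P) = 0
  · rw [if_pos h6, if_pos (by rw [h6, mul_zero])]
  · rw [if_neg h6, if_neg (mul_ne_zero hf0 h6)]

/-- The family of a Galois stable system. -/
noncomputable def fam [PerfectField L] (h1 : 1 < p) : Fam p L := fun P =>
  Additive.ofMul (Units.mk0 (T.exists_fam h1 P).choose (T.exists_fam h1 P).choose_spec.1)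

theorem fam_k0 [PerfectField L] (h1 : 1 < p) (P : HP p L) :
    (((T.fam h1 P).toMul : (kap P)ˣ) : kap P) ∈ k0 P :=
  (T.exists_fam h1 P).choose_spec.2.1

open Classical in
theorem fam_spec [PerfectField L] (h1 : 1 < p) (P : HP p L) {Ω : Type u} [Field Ω] (f : kap P →+* Ω)
    (a : AlgebraicClosure L →+* Ω)
    (ha : ∀ c : L, a (algebraMap L (AlgebraicClosure L) c) = f (red P (C c))) :
    f ((T.fam h1 P).toMul : (kap P)ˣ) =
      ∏ i, if ∑ j, a (T.l i j) * f (red P (X j)) = 0 then a (T.e i) else 1 :=
  (T.exists_fam h1 P).choose_spec.2.2 Ω f a ha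

end TD

end Pool.Agent.MSX
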