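import Pool.Agent.MSX.Obs
import Pool.Agent.MSX.Orb
import Pool.Agent.MSK.Gfin

/-! # Matrices over the function field of the endomorphisms of the standard objects

`D.IsKm n Φ f`: the matrix `f` over `D.K` is the matrix of the endomorphism `Φ` of the standard object (`Φ Gm = Gm f`). `D.km n Φ` for
`Φ` in `D.An n`.

PROOFS.
* `IsKm.unique`: `Gm n` is invertible (`gm_det`), the inclusion of `D.K` is injective. `IsKm.mul`, `IsKm.one`: direct.
* `km_iso`: `km_hm` for `Φ` and `Φ⁻¹` (`cn_inv`), `km_mul`, `km_one`. `exists_km_of_hm`: `hm_const`, uniqueness.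
* `km_div`: `exists_km_of_hm`, `an_unit`.
* `nt_le`: `MSK.NT_le` with `km_div`, `hm_zero`, `MSK.stdTy_iff`.
-/

set_option autoImplicit false

namespace Pool.Agent.MSX

open MvPolynomial

universe u

variable {p : ℕ} {F L : Type u} [Field F] [Field L] [Algebra F L] (D : Dat p F L)

namespace Dat

/-- `f` is the matrix over the function field of the endomorphism `Φ` of the standard object -/
def IsKm (n : ℤ) (Φ : Matrix (Fin (dm p n)) (Fin (dm p n)) L)
    (f : Matrix (Fin (dm p n)) (Fin (dm p n)) D.K) : Prop :=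
  Φ.map cQ * D.Gm n = D.Gm n * f.map D.K.subtype

section

variable {D} {n : ℤ} {Φ Φ' : Matrix (Fin (dm p n)) (Fin (dm p n)) L}
  {f f' : Matrix (Fin (dm p n)) (Fin (dm p n)) D.K}

theorem map_sub_inj {ι κ : Type*} {A B : Matrix ι κ D.K} (h : A.map D.K.subtype = B.map D.K.subtype) :
    A = B := by
  ext i j
  exact congrFun (congrFun h i) j

theorem IsKm.unique (h : D.IsKm n Φ f) (h' : D.IsKm n Φ f') : f = f' := by
  apply map_sub_inj
  have h1 : D.Gm n * f.map D.K.subtype = D.Gm n * f'.map D.K.subtype := h.symm.trans h'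
  have hu : IsUnit (D.Gm n).det := isUnit_iff_ne_zero.2 (D.gm_det n)
  have h2 := congrArg (fun X => (D.Gm n)⁻¹ * X) h1
  simp only [← Matrix.mul_assoc, Matrix.nonsing_inv_mul _ hu, Matrix.one_mul] at h2
  exact h2

theorem IsKm.mul (h : D.IsKm n Φ f) (h' : D.IsKm n Φ' f') : D.IsKm n (Φ * Φ') (f * f') := by
  unfold IsKm at *
  rw [Matrix.map_mul, Matrix.map_mul, Matrix.mul_assoc, h', ← Matrix.mul_assoc, h,
    Matrix.mul_assoc]

theorem IsKm.one : D.IsKm n 1 1 := by
  unfold IsKm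
  rw [Matrix.map_one _ (map_zero _) (map_one _), Matrix.map_one _ (map_zero _) (map_one _),
    Matrix.one_mul, Matrix.mul_one]

end

open Classical in
/-- the matrix over the function field of an element of `An n` -/
noncomputable def km [PerfectField L] (n : ℤ) (Φ : Matrix (Fin (dm p n)) (Fin (dm p n)) L) :
    Matrix (Fin (dm p n)) (Fin (dm p n)) D.K :=
  if h : Φ ∈ D.An n then (D.const_hm n Φ h).choose else 0

section

variable [PerfectField L] {D} {n : ℤ} {Φ Φ' : Matrix (Fin (dm p n)) (Fin (dm p n)) L}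

theorem km_spec (h : Φ ∈ D.An n) : D.IsKm n Φ (D.km n Φ) := by
  rw [km, dif_pos h]
  exact (D.const_hm n Φ h).choose_spec.1

theorem km_hm (h : Φ ∈ D.An n) : MSK.Hm D.em (D.Os n) (D.Os n) (D.km n Φ) := by
  rw [km, dif_pos h]
  exact (D.const_hm n Φ h).choose_spec.2

theorem km_one : D.km n 1 = 1 := (km_spec (D := D) (Subring.one_mem _)).unique IsKm.one

theorem km_mul (h : Φ ∈ D.An n) (h' : Φ' ∈ D.An n) : D.km n (Φ * Φ') = D.km n Φ * D.km n Φ' :=
  (km_spec (D := D) (Subring.mul_mem _ h h')).unique ((km_spec h).mul (km_spec h'))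

theorem km_eq {f : Matrix (Fin (dm p n)) (Fin (dm p n)) D.K} (h : Φ ∈ D.An n) (hf : D.IsKm n Φ f) :
    D.km n Φ = f := (km_spec h).unique hf

theorem an_inv (h : Φ ∈ D.An n) (hd : Φ.det ≠ 0) : Φ⁻¹ ∈ D.An n := D.cn_inv h hd

theorem km_iso (h : Φ ∈ D.An n) (hd : Φ.det ≠ 0) :
    MSK.IsoM D.em (D.Os n) (D.Os n) (D.km n Φ) (D.km n Φ⁻¹) := by
  have hu : IsUnit Φ.det := isUnit_iff_ne_zero.2 hd
  have h' := an_inv h hd
  have e1 : D.km n Φ * D.km n Φ⁻¹ = 1 := by
    rw [← km_mul h h', Matrix.mul_nonsing_inv Φ hu, km_one]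
  have e2 : D.km n Φ⁻¹ * D.km n Φ = 1 := by
    rw [← km_mul h' h, Matrix.nonsing_inv_mul Φ hu, km_one]
  exact ⟨e1, e2, km_hm h, km_hm h'⟩

theorem exists_km_of_hm {f : Matrix (Fin (dm p n)) (Fin (dm p n)) D.K}
    (hf : MSK.Hm D.em (D.Os n) (D.Os n) f) : ∃ Φ ∈ D.An n, f = D.km n Φ := by
  obtain ⟨Φ, h1, h2⟩ := D.hm_const n f hf
  exact ⟨Φ, h2, (km_eq h2 h1).symm⟩

theorem km_zero : D.km n 0 = 0 := by
  refine km_eq (Subring.zero_mem _) ?_
  unfold IsKm
  rw [Matrix.map_zero _ (map_zero _), Matrix.map_zero _ (map_zero _), Matrix.zero_mul,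
    Matrix.mul_zero]

/-- nonzero endomorphisms of the standard objects are invertible -/
theorem km_div (hD : D.Div) {f : Matrix (Fin (dm p n)) (Fin (dm p n)) D.K}
    (hf : MSK.Hm D.em (D.Os n) (D.Os n) f) (h0 : f ≠ 0) :
    ∃ Φ ∈ D.An n, Φ.det ≠ 0 ∧ f = D.km n Φ ∧
      MSK.IsoM D.em (D.Os n) (D.Os n) f (D.km n Φ⁻¹) := by
  obtain ⟨Φ, h1, rfl⟩ := exists_km_of_hm hf
  have h2 : Φ ≠ 0 := by
    rintro rfl
    exact h0 km_zero
  have h3 := D.an_unit hD n h1 h2
  exact ⟨Φ, h1, h3, rfl, km_iso h1 h3⟩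

end

/-- the constants from `F` in the function field -/
noncomputable def fK : F →+* D.K :=
  ((cQ (p := p) (L := L)).comp (algebraMap F L)).codRestrict D.K (fun c => by
    refine ⟨⟨0, C (algebraMap F L c), 1, isHomogeneous_C _ _, isHomogeneous_one _ _, one_ne_zero, ?_⟩,
      ?_⟩
    · rw [map_one (algebraMap (S p L) (Q p L)), div_one]
      rfl
    · show D.sigQ (algebraMap (S p L) (Q p L) (C (algebraMap F L c))) = _
      rw [D.sigQ_alg, D.sig_C, D.s.commutes]
      rfl)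

theorem fK_coe (c : F) : ((D.fK c : D.K) : Q p L) = cQ (algebraMap F L c) := rfl

theorem infK [Infinite F] : Infinite D.K :=
  Infinite.of_injective D.fK D.fK.injective

/-- the group `NT` for the standard typing -/
theorem nt_le [PerfectField L] [Infinite D.K] (hD : D.Div) :
    MSK.NT (MSK.stdTy D.em D.Os) ≤ MSK.SgT D.em ⊔ MSK.ThO D.em D.Os := by
  refine MSK.NT_le (MSK.stdTy D.em D.Os) D.Os ?_ ?_ ?_
  · intro n f hf h0
    obtain ⟨Φ, -, -, -, h⟩ := km_div hD hf h0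
    exact ⟨_, h⟩
  · intro n m f hnm hf
    exact D.hm_zero n m f hnm hf
  · intro O r h
    obtain ⟨l, -, g, g', h⟩ := (MSK.stdTy_iff D.Os O r).1 h
    exact ⟨l, g, g', h⟩

end Dat

end Pool.Agent.MSX
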