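import Pool.Agent.MSX.ThA
import Pool.Agent.MSX.SplD

/-! # Lattices of standard objects: constants, linear forms, comparison of bases of invariants

`lb P`: an embedding of the algebraic closure of `L` in `kP P` compatible with `inc P`. -/

set_option autoImplicit false
set_option maxHeartbeats 400000

namespace Pool.Agent.MSX

open MvPolynomial

universe u

variable {p : ℕ} {F L : Type u} [Field F] [Field L] [Algebra F L]

section

omit [Field F] [Algebra F L]

theorem exists_lb (P : HP p L) : ∃ a : AlgebraicClosure L →+* kb P, ∀ c : L,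
    a (algebraMap L (AlgebraicClosure L) c) = algebraMap (kap P) (kb P) (red P (C c)) := by
  let _ : Algebra L (kb P) :=
    ((algebraMap (kap P) (kb P)).comp ((red P).comp (C : L →+* S p L))).toAlgebra
  have a : AlgebraicClosure L →ₐ[L] kb P := IsAlgClosed.lift
  exact ⟨a, fun c => a.commutes c⟩

/-- an embedding of the algebraic closure of `L` in `kP P` -/
noncomputable def lb (P : HP p L) : AlgebraicClosure L →+* kP P :=
  (incb P).comp (exists_lb P).choose

theorem lb_alg (P : HP p L) (c : L) :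
    lb P (algebraMap L (AlgebraicClosure L) c) = inc P (red P (C c)) := by
  rw [lb, RingHom.comp_apply, (exists_lb P).choose_spec]
  rfl

/-- constants of the algebraic closure as Laurent series -/
noncomputable def la (P : HP p L) : AlgebraicClosure L →+* LaurentSeries (kP P) :=
  (MSK.iO (kP P)).comp ((PowerSeries.C (R := kP P)).comp (lb P))

theorem la_alg [PerfectField L] (P : HP p L) (c : L) :
    la P (algebraMap L (AlgebraicClosure L) c) = phi P (Dat.cQ c) := by
  have h1 : la P (algebraMap L (AlgebraicClosure L) c) =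
      MSK.iO (kP P) (PowerSeries.C (lb P (algebraMap L (AlgebraicClosure L) c))) := rfl
  have h2 : phi P (Dat.cQ c) = cs (psi P (C c)) := phi_alg P (C c)
  rw [h1, h2, lb_alg, psi_C]
  rfl

open Classical in
/-- the order of a linear form at `P` -/
noncomputable def lo (P : HP p L) (l : Fin p → AlgebraicClosure L) : ℕ :=
  if ∑ j, lb P (l j) * inc P (red P (X j)) = 0 then 1 else 0

/-- the value of a nonzero linear form at the generic arc through `P` -/
theorem lin_fac [PerfectField L] (P : HP p L) (l : Fin p → AlgebraicClosure L) (hl : l ≠ 0) :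
    ∃ w : (PowerSeries (kP P))ˣ, ∑ j, la P (l j) * phi P (algebraMap (S p L) (Q p L) (X j)) =
      ((MSK.tt (kP P) ^ lo P l * MSK.uO w : (LaurentSeries (kP P))ˣ) : LaurentSeries (kP P)) := by
  classical
  set A : kP P := ∑ j, lb P (l j) * inc P (red P (X j)) with hA
  set B : kP P := ∑ j, lb P (l j) * eta P j with hB
  have hB0 : B ≠ 0 := by
    intro h0
    apply hl
    have h1 := eta_lin P (fun j => (exists_lb P).choose (l j)) h0
    funext j
    exact (map_eq_zero _).1 (congrFun h1 j)
  have h1 : ∑ j, la P (l j) * phi P (algebraMap (S p L) (Q p L) (X j)) =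
      MSK.iO (kP P) (PowerSeries.C A + PowerSeries.X * PowerSeries.C B) := by
    have h2 : ∀ j, la P (l j) * phi P (algebraMap (S p L) (Q p L) (X j)) =
        MSK.iO (kP P) (PowerSeries.C (lb P (l j) * inc P (red P (X j))) +
          PowerSeries.X * PowerSeries.C (lb P (l j) * eta P j)) := by
      intro j
      have h3 : phi P (algebraMap (S p L) (Q p L) (X j)) = MSK.iO (kP P) (psi P (X j)) :=
        phi_alg P (X j)
      have h4 : la P (l j) = MSK.iO (kP P) (PowerSeries.C (lb P (l j))) := rfl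
      have h5 : PowerSeries.C (lb P (l j)) * (PowerSeries.C (inc P (red P (X j))) +
          PowerSeries.X * PowerSeries.C (eta P j)) = PowerSeries.C (lb P (l j) * inc P (red P (X j))) +
          PowerSeries.X * PowerSeries.C (lb P (l j) * eta P j) := by
        rw [map_mul, map_mul]
        ring
      rw [h3, h4, ← map_mul, psi_X, h5]
    rw [Finset.sum_congr rfl fun j _ => h2 j, ← map_sum, Finset.sum_add_distrib, ← map_sum,
      ← Finset.mul_sum, ← map_sum]
  rw [h1]
  by_cases h0 : A = 0
  · have h2 : lo P l = 1 := if_pos h0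
    have hu : IsUnit (PowerSeries.C B) := (IsUnit.mk0 B hB0).map _
    obtain ⟨w, hw⟩ := hu
    refine ⟨w, ?_⟩
    rw [h2, h0, map_zero, zero_add, map_mul, ← hw, pow_one, Units.val_mul]
    congr 1
    exact HahnSeries.ofPowerSeries_X
  · have h2 : lo P l = 0 := if_neg h0
    have hu : IsUnit (PowerSeries.C A + PowerSeries.X * PowerSeries.C B) := by
      rw [PowerSeries.isUnit_iff_constantCoeff, isUnit_iff_ne_zero]
      simpa using h0
    obtain ⟨w, hw⟩ := hu
    refine ⟨w, ?_⟩
    rw [h2, pow_zero, one_mul, ← hw]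
    rfl

end

variable (D : Dat p F L)

namespace Dat

variable {D}

/-- the lattice of `ob G` at `P` -/
noncomputable def lat [PerfectField L] (P : HP p L) {ι : Type} [Fintype ι] [DecidableEq ι]
    (G : Matrix ι ι (Q p L)) (hG : G.det ≠ 0) :
    Matrix.GeneralLinearGroup ι (LaurentSeries (kP P)) :=
  (Matrix.GeneralLinearGroup.map (phi P) (Matrix.GeneralLinearGroup.mkOfDetNeZero G hG))⁻¹

omit [Field F] [Algebra F L] in
theorem lat_inv [PerfectField L] (P : HP p L) {ι : Type} [Fintype ι] [DecidableEq ι]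
    {G : Matrix ι ι (Q p L)} (hG : G.det ≠ 0) :
    (((lat P G hG)⁻¹ : Matrix.GeneralLinearGroup ι (LaurentSeries (kP P))) :
      Matrix ι ι (LaurentSeries (kP P))) = G.map (phi P) := by
  unfold lat
  rw [inv_inv]
  rfl

omit [Field F] [Algebra F L] in
theorem lat_mul [PerfectField L] (P : HP p L) {ι : Type} [Fintype ι] [DecidableEq ι]
    {G : Matrix ι ι (Q p L)} (hG : G.det ≠ 0) :
    ((lat P G hG : Matrix.GeneralLinearGroup ι (LaurentSeries (kP P))) :
      Matrix ι ι (LaurentSeries (kP P))) * G.map (phi P) = 1 := by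
  rw [← lat_inv P hG]
  exact Units.mul_inv _

/-- comparison of lattices -/
theorem lat_LI [PerfectField L] {ι κ : Type} [Fintype ι] [DecidableEq ι] [Fintype κ] [DecidableEq κ]
    {G : Matrix ι ι (Q p L)} (hG : G.det ≠ 0) {G' : Matrix κ κ (Q p L)} (hG' : G'.det ≠ 0)
    {E : Matrix κ ι L} {N : Matrix κ ι D.K}
    (h : (E.map (cQ (p := p) (L := L)) : Matrix κ ι (Q p L)) * G = G' * N.map D.K.subtype) (P : HP p L) :
    MSK.LI (lat P G' hG') (lat P G hG) (N.map (D.em P)) := by
  refine ⟨E.map ((PowerSeries.C (R := kP P)).comp ((inc P).comp ((red P).comp C))), ?_⟩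
  have e1 : N.map (D.em P) = (N.map D.K.subtype).map (phi P) := by
    ext i j
    rfl
  have e2 : (E.map ((PowerSeries.C (R := kP P)).comp ((inc P).comp ((red P).comp C)))).map
      (MSK.iO (kP P)) = (E.map cQ).map (phi P) := by
    refine Matrix.ext fun i j => ?_
    have h3 : phi P (cQ (E i j)) = cs (psi P (C (E i j))) := phi_alg P (C (E i j))
    show MSK.iO (kP P) (PowerSeries.C (inc P (red P (C (E i j))))) = phi P (cQ (E i j))
    rw [h3, psi_C]
    rfl
  have h5 : (E.map cQ).map (phi P) * G.map (phi P) =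
      G'.map (phi P) * (N.map D.K.subtype).map (phi P) :=
    (Matrix.map_mul (f := phi P)).symm.trans ((congrArg (fun X => X.map (phi P)) h).trans
      (Matrix.map_mul (f := phi P)))
  rw [e1, e2, lat_inv, Matrix.mul_assoc, h5, ← Matrix.mul_assoc, lat_mul, Matrix.one_mul]

/-- comparison of lattices -/
theorem ob_LI [PerfectField L] {ι κ : Type} [Fintype ι] [DecidableEq ι] [Fintype κ] [DecidableEq κ]
    {G : Matrix ι ι (Q p L)} (hG : G.det ≠ 0) {G' : Matrix κ κ (Q p L)} (hG' : G'.det ≠ 0)
    {E : Matrix κ ι L} {N : Matrix κ ι D.K}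
    (h : (E.map (cQ (p := p) (L := L)) : Matrix κ ι (Q p L)) * G = G' * N.map D.K.subtype) (P : HP p L) :
    MSK.LI ((ob G' hG').b P) ((ob G hG).b P) (N.map (D.em P)) :=
  lat_LI hG hG' h P

/-- comparison of two bases of invariants -/
theorem exists_cmp {ι : Type} [Fintype ι] [DecidableEq ι] {B : Matrix ι ι L} {n : ℤ}
    {G G' : Matrix ι ι (Q p L)} (hG : G.det ≠ 0) (hG' : G'.det ≠ 0)
    (i : B.map cQ * G.map D.sigQ = G) (i' : B.map cQ * G'.map D.sigQ = G')
    (d : ∀ i j k, G i j * (algebraMap (S p L) (Q p L) (X k)) ^ n ∈ KL p L)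
    (d' : ∀ i j k, G' i j * (algebraMap (S p L) (Q p L) (X k)) ^ n ∈ KL p L) :
    ∃ N : Matrix ι ι D.K, G = G' * N.map D.K.subtype := by
  have hu' : IsUnit G'.det := isUnit_iff_ne_zero.2 hG'
  have hX : (algebraMap (S p L) (Q p L) (X (⟨0, D.hp.pos⟩ : Fin p))) ^ n ≠ 0 :=
    zpow_ne_zero _ ((map_ne_zero_iff _ Q_inj).2 (X_ne_zero _))
  set c : Q p L := (algebraMap (S p L) (Q p L) (X (⟨0, D.hp.pos⟩ : Fin p))) ^ n with hc
  -- matrices over `KL`
  let M : Matrix ι ι (KL p L) := fun i j => ⟨G i j * c, d i j _⟩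
  let M' : Matrix ι ι (KL p L) := fun i j => ⟨G' i j * c, d' i j _⟩
  have hM : M.map (KL p L).subtype = c • G := by
    ext i j
    exact mul_comm _ _
  have hM' : M'.map (KL p L).subtype = c • G' := by
    ext i j
    exact mul_comm _ _
  have hMd' : M'.det ≠ 0 := by
    intro h0
    have h1 := congrArg (KL p L).subtype h0
    rw [RingHom.map_det, RingHom.mapMatrix_apply, hM', Matrix.det_smul, map_zero] at h1
    exact mul_ne_zero (pow_ne_zero _ hX) hG' h1
  have hN : G'⁻¹ * G = (M'⁻¹ * M).map (KL p L).subtype := by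
    have h1 : M'.map (KL p L).subtype * (M'⁻¹ * M).map (KL p L).subtype =
        M.map (KL p L).subtype := by
      rw [← Matrix.map_mul, ← Matrix.mul_assoc, Matrix.mul_nonsing_inv _
        (isUnit_iff_ne_zero.2 hMd'), Matrix.one_mul]
    rw [hM, hM', Matrix.smul_mul] at h1
    have h2 : G' * (M'⁻¹ * M).map (KL p L).subtype = G := smul_right_injective _ hX h1
    rw [← h2, ← Matrix.mul_assoc, Matrix.nonsing_inv_mul _ hu', Matrix.one_mul]
  have hσ : (G'⁻¹ * G).map D.sigQ = G'⁻¹ * G := by
    have hi : G'.map D.sigQ * (G'⁻¹ * G).map D.sigQ = G.map D.sigQ := by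
      rw [← Matrix.map_mul, ← Matrix.mul_assoc, Matrix.mul_nonsing_inv _ hu', Matrix.one_mul]
    have h1 : G' * (G'⁻¹ * G).map D.sigQ = G := by
      calc G' * (G'⁻¹ * G).map D.sigQ =
          (B.map cQ * G'.map D.sigQ) * (G'⁻¹ * G).map D.sigQ := by rw [i']
        _ = G := by rw [Matrix.mul_assoc, hi, i]
    calc (G'⁻¹ * G).map D.sigQ = G'⁻¹ * (G' * (G'⁻¹ * G).map D.sigQ) := by
          rw [← Matrix.mul_assoc, Matrix.nonsing_inv_mul _ hu', Matrix.one_mul]
      _ = G'⁻¹ * G := by rw [h1]
  refine ⟨fun i j => ⟨(G'⁻¹ * G) i j, ?_, ?_⟩, ?_⟩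
  · rw [hN]
    exact ((M'⁻¹ * M) i j).2
  · exact congrFun (congrFun hσ i) j
  · have h2 : (Matrix.map (fun i j => (⟨(G'⁻¹ * G) i j, by
        rw [hN]
        exact ((M'⁻¹ * M) i j).2, congrFun (congrFun hσ i) j⟩ : D.K)) D.K.subtype :
          Matrix ι ι (Q p L)) = G'⁻¹ * G := by
      ext i j
      rfl
    exact ((congrArg (fun X => G' * X) h2).trans (by
      rw [← Matrix.mul_assoc, Matrix.mul_nonsing_inv _ hu', Matrix.one_mul])).symm

end Dat

end Pool.Agent.MSX
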