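import Pool.Agent.MSX.ThC

/-! # The value of an automorphism of a standard object with split data (`p ∤ n`)

The object of the matrix `G` of the split data is isomorphic to the standard object; there the automorphism is the
constant matrix `g'` over `F` and the lattice is `C⁻¹ diag(l_i^n) V⁻¹` (`MSK.IsTh_const`). -/

set_option autoImplicit false
set_option maxHeartbeats 400000

namespace Pool.Agent.MSX

open MvPolynomial

universe u

variable {p : ℕ} {F L : Type u} [Field F] [Field L] [Algebra F L] {D : Dat p F L}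

/-- constants of the algebraic closure as power series -/
noncomputable def lp (P : HP p L) : AlgebraicClosure L →+* PowerSeries (kP P) :=
  (PowerSeries.C (R := kP P)).comp (lb P)

theorem map_dg' {ι R R' : Type*} [Fintype ι] [DecidableEq ι] [CommRing R] [CommRing R']
    (f : R →+* R') (c : ι → Rˣ) : Matrix.GeneralLinearGroup.map f (MSK.dg c) =
      MSK.dg (fun i => Units.map (f : R →* R') (c i)) := by
  apply Units.ext
  show (Matrix.diagonal _).map f = Matrix.diagonal _
  rw [Matrix.diagonal_map (map_zero f)]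
  rfl

theorem dg_mul' {ι R : Type*} [Fintype ι] [DecidableEq ι] [CommRing R] (c c' : ι → Rˣ) :
    MSK.dg (fun i => c i * c' i) = MSK.dg c * MSK.dg c' := by
  apply Units.ext
  show Matrix.diagonal _ = Matrix.diagonal _ * Matrix.diagonal _
  rw [Matrix.diagonal_mul_diagonal]
  rfl

theorem dg_inv' {ι R : Type*} [Fintype ι] [DecidableEq ι] [CommRing R] (c : ι → Rˣ) :
    (MSK.dg c)⁻¹ = MSK.dg (fun i => (c i)⁻¹) := by
  rw [inv_eq_iff_mul_eq_one, ← dg_mul']
  apply Units.ext
  show Matrix.diagonal _ = 1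
  simp

theorem map_GL_comp {ι R R' R'' : Type*} [Fintype ι] [DecidableEq ι] [CommRing R] [CommRing R']
    [CommRing R''] (f : R →+* R') (g : R' →+* R'') (x : Matrix.GeneralLinearGroup ι R) :
    Matrix.GeneralLinearGroup.map g (Matrix.GeneralLinearGroup.map f x) =
      Matrix.GeneralLinearGroup.map (g.comp f) x := by
  apply Units.ext
  refine Matrix.ext fun i j => ?_
  rfl

namespace SplitD

variable {n : ℤ} {g : Matrix (Fin p) (Fin p) L} {T : TD p L (Fin p)}

theorem g'_det (s : SplitD D n g T) : s.g'.det ≠ 0 := by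
  intro h0
  have h1 := congrArg Matrix.det s.Cg
  have h2 : (s.g'.map (algebraMap F (AlgebraicClosure L))).det = 0 := by
    rw [← RingHom.mapMatrix_apply, ← RingHom.map_det, h0, map_zero]
  rw [Matrix.det_mul, h2, mul_zero, Matrix.det_mul, Matrix.det_diagonal] at h1
  exact mul_ne_zero (Finset.prod_ne_zero_iff.2 fun i _ => T.e_ne i) s.C_det h1.symm

theorem aux_gam (s : SplitD D n g T) (P : HP p L) (gF : Matrix.GeneralLinearGroup (Fin p) F)
    (hgF : (gF : Matrix (Fin p) (Fin p) F) = s.g')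
    (CG : Matrix.GeneralLinearGroup (Fin p) (AlgebraicClosure L))
    (hCG : (CG : Matrix (Fin p) (Fin p) (AlgebraicClosure L)) = s.C) :
    Matrix.GeneralLinearGroup.map ((PowerSeries.C (R := kP P)).comp ((inc P).comp ((red P).comp
      ((MvPolynomial.C : L →+* S p L).comp (algebraMap F L))))) gF =
      (Matrix.GeneralLinearGroup.map (lp P) CG)⁻¹ *
        MSK.dg (fun j => MSK.uC (Units.mk0 (lb P (T.e j)) ((map_ne_zero _).2 (T.e_ne j)))) *
        ((Matrix.GeneralLinearGroup.map (lp P) CG)⁻¹)⁻¹ := by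
  have e1 : CG * Matrix.GeneralLinearGroup.map (algebraMap F (AlgebraicClosure L)) gF =
      MSK.dg (fun i => Units.mk0 (T.e i) (T.e_ne i)) * CG := by
    apply Units.ext
    rw [Units.val_mul, Units.val_mul, hCG]
    refine Eq.trans ?_ s.Cg
    rw [← hgF]
    rfl
  have e2 : Matrix.GeneralLinearGroup.map (algebraMap F (AlgebraicClosure L)) gF =
      CG⁻¹ * MSK.dg (fun i => Units.mk0 (T.e i) (T.e_ne i)) * CG := by
    rw [mul_assoc, ← e1, inv_mul_cancel_left]
  have e3 := congrArg (Matrix.GeneralLinearGroup.map (lp P)) e2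
  rw [map_mul, map_mul, map_inv, map_dg', map_GL_comp] at e3
  have e4 : (fun i => Units.map (lp P : AlgebraicClosure L →* PowerSeries (kP P))
      (Units.mk0 (T.e i) (T.e_ne i))) =
      fun j => MSK.uC (Units.mk0 (lb P (T.e j)) ((map_ne_zero _).2 (T.e_ne j))) := by
    funext j
    ext1
    rfl
  have e5 : (lp P).comp (algebraMap F (AlgebraicClosure L)) =
      (PowerSeries.C (R := kP P)).comp ((inc P).comp ((red P).comp
      ((MvPolynomial.C : L →+* S p L).comp (algebraMap F L)))) := by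
    refine RingHom.ext fun c => ?_
    show PowerSeries.C (lb P (algebraMap F (AlgebraicClosure L) c)) =
      PowerSeries.C (inc P (red P (MvPolynomial.C (algebraMap F L c))))
    rw [IsScalarTower.algebraMap_apply F L (AlgebraicClosure L), lb_alg]
  rw [e4, e5] at e3
  rw [inv_inv, e3]

theorem aux_lat [PerfectField L] (s : SplitD D n g T) (P : HP p L)
    (CG : Matrix.GeneralLinearGroup (Fin p) (AlgebraicClosure L))
    (hCG : (CG : Matrix (Fin p) (Fin p) (AlgebraicClosure L)) = s.C)
    (VG : Matrix.GeneralLinearGroup (Fin p) (AlgebraicClosure L))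
    (hVG : (VG : Matrix (Fin p) (Fin p) (AlgebraicClosure L)) = s.V)
    (w : Fin p → (PowerSeries (kP P))ˣ)
    (hw : ∀ i, ∑ j, la P (T.l i j) * phi P (algebraMap (S p L) (Q p L) (X j)) =
      ((MSK.tt (kP P) ^ lo P (T.l i) * MSK.uO (w i) : (LaurentSeries (kP P))ˣ) :
        LaurentSeries (kP P))) :
    (Matrix.GeneralLinearGroup.map (phi P)
      (Matrix.GeneralLinearGroup.mkOfDetNeZero s.G s.G_det))⁻¹ =
      Matrix.GeneralLinearGroup.map (MSK.iO (kP P)) (Matrix.GeneralLinearGroup.map (lp P) CG)⁻¹ *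
        MSK.dg (fun j => MSK.tt (kP P) ^ (n * (lo P (T.l j) : ℤ))) *
        Matrix.GeneralLinearGroup.map (MSK.iO (kP P))
          (MSK.dg (fun i => w i ^ n) * (Matrix.GeneralLinearGroup.map (lp P) VG)⁻¹) := by
  have e0 : ∀ x : Matrix.GeneralLinearGroup (Fin p) (AlgebraicClosure L),
      Matrix.GeneralLinearGroup.map (MSK.iO (kP P)) (Matrix.GeneralLinearGroup.map (lp P) x) =
        Matrix.GeneralLinearGroup.map (la P) x := fun x => map_GL_comp _ _ _
  have e1 : Matrix.GeneralLinearGroup.map (phi P)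
      (Matrix.GeneralLinearGroup.mkOfDetNeZero s.G s.G_det) =
      Matrix.GeneralLinearGroup.map (la P) VG *
        MSK.dg (fun i => (MSK.tt (kP P) ^ lo P (T.l i) * MSK.uO (w i)) ^ (-n)) *
        Matrix.GeneralLinearGroup.map (la P) CG := by
    apply Units.ext
    have h1 := s.spec (LaurentSeries (kP P)) (la P) (phi P) (la_alg P)
    refine Eq.trans h1 ?_
    rw [Units.val_mul, Units.val_mul]
    have h2 : (fun i => (∑ j, la P (T.l i j) * phi P (algebraMap (S p L) (Q p L) (X j))) ^
        (-n)) = fun i => (((MSK.tt (kP P) ^ lo P (T.l i) * MSK.uO (w i)) ^ (-n) :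
          (LaurentSeries (kP P))ˣ) : LaurentSeries (kP P)) := by
      funext i
      rw [hw i, Units.val_zpow_eq_zpow_val]
    rw [h2, ← hCG, ← hVG]
    rfl
  have e2 : (fun i => ((MSK.tt (kP P) ^ lo P (T.l i) * MSK.uO (w i)) ^ (-n))⁻¹) =
      fun i => MSK.tt (kP P) ^ (n * (lo P (T.l i) : ℤ)) *
        Units.map (MSK.iO (kP P) : PowerSeries (kP P) →* LaurentSeries (kP P)) (w i ^ n) := by
    funext i
    rw [zpow_neg, inv_inv, mul_zpow, ← zpow_natCast, ← zpow_mul, mul_comm n]
    congr 1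
    exact (map_zpow (Units.map (MSK.iO (kP P)).toMonoidHom) (w i) n).symm
  rw [e1, mul_inv_rev, mul_inv_rev, dg_inv', e2, dg_mul', map_inv, map_mul, map_inv, e0, e0, map_dg']
  simp only [mul_assoc]

/-- the value for the object of the matrix `G` -/
theorem th_ob [PerfectField L] (s : SplitD D n g T) :
    MSK.IsTh D.em (Dat.ob s.G s.G_det) (s.g'.map D.fK)
      (fun P => Units.map (inc P : kap P →* kP P) (T.fam D.hp.one_lt P).toMul ^ (-n)) := by
  classical
  -- matrices as elements of GL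
  obtain ⟨gF, hgF⟩ : ∃ x : Matrix.GeneralLinearGroup (Fin p) F, (x : Matrix (Fin p) (Fin p) F) = s.g' :=
    ⟨Matrix.GeneralLinearGroup.mkOfDetNeZero s.g' s.g'_det, rfl⟩
  obtain ⟨CG, hCG⟩ : ∃ x : Matrix.GeneralLinearGroup (Fin p) (AlgebraicClosure L),
      (x : Matrix (Fin p) (Fin p) (AlgebraicClosure L)) = s.C :=
    ⟨Matrix.GeneralLinearGroup.mkOfDetNeZero s.C s.C_det, rfl⟩
  obtain ⟨VG, hVG⟩ : ∃ x : Matrix.GeneralLinearGroup (Fin p) (AlgebraicClosure L),
      (x : Matrix (Fin p) (Fin p) (AlgebraicClosure L)) = s.V :=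
    ⟨Matrix.GeneralLinearGroup.mkOfDetNeZero s.V s.V_det, rfl⟩
  choose w hw using fun (P : HP p L) (i : Fin p) => lin_fac P (T.l i) (T.l_ne i)
  have hφ : ∀ P : HP p L, (D.em P).comp D.fK = (MSK.iO (kP P)).comp ((PowerSeries.C (R := kP P)).comp
      ((inc P).comp ((red P).comp ((MvPolynomial.C : L →+* S p L).comp (algebraMap F L))))) := by
    intro P
    refine RingHom.ext fun c => ?_
    have h1 : (D.em P) (D.fK c) = cs (psi P (MvPolynomial.C (algebraMap F L c))) :=
      phi_alg P (MvPolynomial.C (algebraMap F L c))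
    rw [RingHom.comp_apply, h1, psi_C]
    rfl
  have key : MSK.IsTh D.em (Dat.ob s.G s.G_det) ((gF : Matrix (Fin p) (Fin p) F).map D.fK)
      (fun P => ∏ j, ((Units.mk0 (lb P (T.e j)) ((map_ne_zero _).2 (T.e_ne j)) : (kP P)ˣ) ^
        (n * (lo P (T.l j) : ℤ)))⁻¹) :=
    MSK.IsTh_const (ψ := D.em) D.fK (fun P => (inc P).comp ((red P).comp
      ((MvPolynomial.C : L →+* S p L).comp (algebraMap F L)))) hφ (Dat.ob s.G s.G_det) gF
      (fun P => (Matrix.GeneralLinearGroup.map (lp P) CG)⁻¹)
      (fun P => MSK.dg (fun i => w P i ^ n) * (Matrix.GeneralLinearGroup.map (lp P) VG)⁻¹)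
      (fun P j => Units.mk0 (lb P (T.e j)) ((map_ne_zero _).2 (T.e_ne j)))
      (fun P j => n * (lo P (T.l j) : ℤ)) (fun P => s.aux_gam P gF hgF CG hCG)
      (fun P => s.aux_lat P CG hCG VG hVG (w P) (hw P))
  rw [hgF] at key
  have hval : (fun P : HP p L => ∏ j, ((Units.mk0 (lb P (T.e j)) ((map_ne_zero _).2 (T.e_ne j)) :
      (kP P)ˣ) ^ (n * (lo P (T.l j) : ℤ)))⁻¹) =
      fun P => Units.map (inc P : kap P →* kP P) (T.fam D.hp.one_lt P).toMul ^ (-n) := by
    funext P
    have h1 : Units.map (inc P : kap P →* kP P) (T.fam D.hp.one_lt P).toMul =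
        ∏ j, (Units.mk0 (lb P (T.e j)) ((map_ne_zero _).2 (T.e_ne j)) : (kP P)ˣ) ^
          (lo P (T.l j) : ℤ) := by
      ext1
      have h2 := T.fam_spec D.hp.one_lt P (inc P) (lb P) (lb_alg P)
      refine Eq.trans h2 ?_
      rw [Units.coe_prod]
      refine Finset.prod_congr rfl fun j _ => ?_
      by_cases h3 : ∑ k, lb P (T.l j k) * inc P (red P (X k)) = 0
      · rw [if_pos h3]
        have h4 : lo P (T.l j) = 1 := if_pos h3
        rw [h4, Nat.cast_one, zpow_one, Units.val_mk0]
      · rw [if_neg h3]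
        have h4 : lo P (T.l j) = 0 := if_neg h3
        rw [h4, Nat.cast_zero, zpow_zero, Units.val_one]
    rw [h1, ← Finset.prod_zpow]
    refine Finset.prod_congr rfl fun j _ => ?_
    rw [← zpow_mul, ← zpow_neg]
    congr 1
    ring
  rw [← hval]
  exact key

end SplitD

end Pool.Agent.MSX
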