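import Pool.Agent.MSX.ThD

/-! # The value of an automorphism of a standard object with split data: transport to the standard object -/

set_option autoImplicit false
set_option maxHeartbeats 400000

namespace Pool.Agent.MSX

open MvPolynomial

universe u

variable {p : ℕ} {F L : Type u} [Field F] [Field L] [Algebra F L] {D : Dat p F L}

namespace Dat

section

variable {ι κ : Type} [Fintype ι] [DecidableEq ι] [Fintype κ] [DecidableEq κ]

omit [DecidableEq ι] [DecidableEq κ] in
theorem sub_mul_sub {R : Type*} [CommRing R] {α β : Type*} (e : κ ≃ ι) (A : Matrix α ι R)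
    (B : Matrix ι β R) {α' β' : Type*} (f : α' → α) (g : β' → β) :
    A.submatrix f e * B.submatrix e g = (A * B).submatrix f g := by
  have h := Matrix.submatrix_mul_equiv A B f e g
  exact h

/-- a permutation matrix -/
def prm (R : Type*) [CommRing R] (e : κ ≃ ι) : Matrix κ ι R := fun i j => if e i = j then 1 else 0

/-- the inverse permutation matrix -/
def prm' (R : Type*) [CommRing R] (e : κ ≃ ι) : Matrix ι κ R := fun i j => if i = e j then 1 else 0

theorem prm_mul {R : Type*} [CommRing R] (e : κ ≃ ι) {α : Type*} (G : Matrix ι α R) :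
    prm R e * G = G.submatrix e id := by
  refine Matrix.ext fun i j => ?_
  rw [Matrix.mul_apply, Matrix.submatrix_apply, Finset.sum_eq_single (e i)]
  · simp [prm]
  · intro b _ hb
    simp [prm, Ne.symm hb]
  · simp

theorem prm'_mul {R : Type*} [CommRing R] (e : κ ≃ ι) {α : Type*} (G : Matrix ι ι R) (g : α → ι) :
    prm' R e * G.submatrix e g = G.submatrix id g := by
  refine Matrix.ext fun i j => ?_
  rw [Matrix.mul_apply, Matrix.submatrix_apply, Finset.sum_eq_single (e.symm i)]
  · simp [prm']
  · intro b _ hb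
    have h : ¬ i = e b := fun h => hb (by rw [h, Equiv.symm_apply_apply])
    simp [prm', h]
  · simp

theorem prm_map {R R' : Type*} [CommRing R] [CommRing R'] (f : R →+* R') (e : κ ≃ ι) :
    (prm R e).map f = prm R' e := by
  refine Matrix.ext fun i j => ?_
  rw [Matrix.map_apply]
  unfold prm
  split_ifs
  · exact map_one f
  · exact map_zero f

theorem prm'_map {R R' : Type*} [CommRing R] [CommRing R'] (f : R →+* R') (e : κ ≃ ι) :
    (prm' R e).map f = prm' R' e := by
  refine Matrix.ext fun i j => ?_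
  rw [Matrix.map_apply]
  unfold prm'
  split_ifs
  · exact map_one f
  · exact map_zero f

/-- isomorphism between the objects of two matrices of invariants -/
theorem ob_iso [PerfectField L] (e : κ ≃ ι) {G : Matrix ι ι (Q p L)} (hG : G.det ≠ 0)
    {G₁ : Matrix ι ι (Q p L)} (hG₁ : G₁.det ≠ 0) {G' : Matrix κ κ (Q p L)} (hG' : G'.det ≠ 0)
    (h' : G' = G₁.submatrix e e)
    {N N' : Matrix ι ι D.K} (h1 : G = G₁ * N.map D.K.subtype) (h2 : G₁ = G * N'.map D.K.subtype) :
    MSK.IsoM D.em (ob G hG) (ob G' hG') (N.submatrix e id) (N'.submatrix id e) := by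
  have hu : IsUnit G.det := isUnit_iff_ne_zero.2 hG
  have hu₁ : IsUnit G₁.det := isUnit_iff_ne_zero.2 hG₁
  have e1 : N * N' = 1 := by
    apply map_sub_inj
    rw [Matrix.map_mul, Matrix.map_one _ (map_zero _) (map_one _)]
    have h3 : G₁ * (N.map D.K.subtype * N'.map D.K.subtype) = G₁ := by
      rw [← Matrix.mul_assoc, ← h1, ← h2]
    calc N.map D.K.subtype * N'.map D.K.subtype =
        G₁⁻¹ * (G₁ * (N.map D.K.subtype * N'.map D.K.subtype)) := by
          rw [← Matrix.mul_assoc G₁⁻¹, Matrix.nonsing_inv_mul _ hu₁, Matrix.one_mul]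
      _ = 1 := by rw [h3, Matrix.nonsing_inv_mul _ hu₁]
  have e2 : N' * N = 1 := by
    apply map_sub_inj
    rw [Matrix.map_mul, Matrix.map_one _ (map_zero _) (map_one _)]
    have h3 : G * (N'.map D.K.subtype * N.map D.K.subtype) = G := by
      rw [← Matrix.mul_assoc, ← h2, ← h1]
    calc N'.map D.K.subtype * N.map D.K.subtype =
        G⁻¹ * (G * (N'.map D.K.subtype * N.map D.K.subtype)) := by
          rw [← Matrix.mul_assoc G⁻¹, Matrix.nonsing_inv_mul _ hu, Matrix.one_mul]
      _ = 1 := by rw [h3, Matrix.nonsing_inv_mul _ hu]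
  refine ⟨?_, ?_, fun P => ?_, fun P => ?_⟩
  · show N.submatrix e id * N'.submatrix id e = 1
    rw [← Matrix.submatrix_mul _ _ _ _ _ Function.bijective_id, e1, Matrix.submatrix_one_equiv]
  · show N'.submatrix id e * N.submatrix e id = 1
    rw [sub_mul_sub, e2, Matrix.submatrix_id_id]
  · refine ob_LI hG hG' (E := prm L e) (N := N.submatrix e id) ?_ P
    have e4 : (N.submatrix e id).map D.K.subtype = (N.map D.K.subtype).submatrix e id := rfl
    rw [prm_map, prm_mul, e4, h', sub_mul_sub, ← h1]
  · refine ob_LI hG' hG (E := prm' L e) (N := N'.submatrix id e) ?_ P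
    have e4 : (N'.submatrix id e).map D.K.subtype = (N'.map D.K.subtype).submatrix id e := rfl
    have e5 : G * (N'.map D.K.subtype).submatrix id e = G₁.submatrix id e := by
      have h := Matrix.submatrix_mul G (N'.map D.K.subtype) id id e Function.bijective_id
      rw [Matrix.submatrix_id_id, ← h2] at h
      exact h.symm
    rw [prm'_map, e4, e5, h', prm'_mul]

end

/-- the value of an automorphism with split data -/
theorem th_split [PerfectField L] {n : ℤ} (hn : ¬ (p : ℤ) ∣ n)
    {γ : Matrix (Fin (dm p n)) (Fin (dm p n)) L} (hγ : γ ∈ D.An n) {T : TD p L (Fin p)}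
    (h : D.Split n (rx hn γ) T) :
    MSK.IsTh D.em (D.Os n) (D.km n γ)
      (fun P => Units.map (inc P : kap P →* kP P) (T.fam D.hp.one_lt P).toMul ^ (-n)) := by
  obtain ⟨s⟩ := h
  obtain ⟨N, hN⟩ := exists_cmp (n := n) s.G_det (D.gp_det hn) s.inv (D.bp_gp hn) s.deg
    (D.gp_deg hn)
  obtain ⟨N', hN'⟩ := exists_cmp (n := n) (D.gp_det hn) s.G_det (D.bp_gp hn) s.inv (D.gp_deg hn)
    s.deg
  have hGm : D.Gm n = (D.Gp n).submatrix (finCongr (dm_of hn)) (finCongr (dm_of hn)) := by
    rw [← D.gp_rx hn]
    ext i j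
    rfl
  have hiso := ob_iso (D := D) (finCongr (dm_of hn)) s.G_det (D.gp_det hn) (D.gm_det n) hGm hN hN'
  have h1 := MSK.IsTh_iso hiso s.th_ob
  have hkm : D.km n γ = N.submatrix (finCongr (dm_of hn)) id * s.g'.map D.fK *
      N'.submatrix id (finCongr (dm_of hn)) := by
    refine km_eq hγ ?_
    unfold IsKm
    have e0 : γ = (rx hn γ).submatrix (finCongr (dm_of hn)) (finCongr (dm_of hn)) := by
      ext i j
      rfl
    have e1 : γ.map cQ * D.Gm n = ((rx hn γ).map cQ * D.Gp n).submatrix (finCongr (dm_of hn))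
        (finCongr (dm_of hn)) := by
      rw [hGm]
      conv_lhs => rw [e0]
      rw [← sub_mul_sub (finCongr (dm_of hn))]
      rfl
    have e2 : (N.submatrix (finCongr (dm_of hn)) id * s.g'.map D.fK *
        N'.submatrix id (finCongr (dm_of hn))).map D.K.subtype =
        (N.map D.K.subtype * (s.g'.map (algebraMap F L)).map cQ *
          N'.map D.K.subtype).submatrix (finCongr (dm_of hn)) (finCongr (dm_of hn)) := by
      have e3 : (s.g'.map D.fK).map D.K.subtype = (s.g'.map (algebraMap F L)).map cQ := by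
        ext i j
        rfl
      rw [Matrix.map_mul, Matrix.map_mul, e3]
      ext i j
      simp only [Matrix.mul_apply, Matrix.submatrix_apply, Matrix.map_apply, id]
    rw [e1, e2, hGm, sub_mul_sub]
    congr 1
    rw [← Matrix.mul_assoc, ← Matrix.mul_assoc, ← hN, ← s.gG, Matrix.mul_assoc, ← hN']
  have h2 : MSK.IsTh D.em (ob (D.Gm n) (D.gm_det n)) (N.submatrix (finCongr (dm_of hn)) id *
      s.g'.map D.fK * N'.submatrix id (finCongr (dm_of hn)))
      (fun P => Units.map (inc P : kap P →* kP P) (T.fam D.hp.one_lt P).toMul ^ (-n)) := h1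
  rw [← hkm] at h2
  exact h2

end Dat

end Pool.Agent.MSX
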