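import Pool.Agent.MSX.ThE
import Pool.Agent.MSX.SplA

/-! # The values of the automorphisms of the standard objects of degree divisible by `p` -/

set_option autoImplicit false
set_option maxHeartbeats 400000

namespace Pool.Agent.MSX

open MvPolynomial

universe u

variable {p : ℕ} {F L : Type u} [Field F] [Field L] [Algebra F L] {D : Dat p F L}

namespace Dat

theorem dm_sub {n : ℤ} (hn : (p : ℤ) ∣ n) : Subsingleton (Fin (dm p n)) := by
  have hd : dm p n = 1 := by rw [dm, if_pos hn]
  rw [hd]
  infer_instance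

/-- the endomorphisms of the standard object of degree divisible by `p` are the constants in `F` -/
theorem an_scalar {n : ℤ} (hn : (p : ℤ) ∣ n) {γ : Matrix (Fin (dm p n)) (Fin (dm p n)) L}
    (hγ : γ ∈ D.An n) : ∃ c : F, ∀ i j, γ i j = algebraMap F L c := by
  have hs := dm_sub hn
  have hd : dm p n = 1 := by rw [dm, if_pos hn]
  have i0 : Fin (dm p n) := ⟨0, by rw [hd]; exact one_pos⟩
  have h1 : (γ * D.Bm n) i0 i0 = (D.Bm n * γ.map D.s) i0 i0 := by
    rw [(show γ * D.Bm n = D.Bm n * γ.map D.s from hγ)]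
  rw [Matrix.mul_apply, Matrix.mul_apply, Fintype.sum_subsingleton _ i0,
    Fintype.sum_subsingleton _ i0, Matrix.map_apply] at h1
  have hb : D.Bm n i0 i0 = D.bL ^ (n / p) := by
    simp only [Bm, if_pos hn]
  rw [hb, mul_comm] at h1
  have h2 := mul_left_cancel₀ (zpow_ne_zero _ D.bL_ne) h1
  obtain ⟨c, hc⟩ := D.fix _ h2.symm
  refine ⟨c, fun i j => ?_⟩
  rw [hc, Subsingleton.elim i i0, Subsingleton.elim j i0]

/-- order and leading coefficient of `y0` at `P` -/
theorem y0_fac [PerfectField L] (P : HP p L) : ∃ w : (PowerSeries (kP P))ˣ,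
    phi P (algebraMap (S p L) (Q p L) y0) =
      ((MSK.tt (kP P) ^ (∑ i : Fin p, lo P (Pi.single i 1)) * MSK.uO w : (LaurentSeries (kP P))ˣ) :
        LaurentSeries (kP P)) := by
  have hne : ∀ i : Fin p, (Pi.single i 1 : Fin p → AlgebraicClosure L) ≠ 0 := by
    intro i h
    have h1 := congrFun h i
    rw [Pi.single_eq_same, Pi.zero_apply] at h1
    exact one_ne_zero h1
  choose w hw using fun i : Fin p => lin_fac P (Pi.single i 1) (hne i)
  refine ⟨∏ i, w i, ?_⟩
  have h1 : ∀ i : Fin p, phi P (algebraMap (S p L) (Q p L) (X i)) =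
      ((MSK.tt (kP P) ^ lo P (Pi.single i 1) * MSK.uO (w i) : (LaurentSeries (kP P))ˣ) :
        LaurentSeries (kP P)) := by
    intro i
    rw [← hw i, Finset.sum_eq_single i]
    · rw [Pi.single_eq_same, map_one, one_mul]
    · intro j _ hj
      rw [Pi.single_eq_of_ne hj, map_zero, zero_mul]
    · simp
  have h2 : MSK.uO (∏ i, w i) = ∏ i, MSK.uO (w i) :=
    map_prod (Units.map (MSK.iO (kP P)).toMonoidHom) w Finset.univ
  unfold y0
  rw [map_prod, map_prod, Finset.prod_congr rfl fun i _ => h1 i, h2, ← Finset.prod_pow_eq_pow_sum,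
    ← Finset.prod_mul_distrib, Units.coe_prod]

theorem ta_value [PerfectField L] {c : F} (hc : algebraMap F L c ≠ 0) (P : HP p L) :
    Units.map (inc P : kap P →* kP P) ((D.TA (algebraMap F L c) hc).fam D.hp.one_lt P).toMul =
      (Units.mk0 (inc P (red P (C (algebraMap F L c)))) ((map_ne_zero _).2 ((map_ne_zero
        ((red P).comp (C : L →+* S p L))).2 hc)) : (kP P)ˣ) ^
        (∑ i : Fin p, lo P (Pi.single i 1)) := by
  classical
  ext1
  have h2 := (D.TA (algebraMap F L c) hc).fam_spec D.hp.one_lt P (inc P) (lb P) (lb_alg P)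
  refine Eq.trans h2 ?_
  rw [Units.val_pow_eq_pow_val, Units.val_mk0, ← Finset.prod_pow_eq_pow_sum]
  refine Finset.prod_congr rfl fun i _ => ?_
  have h4 : lb P ((D.TA (algebraMap F L c) hc).e i) = inc P (red P (C (algebraMap F L c))) := by
    show lb P (algebraMap L (AlgebraicClosure L) ((D.s ^ i.val) (algebraMap F L c))) = _
    rw [AlgEquiv.commutes, lb_alg]
  by_cases h3 : ∑ j, lb P ((D.TA (algebraMap F L c) hc).l i j) * inc P (red P (X j)) = 0
  · rw [if_pos h3, h4]
    have h5 : lo P (Pi.single i 1) = 1 := if_pos h3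
    rw [h5, pow_one]
  · rw [if_neg h3]
    have h5 : lo P (Pi.single i 1) = 0 := if_neg h3
    rw [h5, pow_zero]

/-- the value of a constant on a standard object of degree divisible by `p` -/
theorem th_scalar [PerfectField L] {n : ℤ} (hn : (p : ℤ) ∣ n)
    {γ : Matrix (Fin (dm p n)) (Fin (dm p n)) L} (hγ : γ ∈ D.An n) {c : F}
    (hc : algebraMap F L c ≠ 0) (h : ∀ i j, γ i j = algebraMap F L c) :
    MSK.IsTh D.em (D.Os n) (D.km n γ)
      (fun P => Units.map (inc P : kap P →* kP P)
        ((D.TA (algebraMap F L c) hc).fam D.hp.one_lt P).toMul ^ (-(n / p))) := by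
  have hs := dm_sub hn
  have hc' : c ≠ 0 := by
    rintro rfl
    exact hc (map_zero _)
  choose w hw using fun P : HP p L => y0_fac P
  have hφ : ∀ P : HP p L, (D.em P).comp D.fK = (MSK.iO (kP P)).comp ((PowerSeries.C (R := kP P)).comp
      ((inc P).comp ((red P).comp ((MvPolynomial.C : L →+* S p L).comp (algebraMap F L))))) := by
    intro P
    refine RingHom.ext fun c => ?_
    have h1 : (D.em P) (D.fK c) = cs (psi P (MvPolynomial.C (algebraMap F L c))) :=
      phi_alg P (MvPolynomial.C (algebraMap F L c))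
    rw [RingHom.comp_apply, h1, psi_C]
    rfl
  have key := MSK.IsTh_const (ψ := D.em) D.fK (fun P => (inc P).comp ((red P).comp
      ((MvPolynomial.C : L →+* S p L).comp (algebraMap F L)))) hφ (ob (D.Gm n) (D.gm_det n))
      (MSK.dg (fun _ : Fin (dm p n) => Units.mk0 c hc'))
      (fun _ => 1)
      (fun P => MSK.dg (fun _ : Fin (dm p n) => w P ^ (n / p)))
      (fun P _ => Units.mk0 (inc P (red P (C (algebraMap F L c)))) ((map_ne_zero _).2 ((map_ne_zero
        ((red P).comp (C : L →+* S p L))).2 hc)))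
      (fun P _ => (n / p) * ((∑ i : Fin p, lo P (Pi.single i 1) : ℕ) : ℤ)) ?_ ?_
  · have hkm : D.km n γ = ((MSK.dg (fun _ : Fin (dm p n) => Units.mk0 c hc') :
        Matrix.GeneralLinearGroup (Fin (dm p n)) F) : Matrix (Fin (dm p n)) (Fin (dm p n)) F).map
          D.fK := by
      refine km_eq hγ ?_
      unfold IsKm
      refine Matrix.ext fun i j => ?_
      rw [Matrix.mul_apply, Matrix.mul_apply, Fintype.sum_subsingleton _ i,
        Fintype.sum_subsingleton _ i, Matrix.map_apply, Matrix.map_apply, Matrix.map_apply, h,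
        Subsingleton.elim j i]
      have h6 : ((MSK.dg (fun _ : Fin (dm p n) => Units.mk0 c hc') :
          Matrix.GeneralLinearGroup (Fin (dm p n)) F) : Matrix (Fin (dm p n)) (Fin (dm p n)) F) i i =
          c := Matrix.diagonal_apply_eq _ _
      rw [h6, mul_comm]
      rfl
    have hval : (fun P : HP p L => ∏ _j : Fin (dm p n),
        ((Units.mk0 (inc P (red P (C (algebraMap F L c)))) ((map_ne_zero _).2 ((map_ne_zero
        ((red P).comp (C : L →+* S p L))).2 hc)) : (kP P)ˣ) ^
          ((n / p) * ((∑ i : Fin p, lo P (Pi.single i 1) : ℕ) : ℤ)))⁻¹) =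
        fun P => Units.map (inc P : kap P →* kP P)
          ((D.TA (algebraMap F L c) hc).fam D.hp.one_lt P).toMul ^ (-(n / p)) := by
      funext P
      rw [ta_value hc P, Finset.prod_const, Finset.card_univ, Fintype.card_fin]
      have hd : dm p n = 1 := by rw [dm, if_pos hn]
      rw [hd, pow_one, ← zpow_natCast, ← zpow_mul, ← zpow_neg]
      congr 1
      ring
    rw [← hval, hkm]
    exact key
  · intro P
    have h1 : Matrix.GeneralLinearGroup.map ((PowerSeries.C (R := kP P)).comp ((inc P).comp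
        ((red P).comp ((MvPolynomial.C : L →+* S p L).comp (algebraMap F L)))))
        (MSK.dg (fun _ : Fin (dm p n) => Units.mk0 c hc')) =
        MSK.dg (fun _ => MSK.uC (Units.mk0 (inc P (red P (C (algebraMap F L c))))
          ((map_ne_zero _).2 ((map_ne_zero ((red P).comp (C : L →+* S p L))).2 hc)))) := by
      rw [map_dg']
      congr 1
      funext i
      ext1
      rfl
    rw [inv_one, mul_one, one_mul]
    exact h1
  · intro P
    have hy : algebraMap (S p L) (Q p L) (y0 (p := p) (L := L)) ≠ 0 :=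
      (map_ne_zero_iff _ Q_inj).2 y0_ne
    have h1 : Matrix.GeneralLinearGroup.mkOfDetNeZero (D.Gm n) (D.gm_det n) =
        MSK.dg (fun _ => Units.mk0 (algebraMap (S p L) (Q p L) y0) hy ^ (-(n / p))) := by
      apply Units.ext
      refine Matrix.ext fun i j => ?_
      have e1 : D.Gm n i j = (algebraMap (S p L) (Q p L) y0) ^ (-(n / p)) := by
        simp only [Gm, if_pos hn]
      have e2 : Matrix.diagonal (fun _ : Fin (dm p n) =>
          ((Units.mk0 (algebraMap (S p L) (Q p L) y0) hy ^ (-(n / p)) : (Q p L)ˣ) : Q p L)) i j =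
          ((Units.mk0 (algebraMap (S p L) (Q p L) y0) hy ^ (-(n / p)) : (Q p L)ˣ) : Q p L) := by
        rw [Subsingleton.elim j i, Matrix.diagonal_apply_eq]
      refine Eq.trans e1 (Eq.trans ?_ e2.symm)
      rw [Units.val_zpow_eq_zpow_val, Units.val_mk0]
    have h2 : Units.map (phi P : Q p L →* LaurentSeries (kP P))
        (Units.mk0 (algebraMap (S p L) (Q p L) y0) hy) =
        MSK.tt (kP P) ^ (∑ i : Fin p, lo P (Pi.single i 1)) * MSK.uO (w P) := Units.ext (hw P)
    have h3 : (Matrix.GeneralLinearGroup.map (phi P)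
        (Matrix.GeneralLinearGroup.mkOfDetNeZero (D.Gm n) (D.gm_det n)))⁻¹ =
        MSK.dg (fun _ => MSK.tt (kP P) ^ ((n / p) * ((∑ i : Fin p, lo P (Pi.single i 1) : ℕ) : ℤ))) *
          Matrix.GeneralLinearGroup.map (MSK.iO (kP P)) (MSK.dg (fun _ => w P ^ (n / p))) := by
      rw [h1, map_dg', dg_inv', map_dg', ← dg_mul']
      congr 1
      funext i
      have e1 : (Units.map (phi P : Q p L →* LaurentSeries (kP P))
          (Units.mk0 (algebraMap (S p L) (Q p L) y0) hy ^ (-(n / p))))⁻¹ =
          (MSK.tt (kP P) ^ (∑ i : Fin p, lo P (Pi.single i 1)) * MSK.uO (w P)) ^ (n / (p : ℤ)) := by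
        rw [map_zpow, h2, zpow_neg, inv_inv]
      have e2 : (MSK.tt (kP P) ^ (∑ i : Fin p, lo P (Pi.single i 1)) * MSK.uO (w P)) ^ (n / (p : ℤ)) =
          MSK.tt (kP P) ^ ((n / p) * ((∑ i : Fin p, lo P (Pi.single i 1) : ℕ) : ℤ)) *
            MSK.uO (w P ^ (n / (p : ℤ))) := by
        rw [mul_zpow, ← zpow_natCast, ← zpow_mul, mul_comm (n / (p : ℤ))]
        congr 1
        exact (map_zpow (Units.map (MSK.iO (kP P)).toMonoidHom) (w P) (n / p)).symm
      exact e1.trans e2
    show (Matrix.GeneralLinearGroup.map (phi P)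
        (Matrix.GeneralLinearGroup.mkOfDetNeZero (D.Gm n) (D.gm_det n)))⁻¹ = _
    refine h3.trans ?_
    rw [map_one, one_mul]
    rfl

end Dat

end Pool.Agent.MSX
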