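import Pool.Agent.MK.P1

/-! # Places at a prime element: independence of the place

`A` is a domain with factorizations, `i : A → K` an injective homomorphism to its field of
fractions, `q` a prime element.  `TrAt i w q`: the tame symbol of `w` vanishes at every place of `K`
which restricts to the place of `q` (`MK.PlaceAt`).  By `trAt_of` it is enough to know this for one
place; places exist by `exists_placeAt`.
-/

set_option autoImplicit false

namespace Pool.Agent.MSX

universe u v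

open MK

variable {A : Type u} [CommRing A] [IsDomain A] [WfDvdMonoid A] {K : Type u} [Field K]

/-- The tame symbol of `w` vanishes at the places of the prime element `q`. -/
def TrAt {A : Type u} [CommRing A] {K : Type u} [Field K] (i : A →+* K) (w : K2 K) (q : A) :
    Prop :=
  ∀ (k : Type u) [Field k] (W : Val K k), PlaceAt i q W → W.tame w = 0

omit [IsDomain A] [WfDvdMonoid A] in
/-- The valuation of `q ^ n c` at a place at `q`. -/
theorem placeAt_v_pow {i : A →+* K} (hi : Function.Injective i) {k : Type v} [Field k]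
    {W : Val K k} {q : A} (hW : PlaceAt i q W) {c : A} (hq : q ≠ 0) (hc0 : c ≠ 0) (hc : ¬ q ∣ c)
    (n : ℕ) : W.v (i (q ^ n * c)) = n := by
  have h1 : i q ≠ 0 := (map_ne_zero_iff i hi).2 hq
  have h2 : i c ≠ 0 := (map_ne_zero_iff i hi).2 hc0
  rw [map_mul, map_pow, W.v_mul _ _ (pow_ne_zero n h1) h2, W.v_pow, hW.vp, hW.v0 c hc]
  ring

/-- Decomposition of the elements of `K` with respect to `q`. -/
theorem placeAt_dec {i : A →+* K} (hi : Function.Injective i)
    (hfrac : ∀ x : K, ∃ f g : A, g ≠ 0 ∧ x = i f / i g) {q : A} (hq : Prime q) {a : K}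
    (ha : a ≠ 0) : ∃ (m n : ℕ) (f g : A), ¬ q ∣ f ∧ ¬ q ∣ g ∧
      a = i (q ^ m * f) / i (q ^ n * g) ∧
      ∀ (k : Type u) [Field k] (W : Val K k), PlaceAt i q W → W.v a = (m : ℤ) - n := by
  obtain ⟨x, y, hy, rfl⟩ := hfrac a
  have hx : x ≠ 0 := by
    rintro rfl
    exact ha (by rw [map_zero, zero_div])
  obtain ⟨m, f, hf, hxf⟩ := WfDvdMonoid.max_power_factor hx hq.irreducible
  obtain ⟨n, g, hg, hyg⟩ := WfDvdMonoid.max_power_factor hy hq.irreducible
  have hf0 : f ≠ 0 := by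
    rintro rfl
    exact hf (dvd_zero q)
  have hg0 : g ≠ 0 := by
    rintro rfl
    exact hg (dvd_zero q)
  refine ⟨m, n, f, g, hf, hg, by rw [← hxf, ← hyg], ?_⟩
  intro k _ W hW
  rw [W.v_div ((map_ne_zero_iff i hi).2 hx) ((map_ne_zero_iff i hi).2 hy), hxf, hyg,
    placeAt_v_pow hi hW hq.ne_zero hf0 hf, placeAt_v_pow hi hW hq.ne_zero hg0 hg]

/-- The tame symbols at all the places at `q` are the residues of one element. -/
theorem placeAt_tame {i : A →+* K} (hi : Function.Injective i)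
    (hfrac : ∀ x : K, ∃ f g : A, g ≠ 0 ∧ x = i f / i g) {q : A} (hq : Prime q) (w : K2 K) :
    ∃ t : K, t ≠ 0 ∧ ∀ (k : Type u) [Field k] (W : Val K k), PlaceAt i q W →
      W.v t = 0 ∧ W.tame w = W.A t := by
  induction w using K2_induction with
  | hS a b ha hb =>
    obtain ⟨m, n, -, -, -, -, -, h1⟩ := placeAt_dec hi hfrac hq ha
    obtain ⟨m', n', -, -, -, -, -, h2⟩ := placeAt_dec hi hfrac hq hb
    refine ⟨(-1) ^ (((m : ℤ) - n) * ((m' : ℤ) - n')) * b ^ ((m : ℤ) - n) / a ^ ((m' : ℤ) - n'),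
      div_ne_zero (mul_ne_zero (zpow_ne_zero _ (neg_ne_zero.mpr one_ne_zero))
        (zpow_ne_zero _ hb)) (zpow_ne_zero _ ha), ?_⟩
    intro k _ W hW
    obtain ⟨h3, h4⟩ := W.tame_S_unit ha hb
    rw [h1 k W hW, h2 k W hW] at h3 h4
    exact ⟨h4, h3⟩
  | hz =>
    refine ⟨1, one_ne_zero, fun k _ W _ => ⟨W.v_one, ?_⟩⟩
    rw [map_zero, W.A_one]
  | hadd x y hx hy =>
    obtain ⟨t, ht, h1⟩ := hx
    obtain ⟨t', ht', h2⟩ := hy
    refine ⟨t * t', mul_ne_zero ht ht', fun k _ W hW => ?_⟩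
    obtain ⟨h3, h4⟩ := h1 k W hW
    obtain ⟨h5, h6⟩ := h2 k W hW
    rw [W.v_mul t t' ht ht', h3, h5, map_add, h4, h6, W.A_mul ht ht']
    exact ⟨by ring, rfl⟩

omit [IsDomain A] [WfDvdMonoid A] in
/-- Congruent elements prime to `q` have the same angular component. -/
theorem placeAt_congr {i : A →+* K} (hi : Function.Injective i) {k : Type v} [Field k]
    {W : Val K k} {q : A} (hW : PlaceAt i q W)
    (hnn : ∀ r : A, r ≠ 0 → 0 ≤ W.v (i r)) {f g : A} (hg0 : g ≠ 0) (hg : ¬ q ∣ g)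
    (h : q ∣ f - g) : W.ac (i f) = W.ac (i g) := by
  obtain ⟨r, hr⟩ := h
  have hf : f = g + q * r := by rw [← hr]; ring
  have h1 : i g ≠ 0 := (map_ne_zero_iff i hi).2 hg0
  by_cases h0 : q * r = 0
  · rw [hf, h0, add_zero]
  · have h2 : W.v (i g) < W.v (i (q * r)) := by
      have hq0 : q ≠ 0 := left_ne_zero_of_mul h0
      have hr0 : r ≠ 0 := right_ne_zero_of_mul h0
      rw [hW.v0 g hg, map_mul, W.v_mul _ _ ((map_ne_zero_iff i hi).2 hq0)
        ((map_ne_zero_iff i hi).2 hr0), hW.vp]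
      have := hnn r hr0
      omega
    rw [hf, map_add, (W.add_lt h1 (Or.inr h2)).2.2]

theorem placeAt_nonneg {i : A →+* K} (hi : Function.Injective i) {k : Type v} [Field k]
    {W : Val K k} {q : A} (hq : Prime q) (hW : PlaceAt i q W) (r : A) (hr : r ≠ 0) :
    0 ≤ W.v (i r) := by
  obtain ⟨m, f, hf, hxf⟩ := WfDvdMonoid.max_power_factor hr hq.irreducible
  have hf0 : f ≠ 0 := by
    rintro rfl
    exact hf (dvd_zero q)
  rw [hxf, placeAt_v_pow hi hW hq.ne_zero hf0 hf]
  positivity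

/-- It is enough to know the vanishing of the tame symbol at one place at `q`. -/
theorem trAt_of {i : A →+* K} (hi : Function.Injective i)
    (hfrac : ∀ x : K, ∃ f g : A, g ≠ 0 ∧ x = i f / i g) {q : A} (hq : Prime q) (w : K2 K)
    {k : Type u} [Field k] (W : Val K k) (hW : PlaceAt i q W) (h : W.tame w = 0) :
    TrAt i w q := by
  obtain ⟨t, ht, h1⟩ := placeAt_tame hi hfrac hq w
  obtain ⟨m, n, f, g, hf, hg, hfg, h2⟩ := placeAt_dec hi hfrac hq ht
  obtain ⟨h3, h4⟩ := h1 k W hW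
  have hmn : m = n := by
    have h5 := h2 k W hW
    rw [h3] at h5
    omega
  subst hmn
  have hf0 : f ≠ 0 := by
    rintro rfl
    exact hf (dvd_zero q)
  have hg0 : g ≠ 0 := by
    rintro rfl
    exact hg (dvd_zero q)
  have hif : i f ≠ 0 := (map_ne_zero_iff i hi).2 hf0
  have hig : i g ≠ 0 := (map_ne_zero_iff i hi).2 hg0
  have hiq : i (q ^ m) ≠ 0 := (map_ne_zero_iff i hi).2 (pow_ne_zero m hq.ne_zero)
  have htfg : t = i f / i g := by
    rw [hfg, map_mul, map_mul, mul_div_mul_left _ _ hiq]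
  rw [h4, htfg, W.A_div hif hig, sub_eq_zero, W.A_eq_iff hif hig] at h
  have hd : q ∣ f - g := hW.inj f g hf hg h
  intro k' _ W' hW'
  rw [(h1 k' W' hW').2, htfg, W'.A_div hif hig, sub_eq_zero, W'.A_eq_iff hif hig]
  exact placeAt_congr hi hW' (placeAt_nonneg hi hq hW') hg0 hg hd

/-- Places exist. -/
theorem exists_placeAt {i : A →+* K} (hi : Function.Injective i)
    (hfrac : ∀ x : K, ∃ f g : A, g ≠ 0 ∧ x = i f / i g) {q : A} (hq : Prime q) :
    ∃ (k : Type u) (_ : Field k) (W : Val K k), PlaceAt i q W := by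
  have hP : (Ideal.span {q}).IsPrime := (Ideal.span_singleton_prime hq.ne_zero).2 hq
  have hπ : ∀ r : A, ((algebraMap (A ⧸ Ideal.span {q}) (FractionRing (A ⧸ Ideal.span {q}))).comp
      (Ideal.Quotient.mk (Ideal.span {q}))) r = 0 ↔ q ∣ r := by
    intro r
    rw [RingHom.comp_apply, map_eq_zero_iff _ (IsFractionRing.injective _ _),
      Ideal.Quotient.eq_zero_iff_mem, Ideal.mem_span_singleton]
  obtain ⟨W, h1, -, -, h4⟩ := exists_prime i hi hfrac q hq _ hπ
  refine ⟨FractionRing (A ⧸ Ideal.span {q}), inferInstance, W, h1, fun r hr => (h4 r hr).1, ?_⟩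
  intro f g hf hg h
  rw [(h4 f hf).2, (h4 g hg).2] at h
  rw [← hπ, map_sub, h, sub_self]

/-- The tame symbol at a restricted place. -/
theorem tame_comap {K' : Type u} [Field K'] {k : Type v} [Field k] (W : Val K' k) (φ : K →+* K')
    (w : K2 K) : (W.comap φ).tame w = 0 ↔ W.tame (K2.map φ w) = 0 := by
  rw [← Val.tame_congr_zero (W.comap φ) W φ (RingHom.id k) (fun _ _ => rfl) (fun _ _ _ => rfl)]

end Pool.Agent.MSX
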