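import Pool.Agent.MSX.UaA

/-! # The polynomial step: unramified elements of `K₂` of the field of fractions of `A[X]`

`A` is a factorial domain with field of fractions `K0`; `iX A K0 : A[X] → K0(X)`.  An element of
`K₂(K0(X))` whose tame symbols at all the primes of `A[X]` vanish comes from an element of `K₂(K0)`
whose tame symbols at all the primes of `A` vanish.
-/

set_option autoImplicit false

namespace Pool.Agent.MSX

universe u v

open MK Polynomial
open scoped nonZeroDivisors

variable (A : Type u) [CommRing A] (K0 : Type u) [Field K0] [Algebra A K0]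

/-- The homomorphism `A[X] → K0(X)`. -/
noncomputable def iX : A[X] →+* RatFunc K0 :=
  (algebraMap K0[X] (RatFunc K0)).comp (mapRingHom (algebraMap A K0))

theorem iX_apply (f : A[X]) :
    iX A K0 f = algebraMap K0[X] (RatFunc K0) (f.map (algebraMap A K0)) := rfl

theorem iX_C (a : A) : iX A K0 (C a) = RatFunc.C (algebraMap A K0 a) := by
  rw [iX_apply, map_C, RatFunc.algebraMap_C]

variable [IsDomain A] [IsFractionRing A K0]

omit [IsDomain A] in
theorem iX_inj : Function.Injective (iX A K0) :=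
  (ratFunc_inj K0).comp (map_injective _ (IsFractionRing.injective A K0))

omit [IsDomain A] [IsFractionRing A K0] in
theorem smul_eq_C (b : A) (f : K0[X]) : b • f = C (algebraMap A K0 b) * f := by
  rw [C_mul', algebraMap_smul]

theorem iX_frac (x : RatFunc K0) : ∃ f g : A[X], g ≠ 0 ∧ x = iX A K0 f / iX A K0 g := by
  obtain ⟨f, g, hg, rfl⟩ := ratFunc_frac K0 x
  obtain ⟨b, hb, hf⟩ := IsLocalization.integerNormalization_spec A⁰ f
  obtain ⟨c, hc, hg'⟩ := IsLocalization.integerNormalization_spec A⁰ g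
  set f0 := IsLocalization.integerNormalization A⁰ f
  set g0 := IsLocalization.integerNormalization A⁰ g
  have hb0 : (algebraMap A K0 b) ≠ 0 :=
    (map_ne_zero_iff _ (IsFractionRing.injective A K0)).2 (nonZeroDivisors.ne_zero hb)
  have hc0 : (algebraMap A K0 c) ≠ 0 :=
    (map_ne_zero_iff _ (IsFractionRing.injective A K0)).2 (nonZeroDivisors.ne_zero hc)
  have e1 : iX A K0 f0 = RatFunc.C (algebraMap A K0 b) * algebraMap K0[X] (RatFunc K0) f := by
    rw [iX_apply, hf, ← RatFunc.algebraMap_C, ← map_mul, smul_eq_C]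
  have e2 : iX A K0 g0 = RatFunc.C (algebraMap A K0 c) * algebraMap K0[X] (RatFunc K0) g := by
    rw [iX_apply, hg', ← RatFunc.algebraMap_C, ← map_mul, smul_eq_C]
  have hb1 : RatFunc.C (algebraMap A K0 b) ≠ 0 := (_root_.map_ne_zero _).2 hb0
  have hc1 : RatFunc.C (algebraMap A K0 c) ≠ 0 := (_root_.map_ne_zero _).2 hc0
  have hg1 : algebraMap K0[X] (RatFunc K0) g ≠ 0 := (map_ne_zero_iff _ (ratFunc_inj K0)).2 hg
  have hg2 : iX A K0 (C b * g0) ≠ 0 := by
    rw [map_mul, iX_C, e2]
    exact mul_ne_zero hb1 (mul_ne_zero hc1 hg1)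
  refine ⟨C c * f0, C b * g0, ?_, ?_⟩
  · intro h
    exact hg2 (by rw [h, map_zero])
  · rw [eq_div_iff hg2, map_mul, map_mul, iX_C, iX_C, e1, e2]
    field_simp

theorem exists_primitive [UniqueFactorizationMonoid A] (p : K0[X]) (hp : Prime p) :
    ∃ q : A[X], q.IsPrimitive ∧ Prime q ∧ Associated (q.map (algebraMap A K0)) p := by
  let _ : NormalizedGCDMonoid A := Nonempty.some inferInstance
  obtain ⟨b, hb, hf⟩ := IsLocalization.integerNormalization_spec A⁰ p
  set f0 := IsLocalization.integerNormalization A⁰ p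
  have hb0 : (algebraMap A K0 b) ≠ 0 :=
    (map_ne_zero_iff _ (IsFractionRing.injective A K0)).2 (nonZeroDivisors.ne_zero hb)
  have hf0 : f0 ≠ 0 := by
    intro h0
    rw [h0, Polynomial.map_zero, smul_eq_C, eq_comm, mul_eq_zero, C_eq_zero] at hf
    exact hf.elim hb0 hp.ne_zero
  have hc0 : algebraMap A K0 f0.content ≠ 0 := by
    rw [map_ne_zero_iff _ (IsFractionRing.injective A K0)]
    exact mt content_eq_zero_iff.1 hf0
  have h1 : C (algebraMap A K0 f0.content) * f0.primPart.map (algebraMap A K0) =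
      C (algebraMap A K0 b) * p := by
    rw [← smul_eq_C A K0 b p, ← hf]
    conv_rhs => rw [f0.eq_C_content_mul_primPart]
    rw [Polynomial.map_mul, map_C]
  have hub : IsUnit (C (algebraMap A K0 b)) := isUnit_C.2 (IsUnit.mk0 _ hb0)
  have huc : IsUnit (C (algebraMap A K0 f0.content)) := isUnit_C.2 (IsUnit.mk0 _ hc0)
  have h2 : Associated (f0.primPart.map (algebraMap A K0)) p :=
    (associated_isUnit_mul_right_iff hub).1
      ((associated_isUnit_mul_left_iff huc).1 (Associated.of_eq h1))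
  refine ⟨f0.primPart, f0.isPrimitive_primPart, ?_, h2⟩
  apply Irreducible.prime
  rw [IsPrimitive.irreducible_iff_irreducible_map_fraction_map (K := K0) f0.isPrimitive_primPart]
  exact h2.symm.irreducible hp.irreducible

variable {A K0}

/-- The points of the affine line over `K0` are places of `A[X]`. -/
theorem exists_vPt [UniqueFactorizationMonoid A] (c : AlgebraicClosure K0) :
    ∃ q : A[X], Prime q ∧ PlaceAt (iX A K0) q (vPt c) := by
  obtain ⟨q, hq1, hq, hqc⟩ := exists_primitive A K0 (minpoly K0 c) (minpoly_prime c)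
  have hd : ∀ r : A[X], minpoly K0 c ∣ r.map (algebraMap A K0) → q ∣ r := by
    intro r hr
    exact hq1.dvd_of_fraction_map_dvd_fraction_map (hqc.dvd.trans hr)
  refine ⟨q, hq, ?_, ?_, ?_⟩
  · obtain ⟨u, hu⟩ := hqc.symm
    have hm0 : minpoly K0 c ≠ 0 := (minpoly_prime c).ne_zero
    have hnu : ¬ minpoly K0 c ∣ (u : K0[X]) := fun h =>
      (minpoly_prime c).not_isUnit (isUnit_of_dvd_unit h u.isUnit)
    rw [iX_apply, ← hu, map_mul, (vPt c).v_mul _ _ ((map_ne_zero_iff _ (ratFunc_inj K0)).2 hm0)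
      ((map_ne_zero_iff _ (ratFunc_inj K0)).2 u.ne_zero), (vPt_spec c).1,
      ((vPt_spec c).2.2.2 _ hnu).1]
    norm_num
  · intro r hr
    rw [iX_apply]
    exact ((vPt_spec c).2.2.2 _ fun h => hr (hd r h)).1
  · intro f g hf hg h
    rw [iX_apply, iX_apply, ((vPt_spec c).2.2.2 _ fun h => hf (hd f h)).2,
      ((vPt_spec c).2.2.2 _ fun h => hg (hd g h)).2] at h
    apply hd
    rw [minpoly.dvd_iff, Polynomial.map_sub, map_sub, h, sub_self]

omit [IsDomain A] [IsFractionRing A K0] in
/-- A place of `A[X]` at the prime `C q` restricts to a place of `A` at the prime `q`. -/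
theorem placeAt_C {k : Type v} [Field k] {W : Val (RatFunc K0) k} {q : A}
    (hW : PlaceAt (iX A K0) (C q) W) : PlaceAt (algebraMap A K0) q (W.comap RatFunc.C) := by
  have hd : ∀ r : A, C q ∣ C r → q ∣ r := by
    intro r hr
    rw [C_dvd_iff_dvd_coeff] at hr
    simpa using hr 0
  refine ⟨?_, ?_, ?_⟩
  · have h := hW.vp
    rw [iX_C] at h
    exact h
  · intro r hr
    have h := hW.v0 (C r) (fun h => hr (hd r h))
    rw [iX_C] at h
    exact h
  · intro f g hf hg h
    apply hd
    rw [C_sub]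
    refine hW.inj (C f) (C g) (fun h => hf (hd f h)) (fun h => hg (hd g h)) ?_
    rw [iX_C, iX_C]
    exact h

theorem poly_step [UniqueFactorizationMonoid A] (w : K2 (RatFunc K0))
    (h : ∀ q : A[X], Prime q → TrAt (iX A K0) w q) :
    ∃ w0 : K2 K0, K2.map (RatFunc.C : K0 →+* RatFunc K0) w0 = w ∧
      ∀ q : A, Prime q → TrAt (algebraMap A K0) w0 q := by
  obtain ⟨w0, hw0⟩ := unram_const w fun c => by
    obtain ⟨q, hq, hW⟩ := exists_vPt (A := A) c
    exact h q hq _ (vPt c) hW
  refine ⟨w0, hw0, fun q hq => ?_⟩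
  have hqC : Prime (C q : A[X]) := prime_C_iff.2 hq
  obtain ⟨k, _, W, hW⟩ := exists_placeAt (iX_inj A K0) (iX_frac A K0) hqC
  have h1 := h (C q) hqC k W hW
  rw [← hw0, ← tame_comap] at h1
  refine trAt_of (IsFractionRing.injective A K0) ?_ hq w0 (W.comap RatFunc.C) (placeAt_C hW) h1
  intro x
  obtain ⟨f, g, hg, hx⟩ := IsFractionRing.div_surjective (A := A) x
  exact ⟨f, g, nonZeroDivisors.ne_zero hg, hx.symm⟩

end Pool.Agent.MSX
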