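import Pool.Agent.MSX.UaB

/-! # Unramified elements of `K₂` of the function field of affine space are constant

Induction on the number of variables with `poly_step`.
-/

set_option autoImplicit false

namespace Pool.Agent.MSX

universe u v

open MK

section transport

variable {A B : Type u} [CommRing A] [CommRing B] {K K' : Type u} [Field K] [Field K']

/-- Transport of places along a ring isomorphism. -/
theorem placeAt_transport (e : A ≃+* B) {i : A →+* K} {i' : B →+* K'} {E : K →+* K'}
    (hE : ∀ a, E (i a) = i' (e a)) {k : Type v} [Field k] {q : B} {W : Val K' k}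
    (hW : PlaceAt i' q W) : PlaceAt i (e.symm q) (W.comap E) := by
  have hd : ∀ a : A, q ∣ e a → e.symm q ∣ a := by
    intro a ha
    have h := map_dvd e.symm ha
    rwa [RingEquiv.symm_apply_apply] at h
  refine ⟨?_, ?_, ?_⟩
  · have h : (W.comap E).v (i (e.symm q)) = W.v (E (i (e.symm q))) := rfl
    rw [h, hE, RingEquiv.apply_symm_apply]
    exact hW.vp
  · intro r hr
    have h : (W.comap E).v (i r) = W.v (E (i r)) := rfl
    rw [h, hE]
    exact hW.v0 _ fun h => hr (hd r h)
  · intro f g hf hg h
    have h2 : W.ac (E (i f)) = W.ac (E (i g)) := h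
    rw [hE, hE] at h2
    apply hd
    rw [map_sub]
    exact hW.inj _ _ (fun h => hf (hd f h)) (fun h => hg (hd g h)) h2

theorem trAt_transport (e : A ≃+* B) {i : A →+* K} {i' : B →+* K'} {E : K →+* K'}
    (hE : ∀ a, E (i a) = i' (e a)) {w : K2 K} {q : B} (h : TrAt i w (e.symm q)) :
    TrAt i' (K2.map E w) q := by
  intro k _ W hW
  rw [← tame_comap]
  exact h k (W.comap E) (placeAt_transport e hE hW)

theorem map_surj {φ : K →+* K'} (h : Function.Surjective φ) :
    Function.Surjective (K2.map φ) := by
  intro x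
  induction x using K2_induction with
  | hS a b ha hb =>
    obtain ⟨a', rfl⟩ := h a
    obtain ⟨b', rfl⟩ := h b
    exact ⟨S a' b', K2.map_S _ _ _⟩
  | hz => exact ⟨0, map_zero _⟩
  | hadd x y hx hy =>
    obtain ⟨x', rfl⟩ := hx
    obtain ⟨y', rfl⟩ := hy
    exact ⟨x' + y', map_add _ _ _⟩

theorem map_inj_of_bij {φ : K →+* K'} (h : Function.Bijective φ) :
    Function.Injective (K2.map φ) := by
  have h1 : ∀ x : K2 K, K2.map ((RingEquiv.ofBijective φ h).symm : K' →+* K) (K2.map φ x) = x := by
    intro x
    rw [K2.map_map]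
    have h2 : (((RingEquiv.ofBijective φ h).symm : K' →+* K)).comp φ = RingHom.id K := by
      ext a
      exact (RingEquiv.ofBijective φ h).symm_apply_apply a
    rw [h2, K2.map_id]
    rfl
  intro x y hxy
  rw [← h1 x, ← h1 y, hxy]

end transport

section

variable (n : ℕ) (k : Type u) [Field k]

/-- Constants in the function field of affine space. -/
noncomputable def cAff : k →+* FractionRing (MvPolynomial (Fin n) k) :=
  (algebraMap (MvPolynomial (Fin n) k) (FractionRing (MvPolynomial (Fin n) k))).comp
    MvPolynomial.C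

theorem cAff_zero_surj : Function.Surjective (cAff 0 k) := by
  intro x
  obtain ⟨f, g, hg, rfl⟩ := IsFractionRing.div_surjective (A := MvPolynomial (Fin 0) k) x
  obtain ⟨a, rfl⟩ := MvPolynomial.C_surjective (Fin 0) f
  obtain ⟨b, rfl⟩ := MvPolynomial.C_surjective (Fin 0) g
  refine ⟨a / b, ?_⟩
  rw [map_div₀]
  rfl

/-- The isomorphism of the function fields. -/
noncomputable def EA : FractionRing (MvPolynomial (Fin (n + 1)) k) →+*
    RatFunc (FractionRing (MvPolynomial (Fin n) k)) :=
  IsFractionRing.lift (A := MvPolynomial (Fin (n + 1)) k)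
    (g := (iX (MvPolynomial (Fin n) k) (FractionRing (MvPolynomial (Fin n) k))).comp
      (MvPolynomial.finSuccEquiv k n : MvPolynomial (Fin (n + 1)) k →+* _))
    ((iX_inj (MvPolynomial (Fin n) k) (FractionRing (MvPolynomial (Fin n) k))).comp
      (MvPolynomial.finSuccEquiv k n).injective)

theorem EA_alg (f : MvPolynomial (Fin (n + 1)) k) :
    EA n k (algebraMap _ _ f) = iX (MvPolynomial (Fin n) k)
      (FractionRing (MvPolynomial (Fin n) k)) (MvPolynomial.finSuccEquiv k n f) := by
  rw [EA, IsFractionRing.lift_algebraMap]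
  rfl

theorem EA_surj : Function.Surjective (EA n k) := by
  intro x
  obtain ⟨f, g, hg, rfl⟩ := iX_frac (MvPolynomial (Fin n) k)
    (FractionRing (MvPolynomial (Fin n) k)) x
  refine ⟨algebraMap _ _ ((MvPolynomial.finSuccEquiv k n).symm f) /
    algebraMap _ _ ((MvPolynomial.finSuccEquiv k n).symm g), ?_⟩
  rw [map_div₀, EA_alg, EA_alg, AlgEquiv.apply_symm_apply, AlgEquiv.apply_symm_apply]

theorem EA_C (c : k) : EA n k (cAff (n + 1) k c) = RatFunc.C (cAff n k c) := by
  have h : cAff (n + 1) k c = algebraMap (MvPolynomial (Fin (n + 1)) k) _ (MvPolynomial.C c) := rfl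
  rw [h, EA_alg, MvPolynomial.finSuccEquiv_apply, MvPolynomial.eval₂Hom_C, RingHom.comp_apply,
    iX_C]
  rfl

end

/-- Unramified elements of `K₂` of the function field of affine space are constant. -/
theorem uaff (k : Type u) [Field k] (n : ℕ) (w : K2 (FractionRing (MvPolynomial (Fin n) k)))
    (h : ∀ q : MvPolynomial (Fin n) k, Prime q →
      TrAt (algebraMap (MvPolynomial (Fin n) k) (FractionRing (MvPolynomial (Fin n) k))) w q) :
    ∃ w0 : K2 k, K2.map (cAff n k) w0 = w := by
  induction n with
  | zero => exact map_surj (cAff_zero_surj k) w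
  | succ n ih =>
    obtain ⟨w1, hw1, h1⟩ := poly_step (A := MvPolynomial (Fin n) k)
      (K0 := FractionRing (MvPolynomial (Fin n) k)) (K2.map (EA n k) w) (fun q hq => by
        refine trAt_transport (MvPolynomial.finSuccEquiv k n).toRingEquiv (EA_alg n k) ?_
        apply h
        exact (MulEquiv.prime_iff (MvPolynomial.finSuccEquiv k n).symm.toRingEquiv.toMulEquiv).2 hq)
    obtain ⟨w0, hw0⟩ := ih w1 h1
    refine ⟨w0, map_inj_of_bij ⟨(EA n k).injective, EA_surj n k⟩ ?_⟩
    rw [← hw1, ← hw0, K2.map_map, K2.map_map]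
    congr 1
    have h2 : (EA n k).comp (cAff (n + 1) k) = (RatFunc.C).comp (cAff n k) := by
      ext c
      exact EA_C n k c
    rw [h2]

end Pool.Agent.MSX
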